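import Mathlib

set_option autoImplicit false

namespace Pool.Agent.J4H39

open Finset

/-! Simple random walk: probability of having no zero during the last `m + 1` instants. -/

/-- `F m q d` is the probability that a simple random walk started at `d`, with `q` steps to go, has no zero
at the instants where the number of remaining steps is at most `m`. -/
noncomputable def F (m : ℕ) : ℕ → ℤ → ℝ
  | 0, d => if d = 0 then 0 else 1
  | q + 1, d => if d = 0 ∧ q + 1 ≤ m then 0 else (F m q (d + 1) + F m q (d - 1)) / 2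

/-- Probability of no zero during `q` steps. -/
noncomputable def U (q : ℕ) (d : ℤ) : ℝ := F q q d

theorem F_bd (m q : ℕ) : ∀ d : ℤ, 0 ≤ F m q d ∧ F m q d ≤ 1 := by
  induction q with
  | zero => intro d; unfold F; split_ifs <;> norm_num
  | succ q ih =>
    intro d
    unfold F
    have h1 := ih (d + 1)
    have h2 := ih (d - 1)
    split_ifs
    · norm_num
    · constructor <;> linarith

theorem F_nonneg (m q : ℕ) (d : ℤ) : 0 ≤ F m q d := (F_bd m q d).1

theorem F_le_one (m q : ℕ) (d : ℤ) : F m q d ≤ 1 := (F_bd m q d).2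

theorem F_zero {m q : ℕ} (h : q ≤ m) : F m q 0 = 0 := by
  cases q with
  | zero => simp [F]
  | succ q => unfold F; rw [if_pos ⟨rfl, h⟩]

theorem F_rec {m q : ℕ} {d : ℤ} (h : ¬ (d = 0 ∧ q + 1 ≤ m)) : F m (q + 1) d = (F m q (d + 1) + F m q (d - 1)) / 2 := by
  conv_lhs => unfold F
  rw [if_neg h]

theorem F_indep {m m' q : ℕ} (h : q ≤ m) (h' : q ≤ m') : ∀ d : ℤ, F m q d = F m' q d := by
  induction q with
  | zero => intro d; simp [F]
  | succ q ih =>
    intro d
    by_cases hd : d = 0
    · subst hd; rw [F_zero h, F_zero h']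
    · rw [F_rec (by tauto), F_rec (by tauto), ih (by omega) (by omega), ih (by omega) (by omega)]

theorem F_eq_U {m q : ℕ} (h : q ≤ m) (d : ℤ) : F m q d = U q d := F_indep h le_rfl d

theorem U_nonneg (q : ℕ) (d : ℤ) : 0 ≤ U q d := F_nonneg _ _ _

theorem U_le_one (q : ℕ) (d : ℤ) : U q d ≤ 1 := F_le_one _ _ _

theorem U_zero (q : ℕ) : U q 0 = 0 := F_zero le_rfl

theorem U_rec (q : ℕ) {d : ℤ} (hd : d ≠ 0) : U (q + 1) d = (U q (d + 1) + U q (d - 1)) / 2 := by
  unfold U
  rw [F_rec (by tauto), F_indep (Nat.le_succ q) le_rfl, F_indep (Nat.le_succ q) le_rfl]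

theorem U_base {d : ℤ} (hd : d ≠ 0) : U 0 d = 1 := by unfold U F; rw [if_neg hd]

theorem U_neg (q : ℕ) : ∀ d : ℤ, U q (-d) = U q d := by
  induction q with
  | zero =>
    intro d
    by_cases hd : d = 0
    · subst hd; simp
    · rw [U_base hd, U_base (by omega)]
  | succ q ih =>
    intro d
    by_cases hd : d = 0
    · subst hd; simp
    · rw [U_rec q hd, U_rec q (by omega : -d ≠ 0), show -d + 1 = -(d - 1) by ring, show -d - 1 = -(d + 1) by ring,
        ih, ih]
      ring

theorem U_anti (q : ℕ) : ∀ d : ℤ, U (q + 1) d ≤ U q d := by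
  induction q with
  | zero =>
    intro d
    by_cases hd : d = 0
    · subst hd; rw [U_zero, U_zero]
    · rw [U_base hd]; exact U_le_one _ _
  | succ q ih =>
    intro d
    by_cases hd : d = 0
    · subst hd; rw [U_zero, U_zero]
    · rw [U_rec (q + 1) hd, U_rec q hd]
      have := ih (d + 1)
      have := ih (d - 1)
      linarith

theorem U_antitone (d : ℤ) : Antitone (fun q => U q d) := antitone_nat_of_succ_le (fun q => U_anti q d)

/-- concavity -/
theorem U_conc (q : ℕ) {d : ℤ} (hd : d ≠ 0) : U q (d + 1) + U q (d - 1) ≤ 2 * U q d := by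
  have h := U_anti q d
  rw [U_rec q hd] at h
  linarith

theorem U_incr (q : ℕ) (d : ℕ) : U q ((d : ℤ) + 1) - U q d ≤ U q 1 := by
  induction d with
  | zero => simp [U_zero]
  | succ d ih =>
    have h := U_conc q (d := (d : ℤ) + 1) (by omega)
    rw [show (d : ℤ) + 1 - 1 = d by ring] at h
    push_cast
    linarith

theorem U_le_mul (q : ℕ) (d : ℕ) : U q d ≤ d * U q 1 := by
  induction d with
  | zero => simp [U_zero]
  | succ d ih =>
    have := U_incr q d
    push_cast
    linarith

/-! The law of the walk. -/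

/-- `p n d`: probability that the walk started at `d` is at `0` after `n` steps. -/
noncomputable def p : ℕ → ℤ → ℝ
  | 0, d => if d = 0 then 1 else 0
  | n + 1, d => (p n (d + 1) + p n (d - 1)) / 2

theorem p_succ (n : ℕ) (d : ℤ) : p (n + 1) d = (p n (d + 1) + p n (d - 1)) / 2 := rfl

theorem p_far (n : ℕ) : ∀ d : ℤ, d < -n → p n d = 0 := by
  induction n with
  | zero => intro d hd; unfold p; rw [if_neg (by push_cast at hd; omega)]
  | succ n ih =>
    intro d hd
    push_cast at hd
    rw [p_succ, ih _ (by omega), ih _ (by omega)]; norm_num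

theorem p_parity (n : ℕ) : ∀ d : ℤ, (n + d) % 2 = 1 → p n d = 0 := by
  induction n with
  | zero => intro d hd; unfold p; rw [if_neg (by push_cast at hd; omega)]
  | succ n ih =>
    intro d hd
    push_cast at hd
    rw [p_succ, ih _ (by omega), ih _ (by omega)]; norm_num

theorem p_formula (n : ℕ) : ∀ l : ℕ, p n (2 * l - n) = (n.choose l : ℝ) / 2 ^ n := by
  induction n with
  | zero =>
    intro l
    unfold p
    cases l with
    | zero => simp
    | succ l =>
      rw [if_neg (by push_cast; omega)]; simp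
  | succ n ih =>
    intro l
    rw [p_succ]
    cases l with
    | zero =>
      have h1 := ih 0
      rw [p_far n (2 * ((0 : ℕ) : ℤ) - ((n + 1 : ℕ) : ℤ) - 1) (by push_cast; omega)]
      rw [show (2 * ((0 : ℕ) : ℤ) - ((n + 1 : ℕ) : ℤ) + 1) = 2 * ((0 : ℕ) : ℤ) - n by push_cast; ring, h1]
      simp [pow_succ]; ring
    | succ l =>
      rw [show (2 * ((l + 1 : ℕ) : ℤ) - ((n + 1 : ℕ) : ℤ) + 1) = 2 * ((l + 1 : ℕ) : ℤ) - n by push_cast; ring,
        show (2 * ((l + 1 : ℕ) : ℤ) - ((n + 1 : ℕ) : ℤ) - 1) = 2 * (l : ℤ) - n by push_cast; ring, ih, ih,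
        Nat.choose_succ_succ]
      push_cast
      rw [pow_succ]; field_simp; ring

/-- The sum of the probabilities over `[-d, d)`. -/
noncomputable def Sm (q : ℕ) : ℕ → ℝ
  | 0 => 0
  | d + 1 => Sm q d + p q d + p q (-(d + 1))

theorem Sm_succ (q d : ℕ) : Sm q (d + 1) = Sm q d + p q d + p q (-(d + 1)) := rfl

theorem Sm_rec (q : ℕ) : ∀ d : ℕ, Sm (q + 1) (d + 1) = (Sm q (d + 2) + Sm q d) / 2 := by
  intro d
  induction d with
  | zero =>
    rw [Sm_succ, Sm_succ, Sm_succ, p_succ, p_succ]
    unfold Sm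
    push_cast
    norm_num
    ring
  | succ d ih =>
    rw [Sm_succ, ih, Sm_succ q (d + 2), Sm_succ q d, p_succ, p_succ]
    push_cast
    rw [show ((d : ℤ) + 1 + 1) = d + 2 by ring, show ((d : ℤ) + 1 - 1) = d by ring,
      show (-((d : ℤ) + 2) + 1) = -(d + 1) by ring,
      show (-((d : ℤ) + 2) - 1) = -(d + 2 + 1) by ring]
    ring

theorem Sm_zero : ∀ d : ℕ, Sm 0 (d + 1) = 1 := by
  intro d
  induction d with
  | zero => rw [Sm_succ]; unfold Sm p; simp
  | succ d ih =>
    rw [Sm_succ, ih]
    unfold p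
    rw [if_neg (by push_cast; omega), if_neg (by push_cast; omega)]; norm_num

/-- The reflection principle. -/
theorem U_eq_Sm (q : ℕ) : ∀ d : ℕ, U q d = Sm q d := by
  induction q with
  | zero =>
    intro d
    cases d with
    | zero => rw [Nat.cast_zero, U_zero]; rfl
    | succ d => rw [Sm_zero, U_base (by omega)]
  | succ q ih =>
    intro d
    cases d with
    | zero => rw [Nat.cast_zero, U_zero]; rfl
    | succ d =>
      rw [Sm_rec, ← ih, ← ih, U_rec q (by omega)]
      push_cast
      rw [show ((d : ℤ) + 1 - 1) = d by ring, show ((d : ℤ) + 1 + 1) = d + 2 by ring]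

/-- The probability of return at time `2 k`. -/
noncomputable def u (k : ℕ) : ℝ := (Nat.centralBinom k : ℝ) / 4 ^ k

theorem u_zero : u 0 = 1 := by unfold u; simp

theorem p_even (k : ℕ) : p (2 * k) 0 = u k := by
  have h := p_formula (2 * k) k
  rw [show (2 * (k : ℤ) - ((2 * k : ℕ) : ℤ)) = 0 by push_cast; ring] at h
  rw [h, u, Nat.centralBinom, pow_mul]; norm_num

theorem p_odd (k : ℕ) : p (2 * k + 1) 0 = 0 := p_parity _ _ (by push_cast; omega)

theorem U_one (l : ℕ) : U (2 * l + 1) 1 = u (l + 1) := by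
  have h := U_eq_Sm (2 * l + 1) 1
  rw [Nat.cast_one] at h
  rw [h, Sm_succ]
  unfold Sm
  rw [Nat.cast_zero, p_odd]
  have h2 := p_formula (2 * l + 1) l
  rw [show (2 * (l : ℤ) - ((2 * l + 1 : ℕ) : ℤ)) = -1 by push_cast; ring] at h2
  rw [zero_add, zero_add, zero_add, h2, u, Nat.centralBinom]
  have h3 : (2 * (l + 1)).choose (l + 1) = 2 * (2 * l + 1).choose l := by
    rw [show 2 * (l + 1) = (2 * l + 1) + 1 by ring, Nat.choose_succ_succ, Nat.choose_symm_half]
    ring
  rw [h3, show (4 : ℝ) ^ (l + 1) = 2 ^ (2 * l + 1) * 2 by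
    rw [show (4 : ℝ) = 2 ^ 2 by norm_num, ← pow_mul, ← pow_succ]; congr 1]
  push_cast
  field_simp

/-- Decomposition according to the instant at which the number of remaining steps is `m + 1`. -/
theorem F_diff (m : ℕ) : ∀ (a : ℕ) (d : ℤ), F m (m + a + 1) d - F (m + 1) (m + a + 1) d = p a d * U m 1 := by
  intro a
  induction a with
  | zero =>
    intro d
    rw [add_zero]
    by_cases hd : d = 0
    · subst hd
      rw [F_rec (by omega), F_zero (le_refl (m + 1)), F_eq_U le_rfl, F_eq_U le_rfl]
      rw [show (0 : ℤ) - 1 = -1 by ring, U_neg]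
      unfold p
      simp
    · rw [F_rec (by tauto), F_rec (by tauto), F_indep (m := m + 1) (m' := m) (q := m) (by omega) le_rfl,
        F_indep (m := m + 1) (m' := m) (q := m) (by omega) le_rfl]
      unfold p
      rw [if_neg hd]; ring
  | succ a ih =>
    intro d
    rw [show m + (a + 1) + 1 = (m + a + 1) + 1 by ring, F_rec (m := m) (q := m + a + 1) (d := d) (by omega),
      F_rec (m := m + 1) (q := m + a + 1) (d := d) (by omega), p_succ]
    have h1 := ih (d + 1)
    have h2 := ih (d - 1)
    linarith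

/-- The discrete arcsine law, first form. -/
theorem F_sum (m : ℕ) : ∀ a : ℕ, F m (m + a) 0 = ∑ i ∈ range a, p (a - 1 - i) 0 * U (m + i) 1 := by
  intro a
  have key : ∀ (j : ℕ), j ≤ a → F m (m + a) 0 = ∑ i ∈ range j, p (a - 1 - i) 0 * U (m + i) 1 + F (m + j) (m + a) 0 := by
    intro j
    induction j with
    | zero => intro _; simp
    | succ j ih =>
      intro hj
      rw [ih (by omega), sum_range_succ]
      have h := F_diff (m + j) (a - 1 - j) 0
      rw [show m + j + (a - 1 - j) + 1 = m + a by omega] at h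
      rw [← add_assoc]
      linarith
  rw [key a le_rfl, F_zero le_rfl, add_zero]

theorem sum_even (a : ℕ) (g : ℕ → ℝ) : ∑ i ∈ range (2 * a), g i = ∑ i ∈ range a, (g (2 * i) + g (2 * i + 1)) := by
  induction a with
  | zero => simp
  | succ a ih =>
    rw [show 2 * (a + 1) = 2 * a + 1 + 1 by ring, sum_range_succ, sum_range_succ, ih, sum_range_succ]
    ring

/-- The discrete arcsine law. -/
theorem F_arc {a b : ℕ} (hab : a ≤ b) : F (2 * (b - a)) (2 * b) 0 = ∑ i ∈ range a, u i * u (b - i) := by
  have h := F_sum (2 * (b - a)) (2 * a)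
  rw [show 2 * (b - a) + 2 * a = 2 * b by omega] at h
  rw [h, sum_even, ← sum_range_reflect (fun i => u i * u (b - i))]
  apply sum_congr rfl
  intro i hi
  rw [mem_range] at hi
  rw [show 2 * a - 1 - 2 * i = 2 * (a - 1 - i) + 1 by omega, p_odd,
    show 2 * a - 1 - (2 * i + 1) = 2 * (a - 1 - i) by omega, p_even,
    show 2 * (b - a) + (2 * i + 1) = 2 * (b - a + i) + 1 by ring, U_one,
    show b - a + i + 1 = b - (a - 1 - i) by omega]
  ring

end Pool.Agent.J4H39
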