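import Mathlib
import Pool.Agent.J4H39.S1

set_option autoImplicit false

namespace Pool.Agent.J4H39

open Finset Real

/-! The arcsine law. -/

theorem u_pos (k : ℕ) : 0 < u k := by
  unfold u
  have := Nat.centralBinom_pos k
  positivity

theorem u_sq_mul (k : ℕ) : (u k) ^ 2 * ((2 * k + 1) * Real.Wallis.W k) = 1 := by
  rw [Real.Wallis.W_eq_factorial_ratio]
  have h1 : (Nat.centralBinom k : ℝ) * (k.factorial * k.factorial) = (2 * k).factorial := by
    have h := Nat.choose_mul_factorial_mul_factorial (show k ≤ 2 * k by omega)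
    rw [show 2 * k - k = k by omega] at h
    rw [Nat.centralBinom, ← h]; push_cast; ring
  have h2 : (0 : ℝ) < (2 * k).factorial := by exact_mod_cast Nat.factorial_pos _
  have h3 : (0 : ℝ) < k.factorial := by exact_mod_cast Nat.factorial_pos _
  have h4 : u k = (2 * k).factorial / (k.factorial * k.factorial * 4 ^ k) := by
    unfold u
    rw [div_eq_div_iff (by positivity) (by positivity), ← h1]; ring
  rw [h4]
  have h5 : (2 : ℝ) ^ (4 * k) = (4 ^ k) ^ 2 := by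
    rw [← pow_mul, show (4 : ℝ) = 2 ^ 2 by norm_num, ← pow_mul]; congr 1; ring
  rw [h5]
  field_simp

theorem u_sq_le {k : ℕ} (hk : 1 ≤ k) : (u k) ^ 2 ≤ 1 / (π * k) := by
  have h := u_sq_mul k
  have hW := Real.Wallis.le_W k
  have hk0 : (0 : ℝ) < k := by exact_mod_cast hk
  have hu := sq_nonneg (u k)
  rw [le_div_iff₀ (by positivity), ← h]
  apply mul_le_mul_of_nonneg_left _ hu
  have h1 : (2 * (k : ℝ) + 1) * ((2 * k + 1) / (2 * k + 2) * (π / 2)) ≤ (2 * k + 1) * Real.Wallis.W k :=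
    mul_le_mul_of_nonneg_left hW (by positivity)
  refine le_trans ?_ h1
  have h2 : (2 * (k : ℝ) + 1) * ((2 * k + 1) / (2 * k + 2) * (π / 2)) = π * ((2 * k + 1) ^ 2 / (4 * (k + 1))) := by
    field_simp; ring
  rw [h2]
  apply mul_le_mul_of_nonneg_left _ Real.pi_pos.le
  rw [le_div_iff₀ (by positivity)]
  nlinarith

theorem le_u_sq (k : ℕ) : 1 / (π * (k + 1 / 2)) ≤ (u k) ^ 2 := by
  have h := u_sq_mul k
  have hW := Real.Wallis.W_le k
  have hu := sq_nonneg (u k)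
  have hpi := Real.pi_pos
  rw [div_le_iff₀ (by positivity)]
  have h1 : (2 * (k : ℝ) + 1) * Real.Wallis.W k ≤ (2 * (k : ℝ) + 1) * (π / 2) :=
    mul_le_mul_of_nonneg_left hW (by positivity)
  have h2 : u k ^ 2 * ((2 * (k : ℝ) + 1) * Real.Wallis.W k) ≤ u k ^ 2 * ((2 * (k : ℝ) + 1) * (π / 2)) :=
    mul_le_mul_of_nonneg_left h1 hu
  rw [h] at h2
  refine h2.trans (le_of_eq ?_)
  ring

theorem u_le {k : ℕ} (hk : 1 ≤ k) : u k ≤ 1 / √ k := by
  have hk0 : (0 : ℝ) < k := by exact_mod_cast hk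
  have h := u_sq_le hk
  rw [le_div_iff₀ (Real.sqrt_pos.2 hk0)]
  apply le_of_sq_le_sq _ (by norm_num)
  rw [mul_pow, Real.sq_sqrt hk0.le]
  rw [le_div_iff₀ (by positivity)] at h
  have hpi : 1 ≤ π := by linarith [Real.pi_gt_three]
  nlinarith [mul_nonneg (sq_nonneg (u k)) hk0.le]

theorem U_bound_one {q : ℕ} (hq : 1 ≤ q) : U q 1 ≤ 2 / √ q := by
  have hq0 : (0 : ℝ) < q := by exact_mod_cast hq
  obtain ⟨l, hl⟩ : ∃ l, l = (q - 1) / 2 := ⟨_, rfl⟩
  have h1 : U q 1 ≤ U (2 * l + 1) 1 := U_antitone 1 (by omega)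
  rw [U_one] at h1
  have h2 := u_le (show 1 ≤ l + 1 by omega)
  refine h1.trans (h2.trans ?_)
  have h3 : (q : ℝ) ≤ 4 * ((l + 1 : ℕ) : ℝ) := by exact_mod_cast (by omega : q ≤ 4 * (l + 1))
  have h4 : √ q ≤ 2 * √ ((l + 1 : ℕ) : ℝ) := by
    have : 2 * √ ((l + 1 : ℕ) : ℝ) = √ (4 * ((l + 1 : ℕ) : ℝ)) := by
      rw [Real.sqrt_mul (by norm_num), show (4 : ℝ) = 2 ^ 2 by norm_num, Real.sqrt_sq (by norm_num)]
    rw [this]
    exact Real.sqrt_le_sqrt h3
  have h5 : 0 < √ ((l + 1 : ℕ) : ℝ) := Real.sqrt_pos.2 (by positivity)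
  rw [div_le_div_iff₀ h5 (Real.sqrt_pos.2 hq0)]
  linarith

/-- The survival probability started at `d`. -/
theorem U_bound {q : ℕ} (hq : 1 ≤ q) (d : ℤ) : U q d ≤ 2 * |(d : ℝ)| / √ q := by
  have h1 : ∀ d : ℕ, U q d ≤ 2 * (d : ℝ) / √ q := by
    intro d
    have h1 := U_le_mul q d
    have h2 := U_bound_one hq
    have h3 : (d : ℝ) * U q 1 ≤ d * (2 / √ q) := mul_le_mul_of_nonneg_left h2 (by positivity)
    calc U q d ≤ d * U q 1 := h1
      _ ≤ d * (2 / √ q) := h3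
      _ = 2 * d / √ q := by ring
  rcases Int.natAbs_eq d with h | h
  · have h2 := h1 d.natAbs
    rw [← h] at h2
    have : |(d : ℝ)| = (d.natAbs : ℝ) := by rw [Nat.cast_natAbs]; push_cast; rfl
    rw [this]; exact h2
  · have h2 := h1 d.natAbs
    rw [← U_neg, ← h] at h2
    have : |(d : ℝ)| = (d.natAbs : ℝ) := by rw [Nat.cast_natAbs]; push_cast; rfl
    rw [this]; exact h2

/-- The limit distribution. -/
noncomputable def Ph (b x : ℝ) : ℝ := 2 / π * arcsin √ (x / b)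

theorem Ph_deriv {b x : ℝ} (hx : 0 < x) (hxb : x < b) : HasDerivAt (Ph b) (1 / (π * √ (x * (b - x)))) x := by
  have hb : 0 < b := hx.trans hxb
  have h0 : 0 < x / b := by positivity
  have h1 : x / b < 1 := (div_lt_one hb).2 hxb
  have hs0 : 0 < √ (x / b) := Real.sqrt_pos.2 h0
  have hs1 : √ (x / b) < 1 := by
    rw [Real.sqrt_lt' one_pos]; simpa using h1
  have e1 : HasDerivAt (fun y : ℝ => y / b) (1 / b) x := (hasDerivAt_id x).div_const b
  have e2 := e1.sqrt h0.ne'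
  have e3 := (hasDerivAt_arcsin (x := √ (x / b)) (by linarith) (by linarith)).comp x e2
  have e4 := e3.const_mul (2 / π)
  refine HasDerivAt.congr_deriv e4 ?_
  rw [Real.sq_sqrt h0.le]
  have h2 : 1 - x / b = (b - x) / b := by field_simp
  rw [h2]
  have h3 : 0 < b - x := by linarith
  have e5 : √ (x * (b - x)) = b * (√ ((b - x) / b) * √ (x / b)) := by
    rw [← Real.sqrt_mul (by positivity), show x * (b - x) = b ^ 2 * ((b - x) / b * (x / b)) by field_simp,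
      Real.sqrt_mul (by positivity), Real.sqrt_sq hb.le]
  rw [e5]
  have h4 : 0 < √ ((b - x) / b) := Real.sqrt_pos.2 (by positivity)
  have hpi := Real.pi_pos
  field_simp

theorem Ph_cont (b : ℝ) : Continuous (Ph b) := by
  unfold Ph
  fun_prop

theorem Ph_mono {b x y : ℝ} (hb : 0 < b) (h : x ≤ y) : Ph b x ≤ Ph b y := by
  unfold Ph
  have hpi := Real.pi_pos
  apply mul_le_mul_of_nonneg_left _ (by positivity)
  apply monotone_arcsin
  apply Real.sqrt_le_sqrt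
  gcongr

theorem Ph_zero (b : ℝ) : Ph b 0 = 0 := by simp [Ph]

theorem Ph_nonneg (b x : ℝ) : 0 ≤ Ph b x := by
  unfold Ph
  have hpi := Real.pi_pos
  have : 0 ≤ arcsin √ (x / b) := arcsin_nonneg.2 (Real.sqrt_nonneg _)
  positivity

theorem Ph_le_one (b x : ℝ) : Ph b x ≤ 1 := by
  unfold Ph
  have hpi := Real.pi_pos
  have h := arcsin_le_pi_div_two √ (x / b)
  calc 2 / π * arcsin √ (x / b) ≤ 2 / π * (π / 2) := mul_le_mul_of_nonneg_left h (by positivity)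
    _ = 1 := by field_simp

theorem Ph_slope {b : ℝ} {x : ℝ} (hx : 0 ≤ x) (hxb : x + 1 ≤ b) :
    ∃ ξ, x < ξ ∧ ξ < x + 1 ∧ Ph b (x + 1) - Ph b x = 1 / (π * √ (ξ * (b - ξ))) := by
  obtain ⟨ξ, hξ, h⟩ := exists_hasDerivAt_eq_slope (Ph b) (fun y => 1 / (π * √ (y * (b - y)))) (a := x) (b := x + 1)
    (by linarith) (Ph_cont b).continuousOn (fun y hy => Ph_deriv (by linarith [hy.1]) (by linarith [hy.2]))
  refine ⟨ξ, hξ.1, hξ.2, ?_⟩
  rw [h]; ring

theorem term_upper {b k : ℕ} (hkb : k + 1 < b) : u (k + 1) * u (b - (k + 1)) ≤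
    (1 + 1 / ((b : ℝ) - (k + 1))) * (Ph b (k + 1) - Ph b k) := by
  have hkb' : (k : ℝ) + 1 < b := by exact_mod_cast hkb
  have hk0 : (0 : ℝ) ≤ k := by positivity
  obtain ⟨ξ, h1, h2, h3⟩ := Ph_slope (b := b) (x := k) hk0 hkb'.le
  have hpi := Real.pi_pos
  set B : ℝ := (b : ℝ) - (k + 1) with hB
  have hB0 : 0 < B := by linarith
  have hξ0 : 0 < ξ := by linarith
  have hbξ : 0 < (b : ℝ) - ξ := by linarith
  rw [h3]
  have hu1 := u_sq_le (show 1 ≤ k + 1 by omega)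
  have hu2 := u_sq_le (show 1 ≤ b - (k + 1) by omega)
  have e1 : ((b - (k + 1) : ℕ) : ℝ) = B := by rw [Nat.cast_sub (by omega)]; push_cast; rw [hB]
  rw [e1] at hu2
  push_cast at hu1
  have hp1 := u_pos (k + 1)
  have hp2 := u_pos (b - (k + 1))
  apply le_of_sq_le_sq _ (by positivity)
  have hsq : (√ (ξ * ((b : ℝ) - ξ))) ^ 2 = ξ * (b - ξ) := Real.sq_sqrt (by positivity)
  have e2 : ((1 + 1 / B) * (1 / (π * √ (ξ * ((b : ℝ) - ξ))))) ^ 2 = (1 + 1 / B) ^ 2 / (π ^ 2 * (ξ * (b - ξ))) := by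
    rw [mul_pow, div_pow, mul_pow, hsq]; ring
  rw [e2, mul_pow]
  have e3 : u (k + 1) ^ 2 * u (b - (k + 1)) ^ 2 ≤ (1 / (π * (k + 1))) * (1 / (π * B)) :=
    mul_le_mul hu1 hu2 (by positivity) (by positivity)
  refine e3.trans ?_
  have e4 : ξ * ((b : ℝ) - ξ) ≤ (k + 1) * (B + 1) := by
    apply mul_le_mul h2.le _ hbξ.le (by positivity)
    rw [hB]; linarith
  have e5 : (1 + 1 / B) ^ 2 / (π ^ 2 * ((k + 1) * (B + 1))) ≤ (1 + 1 / B) ^ 2 / (π ^ 2 * (ξ * (b - ξ))) := by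
    gcongr
  refine le_trans ?_ e5
  have e6 : (1 + 1 / B) ^ 2 / (π ^ 2 * ((k + 1) * (B + 1))) = (1 / (π * (k + 1))) * (1 / (π * B)) * (1 + 1 / B) := by
    field_simp
  rw [e6]
  apply le_mul_of_one_le_right (by positivity)
  have : 0 < 1 / B := by positivity
  linarith

theorem term_lower {b k : ℕ} (hkb : k + 2 < b) :
    (1 - 3 / ((b : ℝ) - k)) * (Ph b (k + 2) - Ph b (k + 1)) ≤ u k * u (b - k) := by
  have hkb' : (k : ℝ) + 2 < b := by exact_mod_cast hkb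
  have hk0 : (0 : ℝ) ≤ k := by positivity
  obtain ⟨ξ, h1, h2, h3⟩ := Ph_slope (b := b) (x := k + 1) (by linarith) (by linarith)
  have hpi := Real.pi_pos
  rw [show (k : ℝ) + 2 = k + 1 + 1 by ring, h3]
  set B : ℝ := (b : ℝ) - k with hB
  have hB0 : 2 < B := by linarith
  have hξ0 : 0 < ξ := by linarith
  have hbξ : 0 < (b : ℝ) - ξ := by linarith
  have hu1 := le_u_sq k
  have hu2 := le_u_sq (b - k)
  have e1 : ((b - k : ℕ) : ℝ) = B := by rw [Nat.cast_sub (by omega)]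
  rw [e1] at hu2
  have hp1 := u_pos k
  have hp2 := u_pos (b - k)
  have hc : (1 - 3 / B) ≤ (B - 2) / (B + 1) := by
    rw [le_div_iff₀ (by linarith)]
    have : (1 - 3 / B) * (B + 1) = B - 2 - 3 / B := by field_simp; ring
    rw [this]
    have : 0 < 3 / B := by positivity
    linarith
  have hg : 0 ≤ 1 / (π * √ (ξ * ((b : ℝ) - ξ))) := by positivity
  refine (mul_le_mul_of_nonneg_right hc hg).trans ?_
  apply le_of_sq_le_sq _ (by positivity)
  have hsq : (√ (ξ * ((b : ℝ) - ξ))) ^ 2 = ξ * (b - ξ) := Real.sq_sqrt (by positivity)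
  have e2 : ((B - 2) / (B + 1) * (1 / (π * √ (ξ * ((b : ℝ) - ξ))))) ^ 2 =
      ((B - 2) / (B + 1)) ^ 2 / (π ^ 2 * (ξ * (b - ξ))) := by
    rw [mul_pow, div_pow 1, mul_pow, hsq]; ring
  rw [e2, mul_pow]
  have e3 : (1 / (π * (k + 1 / 2))) * (1 / (π * (B + 1 / 2))) ≤ u k ^ 2 * u (b - k) ^ 2 :=
    mul_le_mul hu1 hu2 (by positivity) (by positivity)
  refine le_trans ?_ e3
  have e4 : (k + 1) * (B - 2) ≤ ξ * ((b : ℝ) - ξ) := by
    apply mul_le_mul h1.le _ (by linarith) hξ0.le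
    rw [hB]; linarith
  have hk1 : (0 : ℝ) < (k + 1) * (B - 2) := by
    apply mul_pos <;> linarith
  have e5 : ((B - 2) / (B + 1)) ^ 2 / (π ^ 2 * (ξ * (b - ξ))) ≤
      ((B - 2) / (B + 1)) ^ 2 / (π ^ 2 * ((k + 1) * (B - 2))) := by
    gcongr
  refine e5.trans ?_
  have hB2 : B - 2 ≠ 0 := by linarith
  have e6 : ((B - 2) / (B + 1)) ^ 2 / (π ^ 2 * ((k + 1) * (B - 2))) = (B - 2) / (B + 1) *
      ((1 / (π * (k + 1))) * (1 / (π * (B + 1)))) := by
    field_simp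
  rw [e6]
  have e7 : (B - 2) / (B + 1) ≤ 1 := by
    rw [div_le_one (by linarith)]; linarith
  calc (B - 2) / (B + 1) * ((1 / (π * (k + 1))) * (1 / (π * (B + 1)))) ≤
      1 * ((1 / (π * (k + 1))) * (1 / (π * (B + 1)))) := mul_le_mul_of_nonneg_right e7 (by positivity)
    _ = (1 / (π * (k + 1))) * (1 / (π * (B + 1))) := one_mul _
    _ ≤ (1 / (π * (k + 1 / 2))) * (1 / (π * (B + 1 / 2))) := by gcongr <;> norm_num

theorem arc_upper {b : ℕ} : ∀ {a : ℕ} {c : ℝ}, a < b → 1 / ((b : ℝ) - a) ≤ c →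
    ∑ i ∈ range (a + 1), u i * u (b - i) ≤ u b + (1 + c) * Ph b a := by
  intro a
  induction a with
  | zero => intro c _ _; simp [Ph_zero, u_zero]
  | succ a ih =>
    intro c hab hc
    rw [sum_range_succ]
    have hab' : (a : ℝ) + 1 < b := by exact_mod_cast hab
    push_cast at hc
    have h1 : 1 / ((b : ℝ) - a) ≤ 1 / ((b : ℝ) - (a + 1)) := by
      apply one_div_le_one_div_of_le <;> linarith
    have h2 := ih (by omega) (h1.trans hc)
    have h3 := term_upper hab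
    have h4 : (0 : ℝ) ≤ Ph b (a + 1) - Ph b a := by
      have := Ph_mono (b := b) (by linarith) (show (a : ℝ) ≤ a + 1 by linarith)
      linarith
    have h5 : (1 + 1 / ((b : ℝ) - (a + 1))) * (Ph b (a + 1) - Ph b a) ≤ (1 + c) * (Ph b (a + 1) - Ph b a) :=
      mul_le_mul_of_nonneg_right (by linarith) h4
    push_cast
    linarith

theorem arc_lower {b : ℕ} : ∀ {a : ℕ} {c : ℝ}, a + 2 ≤ b → 3 / ((b : ℝ) - a) ≤ c →
    (1 - c) * (Ph b (a + 1) - Ph b 1) ≤ ∑ i ∈ range a, u i * u (b - i) := by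
  intro a
  induction a with
  | zero => intro c _ _; simp
  | succ a ih =>
    intro c hab hc
    rw [sum_range_succ]
    have hab' : (a : ℝ) + 3 ≤ b := by exact_mod_cast hab
    push_cast at hc
    have h1 : 3 / ((b : ℝ) - a) ≤ 3 / ((b : ℝ) - (a + 1)) := by
      apply div_le_div_of_nonneg_left <;> linarith
    have h2 := ih (by omega) (h1.trans hc)
    have h3 := term_lower (b := b) (k := a) (by omega)
    have h4 : (0 : ℝ) ≤ Ph b (a + 2) - Ph b (a + 1) := by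
      have := Ph_mono (b := b) (by linarith) (show (a : ℝ) + 1 ≤ a + 2 by linarith)
      linarith
    have h5 : (1 - c) * (Ph b (a + 2) - Ph b (a + 1)) ≤ (1 - 3 / ((b : ℝ) - a)) * (Ph b (a + 2) - Ph b (a + 1)) :=
      mul_le_mul_of_nonneg_right (by linarith) h4
    push_cast
    rw [show (a : ℝ) + 1 + 1 = a + 2 by ring]
    linarith

theorem Ph_one_le {b : ℝ} (hb : 1 ≤ b) : Ph b 1 ≤ 1 / √ b := by
  unfold Ph
  have hpi := Real.pi_pos
  have h0 : 0 ≤ √ (1 / b) := Real.sqrt_nonneg _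
  have h1 : √ (1 / b) ≤ 1 := by
    apply Real.sqrt_le_iff.2
    refine ⟨by norm_num, ?_⟩
    rw [one_pow, div_le_one (by linarith)]; exact hb
  have h2 : arcsin √ (1 / b) ≤ π / 2 * √ (1 / b) := by
    have h3 := Real.mul_le_sin (x := arcsin √ (1 / b)) (arcsin_nonneg.2 h0) (arcsin_le_pi_div_two _)
    rw [sin_arcsin (by linarith) h1] at h3
    have h4 : π / 2 * (2 / π * arcsin √ (1 / b)) ≤ π / 2 * √ (1 / b) := mul_le_mul_of_nonneg_left h3 (by positivity)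
    have h5 : π / 2 * (2 / π * arcsin √ (1 / b)) = arcsin √ (1 / b) := by field_simp
    linarith
  calc 2 / π * arcsin √ (1 / b) ≤ 2 / π * (π / 2 * √ (1 / b)) := mul_le_mul_of_nonneg_left h2 (by positivity)
    _ = √ (1 / b) := by field_simp
    _ = 1 / √ b := by rw [Real.sqrt_div (by norm_num), Real.sqrt_one]

/-- Quantitative arcsine law. -/
theorem arc_law {a b : ℕ} (ha : 1 ≤ a) (hab : a + 3 ≤ b) :
    |F (2 * (b - a)) (2 * b) 0 - 2 / π * arcsin √ (a / b)| ≤ 1 / √ b + 4 / ((b : ℝ) - a) := by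
  rw [F_arc (by omega)]
  have hbr : (a : ℝ) + 3 ≤ b := by exact_mod_cast hab
  have har : (1 : ℝ) ≤ a := by exact_mod_cast ha
  have hb1 : (1 : ℝ) ≤ b := by linarith
  change |_ - Ph b a| ≤ _
  obtain ⟨a', rfl⟩ : ∃ a', a = a' + 1 := ⟨a - 1, by omega⟩
  have hU := arc_upper (b := b) (a := a') (c := 1 / ((b : ℝ) - a')) (by omega) le_rfl
  have hL := arc_lower (b := b) (a := a' + 1) (c := 3 / ((b : ℝ) - (a' + 1 : ℕ))) (by omega) le_rfl
  have h1 := u_le (show 1 ≤ b by omega)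
  have h2 := Ph_one_le hb1
  have h3 := Ph_le_one b (a' + 1 : ℕ)
  have h3' := Ph_le_one b a'
  have h4 : Ph b a' ≤ Ph b (a' + 1 : ℕ) := Ph_mono (by linarith) (by push_cast; linarith)
  have h5 : Ph b (a' + 1 : ℕ) ≤ Ph b ((a' + 1 : ℕ) + 1) := Ph_mono (by linarith) (by linarith)
  have h6 := Ph_le_one b ((a' + 1 : ℕ) + 1)
  have h0 := Ph_nonneg b a'
  have h01 := Ph_nonneg b 1
  push_cast at *
  have hB : 0 < (b : ℝ) - (a' + 1) := by linarith
  have h7 : 1 / ((b : ℝ) - a') ≤ 1 / ((b : ℝ) - (a' + 1)) := by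
    apply one_div_le_one_div_of_le hB; linarith
  have h8 : 1 / ((b : ℝ) - a') * Ph b a' ≤ 1 / ((b : ℝ) - (a' + 1)) := by
    have h9 : 0 ≤ 1 / ((b : ℝ) - a') := by
      apply div_nonneg <;> linarith
    calc 1 / ((b : ℝ) - a') * Ph b a' ≤ 1 / ((b : ℝ) - a') * 1 := mul_le_mul_of_nonneg_left h3' h9
      _ = 1 / ((b : ℝ) - a') := mul_one _
      _ ≤ _ := h7
  have h9 : 3 / ((b : ℝ) - (a' + 1)) * (Ph b (a' + 1 + 1) - Ph b 1) ≤ 3 / ((b : ℝ) - (a' + 1)) := by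
    have h10 : 0 ≤ 3 / ((b : ℝ) - (a' + 1)) := by positivity
    calc 3 / ((b : ℝ) - (a' + 1)) * (Ph b (a' + 1 + 1) - Ph b 1) ≤ 3 / ((b : ℝ) - (a' + 1)) * 1 :=
          mul_le_mul_of_nonneg_left (by linarith) h10
      _ = _ := mul_one _
  have h10 : 4 / ((b : ℝ) - (a' + 1)) = 3 / ((b : ℝ) - (a' + 1)) + 1 / ((b : ℝ) - (a' + 1)) := by ring
  have h11 : 0 ≤ 1 / ((b : ℝ) - (a' + 1)) := by positivity
  have h12 : 0 ≤ 3 / ((b : ℝ) - (a' + 1)) := by positivity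
  rw [abs_le, h10]
  constructor
  · linarith
  · linarith

end Pool.Agent.J4H39
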