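import Mathlib

set_option autoImplicit false

namespace Pool.Agent.J4H39

/-! Basic facts on the shortcut Collatz map on the integers. -/

/-- The shortcut map. -/
def T (x : ℤ) : ℤ := if x % 2 = 0 then x / 2 else (3 * x + 1) / 2

/-- Parity of the `j`-th iterate, as a number `0` or `1`. -/
def pr (j : ℕ) (x : ℤ) : ℕ := (T^[j] x % 2).toNat

/-- Number of odd terms among the first `j` terms. -/
def od : ℕ → ℤ → ℕ
  | 0, _ => 0
  | j + 1, x => od j x + pr j x

/-- The offset: `2 ^ j * T^[j] x = 3 ^ od j x * x + rh j x`. -/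
def rh : ℕ → ℤ → ℕ
  | 0, _ => 0
  | j + 1, x => if pr j x = 0 then rh j x else 3 * rh j x + 2 ^ j

theorem T_two (x : ℤ) : 2 * T x = 3 ^ (x % 2).toNat * x + (x % 2).toNat := by
  unfold T
  rcases Int.emod_two_eq_zero_or_one x with h | h
  · rw [if_pos h, h]; simp; omega
  · rw [if_neg (by omega), h]; simp; omega

theorem pr_cases (j : ℕ) (x : ℤ) : (pr j x = 0 ∧ T^[j] x % 2 = 0) ∨ (pr j x = 1 ∧ T^[j] x % 2 = 1) := by
  unfold pr
  rcases Int.emod_two_eq_zero_or_one (T^[j] x) with h | h <;> simp [h]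

theorem pr_le (j : ℕ) (x : ℤ) : pr j x ≤ 1 := by
  rcases pr_cases j x with h | h <;> omega

theorem od_succ (j : ℕ) (x : ℤ) : od (j + 1) x = od j x + pr j x := rfl

theorem od_le (j : ℕ) (x : ℤ) : od j x ≤ j := by
  induction j with
  | zero => simp [od]
  | succ j ih => rw [od_succ]; have := pr_le j x; omega

theorem iter_eq (j : ℕ) (x : ℤ) : 2 ^ j * T^[j] x = 3 ^ (od j x) * x + rh j x := by
  induction j with
  | zero => simp [od, rh]
  | succ j ih =>
    rw [Function.iterate_succ_apply']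
    have h := T_two (T^[j] x)
    rcases pr_cases j x with ⟨h1, h2⟩ | ⟨h1, h2⟩
    · rw [h2] at h
      simp only [Int.toNat_zero, pow_zero, one_mul] at h
      rw [od_succ, h1, rh, if_pos h1, add_zero, ← ih, pow_succ, mul_assoc, h]
      simp
    · rw [h2] at h
      simp only [Int.toNat_one, pow_one] at h
      rw [od_succ, h1, rh, if_neg (by omega), pow_succ, mul_assoc, h, pow_succ]
      push_cast
      linarith

theorem iter_add (j : ℕ) : ∀ (x u : ℤ), T^[j] (x + 2 ^ j * u) = T^[j] x + 3 ^ (od j x) * u ∧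
    od j (x + 2 ^ j * u) = od j x ∧ rh j (x + 2 ^ j * u) = rh j x := by
  induction j with
  | zero => intro x u; simp [od, rh]
  | succ j ih =>
    intro x u
    obtain ⟨h1, h2, h3⟩ := ih x (2 * u)
    have e : x + 2 ^ (j + 1) * u = x + 2 ^ j * (2 * u) := by rw [pow_succ]; ring
    have hp : pr j (x + 2 ^ j * (2 * u)) = pr j x := by
      unfold pr
      rw [h1]
      congr 1
      rw [show T^[j] x + 3 ^ od j x * (2 * u) = T^[j] x + 2 * (3 ^ od j x * u) by ring]
      omega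
    rw [e]
    refine ⟨?_, ?_, ?_⟩
    · rw [Function.iterate_succ_apply', Function.iterate_succ_apply', h1, od_succ]
      set y := T^[j] x with hy
      set m : ℤ := 3 ^ od j x * u with hm
      rw [show y + 3 ^ od j x * (2 * u) = y + 2 * m by rw [hm]; ring]
      rcases pr_cases j x with ⟨h4, h5⟩ | ⟨h4, h5⟩
      · rw [h4, add_zero]
        unfold T
        rw [if_pos (by omega), if_pos h5]; omega
      · rw [h4, pow_succ, show (3 : ℤ) ^ od j x * 3 * u = 3 * m by rw [hm]; ring]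
        unfold T
        rw [if_neg (by omega), if_neg (by omega)]; omega
    · rw [od_succ, od_succ, h2, hp]
    · rw [rh, rh, hp, h3]

theorem od_add (j : ℕ) (x u : ℤ) : od j (x + 2 ^ j * u) = od j x := (iter_add j x u).2.1

theorem rh_add (j : ℕ) (x u : ℤ) : rh j (x + 2 ^ j * u) = rh j x := (iter_add j x u).2.2

theorem T_add (j : ℕ) (x u : ℤ) : T^[j] (x + 2 ^ j * u) = T^[j] x + 3 ^ (od j x) * u := (iter_add j x u).1

theorem pow3_odd (i : ℕ) : ((3 : ℤ) ^ i) % 2 = 1 := by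
  have h : Odd ((3 : ℤ) ^ i) := Odd.pow (by decide)
  obtain ⟨m, hm⟩ := h
  omega

/-- adding `2 ^ j` flips the parity of the `j`-th iterate. -/
theorem pr_flip (j : ℕ) (x : ℤ) : pr j (x + 2 ^ j) = 1 - pr j x := by
  have h := T_add j x 1
  rw [mul_one, mul_one] at h
  unfold pr
  rw [h]
  have h3 := pow3_odd (od j x)
  rcases Int.emod_two_eq_zero_or_one (T^[j] x) with h | h
  · rw [h, show (T^[j] x + 3 ^ od j x) % 2 = 1 by omega]; rfl
  · rw [h, show (T^[j] x + 3 ^ od j x) % 2 = 0 by omega]; rfl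

/-- periodicity for later indices. -/
theorem iter_add_le {i j : ℕ} (hij : i ≤ j) (x u : ℤ) : od i (x + 2 ^ j * u) = od i x ∧
    rh i (x + 2 ^ j * u) = rh i x := by
  obtain ⟨d, rfl⟩ := Nat.exists_eq_add_of_le hij
  have e : x + 2 ^ (i + d) * u = x + 2 ^ i * (2 ^ d * u) := by rw [pow_add]; ring
  rw [e]
  exact ⟨od_add i x _, rh_add i x _⟩

theorem pr_add_lt {i j : ℕ} (hij : i < j) (x u : ℤ) : pr i (x + 2 ^ j * u) = pr i x := by
  obtain ⟨d, rfl⟩ := Nat.exists_eq_add_of_lt hij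
  have e : x + 2 ^ (i + d + 1) * u = x + 2 ^ i * (2 * (2 ^ d * u)) := by rw [pow_succ, pow_add]; ring
  unfold pr
  rw [e, T_add]
  congr 1
  rw [show T^[i] x + 3 ^ od i x * (2 * (2 ^ d * u)) = T^[i] x + 2 * (3 ^ od i x * (2 ^ d * u)) by ring]
  omega

theorem coprime_pow (i j : ℕ) : IsCoprime ((2 : ℤ) ^ j) ((3 : ℤ) ^ i) := by
  apply IsCoprime.pow
  exact ⟨-1, 1, by norm_num⟩

/-- The pair (number of odd terms, offset) determines the class modulo `2 ^ j`. -/
theorem inj_mod {j : ℕ} {x y : ℤ} (ho : od j x = od j y) (hr : rh j x = rh j y) : (2 : ℤ) ^ j ∣ x - y := by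
  have h1 := iter_eq j x
  have h2 := iter_eq j y
  rw [ho, hr] at h1
  have h3 : (2 : ℤ) ^ j ∣ 3 ^ od j y * (x - y) := ⟨T^[j] x - T^[j] y, by rw [mul_sub, mul_sub, h1, h2]; ring⟩
  exact (coprime_pow (od j y) j).dvd_of_dvd_mul_left h3

/-- The class modulo `2 ^ j` and the class of `T^[j] x` modulo `2 ^ k` determine the class modulo `2 ^ (j+k)`. -/
theorem inj_mod2 {j k : ℕ} {x y : ℤ} (h : (2 : ℤ) ^ j ∣ x - y) (h2 : (2 : ℤ) ^ k ∣ T^[j] x - T^[j] y) :
    (2 : ℤ) ^ (j + k) ∣ x - y := by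
  obtain ⟨u, hu⟩ := h
  have hx : x = y + 2 ^ j * u := by linarith
  rw [hx, T_add, add_sub_cancel_left] at h2
  have h3 := (coprime_pow (od j y) k).dvd_of_dvd_mul_left h2
  rw [hu, pow_add]
  exact mul_dvd_mul_left _ h3

/-! Number of disagreements of parities. -/

/-- Number of `i < k` such that the parities of `T^[i] x` and `s i x` differ. -/
def cn (s : ℕ → ℤ → ℕ) : ℕ → ℤ → ℕ
  | 0, _ => 0
  | k + 1, x => cn s k x + (if pr k x = s k x then 0 else 1)

/-- Number of `i < k` such that the parities of `T^[i] x` and `T^[i] y` differ. -/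
def cd : ℕ → ℤ → ℤ → ℕ
  | 0, _, _ => 0
  | k + 1, x, y => cd k x y + (if pr k x = pr k y then 0 else 1)

theorem cd_succ (k : ℕ) (x y : ℤ) : cd (k + 1) x y = cd k x y + (if pr k x = pr k y then 0 else 1) := rfl

theorem cd_comm (k : ℕ) (x y : ℤ) : cd k x y = cd k y x := by
  induction k with
  | zero => rfl
  | succ k ih => rw [cd_succ, cd_succ, ih]; simp only [eq_comm]

theorem cd_le (k : ℕ) (x y : ℤ) : cd k x y ≤ k := by
  induction k with
  | zero => simp [cd]
  | succ k ih => rw [cd_succ]; split_ifs <;> omega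

theorem pr_iter (i j : ℕ) (x : ℤ) : pr i (T^[j] x) = pr (j + i) x := by
  unfold pr
  rw [← Function.iterate_add_apply, add_comm]

theorem cd_add (j k : ℕ) (x y : ℤ) : cd (j + k) x y = cd j x y + cd k (T^[j] x) (T^[j] y) := by
  induction k with
  | zero => simp [cd]
  | succ k ih => rw [← add_assoc, cd_succ, cd_succ, ih, pr_iter, pr_iter]; ring

theorem cd_mono (x y : ℤ) {j k : ℕ} (h : j ≤ k) : cd j x y ≤ cd k x y := by
  obtain ⟨d, rfl⟩ := Nat.exists_eq_add_of_le h
  rw [cd_add]; omega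

theorem cd_le_add (x y : ℤ) {j k : ℕ} (h : j ≤ k) : cd k x y ≤ cd j x y + (k - j) := by
  obtain ⟨d, rfl⟩ := Nat.exists_eq_add_of_le h
  rw [cd_add]; have := cd_le d (T^[j] x) (T^[j] y); omega

theorem cd_periodic_right (k : ℕ) {j : ℕ} (h : k ≤ j) (x y u : ℤ) : cd k x (y + 2 ^ j * u) = cd k x y := by
  induction k with
  | zero => rfl
  | succ k ih => rw [cd_succ, cd_succ, ih (by omega), pr_add_lt (by omega)]

theorem cd_periodic_left (k : ℕ) {j : ℕ} (h : k ≤ j) (x y u : ℤ) : cd k (x + 2 ^ j * u) y = cd k x y := by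
  rw [cd_comm, cd_periodic_right k h, cd_comm]

theorem cd_periodic (k : ℕ) {j : ℕ} (h : k ≤ j) (x y u v : ℤ) : cd k (x + 2 ^ j * u) (y + 2 ^ j * v) = cd k x y := by
  rw [cd_periodic_right k h, cd_periodic_left k h]

theorem cd_congr (k : ℕ) {x y x' y' : ℤ} (hx : (2 : ℤ) ^ k ∣ x - x') (hy : (2 : ℤ) ^ k ∣ y - y') :
    cd k x y = cd k x' y' := by
  obtain ⟨u, hu⟩ := hx
  obtain ⟨v, hv⟩ := hy
  rw [show x = x' + 2 ^ k * u by linarith, show y = y' + 2 ^ k * v by linarith, cd_periodic k le_rfl]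

end Pool.Agent.J4H39
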