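import Mathlib
import Pool.Agent.J4H39.W1

set_option autoImplicit false

namespace Pool.Agent.J4H39

open Finset

/-! Averages over the classes modulo `2 ^ j`. -/

/-- The average of `f` over `0, …, 2 ^ j - 1`. -/
noncomputable def ex (j : ℕ) (f : ℤ → ℝ) : ℝ := (∑ x ∈ range (2 ^ j), f ((x : ℕ) : ℤ)) / 2 ^ j

open Classical in
/-- The proportion of `x` in `0, …, 2 ^ j - 1` with `P x`. -/
noncomputable def pb (j : ℕ) (P : ℤ → Prop) : ℝ := ex j (fun x => if P x then 1 else 0)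

/-- periodicity modulo `2 ^ j`. -/
def Per {α : Type*} (j : ℕ) (f : ℤ → α) : Prop := ∀ x u : ℤ, f (x + 2 ^ j * u) = f x

theorem Per.mono {α : Type*} {i j : ℕ} (hij : i ≤ j) {f : ℤ → α} (h : Per i f) : Per j f := by
  intro x u
  obtain ⟨d, rfl⟩ := Nat.exists_eq_add_of_le hij
  rw [pow_add, mul_assoc]
  exact h x _

theorem Per.comp {α β : Type*} {j : ℕ} {f : ℤ → α} (h : Per j f) (g : α → β) : Per j (fun x => g (f x)) :=
  fun x u => by simp only [h x u]

theorem Per.shift {α : Type*} {j : ℕ} {f : ℤ → α} (h : Per j f) (c : ℤ) : Per j (fun x => f (x + c)) := by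
  intro x u
  simp only
  rw [show x + 2 ^ j * u + c = (x + c) + 2 ^ j * u by ring]
  exact h _ u

open Classical in
theorem Per.ind {j : ℕ} {P : ℤ → Prop} (h : Per j P) : Per j (fun x => if P x then (1 : ℝ) else 0) := by
  intro x u
  simp only [h x u]

theorem per_od {i j : ℕ} (h : i ≤ j) : Per j (od i) := fun x u => (iter_add_le h x u).1

theorem per_rh {i j : ℕ} (h : i ≤ j) : Per j (rh i) := fun x u => (iter_add_le h x u).2

theorem per_pr {i j : ℕ} (h : i < j) : Per j (pr i) := fun x u => pr_add_lt h x u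

theorem per_cd (h : ℤ) {i j : ℕ} (hij : i ≤ j) : Per j (fun x => cd i x (x + h)) := by
  intro x u
  simp only
  rw [show x + 2 ^ j * u + h = (x + h) + 2 ^ j * u by ring]
  exact cd_periodic i hij x (x + h) u u

theorem ex_mono {j : ℕ} {f g : ℤ → ℝ} (h : ∀ x, f x ≤ g x) : ex j f ≤ ex j g := by
  unfold ex
  apply div_le_div_of_nonneg_right _ (by positivity)
  exact sum_le_sum (fun x _ => h x)

theorem ex_congr {j : ℕ} {f g : ℤ → ℝ} (h : ∀ x, f x = g x) : ex j f = ex j g := by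
  unfold ex
  congr 1
  exact sum_congr rfl (fun x _ => h x)

theorem ex_add (j : ℕ) (f g : ℤ → ℝ) : ex j (fun x => f x + g x) = ex j f + ex j g := by
  unfold ex
  rw [sum_add_distrib, add_div]

theorem ex_mul (j : ℕ) (c : ℝ) (f : ℤ → ℝ) : ex j (fun x => c * f x) = c * ex j f := by
  unfold ex
  rw [← mul_sum, mul_div_assoc]

theorem ex_sum {ι : Type*} (s : Finset ι) (j : ℕ) (f : ι → ℤ → ℝ) :
    ex j (fun x => ∑ i ∈ s, f i x) = ∑ i ∈ s, ex j (f i) := by
  unfold ex
  rw [sum_comm, sum_div]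

theorem ex_const (j : ℕ) (c : ℝ) : ex j (fun _ => c) = c := by
  unfold ex
  rw [sum_const, card_range, nsmul_eq_mul]
  push_cast
  field_simp

theorem ex_nonneg {j : ℕ} {f : ℤ → ℝ} (h : ∀ x, 0 ≤ f x) : 0 ≤ ex j f := by
  rw [← ex_const j 0]; exact ex_mono h

theorem ex_zero (f : ℤ → ℝ) : ex 0 f = f 0 := by
  unfold ex; simp

theorem ex_succ (j : ℕ) (f : ℤ → ℝ) : ex (j + 1) f = ex j (fun x => (f x + f (x + 2 ^ j)) / 2) := by
  unfold ex
  rw [pow_succ, mul_two, sum_range_add, ← sum_add_distrib, ← sum_div, pow_succ, div_div, mul_comm (2 : ℝ)]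
  congr 1
  apply sum_congr rfl
  intro x _
  push_cast
  rw [add_comm (2 ^ j : ℤ)]

theorem ex_per {i j : ℕ} (hij : i ≤ j) {f : ℤ → ℝ} (h : Per i f) : ex j f = ex i f := by
  induction j, hij using Nat.le_induction with
  | base => rfl
  | succ j hij ih =>
    rw [ex_succ, ← ih]
    apply ex_congr
    intro x
    have := (h.mono hij) x 1
    rw [mul_one] at this
    rw [this]; ring

/-- An affine map with odd slope permutes the classes modulo `2 ^ k`. -/
theorem ex_affine (k : ℕ) {P : ℤ → ℝ} (hP : Per k P) {a : ℤ}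
    (ha : a % 2 = 1) (c : ℤ) : ex k (fun u => P (a * u + c)) = ex k P := by
  unfold ex
  congr 1
  have hN : (0 : ℤ) < 2 ^ k := by positivity
  set e : ℕ → ℕ := fun u => ((a * u + c) % 2 ^ k).toNat with he
  have he' : ∀ u : ℕ, ((e u : ℕ) : ℤ) = (a * u + c) % 2 ^ k := by
    intro u
    rw [he]
    exact Int.toNat_of_nonneg (Int.emod_nonneg _ hN.ne')
  have hmaps : ∀ u ∈ range (2 ^ k), e u ∈ range (2 ^ k) := by
    intro u _
    rw [mem_range]
    have := Int.emod_lt_of_pos (a * u + c) hN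
    rw [← he'] at this
    exact_mod_cast this
  have hcop : IsCoprime ((2 : ℤ) ^ k) a := by
    apply IsCoprime.pow_left
    exact ⟨-(a / 2), 1, by omega⟩
  have hinj : Set.InjOn e (range (2 ^ k) : Finset ℕ) := by
    intro u hu u' hu' h
    rw [mem_coe, mem_range] at hu hu'
    have h1 : (a * u + c) % 2 ^ k = (a * u' + c) % 2 ^ k := by rw [← he', ← he', h]
    have h2 : (2 : ℤ) ^ k ∣ (a * u + c) - (a * u' + c) := Int.ModEq.dvd (Int.ModEq.symm h1)
    have h3 : (2 : ℤ) ^ k ∣ a * ((u : ℤ) - u') := by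
      have e : (a * u + c) - (a * u' + c) = a * ((u : ℤ) - u') := by ring
      rwa [e] at h2
    have h4 : (2 : ℤ) ^ k ∣ (u : ℤ) - u' := hcop.dvd_of_dvd_mul_left h3
    have hu1 : (u : ℤ) < 2 ^ k := by exact_mod_cast hu
    have hu2 : (u' : ℤ) < 2 ^ k := by exact_mod_cast hu'
    have h5 : (u : ℤ) - u' = 0 := by
      apply Int.eq_zero_of_abs_lt_dvd h4
      rw [abs_lt]; constructor <;> omega
    omega
  have himg : (range (2 ^ k)).image e = range (2 ^ k) := by
    apply eq_of_subset_of_card_le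
    · intro y hy
      rw [mem_image] at hy
      obtain ⟨u, hu, rfl⟩ := hy
      exact hmaps u hu
    · rw [card_image_of_injOn hinj]
  have hPe : ∀ u : ℕ, P (a * u + c) = P (e u) := by
    intro u
    rw [he']
    have h := hP ((a * u + c) % 2 ^ k) ((a * u + c) / 2 ^ k)
    rw [← h]
    congr 1
    have := Int.emod_add_mul_ediv (a * u + c) (2 ^ k)
    exact this.symm
  calc ∑ u ∈ range (2 ^ k), P (a * u + c) = ∑ u ∈ range (2 ^ k), P (e u) :=
        sum_congr rfl (fun u _ => hPe u)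
    _ = ∑ y ∈ (range (2 ^ k)).image e, P (y : ℕ) := (sum_image (f := fun y : ℕ => P (y : ℤ)) hinj).symm
    _ = ∑ u ∈ range (2 ^ k), P u := by rw [himg]

theorem ex_shift (k : ℕ) {P : ℤ → ℝ} (hP : Per k P) (c : ℤ) : ex k (fun u => P (u + c)) = ex k P := by
  have := ex_affine k hP (a := 1) (by norm_num) c
  simpa using this

/-! Proportions. -/

theorem pb_nonneg (j : ℕ) (P : ℤ → Prop) : 0 ≤ pb j P := by
  unfold pb
  exact ex_nonneg (fun x => by split_ifs <;> norm_num)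

theorem pb_mono {j : ℕ} {P Q : ℤ → Prop} (h : ∀ x, P x → Q x) : pb j P ≤ pb j Q := by
  unfold pb
  apply ex_mono
  intro x
  have := h x
  split_ifs with h1 h2 h2
  · exact le_rfl
  · exact absurd (this h1) h2
  · exact zero_le_one
  · exact le_rfl

theorem pb_congr {j : ℕ} {P Q : ℤ → Prop} (h : ∀ x, P x ↔ Q x) : pb j P = pb j Q :=
  le_antisymm (pb_mono (fun x => (h x).1)) (pb_mono (fun x => (h x).2))

theorem pb_or (j : ℕ) (P Q : ℤ → Prop) : pb j (fun x => P x ∨ Q x) ≤ pb j P + pb j Q := by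
  unfold pb
  rw [← ex_add]
  apply ex_mono
  intro x
  by_cases h1 : P x <;> by_cases h2 : Q x <;> simp [h1, h2]

theorem pb_le_one (j : ℕ) (P : ℤ → Prop) : pb j P ≤ 1 := by
  have := ex_const j 1
  rw [← this]
  unfold pb
  apply ex_mono
  intro x
  split_ifs <;> norm_num

theorem pb_not (j : ℕ) (P : ℤ → Prop) : pb j (fun x => ¬ P x) = 1 - pb j P := by
  have h : ex j (fun _ => (1 : ℝ)) = pb j (fun x => ¬ P x) + pb j P := by
    unfold pb
    rw [← ex_add]
    apply ex_congr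
    intro x
    by_cases h : P x <;> simp [h]
  rw [ex_const] at h
  linarith

open Classical in
theorem pb_exists {ι : Type*} (s : Finset ι) (j : ℕ) (P : ι → ℤ → Prop) :
    pb j (fun x => ∃ i ∈ s, P i x) ≤ ∑ i ∈ s, pb j (P i) := by
  unfold pb
  rw [← ex_sum]
  apply ex_mono
  intro x
  split_ifs with h
  · obtain ⟨i, hi, hP⟩ := h
    calc (1 : ℝ) = if P i x then 1 else 0 := by rw [if_pos hP]
      _ ≤ _ := single_le_sum (f := fun i => if P i x then (1 : ℝ) else 0)
        (fun i _ => by split_ifs <;> norm_num) hi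
  · exact sum_nonneg (fun i _ => by split_ifs <;> norm_num)

theorem pb_per {i j : ℕ} (hij : i ≤ j) {P : ℤ → Prop} (h : Per i P) : pb j P = pb i P := by
  unfold pb
  exact ex_per hij h.ind

theorem pb_shift (k : ℕ) {P : ℤ → Prop} (hP : Per k P) (c : ℤ) : pb k (fun u => P (u + c)) = pb k P := by
  unfold pb
  exact ex_shift k hP.ind c

open Classical in
theorem pb_eq_card (j : ℕ) (P : ℤ → Prop) :
    pb j P = (#{x ∈ range (2 ^ j) | P ((x : ℕ) : ℤ)} : ℝ) / 2 ^ j := by
  unfold pb ex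
  rw [card_filter]
  push_cast
  rfl

/-- Markov's inequality. -/
theorem pb_markov {j : ℕ} {f : ℤ → ℝ} (hf : ∀ x, 0 ≤ f x) {c : ℝ} (hc : 0 < c) :
    pb j (fun x => c ≤ f x) ≤ ex j f / c := by
  rw [le_div_iff₀ hc, mul_comm]
  unfold pb
  rw [← ex_mul]
  apply ex_mono
  intro x
  split_ifs with h
  · linarith
  · linarith [hf x]

/-! Exponential moments. -/

theorem per_cn {s : ℕ → ℤ → ℕ} (hs : ∀ i, Per i (s i)) (k : ℕ) : Per k (cn s k) := by
  induction k with
  | zero => intro x u; rfl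
  | succ k ih =>
    intro x u
    have h1 := (ih.mono (Nat.le_succ k)) x u
    have h2 := ((hs k).mono (Nat.le_succ k)) x u
    have h3 := per_pr (Nat.lt_succ_self k) x u
    simp only [Nat.succ_eq_add_one] at h1 h2 h3
    rw [cn, cn, h1, h2, h3]

theorem ex_exp {s : ℕ → ℤ → ℕ} (hs : ∀ i, Per i (s i)) (hs1 : ∀ i x, s i x ≤ 1) (l : ℝ) (k : ℕ) :
    ex k (fun x => Real.exp (l * (2 * (cn s k x : ℝ) - k))) = (Real.cosh l) ^ k := by
  induction k with
  | zero => rw [ex_zero]; simp [cn]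
  | succ k ih =>
    rw [ex_succ, pow_succ, ← ih, mul_comm, ← ex_mul]
    apply ex_congr
    intro x
    have h1 := per_cn hs k x 1
    have h2 := hs k x 1
    rw [mul_one] at h1 h2
    rw [cn, cn, h1, h2, pr_flip]
    have h3 := pr_le k x
    have h4 := hs1 k x
    have e1 : Real.exp (l * (2 * (((cn s k x + 0 : ℕ)) : ℝ) - ((k + 1 : ℕ) : ℝ))) =
        Real.exp (-l) * Real.exp (l * (2 * (cn s k x : ℝ) - k)) := by
      rw [← Real.exp_add]; congr 1; push_cast; ring
    have e2 : Real.exp (l * (2 * (((cn s k x + 1 : ℕ)) : ℝ) - ((k + 1 : ℕ) : ℝ))) =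
        Real.exp l * Real.exp (l * (2 * (cn s k x : ℝ) - k)) := by
      rw [← Real.exp_add]; congr 1; push_cast; ring
    rw [Real.cosh_eq]
    by_cases h5 : pr k x = s k x
    · rw [if_pos h5, if_neg (by omega), e1, e2]; ring
    · rw [if_neg h5, if_pos (by omega), e1, e2]; ring

theorem pb_dev {s : ℕ → ℤ → ℕ} (hs : ∀ i, Per i (s i)) (hs1 : ∀ i x, s i x ≤ 1) {k : ℕ} (hk : 1 ≤ k)
    {δ : ℝ} (hδ : 0 ≤ δ) :
    pb k (fun x => δ ≤ |2 * (cn s k x : ℝ) - k|) ≤ 2 * Real.exp (-(δ ^ 2 / (2 * k))) := by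
  have hk0 : (0 : ℝ) < k := by exact_mod_cast hk
  set l : ℝ := δ / k with hl
  have hl0 : 0 ≤ l := by positivity
  have h1 : pb k (fun x => δ ≤ |2 * (cn s k x : ℝ) - k|) ≤
      ex k (fun x => Real.exp (-(l * δ)) * (Real.exp (l * (2 * (cn s k x : ℝ) - k)) +
        Real.exp (-l * (2 * (cn s k x : ℝ) - k)))) := by
    unfold pb
    apply ex_mono
    intro x
    split_ifs with h
    · set y : ℝ := 2 * (cn s k x : ℝ) - k with hy
      have h : δ ≤ |y| := h
      have h2 : Real.exp (l * δ) ≤ Real.exp (l * y) + Real.exp (-l * y) := by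
        rcases abs_cases y with ⟨h3, _⟩ | ⟨h3, _⟩
        · have : Real.exp (l * δ) ≤ Real.exp (l * y) := by
            apply Real.exp_le_exp.2; rw [h3] at h; exact mul_le_mul_of_nonneg_left h hl0
          linarith [Real.exp_pos (-l * y)]
        · have : Real.exp (l * δ) ≤ Real.exp (-l * y) := by
            apply Real.exp_le_exp.2; rw [h3] at h
            have := mul_le_mul_of_nonneg_left h hl0
            linarith
          linarith [Real.exp_pos (l * y)]
      calc (1 : ℝ) = Real.exp (-(l * δ)) * Real.exp (l * δ) := by rw [← Real.exp_add]; simp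
        _ ≤ _ := mul_le_mul_of_nonneg_left h2 (Real.exp_pos _).le
    · positivity
  refine h1.trans ?_
  rw [ex_mul, ex_add, ex_exp hs hs1, ex_exp hs hs1, Real.cosh_neg]
  have h2 : Real.cosh l ^ k ≤ Real.exp (k * (l ^ 2 / 2)) := by
    rw [Real.exp_nat_mul]
    exact pow_le_pow_left₀ (Real.cosh_pos l).le (Real.cosh_le_exp_half_sq l) k
  calc Real.exp (-(l * δ)) * (Real.cosh l ^ k + Real.cosh l ^ k) = 2 * (Real.exp (-(l * δ)) * Real.cosh l ^ k) := by ring
    _ ≤ 2 * (Real.exp (-(l * δ)) * Real.exp (k * (l ^ 2 / 2))) := by gcongr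
    _ = 2 * Real.exp (-(δ ^ 2 / (2 * k))) := by
      rw [← Real.exp_add]; congr 2; rw [hl]; field_simp; ring

theorem od_eq_cn (k : ℕ) (x : ℤ) : od k x = cn (fun _ _ => 0) k x := by
  induction k with
  | zero => rfl
  | succ k ih =>
    rw [od_succ, cn, ih]
    rcases pr_cases k x with ⟨h, _⟩ | ⟨h, _⟩ <;> simp [h]

theorem cd_eq_cn (k : ℕ) (a x : ℤ) : cd k a x = cn (fun i _ => pr i a) k x := by
  induction k with
  | zero => rfl
  | succ k ih =>
    rw [cd_succ, cn, ih]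
    simp only [eq_comm]

theorem pb_od {k : ℕ} (hk : 1 ≤ k) {δ : ℝ} (hδ : 0 ≤ δ) :
    pb k (fun x => δ ≤ |2 * (od k x : ℝ) - k|) ≤ 2 * Real.exp (-(δ ^ 2 / (2 * k))) := by
  have := pb_dev (s := fun _ _ => 0) (fun i x u => rfl) (fun _ _ => by norm_num) hk hδ
  simpa only [od_eq_cn] using this

theorem pb_cd (a : ℤ) {k : ℕ} (hk : 1 ≤ k) {δ : ℝ} (hδ : 0 ≤ δ) :
    pb k (fun x => δ ≤ |2 * (cd k a x : ℝ) - k|) ≤ 2 * Real.exp (-(δ ^ 2 / (2 * k))) := by
  have := pb_dev (s := fun i _ => pr i a) (fun i x u => rfl) (fun i _ => pr_le i a) hk hδ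
  simpa only [cd_eq_cn] using this

/-- The mean of the offset. -/
theorem ex_rh (j : ℕ) : ex j (fun x => (rh j x : ℝ)) = 2 ^ j * (j / 4) := by
  induction j with
  | zero => rw [ex_zero]; simp [rh]
  | succ j ih =>
    rw [ex_succ]
    have h : ∀ x : ℤ, ((rh (j + 1) x : ℝ) + (rh (j + 1) (x + 2 ^ j) : ℝ)) / 2 =
        2 * (rh j x : ℝ) + 2 ^ j / 2 := by
      intro x
      have h1 := rh_add j x 1
      rw [mul_one] at h1
      rw [rh, rh, h1, pr_flip]
      rcases pr_cases j x with ⟨h, _⟩ | ⟨h, _⟩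
      · rw [if_pos h, if_neg (by omega)]; push_cast; ring
      · rw [if_neg (by omega), if_pos (by omega)]; push_cast; ring
    rw [ex_congr h, ex_add, ex_mul, ex_const, ih, pow_succ]
    push_cast; ring

theorem pb_rh (j : ℕ) {L : ℝ} (hL : 0 < L) :
    pb j (fun x => L * 2 ^ j ≤ (rh j x : ℝ)) ≤ j / (4 * L) := by
  refine (pb_markov (fun x => by positivity) (by positivity)).trans (le_of_eq ?_)
  rw [ex_rh]; field_simp

/-- The good event. -/
def Gd (t : ℕ) (L : ℕ) (δ : ℝ) (x : ℤ) : Prop :=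
  ∀ j ≤ t, rh j x ≤ L * 2 ^ j ∧ |2 * (od j x : ℝ) - j| ≤ δ

theorem per_Gd (t L : ℕ) (δ : ℝ) : Per t (Gd t L δ) := by
  intro x u
  unfold Gd
  apply propext
  apply forall_congr'
  intro j
  apply forall_congr'
  intro hj
  rw [per_rh hj x u, per_od hj x u]

theorem pb_Gd {t L : ℕ} (hL : 1 ≤ L) (ht : 1 ≤ t) {δ : ℝ} (hδ : 0 ≤ δ) :
    pb t (fun x => ¬ Gd t L δ x) ≤ (t + 1) * (t / (4 * L) + 2 * Real.exp (-(δ ^ 2 / (2 * t)))) := by
  have hL0 : (0 : ℝ) < L := by exact_mod_cast hL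
  have ht0 : (0 : ℝ) < t := by exact_mod_cast ht
  have h1 : pb t (fun x => ¬ Gd t L δ x) ≤ pb t (fun x => ∃ j ∈ range (t + 1),
      ((L : ℝ) * 2 ^ j ≤ (rh j x : ℝ) ∧ 1 ≤ j) ∨ (δ ≤ |2 * (od j x : ℝ) - j| ∧ 1 ≤ j)) := by
    apply pb_mono
    intro x hx
    unfold Gd at hx
    push Not at hx
    obtain ⟨j, hj, hx⟩ := hx
    refine ⟨j, by rw [mem_range]; omega, ?_⟩
    have hj1 : 1 ≤ j := by
      by_contra hcon
      have : j = 0 := by omega
      subst this
      have h2 := hx (by simp [rh])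
      simp [od] at h2
      linarith
    by_cases h2 : rh j x ≤ L * 2 ^ j
    · right; exact ⟨(hx h2).le, hj1⟩
    · left
      push Not at h2
      exact ⟨by exact_mod_cast h2.le, hj1⟩
  refine h1.trans ((pb_exists _ _ _).trans ?_)
  have h2 : ∀ j ∈ range (t + 1), pb t (fun x => ((L : ℝ) * 2 ^ j ≤ (rh j x : ℝ) ∧ 1 ≤ j) ∨
      (δ ≤ |2 * (od j x : ℝ) - j| ∧ 1 ≤ j)) ≤ (t / (4 * L) + 2 * Real.exp (-(δ ^ 2 / (2 * t)))) := by
    intro j hj
    rw [mem_range] at hj
    by_cases hj1 : 1 ≤ j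
    · refine (pb_or _ _ _).trans (add_le_add ?_ ?_)
      · refine (pb_mono (fun x h => h.1)).trans ?_
        have hp : Per j (fun x => (L : ℝ) * 2 ^ j ≤ (rh j x : ℝ)) :=
          (per_rh (le_refl j)).comp (fun r => (L : ℝ) * 2 ^ j ≤ (r : ℝ))
        rw [pb_per (by omega : j ≤ t) hp]
        refine (pb_rh j hL0).trans ?_
        gcongr
        exact_mod_cast (by omega : j ≤ t)
      · refine (pb_mono (fun x h => h.1)).trans ?_
        have hp : Per j (fun x => δ ≤ |2 * (od j x : ℝ) - j|) :=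
          (per_od (le_refl j)).comp (fun r => δ ≤ |2 * (r : ℝ) - j|)
        rw [pb_per (by omega : j ≤ t) hp]
        refine (pb_od hj1 hδ).trans ?_
        have hj0 : (0 : ℝ) < j := by exact_mod_cast hj1
        have hjt : (j : ℝ) ≤ t := by exact_mod_cast (by omega : j ≤ t)
        gcongr
    · have h0 : j = 0 := by omega
      subst h0
      have : pb t (fun x => ((L : ℝ) * 2 ^ 0 ≤ (rh 0 x : ℝ) ∧ 1 ≤ 0) ∨
        (δ ≤ |2 * (od 0 x : ℝ) - (0 : ℕ)| ∧ 1 ≤ 0)) ≤ ex t (fun _ => (0 : ℝ)) := by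
        unfold pb
        apply ex_mono
        intro x
        rw [if_neg]
        rintro (⟨_, h⟩ | ⟨_, h⟩) <;> omega
      rw [ex_const] at this
      refine this.trans ?_
      positivity
  refine (sum_le_sum h2).trans ?_
  rw [sum_const, card_range, nsmul_eq_mul]
  push_cast
  exact le_rfl

/-- Upper bound on the power of three. -/
theorem od_up {t L δ : ℕ} {x : ℤ} (hx : Gd t L δ x) {j : ℕ} (hj : j ≤ t) : 2 * od j x ≤ j + δ := by
  have h := (hx j hj).2
  rw [abs_le] at h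
  have : (2 * (od j x : ℝ)) ≤ j + δ := by linarith [h.2]
  exact_mod_cast this

theorem od_lo {t L δ : ℕ} {x : ℤ} (hx : Gd t L δ x) {j : ℕ} (hj : j ≤ t) : j ≤ 2 * od j x + δ := by
  have h := (hx j hj).2
  rw [abs_le] at h
  have : (j : ℝ) ≤ 2 * (od j x : ℝ) + δ := by linarith [h.1]
  exact_mod_cast this

theorem sq_le_of {a b : ℕ} (h : a ^ 2 ≤ b ^ 2) : a ≤ b := by
  exact (Nat.pow_le_pow_iff_left (by norm_num)).1 h

end Pool.Agent.J4H39
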