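import Mathlib
import Pool.Agent.J4H39.W2
import Pool.Agent.J4H39.S2

set_option autoImplicit false

namespace Pool.Agent.J4H39

open Finset

/-! Optional stopping for the pair `n`, `n + h`. -/

/-- difference of the numbers of odd terms -/
def Dd (h : ℤ) (j : ℕ) (n : ℤ) : ℤ := (od j (n + h) : ℤ) - od j n

/-- the clock -/
def Ac (h : ℤ) (j : ℕ) (n : ℤ) : ℕ := cd j n (n + h)

theorem per_Dd (h : ℤ) {i j : ℕ} (hij : i ≤ j) : Per j (Dd h i) := by
  intro n u
  unfold Dd
  have e1 := per_od hij n u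
  have e2 := ((per_od hij).shift h) n u
  simp only at e2
  rw [e1, e2]

theorem per_Ac (h : ℤ) {i j : ℕ} (hij : i ≤ j) : Per j (Ac h i) := per_cd h hij

theorem Ac_mono (h n : ℤ) {i j : ℕ} (hij : i ≤ j) : Ac h i n ≤ Ac h j n := cd_mono n (n + h) hij

/-- The martingale. -/
noncomputable def Mt (m mt : ℕ) (h : ℤ) (j : ℕ) (n : ℤ) : ℝ := F m (mt - Ac h j n) (Dd h j n)

theorem per_Mt (m mt : ℕ) (h : ℤ) {i j : ℕ} (hij : i ≤ j) : Per j (Mt m mt h i) := by
  intro n u
  unfold Mt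
  rw [per_Dd h hij n u, per_Ac h hij n u]

theorem Mt_step {m mt : ℕ} {h : ℤ} {j : ℕ} {n : ℤ} (h1 : Ac h j n < mt)
    (h2 : ¬ (Dd h j n = 0 ∧ mt - Ac h j n ≤ m)) :
    Mt m mt h (j + 1) n + Mt m mt h (j + 1) (n + 2 ^ j) = 2 * Mt m mt h j n := by
  have e1 : od j (n + 2 ^ j) = od j n := by have := od_add j n 1; rwa [mul_one] at this
  have e2 : od j (n + 2 ^ j + h) = od j (n + h) := by
    have := od_add j (n + h) 1
    rw [mul_one] at this
    rw [← this]; congr 1; ring
  have e3 : cd j (n + 2 ^ j) (n + 2 ^ j + h) = cd j n (n + h) := by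
    have := cd_periodic j (le_refl j) n (n + h) 1 1
    rw [mul_one] at this
    rw [← this]; congr 1; ring
  have e4 : pr j (n + 2 ^ j) = 1 - pr j n := pr_flip j n
  have e5 : pr j (n + 2 ^ j + h) = 1 - pr j (n + h) := by
    rw [← pr_flip]; congr 1; ring
  unfold Mt Dd Ac at *
  rw [od_succ, od_succ, od_succ, od_succ, cd_succ, cd_succ, e1, e2, e3, e4, e5]
  set q := mt - cd j n (n + h) with hq
  obtain ⟨q', hq'⟩ : ∃ q', q = q' + 1 := ⟨q - 1, by omega⟩
  set D : ℤ := (od j (n + h) : ℤ) - od j n with hD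
  have hr := F_rec (m := m) (q := q') (d := D) (by rw [← hq']; exact h2)
  rcases pr_cases j n with ⟨a, _⟩ | ⟨a, _⟩ <;> rcases pr_cases j (n + h) with ⟨b, _⟩ | ⟨b, _⟩
  · rw [a, b]
    simp only [if_true, add_zero]
    push_cast
    rw [show (od j (n + h) : ℤ) + 1 - (od j n + 1) = D by rw [hD]; ring, ← hq, ← hD]
    ring
  · rw [a, b]
    rw [if_neg (by norm_num), if_neg (by norm_num)]
    have e6 : mt - (cd j n (n + h) + 1) = q' := by omega
    rw [e6, hq', hr]
    push_cast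
    rw [show (od j (n + h) : ℤ) + 1 - (od j n + 0) = D + 1 by rw [hD]; ring,
      show (od j (n + h) : ℤ) + 0 - (od j n + 1) = D - 1 by rw [hD]; ring]
    ring
  · rw [a, b]
    rw [if_neg (by norm_num), if_neg (by norm_num)]
    have e6 : mt - (cd j n (n + h) + 1) = q' := by omega
    rw [e6, hq', hr]
    push_cast
    rw [show (od j (n + h) : ℤ) + 0 - (od j n + 1) = D - 1 by rw [hD]; ring,
      show (od j (n + h) : ℤ) + 1 - (od j n + 0) = D + 1 by rw [hD]; ring]
    ring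
  · rw [a, b]
    simp only [if_true, add_zero]
    push_cast
    rw [show (od j (n + h) : ℤ) + 1 - (od j n + 1) = D by rw [hD]; ring,
      show (od j (n + h) : ℤ) + 0 - (od j n + 0) = D by rw [hD]; ring, ← hq]
    ring

open Classical in
/-- The stopped process. -/
noncomputable def X (m mt : ℕ) (h : ℤ) (st : ℕ → ℤ → Prop) : ℕ → ℤ → ℝ
  | 0, n => Mt m mt h 0 n
  | j + 1, n => if ∃ i ≤ j, st i n then X m mt h st j n else Mt m mt h (j + 1) n

theorem per_X (m mt : ℕ) (h : ℤ) {st : ℕ → ℤ → Prop} (hst : ∀ i, Per i (st i)) (j : ℕ) :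
    Per j (X m mt h st j) := by
  induction j with
  | zero => exact per_Mt m mt h le_rfl
  | succ j ih =>
    intro n u
    have e1 : (∃ i ≤ j, st i (n + 2 ^ (j + 1) * u)) ↔ (∃ i ≤ j, st i n) := by
      apply exists_congr
      intro i
      apply and_congr_right
      intro hi
      rw [((hst i).mono (show i ≤ j + 1 by omega)) n u]
    have e2 := (ih.mono (Nat.le_succ j)) n u
    have e3 := per_Mt m mt h (le_refl (j + 1)) n u
    unfold X
    rw [e2, e3]
    by_cases hs : ∃ i ≤ j, st i n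
    · rw [if_pos hs, if_pos (e1.2 hs)]
    · rw [if_neg hs, if_neg (fun hh => hs (e1.1 hh))]

theorem X_bd (m mt : ℕ) (h : ℤ) (st : ℕ → ℤ → Prop) (j : ℕ) (n : ℤ) :
    0 ≤ X m mt h st j n ∧ X m mt h st j n ≤ 1 := by
  induction j with
  | zero => exact F_bd _ _ _
  | succ j ih =>
    unfold X
    split_ifs
    · exact ih
    · exact F_bd _ _ _

theorem X_run {m mt : ℕ} {h : ℤ} {st : ℕ → ℤ → Prop} {j : ℕ} {n : ℤ} (hn : ∀ i < j, ¬ st i n) :
    X m mt h st j n = Mt m mt h j n := by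
  cases j with
  | zero => rfl
  | succ j =>
    unfold X
    rw [if_neg]
    rintro ⟨i, hi, h⟩
    exact hn i (by omega) h

theorem X_stop {m mt : ℕ} {h : ℤ} {st : ℕ → ℤ → Prop} {i : ℕ} {n : ℤ} (hn : ∀ i' < i, ¬ st i' n) (hi : st i n)
    {j : ℕ} (hij : i ≤ j) : X m mt h st j n = Mt m mt h i n := by
  induction j, hij using Nat.le_induction with
  | base => exact X_run hn
  | succ j hij ih =>
    unfold X
    rw [if_pos ⟨i, hij, hi⟩, ih]

theorem Mt_zero (m mt : ℕ) (h : ℤ) (n : ℤ) : Mt m mt h 0 n = F m mt 0 := by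
  unfold Mt Dd Ac
  simp [od, cd]

/-- Optional stopping. -/
theorem ex_X {m mt : ℕ} {h : ℤ} {st : ℕ → ℤ → Prop} (hst : ∀ i, Per i (st i))
    (hreg : ∀ j n, ¬ st j n → Ac h j n < mt ∧ ¬ (Dd h j n = 0 ∧ mt - Ac h j n ≤ m)) (j : ℕ) :
    ex j (X m mt h st j) = F m mt 0 := by
  induction j with
  | zero => rw [ex_zero]; exact Mt_zero _ _ _ _
  | succ j ih =>
    rw [ex_succ, ← ih]
    apply ex_congr
    intro n
    have e1 : (∃ i ≤ j, st i (n + 2 ^ j)) ↔ (∃ i ≤ j, st i n) := by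
      apply exists_congr
      intro i
      apply and_congr_right
      intro hi
      have := ((hst i).mono hi) n 1
      rw [mul_one] at this
      rw [this]
    have e2 : X m mt h st j (n + 2 ^ j) = X m mt h st j n := by
      have := per_X m mt h hst j n 1
      rwa [mul_one] at this
    by_cases hs : ∃ i ≤ j, st i n
    · have a1 : X m mt h st (j + 1) n = X m mt h st j n := by
        conv_lhs => unfold X
        rw [if_pos hs]
      have a2 : X m mt h st (j + 1) (n + 2 ^ j) = X m mt h st j (n + 2 ^ j) := by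
        conv_lhs => unfold X
        rw [if_pos (e1.2 hs)]
      rw [a1, a2, e2]; ring
    · have a1 : X m mt h st (j + 1) n = Mt m mt h (j + 1) n := by
        conv_lhs => unfold X
        rw [if_neg hs]
      have a2 : X m mt h st (j + 1) (n + 2 ^ j) = Mt m mt h (j + 1) (n + 2 ^ j) := by
        conv_lhs => unfold X
        rw [if_neg (fun hh => hs (e1.1 hh))]
      have a3 : X m mt h st j n = Mt m mt h j n := X_run (fun i hi hh => hs ⟨i, hi.le, hh⟩)
      obtain ⟨b1, b2⟩ := hreg j n (fun hh => hs ⟨j, le_rfl, hh⟩)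
      rw [a1, a2, a3, Mt_step b1 b2]; ring

theorem exists_first {P : ℕ → Prop} {t : ℕ} (h : ∃ i ≤ t, P i) : ∃ i ≤ t, P i ∧ ∀ i' < i, ¬ P i' := by
  classical
  obtain ⟨i, hi, hP⟩ := h
  have hex : ∃ i, P i := ⟨i, hP⟩
  exact ⟨Nat.find hex, (Nat.find_min' hex hP).trans hi, Nat.find_spec hex, fun i' hi' => Nat.find_min hex hi'⟩

/-- Upper bound for the probability of having no visit near `0`. -/
theorem ub_F (h : ℤ) (s t : ℕ) (K : ℕ) (m mt : ℕ) :
    pb t (fun n => mt ≤ Ac h t n ∧ Ac h s n < mt - m ∧ ∀ j, s ≤ j → j ≤ t → (K : ℤ) < |Dd h j n|) ≤ F m mt 0 := by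
  set st : ℕ → ℤ → Prop := fun j n => mt ≤ Ac h j n ∨ (Dd h j n = 0 ∧ mt - Ac h j n ≤ m) with hst
  have hper : ∀ i, Per i (st i) := by
    intro i n u
    rw [hst]; simp only
    rw [per_Dd h le_rfl n u, per_Ac h le_rfl n u]
  have hreg : ∀ j n, ¬ st j n → Ac h j n < mt ∧ ¬ (Dd h j n = 0 ∧ mt - Ac h j n ≤ m) := by
    intro j n hn
    rw [hst] at hn
    simp only [not_or] at hn
    exact ⟨by omega, hn.2⟩
  rw [← ex_X hper hreg t]
  unfold pb
  apply ex_mono
  intro n
  split_ifs with hn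
  · obtain ⟨h1, h2, h3⟩ := hn
    obtain ⟨i, hi, hsti, hmin⟩ := exists_first (P := fun i => st i n) (t := t) ⟨t, le_rfl, Or.inl h1⟩
    rw [X_stop hmin hsti hi]
    have his : mt - m ≤ Ac h i n → s ≤ i := by
      intro hh
      by_contra hcon
      have := Ac_mono h n (show i ≤ s by omega)
      omega
    rcases hsti with hs1 | ⟨hs1, hs2⟩
    · have := h3 i (his (by omega)) hi
      unfold Mt
      rw [show mt - Ac h i n = 0 by omega]
      unfold F
      rw [if_neg]
      intro h0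
      rw [h0] at this
      simp at this
      omega
    · have := h3 i (his (by omega)) hi
      rw [hs1] at this
      simp at this
      omega
  · exact (X_bd _ _ _ _ _ _).1

/-- Lower bound for the probability of having no visit near `0`. -/
theorem lb_F (h : ℤ) (s t : ℕ) (K : ℕ) (m mt : ℕ) {q0 : ℕ} (hq0 : 1 ≤ q0) (hst' : s ≤ t) :
    F m mt 0 ≤ pb t (fun n => ∀ j, s ≤ j → j ≤ t → (K : ℤ) < |Dd h j n|) +
      pb t (fun n => ¬ (mt - m ≤ Ac h s n ∧
        ∀ j, s ≤ j → j ≤ t → (∀ i, s ≤ i → i < j → (K : ℤ) < |Dd h i n|) → Ac h j n + q0 ≤ mt)) +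
      2 * K / √ q0 := by
  set st : ℕ → ℤ → Prop := fun j n => mt ≤ Ac h j n ∨ (Dd h j n = 0 ∧ mt - Ac h j n ≤ m) ∨
    (s ≤ j ∧ |Dd h j n| ≤ K) with hst
  have hper : ∀ i, Per i (st i) := by
    intro i n u
    rw [hst]; simp only
    rw [per_Dd h le_rfl n u, per_Ac h le_rfl n u]
  have hreg : ∀ j n, ¬ st j n → Ac h j n < mt ∧ ¬ (Dd h j n = 0 ∧ mt - Ac h j n ≤ m) := by
    intro j n hn
    rw [hst] at hn
    simp only [not_or] at hn
    exact ⟨by omega, hn.2.1⟩
  rw [← ex_X hper hreg t]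
  have hc : (2 * K / √ q0 : ℝ) = ex t (fun _ => (2 * K / √ q0 : ℝ)) := (ex_const _ _).symm
  have hc0 : (0 : ℝ) ≤ 2 * K / √ q0 := by positivity
  rw [hc]
  unfold pb
  rw [← ex_add, ← ex_add]
  apply ex_mono
  intro n
  have hX := X_bd m mt h st t n
  split_ifs with h1 h2 h2
  · linarith
  · linarith
  · linarith
  · push Not at h1
    push Not at h2
    obtain ⟨j, hj1, hj2, hj3⟩ := h1
    obtain ⟨i, hi, hsti, hmin⟩ := exists_first (P := fun i => st i n) (t := t)
      ⟨j, hj2, Or.inr (Or.inr ⟨hj1, hj3⟩)⟩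
    rw [X_stop hmin hsti hi]
    rw [zero_add, zero_add]
    have hbef : ∀ i', s ≤ i' → i' < i → (K : ℤ) < |Dd h i' n| := by
      intro i' h4 h5
      have h6 := hmin i' h5
      rw [hst] at h6
      simp only [not_or, not_and, not_le] at h6
      exact h6.2.2 h4
    have hAs : Ac h s n + q0 ≤ mt := h2.2 s le_rfl hst' (fun i h4 h5 => by omega)
    have hlt : Ac h i n + q0 ≤ mt := by
      rcases le_total s i with h4 | h4
      · exact h2.2 i h4 hi hbef
      · have := Ac_mono h n h4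
        omega
    rcases hsti with hs1 | ⟨hs1, hs2⟩ | ⟨hs1, hs2⟩
    · omega
    · unfold Mt
      rw [hs1, F_zero hs2]; exact hc0
    · unfold Mt
      have h5 := Ac_mono h n hs1
      rw [F_eq_U (by omega)]
      have h6 : U (mt - Ac h i n) (Dd h i n) ≤ U q0 (Dd h i n) := U_antitone _ (by omega)
      refine h6.trans ((U_bound hq0 _).trans ?_)
      have h7 : |((Dd h i n : ℤ) : ℝ)| ≤ K := by exact_mod_cast hs2
      gcongr

end Pool.Agent.J4H39
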