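import Mathlib
import Pool.Agent.J4H39.W6
import Pool.Agent.H499R2.CO.R2
import Pool.Agent.H499R2.CO.F

set_option autoImplicit false

namespace Pool.Agent.J4H39

open Finset
open Pool.Agent.H499R2.CO (Tz surv q step rho q_rate coal surv_periodic count_surv)

/-! After a visit near `0` the pair merges quickly. -/

theorem T_eq : T = Tz 1 := rfl

/-- The class of `n` modulo `2 ^ t` is merged at time `t` with its translate by `h`. -/
def mg (h : ℤ) (t : ℕ) (n : ℤ) : Prop := ∀ v : ℤ, T^[t] (n + 2 ^ t * v) = T^[t] (n + 2 ^ t * v + h)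

theorem mg_eq {h : ℤ} {t : ℕ} {n : ℤ} (hm : mg h t n) : T^[t] n = T^[t] (n + h) := by
  have := hm 0
  simpa using this

theorem per_mg (h : ℤ) (t : ℕ) : Per t (mg h t) := by
  intro n u
  unfold mg
  apply propext
  constructor
  · intro hh v
    have := hh (v - u)
    rw [show n + 2 ^ t * u + 2 ^ t * (v - u) = n + 2 ^ t * v by ring] at this
    exact this
  · intro hh v
    have := hh (u + v)
    rw [show n + 2 ^ t * (u + v) = n + 2 ^ t * u + 2 ^ t * v by ring] at this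
    exact this

theorem mg_succ_le {h : ℤ} {t t' : ℕ} (htt : t ≤ t') {n : ℤ} (hm : mg h t n) : mg h t' n := by
  intro v
  obtain ⟨d, rfl⟩ := Nat.exists_eq_add_of_le htt
  have := hm (2 ^ d * v)
  rw [add_comm t d, Function.iterate_add_apply, Function.iterate_add_apply]
  rw [show (2 : ℤ) ^ (d + t) * v = 2 ^ t * (2 ^ d * v) by rw [pow_add]; ring, this]

theorem mg_symm {h : ℤ} {t : ℕ} {n : ℤ} (hm : mg (-h) t (n + h)) : mg h t n := by
  intro v
  have := hm v
  rw [show n + h + 2 ^ t * v + -h = n + 2 ^ t * v by ring, show n + h + 2 ^ t * v = n + 2 ^ t * v + h by ring] at this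
  exact this.symm

/-- Tower property. -/
theorem ex_tower (j k : ℕ) : ∀ f : ℤ → ℝ, ex (j + k) f = ex j (fun n => ex k (fun u => f (n + 2 ^ j * u))) := by
  induction k with
  | zero =>
    intro f
    rw [add_zero]
    apply ex_congr
    intro n
    rw [ex_zero]; simp
  | succ k ih =>
    intro f
    rw [← add_assoc, ex_succ, ih]
    apply ex_congr
    intro n
    rw [ex_succ]
    apply ex_congr
    intro u
    rw [show n + 2 ^ j * (u + 2 ^ k) = n + 2 ^ j * u + 2 ^ (j + k) by rw [pow_add]; ring]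

open Classical in
theorem pb_surv (k : ℕ) (s : ℕ × ℤ) : pb k (surv 1 k s) = q step (0, 0) k s := by
  have h := count_surv (d := 1) (by norm_num) k s
  unfold pb ex
  rw [div_eq_iff (by positivity), mul_comm, ← h]

theorem per_surv (k : ℕ) (s : ℕ × ℤ) : Per k (surv 1 k s) := by
  intro x u
  rw [mul_comm]
  exact propext (surv_periodic (by norm_num) k s x u)

theorem after_pos {h : ℤ} {j k : ℕ} {n : ℤ} {D : ℕ} (hD : od j (n + h) = od j n + D) :
    pb k (fun u => ¬ mg h (j + k) (n + 2 ^ j * u)) ≤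
      q step (0, 0) k (D, T^[j] (n + h) - 3 ^ D * T^[j] n) := by
  set r : ℤ := T^[j] (n + h) - 3 ^ D * T^[j] n with hr
  set o := od j n with ho
  have h1 : pb k (fun u => ¬ mg h (j + k) (n + 2 ^ j * u)) ≤
      pb k (fun u => surv 1 k (D, r) (3 ^ o * u + T^[j] n)) := by
    apply pb_mono
    intro u hu
    by_contra hs
    apply hu
    intro v
    have hx : n + 2 ^ j * u + 2 ^ (j + k) * v = n + 2 ^ j * (u + 2 ^ k * v) := by rw [pow_add]; ring
    set w : ℤ := u + 2 ^ k * v with hw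
    have e1 : T^[j] (n + 2 ^ j * w) = T^[j] n + 3 ^ o * w := T_add j n w
    have e2 : T^[j] (n + 2 ^ j * w + h) = 3 ^ D * (T^[j] n + 3 ^ o * w) + r := by
      rw [show n + 2 ^ j * w + h = (n + h) + 2 ^ j * w by ring, T_add, hD, hr, pow_add]; ring
    have hs2 : ¬ surv 1 k (D, r) (T^[j] n + 3 ^ o * w) := by
      rw [show T^[j] n + 3 ^ o * w = (3 ^ o * u + T^[j] n) + 2 ^ k * (3 ^ o * v) by rw [hw]; ring,
        per_surv k (D, r)]
      exact hs
    obtain ⟨t, ht, he⟩ := coal (d := 1) (by norm_num) k D r _ hs2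
    rw [one_mul] at he
    rw [← T_eq] at he
    rw [hx, add_comm j k, Function.iterate_add_apply, Function.iterate_add_apply, e1, e2]
    obtain ⟨d, rfl⟩ := Nat.exists_eq_add_of_le ht
    rw [add_comm t d, Function.iterate_add_apply, Function.iterate_add_apply, he]
  refine h1.trans (le_of_eq ?_)
  rw [← pb_surv]
  unfold pb
  have h3 : ((3 : ℤ) ^ o) % 2 = 1 := pow3_odd o
  exact ex_affine k (per_surv k (D, r)).ind h3 (T^[j] n)

/-- The rate, as a bound depending on the level and on the time. -/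
noncomputable def QQ (C : ℝ) (K l k : ℕ) : ℝ := C * √ (1 + (K : ℝ) ^ 2 + (K + l + 1 : ℕ)) * rho k

/-- regularity at time `j`. -/
def Rg (h : ℤ) (l j : ℕ) (n : ℤ) : Prop :=
  rh j n ≤ 4 ^ l * 2 ^ j ∧ rh j (n + h) ≤ 4 ^ l * 2 ^ j ∧ 3 ^ od j n * |h| ≤ 2 ^ j ∧
    3 ^ od j (n + h) * |h| ≤ 2 ^ j

theorem per_Rg (h : ℤ) (l j : ℕ) : Per j (Rg h l j) := by
  intro n u
  unfold Rg
  have e1 := per_rh (le_refl j) n u
  have e2 := ((per_rh (le_refl j)).shift h) n u
  have e3 := per_od (le_refl j) n u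
  have e4 := ((per_od (le_refl j)).shift h) n u
  simp only at e2 e4
  rw [e1, e2, e3, e4]

theorem after_pos_bound {C : ℝ} (hC : 0 < C) (hrate : ∀ (k : ℕ), 1 ≤ k → ∀ (i u : ℕ) (r : ℤ), |(r : ℝ)| ≤ 4 ^ u →
    q step (0, 0) k (i, r) ≤ C * √ (1 + (i : ℝ) ^ 2 + u) * rho k)
    {h : ℤ} {j k K l : ℕ} (hk : 1 ≤ k) {n : ℤ} {D : ℕ} (hD : od j (n + h) = od j n + D) (hDK : D ≤ K)
    (h1 : rh j n ≤ 4 ^ l * 2 ^ j) (h2 : rh j (n + h) ≤ 4 ^ l * 2 ^ j) (h3 : 3 ^ od j n * |h| ≤ 2 ^ j) :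
    pb k (fun u => ¬ mg h (j + k) (n + 2 ^ j * u)) ≤ QQ C K l k := by
  refine (after_pos hD).trans ?_
  set r : ℤ := T^[j] (n + h) - 3 ^ D * T^[j] n with hr
  have h2j : (0 : ℝ) < 2 ^ j := by positivity
  have hkey : (2 : ℝ) ^ j * r = 3 ^ (od j n + D) * h + rh j (n + h) - 3 ^ D * rh j n := by
    have e1 := iter_eq j n
    have e2 := iter_eq j (n + h)
    rw [hD] at e2
    have : (2 : ℤ) ^ j * r = 3 ^ (od j n + D) * h + rh j (n + h) - 3 ^ D * rh j n := by
      rw [hr, mul_sub, e2, show (2 : ℤ) ^ j * (3 ^ D * T^[j] n) = 3 ^ D * (2 ^ j * T^[j] n) by ring, e1, pow_add]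
      ring
    exact_mod_cast this
  have h1r : (rh j n : ℝ) ≤ 4 ^ l * 2 ^ j := by exact_mod_cast h1
  have h2r : (rh j (n + h) : ℝ) ≤ 4 ^ l * 2 ^ j := by exact_mod_cast h2
  have h3r : (3 : ℝ) ^ od j n * |(h : ℝ)| ≤ 2 ^ j := by exact_mod_cast h3
  have h3D : (0 : ℝ) < 3 ^ D := by positivity
  have h3D1 : (1 : ℝ) ≤ 3 ^ D := one_le_pow₀ (by norm_num)
  have h4l : (1 : ℝ) ≤ 4 ^ l := one_le_pow₀ (by norm_num)
  have e4 : (0 : ℝ) ≤ rh j (n + h) := by positivity
  have e5 : (0 : ℝ) ≤ rh j n := by positivity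
  have e6 : |(3 : ℝ) ^ (od j n + D) * h| ≤ 3 ^ D * 2 ^ j := by
    rw [abs_mul, abs_of_pos (by positivity), pow_add]
    calc (3 : ℝ) ^ od j n * 3 ^ D * |(h : ℝ)| = 3 ^ D * (3 ^ od j n * |(h : ℝ)|) := by ring
      _ ≤ 3 ^ D * 2 ^ j := mul_le_mul_of_nonneg_left h3r h3D.le
  have e7 : (3 : ℝ) ^ D * rh j n ≤ 3 ^ D * (4 ^ l * 2 ^ j) := mul_le_mul_of_nonneg_left h1r h3D.le
  have e7' : (0 : ℝ) ≤ 3 ^ D * rh j n := by positivity
  have e8 : (4 : ℝ) ^ l * 2 ^ j ≤ 3 ^ D * (4 ^ l * 2 ^ j) := le_mul_of_one_le_left (by positivity) h3D1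
  have e9 : (3 : ℝ) ^ D * 2 ^ j ≤ 3 ^ D * (4 ^ l * 2 ^ j) :=
    mul_le_mul_of_nonneg_left (le_mul_of_one_le_left h2j.le h4l) h3D.le
  rw [abs_le] at e6
  have e10 : (2 : ℝ) ^ j * (3 * 3 ^ D * 4 ^ l) = 3 * (3 ^ D * (4 ^ l * 2 ^ j)) := by ring
  have hrb : |(r : ℝ)| ≤ 3 * 3 ^ D * 4 ^ l := by
    rw [abs_le]
    constructor
    · have : (2 : ℝ) ^ j * (-(3 * 3 ^ D * 4 ^ l)) ≤ 2 ^ j * r := by
        rw [hkey, mul_neg, e10]; linarith
      exact le_of_mul_le_mul_left this h2j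
    · have : (2 : ℝ) ^ j * r ≤ 2 ^ j * (3 * 3 ^ D * 4 ^ l) := by
        rw [hkey, e10]; linarith
      exact le_of_mul_le_mul_left this h2j
  have hrb2 : |(r : ℝ)| ≤ 4 ^ (K + l + 1) := by
    refine hrb.trans ?_
    have : (3 : ℝ) ^ D ≤ 4 ^ K :=
      (pow_le_pow_left₀ (by norm_num) (by norm_num) D).trans (pow_le_pow_right₀ (by norm_num) hDK)
    calc (3 : ℝ) * 3 ^ D * 4 ^ l ≤ 4 * 4 ^ K * 4 ^ l := by gcongr; norm_num
      _ = 4 ^ (K + l + 1) := by rw [pow_succ, pow_add]; ring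
  refine (hrate k hk D (K + l + 1) r hrb2).trans ?_
  unfold QQ
  have hrho : 0 ≤ rho k := Pool.Agent.H499R2.CO.rho_nonneg k
  apply mul_le_mul_of_nonneg_right _ hrho
  apply mul_le_mul_of_nonneg_left _ hC.le
  apply Real.sqrt_le_sqrt
  have : (D : ℝ) ≤ K := by exact_mod_cast hDK
  gcongr

theorem after_bound {C : ℝ} (hC : 0 < C) (hrate : ∀ (k : ℕ), 1 ≤ k → ∀ (i u : ℕ) (r : ℤ), |(r : ℝ)| ≤ 4 ^ u →
    q step (0, 0) k (i, r) ≤ C * √ (1 + (i : ℝ) ^ 2 + u) * rho k)
    {h : ℤ} {j k K l : ℕ} (hk : 1 ≤ k) {n : ℤ} (hDK : |Dd h j n| ≤ K) (hR : Rg h l j n) :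
    pb k (fun u => ¬ mg h (j + k) (n + 2 ^ j * u)) ≤ QQ C K l k := by
  obtain ⟨h1, h2, h3, h4⟩ := hR
  unfold Dd at hDK
  rw [abs_le] at hDK
  rcases le_total (od j n) (od j (n + h)) with hle | hle
  · exact after_pos_bound hC hrate hk (D := od j (n + h) - od j n) (by omega) (by omega) h1 h2 h3
  · have e : n + h + -h = n := by ring
    have key := after_pos_bound hC hrate (h := -h) (j := j) (k := k) (K := K) (l := l) hk (n := n + h)
      (D := od j n - od j (n + h)) (by rw [e]; omega) (by omega) h2 (by rw [e]; exact h1)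
      (by rw [abs_neg]; exact h4)
    refine le_trans (pb_mono ?_) key
    intro u hu hm
    apply hu
    apply mg_symm
    rw [show n + 2 ^ j * u + h = n + h + 2 ^ j * u by ring]
    exact hm

theorem QQ_nonneg {C : ℝ} (hC : 0 < C) (K l k : ℕ) : 0 ≤ QQ C K l k := by
  unfold QQ
  have hrho : 0 ≤ rho k := Pool.Agent.H499R2.CO.rho_nonneg k
  positivity

/-- A regular visit near `0` at time `j`. -/
def Hit (h : ℤ) (K l j : ℕ) (n : ℤ) : Prop := |Dd h j n| ≤ K ∧ Rg h l j n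

theorem per_Hit (h : ℤ) (K l j : ℕ) : Per j (Hit h K l j) := by
  intro n u
  unfold Hit
  rw [per_Dd h le_rfl n u, per_Rg h l j n u]

theorem pb_disj {j : ℕ} {P Q R : ℤ → Prop} (h1 : ∀ x, P x → R x) (h2 : ∀ x, Q x → R x)
    (h3 : ∀ x, P x → ¬ Q x) : pb j P + pb j Q ≤ pb j R := by
  unfold pb
  rw [← ex_add]
  apply ex_mono
  intro x
  have a1 := h1 x
  have a2 := h2 x
  have a3 := h3 x
  by_cases hP : P x
  · simp [hP, a1 hP, a3 hP]
  · by_cases hQ : Q x
    · simp [hP, hQ, a2 hQ]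
    · simp only [hP, hQ, if_false]
      split_ifs <;> norm_num

/-- The decomposition according to the first regular visit. -/
theorem hit_mg {C : ℝ} (hC : 0 < C) (hrate : ∀ (k : ℕ), 1 ≤ k → ∀ (i u : ℕ) (r : ℤ), |(r : ℝ)| ≤ 4 ^ u →
    q step (0, 0) k (i, r) ≤ C * √ (1 + (i : ℝ) ^ 2 + u) * rho k)
    {h : ℤ} {K l s t' t : ℕ} {Q : ℝ} (hQ0 : 0 ≤ Q) (ht : t' < t) (hQ : ∀ k, t - t' ≤ k → k ≤ t → QQ C K l k ≤ Q) :
    pb t (fun n => (∃ j, s ≤ j ∧ j ≤ t' ∧ Hit h K l j n) ∧ ¬ mg h t n) ≤ Q := by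
  have key : ∀ i : ℕ, i ≤ t' + 1 → pb t (fun n => (∃ j, s ≤ j ∧ j < i ∧ Hit h K l j n) ∧ ¬ mg h t n) ≤
      Q * pb t (fun n => ∃ j, s ≤ j ∧ j < i ∧ Hit h K l j n) := by
    intro i
    induction i with
    | zero =>
      intro _
      have : pb t (fun n => (∃ j, s ≤ j ∧ j < 0 ∧ Hit h K l j n) ∧ ¬ mg h t n) ≤ ex t (fun _ => (0 : ℝ)) := by
        unfold pb
        apply ex_mono
        intro n
        rw [if_neg]
        rintro ⟨⟨j, _, h2, _⟩, _⟩
        omega
      rw [ex_const] at this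
      exact this.trans (mul_nonneg hQ0 (pb_nonneg _ _))
    | succ i ih =>
      intro hi
      -- the new event
      set N : ℤ → Prop := fun n => (¬ ∃ j, s ≤ j ∧ j < i ∧ Hit h K l j n) ∧ s ≤ i ∧ Hit h K l i n with hN
      have hNper : Per i N := by
        intro n u
        rw [hN]; simp only
        have e1 : (∃ j, s ≤ j ∧ j < i ∧ Hit h K l j (n + 2 ^ i * u)) = (∃ j, s ≤ j ∧ j < i ∧ Hit h K l j n) := by
          apply propext
          apply exists_congr
          intro j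
          apply and_congr_right
          intro _
          apply and_congr_right
          intro hj
          rw [((per_Hit h K l j).mono hj.le) n u]
        rw [e1, per_Hit h K l i n u]
      have h1 : pb t (fun n => (∃ j, s ≤ j ∧ j < i + 1 ∧ Hit h K l j n) ∧ ¬ mg h t n) ≤
          pb t (fun n => (∃ j, s ≤ j ∧ j < i ∧ Hit h K l j n) ∧ ¬ mg h t n) + pb t (fun n => N n ∧ ¬ mg h t n) := by
        refine le_trans (pb_mono ?_) (pb_or _ _ _)
        rintro n ⟨⟨j, h1, h2, h3⟩, h4⟩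
        by_cases hex : ∃ j, s ≤ j ∧ j < i ∧ Hit h K l j n
        · exact Or.inl ⟨hex, h4⟩
        · right
          have : j = i := by
            by_contra hne
            exact hex ⟨j, h1, by omega, h3⟩
          subst this
          exact ⟨⟨hex, h1, h3⟩, h4⟩
      have h2 : pb t (fun n => N n ∧ ¬ mg h t n) ≤ Q * pb t N := by
        obtain ⟨k, rfl⟩ := Nat.exists_eq_add_of_le (show i ≤ t by omega)
        rw [pb_per (by omega : i ≤ i + k) hNper]
        unfold pb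
        rw [ex_tower i k, ← ex_mul]
        apply ex_mono
        intro n
        by_cases hn : N n
        · rw [if_pos hn, mul_one]
          have h3 := after_bound hC hrate (k := k) (by omega) hn.2.2.1 hn.2.2.2
          refine le_trans ?_ (h3.trans (hQ k (by omega) (by omega)))
          unfold pb
          apply ex_mono
          intro u
          by_cases h5 : mg h (i + k) (n + 2 ^ i * u)
          · simp [h5]
          · simp only [h5, not_false_eq_true, and_true, if_true]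
            split_ifs <;> norm_num
        · rw [if_neg hn, mul_zero]
          have : ex k (fun _ => (0 : ℝ)) = 0 := ex_const _ _
          refine le_trans (ex_mono (g := fun _ => (0 : ℝ)) ?_) this.le
          intro u
          simp only
          rw [if_neg]
          rintro ⟨h4, _⟩
          rw [hNper n u] at h4
          exact hn h4
      have h3 : pb t (fun n => ∃ j, s ≤ j ∧ j < i ∧ Hit h K l j n) + pb t N ≤
          pb t (fun n => ∃ j, s ≤ j ∧ j < i + 1 ∧ Hit h K l j n) := by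
        apply pb_disj
        · rintro n ⟨j, h1, h2, h3⟩
          exact ⟨j, h1, by omega, h3⟩
        · rintro n ⟨_, h1, h2⟩
          exact ⟨i, h1, by omega, h2⟩
        · intro n h1 h2
          exact h2.1 h1
      have h4 := ih (by omega)
      calc _ ≤ _ := h1
        _ ≤ Q * pb t (fun n => ∃ j, s ≤ j ∧ j < i ∧ Hit h K l j n) + Q * pb t N := add_le_add h4 h2
        _ = Q * (pb t (fun n => ∃ j, s ≤ j ∧ j < i ∧ Hit h K l j n) + pb t N) := by ring
        _ ≤ _ := mul_le_mul_of_nonneg_left h3 hQ0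
  have h5 := key (t' + 1) le_rfl
  have h6 := pb_le_one t (fun n => ∃ j, s ≤ j ∧ j < t' + 1 ∧ Hit h K l j n)
  refine le_trans (pb_mono ?_) (h5.trans ?_)
  · rintro n ⟨⟨j, h1, h2, h3⟩, h4⟩
    exact ⟨⟨j, h1, by omega, h3⟩, h4⟩
  · calc _ ≤ Q * 1 := mul_le_mul_of_nonneg_left h6 hQ0
      _ = Q := mul_one Q

end Pool.Agent.J4H39
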