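import Mathlib
import Pool.Agent.J4H39.W7
import Pool.Agent.H499R2.NDMix

set_option autoImplicit false

namespace Pool.Agent.J4H39

open Finset
open Pool.Agent.H320R2.PD (cnt Fib Gam F3 F3_sum Gam_conv Gam_le Gam_nonneg)

/-! Words of odd steps, automata driven by the parities, nonuniformity of the digits of the offset. -/

theorem od_comp (a : ℕ) (y : ℤ) (b : ℕ) : od (a + b) y = od a y + od b (T^[a] y) := by
  induction b with
  | zero => rfl
  | succ b ih => rw [← add_assoc, od_succ, od_succ, ih, pr_iter]; ring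

theorem rh_comp (a : ℕ) (y : ℤ) (b : ℕ) :
    rh (a + b) y = 3 ^ od b (T^[a] y) * rh a y + 2 ^ a * rh b (T^[a] y) := by
  induction b with
  | zero => simp [rh, od]
  | succ b ih =>
    rw [← add_assoc, rh, rh, od_succ, pr_iter, ih]
    rcases pr_cases (a + b) y with ⟨h, _⟩ | ⟨h, _⟩
    · rw [if_pos h, if_pos h, h, add_zero]
    · rw [if_neg (by omega), if_neg (by omega), h, pow_succ, pow_add]; ring

theorem od_mono (y : ℤ) {a b : ℕ} (h : a ≤ b) : od a y ≤ od b y := by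
  obtain ⟨d, rfl⟩ := Nat.exists_eq_add_of_le h
  rw [od_comp]; omega

open Classical in
/-- indicator -/
noncomputable def id1 (P : Prop) : ℝ := if P then 1 else 0

theorem id1_pos {P : Prop} (h : P) : id1 P = 1 := by unfold id1; rw [if_pos h]

theorem id1_neg {P : Prop} (h : ¬ P) : id1 P = 0 := by unfold id1; rw [if_neg h]

theorem id1_nonneg (P : Prop) : 0 ≤ id1 P := by unfold id1; split_ifs <;> norm_num

theorem id1_le_one (P : Prop) : id1 P ≤ 1 := by unfold id1; split_ifs <;> norm_num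

theorem id1_mono {P Q : Prop} (h : P → Q) : id1 P ≤ id1 Q := by
  by_cases hP : P
  · rw [id1_pos hP, id1_pos (h hP)]
  · rw [id1_neg hP]; exact id1_nonneg Q

theorem id1_congr {P Q : Prop} (h : P ↔ Q) : id1 P = id1 Q := by rw [propext h]

theorem pb_id1 (j : ℕ) (P : ℤ → Prop) : pb j P = ex j (fun x => id1 (P x)) := rfl

/-- pairs of classes -/
theorem ex_pair (a b : ℕ) (G : ℤ → ℤ → ℝ) (h1 : ∀ z, Per a (fun y => G y z)) (h2 : ∀ y, Per b (G y)) :
    ex (a + b) (fun y => G y (T^[a] y)) = ex a (fun y => ex b (G y)) := by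
  rw [ex_tower]
  apply ex_congr
  intro y
  have h3 : ∀ u, G (y + 2 ^ a * u) (T^[a] (y + 2 ^ a * u)) = G y (3 ^ od a y * u + T^[a] y) := by
    intro u
    rw [T_add, add_comm (T^[a] y)]
    exact h1 _ y u
  rw [ex_congr h3]
  exact ex_affine b (h2 y) (pow3_odd _) _

/-- the first `t` steps of `y` consist of `k` blocks, each an odd step and some even steps -/
def isW (k t : ℕ) (y : ℤ) : Prop := od t y = k ∧ (t = 0 ∨ pr 0 y = 1) ∧ (k = 0 → t = 0)

theorem per_isW (k t : ℕ) : Per t (isW k t) := by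
  intro x u
  unfold isW
  rw [per_od (le_refl t) x u]
  rcases Nat.eq_zero_or_pos t with h | h
  · subst h; simp
  · rw [per_pr h x u]

theorem isW_comp {k₂ k₁ a b : ℕ} {y : ℤ} (h2 : isW k₂ a y) (h1 : isW k₁ b (T^[a] y)) :
    isW (k₂ + k₁) (a + b) y := by
  obtain ⟨p1, p2, p3⟩ := h2
  obtain ⟨q1, q2, q3⟩ := h1
  refine ⟨by rw [od_comp, p1, q1], ?_, ?_⟩
  · rcases Nat.eq_zero_or_pos a with h | h
    · subst h
      rcases q2 with h' | h'
      · left; omega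
      · right; exact h'
    · right
      rcases p2 with h' | h'
      · omega
      · exact h'
  · intro h
    have := p3 (by omega)
    have := q3 (by omega)
    omega

theorem isW_lt {k₂ k₁ t a b : ℕ} {y : ℤ} (ha : a < b) (hb : b ≤ t)
    (h1 : isW k₂ a y) (h2 : isW k₁ (t - a) (T^[a] y)) (h3 : isW k₂ b y) : False := by
  obtain ⟨p1, _, _⟩ := h1
  obtain ⟨_, q2, _⟩ := h2
  obtain ⟨r1, _, _⟩ := h3
  have h4 : pr 0 (T^[a] y) = 1 := by
    rcases q2 with h | h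
    · omega
    · exact h
  rw [pr_iter, add_zero] at h4
  have h5 := od_succ a y
  have h6 := od_mono y (show a + 1 ≤ b by omega)
  omega

theorem exists_time {k : ℕ} {y : ℤ} : ∀ {t : ℕ}, k < od t y → ∃ a, a < t ∧ od a y = k ∧ pr a y = 1 := by
  intro t
  induction t with
  | zero => intro h; simp [od] at h
  | succ t ih =>
    intro h
    rw [od_succ] at h
    by_cases h' : k < od t y
    · obtain ⟨a, h1, h2⟩ := ih h'
      exact ⟨a, by omega, h2⟩
    · have := pr_le t y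
      exact ⟨t, by omega, by omega, by omega⟩

theorem isW_exists {k₂ k₁ t : ℕ} {y : ℤ} (h : isW (k₂ + k₁) t y) :
    ∃ a, a ≤ t ∧ isW k₂ a y ∧ isW k₁ (t - a) (T^[a] y) := by
  obtain ⟨p1, p2, p3⟩ := h
  rcases Nat.eq_zero_or_pos k₁ with h0 | h0
  · subst h0
    refine ⟨t, le_rfl, ⟨by simpa using p1, p2, fun hh => p3 (by omega)⟩, ?_⟩
    rw [Nat.sub_self]
    exact ⟨rfl, Or.inl rfl, fun _ => rfl⟩
  · obtain ⟨a, h1, h2, h3⟩ := exists_time (k := k₂) (y := y) (t := t) (by omega)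
    have hp : pr 0 y = 1 := by
      rcases p2 with h | h
      · omega
      · exact h
    refine ⟨a, h1.le, ⟨h2, Or.inr hp, ?_⟩, ⟨?_, Or.inr ?_, by omega⟩⟩
    · intro hk
      by_contra hcon
      have h5 := od_mono y (show 1 ≤ a by omega)
      have h6 : od 1 y = 1 := by rw [od_succ, hp]; simp [od]
      omega
    · have h4 := od_comp a y (t - a)
      rw [Nat.add_sub_cancel' h1.le] at h4
      omega
    · rw [pr_iter, add_zero]; exact h3

theorem isW_split (k₂ k₁ t : ℕ) (y : ℤ) (R : Prop) : id1 (isW (k₂ + k₁) t y ∧ R) =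
    ∑ a ∈ range (t + 1), id1 ((isW k₂ a y ∧ isW k₁ (t - a) (T^[a] y)) ∧ R) := by
  by_cases h : isW (k₂ + k₁) t y ∧ R
  · rw [id1_pos h]
    obtain ⟨h, hR⟩ := h
    obtain ⟨a, h1, h2, h3⟩ := isW_exists h
    rw [sum_eq_single a]
    · rw [id1_pos ⟨⟨h2, h3⟩, hR⟩]
    · intro b hb hne
      rw [id1_neg]
      rintro ⟨⟨h4, h5⟩, _⟩
      rw [mem_range] at hb
      rcases Nat.lt_or_gt_of_ne hne with hlt | hlt
      · exact isW_lt hlt h1 h4 h5 h2
      · exact isW_lt hlt (by omega) h2 h3 h4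
    · intro hn; rw [mem_range] at hn; omega
  · rw [id1_neg h]
    symm
    apply sum_eq_zero
    intro a ha
    rw [id1_neg]
    rintro ⟨⟨h1, h2⟩, hR⟩
    rw [mem_range] at ha
    apply h
    refine ⟨?_, hR⟩
    have := isW_comp h1 h2
    rwa [Nat.add_sub_cancel' (by omega : a ≤ t)] at this

/-! families -/

open Classical in
/-- the numbers of `[0, 2 ^ t)` with the property `P` -/
noncomputable def cls (t : ℕ) (P : ℤ → Prop) : Finset ℕ := (range (2 ^ t)).filter (fun y => P ((y : ℕ) : ℤ))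

theorem mem_cls {t : ℕ} {P : ℤ → Prop} {y : ℕ} : y ∈ cls t P ↔ y < 2 ^ t ∧ P ((y : ℕ) : ℤ) := by
  classical
  unfold cls; rw [mem_filter, mem_range]

/-- the offset as an integer -/
def ro (t : ℕ) (y : ℕ) : ℤ := ((rh t ((y : ℕ) : ℤ) : ℕ) : ℤ)

/-- weights -/
noncomputable def w2 (t : ℕ) (_ : ℕ) : ℝ := (1 / 2 : ℝ) ^ t

theorem w2_nonneg (t y : ℕ) : 0 ≤ w2 t y := by unfold w2; positivity

/-- nonuniformity of the digit `q` of the offset of the numbers with the property `P` -/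
noncomputable def NU (t : ℕ) (P : ℤ → Prop) (q : ℕ) : ℝ := Gam (cls t P) (w2 t) (ro t) q

theorem cls_sum (t : ℕ) (P : ℤ → Prop) (f : ℕ → ℝ) :
    ∑ y ∈ cls t P, f y = ∑ y ∈ range (2 ^ t), id1 (P ((y : ℕ) : ℤ)) * f y := by
  classical
  unfold cls
  rw [sum_filter]
  apply sum_congr rfl
  intro y _
  by_cases h : P ((y : ℕ) : ℤ)
  · rw [if_pos h, id1_pos h, one_mul]
  · rw [if_neg h, id1_neg h, zero_mul]

theorem cnt_eq {ι : Type*} (s : Finset ι) (wt : ι → ℝ) (v : ι → ℤ) (M : ℕ) (c : ℤ) :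
    cnt s wt v M c = ∑ i ∈ s, id1 ((3 : ℤ) ^ M ∣ v i - c) * wt i := by
  classical
  unfold cnt
  apply sum_congr rfl
  intro i _
  by_cases h : (3 : ℤ) ^ M ∣ v i - c
  · rw [if_pos h, id1_pos h, one_mul]
  · rw [if_neg h, id1_neg h, zero_mul]

theorem id1_and (P Q : Prop) : id1 (P ∧ Q) = id1 P * id1 Q := by
  by_cases h1 : P <;> by_cases h2 : Q <;> simp [id1, h1, h2]

theorem cnt_cls (t : ℕ) (P : ℤ → Prop) (M : ℕ) (c : ℤ) :
    cnt (cls t P) (w2 t) (ro t) M c = ex t (fun y => id1 (P y ∧ (3 : ℤ) ^ M ∣ ((rh t y : ℕ) : ℤ) - c)) := by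
  rw [cnt_eq, cls_sum]
  unfold ex
  rw [sum_div]
  apply sum_congr rfl
  intro y _
  simp only
  rw [id1_and]
  unfold w2 ro
  rw [one_div_pow]
  ring

/-- the value of a pair -/
def rp (a b k : ℕ) (p : ℕ × ℕ) : ℤ := 2 ^ a * ro b p.1 + 3 ^ k * ro a p.2

/-- the weight of a pair -/
noncomputable def wp (a b : ℕ) (p : ℕ × ℕ) : ℝ := w2 b p.1 * w2 a p.2

theorem cnt_prod (a b k : ℕ) (A B : ℤ → Prop) (M : ℕ) (c : ℤ) :
    cnt (cls b B ×ˢ cls a A) (wp a b) (rp a b k) M c =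
      ex a (fun y => ex b (fun z => id1 ((A y ∧ B z) ∧
        (3 : ℤ) ^ M ∣ (2 ^ a * ((rh b z : ℕ) : ℤ) + 3 ^ k * ((rh a y : ℕ) : ℤ)) - c))) := by
  rw [cnt_eq, sum_product_right, cls_sum]
  unfold ex
  rw [sum_div]
  apply sum_congr rfl
  intro y _
  simp only
  rw [cls_sum, sum_div, mul_sum, sum_div]
  apply sum_congr rfl
  intro z _
  rw [id1_and, id1_and]
  unfold wp rp w2 ro
  rw [one_div_pow, one_div_pow]
  ring

theorem NU_nonneg (t : ℕ) (P : ℤ → Prop) (q : ℕ) : 0 ≤ NU t P q :=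
  Gam_nonneg _ _ (fun _ _ => w2_nonneg _ _)

theorem sum_wt (t : ℕ) (P : ℤ → Prop) : ∑ y ∈ cls t P, w2 t y = pb t P := by
  rw [cls_sum, pb_id1]
  unfold ex w2
  rw [sum_div]
  apply sum_congr rfl
  intro y _
  rw [one_div_pow]; ring

theorem NU_le (t : ℕ) (P : ℤ → Prop) (q : ℕ) : NU t P q ≤ pb t P := by
  rw [← sum_wt]
  exact Gam_le _ _ (fun _ _ => w2_nonneg _ _)

theorem NU_congr {t : ℕ} {P Q : ℤ → Prop} (h : ∀ y, P y ↔ Q y) (q : ℕ) : NU t P q = NU t Q q := by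
  have : P = Q := funext fun y => propext (h y)
  rw [this]

/-- general subadditivity -/
theorem Gam_sum_le {ι : Type*} {s : Finset ι} {wt : ι → ℝ} {v : ι → ℤ} {κ : Type*} (I : Finset κ)
    {α : κ → Type*} (s' : ∀ i, Finset (α i)) (wt' : ∀ i, α i → ℝ) (v' : ∀ i, α i → ℤ)
    (h' : ∀ i ∈ I, ∀ x ∈ s' i, 0 ≤ wt' i x)
    (hc : ∀ M c, cnt s wt v M c = ∑ i ∈ I, cnt (s' i) (wt' i) (v' i) M c) (q : ℕ) :
    Gam s wt v q ≤ ∑ i ∈ I, Gam (s' i) (wt' i) (v' i) q := by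
  unfold Gam
  rw [Finset.sum_comm]
  apply Finset.sum_le_sum
  intro c _
  unfold Fib
  rw [hc, hc, hc]
  apply F3_sum <;>
  · intro p hp
    exact Pool.Agent.H320R2.PD.cnt_nonneg (h' p hp) _ _

/-- subadditivity for a decomposition of the indicator function -/
theorem NU_sum {κ : Type*} (I : Finset κ) (t : ℕ) (P : ℤ → Prop) (Q : κ → ℤ → Prop)
    (h : ∀ (y : ℤ) (R : Prop), id1 (P y ∧ R) = ∑ i ∈ I, id1 (Q i y ∧ R)) (q : ℕ) :
    NU t P q ≤ ∑ i ∈ I, NU t (Q i) q := by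
  unfold NU
  apply Gam_sum_le I (fun i => cls t (Q i)) (fun _ => w2 t) (fun _ => ro t)
  · intro _ _ _ _; exact w2_nonneg _ _
  · intro M c
    rw [cnt_cls]
    simp only [cnt_cls]
    rw [← ex_sum]
    apply ex_congr
    intro y
    exact h y _

theorem pair_step1 {κ : Type*} (I : Finset κ) (t k : ℕ) (P : ℤ → Prop) (a b : κ → ℕ) (A B : κ → ℤ → Prop)
    (hab : ∀ i ∈ I, a i + b i = t) (hA : ∀ i ∈ I, Per (a i) (A i)) (hB : ∀ i ∈ I, Per (b i) (B i))
    (hk : ∀ i ∈ I, ∀ z, B i z → od (b i) z = k)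
    (h : ∀ (y : ℤ) (R : Prop), id1 (P y ∧ R) = ∑ i ∈ I, id1 ((A i y ∧ B i (T^[a i] y)) ∧ R)) (M : ℕ) (c : ℤ) :
    cnt (cls t P) (w2 t) (ro t) M c =
      ∑ i ∈ I, cnt (cls (b i) (B i) ×ˢ cls (a i) (A i)) (wp (a i) (b i)) (rp (a i) (b i) k) M c := by
  rw [cnt_cls]
  rw [ex_congr (fun y => h y _), ex_sum]
  apply sum_congr rfl
  intro i hi
  rw [cnt_prod]
  have e2 : ∀ y : ℤ, id1 ((A i y ∧ B i (T^[a i] y)) ∧ (3 : ℤ) ^ M ∣ ((rh t y : ℕ) : ℤ) - c) =
      (fun y z => id1 ((A i y ∧ B i z) ∧ (3 : ℤ) ^ M ∣ (2 ^ (a i) * ((rh (b i) z : ℕ) : ℤ) +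
        3 ^ k * ((rh (a i) y : ℕ) : ℤ)) - c)) y (T^[a i] y) := by
    intro y
    simp only
    by_cases hb : B i (T^[a i] y)
    · have e3 : rh t y = 3 ^ k * rh (a i) y + 2 ^ (a i) * rh (b i) (T^[a i] y) := by
        have := rh_comp (a i) y (b i)
        rw [hab i hi, hk i hi _ hb] at this
        exact this
      rw [e3]
      push_cast
      rw [add_comm ((3 : ℤ) ^ k * _)]
    · rw [id1_neg (fun hh => hb hh.1.2), id1_neg (fun hh => hb hh.1.2)]
  rw [ex_congr e2]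
  conv_lhs => rw [← hab i hi]
  apply ex_pair (a i) (b i) (fun y z => id1 ((A i y ∧ B i z) ∧ (3 : ℤ) ^ M ∣ (2 ^ (a i) * ((rh (b i) z : ℕ) : ℤ) +
        3 ^ k * ((rh (a i) y : ℕ) : ℤ)) - c))
  · intro z y u
    simp only
    rw [hA i hi y u, per_rh (le_refl (a i)) y u]
  · intro y z u
    simp only
    rw [hB i hi z u, per_rh (le_refl (b i)) z u]

/-- convolution inequality for a decomposition of the indicator function -/
theorem NU_conv {κ : Type*} (I : Finset κ) (t k : ℕ) (P : ℤ → Prop) (a b : κ → ℕ) (A B : κ → ℤ → Prop)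
    (hab : ∀ i ∈ I, a i + b i = t) (hA : ∀ i ∈ I, Per (a i) (A i)) (hB : ∀ i ∈ I, Per (b i) (B i))
    (hk : ∀ i ∈ I, ∀ z, B i z → od (b i) z = k)
    (h : ∀ (y : ℤ) (R : Prop), id1 (P y ∧ R) = ∑ i ∈ I, id1 ((A i y ∧ B i (T^[a i] y)) ∧ R)) (j : ℕ) :
    NU t P (k + j) ≤ ∑ i ∈ I, NU (b i) (B i) (k + j) * NU (a i) (A i) j := by
  have h1 : NU t P (k + j) ≤ ∑ i ∈ I, Gam (cls (b i) (B i) ×ˢ cls (a i) (A i))
      (wp (a i) (b i)) (rp (a i) (b i) k) (k + j) := by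
    unfold NU
    apply Gam_sum_le I (fun i => cls (b i) (B i) ×ˢ cls (a i) (A i))
      (fun i => wp (a i) (b i)) (fun i => rp (a i) (b i) k)
    · intro _ _ _ _; exact mul_nonneg (w2_nonneg _ _) (w2_nonneg _ _)
    · exact pair_step1 I t k P a b A B hab hA hB hk h
  refine h1.trans (sum_le_sum fun i _ => ?_)
  exact Gam_conv (ro (b i)) (ro (a i)) (fun _ _ => w2_nonneg _ _) (fun _ _ => w2_nonneg _ _) (a i) k j

end Pool.Agent.J4H39
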