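import Mathlib
import Pool.Agent.J4H39.W2

set_option autoImplicit false

namespace Pool.Agent.J4H39

open Finset

/-! Domination of the law of a window: late phase. -/

theorem card_ap {S : Finset ℤ} {α β : ℝ} (hαβ : α ≤ β) {M : ℕ} (hM : 0 < M)
    (h1 : ∀ x ∈ S, α ≤ (x : ℝ) ∧ (x : ℝ) ≤ β) (h2 : ∀ x ∈ S, ∀ y ∈ S, (M : ℤ) ∣ x - y) :
    (#S : ℝ) ≤ (β - α) / M + 1 := by
  have hM0 : (0 : ℝ) < M := by exact_mod_cast hM
  have hpos : 0 ≤ (β - α) / M := div_nonneg (by linarith) hM0.le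
  rcases S.eq_empty_or_nonempty with rfl | hne
  · simp; linarith
  set x0 := S.min' hne with hx0
  have hx0S : x0 ∈ S := S.min'_mem hne
  have hle : #S ≤ #(range (⌊(β - α) / M⌋₊ + 1)) := by
    apply card_le_card_of_injOn (fun x => ((x - x0) / M).toNat)
    · intro x hx
      have hx : x ∈ S := hx
      obtain ⟨c, hc⟩ := h2 x hx x0 hx0S
      have hge : x0 ≤ x := S.min'_le x hx
      have hM' : (0 : ℤ) < M := by exact_mod_cast hM
      have hc0 : 0 ≤ c := by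
        by_contra hcon
        push Not at hcon
        have : (M : ℤ) * c < 0 := mul_neg_of_pos_of_neg hM' hcon
        omega
      simp only [coe_range, Set.mem_Iio]
      rw [hc, Int.mul_ediv_cancel_left _ hM'.ne']
      have h3 : (c.toNat : ℝ) ≤ (β - α) / M := by
        rw [le_div_iff₀ hM0]
        have h4 : ((c.toNat : ℤ) : ℝ) = (c : ℝ) := by rw [Int.toNat_of_nonneg hc0]
        have h5 : (c.toNat : ℝ) = (c : ℝ) := by rw [← h4]; norm_cast
        rw [h5]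
        have h6 : ((x - x0 : ℤ) : ℝ) = (M : ℝ) * c := by rw [hc]; push_cast; ring
        push_cast at h6
        have := (h1 x hx).2
        have := (h1 x0 hx0S).1
        linarith
      have := Nat.le_floor h3
      omega
    · intro x hx y hy hxy
      have hx : x ∈ S := hx
      have hy : y ∈ S := hy
      obtain ⟨c, hc⟩ := h2 x hx x0 hx0S
      obtain ⟨c', hc'⟩ := h2 y hy x0 hx0S
      have hge : x0 ≤ x := S.min'_le x hx
      have hge' : x0 ≤ y := S.min'_le y hy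
      have hM' : (0 : ℤ) < M := by exact_mod_cast hM
      have hc0 : 0 ≤ c := by
        by_contra hcon
        push Not at hcon
        have : (M : ℤ) * c < 0 := mul_neg_of_pos_of_neg hM' hcon
        omega
      have hc0' : 0 ≤ c' := by
        by_contra hcon
        push Not at hcon
        have : (M : ℤ) * c' < 0 := mul_neg_of_pos_of_neg hM' hcon
        omega
      simp only at hxy
      rw [hc, hc', Int.mul_ediv_cancel_left _ hM'.ne', Int.mul_ediv_cancel_left _ hM'.ne'] at hxy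
      have : c = c' := by omega
      subst this
      omega
  rw [card_range] at hle
  have h3 := Nat.floor_le hpos
  have h4 : (#S : ℝ) ≤ (⌊(β - α) / M⌋₊ : ℝ) + 1 := by exact_mod_cast hle
  linarith

theorem card_fib {α β : Type*} [DecidableEq β] (s : Finset α) (f : α → β) {A B : ℝ} (hA : 0 ≤ A)
    (h1 : ∀ b ∈ s.image f, (#{x ∈ s | f x = b} : ℝ) ≤ A) (h2 : (#(s.image f) : ℝ) ≤ B) :
    (#s : ℝ) ≤ B * A := by
  rw [card_eq_sum_card_image f s]
  push_cast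
  calc ∑ b ∈ s.image f, (#{x ∈ s | f x = b} : ℝ) ≤ ∑ b ∈ s.image f, A := sum_le_sum h1
    _ = #(s.image f) * A := by rw [sum_const, nsmul_eq_mul]
    _ ≤ B * A := mul_le_mul_of_nonneg_right h2 hA

open Classical in
/-- The basic domination. -/
theorem dom_late (h : ℤ) (j k L o D : ℕ) (a b : ℤ) (hL : 1 ≤ L) (hk : 2 ^ k ≤ 3 ^ D) (hj : 3 ^ D ≤ 2 ^ j)
    (hh : 3 ^ o * |h| ≤ 2 ^ j) :
    (#{n ∈ range (2 ^ (j + k)) | rh j (n : ℕ) ≤ L * 2 ^ j ∧ rh j ((n : ℕ) + h) ≤ L * 2 ^ j ∧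
      od j (n : ℕ) = o ∧ od j ((n : ℕ) + h) = o + D ∧ (2 : ℤ) ^ k ∣ T^[j] (n : ℕ) - a ∧
      (2 : ℤ) ^ k ∣ T^[j] ((n : ℕ) + h) - b} : ℝ) ≤ 14 * L ^ 2 * 2 ^ j / 2 ^ k := by
  set S := ({n ∈ range (2 ^ (j + k)) | rh j (n : ℕ) ≤ L * 2 ^ j ∧ rh j ((n : ℕ) + h) ≤ L * 2 ^ j ∧
      od j (n : ℕ) = o ∧ od j ((n : ℕ) + h) = o + D ∧ (2 : ℤ) ^ k ∣ T^[j] (n : ℕ) - a ∧
      (2 : ℤ) ^ k ∣ T^[j] ((n : ℕ) + h) - b} : Finset ℕ) with hS
  have hkr : (2 : ℝ) ^ k ≤ 3 ^ D := by exact_mod_cast hk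
  have hjr : (3 : ℝ) ^ D ≤ 2 ^ j := by exact_mod_cast hj
  have hhr : (3 : ℝ) ^ o * |(h : ℝ)| ≤ 2 ^ j := by exact_mod_cast hh
  have hLr : (1 : ℝ) ≤ L := by exact_mod_cast hL
  have h2k : (0 : ℝ) < 2 ^ k := by positivity
  have h2j : (0 : ℝ) < 2 ^ j := by positivity
  have h3D : (0 : ℝ) < 3 ^ D := by positivity
  set f : ℕ → ℤ := fun n => T^[j] ((n : ℕ) + h) - 3 ^ D * T^[j] (n : ℕ) with hf
  -- the key identity
  have key : ∀ n ∈ S, (2 : ℤ) ^ j * f n = 3 ^ (o + D) * h + rh j ((n : ℕ) + h) - 3 ^ D * rh j (n : ℕ) := by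
    intro n hn
    rw [hS, mem_filter] at hn
    obtain ⟨_, _, _, h3, h4, _, _⟩ := hn
    have e1 := iter_eq j (n : ℕ)
    have e2 := iter_eq j ((n : ℕ) + h)
    rw [h3] at e1
    rw [h4] at e2
    rw [hf]
    simp only
    rw [mul_sub, e2, show (2 : ℤ) ^ j * (3 ^ D * T^[j] (n : ℕ)) = 3 ^ D * (2 ^ j * T^[j] (n : ℕ)) by ring, e1,
      pow_add]
    ring
  have keyr : ∀ n ∈ S, (2 : ℝ) ^ j * f n = 3 ^ (o + D) * h + rh j ((n : ℕ) + h) - 3 ^ D * rh j (n : ℕ) := by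
    intro n hn
    have := key n hn
    exact_mod_cast this
  have hrh : ∀ n ∈ S, (rh j (n : ℕ) : ℝ) ≤ L * 2 ^ j ∧ (rh j ((n : ℕ) + h) : ℝ) ≤ L * 2 ^ j := by
    intro n hn
    rw [hS, mem_filter] at hn
    exact ⟨by exact_mod_cast hn.2.1, by exact_mod_cast hn.2.2.1⟩
  have hA : (0 : ℝ) ≤ 2 * L * 2 ^ j / 3 ^ D := by positivity
  have hB : (7 * 3 ^ D * L / 2 ^ k : ℝ) * (2 * L * 2 ^ j / 3 ^ D) = 14 * L ^ 2 * 2 ^ j / 2 ^ k := by
    field_simp; ring
  rw [← hB]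
  apply card_fib S f hA
  · -- fibres
    intro r hr
    set F := ({x ∈ S | f x = r} : Finset ℕ) with hF
    have hinj : Set.InjOn (fun n : ℕ => ((rh j (n : ℕ) : ℕ) : ℤ)) (F : Set ℕ) := by
      intro n hn n' hn' hnn
      rw [hF, mem_coe, mem_filter, hS, mem_filter, mem_range] at hn hn'
      obtain ⟨⟨hn1, _, _, hn3, _, hn4, _⟩, _⟩ := hn
      obtain ⟨⟨hn1', _, _, hn3', _, hn4', _⟩, _⟩ := hn'
      simp only [Nat.cast_inj] at hnn
      have e1 := inj_mod (j := j) (x := (n : ℕ)) (y := (n' : ℕ)) (by rw [hn3, hn3']) hnn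
      have e2 : (2 : ℤ) ^ k ∣ T^[j] (n : ℕ) - T^[j] (n' : ℕ) := by
        have := dvd_sub hn4 hn4'
        rwa [sub_sub_sub_cancel_right] at this
      have e3 := inj_mod2 e1 e2
      have h1 : (n : ℤ) < 2 ^ (j + k) := by exact_mod_cast hn1
      have h1' : (n' : ℤ) < 2 ^ (j + k) := by exact_mod_cast hn1'
      have h5 : (n : ℤ) - n' = 0 := by
        apply Int.eq_zero_of_abs_lt_dvd e3
        rw [abs_lt]; constructor <;> omega
      omega
    have hcard : #F = #(F.image (fun n : ℕ => ((rh j (n : ℕ) : ℕ) : ℤ))) := (card_image_of_injOn hinj).symm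
    rw [hcard]
    set c : ℝ := (3 ^ (o + D) * h - 2 ^ j * r) / 3 ^ D with hc
    have h3 := card_ap (S := F.image (fun n : ℕ => ((rh j (n : ℕ) : ℕ) : ℤ))) (α := c) (β := c + L * 2 ^ j / 3 ^ D)
      (by have : (0 : ℝ) ≤ L * 2 ^ j / 3 ^ D := by positivity
          linarith) (M := 1) one_pos ?_ ?_
    · refine h3.trans ?_
      rw [add_sub_cancel_left, Nat.cast_one, div_one]
      have h4 : (1 : ℝ) ≤ L * 2 ^ j / 3 ^ D := by
        rw [le_div_iff₀ h3D, one_mul]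
        nlinarith
      have h5 : (2 * L * 2 ^ j / 3 ^ D : ℝ) = L * 2 ^ j / 3 ^ D + L * 2 ^ j / 3 ^ D := by ring
      rw [h5]; linarith
    · intro x hx
      rw [mem_image] at hx
      obtain ⟨n, hn, rfl⟩ := hx
      rw [hF, mem_filter] at hn
      obtain ⟨hn1, hn2⟩ := hn
      have e1 := keyr n hn1
      rw [hn2] at e1
      obtain ⟨e2, e3⟩ := hrh n hn1
      have e4 : (0 : ℝ) ≤ rh j ((n : ℕ) + h) := by positivity
      rw [hc, ← add_div, div_le_iff₀ h3D, le_div_iff₀ h3D]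
      push_cast
      constructor <;> linarith
    · intro x _ y _; simp
  · -- image
    have h3 := card_ap (S := S.image f) (α := -(3 * 3 ^ D * L)) (β := 3 * 3 ^ D * L)
      (by have : (0 : ℝ) ≤ 3 * 3 ^ D * L := by positivity
          linarith) (M := 2 ^ k) (by positivity) ?_ ?_
    · refine h3.trans ?_
      push_cast
      have h4 : (1 : ℝ) ≤ 3 ^ D * L / 2 ^ k := by
        rw [le_div_iff₀ h2k, one_mul]
        nlinarith
      have h5 : (7 * 3 ^ D * L / 2 ^ k : ℝ) = (3 * 3 ^ D * L - -(3 * 3 ^ D * L)) / 2 ^ k + 3 ^ D * L / 2 ^ k := by ring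
      rw [h5]; linarith
    · intro x hx
      rw [mem_image] at hx
      obtain ⟨n, hn, rfl⟩ := hx
      have e1 := keyr n hn
      obtain ⟨e2, e3⟩ := hrh n hn
      have e4 : (0 : ℝ) ≤ rh j ((n : ℕ) + h) := by positivity
      have e5 : (0 : ℝ) ≤ rh j (n : ℕ) := by positivity
      have e6 : |(3 : ℝ) ^ (o + D) * h| ≤ 3 ^ D * 2 ^ j := by
        rw [abs_mul, abs_of_pos (by positivity), pow_add]
        calc (3 : ℝ) ^ o * 3 ^ D * |(h : ℝ)| = 3 ^ D * (3 ^ o * |(h : ℝ)|) := by ring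
          _ ≤ 3 ^ D * 2 ^ j := mul_le_mul_of_nonneg_left hhr h3D.le
      have e7 : (3 : ℝ) ^ D * rh j (n : ℕ) ≤ 3 ^ D * (L * 2 ^ j) := mul_le_mul_of_nonneg_left e2 h3D.le
      have e7' : (0 : ℝ) ≤ 3 ^ D * rh j (n : ℕ) := by positivity
      have h3D1 : (1 : ℝ) ≤ 3 ^ D := one_le_pow₀ (by norm_num)
      have e8 : (L : ℝ) * 2 ^ j ≤ 3 ^ D * (L * 2 ^ j) := le_mul_of_one_le_left (by positivity) h3D1
      have e9 : (3 : ℝ) ^ D * 2 ^ j ≤ 3 ^ D * (L * 2 ^ j) :=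
        mul_le_mul_of_nonneg_left (le_mul_of_one_le_left h2j.le hLr) h3D.le
      rw [abs_le] at e6
      have e10 : (2 : ℝ) ^ j * (3 * 3 ^ D * L) = 3 * (3 ^ D * (L * 2 ^ j)) := by ring
      constructor
      · have : (2 : ℝ) ^ j * (-(3 * 3 ^ D * L)) ≤ 2 ^ j * f n := by
          rw [e1, mul_neg, e10]; linarith
        exact le_of_mul_le_mul_left this h2j
      · have : (2 : ℝ) ^ j * f n ≤ 2 ^ j * (3 * 3 ^ D * L) := by
          rw [e1, e10]; linarith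
        exact le_of_mul_le_mul_left this h2j
    · intro x hx y hy
      rw [mem_image] at hx hy
      obtain ⟨n, hn, rfl⟩ := hx
      obtain ⟨n', hn', rfl⟩ := hy
      rw [hS, mem_filter] at hn hn'
      obtain ⟨_, _, _, _, _, h5, h6⟩ := hn
      obtain ⟨_, _, _, _, _, h5', h6'⟩ := hn'
      rw [hf]
      push_cast
      have e1 := dvd_sub h6 h6'
      have e2 := dvd_sub h5 h5'
      rw [sub_sub_sub_cancel_right] at e1 e2
      have e3 := dvd_sub e1 (e2.mul_left (3 ^ D))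
      have e4 : T^[j] ((n : ℤ) + h) - T^[j] ((n' : ℤ) + h) - 3 ^ D * (T^[j] (n : ℤ) - T^[j] (n' : ℤ)) =
        T^[j] ((n : ℤ) + h) - 3 ^ D * T^[j] (n : ℤ) - (T^[j] ((n' : ℤ) + h) - 3 ^ D * T^[j] (n' : ℤ)) := by ring
      rw [← e4]
      exact e3

end Pool.Agent.J4H39
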