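import Mathlib
import Pool.Agent.J4H39.W3

set_option autoImplicit false

namespace Pool.Agent.J4H39

open Finset

/-! Windows: the number of disagreements is close to one half of the length. -/

open Classical in
theorem card_badpairs {k : ℕ} (hk : 1 ≤ k) {δ : ℝ} (hδ : 0 ≤ δ) :
    (#{p ∈ range (2 ^ k) ×ˢ range (2 ^ k) | δ ≤ |2 * (cd k ((p.1 : ℕ) : ℤ) ((p.2 : ℕ) : ℤ) : ℝ) - k|} : ℝ) ≤
      2 ^ k * (2 ^ k * (2 * Real.exp (-(δ ^ 2 / (2 * k))))) := by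
  rw [card_filter, sum_product]
  push_cast
  have h2k : (0 : ℝ) < 2 ^ k := by positivity
  have h1 : ∀ a ∈ range (2 ^ k), ∑ b ∈ range (2 ^ k),
      (if δ ≤ |2 * (cd k ((a : ℕ) : ℤ) ((b : ℕ) : ℤ) : ℝ) - k| then (1 : ℝ) else 0) ≤
      2 ^ k * (2 * Real.exp (-(δ ^ 2 / (2 * k)))) := by
    intro a _
    have := pb_cd ((a : ℕ) : ℤ) hk hδ
    unfold pb ex at this
    rw [div_le_iff₀ h2k] at this
    rw [mul_comm]
    exact this
  refine (sum_le_sum h1).trans (le_of_eq ?_)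
  rw [sum_const, card_range, nsmul_eq_mul]
  push_cast
  ring

/-- The class of `x` modulo `2 ^ k`. -/
def cl (k : ℕ) (x : ℤ) : ℕ := (x % 2 ^ k).toNat

theorem cl_lt (k : ℕ) (x : ℤ) : cl k x < 2 ^ k := by
  have hN : (0 : ℤ) < 2 ^ k := by positivity
  unfold cl
  have h1 := Int.emod_nonneg x hN.ne'
  have h2 := Int.emod_lt_of_pos x hN
  have : ((x % 2 ^ k).toNat : ℤ) < 2 ^ k := by rw [Int.toNat_of_nonneg h1]; exact h2
  exact_mod_cast this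

theorem cl_dvd (k : ℕ) (x : ℤ) : (2 : ℤ) ^ k ∣ x - (cl k x : ℕ) := by
  have hN : (0 : ℤ) < 2 ^ k := by positivity
  unfold cl
  rw [Int.toNat_of_nonneg (Int.emod_nonneg x hN.ne')]
  exact Int.dvd_self_sub_emod

theorem cd_cl (k : ℕ) (x y : ℤ) : cd k x y = cd k ((cl k x : ℕ) : ℤ) ((cl k y : ℕ) : ℤ) :=
  cd_congr k (cl_dvd k x) (cl_dvd k y)

/-- The window of length `k` after time `j` is atypical (late phase, nonnegative difference). -/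
def LW (h : ℤ) (j k L : ℕ) (δ : ℝ) (n : ℤ) : Prop :=
  rh j n ≤ L * 2 ^ j ∧ rh j (n + h) ≤ L * 2 ^ j ∧ 3 ^ od j n * |h| ≤ 2 ^ j ∧
    (∃ D, od j (n + h) = od j n + D ∧ 2 ^ k ≤ 3 ^ D ∧ 3 ^ D ≤ 2 ^ j) ∧
    δ ≤ |2 * (cd k (T^[j] n) (T^[j] (n + h)) : ℝ) - k|

theorem per_window (h : ℤ) (j k : ℕ) : Per (j + k) (fun n => cd k (T^[j] n) (T^[j] (n + h))) := by
  intro n u
  simp only
  have e1 : n + 2 ^ (j + k) * u = n + 2 ^ j * (2 ^ k * u) := by rw [pow_add]; ring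
  have e2 : n + 2 ^ (j + k) * u + h = (n + h) + 2 ^ j * (2 ^ k * u) := by rw [pow_add]; ring
  rw [e2, e1, T_add, T_add]
  apply cd_congr
  · exact ⟨3 ^ od j n * u, by ring⟩
  · exact ⟨3 ^ od j (n + h) * u, by ring⟩

theorem per_LW (h : ℤ) (j k L : ℕ) (δ : ℝ) : Per (j + k) (LW h j k L δ) := by
  intro n u
  unfold LW
  have e1 := per_rh (Nat.le_add_right j k) n u
  have e2 := ((per_rh (Nat.le_add_right j k)).shift h) n u
  have e3 := per_od (Nat.le_add_right j k) n u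
  have e4 := ((per_od (Nat.le_add_right j k)).shift h) n u
  have e5 := per_window h j k n u
  simp only at e2 e4 e5
  rw [e1, e2, e3, e4, e5]

theorem pb_LW {j k L : ℕ} (h : ℤ) (hL : 1 ≤ L) (hk : 1 ≤ k) {δ : ℝ} (hδ : 0 ≤ δ) :
    pb (j + k) (LW h j k L δ) ≤ 28 * (j + 1) ^ 2 * L ^ 2 * Real.exp (-(δ ^ 2 / (2 * k))) := by
  classical
  have h1 : pb (j + k) (LW h j k L δ) ≤ pb (j + k) (fun n => ∃ p ∈ range (j + 1) ×ˢ range (j + 1),
      LW h j k L δ n ∧ od j n = p.1 ∧ od j (n + h) = p.1 + p.2 ∧ 3 ^ p.1 * |h| ≤ 2 ^ j ∧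
        2 ^ k ≤ 3 ^ p.2 ∧ 3 ^ p.2 ≤ 2 ^ j) := by
    apply pb_mono
    intro n hn
    obtain ⟨h1, h2, h3, ⟨D, h4, h5, h6⟩, h7⟩ := id hn
    refine ⟨(od j n, D), ?_, hn, rfl, h4, h3, h5, h6⟩
    rw [mem_product, mem_range, mem_range]
    have := od_le j n
    have := od_le j (n + h)
    constructor <;> simp only <;> omega
  refine h1.trans ((pb_exists _ _ _).trans ?_)
  have h2 : ∀ p ∈ range (j + 1) ×ˢ range (j + 1), pb (j + k) (fun n => LW h j k L δ n ∧ od j n = p.1 ∧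
      od j (n + h) = p.1 + p.2 ∧ 3 ^ p.1 * |h| ≤ 2 ^ j ∧ 2 ^ k ≤ 3 ^ p.2 ∧ 3 ^ p.2 ≤ 2 ^ j) ≤
      28 * L ^ 2 * Real.exp (-(δ ^ 2 / (2 * k))) := by
    rintro ⟨o, D⟩ _
    by_cases hc : (3 : ℤ) ^ o * |h| ≤ 2 ^ j ∧ 2 ^ k ≤ 3 ^ D ∧ 3 ^ D ≤ 2 ^ j
    · obtain ⟨hh, hk', hj'⟩ := hc
      rw [pb_eq_card]
      set Q := ({p ∈ range (2 ^ k) ×ˢ range (2 ^ k) |
        δ ≤ |2 * (cd k ((p.1 : ℕ) : ℤ) ((p.2 : ℕ) : ℤ) : ℝ) - k|} : Finset (ℕ × ℕ)) with hQ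
      have hQc : (#Q : ℝ) ≤ 2 ^ k * (2 ^ k * (2 * Real.exp (-(δ ^ 2 / (2 * k))))) := card_badpairs hk hδ
      have hsub : ({n ∈ range (2 ^ (j + k)) | LW h j k L δ (n : ℕ) ∧ od j (n : ℕ) = o ∧
          od j ((n : ℕ) + h) = o + D ∧ (3 : ℤ) ^ o * |h| ≤ 2 ^ j ∧ 2 ^ k ≤ 3 ^ D ∧ 3 ^ D ≤ 2 ^ j} : Finset ℕ) ⊆
          Q.biUnion (fun p => {n ∈ range (2 ^ (j + k)) | rh j (n : ℕ) ≤ L * 2 ^ j ∧
            rh j ((n : ℕ) + h) ≤ L * 2 ^ j ∧ od j (n : ℕ) = o ∧ od j ((n : ℕ) + h) = o + D ∧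
            (2 : ℤ) ^ k ∣ T^[j] (n : ℕ) - ((p.1 : ℕ) : ℤ) ∧
            (2 : ℤ) ^ k ∣ T^[j] ((n : ℕ) + h) - ((p.2 : ℕ) : ℤ)}) := by
        intro n hn
        rw [mem_filter] at hn
        obtain ⟨hn1, ⟨h1, h2, h3, _, h5⟩, ho, hD, _⟩ := hn
        rw [mem_biUnion]
        refine ⟨(cl k (T^[j] (n : ℕ)), cl k (T^[j] ((n : ℕ) + h))), ?_, ?_⟩
        · rw [hQ, mem_filter, mem_product, mem_range, mem_range]
          refine ⟨⟨cl_lt _ _, cl_lt _ _⟩, ?_⟩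
          simp only
          rw [← cd_cl]
          exact h5
        · rw [mem_filter]
          exact ⟨hn1, h1, h2, ho, hD, cl_dvd _ _, cl_dvd _ _⟩
      have hcard := (card_le_card hsub).trans card_biUnion_le
      have hcardr : (#({n ∈ range (2 ^ (j + k)) | LW h j k L δ (n : ℕ) ∧ od j (n : ℕ) = o ∧
          od j ((n : ℕ) + h) = o + D ∧ (3 : ℤ) ^ o * |h| ≤ 2 ^ j ∧ 2 ^ k ≤ 3 ^ D ∧ 3 ^ D ≤ 2 ^ j} : Finset ℕ) : ℝ) ≤
          ∑ p ∈ Q, (14 * L ^ 2 * 2 ^ j / 2 ^ k : ℝ) := by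
        refine (Nat.cast_le.2 hcard).trans ?_
        push_cast
        apply sum_le_sum
        intro p _
        exact dom_late h j k L o D _ _ hL hk' hj' hh
      rw [sum_const, nsmul_eq_mul] at hcardr
      rw [div_le_iff₀ (by positivity)]
      refine le_trans ?_ (hcardr.trans ?_)
      · exact_mod_cast le_rfl
      · calc (#Q : ℝ) * (14 * L ^ 2 * 2 ^ j / 2 ^ k) ≤
            (2 ^ k * (2 ^ k * (2 * Real.exp (-(δ ^ 2 / (2 * k)))))) * (14 * L ^ 2 * 2 ^ j / 2 ^ k) :=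
              mul_le_mul_of_nonneg_right hQc (by positivity)
          _ = 28 * L ^ 2 * Real.exp (-(δ ^ 2 / (2 * k))) * 2 ^ (j + k) := by
              rw [pow_add]; field_simp; ring
    · have : pb (j + k) (fun n => LW h j k L δ n ∧ od j n = o ∧
        od j (n + h) = o + D ∧ 3 ^ o * |h| ≤ 2 ^ j ∧ 2 ^ k ≤ 3 ^ D ∧ 3 ^ D ≤ 2 ^ j) ≤ ex (j + k) (fun _ => (0 : ℝ)) := by
        unfold pb
        apply ex_mono
        intro x
        rw [if_neg]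
        rintro ⟨_, _, _, h1⟩
        exact hc h1
      rw [ex_const] at this
      refine this.trans ?_
      positivity
  refine (sum_le_sum h2).trans (le_of_eq ?_)
  rw [sum_const, card_product, card_range, nsmul_eq_mul]
  push_cast
  ring

/-- Atypical window, both signs. -/
def LWs (h : ℤ) (j k L : ℕ) (δ : ℝ) (n : ℤ) : Prop := LW h j k L δ n ∨ LW (-h) j k L δ (n + h)

theorem per_LWs (h : ℤ) (j k L : ℕ) (δ : ℝ) : Per (j + k) (LWs h j k L δ) := by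
  intro n u
  unfold LWs
  have e1 := per_LW h j k L δ n u
  have e2 := ((per_LW (-h) j k L δ).shift h) n u
  simp only at e2
  rw [e1, e2]

theorem pb_LWs {j k L : ℕ} (h : ℤ) (hL : 1 ≤ L) (hk : 1 ≤ k) {δ : ℝ} (hδ : 0 ≤ δ) :
    pb (j + k) (LWs h j k L δ) ≤ 56 * (j + 1) ^ 2 * L ^ 2 * Real.exp (-(δ ^ 2 / (2 * k))) := by
  refine (pb_or _ _ _).trans ?_
  have h1 := pb_LW (j := j) h hL hk hδ
  have h2 := pb_LW (j := j) (-h) hL hk hδ
  have h3 := pb_shift (j + k) (per_LW (-h) j k L δ) h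
  rw [h3]
  linarith

/-- If the window is not atypical, then it is typical. -/
theorem window_of_not {h : ℤ} {j k L : ℕ} {δ : ℝ} {n : ℤ} (hn : ¬ LWs h j k L δ n)
    (h1 : rh j n ≤ L * 2 ^ j) (h2 : rh j (n + h) ≤ L * 2 ^ j) (h3 : 3 ^ od j n * |h| ≤ 2 ^ j)
    (h4 : 3 ^ od j (n + h) * |h| ≤ 2 ^ j)
    (h5 : (k : ℤ) ≤ |(od j (n + h) : ℤ) - od j n|)
    (h6 : 3 ^ (|(od j (n + h) : ℤ) - od j n|).toNat ≤ 2 ^ j) :
    |2 * (cd k (T^[j] n) (T^[j] (n + h)) : ℝ) - k| < δ := by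
  unfold LWs at hn
  push Not at hn
  obtain ⟨hn1, hn2⟩ := hn
  by_contra hcon
  push Not at hcon
  have hpow : ∀ D : ℕ, k ≤ D → 2 ^ k ≤ 3 ^ D := by
    intro D hD
    calc 2 ^ k ≤ 2 ^ D := Nat.pow_le_pow_right (by norm_num) hD
      _ ≤ 3 ^ D := Nat.pow_le_pow_left (by norm_num) D
  rcases le_total (od j n : ℤ) (od j (n + h) : ℤ) with hle | hle
  · apply hn1
    rw [abs_of_nonneg (by omega)] at h5 h6
    refine ⟨h1, h2, h3, ⟨((od j (n + h) : ℤ) - od j n).toNat, by omega, hpow _ (by omega), h6⟩, hcon⟩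
  · apply hn2
    rw [abs_of_nonpos (by omega)] at h5 h6
    have e : n + h + -h = n := by ring
    refine ⟨h2, by rw [e]; exact h1, by rw [abs_neg]; exact h4,
      ⟨(-((od j (n + h) : ℤ) - od j n)).toNat, by rw [e]; omega, hpow _ (by omega), h6⟩, ?_⟩
    rw [e, cd_comm]
    exact hcon

end Pool.Agent.J4H39
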