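import Mathlib
import Pool.Agent.J4H39.E1
import Pool.Agent.J4H39.W4

set_option autoImplicit false

namespace Pool.Agent.J4H39

open Finset

/-! Automata driven by the parities: the recursion for the nonuniformity. -/

section
variable {S : Type*}

/-- the state after `j` steps -/
def rn (stp : S → ℕ → S) : ℕ → S → ℤ → S
  | 0, s, _ => s
  | j + 1, s, y => stp (rn stp j s y) (pr j y)

theorem rn_comp (stp : S → ℕ → S) (a : ℕ) (s : S) (y : ℤ) (b : ℕ) :
    rn stp (a + b) s y = rn stp b (rn stp a s y) (T^[a] y) := by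
  induction b with
  | zero => rfl
  | succ b ih => rw [← add_assoc, rn, rn, ih, pr_iter]

theorem per_rn (stp : S → ℕ → S) (s : S) {i j : ℕ} (h : i ≤ j) : Per j (rn stp i s) := by
  induction i with
  | zero => intro x u; rfl
  | succ i ih =>
    intro x u
    rw [rn, rn, ih (by omega) x u, per_pr (by omega : i < j) x u]

open Classical in
/-- the states reached -/
noncomputable def im (stp : S → ℕ → S) (k t : ℕ) (s : S) : Finset S :=
  (cls t (isW k t)).image (fun y => rn stp t s ((y : ℕ) : ℤ))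

theorem mem_im {stp : S → ℕ → S} {k t : ℕ} {s s' : S} :
    s' ∈ im stp k t s ↔ ∃ y : ℕ, y < 2 ^ t ∧ isW k t ((y : ℕ) : ℤ) ∧ rn stp t s ((y : ℕ) : ℤ) = s' := by
  classical
  unfold im
  rw [mem_image]
  simp only [mem_cls]
  constructor
  · rintro ⟨y, ⟨h1, h2⟩, h3⟩; exact ⟨y, h1, h2, h3⟩
  · rintro ⟨y, h1, h2, h3⟩; exact ⟨y, ⟨h1, h2⟩, h3⟩

theorem cl_mem {k t : ℕ} (y : ℤ) (h : isW k t y) : isW k t ((cl t y : ℕ) : ℤ) := by
  obtain ⟨u, hu⟩ := cl_dvd t y
  have : y = (cl t y : ℕ) + 2 ^ t * u := by linarith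
  rw [this, per_isW] at h
  exact h

theorem rn_cl (stp : S → ℕ → S) (s : S) (t : ℕ) (y : ℤ) : rn stp t s ((cl t y : ℕ) : ℤ) = rn stp t s y := by
  obtain ⟨u, hu⟩ := cl_dvd t y
  have h : y = (cl t y : ℕ) + 2 ^ t * u := by linarith
  conv_rhs => rw [h, per_rn stp s (le_refl t)]

theorem rn_mem_im {stp : S → ℕ → S} {k t : ℕ} {s : S} {y : ℤ} (h : isW k t y) : rn stp t s y ∈ im stp k t s :=
  mem_im.2 ⟨cl t y, cl_lt t y, cl_mem y h, rn_cl stp s t y⟩

/-- nonuniformity of the digit `q` of the offset of words of `k` blocks, given the length and the state -/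
noncomputable def Gm (stp : S → ℕ → S) (n k : ℕ) (s : S) (q : ℕ) : ℝ :=
  ∑ t ∈ range n, ∑ s' ∈ im stp k t s, NU t (fun y => isW k t y ∧ rn stp t s y = s') q

/-- the average over the words of `k` blocks of length less than `n` -/
noncomputable def Ws (n k : ℕ) (f : ℕ → ℤ → ℝ) : ℝ := ∑ t ∈ range n, ex t (fun y => id1 (isW k t y) * f t y)

theorem Gm_nonneg (stp : S → ℕ → S) (n k : ℕ) (s : S) (q : ℕ) : 0 ≤ Gm stp n k s q :=
  sum_nonneg fun _ _ => sum_nonneg fun _ _ => NU_nonneg _ _ _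

theorem ex_mono_lt {j : ℕ} {f g : ℤ → ℝ} (h : ∀ x, f x ≤ g x) : ex j f ≤ ex j g := ex_mono h

theorem sum_im (stp : S → ℕ → S) (k t : ℕ) (s : S) (F : S → ℝ) :
    ∑ s' ∈ im stp k t s, pb t (fun y => isW k t y ∧ rn stp t s y = s') * F s' =
      ex t (fun y => id1 (isW k t y) * F (rn stp t s y)) := by
  have h1 : ∀ s' ∈ im stp k t s, pb t (fun y => isW k t y ∧ rn stp t s y = s') * F s' =
      ex t (fun y => id1 (isW k t y ∧ rn stp t s y = s') * F s') := by
    intro s' _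
    rw [pb_id1, mul_comm, ← ex_mul]
    apply ex_congr; intro y; ring
  rw [sum_congr rfl h1, ← ex_sum]
  apply ex_congr
  intro y
  by_cases h : isW k t y
  · rw [id1_pos h, one_mul, sum_eq_single (rn stp t s y)]
    · rw [id1_pos ⟨h, rfl⟩, one_mul]
    · intro b _ hb
      rw [id1_neg (fun hh => hb hh.2.symm), zero_mul]
    · intro hn
      exact absurd (rn_mem_im h) hn
  · rw [id1_neg h, zero_mul]
    apply sum_eq_zero
    intro b _
    rw [id1_neg (fun hh => h hh.1), zero_mul]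

theorem Gm_le_Ws (stp : S → ℕ → S) (n k : ℕ) (s : S) (q : ℕ) : Gm stp n k s q ≤ Ws n k (fun _ _ => 1) := by
  unfold Gm Ws
  apply sum_le_sum
  intro t _
  rw [← sum_im stp k t s (fun _ => 1)]
  apply sum_le_sum
  intro s' _
  rw [mul_one]
  exact NU_le _ _ _

/-- at most one event -/
theorem sum_excl {n : ℕ} (P : ℕ → Prop) (h : ∀ i < n, ∀ j < n, P i → P j → i = j) (Q : Prop)
    (hQ : ∀ i < n, P i → Q) : ∑ i ∈ range n, id1 (P i) ≤ id1 Q := by
  by_cases hex : ∃ i ∈ range n, P i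
  · obtain ⟨i, hi, hP⟩ := hex
    rw [mem_range] at hi
    rw [sum_eq_single i, id1_pos hP, id1_pos (hQ i hi hP)]
    · intro j hj hne
      rw [mem_range] at hj
      rw [id1_neg]
      intro hPj
      exact hne (h j hj i hi hPj hP)
    · intro hn; rw [mem_range] at hn; exact absurd hi hn
  · push Not at hex
    rw [sum_eq_zero (fun i hi => id1_neg (hex i hi))]
    exact id1_nonneg Q

theorem pb_half {t : ℕ} {P : ℤ → Prop} (hP : Per t P) : pb (t + 1) (fun y => P y ∧ pr t y = 1) = pb t P / 2 := by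
  rw [pb_id1, ex_succ, pb_id1]
  have : ∀ x : ℤ, (id1 (P x ∧ pr t x = 1) + id1 (P (x + 2 ^ t) ∧ pr t (x + 2 ^ t) = 1)) / 2 = (1 / 2) * id1 (P x) := by
    intro x
    have h1 := hP x 1
    rw [mul_one] at h1
    rw [h1, pr_flip, id1_and, id1_and]
    rcases pr_cases t x with ⟨h, _⟩ | ⟨h, _⟩
    · rw [h, id1_neg (P := (0 : ℕ) = 1) (by norm_num), id1_pos (P := 1 - 0 = 1) (by norm_num)]; ring
    · rw [h, id1_neg (P := 1 - 1 = 1) (by norm_num), id1_pos (P := (1 : ℕ) = 1) rfl]; ring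
  rw [ex_congr this, ex_mul]; ring

/-- from words to the first `n` steps -/
theorem Ws_le (n k : ℕ) {R : ℕ → ℤ → Prop} (hR : ∀ t, Per t (R t)) {Q : ℤ → Prop}
    (hQ : ∀ t < n, ∀ y, isW k t y → pr t y = 1 → R t y → Q y) :
    Ws n k (fun t y => id1 (R t y)) ≤ 2 * pb n Q := by
  have hP : ∀ t, Per t (fun y => isW k t y ∧ R t y) := by
    intro t x u
    simp only
    rw [per_isW k t x u, hR t x u]
  have h1 : Ws n k (fun t y => id1 (R t y)) = 2 * ex n (fun y => ∑ t ∈ range n,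
      id1 ((isW k t y ∧ R t y) ∧ pr t y = 1)) := by
    unfold Ws
    rw [ex_sum, mul_sum]
    apply sum_congr rfl
    intro t ht
    rw [mem_range] at ht
    have h2 : Per (t + 1) (fun y => (isW k t y ∧ R t y) ∧ pr t y = 1) := by
      intro x u
      simp only
      have := ((hP t).mono (Nat.le_succ t)) x u
      rw [this, per_pr (Nat.lt_succ_self t) x u]
    have h3 := pb_per (by omega : t + 1 ≤ n) h2
    have h4 := pb_half (hP t)
    rw [← pb_id1, h3, h4, pb_id1]
    have : ∀ y : ℤ, id1 (isW k t y) * id1 (R t y) = id1 (isW k t y ∧ R t y) := fun y => (id1_and _ _).symm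
    rw [ex_congr this]; ring
  rw [h1]
  apply mul_le_mul_of_nonneg_left _ (by norm_num)
  rw [pb_id1]
  apply ex_mono
  intro y
  apply sum_excl
  · rintro i hi j hj ⟨⟨⟨a1, a2, a3⟩, _⟩, a4⟩ ⟨⟨⟨b1, b2, b3⟩, _⟩, b4⟩
    rcases Nat.lt_trichotomy i j with h | h | h
    · have := od_succ i y
      have := od_mono y (show i + 1 ≤ j by omega)
      omega
    · exact h
    · have := od_succ j y
      have := od_mono y (show j + 1 ≤ i by omega)
      omega
  · rintro i hi ⟨⟨h1, h2⟩, h3⟩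
    exact hQ i hi y h1 h3 h2

theorem pb_odd {n : ℕ} (hn : 1 ≤ n) : pb n (fun y => pr 0 y = 1) = 1 / 2 := by
  have h : Per 1 (fun y => pr 0 y = 1) := by
    intro x u
    simp only
    rw [per_pr (by norm_num : 0 < 1) x u]
  rw [pb_per hn h]
  have h2 := pb_half (t := 0) (P := fun _ => True) (fun _ _ => rfl)
  have h3 : pb (0 + 1) (fun y => True ∧ pr 0 y = 1) = pb 1 (fun y => pr 0 y = 1) := by
    congr 1
    funext y
    exact propext ⟨fun h => h.2, fun h => ⟨trivial, h⟩⟩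
  rw [← h3, h2, pb_id1, ex_zero, id1_pos trivial]

theorem Ws_one_le (n k : ℕ) : Ws n k (fun _ _ => 1) ≤ 1 := by
  rcases Nat.eq_zero_or_pos n with h | h
  · subst h; unfold Ws; simp
  · have h1 : Ws n k (fun _ _ => 1) = Ws n k (fun _ _ => id1 True) := by
      unfold Ws; simp only [id1_pos trivial]
    rw [h1]
    refine (Ws_le n k (R := fun _ _ => True) (Q := fun y => pr 0 y = 1) (fun _ _ _ => rfl) ?_).trans ?_
    · intro t _ y h1 h2 _
      rcases h1.2.1 with h3 | h3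
      · subst h3; exact h2
      · exact h3
    · rw [pb_odd h]; norm_num

theorem Ws_mono {n k : ℕ} {f g : ℕ → ℤ → ℝ} (h : ∀ t < n, ∀ y, isW k t y → f t y ≤ g t y) : Ws n k f ≤ Ws n k g := by
  unfold Ws
  apply sum_le_sum
  intro t ht
  rw [mem_range] at ht
  apply ex_mono
  intro y
  by_cases hy : isW k t y
  · rw [id1_pos hy, one_mul, one_mul]; exact h t ht y hy
  · rw [id1_neg hy, zero_mul, zero_mul]

theorem Ws_add (n k : ℕ) (f g : ℕ → ℤ → ℝ) : Ws n k (fun t y => f t y + g t y) = Ws n k f + Ws n k g := by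
  unfold Ws
  rw [← sum_add_distrib]
  apply sum_congr rfl
  intro t _
  rw [← ex_add]
  apply ex_congr
  intro y; ring

theorem Ws_mul (n k : ℕ) (c : ℝ) (f : ℕ → ℤ → ℝ) : Ws n k (fun t y => c * f t y) = c * Ws n k f := by
  unfold Ws
  rw [mul_sum]
  apply sum_congr rfl
  intro t _
  rw [← ex_mul]
  apply ex_congr
  intro y; ring

theorem Ws_sum {ι : Type*} (s : Finset ι) (n k : ℕ) (f : ι → ℕ → ℤ → ℝ) :
    Ws n k (fun t y => ∑ i ∈ s, f i t y) = ∑ i ∈ s, Ws n k (f i) := by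
  unfold Ws
  rw [sum_comm]
  apply sum_congr rfl
  intro t _
  rw [← ex_sum]
  apply ex_congr
  intro y
  rw [mul_sum]

theorem Ws_nonneg {n k : ℕ} {f : ℕ → ℤ → ℝ} (h : ∀ t y, 0 ≤ f t y) : 0 ≤ Ws n k f :=
  sum_nonneg fun _ _ => ex_nonneg fun _ => mul_nonneg (id1_nonneg _) (h _ _)

theorem Ws_const_le {n k : ℕ} {c : ℝ} (hc : 0 ≤ c) : Ws n k (fun _ _ => c) ≤ c := by
  have h : Ws n k (fun _ _ => c) = c * Ws n k (fun _ _ => 1) := by
    rw [← Ws_mul]; simp only [mul_one]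
  rw [h]
  exact mul_le_of_le_one_right hc (Ws_one_le n k)

theorem Gm_le_one (stp : S → ℕ → S) (n k : ℕ) (s : S) (q : ℕ) : Gm stp n k s q ≤ 1 :=
  (Gm_le_Ws stp n k s q).trans (Ws_one_le n k)

open Classical in
/-- The recursion. -/
theorem Gm_rec (stp : S → ℕ → S) (n k₂ k₁ j : ℕ) (s : S) :
    Gm stp n (k₂ + k₁) s (k₁ + j) ≤
      ∑ a ∈ range n, ∑ s₁ ∈ im stp k₂ a s, NU a (fun y => isW k₂ a y ∧ rn stp a s y = s₁) j *
        Gm stp n k₁ s₁ (k₁ + j) := by
  -- the decomposition for fixed `t`, `s'`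
  have key : ∀ t s', NU t (fun y => isW (k₂ + k₁) t y ∧ rn stp t s y = s') (k₁ + j) ≤
      ∑ p ∈ (range (t + 1)).sigma (fun a => im stp k₂ a s),
        NU (t - p.1) (fun z => isW k₁ (t - p.1) z ∧ rn stp (t - p.1) p.2 z = s') (k₁ + j) *
          NU p.1 (fun y => isW k₂ p.1 y ∧ rn stp p.1 s y = p.2) j := by
    intro t s'
    apply NU_conv ((range (t + 1)).sigma (fun a => im stp k₂ a s)) t k₁ _ (fun p => p.1) (fun p => t - p.1)
      (fun p y => isW k₂ p.1 y ∧ rn stp p.1 s y = p.2)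
      (fun p z => isW k₁ (t - p.1) z ∧ rn stp (t - p.1) p.2 z = s')
    · intro p hp
      rw [mem_sigma, mem_range] at hp
      omega
    · intro p _ x u
      simp only
      rw [per_isW k₂ p.1 x u, per_rn stp s (le_refl p.1) x u]
    · intro p _ x u
      simp only
      rw [per_isW k₁ _ x u, per_rn stp p.2 (le_refl (t - p.1)) x u]
    · intro p _ z hz
      exact hz.1.1
    · intro y R
      have h1 : id1 ((isW (k₂ + k₁) t y ∧ rn stp t s y = s') ∧ R) =
          ∑ a ∈ range (t + 1), id1 ((isW k₂ a y ∧ isW k₁ (t - a) (T^[a] y)) ∧ (rn stp t s y = s' ∧ R)) := by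
        rw [← isW_split]
        exact id1_congr and_assoc
      rw [h1, sum_sigma]
      apply sum_congr rfl
      intro a ha
      rw [mem_range] at ha
      by_cases hA : isW k₂ a y
      · rw [sum_eq_single (rn stp a s y)]
        · apply id1_congr
          have e : rn stp t s y = rn stp (t - a) (rn stp a s y) (T^[a] y) := by
            rw [← rn_comp, Nat.add_sub_cancel' (by omega : a ≤ t)]
          simp only [e, and_true]
          tauto
        · intro b _ hb
          rw [id1_neg]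
          rintro ⟨⟨⟨_, h⟩, _⟩, _⟩
          exact hb h.symm
        · intro hn
          exact absurd (rn_mem_im hA) hn
      · rw [id1_neg (fun hh => hA hh.1.1)]
        symm
        apply sum_eq_zero
        intro b _
        rw [id1_neg (fun hh => hA hh.1.1.1)]
  have h1 : Gm stp n (k₂ + k₁) s (k₁ + j) ≤ ∑ t ∈ range n, ∑ s' ∈ im stp (k₂ + k₁) t s,
      ∑ a ∈ range (t + 1), ∑ s₁ ∈ im stp k₂ a s,
        NU (t - a) (fun z => isW k₁ (t - a) z ∧ rn stp (t - a) s₁ z = s') (k₁ + j) *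
          NU a (fun y => isW k₂ a y ∧ rn stp a s y = s₁) j := by
    unfold Gm
    apply sum_le_sum
    intro t _
    apply sum_le_sum
    intro s' _
    refine (key t s').trans (le_of_eq ?_)
    rw [sum_sigma]
  refine h1.trans ?_
  -- exchange
  have h2 : ∀ t ∈ range n, ∑ s' ∈ im stp (k₂ + k₁) t s,
      ∑ a ∈ range (t + 1), ∑ s₁ ∈ im stp k₂ a s,
        NU (t - a) (fun z => isW k₁ (t - a) z ∧ rn stp (t - a) s₁ z = s') (k₁ + j) *
          NU a (fun y => isW k₂ a y ∧ rn stp a s y = s₁) j ≤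
      ∑ a ∈ range (t + 1), ∑ s₁ ∈ im stp k₂ a s, NU a (fun y => isW k₂ a y ∧ rn stp a s y = s₁) j *
        ∑ s' ∈ im stp k₁ (t - a) s₁, NU (t - a) (fun z => isW k₁ (t - a) z ∧ rn stp (t - a) s₁ z = s') (k₁ + j) := by
    intro t _
    rw [sum_comm]
    apply sum_le_sum
    intro a _
    rw [sum_comm]
    apply sum_le_sum
    intro s₁ _
    rw [← sum_mul, mul_comm]
    apply mul_le_mul_of_nonneg_left _ (NU_nonneg _ _ _)
    -- only the states in the image contribute
    have h3 : ∀ s' ∈ im stp (k₂ + k₁) t s, s' ∉ im stp k₁ (t - a) s₁ →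
        NU (t - a) (fun z => isW k₁ (t - a) z ∧ rn stp (t - a) s₁ z = s') (k₁ + j) = 0 := by
      intro s' _ hn
      apply le_antisymm _ (NU_nonneg _ _ _)
      refine (NU_le _ _ _).trans ?_
      rw [pb_id1]
      have : ∀ z, id1 (isW k₁ (t - a) z ∧ rn stp (t - a) s₁ z = s') = 0 := by
        intro z
        rw [id1_neg]
        rintro ⟨h4, h5⟩
        rw [← h5] at hn
        exact hn (rn_mem_im h4)
      rw [ex_congr this, ex_const]
    calc ∑ s' ∈ im stp (k₂ + k₁) t s, NU (t - a) (fun z => isW k₁ (t - a) z ∧ rn stp (t - a) s₁ z = s') (k₁ + j)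
        = ∑ s' ∈ (im stp (k₂ + k₁) t s).filter (fun s' => s' ∈ im stp k₁ (t - a) s₁),
            NU (t - a) (fun z => isW k₁ (t - a) z ∧ rn stp (t - a) s₁ z = s') (k₁ + j) := by
          rw [sum_filter]
          apply sum_congr rfl
          intro s' hs'
          by_cases h : s' ∈ im stp k₁ (t - a) s₁
          · rw [if_pos h]
          · rw [if_neg h]; exact h3 s' hs' h
      _ ≤ _ := by
          apply sum_le_sum_of_subset_of_nonneg
          · intro s' hs'
            rw [mem_filter] at hs'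
            exact hs'.2
          · intro _ _ _; exact NU_nonneg _ _ _
  refine (sum_le_sum h2).trans ?_
  -- double sum over `a + b = t < n`
  set W : ℕ → S → ℕ → ℝ := fun a s₁ b => NU a (fun y => isW k₂ a y ∧ rn stp a s y = s₁) j *
        ∑ s' ∈ im stp k₁ b s₁, NU b (fun z => isW k₁ b z ∧ rn stp b s₁ z = s') (k₁ + j) with hW
  have hW0 : ∀ a s₁ b, 0 ≤ W a s₁ b := fun a s₁ b =>
    mul_nonneg (NU_nonneg _ _ _) (sum_nonneg fun _ _ => NU_nonneg _ _ _)
  have h4 : ∑ t ∈ range n, ∑ a ∈ range (t + 1), ∑ s₁ ∈ im stp k₂ a s, W a s₁ (t - a) ≤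
      ∑ a ∈ range n, ∑ b ∈ range n, ∑ s₁ ∈ im stp k₂ a s, W a s₁ b := by
    have h5 : ∑ t ∈ range n, ∑ a ∈ range (t + 1), ∑ s₁ ∈ im stp k₂ a s, W a s₁ (t - a) =
        ∑ p ∈ (range n).sigma (fun t => range (t + 1)), ∑ s₁ ∈ im stp k₂ p.2 s, W p.2 s₁ (p.1 - p.2) := by
      rw [sum_sigma]
    have h6 : ∑ a ∈ range n, ∑ b ∈ range n, ∑ s₁ ∈ im stp k₂ a s, W a s₁ b =
        ∑ p ∈ range n ×ˢ range n, ∑ s₁ ∈ im stp k₂ p.1 s, W p.1 s₁ p.2 := by
      rw [sum_product]
    rw [h5, h6]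
    have hinj : Set.InjOn (fun p : (_ : ℕ) × ℕ => (p.2, p.1 - p.2)) ((range n).sigma (fun t => range (t + 1)) : Finset ((_ : ℕ) × ℕ)) := by
      rintro ⟨t, a⟩ h ⟨t', a'⟩ h' heq
      rw [mem_coe, mem_sigma, mem_range, mem_range] at h h'
      simp only [Prod.mk.injEq] at heq
      simp only at h h'
      obtain ⟨e1, e2⟩ := heq
      subst e1
      have : t = t' := by omega
      subst this
      rfl
    calc ∑ p ∈ (range n).sigma (fun t => range (t + 1)), ∑ s₁ ∈ im stp k₂ p.2 s, W p.2 s₁ (p.1 - p.2)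
        = ∑ q ∈ ((range n).sigma (fun t => range (t + 1))).image (fun p : (_ : ℕ) × ℕ => (p.2, p.1 - p.2)),
            ∑ s₁ ∈ im stp k₂ q.1 s, W q.1 s₁ q.2 := by
          rw [sum_image hinj]
      _ ≤ _ := by
          apply sum_le_sum_of_subset_of_nonneg
          · intro q hq
            rw [mem_image] at hq
            obtain ⟨⟨t, a⟩, h, rfl⟩ := hq
            rw [mem_sigma, mem_range, mem_range] at h
            rw [mem_product, mem_range, mem_range]
            simp only at h ⊢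
            omega
          · intro _ _ _
            exact sum_nonneg fun _ _ => hW0 _ _ _
  refine h4.trans (le_of_eq ?_)
  apply sum_congr rfl
  intro a _
  rw [sum_comm]
  apply sum_congr rfl
  intro s₁ _
  rw [hW]
  simp only
  rw [← mul_sum]
  rfl

/-- prepending a random word -/
theorem Gm_prep (stp : S → ℕ → S) (n k₂ k₁ j : ℕ) (s : S) :
    Gm stp n (k₂ + k₁) s (k₁ + j) ≤ Ws n k₂ (fun t y => Gm stp n k₁ (rn stp t s y) (k₁ + j)) := by
  refine (Gm_rec stp n k₂ k₁ j s).trans ?_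
  unfold Ws
  apply sum_le_sum
  intro a _
  rw [← sum_im stp k₂ a s (fun s₁ => Gm stp n k₁ s₁ (k₁ + j))]
  apply sum_le_sum
  intro s₁ _
  exact mul_le_mul_of_nonneg_right (NU_le _ _ _) (Gm_nonneg _ _ _ _ _)

/-- monotonicity along the diagonal -/
theorem Gm_diag (stp : S → ℕ → S) (n k₂ k₁ j : ℕ) (s : S) :
    Gm stp n (k₂ + k₁) s (k₁ + j) ≤ Gm stp n k₂ s j := by
  refine (Gm_rec stp n k₂ k₁ j s).trans ?_
  conv_rhs => unfold Gm
  apply sum_le_sum
  intro a _
  apply sum_le_sum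
  intro s₁ _
  exact mul_le_of_le_one_right (NU_nonneg _ _ _) (Gm_le_one _ _ _ _ _)

/-- one step of the product recursion -/
theorem Gm_prod (stp : S → ℕ → S) (n k₂ k₁ j : ℕ) (s : S) (G : S → Prop) {ε : ℝ} (hε : 0 ≤ ε)
    (hG : ∀ s₁, G s₁ → Gm stp n k₁ s₁ (k₁ + j) ≤ ε) :
    Gm stp n (k₂ + k₁) s (k₁ + j) ≤ ε * Gm stp n k₂ s j + Ws n k₂ (fun t y => id1 (¬ G (rn stp t s y))) := by
  refine (Gm_rec stp n k₂ k₁ j s).trans ?_
  have h1 : ∀ a, ∀ s₁ ∈ im stp k₂ a s, NU a (fun y => isW k₂ a y ∧ rn stp a s y = s₁) j *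
        Gm stp n k₁ s₁ (k₁ + j) ≤ ε * NU a (fun y => isW k₂ a y ∧ rn stp a s y = s₁) j +
          pb a (fun y => isW k₂ a y ∧ rn stp a s y = s₁) * id1 (¬ G s₁) := by
    intro a s₁ _
    by_cases h : G s₁
    · rw [id1_neg (fun hh => hh h), mul_zero, add_zero, mul_comm]
      exact mul_le_mul_of_nonneg_right (hG s₁ h) (NU_nonneg _ _ _)
    · rw [id1_pos h, mul_one]
      have h2 : NU a (fun y => isW k₂ a y ∧ rn stp a s y = s₁) j * Gm stp n k₁ s₁ (k₁ + j) ≤
          NU a (fun y => isW k₂ a y ∧ rn stp a s y = s₁) j :=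
        mul_le_of_le_one_right (NU_nonneg _ _ _) (Gm_le_one _ _ _ _ _)
      have h3 := NU_le a (fun y => isW k₂ a y ∧ rn stp a s y = s₁) j
      have h4 : 0 ≤ ε * NU a (fun y => isW k₂ a y ∧ rn stp a s y = s₁) j := mul_nonneg hε (NU_nonneg _ _ _)
      linarith
  refine (sum_le_sum fun a _ => sum_le_sum (h1 a)).trans (le_of_eq ?_)
  simp only [sum_add_distrib, ← mul_sum]
  congr 1
  unfold Ws
  apply sum_congr rfl
  intro a _
  exact sum_im stp k₂ a s (fun s₁ => id1 (¬ G s₁))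

end

end Pool.Agent.J4H39
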