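import Mathlib
import Pool.Agent.J4H39.E2

set_option autoImplicit false

namespace Pool.Agent.J4H39

open Finset
open Pool.Agent.H499R2.CO (Tz surv q step rho q_rate coal surv_periodic count_surv nx pair_step surv_succ)

/-! The pair automaton. -/

/-- one step of a pair `3 ^ (-D)⁺ y' = 3 ^ D⁺ y + r`, driven by the parity of `y` -/
def stP (s : ℤ × ℤ) (p : ℕ) : ℤ × ℤ :=
  (s.1 + ((p : ℤ) + s.2) % 2 - p,
    (3 ^ ((-(s.1 + ((p : ℤ) + s.2) % 2 - p)).toNat + (((p : ℤ) + s.2) % 2).toNat - (-s.1).toNat) * s.2 +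
      3 ^ (-(s.1 + ((p : ℤ) + s.2) % 2 - p)).toNat * (((p : ℤ) + s.2) % 2) -
      3 ^ (s.1 + ((p : ℤ) + s.2) % 2 - p).toNat * p) / 2)

/-- the relation of a pair -/
def Rel (s : ℤ × ℤ) (y y' : ℤ) : Prop := 3 ^ (-s.1).toNat * y' = 3 ^ s.1.toNat * y + s.2

theorem T_pr (y : ℤ) : 2 * T y = 3 ^ pr 0 y * y + pr 0 y := by
  have := T_two y
  unfold pr
  simpa using this

theorem pr0_mod (y : ℤ) : ((pr 0 y : ℕ) : ℤ) = y % 2 := by
  unfold pr
  simp only [Function.iterate_zero, id]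
  omega

theorem odd_mul_mod {a x : ℤ} (ha : a % 2 = 1) : (a * x) % 2 = x % 2 := by
  rw [Int.mul_emod, ha, one_mul, Int.emod_emod_of_dvd _ (dvd_refl 2)]

theorem rel_par {s : ℤ × ℤ} {y y' : ℤ} (h : Rel s y y') : ((pr 0 y' : ℕ) : ℤ) = ((pr 0 y : ℤ) + s.2) % 2 := by
  unfold Rel at h
  rw [pr0_mod, pr0_mod]
  have h1 := odd_mul_mod (x := y') (pow3_odd (-s.1).toNat)
  have h2 := odd_mul_mod (x := y) (pow3_odd s.1.toNat)
  rw [h] at h1
  omega

theorem rel_step {s : ℤ × ℤ} {y y' : ℤ} (h : Rel s y y') : Rel (stP s (pr 0 y)) (T y) (T y') ∧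
    (stP s (pr 0 y)).1 = s.1 + pr 0 y' - pr 0 y := by
  have hp := rel_par h
  have hD : (stP s (pr 0 y)).1 = s.1 + pr 0 y' - pr 0 y := by
    unfold stP
    simp only
    rw [← hp]
  refine ⟨?_, hD⟩
  unfold Rel at h ⊢
  set p := pr 0 y with hpdef
  set q := pr 0 y' with hqdef
  have hq1 : q ≤ 1 := pr_le 0 y'
  have hp1 : p ≤ 1 := pr_le 0 y
  set D1 : ℤ := s.1 + q - p with hD1
  have h2 : (stP s p).2 = (3 ^ ((-D1).toNat + q - (-s.1).toNat) * s.2 + 3 ^ (-D1).toNat * q - 3 ^ D1.toNat * p) / 2 := by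
    unfold stP
    simp only
    rw [← hp, Int.toNat_natCast]
  rw [hD, h2]
  have e1 := T_pr y
  have e2 := T_pr y'
  rw [← hpdef] at e1
  rw [← hqdef] at e2
  set k := (-D1).toNat + q - (-s.1).toNat with hk
  have hk1 : (-D1).toNat + q = k + (-s.1).toNat := by omega
  have hk2 : D1.toNat + p = k + s.1.toNat := by omega
  have key : 2 * (3 ^ (-D1).toNat * T y') = 2 * (3 ^ D1.toNat * T y) +
      (3 ^ k * s.2 + 3 ^ (-D1).toNat * q - 3 ^ D1.toNat * p) := by
    have a1 : 2 * (3 ^ (-D1).toNat * T y') = 3 ^ k * (3 ^ (-s.1).toNat * y') + 3 ^ (-D1).toNat * q := by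
      rw [show 2 * (3 ^ (-D1).toNat * T y') = 3 ^ (-D1).toNat * (2 * T y') by ring, e2, mul_add, ← mul_assoc,
        ← pow_add, hk1, pow_add]
      ring
    have a2 : 2 * (3 ^ D1.toNat * T y) = 3 ^ k * (3 ^ s.1.toNat * y) + 3 ^ D1.toNat * p := by
      rw [show 2 * (3 ^ D1.toNat * T y) = 3 ^ D1.toNat * (2 * T y) by ring, e1, mul_add, ← mul_assoc,
        ← pow_add, hk2, pow_add]
      ring
    rw [a1, a2, h]; ring
  omega

theorem rn_succ' {S : Type*} (stp : S → ℕ → S) (s : S) (t : ℕ) (y : ℤ) :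
    rn stp (1 + t) s y = rn stp t (stp s (pr 0 y)) (T y) := by
  rw [rn_comp]; rfl

theorem rel_rn {s : ℤ × ℤ} {y y' : ℤ} (h : Rel s y y') (t : ℕ) : Rel (rn stP t s y) (T^[t] y) (T^[t] y') ∧
    (rn stP t s y).1 = s.1 + od t y' - od t y := by
  induction t with
  | zero => exact ⟨h, by simp [rn, od]⟩
  | succ t ih =>
    obtain ⟨h1, h2⟩ := ih
    have h3 := rel_step h1
    have e1 : pr 0 (T^[t] y) = pr t y := by rw [pr_iter, add_zero]
    have e2 : pr 0 (T^[t] y') = pr t y' := by rw [pr_iter, add_zero]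
    rw [e1, e2] at h3
    rw [rn, Function.iterate_succ_apply', Function.iterate_succ_apply']
    refine ⟨h3.1, ?_⟩
    rw [h3.2, h2, od_succ, od_succ]
    push_cast
    ring

theorem rel_eq {s s' : ℤ × ℤ} {y y' : ℤ} (h : Rel s y y') (h' : Rel s' y y') (h1 : s.1 = s'.1) : s = s' := by
  unfold Rel at h h'
  rw [h1] at h
  apply Prod.ext h1
  linarith

/-- the swapped state -/
def sw (s : ℤ × ℤ) : ℤ × ℤ := (-s.1, -s.2)

theorem sw_sw (s : ℤ × ℤ) : sw (sw s) = s := by unfold sw; simp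

theorem rel_sw {s : ℤ × ℤ} {y y' : ℤ} (h : Rel s y y') : Rel (sw s) y' y := by
  unfold Rel sw at *
  simp only [neg_neg]
  linarith

theorem rn_sw {s : ℤ × ℤ} {y y' : ℤ} (h : Rel s y y') (t : ℕ) : rn stP t (sw s) y' = sw (rn stP t s y) := by
  obtain ⟨h1, h2⟩ := rel_rn h t
  obtain ⟨h3, h4⟩ := rel_rn (rel_sw h) t
  apply rel_eq h3 (rel_sw h1)
  rw [h4]
  unfold sw
  simp only
  rw [h2]; ring

theorem stP_zero (p : ℕ) (hp : p ≤ 1) : stP (0, 0) p = (0, 0) := by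
  interval_cases p <;> rfl

theorem rn_zero (t : ℕ) (y : ℤ) : rn stP t (0, 0) y = (0, 0) := by
  induction t with
  | zero => rfl
  | succ t ih => rw [rn, ih]; exact stP_zero _ (pr_le _ _)

theorem rn_zero_of_le {s : ℤ × ℤ} {y : ℤ} {t t' : ℕ} (h : t ≤ t') (h0 : rn stP t s y = (0, 0)) :
    rn stP t' s y = (0, 0) := by
  obtain ⟨d, rfl⟩ := Nat.exists_eq_add_of_le h
  rw [rn_comp, h0, rn_zero]

theorem rel_nat (i : ℕ) (r y : ℤ) : Rel ((i : ℤ), r) y (3 ^ i * y + r) := by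
  unfold Rel
  simp only [Int.toNat_natCast]
  rw [show (-(i : ℤ)).toNat = 0 by omega]
  ring

/-- merging with equal numbers of odd steps gives the state `(0, 0)` -/
theorem rn_of_merge {s : ℤ × ℤ} {y y' : ℤ} (h : Rel s y y') {t : ℕ} (h1 : T^[t] y = T^[t] y')
    (h2 : (od t y : ℤ) = s.1 + od t y') : rn stP t s y = (0, 0) := by
  obtain ⟨h3, h4⟩ := rel_rn h t
  have h5 : (rn stP t s y).1 = 0 := by rw [h4]; omega
  apply rel_eq h3 _ h5
  unfold Rel
  simp [h1]

theorem merge_of_rn {s : ℤ × ℤ} {y y' : ℤ} (h : Rel s y y') {t : ℕ} (h1 : rn stP t s y = (0, 0)) :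
    T^[t] y = T^[t] y' ∧ (od t y : ℤ) = s.1 + od t y' := by
  obtain ⟨h3, h4⟩ := rel_rn h t
  rw [h1] at h3 h4
  unfold Rel at h3
  simp only [neg_zero, Int.toNat_zero, pow_zero, one_mul, add_zero] at h3
  exact ⟨h3.symm, by simp only at h4; omega⟩

theorem od_succ' (t : ℕ) (y : ℤ) : od (t + 1) y = pr 0 y + od t (T y) := by
  rw [add_comm t 1, od_comp]
  simp [od]

/-- coalescence with the matching numbers of odd steps -/
theorem coalO : ∀ (k i : ℕ) (r x : ℤ), ¬ surv 1 k (i, r) x →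
    ∃ t ≤ k, T^[t] x = T^[t] (3 ^ i * x + r) ∧ od t x = i + od t (3 ^ i * x + r) := by
  intro k
  induction k with
  | zero =>
    intro i r x h
    simp only [surv, ne_eq, not_not, Prod.mk.injEq] at h
    obtain ⟨rfl, rfl⟩ := h
    exact ⟨0, le_rfl, by simp, by simp [od]⟩
  | succ k ih =>
    intro i r x h
    by_cases h0 : (i, r) = ((0 : ℕ), (0 : ℤ))
    · rw [Prod.mk.injEq] at h0
      obtain ⟨rfl, rfl⟩ := h0
      exact ⟨0, by omega, by simp, by simp [od]⟩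
    · have h' : ¬ surv 1 k (step (i, r) (decide (x % 2 = 1))) (nx 1 (i, r) x) := by
        intro h2; exact h ⟨h0, h2⟩
      have hx := pr0_mod x
      have hy := pr0_mod (3 ^ i * x + r)
      rcases pair_step (d := 1) (by norm_num) i r x with ⟨e1, e2, e3⟩ | ⟨e1, e2, e3, e4, e5, e6⟩
      · rw [e1] at h'
        rw [one_mul, one_mul] at e2
        rw [one_mul] at e3
        obtain ⟨t, ht, hh, ho⟩ := ih (step (i, r) (decide (x % 2 = 1))).1 (step (i, r) (decide (x % 2 = 1))).2 _ h'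
        rw [e2, ← T_eq] at hh ho
        refine ⟨t + 1, by omega, ?_, ?_⟩
        · rw [Function.iterate_succ_apply, Function.iterate_succ_apply]; exact hh
        · rw [od_succ', od_succ']
          omega
      · rw [e1] at h'
        rw [one_mul] at h' e2 e6
        rw [one_mul] at e2
        obtain ⟨t, ht, hh, ho⟩ := ih (step (i, r) (decide (x % 2 = 1))).1 (step (i, r) (decide (x % 2 = 1))).2 _ h'
        rw [e2, ← T_eq] at hh ho
        refine ⟨t + 1, by omega, ?_, ?_⟩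
        · rw [Function.iterate_succ_apply, Function.iterate_succ_apply]; exact hh.symm
        · rw [od_succ', od_succ']
          omega

theorem rn_of_surv {k i : ℕ} {r x : ℤ} (h : ¬ surv 1 k (i, r) x) : rn stP k ((i : ℤ), r) x = (0, 0) := by
  obtain ⟨t, ht, h1, h2⟩ := coalO k i r x h
  apply rn_zero_of_le ht
  apply rn_of_merge (rel_nat i r x) h1
  simp only
  omega

theorem per_rn_eq (k : ℕ) (s s' : ℤ × ℤ) : Per k (fun y => rn stP k s y = s') := by
  intro x u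
  simp only
  rw [per_rn stP s (le_refl k) x u]

theorem pb_affine {k : ℕ} {P : ℤ → Prop} (hP : Per k P) {a : ℤ} (ha : a % 2 = 1) (c : ℤ) :
    pb k (fun m => P (a * m + c)) = pb k P := by
  unfold pb
  exact ex_affine k hP.ind ha c

/-- the probability of not having merged -/
noncomputable def ns (k : ℕ) (s : ℤ × ℤ) : ℝ := pb k (fun y => rn stP k s y ≠ (0, 0))

theorem ns_le_q (k i : ℕ) (r : ℤ) : ns k ((i : ℤ), r) ≤ q step (0, 0) k (i, r) := by
  rw [← pb_surv]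
  apply pb_mono
  intro y hy
  by_contra hs
  exact hy (rn_of_surv hs)

theorem per_ns (k : ℕ) (s : ℤ × ℤ) : Per k (fun y => rn stP k s y ≠ (0, 0)) := by
  intro x u
  simp only
  rw [per_rn stP s (le_refl k) x u]

theorem ns_sw_nat (k i : ℕ) (r : ℤ) : ns k (-(i : ℤ), r) = ns k ((i : ℤ), -r) := by
  unfold ns
  rw [← pb_affine (per_ns k (-(i : ℤ), r)) (pow3_odd i) (-r)]
  apply pb_congr
  intro m
  have h := rel_nat i (-r) m
  have h2 := rn_sw h k
  have e : sw ((i : ℤ), -r) = (-(i : ℤ), r) := by unfold sw; simp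
  rw [e] at h2
  rw [h2]
  apply not_congr
  unfold sw
  constructor
  · intro h3
    rw [Prod.mk.injEq] at h3
    apply Prod.ext <;> simp only <;> omega
  · intro h3
    rw [h3]; simp

theorem ns_sw (k : ℕ) (s : ℤ × ℤ) : ns k (sw s) = ns k s := by
  obtain ⟨D, r⟩ := s
  rcases le_total 0 D with h | h
  · obtain ⟨i, rfl⟩ := Int.eq_ofNat_of_zero_le h
    unfold sw
    simp only
    rw [ns_sw_nat, neg_neg]
  · obtain ⟨i, hi⟩ := Int.eq_ofNat_of_zero_le (show 0 ≤ -D by omega)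
    have : D = -(i : ℤ) := by omega
    subst this
    unfold sw
    simp only
    rw [neg_neg, ns_sw_nat]

theorem ns_rate : ∃ C : ℝ, 0 < C ∧ ∀ (k : ℕ), 1 ≤ k → ∀ (D : ℤ) (u : ℕ) (r : ℤ), |(r : ℝ)| ≤ 4 ^ u →
    ns k (D, r) ≤ C * √ (1 + (D : ℝ) ^ 2 + u) * rho k := by
  obtain ⟨C, hC, h⟩ := q_rate
  refine ⟨C, hC, fun k hk D u r hr => ?_⟩
  rcases le_total 0 D with h0 | h0
  · obtain ⟨i, rfl⟩ := Int.eq_ofNat_of_zero_le h0
    refine (ns_le_q k i r).trans ((h k hk i u r hr).trans (le_of_eq ?_))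
    push_cast
    rfl
  · obtain ⟨i, hi⟩ := Int.eq_ofNat_of_zero_le (show 0 ≤ -D by omega)
    have : D = -(i : ℤ) := by omega
    subst this
    rw [ns_sw_nat]
    refine (ns_le_q k i (-r)).trans ((h k hk i u (-r) (by push_cast; rwa [abs_neg])).trans (le_of_eq ?_))
    push_cast
    rw [neg_sq]

end Pool.Agent.J4H39
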