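import Mathlib
import Pool.Agent.J4H39.S2

set_option autoImplicit false

namespace Pool.Agent.J4H39

open Finset Filter Topology MeasureTheory ProbabilityTheory

/-! The normal limit of the probability of not returning. -/

/-- the law of the normalized simple random walk -/
noncomputable def nu (q : ℕ) : Measure ℝ :=
  ∑ l ∈ range (q + 1), ENNReal.ofReal ((q.choose l : ℝ) / 2 ^ q) • Measure.dirac ((2 * (l : ℝ) - q) / √ q)

theorem sum_choose_one (q : ℕ) : ∑ l ∈ range (q + 1), (q.choose l : ℝ) / 2 ^ q = 1 := by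
  rw [← sum_div, ← Nat.cast_sum, Nat.sum_range_choose]
  push_cast
  exact div_self (by positivity)

theorem nu_apply (q : ℕ) {E : Set ℝ} (hE : MeasurableSet E) : nu q E = ENNReal.ofReal
    (∑ l ∈ range (q + 1), (q.choose l : ℝ) / 2 ^ q * E.indicator (fun _ => (1 : ℝ)) ((2 * (l : ℝ) - q) / √ q)) := by
  unfold nu
  rw [Measure.finsetSum_apply, ENNReal.ofReal_sum_of_nonneg]
  · apply sum_congr rfl
    intro l _
    rw [Measure.smul_apply, Measure.dirac_apply' _ hE, smul_eq_mul, ENNReal.ofReal_mul (by positivity)]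
    congr 1
    by_cases h : (2 * (l : ℝ) - q) / √ q ∈ E
    · simp [h]
    · simp [h]
  · intro l _
    apply mul_nonneg (by positivity)
    exact Set.indicator_nonneg (fun _ _ => zero_le_one) _

instance nu_prob (q : ℕ) : IsProbabilityMeasure (nu q) := ⟨by
  rw [nu_apply q MeasurableSet.univ]
  simp only [Set.indicator_univ, mul_one]
  rw [sum_choose_one, ENNReal.ofReal_one]⟩

theorem integral_nu (q : ℕ) {F : Type*} [NormedAddCommGroup F] [NormedSpace ℝ F] [CompleteSpace F] (f : ℝ → F) :
    ∫ x, f x ∂(nu q) = ∑ l ∈ range (q + 1), ((q.choose l : ℝ) / 2 ^ q) • f ((2 * (l : ℝ) - q) / √ q) := by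
  unfold nu
  rw [integral_finsetSum_measure]
  · apply sum_congr rfl
    intro l _
    rw [integral_smul_measure, integral_dirac, ENNReal.toReal_ofReal (by positivity)]
  · intro l _
    apply Integrable.smul_measure
    · exact integrable_dirac (by simp)
    · exact ENNReal.ofReal_ne_top

theorem charFun_nu (q : ℕ) (t : ℝ) : charFun (nu q) t = (Complex.cos ((t / √ q : ℝ) : ℂ)) ^ q := by
  rw [charFun_apply_real, integral_nu]
  rw [Complex.cos, div_pow, add_pow, sum_div]
  apply sum_congr rfl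
  intro l hl
  rw [mem_range] at hl
  rw [← Complex.exp_nat_mul, ← Complex.exp_nat_mul, ← Complex.exp_add, Nat.cast_sub (by omega : l ≤ q), Complex.real_smul]
  have e : (t : ℂ) * (((2 * (l : ℝ) - q) / √ q : ℝ) : ℂ) * Complex.I =
      (l : ℂ) * (((t / √ q : ℝ) : ℂ) * Complex.I) + ((q : ℂ) - l) * (-((t / √ q : ℝ) : ℂ) * Complex.I) := by
    push_cast
    ring
  rw [e]
  push_cast
  ring

theorem cos_lim (t : ℝ) : Tendsto (fun q : ℕ => charFun (nu q) t) atTop (𝓝 (Complex.exp (-t ^ 2 / 2))) := by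
  have h0 : (nu 1)[(id : ℝ → ℝ)] = 0 := by
    rw [integral_nu]
    simp [sum_range_succ]
    norm_num
  have h1 : (nu 1)[(id : ℝ → ℝ) ^ 2] = 1 := by
    rw [integral_nu]
    simp [sum_range_succ]
    norm_num
  have h := tendsto_charFun_inv_sqrt_mul_pow (P := nu 1) (X := id) aemeasurable_id h0 h1 t
  rw [Measure.map_id] at h
  refine h.congr fun n => ?_
  rw [charFun_nu, charFun_nu, pow_one]
  congr 3
  simp
  ring

noncomputable def nuP (q : ℕ) : ProbabilityMeasure ℝ := ⟨nu q, nu_prob q⟩

noncomputable def gaP : ProbabilityMeasure ℝ := ⟨gaussianReal 0 1, inferInstance⟩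

theorem nu_lim : Tendsto nuP atTop (𝓝 gaP) := by
  rw [ProbabilityMeasure.tendsto_iff_tendsto_charFun]
  intro t
  have h := cos_lim t
  have e : charFun (gaP : Measure ℝ) t = Complex.exp (-t ^ 2 / 2) := by
    change charFun (gaussianReal 0 1) t = _
    rw [charFun_gaussianReal]
    congr 1
    push_cast
    ring
  rw [e]
  exact h

/-- the error function -/
noncomputable def Erf (y : ℝ) : ℝ := 2 / √ Real.pi * ∫ u in (0 : ℝ)..y, Real.exp (-u ^ 2)

theorem gauss_Icc {x : ℝ} (hx : 0 ≤ x) : gaussianReal 0 1 (Set.Icc (-x) x) = ENNReal.ofReal (Erf (x / √ 2)) := by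
  rw [gaussianReal_apply_eq_integral 0 (by norm_num)]
  congr 1
  rw [integral_Icc_eq_integral_Ioc, ← intervalIntegral.integral_of_le (by linarith)]
  have h2 : (0 : ℝ) < √ 2 := by positivity
  have e1 : ∀ u : ℝ, gaussianPDFReal 0 1 u = (1 / √ (2 * Real.pi)) * Real.exp (-(u / √ 2) ^ 2) := by
    intro u
    rw [gaussianPDFReal_def]
    simp only [NNReal.coe_one, mul_one, sub_zero, one_div]
    rw [div_pow, Real.sq_sqrt (by norm_num : (0 : ℝ) ≤ 2)]
    congr 2
    ring
  simp only [e1]
  rw [intervalIntegral.integral_const_mul]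
  rw [intervalIntegral.integral_comp_div (fun u => Real.exp (-u ^ 2)) h2.ne']
  have e2 : ∫ u in (-x / √ 2)..(x / √ 2), Real.exp (-u ^ 2) = 2 * ∫ u in (0 : ℝ)..(x / √ 2), Real.exp (-u ^ 2) := by
    have hi : ∀ a b : ℝ, IntervalIntegrable (fun u => Real.exp (-u ^ 2)) volume a b := fun a b =>
      (Continuous.intervalIntegrable (by fun_prop) _ _)
    rw [← intervalIntegral.integral_add_adjacent_intervals (hi _ 0) (hi 0 _), two_mul]
    congr 1
    have := intervalIntegral.integral_comp_neg (fun u => Real.exp (-u ^ 2)) (a := 0) (b := x / √ 2)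
    simp only [neg_sq, neg_zero] at this
    rw [this]
    congr 1
    ring
  rw [e2]
  unfold Erf
  rw [smul_eq_mul, Real.sqrt_mul (by norm_num)]
  have hpi : (0 : ℝ) < √ Real.pi := Real.sqrt_pos.2 Real.pi_pos
  field_simp

theorem Erf_cont : Continuous Erf := by
  unfold Erf
  apply Continuous.mul continuous_const
  have hi : ∀ a b : ℝ, IntervalIntegrable (fun u => Real.exp (-u ^ 2)) volume a b := fun a b =>
      (Continuous.intervalIntegrable (by fun_prop) _ _)
  exact intervalIntegral.continuous_primitive hi 0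

theorem Erf_zero : Erf 0 = 0 := by unfold Erf; simp

theorem Erf_mono : Monotone Erf := by
  intro a b hab
  unfold Erf
  apply mul_le_mul_of_nonneg_left _ (by positivity)
  have hi : ∀ a b : ℝ, IntervalIntegrable (fun u => Real.exp (-u ^ 2)) volume a b := fun a b =>
      (Continuous.intervalIntegrable (by fun_prop) _ _)
  rw [← intervalIntegral.integral_add_adjacent_intervals (hi 0 a) (hi a b)]
  have : 0 ≤ ∫ u in a..b, Real.exp (-u ^ 2) := intervalIntegral.integral_nonneg hab (fun u _ => (Real.exp_pos _).le)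
  linarith

theorem Erf_nonneg {y : ℝ} (hy : 0 ≤ y) : 0 ≤ Erf y := by rw [← Erf_zero]; exact Erf_mono hy

theorem Erf_lim : Tendsto Erf atTop (𝓝 1) := by
  have h1 : IntegrableOn (fun u : ℝ => Real.exp (-1 * u ^ 2)) (Set.Ioi 0) :=
    (integrable_exp_neg_mul_sq one_pos).integrableOn
  have h2 := intervalIntegral_tendsto_integral_Ioi 0 h1 tendsto_id
  rw [integral_gaussian_Ioi 1] at h2
  have h3 := h2.const_mul (2 / √ Real.pi)
  have hpi : (0 : ℝ) < √ Real.pi := Real.sqrt_pos.2 Real.pi_pos
  have e : 2 / √ Real.pi * (√ (Real.pi / 1) / 2) = 1 := by rw [div_one]; field_simp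
  rw [e] at h3
  refine h3.congr fun x => ?_
  unfold Erf
  simp

theorem Erf_le_one (y : ℝ) : Erf y ≤ 1 := by
  have h := Erf_lim
  exact ge_of_tendsto h (eventually_ge_atTop y |>.mono fun z hz => Erf_mono hz)

theorem nu_Icc_lim {x : ℝ} (hx : 0 ≤ x) : Tendsto (fun q : ℕ => (nu q (Set.Icc (-x) x)).toReal) atTop (𝓝 (Erf (x / √ 2))) := by
  have h1 : (gaP : Measure ℝ) (frontier (Set.Icc (-x) x)) = 0 := by
    have h2 : (gaP : Measure ℝ) = gaussianReal 0 1 := rfl
    rw [h2]
    rw [frontier_Icc (by linarith)]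
    have : NullSingletonClass (gaussianReal 0 1) := nullSingletonClass_gaussianReal (by norm_num)
    exact (Set.toFinite _).measure_zero _
  have h2 := ProbabilityMeasure.tendsto_measure_of_null_frontier_of_tendsto' nu_lim h1
  have h3 : (gaP : Measure ℝ) (Set.Icc (-x) x) = ENNReal.ofReal (Erf (x / √ 2)) := gauss_Icc hx
  rw [h3] at h2
  have h4 := (ENNReal.tendsto_toReal ENNReal.ofReal_ne_top).comp h2
  rw [ENNReal.toReal_ofReal (Erf_nonneg (by positivity))] at h4
  exact h4

end Pool.Agent.J4H39
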