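import Mathlib
import Pool.Agent.J4H39.L1

set_option autoImplicit false

namespace Pool.Agent.J4H39

open Finset Filter Topology

/-! The uniform normal limit. -/

theorem p_nonneg' (n : ℕ) : ∀ d : ℤ, 0 ≤ p n d := by
  induction n with
  | zero => intro d; unfold p; split_ifs <;> norm_num
  | succ n ih => intro d; rw [p_succ]; have := ih (d + 1); have := ih (d - 1); linarith

theorem p_high (n : ℕ) (d : ℤ) (h : (n : ℤ) < d) : p n d = 0 := by
  rcases Int.emod_two_eq_zero_or_one ((n : ℤ) + d) with h0 | h0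
  · obtain ⟨l, hl⟩ : ∃ l : ℤ, d = 2 * l - n := ⟨(n + d) / 2, by omega⟩
    have hl0 : 0 ≤ l := by omega
    obtain ⟨l', rfl⟩ := Int.eq_ofNat_of_zero_le hl0
    rw [hl, p_formula, Nat.choose_eq_zero_of_lt (by omega)]
    simp
  · exact p_parity n d h0

theorem p_sum (q : ℕ) (e : ℤ) :
    ∑ l ∈ range (q + 1), (q.choose l : ℝ) / 2 ^ q * (if (2 * (l : ℤ) - q) = e then 1 else 0) = p q e := by
  by_cases h : ∃ l : ℕ, l ≤ q ∧ 2 * (l : ℤ) - q = e
  · obtain ⟨l, hl, he⟩ := h
    rw [sum_eq_single l]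
    · rw [if_pos he, mul_one, ← he, p_formula]
    · intro b _ hb
      rw [if_neg, mul_zero]
      intro hh
      apply hb
      omega
    · intro hn; rw [mem_range] at hn; omega
  · have h0 : p q e = 0 := by
      rcases lt_or_ge (q : ℤ) e with h1 | h1
      · exact p_high q e h1
      · rcases lt_or_ge e (-(q : ℤ)) with h2 | h2
        · exact p_far q e h2
        · rcases Int.emod_two_eq_zero_or_one ((q : ℤ) + e) with h3 | h3
          · exfalso
            apply h
            obtain ⟨l, hl⟩ : ∃ l : ℤ, e = 2 * l - q := ⟨(q + e) / 2, by omega⟩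
            have hl0 : 0 ≤ l := by omega
            obtain ⟨l', rfl⟩ := Int.eq_ofNat_of_zero_le hl0
            exact ⟨l', by omega, by omega⟩
          · exact p_parity q e h3
    rw [h0]
    apply sum_eq_zero
    intro l hl
    rw [mem_range] at hl
    rw [if_neg, mul_zero]
    intro hh
    exact h ⟨l, by omega, hh⟩

theorem Sm_sum (q : ℕ) : ∀ d : ℕ, Sm q d =
    ∑ l ∈ range (q + 1), (q.choose l : ℝ) / 2 ^ q * (if -(d : ℤ) ≤ 2 * (l : ℤ) - q ∧ 2 * (l : ℤ) - q < d then 1 else 0) := by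
  intro d
  induction d with
  | zero =>
    unfold Sm
    symm
    apply sum_eq_zero
    intro l _
    rw [if_neg (by push_cast; omega), mul_zero]
  | succ d ih =>
    rw [Sm_succ, ih, ← p_sum q d, ← p_sum q (-(d + 1)), ← sum_add_distrib, ← sum_add_distrib]
    apply sum_congr rfl
    intro l _
    rw [← mul_add, ← mul_add]
    congr 1
    push_cast
    by_cases h1 : -(d : ℤ) ≤ 2 * (l : ℤ) - q ∧ 2 * (l : ℤ) - q < d
    · rw [if_pos h1, if_neg (by omega), if_neg (by omega), if_pos (by omega)]; norm_num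
    · by_cases h2 : 2 * (l : ℤ) - q = d
      · rw [if_neg h1, if_pos h2, if_neg (by omega), if_pos (by omega)]; norm_num
      · by_cases h3 : 2 * (l : ℤ) - q = -(d + 1)
        · rw [if_neg h1, if_neg h2, if_pos h3, if_pos (by omega)]; norm_num
        · rw [if_neg h1, if_neg h2, if_neg h3, if_neg (by omega)]; norm_num

theorem nu_U {q : ℕ} (hq : 1 ≤ q) {x : ℝ} (hx : 0 ≤ x) :
    (nu q (Set.Icc (-x) x)).toReal = U q (⌊x * √ q⌋₊ : ℕ) + p q (⌊x * √ q⌋₊ : ℕ) := by
  have hq0 : (0 : ℝ) < √ q := Real.sqrt_pos.2 (by exact_mod_cast hq)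
  rw [nu_apply q measurableSet_Icc, ENNReal.toReal_ofReal (sum_nonneg fun l _ =>
    mul_nonneg (by positivity) (Set.indicator_nonneg (fun _ _ => zero_le_one) _)), U_eq_Sm, Sm_sum, ← p_sum, ← sum_add_distrib]
  apply sum_congr rfl
  intro l _
  rw [← mul_add]
  congr 1
  set d : ℕ := ⌊x * √ q⌋₊ with hd
  have hd1 : (d : ℝ) ≤ x * √ q := Nat.floor_le (by positivity)
  have hd2 : x * √ q < d + 1 := Nat.lt_floor_add_one _
  have key : ((2 * (l : ℝ) - q) / √ q ∈ Set.Icc (-x) x) ↔ (-(d : ℤ) ≤ 2 * (l : ℤ) - q ∧ 2 * (l : ℤ) - q ≤ d) := by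
    rw [Set.mem_Icc, le_div_iff₀ hq0, div_le_iff₀ hq0]
    have e : (2 * (l : ℝ) - q) = ((2 * (l : ℤ) - q : ℤ) : ℝ) := by push_cast; ring
    rw [e]
    generalize 2 * (l : ℤ) - q = a
    constructor
    · rintro ⟨h1, h2⟩
      constructor
      · by_contra hcon
        push Not at hcon
        have : a ≤ -(d : ℤ) - 1 := by omega
        have : (a : ℝ) ≤ -(d : ℝ) - 1 := by exact_mod_cast this
        linarith
      · by_contra hcon
        push Not at hcon
        have : (d : ℤ) + 1 ≤ a := by omega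
        have : (d : ℝ) + 1 ≤ a := by exact_mod_cast this
        linarith
    · rintro ⟨h1, h2⟩
      have h1r : -(d : ℝ) ≤ a := by exact_mod_cast h1
      have h2r : (a : ℝ) ≤ d := by exact_mod_cast h2
      constructor <;> linarith
  by_cases h : (2 * (l : ℝ) - q) / √ q ∈ Set.Icc (-x) x
  · rw [Set.indicator_of_mem h]
    have h' := key.1 h
    by_cases h2 : 2 * (l : ℤ) - q = d
    · rw [if_neg (by omega), if_pos h2]; norm_num
    · rw [if_pos (by omega), if_neg h2]; norm_num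
  · rw [Set.indicator_of_notMem h]
    have h' : ¬ (-(d : ℤ) ≤ 2 * (l : ℤ) - q ∧ 2 * (l : ℤ) - q ≤ d) := fun hh => h (key.2 hh)
    rw [if_neg (by omega), if_neg (by omega)]; norm_num

theorem p_le_U {q : ℕ} (hq : 1 ≤ q) (d : ℕ) : p q d ≤ 2 / √ q := by
  have h1 := U_incr q d
  have h2 : U q ((d : ℤ) + 1) = Sm q (d + 1) := by
    have := U_eq_Sm q (d + 1)
    push_cast at this
    exact this
  rw [h2, U_eq_Sm, Sm_succ] at h1
  have h3 := p_nonneg' q (-(d + 1))
  have h4 := U_bound_one hq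
  linarith

theorem U_lim {x : ℝ} (hx : 0 ≤ x) : Tendsto (fun q : ℕ => U q (⌊x * √ q⌋₊ : ℕ)) atTop (𝓝 (Erf (x / √ 2))) := by
  have h1 := nu_Icc_lim hx
  have h2 : Tendsto (fun q : ℕ => (2 : ℝ) / √ q) atTop (𝓝 0) :=
    tendsto_const_nhds.div_atTop (Real.tendsto_sqrt_atTop.comp tendsto_natCast_atTop_atTop)
  have h3 := h1.sub h2
  rw [sub_zero] at h3
  refine tendsto_of_tendsto_of_tendsto_of_le_of_le' h3 h1 ?_ ?_
  · filter_upwards [eventually_ge_atTop 1] with q hq
    have := nu_U hq hx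
    have := p_le_U hq ⌊x * √ q⌋₊
    linarith
  · filter_upwards [eventually_ge_atTop 1] with q hq
    have := nu_U hq hx
    have := p_nonneg' q (⌊x * √ q⌋₊ : ℕ)
    linarith

theorem U_monotone (q : ℕ) : Monotone (fun d : ℕ => U q d) := by
  apply monotone_nat_of_le_succ
  intro d
  rw [U_eq_Sm, U_eq_Sm, Sm_succ]
  have := p_nonneg' q d
  have := p_nonneg' q (-(d + 1))
  linarith

/-- The uniform limit. -/
theorem U_erf {ε : ℝ} (hε : 0 < ε) : ∃ q₀ : ℕ, ∀ q ≥ q₀, ∀ d : ℕ, |U q d - Erf (d / √ (2 * q))| ≤ ε := by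
  have h2 : (0 : ℝ) < √ 2 := by positivity
  -- the function G
  set G : ℝ → ℝ := fun x => Erf (x / √ 2) with hG
  have hGm : Monotone G := fun a b hab => Erf_mono (div_le_div_of_nonneg_right hab h2.le)
  have hGc : Continuous G := Erf_cont.comp (by fun_prop)
  have hG1 : ∀ x, G x ≤ 1 := fun x => Erf_le_one _
  have hGl : Tendsto G atTop (𝓝 1) := Erf_lim.comp (tendsto_id.atTop_div_const h2)
  obtain ⟨M, hM0, hM⟩ : ∃ M : ℝ, 0 < M ∧ 1 - ε / 4 ≤ G M := by
    have h3 := hGl.eventually (lt_mem_nhds (show 1 - ε / 4 < 1 by linarith))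
    obtain ⟨M, hM⟩ := (h3.and (eventually_gt_atTop 0)).exists
    exact ⟨M, hM.2, hM.1.le⟩
  have huc : UniformContinuousOn G (Set.Icc 0 (M + 1)) := isCompact_Icc.uniformContinuousOn_of_continuous hGc.continuousOn
  obtain ⟨δ, hδ0, hδ⟩ := (Metric.uniformContinuousOn_iff.1 huc) (ε / 4) (by positivity)
  obtain ⟨K, hK⟩ := exists_nat_gt (max (M / δ) M)
  have hK0 : (0 : ℝ) < K := lt_trans (lt_of_lt_of_le hM0 (le_max_right _ _)) hK
  have hKδ : M / K < δ := by
    rw [div_lt_iff₀ hK0]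
    have := lt_of_le_of_lt (le_max_left _ _) hK
    rw [div_lt_iff₀ hδ0] at this
    linarith
  have hK1 : M / K ≤ 1 := by
    rw [div_le_one hK0]
    exact (lt_of_le_of_lt (le_max_right _ _) hK).le
  have hgrid : ∀ k : ℕ, ∀ᶠ q : ℕ in atTop, |U q (⌊k * (M / K) * √ q⌋₊ : ℕ) - G (k * (M / K))| ≤ ε / 4 := by
    intro k
    have h3 := U_lim (x := k * (M / K)) (by positivity)
    have h4 := (h3.sub_const (G (k * (M / K)))).abs
    rw [sub_self, abs_zero] at h4
    exact h4.eventually (ge_mem_nhds (by positivity))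
  have hall : ∀ᶠ q : ℕ in atTop, ∀ k ∈ range (K + 2), |U q (⌊k * (M / K) * √ q⌋₊ : ℕ) - G (k * (M / K))| ≤ ε / 4 := by
    rw [Filter.eventually_all_finset]
    intro k _
    exact hgrid k
  have hsm : ∀ᶠ q : ℕ in atTop, (2 : ℝ) / √ q ≤ ε / 4 := by
    have h3 : Tendsto (fun q : ℕ => (2 : ℝ) / √ q) atTop (𝓝 0) :=
      tendsto_const_nhds.div_atTop (Real.tendsto_sqrt_atTop.comp tendsto_natCast_atTop_atTop)
    exact h3.eventually (ge_mem_nhds (by positivity))
  obtain ⟨q₀, hq₀⟩ := eventually_atTop.1 (hall.and (hsm.and (eventually_ge_atTop 1)))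
  refine ⟨q₀, fun q hq d => ?_⟩
  obtain ⟨h5, h6, h7⟩ := hq₀ q hq
  have hq0 : (0 : ℝ) < q := by exact_mod_cast h7
  have hsq : (0 : ℝ) < √ q := Real.sqrt_pos.2 hq0
  have hx : (d : ℝ) / √ (2 * q) = (d / √ q) / √ 2 := by
    rw [Real.sqrt_mul (by norm_num), div_div, mul_comm]
  rw [hx]
  change |U q d - G (d / √ q)| ≤ ε
  obtain ⟨x, hxd⟩ : ∃ x : ℝ, x = d / √ q := ⟨_, rfl⟩
  rw [← hxd]
  have hx0 : 0 ≤ x := by rw [hxd]; positivity
  have hdx : (d : ℝ) = x * √ q := by rw [hxd]; field_simp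
  have hUle : U q d ≤ 1 := U_le_one q d
  rcases le_or_gt M x with hc | hc
  · -- large values
    have a1 : U q (⌊K * (M / K) * √ q⌋₊ : ℕ) ≤ U q d := by
      apply U_monotone q
      have : K * (M / K) * √ q ≤ (d : ℝ) := by
        rw [mul_div_cancel₀ _ hK0.ne', hdx]
        exact mul_le_mul_of_nonneg_right hc hsq.le
      exact Nat.floor_le_of_le this
    have a2 := h5 K (mem_range.2 (by omega))
    rw [mul_div_cancel₀ _ hK0.ne'] at a1 a2
    rw [abs_le] at a2
    have a3 : G M ≤ G x := hGm hc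
    have a4 := hG1 x
    rw [abs_le]
    constructor <;> linarith
  · -- the grid
    have hMK : 0 < M / K := by positivity
    set k : ℕ := ⌊x / (M / K)⌋₊ with hk
    have hk1 : (k : ℝ) * (M / K) ≤ x := by
      have := Nat.floor_le (show 0 ≤ x / (M / K) by positivity)
      rwa [le_div_iff₀ hMK] at this
    have hk2 : x < ((k : ℝ) + 1) * (M / K) := by
      have := Nat.lt_floor_add_one (x / (M / K))
      rwa [div_lt_iff₀ hMK] at this
    have hkK : k < K := by
      have : (k : ℝ) * (M / K) < K * (M / K) := by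
        rw [mul_div_cancel₀ _ hK0.ne']; linarith
      have := lt_of_mul_lt_mul_right this hMK.le
      exact_mod_cast this
    have a1 : U q (⌊k * (M / K) * √ q⌋₊ : ℕ) ≤ U q d := by
      apply U_monotone q
      apply Nat.floor_le_of_le
      rw [hdx]
      exact mul_le_mul_of_nonneg_right hk1 hsq.le
    have a2 : U q d ≤ U q (⌊((k + 1 : ℕ) : ℝ) * (M / K) * √ q⌋₊ : ℕ) + 2 / √ q := by
      have b1 : d ≤ ⌊((k + 1 : ℕ) : ℝ) * (M / K) * √ q⌋₊ + 1 := by
        have b2 := Nat.lt_floor_add_one (((k + 1 : ℕ) : ℝ) * (M / K) * √ q)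
        have b3 : (d : ℝ) < ⌊((k + 1 : ℕ) : ℝ) * (M / K) * √ q⌋₊ + 1 := by
          refine lt_trans ?_ b2
          rw [hdx]
          push_cast
          exact mul_lt_mul_of_pos_right hk2 hsq
        have : d < ⌊((k + 1 : ℕ) : ℝ) * (M / K) * √ q⌋₊ + 1 := by exact_mod_cast b3
        omega
      have b4 := U_monotone q b1
      have b5 := U_incr q ⌊((k + 1 : ℕ) : ℝ) * (M / K) * √ q⌋₊
      have b6 := U_bound_one h7
      simp only at b4
      push_cast at b4 b5 ⊢
      linarith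
    have a3 := h5 k (mem_range.2 (by omega))
    have a4 := h5 (k + 1) (mem_range.2 (by omega))
    rw [abs_le] at a3 a4
    have hin1 : (k : ℝ) * (M / K) ∈ Set.Icc 0 (M + 1) := ⟨by positivity, by linarith⟩
    have hin2 : ((k + 1 : ℕ) : ℝ) * (M / K) ∈ Set.Icc 0 (M + 1) := ⟨by positivity, by push_cast; nlinarith⟩
    have hd := hδ _ hin1 _ hin2 (by
      rw [Real.dist_eq]
      push_cast
      rw [show (k : ℝ) * (M / K) - (k + 1) * (M / K) = -(M / K) by ring, abs_neg, abs_of_pos hMK]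
      exact hKδ)
    rw [Real.dist_eq, abs_lt] at hd
    have a5 : G (k * (M / K)) ≤ G x := hGm hk1
    have a6 : G x ≤ G (((k + 1 : ℕ) : ℝ) * (M / K)) := hGm (by push_cast; exact hk2.le)
    rw [abs_le]
    constructor <;> linarith

end Pool.Agent.J4H39
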