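import Mathlib
import Pool.Agent.J4H39.L2

set_option autoImplicit false

namespace Pool.Agent.J4H39

open Finset Filter Topology

/-! The law for pairs. -/

theorem Erf_lip {a b : ℝ} (hab : a ≤ b) : Erf b - Erf a ≤ 2 * (b - a) := by
  unfold Erf
  have hi : ∀ a b : ℝ, IntervalIntegrable (fun u => Real.exp (-u ^ 2)) MeasureTheory.volume a b := fun a b =>
      (Continuous.intervalIntegrable (by fun_prop) _ _)
  rw [← mul_sub, intervalIntegral.integral_interval_sub_left (hi 0 b) (hi 0 a)]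
  have h1 : ∫ u in a..b, Real.exp (-u ^ 2) ≤ ∫ _ in a..b, (1 : ℝ) := by
    apply intervalIntegral.integral_mono_on hab (hi a b) (by simp)
    intro u _
    rw [Real.exp_le_one_iff]
    have := sq_nonneg u
    linarith
  rw [intervalIntegral.integral_const, smul_eq_mul, mul_one] at h1
  have h2 : 0 ≤ ∫ u in a..b, Real.exp (-u ^ 2) := intervalIntegral.integral_nonneg hab (fun u _ => (Real.exp_pos _).le)
  have hpi : 1 ≤ √ Real.pi := by
    rw [Real.one_le_sqrt]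
    have := Real.pi_gt_three
    linarith
  have h3 : 2 / √ Real.pi ≤ 2 := by
    rw [div_le_iff₀ (by linarith)]
    linarith
  calc 2 / √ Real.pi * ∫ u in a..b, Real.exp (-u ^ 2) ≤ 2 * ∫ u in a..b, Real.exp (-u ^ 2) :=
        mul_le_mul_of_nonneg_right h3 h2
    _ ≤ 2 * (b - a) := mul_le_mul_of_nonneg_left h1 (by norm_num)

/-- the limit of `U (t / 2) d`, for `d ≤ t` -/
theorem U_erf_half {ε : ℝ} (hε : 0 < ε) : ∃ t₀ : ℕ, ∀ t ≥ t₀, ∀ d : ℕ, d ≤ t → |U (t / 2) d - Erf (d / √ t)| ≤ ε := by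
  obtain ⟨q₀, hq₀⟩ := U_erf (show 0 < ε / 2 by positivity)
  have hsm : ∀ᶠ t : ℕ in atTop, (16 : ℝ) / √ t ≤ ε / 2 := by
    have h3 : Tendsto (fun q : ℕ => (16 : ℝ) / √ q) atTop (𝓝 0) :=
      tendsto_const_nhds.div_atTop (Real.tendsto_sqrt_atTop.comp tendsto_natCast_atTop_atTop)
    exact h3.eventually (ge_mem_nhds (by positivity))
  obtain ⟨t₁, ht₁⟩ := eventually_atTop.1 hsm
  refine ⟨max t₁ (2 * q₀ + 4), fun t ht d hd => ?_⟩
  rw [ge_iff_le, max_le_iff] at ht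
  have h1 := hq₀ (t / 2) (by omega) d
  have h2 := ht₁ t ht.1
  set q : ℕ := t / 2 with hq
  have ht4 : (4 : ℝ) ≤ t := by
    have : 4 ≤ t := by omega
    exact_mod_cast this
  have htr : (0 : ℝ) < t := by linarith
  have hq1 : (2 * (q : ℝ)) ≤ t := by
    have : 2 * q ≤ t := by omega
    exact_mod_cast this
  have hq2 : (t : ℝ) - 1 ≤ 2 * q := by
    have : t ≤ 2 * q + 1 := by omega
    have : (t : ℝ) ≤ 2 * q + 1 := by exact_mod_cast this
    linarith
  have hq0 : (0 : ℝ) < 2 * q := by linarith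
  have hs0 : 0 < √ (2 * (q : ℝ)) := Real.sqrt_pos.2 hq0
  have hs1 : 0 < √ (t : ℝ) := Real.sqrt_pos.2 htr
  have hle : √ (2 * (q : ℝ)) ≤ √ t := Real.sqrt_le_sqrt hq1
  have h3 : (d : ℝ) / √ t ≤ d / √ (2 * q) := div_le_div_of_nonneg_left (by positivity) hs0 hle
  have h4 := Erf_lip h3
  have h5 := Erf_mono h3
  have h6 : (d : ℝ) / √ (2 * q) - d / √ t ≤ 4 / √ t := by
    have hdt : (d : ℝ) ≤ t := by exact_mod_cast hd
    have e1 : √ (t : ℝ) * √ t = t := Real.mul_self_sqrt htr.le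
    have e2 : √ (2 * (q : ℝ)) * √ (2 * q) = 2 * q := Real.mul_self_sqrt hq0.le
    rw [div_sub_div _ _ hs0.ne' hs1.ne', div_le_div_iff₀ (mul_pos hs0 hs1) hs1]
    -- (d * √t - √(2q) * d) * √t ≤ 4 * (√(2q) * √t)
    have e3 : (√ (t : ℝ) - √ (2 * q)) * (√ t + √ (2 * q)) ≤ 1 := by
      have : (√ (t : ℝ) - √ (2 * q)) * (√ t + √ (2 * q)) = t - 2 * q := by
        calc (√ (t : ℝ) - √ (2 * q)) * (√ t + √ (2 * q)) = √ t * √ t - √ (2 * q) * √ (2 * q) := by ring
          _ = t - 2 * q := by rw [e1, e2]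
      rw [this]; linarith
    have e4 : (√ (t : ℝ) - √ (2 * q)) * √ t ≤ 1 := by
      have : (√ (t : ℝ) - √ (2 * q)) * √ t ≤ (√ (t : ℝ) - √ (2 * q)) * (√ t + √ (2 * q)) :=
        mul_le_mul_of_nonneg_left (by linarith) (by linarith)
      linarith
    have e5 : √ (t : ℝ) ≤ 2 * √ (2 * q) := by
      have : √ (t : ℝ) ≤ √ (4 * (2 * q)) := Real.sqrt_le_sqrt (by linarith)
      rw [Real.sqrt_mul (by norm_num), show (4 : ℝ) = 2 ^ 2 by norm_num, Real.sqrt_sq (by norm_num)] at this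
      exact this
    calc (d * √ (t : ℝ) - √ (2 * q) * d) * √ t = d * ((√ t - √ (2 * q)) * √ t) := by ring
      _ ≤ d * 1 := mul_le_mul_of_nonneg_left e4 (by positivity)
      _ ≤ t := by linarith
      _ = √ t * √ t := e1.symm
      _ ≤ (2 * √ (2 * q)) * √ t := mul_le_mul_of_nonneg_right e5 hs1.le
      _ ≤ 4 * (√ (2 * q) * √ t) := by nlinarith [mul_pos hs0 hs1]
  have h7 : 2 * (4 / √ (t : ℝ)) ≤ ε / 2 := by
    have e : 2 * (4 / √ (t : ℝ)) = (1 / 2) * (16 / √ t) := by ring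
    rw [e]; linarith
  rw [abs_le] at h1 ⊢
  constructor <;> linarith

end Pool.Agent.J4H39
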