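import Mathlib
import Pool.Agent.J4H39.P1

set_option autoImplicit false

namespace Pool.Agent.J4H39

open Finset Filter Topology
open Pool.Agent.H499R2.CO (q step rho)

/-! Bounds for the offset, towers. -/

theorem rform {s : ℤ × ℤ} {y y' : ℤ} (h : Rel s y y') (t : ℕ) :
    ∃ κ : ℕ, κ ≤ (rn stP t s y).1.toNat + od t y ∧ (2 : ℤ) ^ t * (rn stP t s y).2 = 3 ^ κ * s.2 +
      3 ^ (-(rn stP t s y).1).toNat * rh t y' - 3 ^ (rn stP t s y).1.toNat * rh t y := by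
  obtain ⟨h1, h2⟩ := rel_rn h t
  set D := (rn stP t s y).1 with hD
  refine ⟨(-D).toNat + od t y' - (-s.1).toNat, by omega, ?_⟩
  set κ := (-D).toNat + od t y' - (-s.1).toNat with hκ
  have hk1 : (-D).toNat + od t y' = κ + (-s.1).toNat := by omega
  have hk2 : D.toNat + od t y = κ + s.1.toNat := by omega
  unfold Rel at h h1
  rw [← hD] at h1
  have e1 := iter_eq t y
  have e2 := iter_eq t y'
  have a1 : (2 : ℤ) ^ t * (3 ^ (-D).toNat * T^[t] y') = 3 ^ κ * (3 ^ (-s.1).toNat * y') + 3 ^ (-D).toNat * rh t y' := by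
    rw [show (2 : ℤ) ^ t * (3 ^ (-D).toNat * T^[t] y') = 3 ^ (-D).toNat * (2 ^ t * T^[t] y') by ring, e2, mul_add,
      ← mul_assoc, ← pow_add, hk1, pow_add]
    ring
  have a2 : (2 : ℤ) ^ t * (3 ^ D.toNat * T^[t] y) = 3 ^ κ * (3 ^ s.1.toNat * y) + 3 ^ D.toNat * rh t y := by
    rw [show (2 : ℤ) ^ t * (3 ^ D.toNat * T^[t] y) = 3 ^ D.toNat * (2 ^ t * T^[t] y) by ring, e1, mul_add,
      ← mul_assoc, ← pow_add, hk2, pow_add]
    ring
  rw [h1, mul_add, a2, h] at a1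
  linarith

theorem rbound {s : ℤ × ℤ} {y y' : ℤ} (h : Rel s y y') {t e l K : ℕ} (h1 : 3 ^ od t y * |s.2| ≤ 4 ^ e * 2 ^ t)
    (h2 : rh t y ≤ 4 ^ l * 2 ^ t) (h3 : rh t y' ≤ 4 ^ l * 2 ^ t) (h4 : |(rn stP t s y).1| ≤ K) :
    |(rn stP t s y).2| ≤ 4 ^ (K + e + l + 1) := by
  obtain ⟨κ, hκ, hf⟩ := rform h t
  set D := (rn stP t s y).1 with hD
  set r' := (rn stP t s y).2 with hr'
  have hDK : D.toNat ≤ K ∧ (-D).toNat ≤ K := by
    rw [abs_le] at h4
    omega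
  have a1 : |(3 : ℤ) ^ κ * s.2| ≤ 4 ^ K * (4 ^ e * 2 ^ t) := by
    rw [abs_mul, abs_of_pos (by positivity : (0 : ℤ) < 3 ^ κ)]
    calc (3 : ℤ) ^ κ * |s.2| ≤ 3 ^ (D.toNat + od t y) * |s.2| := by
          apply mul_le_mul_of_nonneg_right _ (abs_nonneg _)
          exact pow_le_pow_right₀ (by norm_num) hκ
      _ = 3 ^ D.toNat * (3 ^ od t y * |s.2|) := by rw [pow_add]; ring
      _ ≤ 4 ^ K * (4 ^ e * 2 ^ t) := by
          apply mul_le_mul _ h1 (by positivity) (by positivity)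
          exact (pow_le_pow_left₀ (by norm_num) (by norm_num) _).trans (pow_le_pow_right₀ (by norm_num) hDK.1)
  have a2 : (0 : ℤ) ≤ 3 ^ (-D).toNat * rh t y' ∧ (3 : ℤ) ^ (-D).toNat * rh t y' ≤ 4 ^ K * (4 ^ l * 2 ^ t) := by
    refine ⟨by positivity, ?_⟩
    apply mul_le_mul _ (by exact_mod_cast h3) (by positivity) (by positivity)
    exact (pow_le_pow_left₀ (by norm_num) (by norm_num) _).trans (pow_le_pow_right₀ (by norm_num) hDK.2)
  have a3 : (0 : ℤ) ≤ 3 ^ D.toNat * rh t y ∧ (3 : ℤ) ^ D.toNat * rh t y ≤ 4 ^ K * (4 ^ l * 2 ^ t) := by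
    refine ⟨by positivity, ?_⟩
    apply mul_le_mul _ (by exact_mod_cast h2) (by positivity) (by positivity)
    exact (pow_le_pow_left₀ (by norm_num) (by norm_num) _).trans (pow_le_pow_right₀ (by norm_num) hDK.1)
  have h4e : (1 : ℤ) ≤ 4 ^ e := one_le_pow₀ (by norm_num)
  have h4l : (1 : ℤ) ≤ 4 ^ l := one_le_pow₀ (by norm_num)
  have h4K : (0 : ℤ) < 4 ^ K := by positivity
  have h2t : (0 : ℤ) < 2 ^ t := by positivity
  have e1 : (4 : ℤ) ^ K * (4 ^ e * 2 ^ t) ≤ 4 ^ K * (4 ^ e * 4 ^ l * 2 ^ t) := by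
    apply mul_le_mul_of_nonneg_left _ h4K.le
    apply mul_le_mul_of_nonneg_right _ h2t.le
    exact le_mul_of_one_le_right (by positivity) h4l
  have e2 : (4 : ℤ) ^ K * (4 ^ l * 2 ^ t) ≤ 4 ^ K * (4 ^ e * 4 ^ l * 2 ^ t) := by
    apply mul_le_mul_of_nonneg_left _ h4K.le
    apply mul_le_mul_of_nonneg_right _ h2t.le
    exact le_mul_of_one_le_left (by positivity) h4e
  rw [abs_le] at a1
  have e3 : (2 : ℤ) ^ t * 4 ^ (K + e + l + 1) = 4 * (4 ^ K * (4 ^ e * 4 ^ l * 2 ^ t)) := by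
    rw [pow_add, pow_add, pow_add]; ring
  have hpos : (0 : ℤ) ≤ 4 ^ K * (4 ^ e * 4 ^ l * 2 ^ t) := by positivity
  rw [abs_le]
  constructor
  · have : (2 : ℤ) ^ t * (-(4 ^ (K + e + l + 1))) ≤ 2 ^ t * r' := by
      rw [mul_neg, e3, hf]; linarith [a1.1, a2.1, a3.2]
    exact le_of_mul_le_mul_left this h2t
  · have : (2 : ℤ) ^ t * r' ≤ 2 ^ t * 4 ^ (K + e + l + 1) := by
      rw [e3, hf]; linarith [a1.2, a2.2, a3.1]
    exact le_of_mul_le_mul_left this h2t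

/-- The tower property for the automaton. -/
theorem tower_rn {S : Type*} (stp : S → ℕ → S) (s : S) (P : S → ℤ → Prop) (j k : ℕ) (hP : ∀ s', Per k (P s')) :
    pb (j + k) (fun y => P (rn stp j s y) (T^[j] y)) = ex j (fun y => pb k (P (rn stp j s y))) := by
  have h := ex_pair j k (fun y z => id1 (P (rn stp j s y) z)) ?_ ?_
  · rw [pb_id1]
    exact h
  · intro z x u
    simp only
    rw [per_rn stp s (le_refl j) x u]
  · intro y x u
    simp only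
    rw [hP (rn stp j s y) x u]

end Pool.Agent.J4H39
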