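import Mathlib
import Pool.Agent.J4H39.P1

set_option autoImplicit false

namespace Pool.Agent.J4H39

open Finset

/-! Domination of the law of a window for the pairs `n`, `3 ^ i n + r`. -/

theorem dom_gen (S : Finset ℕ) (X X' : ℕ → ℤ) (R R' : ℕ → ℕ) (j k L D : ℕ) (E a b : ℤ) (hL : 1 ≤ L)
    (hk : 2 ^ k ≤ 3 ^ D) (hj : 3 ^ D ≤ 2 ^ j) (hE : |E| ≤ 3 ^ D * 2 ^ j)
    (key : ∀ n ∈ S, (2 : ℤ) ^ j * (X' n - 3 ^ D * X n) = E + R' n - 3 ^ D * R n)
    (hR : ∀ n ∈ S, R n ≤ L * 2 ^ j ∧ R' n ≤ L * 2 ^ j)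
    (ha : ∀ n ∈ S, (2 : ℤ) ^ k ∣ X n - a) (hb : ∀ n ∈ S, (2 : ℤ) ^ k ∣ X' n - b)
    (hinj : ∀ n ∈ S, ∀ n' ∈ S, R n = R n' → (2 : ℤ) ^ k ∣ X n - X n' → n = n') :
    (#S : ℝ) ≤ 14 * L ^ 2 * 2 ^ j / 2 ^ k := by
  classical
  have hkr : (2 : ℝ) ^ k ≤ 3 ^ D := by exact_mod_cast hk
  have hjr : (3 : ℝ) ^ D ≤ 2 ^ j := by exact_mod_cast hj
  have hEr : |(E : ℝ)| ≤ 3 ^ D * 2 ^ j := by exact_mod_cast hE
  have hLr : (1 : ℝ) ≤ L := by exact_mod_cast hL
  have h2k : (0 : ℝ) < 2 ^ k := by positivity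
  have h2j : (0 : ℝ) < 2 ^ j := by positivity
  have h3D : (0 : ℝ) < 3 ^ D := by positivity
  set f : ℕ → ℤ := fun n => X' n - 3 ^ D * X n with hf
  have keyr : ∀ n ∈ S, (2 : ℝ) ^ j * f n = E + R' n - 3 ^ D * R n := by
    intro n hn
    have := key n hn
    exact_mod_cast this
  have hrh : ∀ n ∈ S, (R n : ℝ) ≤ L * 2 ^ j ∧ (R' n : ℝ) ≤ L * 2 ^ j := by
    intro n hn
    exact ⟨by exact_mod_cast (hR n hn).1, by exact_mod_cast (hR n hn).2⟩
  have hA : (0 : ℝ) ≤ 2 * L * 2 ^ j / 3 ^ D := by positivity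
  have hB : (7 * 3 ^ D * L / 2 ^ k : ℝ) * (2 * L * 2 ^ j / 3 ^ D) = 14 * L ^ 2 * 2 ^ j / 2 ^ k := by
    field_simp; ring
  rw [← hB]
  apply card_fib S f hA
  · -- fibres
    intro r hr
    set F := ({x ∈ S | f x = r} : Finset ℕ) with hF
    have hinj' : Set.InjOn (fun n : ℕ => ((R n : ℕ) : ℤ)) (F : Set ℕ) := by
      intro n hn n' hn' hnn
      rw [hF, mem_coe, mem_filter] at hn hn'
      simp only [Nat.cast_inj] at hnn
      apply hinj n hn.1 n' hn'.1 hnn
      have := dvd_sub (ha n hn.1) (ha n' hn'.1)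
      rwa [sub_sub_sub_cancel_right] at this
    have hcard : #F = #(F.image (fun n : ℕ => ((R n : ℕ) : ℤ))) := (card_image_of_injOn hinj').symm
    rw [hcard]
    set c : ℝ := (E - 2 ^ j * r) / 3 ^ D with hc
    have h3 := card_ap (S := F.image (fun n : ℕ => ((R n : ℕ) : ℤ))) (α := c) (β := c + L * 2 ^ j / 3 ^ D)
      (by have : (0 : ℝ) ≤ L * 2 ^ j / 3 ^ D := by positivity
          linarith) (M := 1) one_pos ?_ ?_
    · refine h3.trans ?_
      rw [add_sub_cancel_left, Nat.cast_one, div_one]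
      have h4 : (1 : ℝ) ≤ L * 2 ^ j / 3 ^ D := by
        rw [le_div_iff₀ h3D, one_mul]
        nlinarith
      have h5 : (2 * L * 2 ^ j / 3 ^ D : ℝ) = L * 2 ^ j / 3 ^ D + L * 2 ^ j / 3 ^ D := by ring
      rw [h5]; linarith
    · intro x hx
      rw [mem_image] at hx
      obtain ⟨n, hn, rfl⟩ := hx
      rw [hF, mem_filter] at hn
      obtain ⟨hn1, hn2⟩ := hn
      have e1 := keyr n hn1
      rw [hn2] at e1
      obtain ⟨e2, e3⟩ := hrh n hn1
      have e4 : (0 : ℝ) ≤ R' n := by positivity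
      rw [hc, ← add_div, div_le_iff₀ h3D, le_div_iff₀ h3D]
      push_cast
      constructor <;> linarith
    · intro x _ y _; simp
  · -- image
    have h3 := card_ap (S := S.image f) (α := -(3 * 3 ^ D * L)) (β := 3 * 3 ^ D * L)
      (by have : (0 : ℝ) ≤ 3 * 3 ^ D * L := by positivity
          linarith) (M := 2 ^ k) (by positivity) ?_ ?_
    · refine h3.trans ?_
      push_cast
      have h4 : (1 : ℝ) ≤ 3 ^ D * L / 2 ^ k := by
        rw [le_div_iff₀ h2k, one_mul]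
        nlinarith
      have h5 : (7 * 3 ^ D * L / 2 ^ k : ℝ) = (3 * 3 ^ D * L - -(3 * 3 ^ D * L)) / 2 ^ k + 3 ^ D * L / 2 ^ k := by ring
      rw [h5]; linarith
    · intro x hx
      rw [mem_image] at hx
      obtain ⟨n, hn, rfl⟩ := hx
      have e1 := keyr n hn
      obtain ⟨e2, e3⟩ := hrh n hn
      have e4 : (0 : ℝ) ≤ R' n := by positivity
      have e5 : (0 : ℝ) ≤ R n := by positivity
      have e7 : (3 : ℝ) ^ D * R n ≤ 3 ^ D * (L * 2 ^ j) := mul_le_mul_of_nonneg_left e2 h3D.le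
      have e7' : (0 : ℝ) ≤ 3 ^ D * R n := by positivity
      have h3D1 : (1 : ℝ) ≤ 3 ^ D := one_le_pow₀ (by norm_num)
      have e8 : (L : ℝ) * 2 ^ j ≤ 3 ^ D * (L * 2 ^ j) := le_mul_of_one_le_left (by positivity) h3D1
      have e9 : (3 : ℝ) ^ D * 2 ^ j ≤ 3 ^ D * (L * 2 ^ j) :=
        mul_le_mul_of_nonneg_left (le_mul_of_one_le_left h2j.le hLr) h3D.le
      rw [abs_le] at hEr
      have e10 : (2 : ℝ) ^ j * (3 * 3 ^ D * L) = 3 * (3 ^ D * (L * 2 ^ j)) := by ring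
      constructor
      · have : (2 : ℝ) ^ j * (-(3 * 3 ^ D * L)) ≤ 2 ^ j * f n := by
          rw [e1, mul_neg, e10]; linarith [hEr.1]
        exact le_of_mul_le_mul_left this h2j
      · have : (2 : ℝ) ^ j * f n ≤ 2 ^ j * (3 * 3 ^ D * L) := by
          rw [e1, e10]; linarith [hEr.2]
        exact le_of_mul_le_mul_left this h2j
    · intro x hx y hy
      rw [mem_image] at hx hy
      obtain ⟨n, hn, rfl⟩ := hx
      obtain ⟨n', hn', rfl⟩ := hy
      rw [hf]
      push_cast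
      have e1 := dvd_sub (hb n hn) (hb n' hn')
      have e2 := dvd_sub (ha n hn) (ha n' hn')
      rw [sub_sub_sub_cancel_right] at e1 e2
      have e3 := dvd_sub e1 (e2.mul_left (3 ^ D))
      have e4 : X' n - X' n' - 3 ^ D * (X n - X n') = X' n - 3 ^ D * X n - (X' n' - 3 ^ D * X n') := by ring
      rw [← e4]
      exact e3

/-- The partner. -/
def yy (i : ℕ) (r n : ℤ) : ℤ := 3 ^ i * n + r

/-- difference of the exponents -/
def Di (i : ℕ) (r : ℤ) (j : ℕ) (n : ℤ) : ℤ := i + od j (yy i r n) - od j n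

theorem yy_add (i : ℕ) (r n : ℤ) (j : ℕ) (u : ℤ) : yy i r (n + 2 ^ j * u) = yy i r n + 2 ^ j * (3 ^ i * u) := by
  unfold yy; ring

theorem Per.yy {α : Type*} {j : ℕ} {f : ℤ → α} (h : Per j f) (i : ℕ) (r : ℤ) : Per j (fun n => f (yy i r n)) := by
  intro n u
  simp only
  rw [yy_add, h]

theorem per_Di (i : ℕ) (r : ℤ) {j j' : ℕ} (h : j ≤ j') : Per j' (Di i r j) := by
  intro n u
  unfold Di
  have e1 := per_od h n u
  have e2 := ((per_od h).yy i r) n u
  simp only at e2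
  rw [e1, e2]

theorem pb_yy {k : ℕ} {P : ℤ → Prop} (hP : Per k P) (i : ℕ) (r : ℤ) : pb k (fun n => P (yy i r n)) = pb k P :=
  pb_affine hP (pow3_odd i) r

/-- The window of length `k` after time `j` is atypical. -/
def PW (i : ℕ) (r : ℤ) (j k L : ℕ) (δ : ℝ) (n : ℤ) : Prop :=
  rh j n ≤ L * 2 ^ j ∧ rh j (yy i r n) ≤ L * 2 ^ j ∧ 3 ^ od j n * |r| ≤ 2 ^ j ∧
    2 ^ k ≤ 3 ^ (Di i r j n).natAbs ∧ 3 ^ (Di i r j n).natAbs ≤ 2 ^ j ∧
    δ ≤ |2 * (cd k (T^[j] n) (T^[j] (yy i r n)) : ℝ) - k|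

theorem per_PW (i : ℕ) (r : ℤ) (j k L : ℕ) (δ : ℝ) : Per (j + k) (PW i r j k L δ) := by
  intro n u
  unfold PW
  have e1 := per_rh (Nat.le_add_right j k) n u
  have e2 := ((per_rh (Nat.le_add_right j k)).yy i r) n u
  have e3 := per_od (Nat.le_add_right j k) n u
  have e4 := per_Di i r (Nat.le_add_right j k) n u
  have e5 : cd k (T^[j] (n + 2 ^ (j + k) * u)) (T^[j] (yy i r (n + 2 ^ (j + k) * u))) =
      cd k (T^[j] n) (T^[j] (yy i r n)) := by
    rw [yy_add]
    have e1 : n + 2 ^ (j + k) * u = n + 2 ^ j * (2 ^ k * u) := by rw [pow_add]; ring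
    have e2 : yy i r n + 2 ^ (j + k) * (3 ^ i * u) = yy i r n + 2 ^ j * (2 ^ k * (3 ^ i * u)) := by
      rw [pow_add]; ring
    rw [e2, e1, T_add, T_add]
    apply cd_congr
    · exact ⟨3 ^ od j n * u, by ring⟩
    · exact ⟨3 ^ od j (yy i r n) * (3 ^ i * u), by ring⟩
  simp only at e2
  rw [e1, e2, e3, e4, e5]

theorem dvd_of_pow3 {k i : ℕ} {x : ℤ} (h : (2 : ℤ) ^ k ∣ 3 ^ i * x) : (2 : ℤ) ^ k ∣ x :=
  (coprime_pow i k).dvd_of_dvd_mul_left h

theorem pb_PW {j k L : ℕ} (i : ℕ) (r : ℤ) (hL : 1 ≤ L) (hk : 1 ≤ k) {δ : ℝ} (hδ : 0 ≤ δ) :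
    pb (j + k) (PW i r j k L δ) ≤ 28 * (j + 1) ^ 2 * L ^ 2 * Real.exp (-(δ ^ 2 / (2 * k))) := by
  classical
  have h1 : pb (j + k) (PW i r j k L δ) ≤ pb (j + k) (fun n => ∃ p ∈ range (j + 1) ×ˢ range (j + 1),
      PW i r j k L δ n ∧ od j n = p.1 ∧ od j (yy i r n) = p.2) := by
    apply pb_mono
    intro n hn
    refine ⟨(od j n, od j (yy i r n)), ?_, hn, rfl, rfl⟩
    rw [mem_product, mem_range, mem_range]
    have := od_le j n
    have := od_le j (yy i r n)
    constructor <;> simp only <;> omega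
  refine h1.trans ((pb_exists _ _ _).trans ?_)
  have h2 : ∀ p ∈ range (j + 1) ×ˢ range (j + 1), pb (j + k) (fun n => PW i r j k L δ n ∧ od j n = p.1 ∧
      od j (yy i r n) = p.2) ≤ 28 * L ^ 2 * Real.exp (-(δ ^ 2 / (2 * k))) := by
    rintro ⟨o, o'⟩ _
    simp only
    set D : ℤ := i + o' - o with hD
    by_cases hc : 3 ^ o * |r| ≤ 2 ^ j ∧ 2 ^ k ≤ 3 ^ D.natAbs ∧ 3 ^ D.natAbs ≤ 2 ^ j
    · obtain ⟨hh, hk', hj'⟩ := hc
      rw [pb_eq_card]
      set Q := ({p ∈ range (2 ^ k) ×ˢ range (2 ^ k) |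
        δ ≤ |2 * (cd k ((p.1 : ℕ) : ℤ) ((p.2 : ℕ) : ℤ) : ℝ) - k|} : Finset (ℕ × ℕ)) with hQ
      have hQc : (#Q : ℝ) ≤ 2 ^ k * (2 ^ k * (2 * Real.exp (-(δ ^ 2 / (2 * k))))) := card_badpairs hk hδ
      set Sp : ℕ × ℕ → Finset ℕ := fun p => {n ∈ range (2 ^ (j + k)) | rh j ((n : ℕ) : ℤ) ≤ L * 2 ^ j ∧
            rh j (yy i r ((n : ℕ) : ℤ)) ≤ L * 2 ^ j ∧ od j ((n : ℕ) : ℤ) = o ∧ od j (yy i r ((n : ℕ) : ℤ)) = o' ∧
            (2 : ℤ) ^ k ∣ T^[j] ((n : ℕ) : ℤ) - ((p.1 : ℕ) : ℤ) ∧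
            (2 : ℤ) ^ k ∣ T^[j] (yy i r ((n : ℕ) : ℤ)) - ((p.2 : ℕ) : ℤ)} with hSp
      have hsub : ({n ∈ range (2 ^ (j + k)) | PW i r j k L δ ((n : ℕ) : ℤ) ∧ od j ((n : ℕ) : ℤ) = o ∧
          od j (yy i r ((n : ℕ) : ℤ)) = o'} : Finset ℕ) ⊆ Q.biUnion Sp := by
        intro n hn
        rw [mem_filter] at hn
        obtain ⟨hn1, ⟨h1, h2, h3, _, _, h5⟩, ho, ho'⟩ := hn
        rw [mem_biUnion]
        refine ⟨(cl k (T^[j] ((n : ℕ) : ℤ)), cl k (T^[j] (yy i r ((n : ℕ) : ℤ)))), ?_, ?_⟩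
        · rw [hQ, mem_filter, mem_product, mem_range, mem_range]
          refine ⟨⟨cl_lt _ _, cl_lt _ _⟩, ?_⟩
          simp only
          rw [← cd_cl]
          exact h5
        · rw [hSp, mem_filter]
          exact ⟨hn1, h1, h2, ho, ho', cl_dvd _ _, cl_dvd _ _⟩
      have hcard := (card_le_card hsub).trans card_biUnion_le
      have hrange : ∀ n n' : ℕ, n < 2 ^ (j + k) → n' < 2 ^ (j + k) → (2 : ℤ) ^ (j + k) ∣ (n : ℤ) - n' → n = n' := by
        intro n n' hn hn' hd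
        have h1 : (n : ℤ) < 2 ^ (j + k) := by exact_mod_cast hn
        have h1' : (n' : ℤ) < 2 ^ (j + k) := by exact_mod_cast hn'
        have h5 : (n : ℤ) - n' = 0 := by
          apply Int.eq_zero_of_abs_lt_dvd hd
          rw [abs_lt]; constructor <;> omega
        omega
      have hdom : ∀ p ∈ Q, (#(Sp p) : ℝ) ≤ 14 * L ^ 2 * 2 ^ j / 2 ^ k := by
        intro p _
        rcases le_total 0 D with hD0 | hD0
        · -- nonnegative difference
          obtain ⟨D', hD'⟩ := Int.eq_ofNat_of_zero_le hD0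
          have hDn : D.natAbs = D' := by omega
          rw [hDn] at hk' hj'
          have hoo : D' + o = o' + i := by omega
          apply dom_gen (Sp p) (fun n => T^[j] ((n : ℕ) : ℤ)) (fun n => T^[j] (yy i r ((n : ℕ) : ℤ)))
            (fun n => rh j ((n : ℕ) : ℤ)) (fun n => rh j (yy i r ((n : ℕ) : ℤ))) j k L D' (3 ^ o' * r)
            ((p.1 : ℕ) : ℤ) ((p.2 : ℕ) : ℤ) hL hk' hj'
          · rw [abs_mul, abs_of_pos (by positivity : (0 : ℤ) < 3 ^ o')]
            calc (3 : ℤ) ^ o' * |r| ≤ 3 ^ (D' + o) * |r| := by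
                  apply mul_le_mul_of_nonneg_right _ (abs_nonneg r)
                  exact pow_le_pow_right₀ (by norm_num) (by omega)
              _ = 3 ^ D' * (3 ^ o * |r|) := by rw [pow_add]; ring
              _ ≤ 3 ^ D' * 2 ^ j := mul_le_mul_of_nonneg_left hh (by positivity)
          · intro n hn
            rw [hSp, mem_filter] at hn
            obtain ⟨_, _, _, h3, h4, _, _⟩ := hn
            have e1 := iter_eq j ((n : ℕ) : ℤ)
            have e2 := iter_eq j (yy i r ((n : ℕ) : ℤ))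
            rw [h3] at e1
            rw [h4] at e2
            rw [mul_sub, e2, show (2 : ℤ) ^ j * (3 ^ D' * T^[j] ((n : ℕ) : ℤ)) =
              3 ^ D' * (2 ^ j * T^[j] ((n : ℕ) : ℤ)) by ring, e1]
            unfold yy
            have e3 : (3 : ℤ) ^ D' * (3 ^ o * n) = 3 ^ o' * (3 ^ i * n) := by
              rw [← mul_assoc, ← pow_add, hoo, pow_add]; ring
            rw [mul_add (3 ^ D'), e3]; ring
          · intro n hn
            rw [hSp, mem_filter] at hn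
            exact ⟨hn.2.1, hn.2.2.1⟩
          · intro n hn
            rw [hSp, mem_filter] at hn
            exact hn.2.2.2.2.2.1
          · intro n hn
            rw [hSp, mem_filter] at hn
            exact hn.2.2.2.2.2.2
          · intro n hn n' hn' hrr hx
            rw [hSp, mem_filter, mem_range] at hn hn'
            have e1 := inj_mod (j := j) (x := (n : ℕ)) (y := (n' : ℕ)) (by rw [hn.2.2.2.1, hn'.2.2.2.1]) hrr
            exact hrange n n' hn.1 hn'.1 (inj_mod2 e1 hx)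
        · -- nonpositive difference
          obtain ⟨D', hD'⟩ := Int.eq_ofNat_of_zero_le (show 0 ≤ -D by omega)
          have hDn : D.natAbs = D' := by omega
          rw [hDn] at hk' hj'
          have hoo : D' + o' + i = o := by omega
          apply dom_gen (Sp p) (fun n => T^[j] (yy i r ((n : ℕ) : ℤ))) (fun n => T^[j] ((n : ℕ) : ℤ))
            (fun n => rh j (yy i r ((n : ℕ) : ℤ))) (fun n => rh j ((n : ℕ) : ℤ)) j k L D' (-(3 ^ (D' + o') * r))
            ((p.2 : ℕ) : ℤ) ((p.1 : ℕ) : ℤ) hL hk' hj'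
          · rw [abs_neg, abs_mul, abs_of_pos (by positivity : (0 : ℤ) < 3 ^ (D' + o'))]
            have h3D : (1 : ℤ) ≤ 3 ^ D' := one_le_pow₀ (by norm_num)
            calc (3 : ℤ) ^ (D' + o') * |r| ≤ 3 ^ o * |r| := by
                  apply mul_le_mul_of_nonneg_right _ (abs_nonneg r)
                  exact pow_le_pow_right₀ (by norm_num) (by omega)
              _ ≤ 2 ^ j := hh
              _ ≤ 3 ^ D' * 2 ^ j := le_mul_of_one_le_left (by positivity) h3D
          · intro n hn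
            rw [hSp, mem_filter] at hn
            obtain ⟨_, _, _, h3, h4, _, _⟩ := hn
            have e1 := iter_eq j ((n : ℕ) : ℤ)
            have e2 := iter_eq j (yy i r ((n : ℕ) : ℤ))
            rw [h3] at e1
            rw [h4] at e2
            rw [mul_sub, e1, show (2 : ℤ) ^ j * (3 ^ D' * T^[j] (yy i r ((n : ℕ) : ℤ))) =
              3 ^ D' * (2 ^ j * T^[j] (yy i r ((n : ℕ) : ℤ))) by ring, e2]
            have e3 : (3 : ℤ) ^ D' * (3 ^ o' * yy i r n) = 3 ^ o * n + 3 ^ (D' + o') * r := by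
              unfold yy
              rw [← hoo, pow_add, pow_add]; ring
            rw [mul_add (3 ^ D'), e3]; ring
          · intro n hn
            rw [hSp, mem_filter] at hn
            exact ⟨hn.2.2.1, hn.2.1⟩
          · intro n hn
            rw [hSp, mem_filter] at hn
            exact hn.2.2.2.2.2.2
          · intro n hn
            rw [hSp, mem_filter] at hn
            exact hn.2.2.2.2.2.1
          · intro n hn n' hn' hrr hx
            rw [hSp, mem_filter, mem_range] at hn hn'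
            have e1 := inj_mod (j := j) (x := yy i r ((n : ℕ) : ℤ)) (y := yy i r ((n' : ℕ) : ℤ))
              (by rw [hn.2.2.2.2.1, hn'.2.2.2.2.1]) hrr
            have e2 := inj_mod2 e1 hx
            have e3 : yy i r ((n : ℕ) : ℤ) - yy i r ((n' : ℕ) : ℤ) = 3 ^ i * ((n : ℤ) - n') := by unfold yy; ring
            rw [e3] at e2
            exact hrange n n' hn.1 hn'.1 (dvd_of_pow3 e2)
      have hcardr : (#({n ∈ range (2 ^ (j + k)) | PW i r j k L δ ((n : ℕ) : ℤ) ∧ od j ((n : ℕ) : ℤ) = o ∧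
          od j (yy i r ((n : ℕ) : ℤ)) = o'} : Finset ℕ) : ℝ) ≤ ∑ p ∈ Q, (14 * L ^ 2 * 2 ^ j / 2 ^ k : ℝ) := by
        refine (Nat.cast_le.2 hcard).trans ?_
        push_cast
        exact sum_le_sum hdom
      rw [sum_const, nsmul_eq_mul] at hcardr
      rw [div_le_iff₀ (by positivity)]
      refine le_trans ?_ (hcardr.trans ?_)
      · apply le_of_eq; congr!
      · calc (#Q : ℝ) * (14 * L ^ 2 * 2 ^ j / 2 ^ k) ≤
            (2 ^ k * (2 ^ k * (2 * Real.exp (-(δ ^ 2 / (2 * k)))))) * (14 * L ^ 2 * 2 ^ j / 2 ^ k) :=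
              mul_le_mul_of_nonneg_right hQc (by positivity)
          _ = 28 * L ^ 2 * Real.exp (-(δ ^ 2 / (2 * k))) * 2 ^ (j + k) := by
              rw [pow_add]; field_simp; ring
    · have : pb (j + k) (fun n => PW i r j k L δ n ∧ od j n = o ∧ od j (yy i r n) = o') ≤
          ex (j + k) (fun _ => (0 : ℝ)) := by
        unfold pb
        apply ex_mono
        intro x
        rw [if_neg]
        rintro ⟨⟨_, _, h3, h4, h5, _⟩, h1, h2⟩
        apply hc
        unfold Di at h4 h5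
        rw [h1, h2] at h4 h5
        rw [h1] at h3
        exact ⟨h3, h4, h5⟩
      rw [ex_const] at this
      refine this.trans ?_
      positivity
  refine (sum_le_sum h2).trans (le_of_eq ?_)
  rw [sum_const, card_product, card_range, nsmul_eq_mul]
  push_cast
  ring

end Pool.Agent.J4H39
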