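import Mathlib
import Pool.Agent.J4H39.V1
import Pool.Agent.J4H39.B2

set_option autoImplicit false

namespace Pool.Agent.J4H39

open Finset

/-! Optional stopping for the pair automaton. -/

/-- the clock -/
def ck : ℕ → ℤ × ℤ → ℤ → ℕ
  | 0, _, _ => 0
  | j + 1, s, y => ck j s y + (if (rn stP j s y).2 % 2 = 0 then 0 else 1)

theorem ck_succ (j : ℕ) (s : ℤ × ℤ) (y : ℤ) : ck (j + 1) s y = ck j s y + (if (rn stP j s y).2 % 2 = 0 then 0 else 1) := rfl

theorem ck_rel {s : ℤ × ℤ} {y y' : ℤ} (h : Rel s y y') (j : ℕ) : ck j s y = cd j y y' := by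
  induction j with
  | zero => rfl
  | succ j ih =>
    rw [ck_succ, cd_succ, ih]
    congr 1
    obtain ⟨h1, _⟩ := rel_rn h j
    have h2 := rel_par h1
    rw [pr_iter, pr_iter, add_zero] at h2
    have h3 := pr_le j y
    have h4 := pr_le j y'
    by_cases h5 : (rn stP j s y).2 % 2 = 0
    · rw [if_pos h5, if_pos]; omega
    · rw [if_neg h5, if_neg]; omega

theorem ck_mono (s : ℤ × ℤ) (y : ℤ) {i j : ℕ} (h : i ≤ j) : ck i s y ≤ ck j s y := by
  induction j, h using Nat.le_induction with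
  | base => exact le_rfl
  | succ j _ ih => rw [ck_succ]; omega

theorem ck_le_add (s : ℤ × ℤ) (y : ℤ) {i j : ℕ} (h : i ≤ j) : ck j s y ≤ ck i s y + (j - i) := by
  induction j, h using Nat.le_induction with
  | base => omega
  | succ j h ih => rw [ck_succ]; split_ifs <;> omega

theorem per_ck (s : ℤ × ℤ) {i j : ℕ} (h : i ≤ j) : Per j (ck i s) := by
  induction i with
  | zero => intro x u; rfl
  | succ i ih =>
    intro x u
    rw [ck_succ, ck_succ, ih (by omega) x u, per_rn stP s (by omega : i ≤ j) x u]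

/-- The martingale. -/
noncomputable def MM (m mt : ℕ) (s : ℤ × ℤ) (j : ℕ) (n : ℤ) : ℝ := F m (mt - ck j s n) (rn stP j s n).1

theorem per_MM (m mt : ℕ) (s : ℤ × ℤ) {i j : ℕ} (hij : i ≤ j) : Per j (MM m mt s i) := by
  intro n u
  unfold MM
  rw [per_ck s hij n u, per_rn stP s hij n u]

theorem stP_even {s : ℤ × ℤ} (h : s.2 % 2 = 0) {p : ℕ} (hp : p ≤ 1) : (stP s p).1 = s.1 := by
  unfold stP
  simp only
  have : ((p : ℤ) + s.2) % 2 = p := by omega
  rw [this]; ring

theorem stP_odd0 {s : ℤ × ℤ} (h : ¬ s.2 % 2 = 0) : (stP s 0).1 = s.1 + 1 := by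
  unfold stP
  simp only
  have : (((0 : ℕ) : ℤ) + s.2) % 2 = 1 := by push_cast; omega
  rw [this]; push_cast; ring

theorem stP_odd1 {s : ℤ × ℤ} (h : ¬ s.2 % 2 = 0) : (stP s 1).1 = s.1 - 1 := by
  unfold stP
  simp only
  have : (((1 : ℕ) : ℤ) + s.2) % 2 = 0 := by push_cast; omega
  rw [this]; push_cast; ring

theorem rn_flip {S : Type*} (stp : S → ℕ → S) (s : S) (j : ℕ) (n : ℤ) : rn stp j s (n + 2 ^ j) = rn stp j s n := by
  have := per_rn stp s (le_refl j) n 1
  rwa [mul_one] at this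

theorem MM_step {m mt : ℕ} {s : ℤ × ℤ} {j : ℕ} {n : ℤ} (h1 : ck j s n < mt)
    (h2 : ¬ ((rn stP j s n).1 = 0 ∧ mt - ck j s n ≤ m)) :
    MM m mt s (j + 1) n + MM m mt s (j + 1) (n + 2 ^ j) = 2 * MM m mt s j n := by
  have e1 : ck j s (n + 2 ^ j) = ck j s n := by
    have := per_ck s (le_refl j) n 1
    rwa [mul_one] at this
  have e2 := rn_flip stP s j n
  have e4 : pr j (n + 2 ^ j) = 1 - pr j n := pr_flip j n
  unfold MM
  rw [ck_succ, ck_succ, rn, rn, e1, e2, e4]
  set D := (rn stP j s n).1 with hD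
  set q := mt - ck j s n with hq
  obtain ⟨q', hq'⟩ : ∃ q', q = q' + 1 := ⟨q - 1, by omega⟩
  have hr := F_rec (m := m) (q := q') (d := D) (by rw [← hq']; exact h2)
  by_cases hpar : (rn stP j s n).2 % 2 = 0
  · rw [if_pos hpar, add_zero, ← hq, stP_even hpar (pr_le j n), stP_even hpar (by omega)]
    ring
  · rw [if_neg hpar]
    have e6 : mt - (ck j s n + 1) = q' := by omega
    rw [e6, hq', hr]
    rcases pr_cases j n with ⟨a, _⟩ | ⟨a, _⟩
    · rw [a, stP_odd0 hpar, Nat.sub_zero, stP_odd1 hpar]; ring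
    · rw [a, Nat.sub_self, stP_odd0 hpar, stP_odd1 hpar]; ring

open Classical in
/-- The stopped process. -/
noncomputable def XX (m mt : ℕ) (s : ℤ × ℤ) (st : ℕ → ℤ → Prop) : ℕ → ℤ → ℝ
  | 0, n => MM m mt s 0 n
  | j + 1, n => if ∃ i ≤ j, st i n then XX m mt s st j n else MM m mt s (j + 1) n

theorem per_XX (m mt : ℕ) (s : ℤ × ℤ) {st : ℕ → ℤ → Prop} (hst : ∀ i, Per i (st i)) (j : ℕ) :
    Per j (XX m mt s st j) := by
  induction j with
  | zero => exact per_MM m mt s le_rfl
  | succ j ih =>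
    intro n u
    have e1 : (∃ i ≤ j, st i (n + 2 ^ (j + 1) * u)) ↔ (∃ i ≤ j, st i n) := by
      apply exists_congr
      intro i
      apply and_congr_right
      intro hi
      rw [((hst i).mono (show i ≤ j + 1 by omega)) n u]
    have e2 := (ih.mono (Nat.le_succ j)) n u
    have e3 := per_MM m mt s (le_refl (j + 1)) n u
    unfold XX
    rw [e2, e3]
    by_cases hs : ∃ i ≤ j, st i n
    · rw [if_pos hs, if_pos (e1.2 hs)]
    · rw [if_neg hs, if_neg (fun hh => hs (e1.1 hh))]

theorem XX_bd (m mt : ℕ) (s : ℤ × ℤ) (st : ℕ → ℤ → Prop) (j : ℕ) (n : ℤ) :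
    0 ≤ XX m mt s st j n ∧ XX m mt s st j n ≤ 1 := by
  induction j with
  | zero => exact F_bd _ _ _
  | succ j ih =>
    unfold XX
    split_ifs
    · exact ih
    · exact F_bd _ _ _

theorem XX_run {m mt : ℕ} {s : ℤ × ℤ} {st : ℕ → ℤ → Prop} {j : ℕ} {n : ℤ} (hn : ∀ i < j, ¬ st i n) :
    XX m mt s st j n = MM m mt s j n := by
  cases j with
  | zero => rfl
  | succ j =>
    unfold XX
    rw [if_neg]
    rintro ⟨i, hi, h⟩
    exact hn i (by omega) h

theorem XX_stop {m mt : ℕ} {s : ℤ × ℤ} {st : ℕ → ℤ → Prop} {i : ℕ} {n : ℤ} (hn : ∀ i' < i, ¬ st i' n) (hi : st i n)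
    {j : ℕ} (hij : i ≤ j) : XX m mt s st j n = MM m mt s i n := by
  induction j, hij using Nat.le_induction with
  | base => exact XX_run hn
  | succ j hij ih =>
    unfold XX
    rw [if_pos ⟨i, hij, hi⟩, ih]

theorem MM_zero (m mt : ℕ) (s : ℤ × ℤ) (n : ℤ) : MM m mt s 0 n = F m mt s.1 := by
  unfold MM
  simp [rn, ck]

/-- Optional stopping. -/
theorem ex_XX {m mt : ℕ} {s : ℤ × ℤ} {st : ℕ → ℤ → Prop} (hst : ∀ i, Per i (st i))
    (hreg : ∀ j n, ¬ st j n → ck j s n < mt ∧ ¬ ((rn stP j s n).1 = 0 ∧ mt - ck j s n ≤ m)) (j : ℕ) :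
    ex j (XX m mt s st j) = F m mt s.1 := by
  induction j with
  | zero => rw [ex_zero]; exact MM_zero _ _ _ _
  | succ j ih =>
    rw [ex_succ, ← ih]
    apply ex_congr
    intro n
    have e1 : (∃ i ≤ j, st i (n + 2 ^ j)) ↔ (∃ i ≤ j, st i n) := by
      apply exists_congr
      intro i
      apply and_congr_right
      intro hi
      have := ((hst i).mono hi) n 1
      rw [mul_one] at this
      rw [this]
    have e2 : XX m mt s st j (n + 2 ^ j) = XX m mt s st j n := by
      have := per_XX m mt s hst j n 1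
      rwa [mul_one] at this
    by_cases hs : ∃ i ≤ j, st i n
    · have a1 : XX m mt s st (j + 1) n = XX m mt s st j n := by
        conv_lhs => unfold XX
        rw [if_pos hs]
      have a2 : XX m mt s st (j + 1) (n + 2 ^ j) = XX m mt s st j (n + 2 ^ j) := by
        conv_lhs => unfold XX
        rw [if_pos (e1.2 hs)]
      rw [a1, a2, e2]; ring
    · have a1 : XX m mt s st (j + 1) n = MM m mt s (j + 1) n := by
        conv_lhs => unfold XX
        rw [if_neg hs]
      have a2 : XX m mt s st (j + 1) (n + 2 ^ j) = MM m mt s (j + 1) (n + 2 ^ j) := by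
        conv_lhs => unfold XX
        rw [if_neg (fun hh => hs (e1.1 hh))]
      have a3 : XX m mt s st j n = MM m mt s j n := XX_run (fun i hi hh => hs ⟨i, hi.le, hh⟩)
      obtain ⟨b1, b2⟩ := hreg j n (fun hh => hs ⟨j, le_rfl, hh⟩)
      rw [a1, a2, a3, MM_step b1 b2]; ring

/-- Upper bound for the probability of having no visit near `0`. -/
theorem ub_FF (s : ℤ × ℤ) (s0 t : ℕ) (K : ℕ) (m mt : ℕ) :
    pb t (fun n => mt ≤ ck t s n ∧ ck s0 s n < mt - m ∧ ∀ j, s0 ≤ j → j ≤ t → (K : ℤ) < |(rn stP j s n).1|) ≤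
      F m mt s.1 := by
  set st : ℕ → ℤ → Prop := fun j n => mt ≤ ck j s n ∨ ((rn stP j s n).1 = 0 ∧ mt - ck j s n ≤ m) with hst
  have hper : ∀ i, Per i (st i) := by
    intro i n u
    rw [hst]; simp only
    rw [per_rn stP s le_rfl n u, per_ck s le_rfl n u]
  have hreg : ∀ j n, ¬ st j n → ck j s n < mt ∧ ¬ ((rn stP j s n).1 = 0 ∧ mt - ck j s n ≤ m) := by
    intro j n hn
    rw [hst] at hn
    simp only [not_or] at hn
    exact ⟨by omega, hn.2⟩
  rw [← ex_XX hper hreg t]
  unfold pb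
  apply ex_mono
  intro n
  split_ifs with hn
  · obtain ⟨h1, h2, h3⟩ := hn
    obtain ⟨i, hi, hsti, hmin⟩ := exists_first (P := fun i => st i n) (t := t) ⟨t, le_rfl, Or.inl h1⟩
    rw [XX_stop hmin hsti hi]
    have his : mt - m ≤ ck i s n → s0 ≤ i := by
      intro hh
      by_contra hcon
      have := ck_mono s n (show i ≤ s0 by omega)
      omega
    rcases hsti with hs1 | ⟨hs1, hs2⟩
    · have := h3 i (his (by omega)) hi
      unfold MM
      rw [show mt - ck i s n = 0 by omega]
      unfold F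
      rw [if_neg]
      intro h0
      rw [h0] at this
      simp at this
      omega
    · have := h3 i (his (by omega)) hi
      rw [hs1] at this
      simp at this
      omega
  · exact (XX_bd _ _ _ _ _ _).1

/-- Lower bound for the probability of having no visit near `0`. -/
theorem lb_FF (s : ℤ × ℤ) (s0 t : ℕ) (K : ℕ) (mt : ℕ) {q0 : ℕ} (hq0 : 1 ≤ q0) (hst' : s0 ≤ t) :
    U mt s.1 ≤ pb t (fun n => ∀ j, s0 ≤ j → j ≤ t → (K : ℤ) < |(rn stP j s n).1|) +
      pb t (fun n => ¬ (∀ j, s0 ≤ j → j ≤ t → (∀ i, s0 ≤ i → i < j → (K : ℤ) < |(rn stP i s n).1|) →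
        ck j s n + q0 ≤ mt)) +
      2 * K / √ q0 := by
  set st : ℕ → ℤ → Prop := fun j n => mt ≤ ck j s n ∨ ((rn stP j s n).1 = 0 ∧ mt - ck j s n ≤ mt) ∨
    (s0 ≤ j ∧ |(rn stP j s n).1| ≤ K) with hst
  have hper : ∀ i, Per i (st i) := by
    intro i n u
    rw [hst]; simp only
    rw [per_rn stP s le_rfl n u, per_ck s le_rfl n u]
  have hreg : ∀ j n, ¬ st j n → ck j s n < mt ∧ ¬ ((rn stP j s n).1 = 0 ∧ mt - ck j s n ≤ mt) := by
    intro j n hn
    rw [hst] at hn
    simp only [not_or] at hn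
    exact ⟨by omega, hn.2.1⟩
  rw [← F_eq_U (le_refl mt), ← ex_XX hper hreg t]
  have hc : (2 * K / √ q0 : ℝ) = ex t (fun _ => (2 * K / √ q0 : ℝ)) := (ex_const _ _).symm
  have hc0 : (0 : ℝ) ≤ 2 * K / √ q0 := by positivity
  rw [hc]
  unfold pb
  rw [← ex_add, ← ex_add]
  apply ex_mono
  intro n
  have hX := XX_bd mt mt s st t n
  split_ifs with h1 h2 h2
  · linarith
  · linarith
  · linarith
  · push Not at h1
    push Not at h2
    obtain ⟨j, hj1, hj2, hj3⟩ := h1
    obtain ⟨i, hi, hsti, hmin⟩ := exists_first (P := fun i => st i n) (t := t)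
      ⟨j, hj2, Or.inr (Or.inr ⟨hj1, hj3⟩)⟩
    rw [XX_stop hmin hsti hi]
    rw [zero_add, zero_add]
    have hbef : ∀ i', s0 ≤ i' → i' < i → (K : ℤ) < |(rn stP i' s n).1| := by
      intro i' h4 h5
      have h6 := hmin i' h5
      rw [hst] at h6
      simp only [not_or, not_and, not_le] at h6
      exact h6.2.2 h4
    have hAs : ck s0 s n + q0 ≤ mt := h2 s0 le_rfl hst' (fun i h4 h5 => by omega)
    have hlt : ck i s n + q0 ≤ mt := by
      rcases le_total s0 i with h4 | h4
      · exact h2 i h4 hi hbef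
      · have := ck_mono s n h4
        omega
    rcases hsti with hs1 | ⟨hs1, hs2⟩ | ⟨hs1, hs2⟩
    · omega
    · unfold MM
      rw [hs1, F_zero hs2]; exact hc0
    · unfold MM
      have h5 := ck_mono s n hs1
      rw [F_eq_U (by omega)]
      have h6 : U (mt - ck i s n) (rn stP i s n).1 ≤ U q0 (rn stP i s n).1 := U_antitone _ (by omega)
      refine h6.trans ((U_bound hq0 _).trans ?_)
      have h7 : |(((rn stP i s n).1 : ℤ) : ℝ)| ≤ K := by exact_mod_cast hs2
      gcongr

/-- The decomposition according to the first visit of `A`. -/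
theorem hit_rn (s : ℤ × ℤ) (A : ℕ → ℤ × ℤ → Prop) {t' t : ℕ} {Q : ℝ} (hQ0 : 0 ≤ Q) (ht : t' < t)
    (hQ : ∀ j ≤ t', ∀ s', A j s' → ns (t - j) s' ≤ Q) :
    pb t (fun n => (∃ j, j ≤ t' ∧ A j (rn stP j s n)) ∧ rn stP t s n ≠ (0, 0)) ≤ Q := by
  have key : ∀ i : ℕ, i ≤ t' + 1 → pb t (fun n => (∃ j, j < i ∧ A j (rn stP j s n)) ∧ rn stP t s n ≠ (0, 0)) ≤
      Q * pb t (fun n => ∃ j, j < i ∧ A j (rn stP j s n)) := by
    intro i
    induction i with
    | zero =>
      intro _
      have : pb t (fun n => (∃ j, j < 0 ∧ A j (rn stP j s n)) ∧ rn stP t s n ≠ (0, 0)) ≤ ex t (fun _ => (0 : ℝ)) := by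
        unfold pb
        apply ex_mono
        intro n
        rw [if_neg]
        rintro ⟨⟨j, h2, _⟩, _⟩
        omega
      rw [ex_const] at this
      exact this.trans (mul_nonneg hQ0 (pb_nonneg _ _))
    | succ i ih =>
      intro hi
      -- the new event
      set N : ℤ → Prop := fun n => (¬ ∃ j, j < i ∧ A j (rn stP j s n)) ∧ A i (rn stP i s n) with hN
      have hNper : Per i N := by
        intro n u
        rw [hN]; simp only
        have e1 : (∃ j, j < i ∧ A j (rn stP j s (n + 2 ^ i * u))) = (∃ j, j < i ∧ A j (rn stP j s n)) := by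
          apply propext
          apply exists_congr
          intro j
          apply and_congr_right
          intro hj
          rw [per_rn stP s hj.le n u]
        rw [e1, per_rn stP s le_rfl n u]
      have h1 : pb t (fun n => (∃ j, j < i + 1 ∧ A j (rn stP j s n)) ∧ rn stP t s n ≠ (0, 0)) ≤
          pb t (fun n => (∃ j, j < i ∧ A j (rn stP j s n)) ∧ rn stP t s n ≠ (0, 0)) +
          pb t (fun n => N n ∧ rn stP t s n ≠ (0, 0)) := by
        refine le_trans (pb_mono ?_) (pb_or _ _ _)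
        rintro n ⟨⟨j, h2, h3⟩, h4⟩
        by_cases hex : ∃ j, j < i ∧ A j (rn stP j s n)
        · exact Or.inl ⟨hex, h4⟩
        · right
          have : j = i := by
            by_contra hne
            exact hex ⟨j, by omega, h3⟩
          subst this
          exact ⟨⟨hex, h3⟩, h4⟩
      have h2 : pb t (fun n => N n ∧ rn stP t s n ≠ (0, 0)) ≤ Q * pb t N := by
        obtain ⟨k, rfl⟩ := Nat.exists_eq_add_of_le (show i ≤ t by omega)
        rw [pb_per (by omega : i ≤ i + k) hNper]
        have h5 := ex_pair i k (fun y z => id1 (N y ∧ rn stP k (rn stP i s y) z ≠ (0, 0))) ?_ ?_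
        · have h6 : pb (i + k) (fun n => N n ∧ rn stP (i + k) s n ≠ (0, 0)) =
              ex (i + k) (fun y => id1 (N y ∧ rn stP k (rn stP i s y) (T^[i] y) ≠ (0, 0))) := by
            rw [pb_id1]
            apply ex_congr
            intro y
            rw [rn_comp]
          rw [h6, h5, pb_id1, ← ex_mul]
          apply ex_mono
          intro n
          by_cases hn : N n
          · rw [id1_pos hn, mul_one]
            have h7 := hQ i (by omega) _ hn.2
            rw [Nat.add_sub_cancel_left] at h7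
            refine le_trans ?_ h7
            unfold ns
            rw [pb_id1]
            apply ex_mono
            intro z
            exact id1_mono (fun h => h.2)
          · rw [id1_neg hn, mul_zero]
            have : ex k (fun _ => (0 : ℝ)) = 0 := ex_const _ _
            refine le_trans (ex_mono (g := fun _ => (0 : ℝ)) ?_) this.le
            intro u
            rw [id1_neg (fun hh => hn hh.1)]
        · intro z x u
          simp only
          rw [hNper x u, per_rn stP s (le_refl i) x u]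
        · intro y x u
          simp only
          rw [per_rn stP _ (le_refl k) x u]
      have h3 : pb t (fun n => ∃ j, j < i ∧ A j (rn stP j s n)) + pb t N ≤
          pb t (fun n => ∃ j, j < i + 1 ∧ A j (rn stP j s n)) := by
        apply pb_disj
        · rintro n ⟨j, h2, h3⟩
          exact ⟨j, by omega, h3⟩
        · rintro n ⟨_, h2⟩
          exact ⟨i, by omega, h2⟩
        · intro n h1 h2
          exact h2.1 h1
      have h4 := ih (by omega)
      calc _ ≤ _ := h1
        _ ≤ Q * pb t (fun n => ∃ j, j < i ∧ A j (rn stP j s n)) + Q * pb t N := add_le_add h4 h2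
        _ = Q * (pb t (fun n => ∃ j, j < i ∧ A j (rn stP j s n)) + pb t N) := by ring
        _ ≤ _ := mul_le_mul_of_nonneg_left h3 hQ0
  have h5 := key (t' + 1) le_rfl
  have h6 := pb_le_one t (fun n => ∃ j, j < t' + 1 ∧ A j (rn stP j s n))
  refine le_trans (pb_mono ?_) (h5.trans ?_)
  · rintro n ⟨⟨j, h2, h3⟩, h4⟩
    exact ⟨⟨j, by omega, h3⟩, h4⟩
  · calc _ ≤ Q * 1 := mul_le_mul_of_nonneg_left h6 hQ0
      _ = Q := mul_one Q

end Pool.Agent.J4H39
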