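import Mathlib
import Pool.Agent.J4H39.W4

set_option autoImplicit false

namespace Pool.Agent.J4H39

open Finset

/-! Windows in the early phase: average over the shift `h`. -/

open Classical in
theorem dom_early (n : ℤ) (H j k L o : ℕ) (b : ℤ) (h1 : 2 ^ j * 2 ^ k ≤ 3 ^ o * H)
    (h2 : 2 ^ j * L ≤ 3 ^ o * H) (h3 : 3 ^ o ≤ L * 2 ^ j) :
    (#{h ∈ Icc 1 H | rh j (n + (h : ℕ)) ≤ L * 2 ^ j ∧ od j (n + (h : ℕ)) = o ∧
      (2 : ℤ) ^ k ∣ T^[j] (n + (h : ℕ)) - b} : ℝ) ≤ 6 * L * H / 2 ^ k := by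
  set S := ({h ∈ Icc 1 H | rh j (n + (h : ℕ)) ≤ L * 2 ^ j ∧ od j (n + (h : ℕ)) = o ∧
      (2 : ℤ) ^ k ∣ T^[j] (n + (h : ℕ)) - b} : Finset ℕ) with hS
  have h1r : (2 : ℝ) ^ j * 2 ^ k ≤ 3 ^ o * H := by exact_mod_cast h1
  have h2r : (2 : ℝ) ^ j * L ≤ 3 ^ o * H := by exact_mod_cast h2
  have h3r : (3 : ℝ) ^ o ≤ L * 2 ^ j := by exact_mod_cast h3
  have h2k : (0 : ℝ) < 2 ^ k := by positivity
  have h2j : (0 : ℝ) < 2 ^ j := by positivity
  have h3o : (0 : ℝ) < 3 ^ o := by positivity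
  have hH0 : (0 : ℝ) ≤ H := by positivity
  set f : ℕ → ℤ := fun h => T^[j] (n + (h : ℕ)) with hf
  have key : ∀ h ∈ S, (2 : ℝ) ^ j * f h = 3 ^ o * (n + h) + rh j (n + (h : ℕ)) := by
    intro h hh
    rw [hS, mem_filter] at hh
    have e := iter_eq j (n + (h : ℕ))
    rw [hh.2.2.1] at e
    exact_mod_cast e
  have hrh : ∀ h ∈ S, (rh j (n + (h : ℕ)) : ℝ) ≤ L * 2 ^ j := by
    intro h hh
    rw [hS, mem_filter] at hh
    exact_mod_cast hh.2.1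
  have hB : (3 * (3 ^ o * H) / (2 ^ j * 2 ^ k) : ℝ) * (2 * L * 2 ^ j / 3 ^ o) = 6 * L * H / 2 ^ k := by
    field_simp; ring
  rw [← hB]
  apply card_fib S f (by positivity)
  · intro v hv
    set F := ({x ∈ S | f x = v} : Finset ℕ) with hF
    have hinj : Set.InjOn (fun h : ℕ => (h : ℤ)) (F : Set ℕ) := fun a _ b _ hab => by
      simpa using hab
    have hcard : #F = #(F.image (fun h : ℕ => (h : ℤ))) := (card_image_of_injOn hinj).symm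
    rw [hcard]
    set c : ℝ := (2 ^ j * v - L * 2 ^ j) / 3 ^ o - n with hc
    have h4 := card_ap (S := F.image (fun h : ℕ => (h : ℤ))) (α := c) (β := c + L * 2 ^ j / 3 ^ o)
      (by have : (0 : ℝ) ≤ L * 2 ^ j / 3 ^ o := by positivity
          linarith) (M := 1) one_pos ?_ ?_
    · refine h4.trans ?_
      rw [add_sub_cancel_left, Nat.cast_one, div_one]
      have h4 : (1 : ℝ) ≤ L * 2 ^ j / 3 ^ o := by
        rw [le_div_iff₀ h3o, one_mul]; exact h3r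
      have h5 : (2 * L * 2 ^ j / 3 ^ o : ℝ) = L * 2 ^ j / 3 ^ o + L * 2 ^ j / 3 ^ o := by ring
      rw [h5]; linarith
    · intro x hx
      rw [mem_image] at hx
      obtain ⟨h, hh, rfl⟩ := hx
      rw [hF, mem_filter] at hh
      obtain ⟨hh1, hh2⟩ := hh
      have e1 := key h hh1
      rw [hh2] at e1
      have e2 := hrh h hh1
      have e4 : (0 : ℝ) ≤ rh j (n + (h : ℕ)) := by positivity
      have e5 : (2 ^ j * v - L * 2 ^ j) / 3 ^ o ≤ (n : ℝ) + h := by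
        rw [div_le_iff₀ h3o]; linarith
      have e6 : (n : ℝ) + h ≤ (2 ^ j * v - L * 2 ^ j) / 3 ^ o + L * 2 ^ j / 3 ^ o := by
        rw [← add_div, le_div_iff₀ h3o]; linarith
      rw [hc]
      push_cast
      constructor <;> linarith
    · intro x _ y _; simp
  · have hlen : ((3 ^ o * (n + H) + L * 2 ^ j) / 2 ^ j - 3 ^ o * n / 2 ^ j : ℝ) = 3 ^ o * H / 2 ^ j + L := by
      field_simp; ring
    have h4 := card_ap (S := S.image f) (α := 3 ^ o * n / 2 ^ j) (β := (3 ^ o * (n + H) + L * 2 ^ j) / 2 ^ j)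
      (by have : (0 : ℝ) ≤ 3 ^ o * H / 2 ^ j + L := by positivity
          linarith) (M := 2 ^ k) (by positivity) ?_ ?_
    · refine h4.trans ?_
      rw [hlen]
      push_cast
      have h5 : (L : ℝ) ≤ 3 ^ o * H / 2 ^ j := by rw [le_div_iff₀ h2j, mul_comm]; exact h2r
      have h6 : (1 : ℝ) ≤ 3 ^ o * H / (2 ^ j * 2 ^ k) := by
        rw [le_div_iff₀ (by positivity), one_mul]; exact h1r
      have h7 : (3 * (3 ^ o * H) / (2 ^ j * 2 ^ k) : ℝ) = (3 ^ o * H / 2 ^ j + 3 ^ o * H / 2 ^ j) / 2 ^ k +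
          3 ^ o * H / (2 ^ j * 2 ^ k) := by field_simp; ring
      rw [h7]
      gcongr
    · intro x hx
      rw [mem_image] at hx
      obtain ⟨h, hh, rfl⟩ := hx
      have e1 := key h hh
      have e2 := hrh h hh
      have e4 : (0 : ℝ) ≤ rh j (n + (h : ℕ)) := by positivity
      rw [hS, mem_filter, mem_Icc] at hh
      have hhH : (h : ℝ) ≤ H := by exact_mod_cast hh.1.2
      have hh0 : (0 : ℝ) ≤ h := by positivity
      have e5 : (3 : ℝ) ^ o * h ≤ 3 ^ o * H := mul_le_mul_of_nonneg_left hhH h3o.le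
      have e6 : (0 : ℝ) ≤ 3 ^ o * h := by positivity
      rw [div_le_iff₀ h2j, le_div_iff₀ h2j]
      constructor <;> linarith
    · intro x hx y hy
      rw [mem_image] at hx hy
      obtain ⟨n1, hn, rfl⟩ := hx
      obtain ⟨n', hn', rfl⟩ := hy
      rw [hS, mem_filter] at hn hn'
      have := dvd_sub hn.2.2.2 hn'.2.2.2
      rw [sub_sub_sub_cancel_right] at this
      rw [hf]
      push_cast
      exact this

/-- The window of length `k` after time `j` is atypical (early phase). -/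
def EW (n : ℤ) (H j k L : ℕ) (δ : ℝ) (h : ℕ) : Prop :=
  rh j (n + h) ≤ L * 2 ^ j ∧ 2 ^ j * 2 ^ k ≤ 3 ^ od j (n + h) * H ∧ 2 ^ j * L ≤ 3 ^ od j (n + h) * H ∧
    3 ^ od j (n + h) ≤ L * 2 ^ j ∧ δ ≤ |2 * (cd k (T^[j] n) (T^[j] (n + h)) : ℝ) - k|

open Classical in
theorem card_EW {j k L H : ℕ} (n : ℤ) (hk : 1 ≤ k) {δ : ℝ} (hδ : 0 ≤ δ) :
    (#{h ∈ Icc 1 H | EW n H j k L δ h} : ℝ) ≤ 12 * (j + 1) * L * H * Real.exp (-(δ ^ 2 / (2 * k))) := by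
  have h2k : (0 : ℝ) < 2 ^ k := by positivity
  set Q := ({b ∈ range (2 ^ k) | δ ≤ |2 * (cd k (T^[j] n) ((b : ℕ) : ℤ) : ℝ) - k|} : Finset ℕ) with hQ
  have hQc : (#Q : ℝ) ≤ 2 ^ k * (2 * Real.exp (-(δ ^ 2 / (2 * k)))) := by
    have := pb_cd (T^[j] n) hk hδ
    rw [pb_eq_card, div_le_iff₀ h2k] at this
    rw [mul_comm]
    exact this
  have hsub : ({h ∈ Icc 1 H | EW n H j k L δ h} : Finset ℕ) ⊆ ((range (j + 1)) ×ˢ Q).biUnion
      (fun p => {h ∈ Icc 1 H | (rh j (n + (h : ℕ)) ≤ L * 2 ^ j ∧ od j (n + (h : ℕ)) = p.1 ∧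
        (2 : ℤ) ^ k ∣ T^[j] (n + (h : ℕ)) - ((p.2 : ℕ) : ℤ)) ∧ 2 ^ j * 2 ^ k ≤ 3 ^ p.1 * H ∧
        2 ^ j * L ≤ 3 ^ p.1 * H ∧ 3 ^ p.1 ≤ L * 2 ^ j}) := by
    intro h hh
    rw [mem_filter] at hh
    obtain ⟨hh0, h1, h2, h3, h4, h5⟩ := hh
    rw [mem_biUnion]
    refine ⟨(od j (n + h), cl k (T^[j] (n + (h : ℕ)))), ?_, ?_⟩
    · rw [mem_product, mem_range, hQ, mem_filter, mem_range]
      refine ⟨by have := od_le j (n + h); simp only; omega, cl_lt _ _, ?_⟩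
      rw [← cd_congr k (x := T^[j] n) (y := T^[j] (n + (h : ℕ))) (by simp) (cl_dvd k _)]
      exact h5
    · rw [mem_filter]
      exact ⟨hh0, ⟨h1, rfl, cl_dvd _ _⟩, h2, h3, h4⟩
  have hcard := (card_le_card hsub).trans card_biUnion_le
  refine (Nat.cast_le.2 hcard).trans ?_
  push_cast
  have h1 : ∀ p ∈ (range (j + 1)) ×ˢ Q, (#{h ∈ Icc 1 H | (rh j (n + (h : ℕ)) ≤ L * 2 ^ j ∧
      od j (n + (h : ℕ)) = p.1 ∧
        (2 : ℤ) ^ k ∣ T^[j] (n + (h : ℕ)) - ((p.2 : ℕ) : ℤ)) ∧ 2 ^ j * 2 ^ k ≤ 3 ^ p.1 * H ∧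
        2 ^ j * L ≤ 3 ^ p.1 * H ∧ 3 ^ p.1 ≤ L * 2 ^ j} : ℝ) ≤ 6 * L * H / 2 ^ k := by
    rintro ⟨o, b⟩ _
    simp only
    by_cases hc : 2 ^ j * 2 ^ k ≤ 3 ^ o * H ∧ 2 ^ j * L ≤ 3 ^ o * H ∧ 3 ^ o ≤ L * 2 ^ j
    · refine le_trans ?_ (dom_early n H j k L o ((b : ℕ) : ℤ) hc.1 hc.2.1 hc.2.2)
      apply Nat.cast_le.2
      apply card_le_card
      intro x hx
      rw [mem_filter] at hx ⊢
      exact ⟨hx.1, hx.2.1⟩
    · rw [show ({h ∈ Icc 1 H | (rh j (n + (h : ℕ)) ≤ L * 2 ^ j ∧ od j (n + (h : ℕ)) = o ∧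
        (2 : ℤ) ^ k ∣ T^[j] (n + (h : ℕ)) - ((b : ℕ) : ℤ)) ∧ 2 ^ j * 2 ^ k ≤ 3 ^ o * H ∧
        2 ^ j * L ≤ 3 ^ o * H ∧ 3 ^ o ≤ L * 2 ^ j} : Finset ℕ) = ∅ by
          apply filter_eq_empty_iff.2
          rintro x _ ⟨_, h⟩
          exact hc h]
      simp only [card_empty, Nat.cast_zero]
      positivity
  refine (sum_le_sum h1).trans ?_
  rw [sum_const, card_product, card_range, nsmul_eq_mul]
  push_cast
  calc ((j : ℝ) + 1) * #Q * (6 * L * H / 2 ^ k) ≤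
      (j + 1) * (2 ^ k * (2 * Real.exp (-(δ ^ 2 / (2 * k))))) * (6 * L * H / 2 ^ k) := by
        gcongr
    _ = 12 * (j + 1) * L * H * Real.exp (-(δ ^ 2 / (2 * k))) := by field_simp; ring

end Pool.Agent.J4H39
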