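import Mathlib
import Pool.Agent.J4H39.W5
import Pool.Agent.J4H39.W7

set_option autoImplicit false

namespace Pool.Agent.J4H39

open Finset

/-! The law of large numbers for the clock. -/

theorem Ac_add (h : ℤ) (j k : ℕ) (n : ℤ) : Ac h (j + k) n = Ac h j n + cd k (T^[j] n) (T^[j] (n + h)) := cd_add _ _ _ _

theorem Ac_le_add (h n : ℤ) {i j : ℕ} (hij : i ≤ j) : Ac h j n ≤ Ac h i n + (j - i) := cd_le_add n (n + h) hij

theorem late_lln {h n : ℤ} {s t k l : ℕ} {ε : ℝ} (hk : 1 ≤ k) (hε : 0 ≤ ε)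
    (hR : ∀ j, s ≤ j → j ≤ t → Rg h l j n) (hD : ∀ j, s ≤ j → j ≤ t → 3 ^ (|Dd h j n|).toNat ≤ 2 ^ j)
    (hW : ∀ i, s + (i + 1) * k ≤ t → ¬ LWs h (s + i * k) k (4 ^ l) (ε * k) n)
    {j : ℕ} (hsj : s ≤ j) (hjt : j ≤ t) (hno : ∀ i, s ≤ i → i < j → (k : ℤ) < |Dd h i n|) :
    |2 * ((Ac h j n : ℝ) - Ac h s n) - ((j : ℝ) - s)| ≤ ε * ((j : ℝ) - s) + k := by
  have key : ∀ I : ℕ, s + I * k ≤ j → |2 * ((Ac h (s + I * k) n : ℝ) - Ac h s n) - (I * k : ℝ)| ≤ I * (ε * k) := by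
    intro I
    induction I with
    | zero => intro _; simp
    | succ I ih =>
      intro hI
      have hI' : s + I * k + k ≤ j := by
        have : (I + 1) * k = I * k + k := by ring
        omega
      have h1 := ih (by omega)
      have h2 := hW I (by omega)
      obtain ⟨r1, r2, r3, r4⟩ := hR (s + I * k) (by omega) (by omega)
      have h3 := window_of_not h2 r1 r2 r3 r4 (hno (s + I * k) (by omega) (by omega)).le
        (hD (s + I * k) (by omega) (by omega))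
      have h4 := Ac_add h (s + I * k) k n
      have h5 : (Ac h (s + (I + 1) * k) n : ℝ) = Ac h (s + I * k) n +
          cd k (T^[s + I * k] n) (T^[s + I * k] (n + h)) := by
        rw [show s + (I + 1) * k = s + I * k + k by ring, h4]; push_cast; ring
      rw [h5]
      push_cast
      have e : 2 * ((Ac h (s + I * k) n : ℝ) + cd k (T^[s + I * k] n) (T^[s + I * k] (n + h)) - Ac h s n) -
          ((I + 1) * k : ℝ) = (2 * ((Ac h (s + I * k) n : ℝ) - Ac h s n) - (I * k : ℝ)) +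
          (2 * (cd k (T^[s + I * k] n) (T^[s + I * k] (n + h)) : ℝ) - k) := by ring
      rw [e]
      refine (abs_add_le _ _).trans ?_
      linarith
  have hk0 : (0 : ℝ) < k := by exact_mod_cast hk
  obtain ⟨I, hI⟩ : ∃ I, I = (j - s) / k := ⟨_, rfl⟩
  have hI1 : I * k ≤ j - s := by rw [hI]; exact Nat.div_mul_le_self _ _
  have hI2 : j - s < I * k + k := by
    rw [hI]; exact Nat.lt_div_mul_add (by omega)
  have h1 := key I (by omega)
  have h2 := Ac_mono h n (show s + I * k ≤ j by omega)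
  have h3 := Ac_le_add h n (show s + I * k ≤ j by omega)
  have hsjr : (s : ℝ) ≤ j := by exact_mod_cast hsj
  have h2r : (Ac h (s + I * k) n : ℝ) ≤ Ac h j n := by exact_mod_cast h2
  obtain ⟨d, hd⟩ : ∃ d, j = s + I * k + d := Nat.exists_eq_add_of_le (by omega)
  have h3r : (Ac h j n : ℝ) ≤ Ac h (s + I * k) n + d := by
    have : Ac h j n ≤ Ac h (s + I * k) n + d := by omega
    exact_mod_cast this
  have hdk : (d : ℝ) ≤ k := by exact_mod_cast (by omega : d ≤ k)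
  have hd0 : (0 : ℝ) ≤ d := by positivity
  have hjr : (j : ℝ) = s + I * k + d := by rw [hd]; push_cast; ring
  have e : 2 * ((Ac h j n : ℝ) - Ac h s n) - ((j : ℝ) - s) =
      (2 * ((Ac h (s + I * k) n : ℝ) - Ac h s n) - (I * k : ℝ)) + (2 * ((Ac h j n : ℝ) - Ac h (s + I * k) n) - d) := by
    rw [hjr]; ring
  rw [e]
  have h5 : |2 * ((Ac h j n : ℝ) - Ac h (s + I * k) n) - d| ≤ k := by
    rw [abs_le]; constructor <;> linarith
  refine (abs_add_le _ _).trans ?_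
  have h6 : (I : ℝ) * (ε * k) ≤ ε * ((j : ℝ) - s) := by
    rw [hjr]
    have : ε * ((s : ℝ) + I * k + d - s) = I * (ε * k) + ε * d := by ring
    rw [this]
    have : 0 ≤ ε * d := by positivity
    linarith
  linarith

theorem early_lln {n : ℤ} {H k l i0 i1 h : ℕ} {ε : ℝ} (hi : i0 ≤ i1)
    (hR : ∀ i, i0 ≤ i → i < i1 → rh (i * k) (n + h) ≤ 4 ^ l * 2 ^ (i * k) ∧
      2 ^ (i * k) * 2 ^ k ≤ 3 ^ od (i * k) (n + h) * H ∧ 2 ^ (i * k) * 4 ^ l ≤ 3 ^ od (i * k) (n + h) * H ∧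
      3 ^ od (i * k) (n + h) ≤ 4 ^ l * 2 ^ (i * k))
    (hW : ∀ i, i0 ≤ i → i < i1 → ¬ EW n H (i * k) k (4 ^ l) (ε * k) h) :
    |2 * (Ac h (i1 * k) n : ℝ) - (i1 * k : ℝ)| ≤ i0 * k + (i1 - i0) * (ε * k) := by
  induction i1, hi using Nat.le_induction with
  | base =>
    have h1 : Ac h (i0 * k) n ≤ i0 * k := cd_le _ _ _
    have h1r : (Ac h (i0 * k) n : ℝ) ≤ i0 * k := by exact_mod_cast h1
    have h2 : (0 : ℝ) ≤ Ac h (i0 * k) n := by positivity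
    rw [sub_self, zero_mul, add_zero, abs_le]
    constructor <;> linarith
  | succ i1 hi ih =>
    have h1 := ih (fun i a b => hR i a (by omega)) (fun i a b => hW i a (by omega))
    have h2 := hW i1 hi (by omega)
    obtain ⟨r1, r2, r3, r4⟩ := hR i1 hi (by omega)
    unfold EW at h2
    have h3 : |2 * (cd k (T^[i1 * k] n) (T^[i1 * k] (n + h)) : ℝ) - k| < ε * k := by
      by_contra hcon
      push Not at hcon
      exact h2 ⟨r1, r2, r3, r4, hcon⟩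
    have h5 : (Ac h ((i1 + 1) * k) n : ℝ) = Ac h (i1 * k) n +
        cd k (T^[i1 * k] n) (T^[i1 * k] (n + h)) := by
      rw [show (i1 + 1) * k = i1 * k + k by ring, Ac_add]; push_cast; ring
    rw [h5]
    push_cast
    have e : 2 * ((Ac h (i1 * k) n : ℝ) + cd k (T^[i1 * k] n) (T^[i1 * k] (n + h))) - ((i1 + 1) * k : ℝ) =
        (2 * (Ac h (i1 * k) n : ℝ) - (i1 * k : ℝ)) +
        (2 * (cd k (T^[i1 * k] n) (T^[i1 * k] (n + h)) : ℝ) - k) := by ring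
    rw [e]
    refine (abs_add_le _ _).trans ?_
    linarith

/-! Consequences of the good event. -/

theorem late_pow {t L δ : ℕ} {x : ℤ} (hx : Gd t L δ x) {s j H : ℕ} (hsj : s ≤ j) (hj : j ≤ t)
    (hc : 3 ^ (s + δ) * H ^ 2 ≤ 4 ^ s) : 3 ^ od j x * H ≤ 2 ^ j := by
  apply sq_le_of
  rw [mul_pow, ← pow_mul, ← pow_mul]
  obtain ⟨d, rfl⟩ := Nat.exists_eq_add_of_le hsj
  have h1 := od_up hx hj
  calc 3 ^ (od (s + d) x * 2) * H ^ 2 ≤ 3 ^ (s + d + δ) * H ^ 2 := by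
        apply Nat.mul_le_mul_right
        exact Nat.pow_le_pow_right (by norm_num) (by omega)
    _ = 3 ^ d * (3 ^ (s + δ) * H ^ 2) := by ring
    _ ≤ 3 ^ d * 4 ^ s := Nat.mul_le_mul_left _ hc
    _ ≤ 4 ^ d * 4 ^ s := Nat.mul_le_mul_right _ (Nat.pow_le_pow_left (by norm_num) d)
    _ = 2 ^ ((s + d) * 2) := by
        rw [show (4 : ℕ) = 2 ^ 2 by norm_num, ← pow_mul, ← pow_mul, ← pow_add]; congr 1; ring

theorem D_le {t L δ : ℕ} {n h : ℤ} (hx : Gd t L δ n) (hy : Gd t L δ (n + h)) {j : ℕ} (hj : j ≤ t) :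
    |Dd h j n| ≤ δ := by
  have a1 := od_up hx hj
  have a2 := od_lo hx hj
  have a3 := od_up hy hj
  have a4 := od_lo hy hj
  unfold Dd
  rw [abs_le]
  constructor <;> omega

theorem D_pow {t L δ : ℕ} {n h : ℤ} (hx : Gd t L δ n) (hy : Gd t L δ (n + h)) {s j H : ℕ} (hsj : s ≤ j)
    (hj : j ≤ t) (hH : 1 ≤ H) (hc : 3 ^ (s + δ) * H ^ 2 ≤ 4 ^ s) : 3 ^ (|Dd h j n|).toNat ≤ 2 ^ j := by
  have h1 := D_le hx hy hj
  have h2 : 3 ^ s * 3 ^ δ ≤ 4 ^ s := by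
    calc 3 ^ s * 3 ^ δ = 3 ^ (s + δ) * 1 := by ring
      _ ≤ 3 ^ (s + δ) * H ^ 2 := Nat.mul_le_mul_left _ (Nat.one_le_pow _ _ (by omega))
      _ ≤ 4 ^ s := hc
  have h3 : 3 ^ δ ≤ 2 ^ s := by
    have h4 : 2 ^ s * 3 ^ δ ≤ 2 ^ s * 2 ^ s := by
      calc 2 ^ s * 3 ^ δ ≤ 3 ^ s * 3 ^ δ := Nat.mul_le_mul_right _ (Nat.pow_le_pow_left (by norm_num) s)
        _ ≤ 4 ^ s := h2
        _ = 2 ^ s * 2 ^ s := by rw [← mul_pow]; norm_num
    exact Nat.le_of_mul_le_mul_left h4 (by positivity)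
  calc 3 ^ (|Dd h j n|).toNat ≤ 3 ^ δ := Nat.pow_le_pow_right (by norm_num) (by omega)
    _ ≤ 2 ^ s := h3
    _ ≤ 2 ^ j := Nat.pow_le_pow_right (by norm_num) hsj

theorem late_Rg {t l δ : ℕ} {n h : ℤ} (hx : Gd t (4 ^ l) δ n) (hy : Gd t (4 ^ l) δ (n + h)) {s j H : ℕ}
    (hsj : s ≤ j) (hj : j ≤ t) (hhH : |h| ≤ H) (hc : 3 ^ (s + δ) * H ^ 2 ≤ 4 ^ s) : Rg h l j n := by
  have h1 := late_pow hx hsj hj hc
  have h2 := late_pow hy hsj hj hc
  refine ⟨(hx j hj).1, (hy j hj).1, ?_, ?_⟩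
  · calc (3 : ℤ) ^ od j n * |h| ≤ 3 ^ od j n * H := mul_le_mul_of_nonneg_left hhH (by positivity)
      _ ≤ 2 ^ j := by exact_mod_cast h1
  · calc (3 : ℤ) ^ od j (n + h) * |h| ≤ 3 ^ od j (n + h) * H := mul_le_mul_of_nonneg_left hhH (by positivity)
      _ ≤ 2 ^ j := by exact_mod_cast h2

theorem early_low {t L δ : ℕ} {x : ℤ} (hx : Gd t L δ x) {s j e H : ℕ} (hjs : j ≤ s) (hj : j ≤ t)
    (hc : 4 ^ (s + e) * 3 ^ δ ≤ 3 ^ s * H ^ 2) : 2 ^ j * 2 ^ e ≤ 3 ^ od j x * H := by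
  apply sq_le_of
  have h1 := od_lo hx hj
  obtain ⟨d, rfl⟩ := Nat.exists_eq_add_of_le hjs
  have h2 : 3 ^ (d + δ) * (2 ^ j * 2 ^ e) ^ 2 ≤ 3 ^ (d + δ) * (3 ^ od j x * H) ^ 2 := by
    calc 3 ^ (d + δ) * (2 ^ j * 2 ^ e) ^ 2 = 3 ^ d * (4 ^ (j + e) * 3 ^ δ) := by
          rw [show (4 : ℕ) = 2 ^ 2 by norm_num, ← pow_mul, mul_pow, ← pow_mul, ← pow_mul]; ring
      _ ≤ 4 ^ d * (4 ^ (j + e) * 3 ^ δ) := Nat.mul_le_mul_right _ (Nat.pow_le_pow_left (by norm_num) d)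
      _ = 4 ^ (j + d + e) * 3 ^ δ := by ring
      _ ≤ 3 ^ (j + d) * H ^ 2 := hc
      _ = 3 ^ d * 3 ^ j * H ^ 2 := by ring
      _ ≤ 3 ^ d * 3 ^ (2 * od j x + δ) * H ^ 2 := by
          apply Nat.mul_le_mul_right
          apply Nat.mul_le_mul_left
          exact Nat.pow_le_pow_right (by norm_num) h1
      _ = 3 ^ (d + δ) * (3 ^ od j x * H) ^ 2 := by rw [mul_pow, ← pow_mul]; ring
  exact Nat.le_of_mul_le_mul_left h2 (by positivity)

theorem early_up {t L δ : ℕ} {x : ℤ} (hL : 1 ≤ L) (hx : Gd t L δ x) {s j : ℕ} (hsj : s ≤ j) (hj : j ≤ t)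
    (hc : 3 ^ (s + δ) ≤ 4 ^ s) : 3 ^ od j x ≤ L * 2 ^ j := by
  have h := late_pow hx hsj hj (H := 1) (by simpa using hc)
  rw [mul_one] at h
  exact h.trans (Nat.le_mul_of_pos_left _ (by omega))

end Pool.Agent.J4H39
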