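import Mathlib
import Pool.Agent.J4H39.V2
import Pool.Agent.J4H39.W8

set_option autoImplicit false

namespace Pool.Agent.J4H39

open Finset
open Pool.Agent.H499R2.CO (rho)

/-! The clock and the main inequalities for the pairs `n`, `3 ^ i n + r`. -/

theorem rel_yy (i : ℕ) (r n : ℤ) : Rel ((i : ℤ), r) n (yy i r n) := rel_nat i r n

theorem rn_Di (i : ℕ) (r n : ℤ) (j : ℕ) : (rn stP j ((i : ℤ), r) n).1 = Di i r j n := (rel_rn (rel_yy i r n) j).2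

theorem window_PW {i : ℕ} {r n : ℤ} {j k L : ℕ} {δ : ℝ} (hn : ¬ PW i r j k L δ n)
    (h1 : rh j n ≤ L * 2 ^ j) (h2 : rh j (yy i r n) ≤ L * 2 ^ j) (h3 : 3 ^ od j n * |r| ≤ 2 ^ j)
    (h5 : (k : ℤ) ≤ |Di i r j n|) (h6 : 3 ^ (Di i r j n).natAbs ≤ 2 ^ j) :
    |2 * (cd k (T^[j] n) (T^[j] (yy i r n)) : ℝ) - k| < δ := by
  by_contra hcon
  push Not at hcon
  apply hn
  refine ⟨h1, h2, h3, ?_, h6, hcon⟩
  have hD : k ≤ (Di i r j n).natAbs := by rw [Int.abs_eq_natAbs] at h5; omega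
  calc 2 ^ k ≤ 2 ^ (Di i r j n).natAbs := Nat.pow_le_pow_right (by norm_num) hD
    _ ≤ 3 ^ (Di i r j n).natAbs := Nat.pow_le_pow_left (by norm_num) _

theorem clock_lln {i : ℕ} {r n : ℤ} {s0 t k l : ℕ} {ε : ℝ} (hk : 1 ≤ k) (hε : 0 ≤ ε)
    (hR : ∀ j, s0 ≤ j → j ≤ t → rh j n ≤ 4 ^ l * 2 ^ j ∧ rh j (yy i r n) ≤ 4 ^ l * 2 ^ j ∧ 3 ^ od j n * |r| ≤ 2 ^ j)
    (hD : ∀ j, s0 ≤ j → j ≤ t → 3 ^ (Di i r j n).natAbs ≤ 2 ^ j)
    (hW : ∀ I, s0 + (I + 1) * k ≤ t → ¬ PW i r (s0 + I * k) k (4 ^ l) (ε * k) n)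
    {j : ℕ} (hsj : s0 ≤ j) (hjt : j ≤ t) (hno : ∀ i', s0 ≤ i' → i' < j → (k : ℤ) < |Di i r i' n|) :
    |2 * ((ck j ((i : ℤ), r) n : ℝ) - ck s0 ((i : ℤ), r) n) - ((j : ℝ) - s0)| ≤ ε * ((j : ℝ) - s0) + k := by
  set s : ℤ × ℤ := ((i : ℤ), r) with hs
  have hadd : ∀ j k, ck (j + k) s n = ck j s n + cd k (T^[j] n) (T^[j] (yy i r n)) := by
    intro j k
    rw [ck_rel (rel_yy i r n), ck_rel (rel_yy i r n), cd_add]
  have key : ∀ I : ℕ, s0 + I * k ≤ j → |2 * ((ck (s0 + I * k) s n : ℝ) - ck s0 s n) - (I * k : ℝ)| ≤ I * (ε * k) := by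
    intro I
    induction I with
    | zero => intro _; simp
    | succ I ih =>
      intro hI
      have hI' : s0 + I * k + k ≤ j := by
        have : (I + 1) * k = I * k + k := by ring
        omega
      have h1 := ih (by omega)
      have h2 := hW I (by omega)
      obtain ⟨r1, r2, r3⟩ := hR (s0 + I * k) (by omega) (by omega)
      have h3 := window_PW h2 r1 r2 r3 (hno (s0 + I * k) (by omega) (by omega)).le
        (hD (s0 + I * k) (by omega) (by omega))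
      have h4 := hadd (s0 + I * k) k
      have h5 : (ck (s0 + (I + 1) * k) s n : ℝ) = ck (s0 + I * k) s n +
          cd k (T^[s0 + I * k] n) (T^[s0 + I * k] (yy i r n)) := by
        rw [show s0 + (I + 1) * k = s0 + I * k + k by ring, h4]; push_cast; ring
      rw [h5]
      push_cast
      have e : 2 * ((ck (s0 + I * k) s n : ℝ) + cd k (T^[s0 + I * k] n) (T^[s0 + I * k] (yy i r n)) - ck s0 s n) -
          ((I + 1) * k : ℝ) = (2 * ((ck (s0 + I * k) s n : ℝ) - ck s0 s n) - (I * k : ℝ)) +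
          (2 * (cd k (T^[s0 + I * k] n) (T^[s0 + I * k] (yy i r n)) : ℝ) - k) := by ring
      rw [e]
      refine (abs_add_le _ _).trans ?_
      linarith
  have hk0 : (0 : ℝ) < k := by exact_mod_cast hk
  obtain ⟨I, hI⟩ : ∃ I, I = (j - s0) / k := ⟨_, rfl⟩
  have hI1 : I * k ≤ j - s0 := by rw [hI]; exact Nat.div_mul_le_self _ _
  have hI2 : j - s0 < I * k + k := by
    rw [hI]; exact Nat.lt_div_mul_add (by omega)
  have h1 := key I (by omega)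
  have h2 := ck_mono s n (show s0 + I * k ≤ j by omega)
  have h3 := ck_le_add s n (show s0 + I * k ≤ j by omega)
  have hsjr : (s0 : ℝ) ≤ j := by exact_mod_cast hsj
  have h2r : (ck (s0 + I * k) s n : ℝ) ≤ ck j s n := by exact_mod_cast h2
  obtain ⟨d, hd⟩ : ∃ d, j = s0 + I * k + d := Nat.exists_eq_add_of_le (by omega)
  have h3r : (ck j s n : ℝ) ≤ ck (s0 + I * k) s n + d := by
    have : ck j s n ≤ ck (s0 + I * k) s n + d := by omega
    exact_mod_cast this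
  have hdk : (d : ℝ) ≤ k := by exact_mod_cast (by omega : d ≤ k)
  have hd0 : (0 : ℝ) ≤ d := by positivity
  have hjr : (j : ℝ) = s0 + I * k + d := by rw [hd]; push_cast; ring
  have e : 2 * ((ck j s n : ℝ) - ck s0 s n) - ((j : ℝ) - s0) =
      (2 * ((ck (s0 + I * k) s n : ℝ) - ck s0 s n) - (I * k : ℝ)) + (2 * ((ck j s n : ℝ) - ck (s0 + I * k) s n) - d) := by
    rw [hjr]; ring
  rw [e]
  have h5 : |2 * ((ck j s n : ℝ) - ck (s0 + I * k) s n) - d| ≤ k := by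
    rw [abs_le]; constructor <;> linarith
  refine (abs_add_le _ _).trans ?_
  have h6 : (I : ℝ) * (ε * k) ≤ ε * ((j : ℝ) - s0) := by
    rw [hjr]
    have : ε * ((s0 : ℝ) + I * k + d - s0) = I * (ε * k) + ε * d := by ring
    rw [this]
    have : 0 ≤ ε * d := by positivity
    linarith
  linarith

/-- a bad window -/
def BLp (i : ℕ) (r : ℤ) (s0 t k l : ℕ) (ε : ℝ) (n : ℤ) : Prop :=
  ∃ I ∈ range (t + 1), s0 + (I + 1) * k ≤ t ∧ PW i r (s0 + I * k) k (4 ^ l) (ε * k) n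

theorem pb_BLp (i : ℕ) (r : ℤ) {s0 t k l : ℕ} {ε : ℝ} (hk : 1 ≤ k) (hε : 0 ≤ ε) :
    pb t (BLp i r s0 t k l ε) ≤ (t + 1) * (28 * (t + 1) ^ 2 * (4 ^ l : ℝ) ^ 2 * Real.exp (-((ε * k) ^ 2 / (2 * k)))) := by
  refine (pb_exists _ _ _).trans ?_
  have h1 : ∀ I ∈ range (t + 1), pb t (fun n => s0 + (I + 1) * k ≤ t ∧ PW i r (s0 + I * k) k (4 ^ l) (ε * k) n) ≤
      28 * (t + 1) ^ 2 * (4 ^ l : ℝ) ^ 2 * Real.exp (-((ε * k) ^ 2 / (2 * k))) := by
    intro I _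
    by_cases hi : s0 + (I + 1) * k ≤ t
    · have e : s0 + (I + 1) * k = s0 + I * k + k := by ring
      refine (pb_mono (fun n hn => hn.2)).trans ?_
      rw [pb_per (by rw [← e]; exact hi) (per_PW i r (s0 + I * k) k (4 ^ l) (ε * k))]
      refine (pb_PW i r (Nat.one_le_pow _ _ (by norm_num)) hk (by positivity)).trans ?_
      push_cast
      have : ((s0 : ℝ) + I * k) ≤ t := by
        have : s0 + I * k ≤ t := by omega
        exact_mod_cast this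
      gcongr
    · have : pb t (fun n => s0 + (I + 1) * k ≤ t ∧ PW i r (s0 + I * k) k (4 ^ l) (ε * k) n) ≤ ex t (fun _ => (0 : ℝ)) := by
        unfold pb
        apply ex_mono
        intro n
        rw [if_neg]
        rintro ⟨h2, _⟩
        exact hi h2
      rw [ex_const] at this
      exact this.trans (by positivity)
  refine (sum_le_sum h1).trans (le_of_eq ?_)
  rw [sum_const, card_range, nsmul_eq_mul]
  push_cast
  ring

/-- Numerical hypotheses. -/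
structure Pq (t i u k δ s0 : ℕ) : Prop where
  hk : 1 ≤ k
  hst : s0 ≤ t
  c1 : 3 ^ (s0 + δ) * (4 ^ u) ^ 2 ≤ 4 ^ s0
  c2 : 3 ^ (i + δ) ≤ 2 ^ s0

theorem Di_le {t L δ : ℕ} {i : ℕ} {r n : ℤ} (hx : Gd t L δ n) (hy : Gd t L δ (yy i r n)) {j : ℕ} (hj : j ≤ t) :
    |Di i r j n| ≤ i + δ := by
  have a1 := od_up hx hj
  have a2 := od_lo hx hj
  have a3 := od_up hy hj
  have a4 := od_lo hy hj
  unfold Di
  rw [abs_le]
  constructor <;> omega

theorem reg_of {t i u k δ s0 l : ℕ} (P : Pq t i u k δ s0) {r n : ℤ} (hr : |r| ≤ 4 ^ u)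
    (hx : Gd t (4 ^ l : ℕ) δ n) (hy : Gd t (4 ^ l : ℕ) δ (yy i r n)) {j : ℕ} (h1 : s0 ≤ j) (h2 : j ≤ t) :
    (rh j n ≤ 4 ^ l * 2 ^ j ∧ rh j (yy i r n) ≤ 4 ^ l * 2 ^ j ∧ 3 ^ od j n * |r| ≤ 2 ^ j) ∧
      3 ^ (Di i r j n).natAbs ≤ 2 ^ j := by
  refine ⟨⟨(hx j h2).1, (hy j h2).1, ?_⟩, ?_⟩
  · have h3 := late_pow hx h1 h2 P.c1
    calc (3 : ℤ) ^ od j n * |r| ≤ 3 ^ od j n * 4 ^ u := mul_le_mul_of_nonneg_left hr (by positivity)
      _ ≤ 2 ^ j := by exact_mod_cast h3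
  · have h3 := Di_le hx hy h2
    rw [Int.abs_eq_natAbs] at h3
    calc 3 ^ (Di i r j n).natAbs ≤ 3 ^ (i + δ) := Nat.pow_le_pow_right (by norm_num) (by omega)
      _ ≤ 2 ^ s0 := P.c2
      _ ≤ 2 ^ j := Nat.pow_le_pow_right (by norm_num) h1

theorem clock_of {t i u k δ s0 l : ℕ} (P : Pq t i u k δ s0) {ε : ℝ} (hε : 0 ≤ ε) {r n : ℤ} (hr : |r| ≤ 4 ^ u)
    (hx : Gd t (4 ^ l : ℕ) δ n) (hy : Gd t (4 ^ l : ℕ) δ (yy i r n)) (hB : ¬ BLp i r s0 t k l ε n)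
    {j : ℕ} (hsj : s0 ≤ j) (hjt : j ≤ t) (hno : ∀ i', s0 ≤ i' → i' < j → (k : ℤ) < |Di i r i' n|) :
    |2 * ((ck j ((i : ℤ), r) n : ℝ) - ck s0 ((i : ℤ), r) n) - ((j : ℝ) - s0)| ≤ ε * ((j : ℝ) - s0) + k := by
  apply clock_lln (l := l) P.hk hε (t := t) _ _ _ hsj hjt hno
  · intro j h1 h2
    exact (reg_of P hr hx hy h1 h2).1
  · intro j h1 h2
    exact (reg_of P hr hx hy h1 h2).2
  · intro I hI hW
    refine hB ⟨I, ?_, hI, hW⟩
    rw [mem_range]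
    have : (I + 1) * 1 ≤ (I + 1) * k := Nat.mul_le_mul_left _ P.hk
    omega

theorem main_UB {C : ℝ} (hC : 0 < C) (hrate : ∀ (k : ℕ), 1 ≤ k → ∀ (D : ℤ) (u : ℕ) (r : ℤ), |(r : ℝ)| ≤ 4 ^ u →
    ns k (D, r) ≤ C * √ (1 + (D : ℝ) ^ 2 + u) * rho k)
    {t i u k δ s0 : ℕ} (P : Pq t i u k δ s0) {r : ℤ} (hr : |r| ≤ 4 ^ u) {ε : ℝ} (hε : 0 ≤ ε) {l t' m mt : ℕ}
    (hst' : s0 ≤ t') (ht' : t' < t) {Q : ℝ} (hQ0 : 0 ≤ Q)
    (hQ : ∀ k', t - t' ≤ k' → k' ≤ t → C * √ (1 + (k : ℝ) ^ 2 + (k + 0 + l + 1 : ℕ)) * rho k' ≤ Q)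
    (hm1 : (s0 : ℝ) < (mt : ℝ) - m) (hm2 : 2 * (mt : ℝ) ≤ t' - s0 - ε * t - k) :
    ns t ((i : ℤ), r) ≤ F m mt i + Q + 2 * pb t (fun n => ¬ Gd t (4 ^ l : ℕ) δ n) +
      (t + 1) * (28 * (t + 1) ^ 2 * (4 ^ l : ℝ) ^ 2 * Real.exp (-((ε * k) ^ 2 / (2 * k)))) := by
  set s : ℤ × ℤ := ((i : ℤ), r) with hs
  set A : ℤ → Prop := fun n => mt ≤ ck t' s n ∧ ck s0 s n < mt - m ∧
      ∀ j, s0 ≤ j → j ≤ t' → (k : ℤ) < |(rn stP j s n).1| with hA
  have hAper : Per t' A := by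
    intro n u
    rw [hA]; simp only
    rw [per_ck s (le_refl t') n u, per_ck s hst' n u]
    have : (∀ j, s0 ≤ j → j ≤ t' → (k : ℤ) < |(rn stP j s (n + 2 ^ t' * u)).1|) =
        (∀ j, s0 ≤ j → j ≤ t' → (k : ℤ) < |(rn stP j s n).1|) := by
      apply propext
      apply forall_congr'; intro j
      apply forall_congr'; intro _
      apply forall_congr'; intro hj
      rw [per_rn stP s hj n u]
    rw [this]
  have hpA : pb t A ≤ F m mt i := by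
    rw [pb_per ht'.le hAper]
    exact ub_FF s s0 t' k m mt
  have hHit := hit_rn s (fun j s' => s0 ≤ j ∧ |s'.1| ≤ k ∧ |s'.2| ≤ 4 ^ (k + 0 + l + 1)) hQ0 ht' (t := t) (by
    rintro j hj ⟨D, r'⟩ ⟨_, h1, h2⟩
    simp only at h1 h2
    refine (hrate (t - j) (by omega) D (k + 0 + l + 1) r' (by exact_mod_cast h2)).trans ?_
    refine le_trans ?_ (hQ (t - j) (by omega) (by omega))
    have hrho : 0 ≤ rho (t - j) := Pool.Agent.H499R2.CO.rho_nonneg _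
    apply mul_le_mul_of_nonneg_right _ hrho
    apply mul_le_mul_of_nonneg_left _ hC.le
    apply Real.sqrt_le_sqrt
    have h3 : |(D : ℝ)| ≤ k := by exact_mod_cast h1
    have h4 : (D : ℝ) ^ 2 ≤ (k : ℝ) ^ 2 := by
      rw [← sq_abs]
      exact pow_le_pow_left₀ (abs_nonneg _) h3 2
    linarith)
  have hcover : ∀ n, rn stP t s n ≠ (0, 0) → (¬ Gd t (4 ^ l : ℕ) δ n) ∨ (¬ Gd t (4 ^ l : ℕ) δ (yy i r n)) ∨
      BLp i r s0 t k l ε n ∨ A n ∨ ((∃ j, j ≤ t' ∧ (s0 ≤ j ∧ |(rn stP j s n).1| ≤ k ∧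
        |(rn stP j s n).2| ≤ 4 ^ (k + 0 + l + 1))) ∧ rn stP t s n ≠ (0, 0)) := by
    intro n hn
    by_cases hx : Gd t (4 ^ l : ℕ) δ n
    swap
    · exact Or.inl hx
    by_cases hy : Gd t (4 ^ l : ℕ) δ (yy i r n)
    swap
    · exact Or.inr (Or.inl hy)
    by_cases hB : BLp i r s0 t k l ε n
    · exact Or.inr (Or.inr (Or.inl hB))
    by_cases hhit : ∃ j, s0 ≤ j ∧ j ≤ t' ∧ |(rn stP j s n).1| ≤ k
    · obtain ⟨j, h1, h2, h3⟩ := hhit
      right; right; right; right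
      obtain ⟨⟨a1, a2, a3⟩, a4⟩ := reg_of P hr hx hy h1 (show j ≤ t by omega)
      refine ⟨⟨j, h2, h1, h3, ?_⟩, hn⟩
      have := rbound (rel_yy i r n) (t := j) (e := 0) (l := l) (K := k) (by rw [pow_zero, one_mul]; exact a3) a1 a2 h3
      exact this
    · push Not at hhit
      right; right; right; left
      have hhit' : ∀ j, s0 ≤ j → j ≤ t' → (k : ℤ) < |Di i r j n| := by
        intro j h1 h2
        have := hhit j h1 h2
        rw [rn_Di] at this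
        exact this
      have e2 := clock_of P hε hr hx hy hB hst' ht'.le (fun i' a b => hhit' i' a (by omega))
      rw [← hs] at e2
      have e4 : ck s0 s n ≤ s0 := by
        have := ck_le_add s n (Nat.zero_le s0)
        simp only [ck] at this
        omega
      have e4r : (ck s0 s n : ℝ) ≤ s0 := by exact_mod_cast e4
      have e4p : (0 : ℝ) ≤ ck s0 s n := by positivity
      rw [abs_le] at e2
      have e5 : (t' : ℝ) ≤ t := by exact_mod_cast ht'.le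
      have e8 : ε * ((t' : ℝ) - s0) ≤ ε * t := mul_le_mul_of_nonneg_left (by linarith [Nat.cast_nonneg (α := ℝ) s0]) hε
      refine ⟨?_, ?_, hhit⟩
      · have : (mt : ℝ) ≤ ck t' s n := by linarith [e2.1]
        exact_mod_cast this
      · have h1 : (ck s0 s n : ℝ) + m < mt := by linarith
        have h2 : ck s0 s n + m < mt := by exact_mod_cast h1
        omega
  unfold ns
  refine (pb_mono hcover).trans ?_
  have g2 : pb t (fun n => ¬ Gd t (4 ^ l : ℕ) δ (yy i r n)) = pb t (fun n => ¬ Gd t (4 ^ l : ℕ) δ n) :=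
    pb_yy ((per_Gd t (4 ^ l) δ).comp (fun p => ¬ p)) i r
  set B5 : ℤ → Prop := fun n => ((∃ j, j ≤ t' ∧ (s0 ≤ j ∧ |(rn stP j s n).1| ≤ k ∧
        |(rn stP j s n).2| ≤ 4 ^ (k + 0 + l + 1))) ∧ rn stP t s n ≠ (0, 0)) with hB5
  have p1 := pb_or t (fun n => ¬ Gd t (4 ^ l : ℕ) δ n) (fun n => (¬ Gd t (4 ^ l : ℕ) δ (yy i r n)) ∨
      BLp i r s0 t k l ε n ∨ A n ∨ B5 n)
  have p2 := pb_or t (fun n => ¬ Gd t (4 ^ l : ℕ) δ (yy i r n)) (fun n => BLp i r s0 t k l ε n ∨ A n ∨ B5 n)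
  have p3 := pb_or t (BLp i r s0 t k l ε) (fun n => A n ∨ B5 n)
  have p4 := pb_or t A B5
  have p6 := pb_BLp i r (s0 := s0) (t := t) (l := l) P.hk hε
  have p7 : pb t B5 ≤ Q := hHit
  linarith

theorem main_LB {t i u k δ s0 : ℕ} (P : Pq t i u k δ s0) {r : ℤ} (hr : |r| ≤ 4 ^ u) {ε : ℝ} (hε : 0 ≤ ε)
    {l mt q0 : ℕ} (hq0 : 1 ≤ q0) (hm2 : (t : ℝ) + s0 + ε * t + k + 2 * q0 ≤ 2 * (mt : ℝ)) :
    U mt i ≤ ns t ((i : ℤ), r) + (2 * k / √ q0 + 2 * pb t (fun n => ¬ Gd t (4 ^ l : ℕ) δ n) +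
      (t + 1) * (28 * (t + 1) ^ 2 * (4 ^ l : ℝ) ^ 2 * Real.exp (-((ε * k) ^ 2 / (2 * k))))) := by
  set s : ℤ × ℤ := ((i : ℤ), r) with hs
  have hst := P.hst
  have hF := lb_FF s s0 t k mt hq0 hst
  set NH : ℤ → Prop := fun n => ∀ j, s0 ≤ j → j ≤ t → (k : ℤ) < |(rn stP j s n).1| with hNH
  set Bd : ℤ → Prop := fun n => ¬ (∀ j, s0 ≤ j → j ≤ t → (∀ i, s0 ≤ i → i < j → (k : ℤ) < |(rn stP i s n).1|) →
        ck j s n + q0 ≤ mt) with hBd
  have c1 : pb t NH ≤ ns t s := by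
    apply pb_mono
    intro n hn h0
    have := hn t hst le_rfl
    rw [h0] at this
    simp at this
    omega
  have c2 : ∀ n, Bd n → (¬ Gd t (4 ^ l : ℕ) δ n) ∨ (¬ Gd t (4 ^ l : ℕ) δ (yy i r n)) ∨ BLp i r s0 t k l ε n := by
    intro n hn
    by_cases hx : Gd t (4 ^ l : ℕ) δ n
    swap
    · exact Or.inl hx
    by_cases hy : Gd t (4 ^ l : ℕ) δ (yy i r n)
    swap
    · exact Or.inr (Or.inl hy)
    by_cases hB : BLp i r s0 t k l ε n
    · exact Or.inr (Or.inr hB)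
    exfalso
    apply hn
    intro j hj1 hj2 hno
    have e2 := clock_of P hε hr hx hy hB hj1 hj2 (fun i' a b => by
      have := hno i' a b
      rw [rn_Di] at this
      exact this)
    rw [← hs] at e2
    have e4 : ck s0 s n ≤ s0 := by
      have := ck_le_add s n (Nat.zero_le s0)
      simp only [ck] at this
      omega
    have e4r : (ck s0 s n : ℝ) ≤ s0 := by exact_mod_cast e4
    rw [abs_le] at e2
    have e5 : (j : ℝ) ≤ t := by exact_mod_cast hj2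
    have e6 : (s0 : ℝ) ≤ j := by exact_mod_cast hj1
    have e8 : ε * ((j : ℝ) - s0) ≤ ε * t := mul_le_mul_of_nonneg_left (by linarith [Nat.cast_nonneg (α := ℝ) s0]) hε
    have goal : (ck j s n : ℝ) + q0 ≤ mt := by linarith [e2.2]
    exact_mod_cast goal
  have g2 : pb t (fun n => ¬ Gd t (4 ^ l : ℕ) δ (yy i r n)) = pb t (fun n => ¬ Gd t (4 ^ l : ℕ) δ n) :=
    pb_yy ((per_Gd t (4 ^ l) δ).comp (fun p => ¬ p)) i r
  have p0 : pb t Bd ≤ _ := pb_mono c2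
  have p1 := pb_or t (fun n => ¬ Gd t (4 ^ l : ℕ) δ n) (fun n => (¬ Gd t (4 ^ l : ℕ) δ (yy i r n)) ∨
      BLp i r s0 t k l ε n)
  have p2 := pb_or t (fun n => ¬ Gd t (4 ^ l : ℕ) δ (yy i r n)) (BLp i r s0 t k l ε)
  have p6 := pb_BLp i r (s0 := s0) (t := t) (l := l) P.hk hε
  have hsi : s.1 = i := rfl
  rw [hsi] at hF
  linarith

end Pool.Agent.J4H39
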