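import Mathlib
import Pool.Agent.J4H39.W8

set_option autoImplicit false

namespace Pool.Agent.J4H39

open Finset
open Pool.Agent.H499R2.CO (q step rho)

/-! The two main inequalities. -/

/-- a bad window in the late phase -/
def BL (h : ℤ) (s t k l : ℕ) (ε : ℝ) (n : ℤ) : Prop :=
  ∃ i ∈ range (t + 1), s + (i + 1) * k ≤ t ∧ LWs h (s + i * k) k (4 ^ l) (ε * k) n

/-- a bad window in the early phase -/
def EB (H k l i0 i1 : ℕ) (ε : ℝ) (h : ℕ) (n : ℤ) : Prop :=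
  ∃ i ∈ Ico i0 i1, EW n H (i * k) k (4 ^ l) (ε * k) h

theorem pb_BL (h : ℤ) {s t k l : ℕ} {ε : ℝ} (hk : 1 ≤ k) (hε : 0 ≤ ε) :
    pb t (BL h s t k l ε) ≤ (t + 1) * (56 * (t + 1) ^ 2 * (4 ^ l : ℝ) ^ 2 * Real.exp (-((ε * k) ^ 2 / (2 * k)))) := by
  refine (pb_exists _ _ _).trans ?_
  have h1 : ∀ i ∈ range (t + 1), pb t (fun n => s + (i + 1) * k ≤ t ∧ LWs h (s + i * k) k (4 ^ l) (ε * k) n) ≤
      56 * (t + 1) ^ 2 * (4 ^ l : ℝ) ^ 2 * Real.exp (-((ε * k) ^ 2 / (2 * k))) := by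
    intro i _
    by_cases hi : s + (i + 1) * k ≤ t
    · have e : s + (i + 1) * k = s + i * k + k := by ring
      refine (pb_mono (fun n hn => hn.2)).trans ?_
      rw [pb_per (by rw [← e]; exact hi) (per_LWs h (s + i * k) k (4 ^ l) (ε * k))]
      refine (pb_LWs h (Nat.one_le_pow _ _ (by norm_num)) hk (by positivity)).trans ?_
      push_cast
      have : ((s : ℝ) + i * k) ≤ t := by
        have : s + i * k ≤ t := by omega
        exact_mod_cast this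
      gcongr
    · have : pb t (fun n => s + (i + 1) * k ≤ t ∧ LWs h (s + i * k) k (4 ^ l) (ε * k) n) ≤ ex t (fun _ => (0 : ℝ)) := by
        unfold pb
        apply ex_mono
        intro n
        rw [if_neg]
        rintro ⟨h2, _⟩
        exact hi h2
      rw [ex_const] at this
      exact this.trans (by positivity)
  refine (sum_le_sum h1).trans (le_of_eq ?_)
  rw [sum_const, card_range, nsmul_eq_mul]
  push_cast
  ring

open Classical in
theorem sum_pb_EW {H t j k l : ℕ} {ε : ℝ} (hk : 1 ≤ k) (hε : 0 ≤ ε) :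
    ∑ h ∈ Icc 1 H, pb t (fun n => EW n H j k (4 ^ l) (ε * k) h) ≤
      12 * (j + 1) * 4 ^ l * H * Real.exp (-((ε * k) ^ 2 / (2 * k))) := by
  have h1 : ∑ h ∈ Icc 1 H, pb t (fun n => EW n H j k (4 ^ l) (ε * k) h) =
      ex t (fun n => (#{h ∈ Icc 1 H | EW n H j k (4 ^ l) (ε * k) h} : ℝ)) := by
    unfold pb
    rw [← ex_sum]
    apply ex_congr
    intro n
    rw [card_filter]
    push_cast
    rfl
  rw [h1]
  refine (ex_mono (g := fun _ => 12 * (j + 1) * 4 ^ l * H * Real.exp (-((ε * k) ^ 2 / (2 * k)))) ?_).trans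
    (le_of_eq (ex_const _ _))
  intro n
  have := card_EW (j := j) (k := k) (L := 4 ^ l) (H := H) n hk (δ := ε * k) (by positivity)
  push_cast at this
  exact this

theorem sum_pb_EB {H t k l i0 i1 : ℕ} {ε : ℝ} (hk : 1 ≤ k) (hε : 0 ≤ ε) (hi1 : i1 * k ≤ t) :
    ∑ h ∈ Icc 1 H, pb t (EB H k l i0 i1 ε h) ≤
      H * ((t + 1) * (12 * (t + 1) * 4 ^ l * Real.exp (-((ε * k) ^ 2 / (2 * k))))) := by
  have h1 : ∑ h ∈ Icc 1 H, pb t (EB H k l i0 i1 ε h) ≤
      ∑ h ∈ Icc 1 H, ∑ i ∈ Ico i0 i1, pb t (fun n => EW n H (i * k) k (4 ^ l) (ε * k) h) :=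
    sum_le_sum (fun h _ => pb_exists _ _ _)
  refine h1.trans ?_
  rw [sum_comm]
  have h2 : ∀ i ∈ Ico i0 i1, ∑ h ∈ Icc 1 H, pb t (fun n => EW n H (i * k) k (4 ^ l) (ε * k) h) ≤
      12 * (t + 1) * 4 ^ l * H * Real.exp (-((ε * k) ^ 2 / (2 * k))) := by
    intro i hi
    rw [mem_Ico] at hi
    refine (sum_pb_EW hk hε).trans ?_
    have : i * k ≤ t := le_trans (Nat.mul_le_mul_right _ (by omega)) hi1
    have hr : ((i * k : ℕ) : ℝ) ≤ t := by exact_mod_cast this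
    gcongr
  refine (sum_le_sum h2).trans ?_
  rw [sum_const, nsmul_eq_mul, Nat.card_Ico]
  have hle : i1 - i0 ≤ t + 1 := by
    have : i1 * 1 ≤ i1 * k := Nat.mul_le_mul_left _ hk
    omega
  have hler : ((i1 - i0 : ℕ) : ℝ) ≤ t + 1 := by exact_mod_cast hle
  calc ((i1 - i0 : ℕ) : ℝ) * (12 * (t + 1) * 4 ^ l * H * Real.exp (-((ε * k) ^ 2 / (2 * k)))) ≤
      (t + 1) * (12 * (t + 1) * 4 ^ l * H * Real.exp (-((ε * k) ^ 2 / (2 * k)))) := by gcongr
    _ = _ := by ring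

/-- Numerical hypotheses. -/
structure Par (t H k l δ i0 i1 s : ℕ) : Prop where
  hk : 1 ≤ k
  hH : 1 ≤ H
  hi : i0 ≤ i1
  hs : i1 * k ≤ s
  hst : s ≤ t
  c1 : 3 ^ (s + δ) * H ^ 2 ≤ 4 ^ s
  c2 : 4 ^ (i1 * k + k) * 3 ^ δ ≤ 3 ^ (i1 * k) * H ^ 2
  c3 : 4 ^ (i1 * k + 2 * l) * 3 ^ δ ≤ 3 ^ (i1 * k) * H ^ 2
  c4 : 3 ^ (i0 * k + δ) ≤ 4 ^ (i0 * k)

/-- early clock -/
theorem clock_early {t H k l δ i0 i1 s : ℕ} (P : Par t H k l δ i0 i1 s) {ε : ℝ} (hε : 0 ≤ ε) {h : ℕ} {n : ℤ}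
    (hy : Gd t (4 ^ l : ℕ) δ (n + h)) (hE : ¬ EB H k l i0 i1 ε h n) :
    |2 * (Ac h (i1 * k) n : ℝ) - (i1 * k : ℝ)| ≤ i0 * k + ε * (i1 * k) := by
  have hst := P.hst
  have hs := P.hs
  have h1 : |2 * (Ac h (i1 * k) n : ℝ) - (i1 * k : ℝ)| ≤ i0 * k + (i1 - i0) * (ε * k) := by
    apply early_lln (H := H) (l := l) P.hi
    · intro i hi0 hi1
      have hik : i * k ≤ i1 * k := Nat.mul_le_mul_right _ (by omega)
      have h0ik : i0 * k ≤ i * k := Nat.mul_le_mul_right _ (by omega)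
      refine ⟨(hy (i * k) (by omega)).1, early_low hy hik (by omega) P.c2, ?_,
        early_up (Nat.one_le_pow _ _ (by norm_num)) hy h0ik (by omega) P.c4⟩
      have := early_low hy hik (by omega) P.c3
      have e : (2 : ℕ) ^ (2 * l) = 4 ^ l := by rw [pow_mul]; norm_num
      rw [e] at this
      exact this
    · intro i hi0 hi1 hW
      exact hE ⟨i, by rw [mem_Ico]; omega, hW⟩
  refine h1.trans ?_
  have : (0 : ℝ) ≤ i0 * (ε * k) := by positivity
  linarith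

/-- late clock -/
theorem clock_late {t H k l δ i0 i1 s : ℕ} (P : Par t H k l δ i0 i1 s) {ε : ℝ} (hε : 0 ≤ ε) {h : ℕ} (hh : h ≤ H) {n : ℤ}
    (hx : Gd t (4 ^ l : ℕ) δ n) (hy : Gd t (4 ^ l : ℕ) δ (n + h)) (hB : ¬ BL h s t k l ε n)
    {j : ℕ} (hsj : s ≤ j) (hjt : j ≤ t) (hno : ∀ i, s ≤ i → i < j → (k : ℤ) < |Dd h i n|) :
    |2 * ((Ac h j n : ℝ) - Ac h s n) - ((j : ℝ) - s)| ≤ ε * ((j : ℝ) - s) + k := by
  have hhH : |(h : ℤ)| ≤ H := by rw [abs_of_nonneg (by positivity)]; exact_mod_cast hh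
  apply late_lln (l := l) P.hk hε (t := t) _ _ _ hsj hjt hno
  · intro j h1 h2
    exact late_Rg hx hy h1 h2 hhH P.c1
  · intro j h1 h2
    exact D_pow hx hy h1 h2 P.hH P.c1
  · intro i hi hW
    refine hB ⟨i, ?_, hi, hW⟩
    rw [mem_range]
    have : (i + 1) * 1 ≤ (i + 1) * k := Nat.mul_le_mul_left _ P.hk
    omega

theorem main_ub {C : ℝ} (hC : 0 < C) (hrate : ∀ (k : ℕ), 1 ≤ k → ∀ (i u : ℕ) (r : ℤ), |(r : ℝ)| ≤ 4 ^ u →
    q step (0, 0) k (i, r) ≤ C * √ (1 + (i : ℝ) ^ 2 + u) * rho k)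
    {t H k l δ i0 i1 s : ℕ} (P : Par t H k l δ i0 i1 s) {ε : ℝ} (hε : 0 ≤ ε) {t' m mt : ℕ} (hst' : s ≤ t')
    (ht' : t' < t) {Q : ℝ} (hQ0 : 0 ≤ Q) (hQ : ∀ k', t - t' ≤ k' → k' ≤ t → QQ C k l k' ≤ Q) (hm : m ≤ mt)
    (hm1 : (i1 * k : ℝ) + i0 * k + ε * (i1 * k) + 2 * (s - i1 * k) < 2 * ((mt : ℝ) - m))
    (hm2 : 2 * (mt : ℝ) ≤ t' - (s - i1 * k) - i0 * k - 2 * ε * t - k) :
    ∑ h ∈ Icc 1 H, pb t (fun n => ¬ mg h t n) ≤ H * (F m mt 0 + Q +
      2 * pb t (fun n => ¬ Gd t (4 ^ l : ℕ) δ n) +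
      (t + 1) * (56 * (t + 1) ^ 2 * (4 ^ l : ℝ) ^ 2 * Real.exp (-((ε * k) ^ 2 / (2 * k)))) +
      (t + 1) * (12 * (t + 1) * 4 ^ l * Real.exp (-((ε * k) ^ 2 / (2 * k))))) := by
  have hkr : (0 : ℝ) ≤ k := by positivity
  have hs := P.hs
  have key : ∀ h ∈ Icc 1 H, pb t (fun n => ¬ mg h t n) ≤ (F m mt 0 + Q +
      2 * pb t (fun n => ¬ Gd t (4 ^ l : ℕ) δ n) +
      (t + 1) * (56 * (t + 1) ^ 2 * (4 ^ l : ℝ) ^ 2 * Real.exp (-((ε * k) ^ 2 / (2 * k))))) +
      pb t (EB H k l i0 i1 ε h) := by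
    intro h hh
    rw [mem_Icc] at hh
    have hhH : |(h : ℤ)| ≤ H := by rw [abs_of_nonneg (by positivity)]; exact_mod_cast hh.2
    set A : ℤ → Prop := fun n => mt ≤ Ac h t' n ∧ Ac h s n < mt - m ∧
      ∀ j, s ≤ j → j ≤ t' → (k : ℤ) < |Dd h j n| with hA
    have hAper : Per t' A := by
      intro n u
      rw [hA]; simp only
      rw [per_Ac h (le_refl t') n u, per_Ac h hst' n u]
      have : (∀ j, s ≤ j → j ≤ t' → (k : ℤ) < |Dd h j (n + 2 ^ t' * u)|) =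
          (∀ j, s ≤ j → j ≤ t' → (k : ℤ) < |Dd h j n|) := by
        apply propext
        apply forall_congr'; intro j
        apply forall_congr'; intro _
        apply forall_congr'; intro hj
        rw [per_Dd h hj n u]
      rw [this]
    have hpA : pb t A ≤ F m mt 0 := by
      rw [pb_per ht'.le hAper]
      exact ub_F h s t' k m mt
    have hHit := hit_mg hC hrate (h := (h : ℤ)) (K := k) (l := l) (s := s) hQ0 ht' hQ
    have hcover : ∀ n, ¬ mg h t n → (¬ Gd t (4 ^ l : ℕ) δ n) ∨ (¬ Gd t (4 ^ l : ℕ) δ (n + h)) ∨ BL h s t k l ε n ∨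
        EB H k l i0 i1 ε h n ∨ A n ∨ ((∃ j, s ≤ j ∧ j ≤ t' ∧ Hit h k l j n) ∧ ¬ mg h t n) := by
      intro n hn
      by_cases hx : Gd t (4 ^ l : ℕ) δ n
      swap
      · exact Or.inl hx
      by_cases hy : Gd t (4 ^ l : ℕ) δ (n + h)
      swap
      · exact Or.inr (Or.inl hy)
      by_cases hB : BL h s t k l ε n
      · exact Or.inr (Or.inr (Or.inl hB))
      by_cases hE : EB H k l i0 i1 ε h n
      · exact Or.inr (Or.inr (Or.inr (Or.inl hE)))
      by_cases hhit : ∃ j, s ≤ j ∧ j ≤ t' ∧ |Dd h j n| ≤ k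
      · obtain ⟨j, h1, h2, h3⟩ := hhit
        right; right; right; right; right
        exact ⟨⟨j, h1, h2, h3, late_Rg hx hy h1 (by omega) hhH P.c1⟩, hn⟩
      · push Not at hhit
        right; right; right; right; left
        have e1 := clock_early P hε hy hE
        have e2 := clock_late P hε hh.2 hx hy hB hst' ht'.le (fun i a b => hhit i a (by omega))
        have e3 := Ac_mono h n hs
        have e4 := Ac_le_add h n hs
        have e3r : (Ac h (i1 * k) n : ℝ) ≤ Ac h s n := by exact_mod_cast e3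
        have e4r : (Ac h s n : ℝ) ≤ Ac h (i1 * k) n + (s - i1 * k) := by
          have : Ac h s n + i1 * k ≤ Ac h (i1 * k) n + s := by omega
          have : (Ac h s n : ℝ) + i1 * k ≤ Ac h (i1 * k) n + s := by exact_mod_cast this
          linarith
        rw [abs_le] at e1 e2
        have e5 : (t' : ℝ) ≤ t := by exact_mod_cast ht'.le
        have e6 : ((i1 * k : ℕ) : ℝ) ≤ s := by exact_mod_cast hs
        push_cast at e6
        have e8 : ε * ((t' : ℝ) - s) ≤ ε * t - ε * (i1 * k) := by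
          have : ε * ((t' : ℝ) - s) ≤ ε * (t - i1 * k) := mul_le_mul_of_nonneg_left (by linarith) hε
          linarith
        have e9 : 0 ≤ ε * t := by positivity
        have e10 : ε * (i1 * k) ≤ ε * t := by
          apply mul_le_mul_of_nonneg_left _ hε
          have : i1 * k ≤ t := by omega
          exact_mod_cast this
        refine ⟨?_, ?_, hhit⟩
        · have : (mt : ℝ) ≤ Ac h t' n := by linarith [e1.1, e2.1]
          exact_mod_cast this
        · have h1 : (Ac h s n : ℝ) + m < mt := by linarith [e1.2]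
          have h2 : Ac h s n + m < mt := by exact_mod_cast h1
          omega
    refine (pb_mono hcover).trans ?_
    have g2 : pb t (fun n => ¬ Gd t (4 ^ l : ℕ) δ (n + h)) = pb t (fun n => ¬ Gd t (4 ^ l : ℕ) δ n) :=
      pb_shift t ((per_Gd t (4 ^ l) δ).comp (fun p => ¬ p)) h
    have p1 := pb_or t (fun n => ¬ Gd t (4 ^ l : ℕ) δ n) (fun n => (¬ Gd t (4 ^ l : ℕ) δ (n + h)) ∨ BL h s t k l ε n ∨
        EB H k l i0 i1 ε h n ∨ A n ∨ ((∃ j, s ≤ j ∧ j ≤ t' ∧ Hit h k l j n) ∧ ¬ mg h t n))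
    have p2 := pb_or t (fun n => ¬ Gd t (4 ^ l : ℕ) δ (n + h)) (fun n => BL h s t k l ε n ∨
        EB H k l i0 i1 ε h n ∨ A n ∨ ((∃ j, s ≤ j ∧ j ≤ t' ∧ Hit h k l j n) ∧ ¬ mg h t n))
    have p3 := pb_or t (BL h s t k l ε) (fun n =>
        EB H k l i0 i1 ε h n ∨ A n ∨ ((∃ j, s ≤ j ∧ j ≤ t' ∧ Hit h k l j n) ∧ ¬ mg h t n))
    have p4 := pb_or t (EB H k l i0 i1 ε h) (fun n => A n ∨ ((∃ j, s ≤ j ∧ j ≤ t' ∧ Hit h k l j n) ∧ ¬ mg h t n))
    have p5 := pb_or t A (fun n => ((∃ j, s ≤ j ∧ j ≤ t' ∧ Hit h k l j n) ∧ ¬ mg h t n))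
    have p6 := pb_BL (h : ℤ) (s := s) (t := t) (l := l) P.hk hε
    linarith
  refine (sum_le_sum key).trans ?_
  rw [sum_add_distrib, sum_const, Nat.card_Icc, nsmul_eq_mul]
  have h1 := sum_pb_EB (H := H) (t := t) (l := l) (i0 := i0) P.hk hε (hs.trans P.hst)
  rw [Nat.add_sub_cancel]
  refine (add_le_add_right h1 _).trans (le_of_eq ?_)
  ring

/-- The strongly unmerged event. -/
def Su (h : ℤ) (t l δ : ℕ) (n : ℤ) : Prop := Gd t (4 ^ l : ℕ) δ n ∧ Gd t (4 ^ l : ℕ) δ (n + h) ∧ Dd h t n ≠ 0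

theorem main_lb {t H k l δ i0 i1 s : ℕ} (P : Par t H k l δ i0 i1 s) {ε : ℝ} (hε : 0 ≤ ε) {m mt q0 : ℕ} (hm : m ≤ mt)
    (hq0 : 1 ≤ q0)
    (hm1 : 2 * ((mt : ℝ) - m) ≤ (i1 * k : ℝ) - i0 * k - ε * (i1 * k))
    (hm2 : (t : ℝ) + (s - i1 * k) + i0 * k + 2 * ε * t + k + 2 * q0 ≤ 2 * (mt : ℝ)) :
    H * F m mt 0 ≤ ∑ h ∈ Icc 1 H, pb t (Su h t l δ) + H * (2 * k / √ q0 +
      4 * pb t (fun n => ¬ Gd t (4 ^ l : ℕ) δ n) +
      (t + 1) * (56 * (t + 1) ^ 2 * (4 ^ l : ℝ) ^ 2 * Real.exp (-((ε * k) ^ 2 / (2 * k)))) +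
      (t + 1) * (12 * (t + 1) * 4 ^ l * Real.exp (-((ε * k) ^ 2 / (2 * k))))) := by
  have hkr : (0 : ℝ) ≤ k := by positivity
  have hs := P.hs
  have hst := P.hst
  have key : ∀ h ∈ Icc 1 H, F m mt 0 ≤ (pb t (Su h t l δ) + (2 * k / √ q0 +
      4 * pb t (fun n => ¬ Gd t (4 ^ l : ℕ) δ n) +
      (t + 1) * (56 * (t + 1) ^ 2 * (4 ^ l : ℝ) ^ 2 * Real.exp (-((ε * k) ^ 2 / (2 * k)))))) +
      pb t (EB H k l i0 i1 ε h) := by
    intro h hh
    rw [mem_Icc] at hh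
    have hF := lb_F (h : ℤ) (i1 * k) t k m mt hq0 (hs.trans hst)
    set NH : ℤ → Prop := fun n => ∀ j, i1 * k ≤ j → j ≤ t → (k : ℤ) < |Dd h j n| with hNH
    set Bd : ℤ → Prop := fun n => ¬ (mt - m ≤ Ac h (i1 * k) n ∧
      ∀ j, i1 * k ≤ j → j ≤ t → (∀ i, i1 * k ≤ i → i < j → (k : ℤ) < |Dd h i n|) → Ac h j n + q0 ≤ mt) with hBd
    have c1 : ∀ n, NH n → Su h t l δ n ∨ (¬ Gd t (4 ^ l : ℕ) δ n) ∨ (¬ Gd t (4 ^ l : ℕ) δ (n + h)) := by
      intro n hn
      by_cases hx : Gd t (4 ^ l : ℕ) δ n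
      swap
      · exact Or.inr (Or.inl hx)
      by_cases hy : Gd t (4 ^ l : ℕ) δ (n + h)
      swap
      · exact Or.inr (Or.inr hy)
      left
      refine ⟨hx, hy, ?_⟩
      intro h0
      have := hn t (hs.trans hst) le_rfl
      rw [h0] at this
      simp at this
      omega
    have c2 : ∀ n, Bd n → (¬ Gd t (4 ^ l : ℕ) δ n) ∨ (¬ Gd t (4 ^ l : ℕ) δ (n + h)) ∨ BL h s t k l ε n ∨
        EB H k l i0 i1 ε h n := by
      intro n hn
      by_cases hx : Gd t (4 ^ l : ℕ) δ n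
      swap
      · exact Or.inl hx
      by_cases hy : Gd t (4 ^ l : ℕ) δ (n + h)
      swap
      · exact Or.inr (Or.inl hy)
      by_cases hB : BL h s t k l ε n
      · exact Or.inr (Or.inr (Or.inl hB))
      by_cases hE : EB H k l i0 i1 ε h n
      · exact Or.inr (Or.inr (Or.inr hE))
      exfalso
      apply hn
      have e1 := clock_early P hε hy hE
      rw [abs_le] at e1
      have e4 : (0 : ℝ) ≤ ε * (i1 * k) := by positivity
      have e10 : ε * (i1 * k) ≤ ε * t := by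
        apply mul_le_mul_of_nonneg_left _ hε
        have : i1 * k ≤ t := by omega
        exact_mod_cast this
      have e6 : ((i1 * k : ℕ) : ℝ) ≤ s := by exact_mod_cast hs
      push_cast at e6
      have e7 : (s : ℝ) ≤ t := by exact_mod_cast hst
      constructor
      · have h1 : (mt : ℝ) ≤ Ac h (i1 * k) n + m := by linarith [e1.1]
        have h2 : mt ≤ Ac h (i1 * k) n + m := by exact_mod_cast h1
        omega
      · intro j hj1 hj2 hno
        have goal : (Ac h j n : ℝ) + q0 ≤ mt := by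
          rcases le_total j s with hjs | hjs
          · have h3 := Ac_le_add h n hj1
            have h4 : (Ac h j n : ℝ) ≤ Ac h (i1 * k) n + (s - i1 * k) := by
              have : Ac h j n + i1 * k ≤ Ac h (i1 * k) n + s := by omega
              have : (Ac h j n : ℝ) + i1 * k ≤ Ac h (i1 * k) n + s := by exact_mod_cast this
              linarith
            have h5 : (0 : ℝ) ≤ (i0 : ℝ) * k := by positivity
            linarith [e1.2]
          · have h3 := Ac_le_add h n hs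
            have h4 : (Ac h s n : ℝ) ≤ Ac h (i1 * k) n + (s - i1 * k) := by
              have : Ac h s n + i1 * k ≤ Ac h (i1 * k) n + s := by omega
              have : (Ac h s n : ℝ) + i1 * k ≤ Ac h (i1 * k) n + s := by exact_mod_cast this
              linarith
            have e2 := clock_late P hε hh.2 hx hy hB hjs hj2 (fun i a b => hno i (by omega) b)
            rw [abs_le] at e2
            have e5 : (j : ℝ) ≤ t := by exact_mod_cast hj2
            have e8 : ε * ((j : ℝ) - s) ≤ ε * t - ε * (i1 * k) := by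
              have : ε * ((j : ℝ) - s) ≤ ε * (t - i1 * k) := mul_le_mul_of_nonneg_left (by linarith) hε
              linarith
            linarith [e1.2, e2.2]
        exact_mod_cast goal
    have g2 : pb t (fun n => ¬ Gd t (4 ^ l : ℕ) δ (n + h)) = pb t (fun n => ¬ Gd t (4 ^ l : ℕ) δ n) :=
      pb_shift t ((per_Gd t (4 ^ l) δ).comp (fun p => ¬ p)) h
    have q1 := (pb_mono (j := t) c1).trans (pb_or _ _ _)
    have q2 := pb_or t (fun n => ¬ Gd t (4 ^ l : ℕ) δ n) (fun n => ¬ Gd t (4 ^ l : ℕ) δ (n + h))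
    have q3 := (pb_mono (j := t) c2).trans (pb_or _ _ _)
    have q4 := pb_or t (fun n => ¬ Gd t (4 ^ l : ℕ) δ (n + h)) (fun n => BL h s t k l ε n ∨ EB H k l i0 i1 ε h n)
    have q5 := pb_or t (BL h s t k l ε) (EB H k l i0 i1 ε h)
    have p6 := pb_BL (h : ℤ) (s := s) (t := t) (l := l) P.hk hε
    linarith
  have h2 := sum_le_sum key
  rw [sum_const, Nat.card_Icc, nsmul_eq_mul, Nat.add_sub_cancel, sum_add_distrib, sum_add_distrib,
    sum_const, Nat.card_Icc, nsmul_eq_mul, Nat.add_sub_cancel] at h2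
  have h1 := sum_pb_EB (H := H) (t := t) (l := l) (i0 := i0) P.hk hε (hs.trans P.hst)
  linarith

end Pool.Agent.J4H39
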