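import Mathlib
import Pool.Agent.J4H39.W9

set_option autoImplicit false

namespace Pool.Agent.J4H39

open Finset Filter Topology
open Pool.Agent.H499R2.CO (q step rho)

/-! Asymptotics of the error terms. -/

/-- The window length. -/
def kk (t : ℕ) : ℕ := Nat.sqrt (Nat.sqrt t)

/-- The exponent of the bound for the offsets. -/
def ll (t : ℕ) : ℕ := 2 * (Nat.log 2 t + 1)

theorem kk_le (t : ℕ) : (kk t) ^ 4 ≤ t := by
  have h1 := Nat.sqrt_le' (Nat.sqrt t)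
  have h2 := Nat.sqrt_le' t
  calc (kk t) ^ 4 = ((Nat.sqrt (Nat.sqrt t)) ^ 2) ^ 2 := by unfold kk; ring
    _ ≤ (Nat.sqrt t) ^ 2 := Nat.pow_le_pow_left h1 2
    _ ≤ t := h2

theorem lt_kk (t : ℕ) : t < (kk t + 1) ^ 4 := by
  have h1 := Nat.lt_succ_sqrt' (Nat.sqrt t)
  have h2 := Nat.lt_succ_sqrt' t
  have h3 : Nat.sqrt t + 1 ≤ (kk t + 1) ^ 2 := h1
  calc t < (Nat.sqrt t + 1) ^ 2 := h2
    _ ≤ ((kk t + 1) ^ 2) ^ 2 := Nat.pow_le_pow_left h3 2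
    _ = (kk t + 1) ^ 4 := by ring

theorem kk_tendsto : Tendsto kk atTop atTop := by
  rw [tendsto_atTop_atTop]
  intro b
  refine ⟨(b + 1) ^ 4, fun t ht => ?_⟩
  by_contra hcon
  push Not at hcon
  have h1 := lt_kk t
  have h2 : (kk t + 1) ^ 4 ≤ (b + 1) ^ 4 := Nat.pow_le_pow_left (by omega) 4
  omega

theorem kk_pos {t : ℕ} (ht : 1 ≤ t) : 1 ≤ kk t := by
  by_contra hcon
  have h0 : kk t = 0 := by omega
  have := lt_kk t
  rw [h0] at this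
  omega

theorem t_le_kk {t : ℕ} (ht : 1 ≤ t) : (t : ℝ) ≤ 16 * (kk t : ℝ) ^ 4 := by
  have h1 := lt_kk t
  have h2 := kk_pos ht
  have h3 : (t : ℝ) ≤ ((kk t : ℝ) + 1) ^ 4 := by exact_mod_cast h1.le
  have h4 : (1 : ℝ) ≤ kk t := by exact_mod_cast h2
  calc (t : ℝ) ≤ ((kk t : ℝ) + 1) ^ 4 := h3
    _ ≤ (2 * (kk t : ℝ)) ^ 4 := by
        apply pow_le_pow_left₀ (by positivity); linarith
    _ = 16 * (kk t : ℝ) ^ 4 := by ring

theorem t_succ_le {t : ℕ} (ht : 1 ≤ t) : (t : ℝ) + 1 ≤ 32 * (kk t : ℝ) ^ 4 := by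
  have h1 := t_le_kk ht
  have h2 : (1 : ℝ) ≤ t := by exact_mod_cast ht
  linarith

theorem four_ll {t : ℕ} (ht : 1 ≤ t) : (t : ℝ) ^ 4 ≤ 4 ^ ll t ∧ (4 : ℝ) ^ ll t ≤ 16 * (t : ℝ) ^ 4 := by
  have h1 : t < 2 ^ (Nat.log 2 t + 1) := Nat.lt_pow_succ_log_self (by norm_num) t
  have h2 : 2 ^ Nat.log 2 t ≤ t := Nat.pow_log_le_self 2 (by omega)
  have e : (4 : ℝ) ^ ll t = (2 ^ (Nat.log 2 t + 1)) ^ 4 := by
    unfold ll
    rw [show (4 : ℝ) = 2 ^ 2 by norm_num, ← pow_mul, ← pow_mul]; congr 1; ring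
  have h1r : (t : ℝ) ≤ 2 ^ (Nat.log 2 t + 1) := by exact_mod_cast h1.le
  have h2r : (2 : ℝ) ^ Nat.log 2 t ≤ t := by exact_mod_cast h2
  rw [e]
  constructor
  · exact pow_le_pow_left₀ (by positivity) h1r 4
  · calc ((2 : ℝ) ^ (Nat.log 2 t + 1)) ^ 4 = (2 * 2 ^ Nat.log 2 t) ^ 4 := by rw [pow_succ]; ring
      _ ≤ (2 * (t : ℝ)) ^ 4 := by
          apply pow_le_pow_left₀ (by positivity); linarith
      _ = 16 * (t : ℝ) ^ 4 := by ring

theorem kk_div : Tendsto (fun t : ℕ => (kk t : ℝ) / t) atTop (𝓝 0) := by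
  have h1 : Tendsto (fun t : ℕ => 1 / (kk t : ℝ)) atTop (𝓝 0) :=
    (tendsto_const_nhds.div_atTop (tendsto_natCast_atTop_atTop.comp kk_tendsto))
  refine squeeze_zero' (Eventually.of_forall fun t => by positivity) ?_ h1
  filter_upwards [eventually_ge_atTop 1] with t ht
  have hk : (1 : ℝ) ≤ kk t := by exact_mod_cast kk_pos ht
  have h2 : ((kk t : ℝ)) ^ 4 ≤ t := by exact_mod_cast kk_le t
  have ht0 : (0 : ℝ) < t := by exact_mod_cast ht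
  rw [div_le_div_iff₀ ht0 (by linarith)]
  have h3 : (kk t : ℝ) ^ 2 ≤ (kk t : ℝ) ^ 4 := pow_le_pow_right₀ hk (by norm_num)
  nlinarith

theorem exp_poly (n : ℕ) {c : ℝ} (hc : 0 < c) : Tendsto (fun t : ℕ => (kk t : ℝ) ^ n * Real.exp (-(c * kk t))) atTop (𝓝 0) := by
  have h1 : Tendsto (fun t : ℕ => c * (kk t : ℝ)) atTop atTop :=
    (tendsto_natCast_atTop_atTop.comp kk_tendsto).const_mul_atTop hc
  have h2 := (Real.tendsto_pow_mul_exp_neg_atTop_nhds_zero n).comp h1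
  have h3 := h2.const_mul (1 / c ^ n)
  rw [mul_zero] at h3
  refine h3.congr (fun t => ?_)
  simp only [Function.comp]
  rw [mul_pow]
  field_simp

/-- The window error. -/
noncomputable def Er (ε : ℝ) (t : ℕ) : ℝ :=
  (t + 1) * (56 * (t + 1) ^ 2 * (4 ^ ll t : ℝ) ^ 2 * Real.exp (-((ε * kk t) ^ 2 / (2 * kk t)))) +
      (t + 1) * (12 * (t + 1) * 4 ^ ll t * Real.exp (-((ε * kk t) ^ 2 / (2 * kk t))))

theorem Er_tendsto {ε : ℝ} (hε : 0 < ε) : Tendsto (Er ε) atTop (𝓝 0) := by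
  have h1 : Tendsto (fun t : ℕ => (56 * 32 ^ 3 * (16 * 16 ^ 4) ^ 2 + 12 * 32 ^ 2 * (16 * 16 ^ 4)) *
      ((kk t : ℝ) ^ 44 * Real.exp (-(ε ^ 2 / 2 * kk t)))) atTop (𝓝 0) := by
    have := (exp_poly 44 (c := ε ^ 2 / 2) (by positivity)).const_mul
      (56 * 32 ^ 3 * (16 * 16 ^ 4) ^ 2 + 12 * 32 ^ 2 * (16 * 16 ^ 4))
    rwa [mul_zero] at this
  refine squeeze_zero' (Eventually.of_forall fun t => by unfold Er; positivity) ?_ h1
  filter_upwards [eventually_ge_atTop 1] with t ht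
  have hk : (1 : ℝ) ≤ kk t := by exact_mod_cast kk_pos ht
  have hk0 : (0 : ℝ) < kk t := by linarith
  have e1 : (ε * (kk t : ℝ)) ^ 2 / (2 * kk t) = ε ^ 2 / 2 * kk t := by field_simp
  unfold Er
  rw [e1]
  set E := Real.exp (-(ε ^ 2 / 2 * kk t)) with hE
  have hE0 : 0 ≤ E := (Real.exp_pos _).le
  have h2 := t_succ_le ht
  have h3 := (four_ll ht).2
  have h4 := t_le_kk ht
  have h5 : (4 : ℝ) ^ ll t ≤ 16 * 16 ^ 4 * (kk t : ℝ) ^ 16 := by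
    calc (4 : ℝ) ^ ll t ≤ 16 * (t : ℝ) ^ 4 := h3
      _ ≤ 16 * (16 * (kk t : ℝ) ^ 4) ^ 4 := by gcongr
      _ = 16 * 16 ^ 4 * (kk t : ℝ) ^ 16 := by ring
  have h6 : ((t : ℝ) + 1) * (56 * (t + 1) ^ 2 * (4 ^ ll t : ℝ) ^ 2 * E) ≤
      (32 * (kk t : ℝ) ^ 4) * (56 * (32 * (kk t : ℝ) ^ 4) ^ 2 * (16 * 16 ^ 4 * (kk t : ℝ) ^ 16) ^ 2 * E) := by
    gcongr
  have h7 : ((t : ℝ) + 1) * (12 * (t + 1) * 4 ^ ll t * E) ≤
      (32 * (kk t : ℝ) ^ 4) * (12 * (32 * (kk t : ℝ) ^ 4) * (16 * 16 ^ 4 * (kk t : ℝ) ^ 16) * E) := by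
    gcongr
  have h8 : (32 * (kk t : ℝ) ^ 4) * (12 * (32 * (kk t : ℝ) ^ 4) * (16 * 16 ^ 4 * (kk t : ℝ) ^ 16) * E) ≤
      12 * 32 ^ 2 * (16 * 16 ^ 4) * ((kk t : ℝ) ^ 44 * E) := by
    have h9 : (kk t : ℝ) ^ 24 ≤ (kk t : ℝ) ^ 44 := pow_le_pow_right₀ hk (by norm_num)
    calc (32 * (kk t : ℝ) ^ 4) * (12 * (32 * (kk t : ℝ) ^ 4) * (16 * 16 ^ 4 * (kk t : ℝ) ^ 16) * E) =
          12 * 32 ^ 2 * (16 * 16 ^ 4) * ((kk t : ℝ) ^ 24 * E) := by ring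
      _ ≤ _ := by gcongr
  have h9 : (32 * (kk t : ℝ) ^ 4) * (56 * (32 * (kk t : ℝ) ^ 4) ^ 2 * (16 * 16 ^ 4 * (kk t : ℝ) ^ 16) ^ 2 * E) =
      56 * 32 ^ 3 * (16 * 16 ^ 4) ^ 2 * ((kk t : ℝ) ^ 44 * E) := by ring
  have h10 : (56 * 32 ^ 3 * (16 * 16 ^ 4) ^ 2 + 12 * 32 ^ 2 * (16 * 16 ^ 4)) * ((kk t : ℝ) ^ 44 * E) =
      56 * 32 ^ 3 * (16 * 16 ^ 4) ^ 2 * ((kk t : ℝ) ^ 44 * E) +
      12 * 32 ^ 2 * (16 * 16 ^ 4) * ((kk t : ℝ) ^ 44 * E) := by ring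
  rw [h10]
  linarith

/-- The probability of the exceptional set. -/
theorem Gd_tendsto {c : ℝ} (hc : 0 < c) : Tendsto (fun t : ℕ => pb t (fun n => ¬ Gd t (4 ^ ll t : ℕ) (⌊c * t⌋₊ : ℕ) n)) atTop (𝓝 0) := by
  have h0 : Tendsto (fun t : ℕ => (2 : ℝ) / t) atTop (𝓝 0) :=
    tendsto_const_nhds.div_atTop tendsto_natCast_atTop_atTop
  have h1 : Tendsto (fun t : ℕ => 4 * ((t : ℝ) * Real.exp (-(c ^ 2 / 8 * t)))) atTop (𝓝 0) := by
    have h2 : Tendsto (fun t : ℕ => c ^ 2 / 8 * (t : ℝ)) atTop atTop :=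
      tendsto_natCast_atTop_atTop.const_mul_atTop (by positivity)
    have h3 := (Real.tendsto_pow_mul_exp_neg_atTop_nhds_zero 1).comp h2
    have h4 := h3.const_mul (4 * (8 / c ^ 2))
    rw [mul_zero] at h4
    refine h4.congr (fun t => ?_)
    simp only [Function.comp, pow_one]
    field_simp
  have h2 := h0.add h1
  rw [add_zero] at h2
  refine squeeze_zero' (Eventually.of_forall fun t => pb_nonneg _ _) ?_ h2
  filter_upwards [eventually_ge_atTop 1, eventually_ge_atTop (⌈2 / c⌉₊)] with t ht ht2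
  have ht0 : (0 : ℝ) < t := by exact_mod_cast ht
  have ht1 : (1 : ℝ) ≤ t := by exact_mod_cast ht
  have hct : 2 ≤ c * t := by
    have : 2 / c ≤ t := Nat.ceil_le.1 ht2
    rw [div_le_iff₀ hc] at this
    linarith
  have hfl : c * t / 2 ≤ (⌊c * t⌋₊ : ℝ) := by
    have := Nat.lt_floor_add_one (c * (t : ℝ))
    linarith
  refine (pb_Gd (L := 4 ^ ll t) (Nat.one_le_pow _ _ (by norm_num)) ht (δ := (⌊c * t⌋₊ : ℕ)) (by positivity)).trans ?_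
  have h3 := (four_ll ht).1
  have h4 : ((t : ℝ) + 1) * (t / (4 * ((4 ^ ll t : ℕ) : ℝ))) ≤ 2 / t := by
    push_cast
    have h5 : (t : ℝ) / (4 * 4 ^ ll t) ≤ t / (4 * t ^ 4) := by gcongr
    have h6 : (t : ℝ) / (4 * t ^ 4) = 1 / (4 * t ^ 3) := by field_simp
    rw [h6] at h5
    calc ((t : ℝ) + 1) * (t / (4 * 4 ^ ll t)) ≤ (t + 1) * (1 / (4 * t ^ 3)) := by gcongr
      _ ≤ (2 * t) * (1 / (4 * t)) * (1 / t) := by
          have : (t : ℝ) + 1 ≤ 2 * t := by linarith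
          have h7 : 1 / (4 * (t : ℝ) ^ 3) ≤ 1 / (4 * t) * (1 / t) := by
            have e : 1 / (4 * (t : ℝ)) * (1 / t) = 1 / (4 * t ^ 2) := by field_simp
            rw [e]
            apply one_div_le_one_div_of_le (by positivity)
            have : (t : ℝ) ^ 2 ≤ t ^ 3 := pow_le_pow_right₀ ht1 (by norm_num)
            linarith
          calc ((t : ℝ) + 1) * (1 / (4 * t ^ 3)) ≤ (2 * t) * (1 / (4 * t) * (1 / t)) := by gcongr
            _ = _ := by ring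
      _ ≤ 2 / t := by
          have : (2 * (t : ℝ)) * (1 / (4 * t)) * (1 / t) = (1 / 2) / t := by field_simp; norm_num
          rw [this]
          gcongr; norm_num
  have h5 : ((t : ℝ) + 1) * (2 * Real.exp (-((⌊c * t⌋₊ : ℝ) ^ 2 / (2 * t)))) ≤ 4 * (t * Real.exp (-(c ^ 2 / 8 * t))) := by
    have h6 : Real.exp (-((⌊c * t⌋₊ : ℝ) ^ 2 / (2 * t))) ≤ Real.exp (-(c ^ 2 / 8 * t)) := by
      apply Real.exp_le_exp.2
      apply neg_le_neg
      rw [le_div_iff₀ (by positivity)]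
      calc c ^ 2 / 8 * t * (2 * t) = (c * t / 2) ^ 2 := by ring
        _ ≤ (⌊c * t⌋₊ : ℝ) ^ 2 := pow_le_pow_left₀ (by positivity) hfl 2
    calc ((t : ℝ) + 1) * (2 * Real.exp (-((⌊c * t⌋₊ : ℝ) ^ 2 / (2 * t)))) ≤ (2 * t) * (2 * Real.exp (-(c ^ 2 / 8 * t))) := by
          gcongr; linarith
      _ = _ := by ring
  rw [mul_add]
  exact add_le_add h4 h5

/-- The rate of merging after a visit near `0`. -/
noncomputable def Qr (C ε : ℝ) (t : ℕ) : ℝ :=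
  C * √ (1 + (kk t : ℝ) ^ 2 + (kk t + ll t + 1 : ℕ)) * √ (Real.log (t + 1) / (ε * t))

theorem log_t_le {t : ℕ} (ht : 1 ≤ t) : Real.log ((t : ℝ) + 1) ≤ 8 * kk t := by
  have hk : (1 : ℝ) ≤ kk t := by exact_mod_cast kk_pos ht
  have h1 := t_succ_le ht
  have ht0 : (0 : ℝ) < t := by exact_mod_cast ht
  have h2 : Real.log ((t : ℝ) + 1) ≤ Real.log (32 * (kk t : ℝ) ^ 4) := Real.log_le_log (by linarith) h1
  rw [Real.log_mul (by norm_num) (by positivity), Real.log_pow, show (32 : ℝ) = 2 ^ 5 by norm_num, Real.log_pow] at h2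
  have h3 := Real.log_two_lt_d9
  have h4 := Real.log_le_sub_one_of_pos (show (0 : ℝ) < kk t by linarith)
  push_cast at h2
  linarith

theorem ll_le {t : ℕ} (ht : 1 ≤ t) : (ll t : ℝ) ≤ 26 * kk t := by
  have hk : (1 : ℝ) ≤ kk t := by exact_mod_cast kk_pos ht
  have ht0 : (0 : ℝ) < t := by exact_mod_cast ht
  have h1 : 2 ^ Nat.log 2 t ≤ t := Nat.pow_log_le_self 2 (by omega)
  have h2 : (2 : ℝ) ^ Nat.log 2 t ≤ t := by exact_mod_cast h1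
  have h3 := Real.log_le_log (by positivity) h2
  rw [Real.log_pow] at h3
  have h4 := log_t_le ht
  have h5 : Real.log t ≤ Real.log ((t : ℝ) + 1) := Real.log_le_log ht0 (by linarith)
  have h6 := Real.log_two_gt_d9
  have h7 : (Nat.log 2 t : ℝ) * 0.69 ≤ 8 * kk t := by
    have : (Nat.log 2 t : ℝ) * 0.69 ≤ (Nat.log 2 t : ℝ) * Real.log 2 :=
      mul_le_mul_of_nonneg_left (by linarith) (by positivity)
    linarith
  unfold ll
  push_cast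
  linarith

theorem Qr_tendsto {C ε : ℝ} (hC : 0 < C) (hε : 0 < ε) : Tendsto (Qr C ε) atTop (𝓝 0) := by
  have h0 : Tendsto (fun t : ℕ => C * √ ((240 / ε) / (kk t : ℝ))) atTop (𝓝 0) := by
    have h1 : Tendsto (fun t : ℕ => (240 / ε) / (kk t : ℝ)) atTop (𝓝 0) :=
      (tendsto_const_nhds.div_atTop (tendsto_natCast_atTop_atTop.comp kk_tendsto))
    have h2 := (Real.continuous_sqrt.tendsto 0).comp h1
    rw [Real.sqrt_zero] at h2
    have h3 := h2.const_mul C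
    rwa [mul_zero] at h3
  refine squeeze_zero' (Eventually.of_forall fun t => by unfold Qr; positivity) ?_ h0
  filter_upwards [eventually_ge_atTop 1] with t ht
  unfold Qr
  have hk : (1 : ℝ) ≤ kk t := by exact_mod_cast kk_pos ht
  have ht0 : (0 : ℝ) < t := by exact_mod_cast ht
  rw [mul_assoc, ← Real.sqrt_mul (by positivity)]
  apply mul_le_mul_of_nonneg_left _ hC.le
  apply Real.sqrt_le_sqrt
  have h1 := log_t_le ht
  have h2 := ll_le ht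
  have h3 : ((kk t : ℝ)) ^ 4 ≤ t := by exact_mod_cast kk_le t
  have hlog0 : 0 ≤ Real.log ((t : ℝ) + 1) := Real.log_nonneg (by linarith)
  have h4 : (1 : ℝ) + (kk t : ℝ) ^ 2 + ((kk t + ll t + 1 : ℕ) : ℝ) ≤ 30 * (kk t : ℝ) ^ 2 := by
    push_cast
    nlinarith
  calc (1 + (kk t : ℝ) ^ 2 + ((kk t + ll t + 1 : ℕ) : ℝ)) * (Real.log ((t : ℝ) + 1) / (ε * t)) ≤
      (30 * (kk t : ℝ) ^ 2) * ((8 * kk t) / (ε * (kk t : ℝ) ^ 4)) := by gcongr
    _ = (240 / ε) / kk t := by field_simp; norm_num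

theorem QQ_le_Qr {C ε : ℝ} (hC : 0 < C) (hε : 0 < ε) {t k' : ℕ} (ht : 1 ≤ t) (h1 : ε * t ≤ k') (h2 : k' ≤ t) :
    QQ C (kk t) (ll t) k' ≤ Qr C ε t := by
  unfold QQ Qr rho
  have ht0 : (0 : ℝ) < t := by exact_mod_cast ht
  have hk0 : (0 : ℝ) < k' := lt_of_lt_of_le (by positivity) h1
  apply mul_le_mul_of_nonneg_left _ (by positivity)
  apply Real.sqrt_le_sqrt
  have h3 : (k' : ℝ) ≤ t := by exact_mod_cast h2
  have h4 : Real.log ((k' : ℝ) + 1) ≤ Real.log ((t : ℝ) + 1) := Real.log_le_log (by linarith) (by linarith)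
  have h5 : 0 ≤ Real.log ((t : ℝ) + 1) := Real.log_nonneg (by linarith)
  gcongr

/-- The error in the lower bound. -/
theorem lbe_tendsto {ε : ℝ} (hε : 0 < ε) : Tendsto (fun t : ℕ => 2 * (kk t : ℝ) / √ (⌊ε * t⌋₊ : ℕ)) atTop (𝓝 0) := by
  have h0 : Tendsto (fun t : ℕ => (2 * √ (2 / ε)) / (kk t : ℝ)) atTop (𝓝 0) :=
    (tendsto_const_nhds.div_atTop (tendsto_natCast_atTop_atTop.comp kk_tendsto))
  refine squeeze_zero' (Eventually.of_forall fun t => by positivity) ?_ h0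
  filter_upwards [eventually_ge_atTop 1, eventually_ge_atTop (⌈2 / ε⌉₊)] with t ht ht2
  have hk : (1 : ℝ) ≤ kk t := by exact_mod_cast kk_pos ht
  have ht0 : (0 : ℝ) < t := by exact_mod_cast ht
  have hct : 2 ≤ ε * t := by
    have : 2 / ε ≤ t := Nat.ceil_le.1 ht2
    rw [div_le_iff₀ hε] at this
    linarith
  have hfl : ε * t / 2 ≤ (⌊ε * t⌋₊ : ℝ) := by
    have := Nat.lt_floor_add_one (ε * (t : ℝ))
    linarith
  have h3 : ((kk t : ℝ)) ^ 4 ≤ t := by exact_mod_cast kk_le t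
  have h4 : √ (ε / 2) * (kk t : ℝ) ^ 2 ≤ √ (⌊ε * t⌋₊ : ℕ) := by
    have e : √ (ε / 2) * (kk t : ℝ) ^ 2 = √ (ε / 2 * (kk t : ℝ) ^ 4) := by
      rw [Real.sqrt_mul (by positivity), show (kk t : ℝ) ^ 4 = ((kk t : ℝ) ^ 2) ^ 2 by ring,
        Real.sqrt_sq (by positivity)]
    rw [e]
    apply Real.sqrt_le_sqrt
    refine le_trans ?_ hfl
    nlinarith
  have h5 : 0 < √ (ε / 2) := Real.sqrt_pos.2 (by positivity)
  have h6 : √ (2 / ε) = 1 / √ (ε / 2) := by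
    rw [← Real.sqrt_one, ← Real.sqrt_div (by norm_num)]
    congr 1
    field_simp
  rw [h6]
  calc 2 * (kk t : ℝ) / √ (⌊ε * t⌋₊ : ℕ) ≤ 2 * (kk t : ℝ) / (√ (ε / 2) * (kk t : ℝ) ^ 2) := by
        gcongr
    _ = 2 * (1 / √ (ε / 2)) / kk t := by field_simp

end Pool.Agent.J4H39
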