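import Mathlib
import Pool.Agent.J4H39.V3
import Pool.Agent.J4H39.W10

set_option autoImplicit false

namespace Pool.Agent.J4H39

open Finset Filter Topology
open Pool.Agent.H499R2.CO (rho)

/-! The probability of not having merged, from an arbitrary state. -/

theorem U_mono_nat (q : ℕ) (d : ℕ) : U q d ≤ U q ((d : ℤ) + 1) := by
  induction q generalizing d with
  | zero =>
    rw [U_base (show ((d : ℤ) + 1) ≠ 0 by omega)]; exact U_le_one _ _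
  | succ q ih =>
    rcases Nat.eq_zero_or_pos d with h | h
    · subst h
      simp only [Nat.cast_zero, U_zero]; exact U_nonneg _ _
    · obtain ⟨e, rfl⟩ : ∃ e, d = e + 1 := ⟨d - 1, by omega⟩
      rw [U_rec q (show (((e + 1 : ℕ) : ℤ)) ≠ 0 by push_cast; omega),
        U_rec q (show (((e + 1 : ℕ) : ℤ)) + 1 ≠ 0 by push_cast; omega)]
      have h1 := ih (e + 2)
      have h2 := ih e
      push_cast at h1 h2 ⊢
      rw [show (e : ℤ) + 1 + 1 + 1 = e + 2 + 1 by ring, show (e : ℤ) + 1 + 1 = e + 2 by ring,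
        show (e : ℤ) + 1 - 1 = e by ring, show (e : ℤ) + 2 - 1 = e + 1 by ring]
      linarith

theorem U_lip_nat (q : ℕ) (a b : ℕ) (h : a ≤ b) : 0 ≤ U q b - U q a ∧ U q b - U q a ≤ ((b : ℝ) - a) * U q 1 := by
  induction b, h using Nat.le_induction with
  | base => simp
  | succ b h ih =>
    have h1 := U_incr q b
    have h2 := U_mono_nat q b
    push_cast
    constructor
    · linarith [ih.1]
    · linarith [ih.2]

theorem U_abs (q : ℕ) (d : ℤ) : U q d = U q (d.natAbs : ℕ) := by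
  rcases le_total 0 d with h | h
  · rw [Int.natCast_natAbs, abs_of_nonneg h]
  · rw [Int.natCast_natAbs, abs_of_nonpos h, U_neg]

theorem U_lip (q : ℕ) (x y : ℤ) : |U q x - U q y| ≤ |(x : ℝ) - y| * U q 1 := by
  rw [U_abs q x, U_abs q y]
  have hU := U_nonneg q 1
  have key : ∀ a b : ℕ, |U q a - U q b| ≤ |(a : ℝ) - b| * U q 1 := by
    intro a b
    rcases le_total a b with h | h
    · obtain ⟨h1, h2⟩ := U_lip_nat q a b h
      have h3 : (a : ℝ) ≤ b := by exact_mod_cast h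
      rw [abs_sub_comm, abs_of_nonneg h1, abs_sub_comm, abs_of_nonneg (by linarith)]
      exact h2
    · obtain ⟨h1, h2⟩ := U_lip_nat q b a h
      have h3 : (b : ℝ) ≤ a := by exact_mod_cast h
      rw [abs_of_nonneg h1, abs_of_nonneg (by linarith)]
      exact h2
  refine (key _ _).trans ?_
  apply mul_le_mul_of_nonneg_right _ hU
  rw [show ((x.natAbs : ℕ) : ℝ) = |(x : ℝ)| by rw [Nat.cast_natAbs]; push_cast; rfl,
    show ((y.natAbs : ℕ) : ℝ) = |(y : ℝ)| by rw [Nat.cast_natAbs]; push_cast; rfl]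
  exact abs_abs_sub_abs_le _ _

theorem F_near {m : ℕ} (hm : 1 ≤ m) (a : ℕ) : ∀ d d' : ℤ,
    |F m (m + a) d - U m d'| ≤ 2 / √ m * √ (((d : ℝ) - d') ^ 2 + a) := by
  have hs : 0 ≤ 2 / √ (m : ℝ) := by positivity
  induction a with
  | zero =>
    intro d d'
    rw [add_zero, F_eq_U le_rfl]
    simp only [Nat.cast_zero, add_zero]
    rw [Real.sqrt_sq_eq_abs]
    refine (U_lip m d d').trans ?_
    rw [mul_comm]
    exact mul_le_mul_of_nonneg_right (U_bound_one hm) (abs_nonneg _)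
  | succ a ih =>
    intro d d'
    rw [show m + (a + 1) = (m + a) + 1 by ring, F_rec (by omega)]
    have h1 := ih (d + 1) d'
    have h2 := ih (d - 1) d'
    have h3 : (F m (m + a) (d + 1) + F m (m + a) (d - 1)) / 2 - U m d' =
        ((F m (m + a) (d + 1) - U m d') + (F m (m + a) (d - 1) - U m d')) / 2 := by ring
    rw [h3, abs_div, abs_of_pos (by norm_num : (0 : ℝ) < 2)]
    have h4 := abs_add_le (F m (m + a) (d + 1) - U m d') (F m (m + a) (d - 1) - U m d')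
    push_cast at h1 h2 ⊢
    set A := √ (((d : ℝ) + 1 - d') ^ 2 + a) with hA
    set B := √ (((d : ℝ) - 1 - d') ^ 2 + a) with hB
    have hA0 : 0 ≤ A := Real.sqrt_nonneg _
    have hB0 : 0 ≤ B := Real.sqrt_nonneg _
    have hA2 : A ^ 2 = ((d : ℝ) + 1 - d') ^ 2 + a := Real.sq_sqrt (by positivity)
    have hB2 : B ^ 2 = ((d : ℝ) - 1 - d') ^ 2 + a := Real.sq_sqrt (by positivity)
    have h5 : (A + B) / 2 ≤ √ (((d : ℝ) - d') ^ 2 + (a + 1)) := by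
      apply Real.le_sqrt_of_sq_le
      have : (A + B) ^ 2 ≤ 2 * (A ^ 2 + B ^ 2) := by nlinarith [sq_nonneg (A - B)]
      have e : ((A + B) / 2) ^ 2 = (A + B) ^ 2 / 4 := by ring
      rw [e]
      rw [hA2, hB2] at this
      linarith
    have h6 : 2 / √ (m : ℝ) * ((A + B) / 2) ≤ 2 / √ m * √ (((d : ℝ) - d') ^ 2 + (a + 1)) :=
      mul_le_mul_of_nonneg_left h5 hs
    have h7 : 2 / √ (m : ℝ) * ((A + B) / 2) = (2 / √ m * A + 2 / √ m * B) / 2 := by ring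
    linarith

theorem p_nonneg (n : ℕ) : ∀ d : ℤ, 0 ≤ p n d := by
  induction n with
  | zero => intro d; unfold p; split_ifs <;> norm_num
  | succ n ih => intro d; rw [p_succ]; have := ih (d + 1); have := ih (d - 1); linarith

theorem F_tele (m A : ℕ) (d : ℤ) : F m (m + A) d - U (m + A) d = ∑ a ∈ range A, p a d * U (m + A - 1 - a) 1 := by
  have key : ∀ j ≤ A, F (m + A - j) (m + A) d - U (m + A) d = ∑ a ∈ range j, p a d * U (m + A - 1 - a) 1 := by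
    intro j
    induction j with
    | zero => intro _; rw [Nat.sub_zero, F_eq_U le_rfl]; simp
    | succ j ih =>
      intro hj
      rw [sum_range_succ, ← ih (by omega)]
      have h := F_diff (m + A - 1 - j) j d
      rw [show m + A - 1 - j + j + 1 = m + A by omega, show m + A - 1 - j + 1 = m + A - j by omega] at h
      rw [show m + A - (j + 1) = m + A - 1 - j by omega]
      linarith
  have := key A le_rfl
  rwa [Nat.add_sub_cancel] at this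

theorem U_one_lower (A : ℕ) : 1 / √ (8 * ((A : ℝ) + 1)) ≤ U A 1 := by
  have h1 : U (2 * A + 1) 1 ≤ U A 1 := U_antitone 1 (by omega)
  rw [U_one] at h1
  refine le_trans ?_ h1
  have h2 := le_u_sq (A + 1)
  have hu := u_pos (A + 1)
  rw [div_le_iff₀ (Real.sqrt_pos.2 (by positivity))]
  have h3 : 1 ≤ (u (A + 1)) ^ 2 * (8 * ((A : ℝ) + 1)) := by
    rw [div_le_iff₀ (by positivity)] at h2
    refine h2.trans ?_
    apply mul_le_mul_of_nonneg_left _ (by positivity)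
    push_cast
    have := Real.pi_le_four
    nlinarith
  have h4 : (u (A + 1) * √ (8 * ((A : ℝ) + 1))) ^ 2 = (u (A + 1)) ^ 2 * (8 * ((A : ℝ) + 1)) := by
    rw [mul_pow, Real.sq_sqrt (by positivity)]
  have h5 : 0 ≤ u (A + 1) * √ (8 * ((A : ℝ) + 1)) := by positivity
  nlinarith

theorem sum_p_le (A : ℕ) (d : ℤ) : ∑ a ∈ range A, p a d ≤ √ (8 * ((A : ℝ) + 1)) := by
  have h1 := F_tele 0 A d
  rw [zero_add] at h1
  have h2 : (∑ a ∈ range A, p a d) * U A 1 ≤ ∑ a ∈ range A, p a d * U (A - 1 - a) 1 := by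
    rw [sum_mul]
    apply sum_le_sum
    intro a _
    exact mul_le_mul_of_nonneg_left (U_antitone 1 (by omega)) (p_nonneg _ _)
  have h3 := F_le_one 0 A d
  have h4 := U_nonneg A d
  have h5 := U_one_lower A
  have h6 : 0 ≤ ∑ a ∈ range A, p a d := sum_nonneg fun _ _ => p_nonneg _ _
  have h7 : 0 < √ (8 * ((A : ℝ) + 1)) := Real.sqrt_pos.2 (by positivity)
  have h8 : (∑ a ∈ range A, p a d) * (1 / √ (8 * ((A : ℝ) + 1))) ≤ 1 :=
    (mul_le_mul_of_nonneg_left h5 h6).trans (h2.trans (by rw [← h1]; linarith))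
  rw [mul_one_div, div_le_one h7] at h8
  exact h8

theorem F_le_U {m : ℕ} (hm : 1 ≤ m) (A : ℕ) (d : ℤ) : F m (m + A) d ≤ U (m + A) d + 6 * √ (((A : ℝ) + 1) / m) := by
  have h1 := F_tele m A d
  have hm0 : (0 : ℝ) < m := by exact_mod_cast hm
  have h2 : ∑ a ∈ range A, p a d * U (m + A - 1 - a) 1 ≤ (∑ a ∈ range A, p a d) * (2 / √ m) := by
    rw [sum_mul]
    apply sum_le_sum
    intro a ha
    rw [mem_range] at ha
    apply mul_le_mul_of_nonneg_left _ (p_nonneg _ _)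
    exact (U_antitone 1 (by omega : m ≤ m + A - 1 - a)).trans (U_bound_one hm)
  have h3 := sum_p_le A d
  have h4 : (∑ a ∈ range A, p a d) * (2 / √ m) ≤ √ (8 * ((A : ℝ) + 1)) * (2 / √ m) :=
    mul_le_mul_of_nonneg_right h3 (by positivity)
  have h5 : √ (8 * ((A : ℝ) + 1)) * (2 / √ m) ≤ 6 * √ (((A : ℝ) + 1) / m) := by
    rw [Real.sqrt_div (by positivity), Real.sqrt_mul (by norm_num)]
    have h6 : √ (8 : ℝ) ≤ 3 := by
      rw [Real.sqrt_le_left (by norm_num)]; norm_num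
    have h7 : 0 ≤ √ ((A : ℝ) + 1) := Real.sqrt_nonneg _
    calc √ (8 : ℝ) * √ ((A : ℝ) + 1) * (2 / √ m) ≤ 3 * √ ((A : ℝ) + 1) * (2 / √ m) := by gcongr
      _ = 6 * (√ ((A : ℝ) + 1) / √ m) := by ring
  linarith

theorem U_cont {m : ℕ} (hm : 1 ≤ m) (A : ℕ) (d : ℤ) : U m d ≤ U (m + A) d + 8 * √ (((A : ℝ) + 1) / m) := by
  have h1 := F_le_U hm A d
  have h2 := F_near hm A d d
  have hm0 : (0 : ℝ) < m := by exact_mod_cast hm
  rw [sub_self, zero_pow (by norm_num), zero_add] at h2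
  have h3 : 2 / √ (m : ℝ) * √ (A : ℝ) ≤ 2 * √ (((A : ℝ) + 1) / m) := by
    rw [Real.sqrt_div (by positivity)]
    have : √ (A : ℝ) ≤ √ ((A : ℝ) + 1) := Real.sqrt_le_sqrt (by linarith)
    calc 2 / √ (m : ℝ) * √ (A : ℝ) ≤ 2 / √ (m : ℝ) * √ ((A : ℝ) + 1) := by gcongr
      _ = 2 * (√ ((A : ℝ) + 1) / √ m) := by ring
  rw [abs_le] at h2
  linarith [h2.1]

theorem pow_c1 {s0 δ u : ℕ} (h : 20 * (δ + u) ≤ s0) : 3 ^ (s0 + δ) * (4 ^ u) ^ 2 ≤ 4 ^ s0 := by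
  obtain ⟨d, rfl⟩ := Nat.exists_eq_add_of_le h
  have h1 : 3 ^ (20 * (δ + u)) * (3 ^ δ * (4 ^ u) ^ 2) ≤ 4 ^ (20 * (δ + u)) := by
    calc 3 ^ (20 * (δ + u)) * (3 ^ δ * (4 ^ u) ^ 2) = (3 ^ 20) ^ (δ + u) * (3 ^ δ * 16 ^ u) := by
          rw [← pow_mul (4 : ℕ) u 2, mul_comm u 2, pow_mul 4 2 u, pow_mul]; norm_num
      _ ≤ (3 ^ 20) ^ (δ + u) * (16 ^ δ * 16 ^ u) := by
          apply Nat.mul_le_mul_left
          exact Nat.mul_le_mul_right _ (Nat.pow_le_pow_left (by norm_num) δ)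
      _ = (3 ^ 20 * 16) ^ (δ + u) := by rw [mul_pow, pow_add 16]
      _ ≤ (4 ^ 20) ^ (δ + u) := Nat.pow_le_pow_left (by norm_num) _
      _ = 4 ^ (20 * (δ + u)) := by rw [← pow_mul]
  calc 3 ^ (20 * (δ + u) + d + δ) * (4 ^ u) ^ 2 = 3 ^ d * (3 ^ (20 * (δ + u)) * (3 ^ δ * (4 ^ u) ^ 2)) := by ring
    _ ≤ 3 ^ d * 4 ^ (20 * (δ + u)) := Nat.mul_le_mul_left _ h1
    _ ≤ 4 ^ d * 4 ^ (20 * (δ + u)) := Nat.mul_le_mul_right _ (Nat.pow_le_pow_left (by norm_num) d)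
    _ = 4 ^ (20 * (δ + u) + d) := by ring

theorem pow_c2 {s0 δ i : ℕ} (h : 2 * (i + δ) ≤ s0) : 3 ^ (i + δ) ≤ 2 ^ s0 := by
  calc 3 ^ (i + δ) ≤ 4 ^ (i + δ) := Nat.pow_le_pow_left (by norm_num) _
    _ = 2 ^ (2 * (i + δ)) := by rw [pow_mul]; norm_num
    _ ≤ 2 ^ s0 := Nat.pow_le_pow_right (by norm_num) h

/-- The window error. -/
noncomputable def Er2 (ε : ℝ) (t : ℕ) : ℝ :=
  (t + 1) * (28 * (t + 1) ^ 2 * (4 ^ ll t : ℝ) ^ 2 * Real.exp (-((ε * kk t) ^ 2 / (2 * kk t))))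

theorem Er2_tendsto {ε : ℝ} (hε : 0 < ε) : Tendsto (Er2 ε) atTop (𝓝 0) := by
  refine squeeze_zero (fun t => by unfold Er2; positivity) (fun t => ?_) (Er_tendsto hε)
  unfold Er2 Er
  have h1 : (0 : ℝ) ≤ ((t : ℝ) + 1) * (12 * (t + 1) * 4 ^ ll t * Real.exp (-((ε * kk t) ^ 2 / (2 * kk t)))) := by
    positivity
  have h2 : ((t : ℝ) + 1) * (28 * (t + 1) ^ 2 * (4 ^ ll t : ℝ) ^ 2 * Real.exp (-((ε * kk t) ^ 2 / (2 * kk t)))) ≤
      (t + 1) * (56 * (t + 1) ^ 2 * (4 ^ ll t : ℝ) ^ 2 * Real.exp (-((ε * kk t) ^ 2 / (2 * kk t)))) := by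
    gcongr; norm_num
  linarith

/-- all the error terms -/
theorem errs {C η : ℝ} (hC : 0 < C) (hη : 0 < η) {κ : ℝ} (hκ : 0 < κ) : ∀ᶠ t : ℕ in atTop,
    Qr C η t ≤ κ ∧ Er2 η t ≤ κ ∧ pb t (fun n => ¬ Gd t (4 ^ ll t : ℕ) (⌊η / 100 * t⌋₊ : ℕ) n) ≤ κ ∧
      2 * (kk t : ℝ) / √ (⌊η * t⌋₊ : ℕ) ≤ κ ∧ (kk t : ℝ) ≤ η * t ∧ 1 ≤ t ∧ 100 ≤ η * t := by
  have h1 := (Qr_tendsto hC hη).eventually (ge_mem_nhds hκ)
  have h2 := (Er2_tendsto hη).eventually (ge_mem_nhds hκ)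
  have h3 := (Gd_tendsto (c := η / 100) (by positivity)).eventually (ge_mem_nhds hκ)
  have h4 := (lbe_tendsto hη).eventually (ge_mem_nhds hκ)
  have h5 := kk_div.eventually (ge_mem_nhds hη)
  filter_upwards [h1, h2, h3, h4, h5, eventually_ge_atTop 1, eventually_ge_atTop (⌈100 / η⌉₊)] with t a1 a2 a3 a4 a5 a6 a7
  have ht0 : (0 : ℝ) < t := by exact_mod_cast a6
  refine ⟨a1, a2, a3, a4, ?_, a6, ?_⟩
  · rwa [div_le_iff₀ ht0] at a5
  · have : 100 / η ≤ t := Nat.ceil_le.1 a7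
    rw [div_le_iff₀ hη] at this
    linarith

theorem par_Pq {η : ℝ} (hη : 0 < η) (hη1 : η ≤ 1 / 100) {t i u : ℕ} (a6 : 1 ≤ t) (a7 : 100 ≤ η * t)
    (hi : (i : ℝ) ≤ η / 100 * t) (hu : (u : ℝ) ≤ η / 100 * t) :
    Pq t i u (kk t) ⌊η / 100 * t⌋₊ ⌊η * t⌋₊ := by
  have htr : (0 : ℝ) < t := by exact_mod_cast a6
  set δ := ⌊η / 100 * t⌋₊ with hδ
  set s0 := ⌊η * t⌋₊ with hs0
  have hs01 : (s0 : ℝ) ≤ η * t := Nat.floor_le (by positivity)
  have hs02 : η * t < s0 + 1 := Nat.lt_floor_add_one _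
  have hδ1 : (δ : ℝ) ≤ η / 100 * t := Nat.floor_le (by positivity)
  have hηt : η * t ≤ t / 100 := by
    have := mul_le_mul_of_nonneg_right hη1 htr.le
    linarith
  refine ⟨kk_pos a6, ?_, ?_, ?_⟩
  · have : (s0 : ℝ) ≤ t := by linarith
    exact_mod_cast this
  · apply pow_c1
    have : (20 * ((δ : ℝ) + u)) ≤ s0 := by linarith
    exact_mod_cast this
  · apply pow_c2
    have : (2 * ((i : ℝ) + δ)) ≤ s0 := by linarith
    exact_mod_cast this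

theorem ns_nat_low {η κ : ℝ} (hη : 0 < η) (hη1 : η ≤ 1 / 100) {C : ℝ} {t : ℕ} {i u : ℕ}
    (hi : (i : ℝ) ≤ η / 100 * t) (hu : (u : ℝ) ≤ η / 100 * t) {r : ℤ} (hr : |r| ≤ 4 ^ u)
    (hall : Qr C η t ≤ κ ∧ Er2 η t ≤ κ ∧ pb t (fun n => ¬ Gd t (4 ^ ll t : ℕ) (⌊η / 100 * t⌋₊ : ℕ) n) ≤ κ ∧
      2 * (kk t : ℝ) / √ (⌊η * t⌋₊ : ℕ) ≤ κ ∧ (kk t : ℝ) ≤ η * t ∧ 1 ≤ t ∧ 100 ≤ η * t) :
    U (t / 2) i ≤ ns t ((i : ℤ), r) + 60 * √ η + 5 * κ := by
  obtain ⟨_, a2, a3, a4, a5, a6, a7⟩ := hall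
  have htr : (0 : ℝ) < t := by exact_mod_cast a6
  have P := par_Pq hη hη1 a6 a7 hi hu
  set δ := ⌊η / 100 * t⌋₊ with hδ
  set s0 := ⌊η * t⌋₊ with hs0
  have hs01 : (s0 : ℝ) ≤ η * t := Nat.floor_le (by positivity)
  have hs02 : η * t < s0 + 1 := Nat.lt_floor_add_one _
  have hηt : η * t ≤ t / 100 := by
    have := mul_le_mul_of_nonneg_right hη1 htr.le
    linarith
  have hsη : √ η ^ 2 = η := Real.sq_sqrt hη.le
  have hsη0 : 0 < √ η := Real.sqrt_pos.2 hη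
  have hκ : 0 ≤ κ := (pb_nonneg _ _).trans a3
  have hhalf : ((t / 2 : ℕ) : ℝ) ≤ t / 2 := Nat.cast_div_le
  have hhalf2 : (t : ℝ) / 2 - 1 ≤ ((t / 2 : ℕ) : ℝ) := by
    have : t ≤ 2 * (t / 2) + 1 := by omega
    have : (t : ℝ) ≤ 2 * ((t / 2 : ℕ) : ℝ) + 1 := by exact_mod_cast this
    linarith
  set mt := ⌈(t : ℝ) / 2 + 3 * (η * t)⌉₊ with hmt
  have hmt1 : (t : ℝ) / 2 + 3 * (η * t) ≤ mt := Nat.le_ceil _
  have hmt2 : (mt : ℝ) < (t : ℝ) / 2 + 3 * (η * t) + 1 := Nat.ceil_lt_add_one (by positivity)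
  have h := main_LB P hr hη.le (l := ll t) (mt := mt) (q0 := s0) (by
    have : (1 : ℝ) ≤ s0 := by linarith
    exact_mod_cast this) (by linarith)
  have hle : t / 2 ≤ mt := by
    have : ((t / 2 : ℕ) : ℝ) ≤ mt := by linarith
    exact_mod_cast this
  obtain ⟨A, hA⟩ := Nat.exists_eq_add_of_le hle
  have hm1 : 1 ≤ t / 2 := by
    have : (1 : ℝ) ≤ ((t / 2 : ℕ) : ℝ) := by linarith
    exact_mod_cast this
  have hc := U_cont hm1 A (i : ℤ)
  rw [← hA] at hc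
  have hAr : (mt : ℝ) = ((t / 2 : ℕ) : ℝ) + A := by rw [hA]; push_cast; rfl
  have h8 : √ (((A : ℝ) + 1) / ((t / 2 : ℕ) : ℝ)) ≤ 4 * √ η := by
    rw [Real.sqrt_le_left (by positivity), mul_pow, hsη, div_le_iff₀ (by exact_mod_cast hm1)]
    have e1 : (4 : ℝ) ^ 2 * η * (t / 2 - 1) ≤ 4 ^ 2 * η * ((t / 2 : ℕ) : ℝ) :=
      mul_le_mul_of_nonneg_left hhalf2 (by positivity)
    have e2 : (4 : ℝ) ^ 2 * η * (t / 2 - 1) = 8 * (η * t) - 16 * η := by ring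
    linarith
  have h9 : Er2 η t = (t + 1) * (28 * (t + 1) ^ 2 * (4 ^ ll t : ℝ) ^ 2 * Real.exp (-((η * kk t) ^ 2 / (2 * kk t)))) := rfl
  rw [← h9] at h
  linarith

theorem ns_nat_up {η κ : ℝ} (hη : 0 < η) (hη1 : η ≤ 1 / 100) {C : ℝ} (hC : 0 < C)
    (hrate : ∀ (k : ℕ), 1 ≤ k → ∀ (D : ℤ) (u : ℕ) (r : ℤ), |(r : ℝ)| ≤ 4 ^ u →
    ns k (D, r) ≤ C * √ (1 + (D : ℝ) ^ 2 + u) * rho k) {t : ℕ} {i u : ℕ}
    (hi : (i : ℝ) ≤ η / 100 * t) (hu : (u : ℝ) ≤ η / 100 * t) {r : ℤ} (hr : |r| ≤ 4 ^ u)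
    (hall : Qr C η t ≤ κ ∧ Er2 η t ≤ κ ∧ pb t (fun n => ¬ Gd t (4 ^ ll t : ℕ) (⌊η / 100 * t⌋₊ : ℕ) n) ≤ κ ∧
      2 * (kk t : ℝ) / √ (⌊η * t⌋₊ : ℕ) ≤ κ ∧ (kk t : ℝ) ≤ η * t ∧ 1 ≤ t ∧ 100 ≤ η * t) :
    ns t ((i : ℤ), r) ≤ U (t / 2) i + 60 * √ η + 5 * κ := by
  obtain ⟨a1, a2, a3, _, a5, a6, a7⟩ := hall
  have htr : (0 : ℝ) < t := by exact_mod_cast a6
  have P := par_Pq hη hη1 a6 a7 hi hu
  set δ := ⌊η / 100 * t⌋₊ with hδ
  set s0 := ⌊η * t⌋₊ with hs0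
  have hs01 : (s0 : ℝ) ≤ η * t := Nat.floor_le (by positivity)
  have hs02 : η * t < s0 + 1 := Nat.lt_floor_add_one _
  have hηt : η * t ≤ t / 100 := by
    have := mul_le_mul_of_nonneg_right hη1 htr.le
    linarith
  have hsη : √ η ^ 2 = η := Real.sq_sqrt hη.le
  have hsη0 : 0 < √ η := Real.sqrt_pos.2 hη
  have hκ : 0 ≤ κ := (pb_nonneg _ _).trans a3
  set t' := t - (s0 + 1) with ht'
  have hs0t : s0 + 1 < t := by
    have : (s0 : ℝ) + 1 < t := by linarith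
    exact_mod_cast this
  have ht'r : (t' : ℝ) = t - (s0 + 1) := by
    have : t = t' + (s0 + 1) := by omega
    rw [eq_sub_iff_add_eq]; exact_mod_cast this.symm
  set mt := ⌊(t : ℝ) / 2 - 5 / 2 * (η * t)⌋₊ with hmt
  have h5η : 0 ≤ (t : ℝ) / 2 - 5 / 2 * (η * t) := by linarith
  have hmt1 : (mt : ℝ) ≤ (t : ℝ) / 2 - 5 / 2 * (η * t) := Nat.floor_le h5η
  have hmt2 : (t : ℝ) / 2 - 5 / 2 * (η * t) < mt + 1 := Nat.lt_floor_add_one _
  set m := mt - (s0 + 1) with hm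
  have hs0mt : s0 + 1 < mt := by
    have : (s0 : ℝ) + 1 < mt := by linarith
    exact_mod_cast this
  have hmr : (m : ℝ) = mt - (s0 + 1) := by
    have : mt = m + (s0 + 1) := by omega
    rw [eq_sub_iff_add_eq]; exact_mod_cast this.symm
  have h := main_UB hC hrate P hr hη.le (l := ll t) (t' := t') (m := m) (mt := mt) (Q := Qr C η t) (by
      have : (s0 : ℝ) ≤ t' := by rw [ht'r]; linarith
      exact_mod_cast this) (by omega) (by unfold Qr; positivity) (by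
      intro k' h1 h2
      have h3 : η * t ≤ k' := by
        have : s0 + 1 ≤ k' := by omega
        have : (s0 : ℝ) + 1 ≤ k' := by exact_mod_cast this
        linarith
      have := QQ_le_Qr hC hη a6 h3 (by omega)
      unfold QQ at this
      rw [show kk t + 0 + ll t + 1 = kk t + ll t + 1 by ring]
      exact this) (by rw [hmr]; linarith) (by rw [ht'r]; linarith)
  have hm1 : 1 ≤ m := by omega
  have hmt0 : 1 ≤ mt := by omega
  have hFU := F_le_U hm1 (s0 + 1) (i : ℤ)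
  rw [show m + (s0 + 1) = mt by omega] at hFU
  have hle : mt ≤ t / 2 := by
    have h1 : (2 * mt : ℝ) ≤ t := by linarith
    have h2 : 2 * mt ≤ t := by exact_mod_cast h1
    omega
  obtain ⟨A, hA⟩ := Nat.exists_eq_add_of_le hle
  have hc := U_cont hmt0 A (i : ℤ)
  rw [← hA] at hc
  have hhalf : ((t / 2 : ℕ) : ℝ) ≤ t / 2 := Nat.cast_div_le
  have hAr : ((t / 2 : ℕ) : ℝ) = mt + A := by rw [hA]; push_cast; rfl
  have hmtq : (t : ℝ) / 4 ≤ mt := by linarith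
  have hmq : (t : ℝ) / 8 ≤ m := by rw [hmr]; linarith
  have h8 : √ (((A : ℝ) + 1) / mt) ≤ 4 * √ η := by
    rw [Real.sqrt_le_left (by positivity), mul_pow, hsη, div_le_iff₀ (by exact_mod_cast hmt0)]
    have e1 : (4 : ℝ) ^ 2 * η * (t / 4) ≤ 4 ^ 2 * η * mt :=
      mul_le_mul_of_nonneg_left hmtq (by positivity)
    have e2 : (4 : ℝ) ^ 2 * η * (t / 4) = 4 * (η * t) := by ring
    linarith
  have h9 : √ ((((s0 + 1 : ℕ) : ℝ) + 1) / m) ≤ 4 * √ η := by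
    rw [Real.sqrt_le_left (by positivity), mul_pow, hsη, div_le_iff₀ (by exact_mod_cast hm1)]
    have e1 : (4 : ℝ) ^ 2 * η * (t / 8) ≤ 4 ^ 2 * η * m :=
      mul_le_mul_of_nonneg_left hmq (by positivity)
    have e2 : (4 : ℝ) ^ 2 * η * (t / 8) = 2 * (η * t) := by ring
    push_cast
    linarith
  have h10 : Er2 η t = (t + 1) * (28 * (t + 1) ^ 2 * (4 ^ ll t : ℝ) ^ 2 * Real.exp (-((η * kk t) ^ 2 / (2 * kk t)))) := rfl
  rw [← h10] at h
  linarith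

theorem ns_nat_law {η κ : ℝ} (hη : 0 < η) (hη1 : η ≤ 1 / 100) (hκ : 0 < κ) : ∃ t0 : ℕ, ∀ t : ℕ, t0 ≤ t → ∀ i u : ℕ,
    (i : ℝ) ≤ η / 100 * t → (u : ℝ) ≤ η / 100 * t → ∀ r : ℤ, |r| ≤ 4 ^ u →
      |ns t ((i : ℤ), r) - U (t / 2) i| ≤ 60 * √ η + 5 * κ := by
  obtain ⟨C, hC, hrate⟩ := ns_rate
  obtain ⟨t0, ht0⟩ := eventually_atTop.1 (errs hC hη hκ)
  refine ⟨t0, fun t ht i u hi hu r hr => ?_⟩
  have h1 := ns_nat_low hη hη1 hi hu hr (ht0 t ht)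
  have h2 := ns_nat_up hη hη1 hC hrate hi hu hr (ht0 t ht)
  rw [abs_le]
  constructor <;> linarith

/-- The probability of not having merged, from an arbitrary state. -/
theorem ns_law {ε : ℝ} (hε : 0 < ε) : ∃ c : ℝ, 0 < c ∧ ∃ t0 : ℕ, ∀ t : ℕ, t0 ≤ t → ∀ (D : ℤ) (u : ℕ),
    |(D : ℝ)| ≤ c * t → (u : ℝ) ≤ c * t → ∀ r : ℤ, |r| ≤ 4 ^ u → |ns t (D, r) - U (t / 2) D| ≤ ε := by
  set η : ℝ := min (1 / 100) ((ε / 120) ^ 2) with hη
  have hη0 : 0 < η := lt_min (by norm_num) (by positivity)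
  have h1 : √ η ≤ ε / 120 := by
    rw [Real.sqrt_le_left (by positivity)]
    exact min_le_right _ _
  obtain ⟨t0, ht0⟩ := ns_nat_law hη0 (min_le_left _ _) (κ := ε / 10) (by positivity)
  refine ⟨η / 100, by positivity, t0, fun t ht D u hD hu r hr => ?_⟩
  rcases le_total 0 D with h | h
  · obtain ⟨i, rfl⟩ := Int.eq_ofNat_of_zero_le h
    have := ht0 t ht i u (by
      refine le_trans (le_of_eq ?_) hD
      push_cast; rw [abs_of_nonneg (by positivity)]) hu r hr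
    refine this.trans ?_
    linarith
  · obtain ⟨i, hi⟩ := Int.eq_ofNat_of_zero_le (show 0 ≤ -D by omega)
    have hD' : D = -(i : ℤ) := by omega
    subst hD'
    rw [ns_sw_nat, U_neg]
    have := ht0 t ht i u (by
      refine le_trans (le_of_eq ?_) hD
      push_cast; rw [abs_neg, abs_of_nonneg (by positivity)]) hu (-r) (by rwa [abs_neg])
    refine this.trans ?_
    linarith

end Pool.Agent.J4H39
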