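import Mathlib
import Pool.Agent.J4H39.W2

set_option autoImplicit false

namespace Pool.Agent.J4H39

open Finset Filter Topology

/-! Basic definitions and elementary estimates. -/

/-- `log (4/3)` -/
noncomputable def mu2 : ℝ := Real.log 4 - Real.log 3

theorem mu2_pos : 0 < mu2 := by
  unfold mu2
  have := Real.log_lt_log (by norm_num) (show (3 : ℝ) < 4 by norm_num)
  linarith

theorem mu2_lt : mu2 < 1 := by
  unfold mu2
  have h1 := Real.log_two_lt_d9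
  have h3 : Real.log 4 = 2 * Real.log 2 := by
    rw [show (4 : ℝ) = 2 ^ 2 by norm_num, Real.log_pow]; push_cast; ring
  have h4 : Real.log 2 < Real.log 3 := Real.log_lt_log (by norm_num) (by norm_num)
  linarith

theorem log3_pos : 0 < Real.log 3 := Real.log_pos (by norm_num)

open Classical in
/-- Number of `n ∈ [x, x + ℓ)` with `P n`. -/
noncomputable def cnt (x : ℤ) (ℓ : ℕ) (P : ℤ → Prop) : ℝ := ∑ i ∈ range ℓ, if P (x + (i : ℕ)) then 1 else 0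

theorem cnt_nonneg (x : ℤ) (ℓ : ℕ) (P : ℤ → Prop) : 0 ≤ cnt x ℓ P := by
  unfold cnt
  exact sum_nonneg (fun i _ => by split_ifs <;> norm_num)

theorem cnt_mono {x : ℤ} {ℓ : ℕ} {P Q : ℤ → Prop} (h : ∀ n, P n → Q n) : cnt x ℓ P ≤ cnt x ℓ Q := by
  unfold cnt
  apply sum_le_sum
  intro i _
  have := h (x + (i : ℕ))
  split_ifs with h1 h2 h2
  · exact le_rfl
  · exact absurd (this h1) h2
  · exact zero_le_one
  · exact le_rfl

theorem cnt_or (x : ℤ) (ℓ : ℕ) (P Q : ℤ → Prop) : cnt x ℓ (fun n => P n ∨ Q n) ≤ cnt x ℓ P + cnt x ℓ Q := by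
  unfold cnt
  rw [← sum_add_distrib]
  apply sum_le_sum
  intro i _
  by_cases h1 : P (x + (i : ℕ)) <;> by_cases h2 : Q (x + (i : ℕ)) <;> simp [h1, h2]

theorem cnt_not (x : ℤ) (ℓ : ℕ) (P : ℤ → Prop) : cnt x ℓ (fun n => ¬ P n) = ℓ - cnt x ℓ P := by
  have : cnt x ℓ (fun n => ¬ P n) + cnt x ℓ P = ℓ := by
    unfold cnt
    rw [← sum_add_distrib]
    rw [show (ℓ : ℝ) = ∑ i ∈ range ℓ, (1 : ℝ) by simp]
    apply sum_congr rfl
    intro i _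
    by_cases h1 : P (x + (i : ℕ)) <;> simp [h1]
  linarith

theorem cnt_add (x : ℤ) (a b : ℕ) (P : ℤ → Prop) : cnt x (a + b) P = cnt x a P + cnt (x + a) b P := by
  unfold cnt
  rw [sum_range_add]
  congr 1
  apply sum_congr rfl
  intro i _
  push_cast
  rw [add_assoc]

theorem cnt_le_len {x : ℤ} {a b : ℕ} (h : a ≤ b) (P : ℤ → Prop) : cnt x a P ≤ cnt x b P := by
  obtain ⟨d, rfl⟩ := Nat.exists_eq_add_of_le h
  rw [cnt_add]
  have := cnt_nonneg (x + a) d P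
  linarith

theorem cnt_full {j : ℕ} {P : ℤ → Prop} (hP : Per j P) (x : ℤ) (c : ℕ) :
    cnt x (c * 2 ^ j) P = (c * 2 ^ j : ℝ) * pb j P := by
  induction c with
  | zero => simp [cnt]
  | succ c ih =>
    rw [show (c + 1) * 2 ^ j = c * 2 ^ j + 2 ^ j by ring, cnt_add, ih]
    have h1 := pb_shift j hP (x + (c * 2 ^ j : ℕ))
    have h2 : cnt (x + (c * 2 ^ j : ℕ)) (2 ^ j) P = 2 ^ j * pb j P := by
      rw [← h1]
      unfold cnt pb ex
      rw [mul_div_cancel₀ _ (by positivity)]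
      apply sum_congr rfl
      intro i _
      beta_reduce
      rw [add_comm ((i : ℕ) : ℤ) (x + (c * 2 ^ j : ℕ))]
    rw [h2]
    push_cast
    ring

theorem cnt_upper {j : ℕ} {P : ℤ → Prop} (hP : Per j P) (x : ℤ) (ℓ : ℕ) : cnt x ℓ P ≤ (ℓ + 2 ^ j : ℝ) * pb j P := by
  set c := ℓ / 2 ^ j + 1 with hc
  have h1 : ℓ ≤ c * 2 ^ j := by
    have := Nat.lt_div_mul_add (a := ℓ) (b := 2 ^ j) (by positivity)
    rw [hc, add_mul, one_mul]; exact this.le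
  have h2 : c * 2 ^ j ≤ ℓ + 2 ^ j := by
    rw [hc, add_mul, one_mul]
    have := Nat.div_mul_le_self ℓ (2 ^ j)
    omega
  refine (cnt_le_len h1 P).trans ?_
  rw [cnt_full hP]
  apply mul_le_mul_of_nonneg_right _ (pb_nonneg _ _)
  exact_mod_cast h2

/-- The time. -/
noncomputable def tN (τ : ℝ) (N : ℕ) : ℕ := ⌊τ * Real.logb 2 N⌋₊

/-- The length of the range of the shift. -/
noncomputable def HN (θ : ℝ) (N : ℕ) : ℕ := ⌊(N : ℝ) ^ θ⌋₊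

theorem log_tendsto : Tendsto (fun N : ℕ => Real.log (N : ℝ)) atTop atTop :=
  Real.tendsto_log_atTop.comp tendsto_natCast_atTop_atTop

theorem tN_tendsto {τ : ℝ} (hτ : 0 < τ) : Tendsto (tN τ) atTop atTop := by
  have hl2 : 0 < Real.log 2 := Real.log_pos (by norm_num)
  have h1 : Tendsto (fun N : ℕ => τ * Real.logb 2 (N : ℝ)) atTop atTop := by
    have : (fun N : ℕ => τ * Real.logb 2 (N : ℝ)) = fun N : ℕ => (τ / Real.log 2) * Real.log N := by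
      ext N; unfold Real.logb; ring
    rw [this]
    exact log_tendsto.const_mul_atTop (by positivity)
  exact tendsto_nat_floor_atTop.comp h1

theorem HN_tendsto {θ : ℝ} (hθ : 0 < θ) : Tendsto (HN θ) atTop atTop := by
  have h1 : Tendsto (fun N : ℕ => (N : ℝ) ^ θ) atTop atTop := (tendsto_rpow_atTop hθ).comp tendsto_natCast_atTop_atTop
  exact tendsto_nat_floor_atTop.comp h1

/-- The critical exponent. -/
noncomputable def th0 : ℝ := mu2 / (2 * Real.log 2)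

theorem th0_pos : 0 < th0 := by
  unfold th0
  have := mu2_pos
  have : 0 < Real.log 2 := Real.log_pos (by norm_num)
  positivity

theorem tN_mono {τ τ' : ℝ} (h : τ ≤ τ') {N : ℕ} (hN : 1 ≤ N) : tN τ N ≤ tN τ' N := by
  unfold tN
  apply Nat.floor_le_floor
  apply mul_le_mul_of_nonneg_right h
  apply Real.logb_nonneg (by norm_num)
  exact_mod_cast hN

theorem log_ineq : 150 * Real.log 2 ≤ 99 * Real.log 3 := by
  have h : (2 : ℝ) ^ 150 ≤ 3 ^ 99 := by norm_num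
  have := Real.log_le_log (by positivity) h
  rw [Real.log_pow, Real.log_pow] at this
  exact_mod_cast this

theorem th0_lt : th0 < 1 / 4 := by
  unfold th0 mu2
  have h1 := log_ineq
  have hl2 : 0 < Real.log 2 := Real.log_pos (by norm_num)
  rw [div_lt_iff₀ (by positivity), show (4 : ℝ) = 2 ^ 2 by norm_num, Real.log_pow]
  push_cast
  linarith

theorem arc_le_one (x : ℝ) : 2 / Real.pi * Real.arcsin x ≤ 1 := by
  have hpi := Real.pi_pos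
  calc 2 / Real.pi * Real.arcsin x ≤ 2 / Real.pi * (Real.pi / 2) :=
        mul_le_mul_of_nonneg_left (Real.arcsin_le_pi_div_two _) (by positivity)
    _ = 1 := by field_simp

theorem arc_nonneg {x : ℝ} (hx : 0 ≤ x) : 0 ≤ 2 / Real.pi * Real.arcsin x := by
  have hpi := Real.pi_pos
  have := Real.arcsin_nonneg.2 hx
  positivity

theorem card_pairs (x : ℤ) (N H : ℕ) (P : ℤ → ℕ → Prop) [∀ n h, Decidable (P n h)] :
    (#{p ∈ Ioc x (x + N) ×ˢ Icc 1 H | P p.1 p.2} : ℝ) = ∑ h ∈ Icc 1 H, cnt (x + 1) N (fun n => P n h) := by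
  classical
  rw [card_filter, sum_product_right]
  push_cast
  apply sum_congr rfl
  intro h _
  unfold cnt
  refine sum_nbij' (fun n => (n - x - 1).toNat) (fun i => x + 1 + (i : ℕ)) ?_ ?_ ?_ ?_ ?_
  · intro n hn
    rw [mem_Ioc] at hn
    rw [mem_range]; omega
  · intro i hi
    rw [mem_range] at hi
    rw [mem_Ioc]; omega
  · intro n hn
    rw [mem_Ioc] at hn
    omega
  · intro i hi
    rw [mem_range] at hi
    omega
  · intro n hn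
    rw [mem_Ioc] at hn
    have : x + 1 + ((n - x - 1).toNat : ℤ) = n := by omega
    rw [this]
    simp only
    congr

theorem root20 (j : ℕ) : ∃ z : ℕ, z ^ 20 ≤ j ∧ j < (z + 1) ^ 20 := by
  have hex : ∃ z : ℕ, j < (z + 1) ^ 20 := ⟨j, by
    calc j < j + 1 := Nat.lt_succ_self j
      _ ≤ (j + 1) ^ 20 := Nat.le_self_pow (by norm_num) _⟩
  classical
  refine ⟨Nat.find hex, ?_, Nat.find_spec hex⟩
  rcases Nat.eq_zero_or_pos (Nat.find hex) with h | h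
  · rw [h]; simp
  · have := Nat.find_min hex (m := Nat.find hex - 1) (by omega)
    rw [Nat.sub_add_cancel h] at this
    omega

theorem succ20 {z : ℕ} (hz : 40 ≤ z) : (z + 1) ^ 20 ≤ 2 * z ^ 20 := by
  have h1 : 40 * (z + 1) ≤ 41 * z := by omega
  have h2 := Nat.pow_le_pow_left h1 20
  rw [mul_pow, mul_pow] at h2
  have h3 : (41 : ℕ) ^ 20 ≤ 2 * 40 ^ 20 := by norm_num
  have h4 : 40 ^ 20 * (z + 1) ^ 20 ≤ 40 ^ 20 * (2 * z ^ 20) := by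
    calc 40 ^ 20 * (z + 1) ^ 20 ≤ 41 ^ 20 * z ^ 20 := h2
      _ ≤ (2 * 40 ^ 20) * z ^ 20 := Nat.mul_le_mul_right _ h3
      _ = 40 ^ 20 * (2 * z ^ 20) := by ring
  exact Nat.le_of_mul_le_mul_left h4 (by norm_num)

theorem th0_gt : 1 / 5 < th0 := by
  unfold th0 mu2
  have h2 : (3 : ℝ) ^ 5 < 2 ^ 8 := by norm_num
  have h3 := Real.log_lt_log (by positivity) h2
  rw [Real.log_pow, Real.log_pow] at h3
  push_cast at h3
  have hl2 : 0 < Real.log 2 := Real.log_pos (by norm_num)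
  rw [lt_div_iff₀ (by positivity), show (4 : ℝ) = 2 ^ 2 by norm_num, Real.log_pow]
  push_cast
  linarith

theorem th0_log3 : Real.log 3 = 2 * (1 - th0) * Real.log 2 := by
  unfold th0 mu2
  have hl2 : 0 < Real.log 2 := Real.log_pos (by norm_num)
  rw [show (4 : ℝ) = 2 ^ 2 by norm_num, Real.log_pow]
  field_simp
  push_cast
  ring

theorem three_pow (n : ℕ) : (3 : ℝ) ^ n = 2 ^ (2 * (1 - th0) * n) := by
  rw [← Real.rpow_natCast, Real.rpow_def_of_pos (by norm_num), Real.rpow_def_of_pos (by norm_num), th0_log3]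
  congr 1; ring

theorem exp_beats (C : ℝ) {δ : ℝ} (hδ : 0 < δ) : ∀ᶠ t : ℕ in atTop, C ≤ (2 : ℝ) ^ (δ * t) := by
  have h1 : Tendsto (fun t : ℕ => δ * (t : ℝ)) atTop atTop := tendsto_natCast_atTop_atTop.const_mul_atTop hδ
  have h2 := (tendsto_rpow_atTop_of_base_gt_one 2 (by norm_num)).comp h1
  exact h2.eventually_ge_atTop C

theorem poly_ev (a : ℝ) {Δ : ℝ} (hΔ : 0 < Δ) : ∀ᶠ z : ℕ in atTop, a * (z : ℝ) ^ 12 + 1 ≤ Δ * ((z : ℝ) ^ 20 / 10 - 1) := by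
  filter_upwards [eventually_ge_atTop 1, eventually_ge_atTop ⌈10 * (|a| + 1 + Δ) / Δ⌉₊] with z h1 h2
  have hz1 : (1 : ℝ) ≤ z := by exact_mod_cast h1
  have h3 : 10 * (|a| + 1 + Δ) / Δ ≤ z := (Nat.le_ceil _).trans (by exact_mod_cast h2)
  rw [div_le_iff₀ hΔ] at h3
  have h12 : (1 : ℝ) ≤ (z : ℝ) ^ 12 := one_le_pow₀ hz1
  have h13 : (z : ℝ) * (z : ℝ) ^ 12 ≤ (z : ℝ) ^ 20 := by
    rw [← pow_succ']
    exact pow_le_pow_right₀ hz1 (by norm_num)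
  have ha := le_abs_self a
  have h4 : a * (z : ℝ) ^ 12 ≤ |a| * (z : ℝ) ^ 12 := mul_le_mul_of_nonneg_right ha (by positivity)
  have h5 : 10 * (|a| + 1 + Δ) * (z : ℝ) ^ 12 ≤ (z * Δ) * (z : ℝ) ^ 12 := mul_le_mul_of_nonneg_right h3 (by positivity)
  have h6 : (z * Δ) * (z : ℝ) ^ 12 ≤ Δ * (z : ℝ) ^ 20 := by
    calc (z * Δ) * (z : ℝ) ^ 12 = Δ * (z * (z : ℝ) ^ 12) := by ring
      _ ≤ Δ * (z : ℝ) ^ 20 := mul_le_mul_of_nonneg_left h13 hΔ.le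
  nlinarith

theorem scale20 {t j z z₁ : ℕ} (ht : 10 ≤ t) (hj : j = t / 5) (hz : z ^ 20 ≤ t) (hr2 : j < (z₁ + 1) ^ 20)
    (h40 : 40 ≤ z₁) : z ≤ 3 * z₁ := by
  have a1 : z ^ 20 < (2 * (z₁ + 1)) ^ 20 := by
    have h10 : 10 * (z₁ + 1) ^ 20 ≤ 2 ^ 20 * (z₁ + 1) ^ 20 := Nat.mul_le_mul_right _ (by norm_num)
    rw [mul_pow]
    refine lt_of_lt_of_le ?_ h10
    generalize (z₁ + 1) ^ 20 = A at *
    omega
  by_contra hcon
  have a2 : (2 * (z₁ + 1)) ^ 20 ≤ z ^ 20 := Nat.pow_le_pow_left (by omega) 20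
  exact absurd a1 (not_lt.2 a2)

theorem nat_facts {z₁ j c₂ : ℕ} (h40 : 40 ≤ z₁) (hc : c₂ ≤ z₁) (hr1 : z₁ ^ 20 ≤ j) :
    c₂ * z₁ ^ 12 ≤ z₁ ^ 19 ∧ c₂ * z₁ ^ 14 ≤ z₁ ^ 19 ∧ z₁ ^ 19 + j / 8 ≤ (j - z₁ ^ 11) / 2 ∧
    j ≤ 2 * ((j - z₁ ^ 11) / 2 - c₂ * z₁ ^ 12) + 2 * (c₂ + 1) * z₁ ^ 12 := by
  have p0 : 1 ≤ z₁ ^ 12 := Nat.one_le_pow _ _ (by omega)
  have p11 : z₁ ^ 11 ≤ z₁ ^ 12 := Nat.pow_le_pow_right (by omega) (by norm_num)
  have p40 : 40 * z₁ ^ 19 ≤ j := by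
    calc 40 * z₁ ^ 19 ≤ z₁ * z₁ ^ 19 := Nat.mul_le_mul_right _ h40
      _ = z₁ ^ 20 := by ring
      _ ≤ j := hr1
  have p11' : z₁ ^ 11 ≤ z₁ ^ 19 := Nat.pow_le_pow_right (by omega) (by norm_num)
  have ham : c₂ * z₁ ^ 12 ≤ z₁ ^ 19 := by
    calc c₂ * z₁ ^ 12 ≤ z₁ * z₁ ^ 12 := Nat.mul_le_mul_right _ hc
      _ = z₁ ^ 13 := by ring
      _ ≤ z₁ ^ 19 := Nat.pow_le_pow_right (by omega) (by norm_num)
  have hbm : c₂ * z₁ ^ 14 ≤ z₁ ^ 19 := by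
    calc c₂ * z₁ ^ 14 ≤ z₁ * z₁ ^ 14 := Nat.mul_le_mul_right _ hc
      _ = z₁ ^ 15 := by ring
      _ ≤ z₁ ^ 19 := Nat.pow_le_pow_right (by omega) (by norm_num)
  have p19 : 1 ≤ z₁ ^ 19 := Nat.one_le_pow _ _ (by omega)
  have e : 2 * (c₂ + 1) * z₁ ^ 12 = 2 * (c₂ * z₁ ^ 12) + 2 * z₁ ^ 12 := by ring
  rw [e]
  clear hr1 e
  generalize z₁ ^ 11 = a at *
  generalize c₂ * z₁ ^ 12 = b at *
  generalize c₂ * z₁ ^ 14 = b' at *
  generalize z₁ ^ 12 = d at *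
  generalize z₁ ^ 19 = f at *
  refine ⟨ham, hbm, by omega, by omega⟩

theorem len_fact {θ Δ κ κ' : ℝ} (hΔ : κ = θ + Δ) (hκ' : κ' = θ + 9 / 10 * Δ) (hΔ0 : 0 < Δ) (hθ0 : 0 < θ) (hθ1 : θ < 1)
    (hθ : θ = th0) {t j t' A Y X : ℕ} {W : ℝ} (hW0 : 0 ≤ W) (hjt : j + t' = t) (hj5' : (t : ℝ) / 5 - 1 ≤ j)
    (ha : (j : ℝ) ≤ 2 * A + W) (hW : W + 1 ≤ Δ * ((t : ℝ) / 10 - 1)) (hX : (2 : ℝ) ^ (κ' * t) ≤ X)
    (hXY : (X : ℝ) ≤ 2 ^ j * Y + 2 ^ j) (hY1 : 1 ≤ Y) :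
    (2 : ℝ) ^ (κ * (t' : ℝ)) ≤ ((3 ^ A * Y : ℕ) : ℝ) := by
  push_cast
  rw [three_pow, ← hθ]
  have a3 : (2 : ℝ) ^ (κ' * t - j - 1) ≤ Y := by
    have b1 : (X : ℝ) ≤ 2 ^ (j + 1) * Y := by
      have h1 : (1 : ℝ) ≤ Y := by exact_mod_cast hY1
      have h2 : (2 : ℝ) ^ j * 1 ≤ 2 ^ j * Y := mul_le_mul_of_nonneg_left h1 (by positivity)
      rw [pow_succ]
      linarith
    have b2 := hX.trans b1
    rw [show κ' * t - j - 1 = κ' * t - ((j + 1 : ℕ) : ℝ) by push_cast; ring, Real.rpow_sub (by norm_num),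
      Real.rpow_natCast, div_le_iff₀ (by positivity), mul_comm (Y : ℝ)]
    exact b2
  have a4 : κ * (t' : ℝ) ≤ 2 * (1 - θ) * A + (κ' * t - j - 1) := by
    have b1 : (t' : ℝ) = t - j := by
      have : (j : ℝ) + t' = t := by exact_mod_cast hjt
      linarith
    have b2 : (1 - θ) * (j - W) ≤ (1 - θ) * (2 * A) := mul_le_mul_of_nonneg_left (by linarith) (by linarith)
    have b3 : (1 - θ) * W ≤ W := mul_le_of_le_one_left hW0 (by linarith)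
    have b5 : Δ * ((t : ℝ) / 10 - 1) ≤ Δ * (j - t / 10) := mul_le_mul_of_nonneg_left (by linarith) hΔ0.le
    have b6 : κ * (t - j) = θ * t + Δ * t - θ * j - Δ * j := by rw [hΔ]; ring
    have b7 : (1 - θ) * (j - W) = j - θ * j - (1 - θ) * W := by ring
    have b8 : Δ * ((j : ℝ) - t / 10) = Δ * j - Δ * t / 10 := by ring
    have b9 : (θ + 9 / 10 * Δ) * t = θ * t + 9 / 10 * (Δ * t) := by ring
    have b10 : 2 * (1 - θ) * (A : ℝ) = (1 - θ) * (2 * A) := by ring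
    rw [b1, b6, hκ', b9, b10]
    rw [b7] at b2
    rw [b8] at b5
    have b11 : Δ * t / 10 = (Δ * t) * (1 / 10) := by ring
    rw [b11] at b5
    linarith
  calc (2 : ℝ) ^ (κ * (t' : ℝ)) ≤ 2 ^ (2 * (1 - θ) * A + (κ' * t - j - 1)) :=
        Real.rpow_le_rpow_of_exponent_le (by norm_num) a4
    _ = 2 ^ (2 * (1 - θ) * A) * 2 ^ (κ' * t - j - 1) := Real.rpow_add (by norm_num) _ _
    _ ≤ 2 ^ (2 * (1 - θ) * A) * Y := mul_le_mul_of_nonneg_left a3 (by positivity)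

theorem size_fact {θ Δ κ' ε : ℝ} (hκ' : κ' = θ + 9 / 10 * Δ) (hΔ0 : 0 < Δ) (hε : 0 < ε) {t j X : ℕ}
    (hj5 : (j : ℝ) ≤ t / 5) (g1 : 8 / ε ≤ (2 : ℝ) ^ ((θ - 1 / 5) * t)) (g2 : 2 ≤ (2 : ℝ) ^ ((θ - 1 / 5) * t))
    (hX : (2 : ℝ) ^ (κ' * t) ≤ X) : 8 * (2 : ℝ) ^ j ≤ ε * X ∧ 2 * (2 : ℝ) ^ j ≤ X := by
  have h2j : (0 : ℝ) < 2 ^ j := by positivity
  have hX1 : (2 : ℝ) ^ ((θ - 1 / 5) * t) * 2 ^ j ≤ X := by
    refine le_trans ?_ hX
    rw [← Real.rpow_natCast 2 j, ← Real.rpow_add (by norm_num)]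
    apply Real.rpow_le_rpow_of_exponent_le (by norm_num)
    have e : κ' * t = θ * t + 9 / 10 * Δ * t := by rw [hκ']; ring
    have e2 : (θ - 1 / 5) * (t : ℝ) = θ * t - t / 5 := by ring
    rw [e, e2]
    have : 0 ≤ 9 / 10 * Δ * t := by positivity
    linarith
  constructor
  · have a1 : 8 / ε * 2 ^ j ≤ X := (mul_le_mul_of_nonneg_right g1 h2j.le).trans hX1
    calc 8 * (2 : ℝ) ^ j = ε * (8 / ε * 2 ^ j) := by field_simp
      _ ≤ ε * X := mul_le_mul_of_nonneg_left a1 hε.le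
  · exact (mul_le_mul_of_nonneg_right g2 h2j.le).trans hX1

theorem final_fact {S S' p ε X2 Y2 P2 : ℝ} (hp0 : 0 ≤ p) (hp1 : p ≤ 1) (hε : 0 < ε) (h1 : |S - S'| ≤ 3 * P2)
    (h2 : |S' - Y2 * (1 - p)| ≤ Y2 * (ε / 4)) (h3 : Y2 ≤ X2) (h4 : X2 ≤ Y2 + P2) (h5 : 8 * P2 ≤ ε * X2) :
    |S - X2 * (1 - p)| ≤ ε * X2 := by
  have k2 : Y2 * (ε / 4) ≤ X2 * (ε / 4) := mul_le_mul_of_nonneg_right h3 (by positivity)
  have k3 : |Y2 * (1 - p) - X2 * (1 - p)| ≤ P2 := by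
    rw [← sub_mul, abs_mul, abs_of_nonneg (show 0 ≤ 1 - p by linarith), abs_sub_comm, abs_of_nonneg (by linarith)]
    calc (X2 - Y2) * (1 - p) ≤ (X2 - Y2) * 1 := mul_le_mul_of_nonneg_left (by linarith) (by linarith)
      _ ≤ P2 := by linarith
  have k4 := abs_sub_le S S' (X2 * (1 - p))
  have k5 := abs_sub_le S' (Y2 * (1 - p)) (X2 * (1 - p))
  linarith

end Pool.Agent.J4H39
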