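import Mathlib
import Pool.Agent.J4H39.E2
import Pool.Agent.H320R2.PDGood

set_option autoImplicit false

namespace Pool.Agent.J4H39

open Finset Real
open Pool.Agent.H320R2.PD (cnt Gam Gam_entropy ent_lower nml_le)

/-! The entropy bound for the sum of the nonuniformities. -/

section
variable {S : Type*}

/-- typical words -/
def TY (stp : S → ℕ → S) (s : S) (Tlo Thi l : ℕ) (Λ : Finset S) (t : ℕ) (y : ℤ) : Prop :=
  (Tlo ≤ t ∧ t ≤ Thi) ∧ rh t y ≤ 4 ^ l * 2 ^ t ∧ rn stp t s y ∈ Λ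

theorem NU_ent (stp : S → ℕ → S) (s : S) {K M Tlo Thi l : ℕ} (Λ : Finset S) (hM : 4 ^ l * 2 ^ Thi < 3 ^ M) (t : ℕ) (s' : S) :
    ∑ q ∈ range M, NU t (fun y => isW K t y ∧ rn stp t s y = s') q ≤
      3 * (M * log 3 * pb t (fun y => isW K t y ∧ rn stp t s y = s') -
        (t * log 2 * pb t (fun y => (isW K t y ∧ rn stp t s y = s') ∧ TY stp s Tlo Thi l Λ t y) -
          negMulLog (pb t (fun y => (isW K t y ∧ rn stp t s y = s') ∧ TY stp s Tlo Thi l Λ t y)))) := by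
  set P : ℤ → Prop := fun y => isW K t y ∧ rn stp t s y = s' with hP
  set P1 : ℤ → Prop := fun y => P y ∧ TY stp s Tlo Thi l Λ t y with hP1
  have h1 := Gam_entropy (s := cls t P) (wt := w2 t) (ro t) M (fun _ _ => w2_nonneg _ _)
  have hsub : cls t P1 ⊆ cls t P := by
    intro y hy
    rw [mem_cls] at hy ⊢
    exact ⟨hy.1, hy.2.1⟩
  have hinj : ∀ y ∈ cls t P1, ∀ y' ∈ cls t P1, (3 : ℤ) ^ M ∣ ro t y - ro t y' → y = y' := by
    intro y hy y' hy' hd
    rw [mem_cls] at hy hy'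
    obtain ⟨hlt, ⟨hw, _⟩, ⟨_, hThi⟩, hrh, _⟩ := hy
    obtain ⟨hlt', ⟨hw', _⟩, _, hrh', _⟩ := hy'
    have hle : 4 ^ l * 2 ^ t < 3 ^ M :=
      lt_of_le_of_lt (Nat.mul_le_mul_left _ (Nat.pow_le_pow_right (by norm_num) hThi)) hM
    have h3 : ro t y - ro t y' = 0 := by
      apply Int.eq_zero_of_abs_lt_dvd hd
      unfold ro
      have a1 : ((rh t ((y : ℕ) : ℤ) : ℕ) : ℤ) < 3 ^ M := by exact_mod_cast lt_of_le_of_lt hrh hle
      have a2 : ((rh t ((y' : ℕ) : ℤ) : ℕ) : ℤ) < 3 ^ M := by exact_mod_cast lt_of_le_of_lt hrh' hle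
      rw [abs_lt]
      constructor <;> omega
    have h4 : rh t ((y : ℕ) : ℤ) = rh t ((y' : ℕ) : ℤ) := by unfold ro at h3; omega
    have h5 := inj_mod (j := t) (x := ((y : ℕ) : ℤ)) (y := ((y' : ℕ) : ℤ)) (by rw [hw.1, hw'.1]) h4
    have h6 : (y : ℤ) - y' = 0 := by
      apply Int.eq_zero_of_abs_lt_dvd h5
      have b1 : (y : ℤ) < 2 ^ t := by exact_mod_cast hlt
      have b2 : (y' : ℤ) < 2 ^ t := by exact_mod_cast hlt'
      rw [abs_lt]; constructor <;> omega
    omega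
  have h2 := ent_lower (s := cls t P) (s₁ := cls t P1) (wt := w2 t) (ro t) M (fun _ _ => w2_nonneg _ _) hsub
    (p := (1 / 2 : ℝ) ^ t) (by positivity) (pow_le_one₀ (by norm_num) (by norm_num)) (fun _ _ => rfl) hinj
  have h3 : log (1 / (1 / 2 : ℝ) ^ t) = t * log 2 := by
    rw [one_div, ← inv_pow, one_div, inv_inv, log_pow]
  have h4 : ((cls t P1).card : ℝ) * (1 / 2) ^ t = pb t P1 := by
    rw [← sum_wt]
    unfold w2
    rw [sum_const, nsmul_eq_mul]
  rw [h3, h4] at h2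
  rw [sum_wt] at h1 h2
  refine h1.trans ?_
  have : pb t P1 * (t * log 2) = t * log 2 * pb t P1 := by ring
  rw [this] at h2
  linarith

theorem sum_mu (stp : S → ℕ → S) (s : S) (n K Tlo Thi l : ℕ) (Λ : Finset S) :
    ∑ t ∈ range n, ∑ s' ∈ im stp K t s, pb t (fun y => (isW K t y ∧ rn stp t s y = s') ∧ TY stp s Tlo Thi l Λ t y) =
      Ws n K (fun t y => id1 (TY stp s Tlo Thi l Λ t y)) := by
  unfold Ws
  apply sum_congr rfl
  intro t _
  simp only [pb_id1]
  rw [← ex_sum]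
  apply ex_congr
  intro y
  by_cases h : isW K t y
  · rw [id1_pos h, one_mul, sum_eq_single (rn stp t s y)]
    · apply id1_congr
      constructor
      · intro hh; exact hh.2
      · intro hh; exact ⟨⟨h, rfl⟩, hh⟩
    · intro b _ hb
      exact id1_neg (fun hh => hb hh.1.2.symm)
    · intro hn; exact absurd (rn_mem_im h) hn
  · rw [id1_neg h, zero_mul]
    apply sum_eq_zero
    intro b _
    exact id1_neg (fun hh => h hh.1.1)

theorem Gm_ent (stp : S → ℕ → S) (s : S) {n K M Tlo Thi l : ℕ} (Λ : Finset S) (hΛ : Λ.Nonempty) (hn : 1 ≤ n)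
    (hM : 4 ^ l * 2 ^ Thi < 3 ^ M) :
    ∑ q ∈ range M, Gm stp n K s q ≤ 3 * (M * log 3 - Tlo * log 2 *
      Ws n K (fun t y => id1 (TY stp s Tlo Thi l Λ t y)) + log (n * #Λ) + 1) := by
  classical
  set R : ℝ := (n : ℝ) * #Λ with hR
  have hΛ0 : (1 : ℝ) ≤ #Λ := by exact_mod_cast Finset.card_pos.2 hΛ
  have hn0 : (1 : ℝ) ≤ n := by exact_mod_cast hn
  have hR1 : 1 ≤ R := by rw [hR]; nlinarith
  have hR0 : 0 < R := by linarith
  have hlog2 : 0 < log 2 := log_pos (by norm_num)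
  set μ : ℕ → S → ℝ := fun t s' => pb t (fun y => (isW K t y ∧ rn stp t s y = s') ∧ TY stp s Tlo Thi l Λ t y) with hμ
  have hμ0 : ∀ t s', 0 ≤ μ t s' := fun t s' => pb_nonneg _ _
  have hmz : ∀ t s', ¬ (Tlo ≤ t ∧ s' ∈ Λ) → μ t s' = 0 := by
    intro t s' h
    apply le_antisymm _ (hμ0 t s')
    rw [hμ]
    simp only
    rw [pb_id1]
    have : ∀ y, id1 ((isW K t y ∧ rn stp t s y = s') ∧ TY stp s Tlo Thi l Λ t y) = 0 := by
      intro y
      apply id1_neg
      rintro ⟨⟨_, h1⟩, ⟨h2, _⟩, _, h3⟩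
      rw [h1] at h3
      exact h ⟨h2, h3⟩
    rw [ex_congr this, ex_const]
  have h1 : ∑ q ∈ range M, Gm stp n K s q ≤ ∑ t ∈ range n, ∑ s' ∈ im stp K t s,
      3 * (M * log 3 * pb t (fun y => isW K t y ∧ rn stp t s y = s') -
        (Tlo * log 2 * μ t s' - (μ t s' * log R + (if s' ∈ Λ then 1 / R else 0)))) := by
    unfold Gm
    rw [sum_comm]
    apply sum_le_sum
    intro t _
    rw [sum_comm]
    apply sum_le_sum
    intro s' _
    refine (NU_ent stp s (Tlo := Tlo) Λ hM t s').trans ?_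
    apply mul_le_mul_of_nonneg_left _ (by norm_num)
    have e1 : Tlo * log 2 * μ t s' ≤ t * log 2 * μ t s' := by
      by_cases hc : Tlo ≤ t ∧ s' ∈ Λ
      · apply mul_le_mul_of_nonneg_right _ (hμ0 t s')
        apply mul_le_mul_of_nonneg_right _ hlog2.le
        exact_mod_cast hc.1
      · rw [hmz t s' hc]; simp
    have e2 : negMulLog (μ t s') ≤ μ t s' * log R + (if s' ∈ Λ then 1 / R else 0) := by
      by_cases hc : s' ∈ Λ
      · rw [if_pos hc]; exact nml_le (hμ0 t s') hR0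
      · rw [if_neg hc, hmz t s' (fun h => hc h.2)]; simp
    linarith
  refine h1.trans ?_
  simp only [← mul_sum]
  apply mul_le_mul_of_nonneg_left _ (by norm_num)
  simp only [sum_sub_distrib, sum_add_distrib, ← mul_sum, ← sum_mul]
  rw [show (∑ t ∈ range n, ∑ s' ∈ im stp K t s, μ t s') = Ws n K (fun t y => id1 (TY stp s Tlo Thi l Λ t y)) from
    sum_mu stp s n K Tlo Thi l Λ]
  have h2 : ∑ t ∈ range n, ∑ s' ∈ im stp K t s, pb t (fun y => isW K t y ∧ rn stp t s y = s') ≤ 1 := by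
    refine le_trans (le_of_eq ?_) (Ws_one_le n K)
    unfold Ws
    apply sum_congr rfl
    intro t _
    rw [← sum_im stp K t s (fun _ => 1)]
    apply sum_congr rfl
    intro s' _
    rw [mul_one]
  have h3 : Ws n K (fun t y => id1 (TY stp s Tlo Thi l Λ t y)) ≤ 1 := by
    refine (Ws_mono (g := fun _ _ => 1) (fun t _ y _ => id1_le_one _)).trans (Ws_one_le n K)
  have h3' : 0 ≤ Ws n K (fun t y => id1 (TY stp s Tlo Thi l Λ t y)) := Ws_nonneg (fun _ _ => id1_nonneg _)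
  have h4 : ∑ t ∈ range n, ∑ s' ∈ im stp K t s, (if s' ∈ Λ then 1 / R else 0 : ℝ) ≤ 1 := by
    have h5 : ∀ t ∈ range n, ∑ s' ∈ im stp K t s, (if s' ∈ Λ then 1 / R else 0 : ℝ) ≤ #Λ * (1 / R) := by
      intro t _
      rw [← sum_filter, sum_const, nsmul_eq_mul]
      apply mul_le_mul_of_nonneg_right _ (by positivity)
      have : #{a ∈ im stp K t s | a ∈ Λ} ≤ #Λ := by
        apply card_le_card
        intro x hx
        rw [mem_filter] at hx
        exact hx.2
      exact_mod_cast this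
    refine (sum_le_sum h5).trans (le_of_eq ?_)
    rw [sum_const, card_range, nsmul_eq_mul, hR]
    have : (n : ℝ) * #Λ ≠ 0 := by rw [← hR]; exact hR0.ne'
    field_simp
  have hlogR : 0 ≤ log R := log_nonneg hR1
  have hlog3 : 0 < log 3 := log_pos (by norm_num)
  have h6 : (M : ℝ) * log 3 * ∑ t ∈ range n, ∑ s' ∈ im stp K t s, pb t (fun y => isW K t y ∧ rn stp t s y = s') ≤
      M * log 3 := mul_le_of_le_one_right (by positivity) h2
  have h7 : Ws n K (fun t y => id1 (TY stp s Tlo Thi l Λ t y)) * log R ≤ log R := mul_le_of_le_one_left hlogR h3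
  linarith

end

end Pool.Agent.J4H39
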