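import Mathlib
import Pool.Agent.J4H39.E3

set_option autoImplicit false

namespace Pool.Agent.J4H39

open Finset

/-! Shifting the digits by coupling; decay of the nonuniformity. -/

section
variable {S : Type*}

theorem ex_half {t : ℕ} {g : ℤ → ℝ} (hg : Per t g) : ex (t + 1) (fun y => id1 (pr t y = 1) * g y) = ex t g / 2 := by
  rw [ex_succ]
  have : ∀ x : ℤ, (id1 (pr t x = 1) * g x + id1 (pr t (x + 2 ^ t) = 1) * g (x + 2 ^ t)) / 2 = (1 / 2) * g x := by
    intro x
    have h1 := hg x 1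
    rw [mul_one] at h1
    rw [h1, pr_flip]
    rcases pr_cases t x with ⟨h, _⟩ | ⟨h, _⟩
    · rw [h, id1_neg (P := (0 : ℕ) = 1) (by norm_num), id1_pos (P := 1 - 0 = 1) (by norm_num)]; ring
    · rw [h, id1_neg (P := 1 - 1 = 1) (by norm_num), id1_pos (P := (1 : ℕ) = 1) rfl]; ring
  rw [ex_congr this, ex_mul]; ring

/-- the sum over the words, along one trajectory -/
noncomputable def GG (n k : ℕ) (f : ℕ → ℤ → ℝ) (y : ℤ) : ℝ :=
  ∑ t ∈ range n, id1 (isW k t y ∧ pr t y = 1) * f t y

theorem per_GG {n k : ℕ} {f : ℕ → ℤ → ℝ} (hf : ∀ t, Per t (f t)) : Per n (GG n k f) := by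
  intro x u
  unfold GG
  apply sum_congr rfl
  intro t ht
  rw [mem_range] at ht
  rw [((per_isW k t).mono ht.le) x u, per_pr ht x u, ((hf t).mono ht.le) x u]

theorem Ws_eq {n k : ℕ} {f : ℕ → ℤ → ℝ} (hf : ∀ t, Per t (f t)) : Ws n k f = 2 * ex n (GG n k f) := by
  unfold Ws GG
  rw [ex_sum, mul_sum]
  apply sum_congr rfl
  intro t ht
  rw [mem_range] at ht
  have hg : Per t (fun y => id1 (isW k t y) * f t y) := by
    intro x u
    simp only
    rw [per_isW k t x u, hf t x u]
  have h2 : Per (t + 1) (fun y => id1 (isW k t y ∧ pr t y = 1) * f t y) := by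
    intro x u
    simp only
    rw [((per_isW k t).mono (Nat.le_succ t)) x u, per_pr (Nat.lt_succ_self t) x u, ((hf t).mono (Nat.le_succ t)) x u]
  rw [ex_per (by omega : t + 1 ≤ n) h2]
  have h3 : ∀ y, id1 (isW k t y ∧ pr t y = 1) * f t y = id1 (pr t y = 1) * (id1 (isW k t y) * f t y) := by
    intro y
    rw [id1_and]; ring
  rw [ex_congr h3, ex_half hg]; ring

theorem excl_isW {n k : ℕ} (y : ℤ) : ∑ t ∈ range n, id1 (isW k t y ∧ pr t y = 1) ≤ 1 := by
  refine (sum_excl (fun t => isW k t y ∧ pr t y = 1) ?_ True (fun _ _ _ => trivial)).trans (id1_le_one _)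
  rintro i hi j hj ⟨⟨a1, a2, a3⟩, a4⟩ ⟨⟨b1, b2, b3⟩, b4⟩
  rcases Nat.lt_trichotomy i j with h | h | h
  · have := od_succ i y
    have := od_mono y (show i + 1 ≤ j by omega)
    omega
  · exact h
  · have := od_succ j y
    have := od_mono y (show j + 1 ≤ i by omega)
    omega

theorem GG_le_one {n k : ℕ} {f : ℕ → ℤ → ℝ} (hf : ∀ t y, f t y ≤ 1) (y : ℤ) : GG n k f y ≤ 1 := by
  refine le_trans ?_ (excl_isW (n := n) (k := k) y)
  unfold GG
  apply sum_le_sum
  intro t _
  exact mul_le_of_le_one_right (id1_nonneg _) (hf t y)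

theorem GG_nonneg {n k : ℕ} {f : ℕ → ℤ → ℝ} (hf : ∀ t y, 0 ≤ f t y) (y : ℤ) : 0 ≤ GG n k f y :=
  sum_nonneg fun _ _ => mul_nonneg (id1_nonneg _) (hf _ _)

/-- splitting a word -/
theorem Ws_split (stp : S → ℕ → S) (n l I : ℕ) (s : S) (φ : S → ℝ) (hφ : ∀ s, 0 ≤ φ s) :
    Ws n (l + I) (fun t y => φ (rn stp t s y)) ≤
      Ws n l (fun t y => Ws n I (fun t' z => φ (rn stp t' (rn stp t s y) z))) := by
  set W : ℕ → ℕ → ℝ := fun a b => ex a (fun y => id1 (isW l a y) *
    ex b (fun z => id1 (isW I b z) * φ (rn stp b (rn stp a s y) z))) with hW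
  have hW0 : ∀ a b, 0 ≤ W a b := fun a b => ex_nonneg fun _ => mul_nonneg (id1_nonneg _)
    (ex_nonneg fun _ => mul_nonneg (id1_nonneg _) (hφ _))
  have h1 : ∀ t, ex t (fun y => id1 (isW (l + I) t y) * φ (rn stp t s y)) = ∑ a ∈ range (t + 1), W a (t - a) := by
    intro t
    have e1 : ∀ y, id1 (isW (l + I) t y) * φ (rn stp t s y) =
        ∑ a ∈ range (t + 1), id1 (isW l a y ∧ isW I (t - a) (T^[a] y)) * φ (rn stp t s y) := by
      intro y
      rw [← sum_mul]
      congr 1
      have := isW_split l I t y True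
      simp only [and_true] at this
      exact this
    rw [ex_congr e1, ex_sum]
    apply sum_congr rfl
    intro a ha
    rw [mem_range] at ha
    have e2 : ∀ y, id1 (isW l a y ∧ isW I (t - a) (T^[a] y)) * φ (rn stp t s y) =
        (fun y z => id1 (isW l a y ∧ isW I (t - a) z) * φ (rn stp (t - a) (rn stp a s y) z)) y (T^[a] y) := by
      intro y
      simp only
      rw [← rn_comp, Nat.add_sub_cancel' (by omega : a ≤ t)]
    rw [ex_congr e2]
    have e3 := ex_pair a (t - a) (fun y z => id1 (isW l a y ∧ isW I (t - a) z) * φ (rn stp (t - a) (rn stp a s y) z))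
      (by intro z x u
          simp only
          rw [per_isW l a x u, per_rn stp s (le_refl a) x u])
      (by intro y x u
          simp only
          rw [per_isW I (t - a) x u, per_rn stp _ (le_refl (t - a)) x u])
    rw [Nat.add_sub_cancel' (by omega : a ≤ t)] at e3
    rw [e3, hW]
    apply ex_congr
    intro y
    rw [← ex_mul]
    apply ex_congr
    intro z
    rw [id1_and]; ring
  have h2 : Ws n (l + I) (fun t y => φ (rn stp t s y)) = ∑ t ∈ range n, ∑ a ∈ range (t + 1), W a (t - a) := by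
    unfold Ws
    exact sum_congr rfl fun t _ => h1 t
  have h3 : Ws n l (fun t y => Ws n I (fun t' z => φ (rn stp t' (rn stp t s y) z))) =
      ∑ a ∈ range n, ∑ b ∈ range n, W a b := by
    unfold Ws
    apply sum_congr rfl
    intro a _
    rw [hW]
    simp only
    rw [← ex_sum]
    apply ex_congr
    intro y
    rw [mul_sum]
  rw [h2, h3]
  have h5 : ∑ t ∈ range n, ∑ a ∈ range (t + 1), W a (t - a) =
      ∑ p ∈ (range n).sigma (fun t => range (t + 1)), W p.2 (p.1 - p.2) := by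
    rw [sum_sigma]
  have h6 : ∑ a ∈ range n, ∑ b ∈ range n, W a b = ∑ p ∈ range n ×ˢ range n, W p.1 p.2 := by
    rw [sum_product]
  rw [h5, h6]
  classical
  have hinj : Set.InjOn (fun p : (_ : ℕ) × ℕ => (p.2, p.1 - p.2)) ((range n).sigma (fun t => range (t + 1)) : Finset ((_ : ℕ) × ℕ)) := by
    rintro ⟨t, a⟩ h ⟨t', a'⟩ h' heq
    rw [mem_coe, mem_sigma, mem_range, mem_range] at h h'
    simp only [Prod.mk.injEq] at heq
    simp only at h h'
    obtain ⟨e1, e2⟩ := heq
    subst e1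
    have : t = t' := by omega
    subst this
    rfl
  calc ∑ p ∈ (range n).sigma (fun t => range (t + 1)), W p.2 (p.1 - p.2)
      = ∑ q ∈ ((range n).sigma (fun t => range (t + 1))).image (fun p : (_ : ℕ) × ℕ => (p.2, p.1 - p.2)),
          W q.1 q.2 := by
        rw [sum_image hinj]
    _ ≤ _ := by
        apply sum_le_sum_of_subset_of_nonneg
        · intro q hq
          rw [mem_image] at hq
          obtain ⟨⟨t, a⟩, h, rfl⟩ := hq
          rw [mem_sigma, mem_range, mem_range] at h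
          rw [mem_product, mem_range, mem_range]
          simp only at h ⊢
          omega
        · intro _ _ _
          exact hW0 _ _

/-- both components merge, with the same numbers of odd steps -/
def Mrg (stp : S → ℕ → S) (k : ℕ) (s s' : S) (y y' : ℤ) : Prop :=
  ∃ t₀ ≤ k, T^[t₀] y = T^[t₀] y' ∧ od t₀ y = od t₀ y' ∧ rn stp t₀ s y = rn stp t₀ s' y'

/-- a coupling of the states `s`, `s'` -/
def Cpl (stp : S → ℕ → S) (k n : ℕ) (s s' : S) (δ : ℝ) : Prop :=
  ∃ A c c' : ℤ, A % 2 = 1 ∧ (c - c') % 2 = 0 ∧ pb n (fun m => ¬ Mrg stp k s s' (A * m + c) (A * m + c')) ≤ δ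

theorem pr0_mod' (y : ℤ) : ((pr 0 y : ℕ) : ℤ) = y % 2 := by
  unfold pr
  simp only [Function.iterate_zero, id]
  omega

theorem shift_le (stp : S → ℕ → S) {k n I : ℕ} {s s' : S} {δ : ℝ} (hI : 1 ≤ I) (hk : k ≤ I)
    (h : Cpl stp k n s s' δ) (φ : S → ℝ) (hφ0 : ∀ s, 0 ≤ φ s) (hφ1 : ∀ s, φ s ≤ 1) :
    Ws n I (fun t y => φ (rn stp t s' y)) ≤ Ws n I (fun t y => φ (rn stp t s y)) + 2 * δ := by
  obtain ⟨A, c, c', hA, hc, hp⟩ := h
  have hper : ∀ s, ∀ t, Per t (fun y => φ (rn stp t s y)) := by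
    intro s t x u
    simp only
    rw [per_rn stp s (le_refl t) x u]
  rw [Ws_eq (hper s), Ws_eq (hper s')]
  have e1 := ex_affine n (per_GG (n := n) (k := I) (hper s)) hA c
  have e2 := ex_affine n (per_GG (n := n) (k := I) (hper s')) hA c'
  rw [← e1, ← e2]
  have h3 : ex n (fun u => GG n I (fun t y => φ (rn stp t s' y)) (A * u + c')) ≤
      ex n (fun u => GG n I (fun t y => φ (rn stp t s y)) (A * u + c)) +
        pb n (fun m => ¬ Mrg stp k s s' (A * m + c) (A * m + c')) := by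
    rw [pb_id1, ← ex_add]
    apply ex_mono
    intro m
    set y := A * m + c with hy
    set y' := A * m + c' with hy'
    by_cases hm : Mrg stp k s s' y y'
    · rw [id1_neg (fun hh => hh hm), add_zero]
      obtain ⟨t₀, ht₀, h1, h2, h3⟩ := hm
      unfold GG
      apply sum_le_sum
      intro t _
      by_cases hw : isW I t y' ∧ pr t y' = 1
      · obtain ⟨⟨w1, w2, w3⟩, w4⟩ := hw
        have ht : I ≤ t := by
          have := od_le (t + 1) y'
          rw [od_succ] at this
          omega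
        have h4 : T^[t] y = T^[t] y' := by
          obtain ⟨d, rfl⟩ := Nat.exists_eq_add_of_le (show t₀ ≤ t by omega)
          rw [add_comm t₀ d, Function.iterate_add_apply, Function.iterate_add_apply, h1]
        have h5 : od t y = od t y' := by
          obtain ⟨d, rfl⟩ := Nat.exists_eq_add_of_le (show t₀ ≤ t by omega)
          rw [od_comp, od_comp, h2, h1]
        have h6 : rn stp t s y = rn stp t s' y' := by
          obtain ⟨d, rfl⟩ := Nat.exists_eq_add_of_le (show t₀ ≤ t by omega)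
          rw [rn_comp, rn_comp, h3, h1]
        have h7 : pr t y = pr t y' := by unfold pr; rw [h4]
        have h8 : pr 0 y = pr 0 y' := by
          have a1 := pr0_mod' y
          have a2 := pr0_mod' y'
          omega
        have h9 : isW I t y ∧ pr t y = 1 := by
          refine ⟨⟨by rw [h5, w1], ?_, by omega⟩, by rw [h7, w4]⟩
          right
          rcases w2 with h | h
          · omega
          · rw [h8, h]
        simp only
        rw [id1_pos h9, id1_pos ⟨⟨w1, w2, w3⟩, w4⟩, h6]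
      · rw [id1_neg hw, zero_mul]
        exact mul_nonneg (id1_nonneg _) (hφ0 _)
    · rw [id1_pos hm]
      have a1 := GG_le_one (n := n) (k := I) (f := fun t y => φ (rn stp t s' y)) (fun t y => hφ1 _) y'
      have a2 := GG_nonneg (n := n) (k := I) (f := fun t y => φ (rn stp t s y)) (fun t y => hφ0 _) y
      linarith
  linarith

theorem digit_bound (stp : S → ℕ → S) {n K₀ I L e M k : ℕ} (s : S) (G₁ near : S → Prop) {δ x₁ x₂ B : ℝ}
    (hI : 1 ≤ I) (hk : k ≤ I) (hL : 1 ≤ L) (hB0 : 0 ≤ B) (hδ : 0 ≤ δ)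
    (hnear : ∀ s', near s' → Cpl stp k n s s' δ)
    (hx1 : ∀ l < L, Ws n l (fun t y => id1 (¬ near (rn stp t s y))) ≤ x₁)
    (hx2 : Ws n I (fun t y => id1 (¬ G₁ (rn stp t s y))) ≤ x₂)
    (hB : ∀ s₁, G₁ s₁ → ∑ q ∈ range M, Gm stp n K₀ s₁ q ≤ B)
    (he : K₀ ≤ e) (heM : e + L ≤ M) :
    Gm stp n (I + L + K₀) s (e + L) ≤ B / L + x₂ + x₁ + 2 * δ := by
  have hL0 : (0 : ℝ) < L := by exact_mod_cast hL
  have h1 : ∀ l ∈ range L, Gm stp n (I + L + K₀) s (e + L) ≤
      Ws n I (fun t y => Gm stp n K₀ (rn stp t s y) (e + l)) + (2 * δ + x₁) := by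
    intro l hl
    rw [mem_range] at hl
    have a1 := Gm_diag stp n (l + I + K₀) (L - l) (e + l) s
    rw [show l + I + K₀ + (L - l) = I + L + K₀ by omega, show L - l + (e + l) = e + L by omega] at a1
    have a2 := Gm_prep stp n (l + I) K₀ (e + l - K₀) s
    rw [show K₀ + (e + l - K₀) = e + l by omega] at a2
    set φ : S → ℝ := fun s₁ => Gm stp n K₀ s₁ (e + l) with hφ
    have a3 := Ws_split stp n l I s φ (fun s => Gm_nonneg _ _ _ _ _)
    have a4 : Ws n l (fun t y => Ws n I (fun t' z => φ (rn stp t' (rn stp t s y) z))) ≤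
        Ws n l (fun t y => (Ws n I (fun t y => φ (rn stp t s y)) + 2 * δ) + id1 (¬ near (rn stp t s y))) := by
      apply Ws_mono
      intro t _ y _
      have b0 : 0 ≤ Ws n I (fun t y => φ (rn stp t s y)) := Ws_nonneg fun _ _ => Gm_nonneg _ _ _ _ _
      by_cases hn : near (rn stp t s y)
      · rw [id1_neg (fun hh => hh hn), add_zero]
        exact shift_le stp hI hk (hnear _ hn) φ (fun s => Gm_nonneg _ _ _ _ _) (fun s => Gm_le_one _ _ _ _ _)
      · rw [id1_pos hn]
        have b1 : Ws n I (fun t' z => φ (rn stp t' (rn stp t s y) z)) ≤ 1 :=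
          (Ws_mono (g := fun _ _ => 1) (fun _ _ _ _ => Gm_le_one _ _ _ _ _)).trans (Ws_one_le n I)
        linarith
    have a5 : Ws n l (fun t y => (Ws n I (fun t y => φ (rn stp t s y)) + 2 * δ) + id1 (¬ near (rn stp t s y))) ≤
        (Ws n I (fun t y => φ (rn stp t s y)) + 2 * δ) + x₁ := by
      rw [Ws_add]
      apply add_le_add _ (hx1 l hl)
      apply Ws_const_le
      have b0 : 0 ≤ Ws n I (fun t y => φ (rn stp t s y)) := Ws_nonneg fun _ _ => Gm_nonneg _ _ _ _ _
      linarith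
    linarith
  have h2 : (L : ℝ) * Gm stp n (I + L + K₀) s (e + L) ≤ ∑ l ∈ range L,
      (Ws n I (fun t y => Gm stp n K₀ (rn stp t s y) (e + l)) + (2 * δ + x₁)) := by
    have := sum_le_sum h1
    rw [sum_const, card_range, nsmul_eq_mul] at this
    exact this
  rw [sum_add_distrib, sum_const, card_range, nsmul_eq_mul, ← Ws_sum] at h2
  have h3 : Ws n I (fun t y => ∑ l ∈ range L, Gm stp n K₀ (rn stp t s y) (e + l)) ≤
      Ws n I (fun t y => B + (L : ℝ) * id1 (¬ G₁ (rn stp t s y))) := by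
    apply Ws_mono
    intro t _ y _
    by_cases hg : G₁ (rn stp t s y)
    · rw [id1_neg (fun hh => hh hg), mul_zero, add_zero]
      refine le_trans ?_ (hB _ hg)
      have e1 : ∑ l ∈ range L, Gm stp n K₀ (rn stp t s y) (e + l) =
          ∑ q ∈ (range L).image (fun l => e + l), Gm stp n K₀ (rn stp t s y) q := by
        classical
        rw [sum_image]
        intro a _ b _ hab
        simpa using hab
      classical
      rw [e1]
      apply sum_le_sum_of_subset_of_nonneg
      · intro q hq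
        rw [mem_image] at hq
        obtain ⟨l, hl, rfl⟩ := hq
        rw [mem_range] at hl ⊢
        omega
      · intro _ _ _; exact Gm_nonneg _ _ _ _ _
    · rw [id1_pos hg, mul_one]
      have : ∑ l ∈ range L, Gm stp n K₀ (rn stp t s y) (e + l) ≤ ∑ l ∈ range L, (1 : ℝ) :=
        sum_le_sum fun _ _ => Gm_le_one _ _ _ _ _
      rw [sum_const, card_range, nsmul_eq_mul, mul_one] at this
      linarith
  have h4 : Ws n I (fun t y => B + (L : ℝ) * id1 (¬ G₁ (rn stp t s y))) ≤ B + L * x₂ := by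
    rw [Ws_add, Ws_mul]
    exact add_le_add (Ws_const_le hB0) (mul_le_mul_of_nonneg_left hx2 hL0.le)
  have h5 : (L : ℝ) * Gm stp n (I + L + K₀) s (e + L) ≤ L * (B / L + x₂ + x₁ + 2 * δ) := by
    have : (L : ℝ) * (B / L + x₂ + x₁ + 2 * δ) = B + L * x₂ + L * (2 * δ + x₁) := by field_simp; ring
    rw [this]
    linarith
  exact le_of_mul_le_mul_left h5 hL0

/-- Decay of the nonuniformity. -/
theorem decay (stp : S → ℕ → S) {n : ℕ} (G₁ : S → Prop) {Kmin Kmax : ℕ} {ε X : ℝ} (hε0 : 0 ≤ ε) (hε1 : ε ≤ 1)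
    (hX : 0 ≤ X)
    (hdig : ∀ s₁, G₁ s₁ → ∀ k₁ j, Kmin ≤ k₁ → k₁ ≤ Kmax → 10 * j ≤ k₁ → Gm stp n k₁ s₁ (k₁ + j) ≤ ε)
    {s : S} (hex : ∀ k₂, Ws n k₂ (fun t y => id1 (¬ G₁ (rn stp t s y))) ≤ X) :
    ∀ i q k : ℕ, 2 * 11 ^ i * Kmin ≤ q → q ≤ Kmax → q ≤ k → Gm stp n k s q ≤ ε ^ i + i * X := by
  intro i
  induction i with
  | zero =>
    intro q k _ _ _
    rw [pow_zero, Nat.cast_zero, zero_mul, add_zero]
    exact Gm_le_one _ _ _ _ _
  | succ i ih =>
    intro q k h1 h2 h3
    set j := q / 11 with hj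
    set k₁ := q - j with hk1
    have hj1 : 2 * 11 ^ i * Kmin ≤ j := by
      rw [hj, Nat.le_div_iff_mul_le (by norm_num)]
      calc 2 * 11 ^ i * Kmin * 11 = 2 * 11 ^ (i + 1) * Kmin := by ring
        _ ≤ q := h1
    have hj2 : 11 * j ≤ q := Nat.mul_div_le q 11
    have hK : Kmin ≤ j := by
      refine le_trans ?_ hj1
      have : 0 < 2 * 11 ^ i := by positivity
      exact Nat.le_mul_of_pos_left _ this
    have h4 := ih j (k - k₁) hj1 (by omega) (by omega)
    have h5 := Gm_prod stp n (k - k₁) k₁ j s G₁ hε0 (fun s₁ hs₁ => hdig s₁ hs₁ k₁ j (by omega) (by omega) (by omega))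
    rw [show k - k₁ + k₁ = k by omega, show k₁ + j = q by omega] at h5
    have h6 := hex (k - k₁)
    have h7 : ε * Gm stp n (k - k₁) s j ≤ ε * (ε ^ i + i * X) := mul_le_mul_of_nonneg_left h4 hε0
    have h8 : ε * ((i : ℝ) * X) ≤ i * X := mul_le_of_le_one_left (by positivity) hε1
    push_cast
    rw [pow_succ]
    linarith

end

end Pool.Agent.J4H39
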