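import Mathlib
import Pool.Agent.J4H39.E4
import Pool.Agent.J4H39.B2

set_option autoImplicit false

namespace Pool.Agent.J4H39

open Finset
open Pool.Agent.H499R2.CO (rho rho_nonneg)

/-! The hypotheses of the mixing theorem for the pair automaton. -/

/-- integral representation of a state -/
theorem repr_state (s : ℤ × ℤ) : ∃ c c₁ : ℤ, 0 ≤ c ∧ c < 2 * 3 ^ (-s.1).toNat ∧ c % 2 = 0 ∧
    3 ^ (-s.1).toNat * c₁ = 3 ^ s.1.toNat * c + s.2 := by
  set E := (-s.1).toNat with hE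
  have h3 : (0 : ℤ) < 3 ^ E := by positivity
  set c₀ : ℤ := (-s.2) % 3 ^ E with hc₀
  have h1 : 0 ≤ c₀ := Int.emod_nonneg _ h3.ne'
  have h2 : c₀ < 3 ^ E := Int.emod_lt_of_pos _ h3
  have hd : (3 : ℤ) ^ E ∣ c₀ + s.2 := by
    have := Int.emod_add_mul_ediv (-s.2) (3 ^ E)
    rw [← hc₀] at this
    exact ⟨-(-s.2 / 3 ^ E), by linarith⟩
  have hodd := pow3_odd E
  have key : ∀ c : ℤ, (3 : ℤ) ^ E ∣ c + s.2 → (3 : ℤ) ^ E ∣ 3 ^ s.1.toNat * c + s.2 := by
    intro c hc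
    rcases Nat.eq_zero_or_pos E with h | h
    · rw [h, pow_zero]; exact one_dvd _
    · have : s.1.toNat = 0 := by omega
      rw [this, pow_zero, one_mul]; exact hc
  rcases Int.emod_two_eq_zero_or_one c₀ with h | h
  · obtain ⟨c₁, hc₁⟩ := key c₀ hd
    exact ⟨c₀, c₁, h1, by omega, h, hc₁.symm⟩
  · have hd' : (3 : ℤ) ^ E ∣ (c₀ + 3 ^ E) + s.2 := by
      obtain ⟨x, hx⟩ := hd
      exact ⟨x + 1, by linarith⟩
    obtain ⟨c₁, hc₁⟩ := key _ hd'
    exact ⟨c₀ + 3 ^ E, c₁, by omega, by omega, by omega, hc₁.symm⟩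

/-- a set of states -/
def GS (a b : ℕ) (s : ℤ × ℤ) : Prop := |s.1| ≤ a ∧ |s.2| ≤ 4 ^ b

theorem GS_mono {a b a' b' : ℕ} (ha : a ≤ a') (hb : b ≤ b') {s : ℤ × ℤ} (h : GS a b s) : GS a' b' s := by
  refine ⟨h.1.trans (by exact_mod_cast ha), h.2.trans ?_⟩
  exact pow_le_pow_right₀ (by norm_num) hb

theorem repr_bound {s : ℤ × ℤ} {a b : ℕ} (h : GS a b s) {c c₁ : ℤ} (h0 : 0 ≤ c) (h1 : c < 2 * 3 ^ (-s.1).toNat)
    (h2 : 3 ^ (-s.1).toNat * c₁ = 3 ^ s.1.toNat * c + s.2) : |c| ≤ 4 ^ (a + 1) ∧ |c₁| ≤ 4 ^ (2 * a + b + 2) := by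
  obtain ⟨ha, hb⟩ := h
  rw [abs_le] at ha
  have e1 : (-s.1).toNat ≤ a := by omega
  have e2 : s.1.toNat ≤ a := by omega
  have p1 : (3 : ℤ) ^ (-s.1).toNat ≤ 4 ^ a :=
    (pow_le_pow_left₀ (by norm_num) (by norm_num) _).trans (pow_le_pow_right₀ (by norm_num) e1)
  have p2 : (3 : ℤ) ^ s.1.toNat ≤ 4 ^ a :=
    (pow_le_pow_left₀ (by norm_num) (by norm_num) _).trans (pow_le_pow_right₀ (by norm_num) e2)
  have q1 : (1 : ℤ) ≤ 3 ^ (-s.1).toNat := one_le_pow₀ (by norm_num)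
  have q4a : (1 : ℤ) ≤ 4 ^ a := one_le_pow₀ (by norm_num)
  have q4b : (1 : ℤ) ≤ 4 ^ b := one_le_pow₀ (by norm_num)
  have hc : |c| ≤ 2 * 4 ^ a := by rw [abs_of_nonneg h0]; linarith
  constructor
  · refine hc.trans ?_
    rw [pow_succ]; linarith
  · have h3 : |c₁| ≤ |3 ^ (-s.1).toNat * c₁| := by
      rw [abs_mul, abs_of_pos (by positivity : (0 : ℤ) < 3 ^ (-s.1).toNat)]
      exact le_mul_of_one_le_left (abs_nonneg _) q1
    refine h3.trans ?_
    rw [h2]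
    refine (abs_add_le _ _).trans ?_
    have h4 : |3 ^ s.1.toNat * c| ≤ 4 ^ a * (2 * 4 ^ a) := by
      rw [abs_mul, abs_of_pos (by positivity : (0 : ℤ) < 3 ^ s.1.toNat)]
      exact mul_le_mul p2 hc (abs_nonneg _) (by positivity)
    have h5 : (4 : ℤ) ^ (2 * a + b + 2) = 16 * (4 ^ a * 4 ^ a * 4 ^ b) := by ring
    rw [h5]
    have h6 : (4 : ℤ) ^ a * 4 ^ a ≤ 4 ^ a * 4 ^ a * 4 ^ b := le_mul_of_one_le_right (by positivity) q4b
    have h7 : (4 : ℤ) ^ b ≤ 4 ^ a * 4 ^ a * 4 ^ b := by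
      apply le_mul_of_one_le_left (by positivity)
      exact one_le_mul_of_one_le_of_one_le q4a q4a
    linarith

theorem repr_rel {s : ℤ × ℤ} {c c₁ : ℤ} (h2 : 3 ^ (-s.1).toNat * c₁ = 3 ^ s.1.toNat * c + s.2) (m : ℤ) :
    Rel s (3 ^ (-s.1).toNat * m + c) (3 ^ s.1.toNat * m + c₁) := by
  unfold Rel
  rw [mul_add, h2]; ring

theorem per_Mrg (k : ℕ) (s s' : ℤ × ℤ) {A c c' : ℤ} : ∀ n, k ≤ n →
    Per n (fun m => ¬ Mrg stP k s s' (A * m + c) (A * m + c')) := by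
  intro n hkn m u
  simp only
  have key : ∀ m u, Mrg stP k s s' (A * m + c) (A * m + c') →
      Mrg stP k s s' (A * (m + 2 ^ n * u) + c) (A * (m + 2 ^ n * u) + c') := by
    rintro m u ⟨t₀, h0, h1, h2, h3⟩
    obtain ⟨d, hd⟩ := Nat.exists_eq_add_of_le (h0.trans hkn)
    refine ⟨t₀, h0, ?_, ?_, ?_⟩
    · rw [show A * (m + 2 ^ n * u) + c = (A * m + c) + 2 ^ t₀ * (2 ^ d * A * u) by rw [hd, pow_add]; ring,
        show A * (m + 2 ^ n * u) + c' = (A * m + c') + 2 ^ t₀ * (2 ^ d * A * u) by rw [hd, pow_add]; ring,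
        T_add, T_add, h1, h2]
    · rw [show A * (m + 2 ^ n * u) + c = (A * m + c) + 2 ^ t₀ * (2 ^ d * A * u) by rw [hd, pow_add]; ring,
        show A * (m + 2 ^ n * u) + c' = (A * m + c') + 2 ^ t₀ * (2 ^ d * A * u) by rw [hd, pow_add]; ring,
        od_add, od_add, h2]
    · rw [show A * (m + 2 ^ n * u) + c = (A * m + c) + 2 ^ t₀ * (2 ^ d * A * u) by rw [hd, pow_add]; ring,
        show A * (m + 2 ^ n * u) + c' = (A * m + c') + 2 ^ t₀ * (2 ^ d * A * u) by rw [hd, pow_add]; ring,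
        per_rn stP s (le_refl t₀), per_rn stP s' (le_refl t₀), h3]
  apply propext
  apply not_congr
  constructor
  · intro h
    have := key _ (-u) h
    rw [show m + 2 ^ n * u + 2 ^ n * (-u) = m by ring] at this
    exact this
  · exact key m u

/-- merging with the number of odd steps, in the form used below -/
theorem Mrg_of {k : ℕ} {s s' : ℤ × ℤ} {y y' z z' : ℤ} (h : Rel s y y') (h' : Rel s' z z') {r₁ r₂ : ℤ}
    (g₁ : Rel (0, r₁) y z) (g₂ : Rel (s'.1 - s.1, r₂) y' z') (e₁ : rn stP k (0, r₁) y = (0, 0))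
    (e₂ : rn stP k (s'.1 - s.1, r₂) y' = (0, 0)) : Mrg stP k s s' y z := by
  obtain ⟨a1, a2⟩ := merge_of_rn g₁ e₁
  obtain ⟨b1, b2⟩ := merge_of_rn g₂ e₂
  simp only at a2 b2
  refine ⟨k, le_rfl, a1, by omega, ?_⟩
  obtain ⟨c1, c2⟩ := rel_rn h k
  obtain ⟨d1, d2⟩ := rel_rn h' k
  rw [← a1, ← b1] at d1
  apply rel_eq c1 d1
  rw [c2, d2]
  omega

theorem cpl_pair {C : ℝ} (hC : 0 < C) (hrate : ∀ (k : ℕ), 1 ≤ k → ∀ (D : ℤ) (u : ℕ) (r : ℤ), |(r : ℝ)| ≤ 4 ^ u →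
    ns k (D, r) ≤ C * √ (1 + (D : ℝ) ^ 2 + u) * rho k) {k n a b d : ℕ} (hk : 1 ≤ k) (hkn : k ≤ n) {s s' : ℤ × ℤ}
    (hs : GS a b s) (hs' : GS a b s') (hd : |s'.1 - s.1| ≤ d) :
    Cpl stP k n s s' (2 * (C * √ (1 + (d : ℝ) ^ 2 + (4 * a + b + 3 : ℕ)) * rho k)) := by
  obtain ⟨c, c₁, h0, h1, h2, h3⟩ := repr_state s
  obtain ⟨c', c₁', h0', h1', h2', h3'⟩ := repr_state s'
  obtain ⟨bc, bc₁⟩ := repr_bound hs h0 h1 h3
  obtain ⟨bc', bc₁'⟩ := repr_bound hs' h0' h1' h3'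
  set E := (-s.1).toNat with hE
  set E' := (-s'.1).toNat with hE'
  refine ⟨3 ^ (E + E'), c, c', pow3_odd _, by omega, ?_⟩
  set Δ : ℤ := s'.1 - s.1 with hΔ
  set r₁ : ℤ := c' - c with hr₁
  set r₂ : ℤ := 3 ^ (-Δ).toNat * c₁' - 3 ^ Δ.toNat * c₁ with hr₂
  set y' : ℤ → ℤ := fun m => 3 ^ (s.1.toNat + E') * m + c₁ with hy'
  set z' : ℤ → ℤ := fun m => 3 ^ (s'.1.toNat + E) * m + c₁' with hz'
  have R1 : ∀ m, Rel s (3 ^ (E + E') * m + c) (y' m) := by
    intro m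
    have := repr_rel h3 (3 ^ E' * m)
    rw [← hE, ← mul_assoc, ← mul_assoc, ← pow_add, ← pow_add] at this
    exact this
  have R2 : ∀ m, Rel s' (3 ^ (E + E') * m + c') (z' m) := by
    intro m
    have := repr_rel h3' (3 ^ E * m)
    rw [← hE', ← mul_assoc, ← mul_assoc, ← pow_add, ← pow_add, add_comm E' E] at this
    exact this
  have R3 : ∀ m, Rel (0, r₁) (3 ^ (E + E') * m + c) (3 ^ (E + E') * m + c') := by
    intro m
    unfold Rel
    simp only [neg_zero, Int.toNat_zero, pow_zero, one_mul]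
    rw [hr₁]; ring
  have R4 : ∀ m, Rel (Δ, r₂) (y' m) (z' m) := by
    intro m
    unfold Rel
    simp only
    rw [hy', hz', hr₂]
    simp only
    have e : (-Δ).toNat + (s'.1.toNat + E) = Δ.toNat + (s.1.toNat + E') := by omega
    have e2 : (3 : ℤ) ^ (-Δ).toNat * (3 ^ (s'.1.toNat + E) * m) = 3 ^ Δ.toNat * (3 ^ (s.1.toNat + E') * m) := by
      rw [← mul_assoc, ← mul_assoc, ← pow_add, ← pow_add, e]
    rw [mul_add, e2]; ring
  have hcov : ∀ m, ¬ Mrg stP k s s' (3 ^ (E + E') * m + c) (3 ^ (E + E') * m + c') →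
      rn stP k (0, r₁) (3 ^ (E + E') * m + c) ≠ (0, 0) ∨ rn stP k (Δ, r₂) (y' m) ≠ (0, 0) := by
    intro m hm
    by_contra hcon
    push Not at hcon
    exact hm (Mrg_of (R1 m) (R2 m) (R3 m) (R4 m) hcon.1 hcon.2)
  rw [pb_per hkn (per_Mrg k s s' k le_rfl)]
  refine (pb_mono hcov).trans ((pb_or _ _ _).trans ?_)
  have p1 : pb k (fun m => rn stP k (0, r₁) (3 ^ (E + E') * m + c) ≠ (0, 0)) = ns k (0, r₁) :=
    pb_affine (per_ns k (0, r₁)) (pow3_odd _) c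
  have p2 : pb k (fun m => rn stP k (Δ, r₂) (y' m) ≠ (0, 0)) = ns k (Δ, r₂) :=
    pb_affine (per_ns k (Δ, r₂)) (pow3_odd _) c₁
  rw [p1, p2]
  set u := 4 * a + b + 3 with hu
  have hrho : 0 ≤ rho k := rho_nonneg k
  have hda : |Δ| ≤ 2 * a := by
    rw [hΔ]
    have := hs.1
    have := hs'.1
    refine (abs_sub _ _).trans ?_
    linarith
  have m1 : |(r₁ : ℝ)| ≤ 4 ^ u := by
    have : |r₁| ≤ 4 ^ u := by
      rw [hr₁]
      refine (abs_sub _ _).trans ?_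
      have : (4 : ℤ) ^ (a + 1) * 4 ≤ 4 ^ u := by
        rw [← pow_succ]
        exact pow_le_pow_right₀ (by norm_num) (by omega)
      have h4 : (0 : ℤ) < 4 ^ (a + 1) := by positivity
      linarith
    exact_mod_cast this
  have m2 : |(r₂ : ℝ)| ≤ 4 ^ u := by
    have : |r₂| ≤ 4 ^ u := by
      rw [hr₂]
      refine (abs_sub _ _).trans ?_
      rw [abs_le] at hda
      have t1 : (3 : ℤ) ^ (-Δ).toNat ≤ 4 ^ (2 * a) :=
        (pow_le_pow_left₀ (by norm_num) (by norm_num) _).trans (pow_le_pow_right₀ (by norm_num) (by omega))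
      have t2 : (3 : ℤ) ^ Δ.toNat ≤ 4 ^ (2 * a) :=
        (pow_le_pow_left₀ (by norm_num) (by norm_num) _).trans (pow_le_pow_right₀ (by norm_num) (by omega))
      have t3 : |3 ^ (-Δ).toNat * c₁'| ≤ 4 ^ (2 * a) * 4 ^ (2 * a + b + 2) := by
        rw [abs_mul, abs_of_pos (by positivity : (0 : ℤ) < 3 ^ (-Δ).toNat)]
        exact mul_le_mul t1 bc₁' (abs_nonneg _) (by positivity)
      have t4 : |3 ^ Δ.toNat * c₁| ≤ 4 ^ (2 * a) * 4 ^ (2 * a + b + 2) := by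
        rw [abs_mul, abs_of_pos (by positivity : (0 : ℤ) < 3 ^ Δ.toNat)]
        exact mul_le_mul t2 bc₁ (abs_nonneg _) (by positivity)
      have t5 : (4 : ℤ) ^ u = 4 * (4 ^ (2 * a) * 4 ^ (2 * a + b + 2)) := by rw [hu]; ring
      have t6 : (0 : ℤ) < 4 ^ (2 * a) * 4 ^ (2 * a + b + 2) := by positivity
      linarith
    exact_mod_cast this
  have q1 := hrate k hk 0 u r₁ m1
  have q2 := hrate k hk Δ u r₂ m2
  have mono : ∀ D : ℤ, |D| ≤ d → C * √ (1 + (D : ℝ) ^ 2 + u) * rho k ≤ C * √ (1 + (d : ℝ) ^ 2 + u) * rho k := by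
    intro D hD
    apply mul_le_mul_of_nonneg_right _ hrho
    apply mul_le_mul_of_nonneg_left _ hC.le
    apply Real.sqrt_le_sqrt
    have h3 : |(D : ℝ)| ≤ d := by exact_mod_cast hD
    have h4 : (D : ℝ) ^ 2 ≤ (d : ℝ) ^ 2 := by
      rw [← sq_abs]
      exact pow_le_pow_left₀ (abs_nonneg _) h3 2
    linarith
  have q3 := mono 0 (by simp)
  have q4 := mono Δ hd
  linarith

/-! Exits. -/

theorem od_pow {t L δ : ℕ} {x : ℤ} (hx : Gd t L δ x) {j : ℕ} (hj : j ≤ t) : 3 ^ od j x ≤ 4 ^ δ * 2 ^ j := by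
  have h1 := od_up hx hj
  apply sq_le_of
  calc (3 ^ od j x) ^ 2 = 3 ^ (2 * od j x) := by rw [← pow_mul]; congr 1; ring
    _ ≤ 3 ^ (j + δ) := Nat.pow_le_pow_right (by norm_num) h1
    _ ≤ 4 ^ (j + δ) := Nat.pow_le_pow_left (by norm_num) _
    _ ≤ 4 ^ (j + 2 * δ) := Nat.pow_le_pow_right (by norm_num) (by omega)
    _ = (4 ^ δ * 2 ^ j) ^ 2 := by
        rw [mul_pow, ← pow_mul 2 j 2, mul_comm j 2, pow_mul 2 2 j, ← pow_mul]; ring

/-- the good event for a pair -/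
theorem exit_one {s : ℤ × ℤ} {a b n l δ : ℕ} (hs : GS a b s) {y y' : ℤ} (h : Rel s y y')
    (hx : Gd n (4 ^ l : ℕ) δ y) (hy : Gd n (4 ^ l : ℕ) δ y') {t : ℕ} (ht : t ≤ n) :
    GS (a + δ) (a + 2 * δ + b + l + 1) (rn stP t s y) := by
  have hD : |(rn stP t s y).1| ≤ ((a + δ : ℕ) : ℤ) := by
    rw [(rel_rn h t).2]
    have a1 := od_up hx ht
    have a2 := od_lo hx ht
    have a3 := od_up hy ht
    have a4 := od_lo hy ht
    have h1 := hs.1
    rw [abs_le] at h1 ⊢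
    push_cast
    constructor <;> omega
  refine ⟨hD, ?_⟩
  have := rbound h (t := t) (e := b + δ) (l := l) (K := a + δ) ?_ (hx t ht).1 (hy t ht).1 hD
  · rw [show a + 2 * δ + b + l + 1 = a + δ + (b + δ) + l + 1 by ring]; exact this
  · have h1 : ((3 ^ od t y : ℕ) : ℤ) ≤ ((4 ^ δ * 2 ^ t : ℕ) : ℤ) := by exact_mod_cast od_pow hx ht
    push_cast at h1
    calc (3 : ℤ) ^ od t y * |s.2| ≤ (4 ^ δ * 2 ^ t) * 4 ^ b := mul_le_mul h1 hs.2 (abs_nonneg _) (by positivity)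
      _ = 4 ^ (b + δ) * 2 ^ t := by rw [pow_add]; ring

/-- from `y` to the integral representation -/
theorem pb_repr {n : ℕ} {P Q : ℤ → Prop} {s : ℤ × ℤ} (hP : Per n P) (hQ : Per n Q)
    (h : ∀ y y', Rel s y y' → P y → ¬ Q y → Q y' ) : pb n P ≤ 2 * pb n Q := by
  obtain ⟨c, c₁, _, _, _, h3⟩ := repr_state s
  rw [← pb_affine hP (pow3_odd (-s.1).toNat) c]
  have h4 : ∀ m, P (3 ^ (-s.1).toNat * m + c) → Q (3 ^ (-s.1).toNat * m + c) ∨ Q (3 ^ s.1.toNat * m + c₁) := by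
    intro m hm
    by_cases hq : Q (3 ^ (-s.1).toNat * m + c)
    · exact Or.inl hq
    · exact Or.inr (h _ _ (repr_rel h3 m) hm hq)
  refine (pb_mono h4).trans ((pb_or _ _ _).trans ?_)
  rw [pb_affine hQ (pow3_odd (-s.1).toNat) c, pb_affine hQ (pow3_odd s.1.toNat) c₁]
  linarith

theorem per_nGd (n L : ℕ) (δ : ℝ) : Per n (fun y => ¬ Gd n L δ y) := (per_Gd n L δ).comp (fun p => ¬ p)

theorem exit_Ws {s : ℤ × ℤ} {a b n l δ : ℕ} (hs : GS a b s) (k : ℕ) :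
    Ws n k (fun t y => id1 (¬ GS (a + δ) (a + 2 * δ + b + l + 1) (rn stP t s y))) ≤
      4 * pb n (fun y => ¬ Gd n (4 ^ l : ℕ) δ y) := by
  set R : ℕ → ℤ → Prop := fun t y => ¬ GS (a + δ) (a + 2 * δ + b + l + 1) (rn stP t s y) with hR
  have hRper : ∀ t, Per t (R t) := by
    intro t x u
    rw [hR]; simp only
    rw [per_rn stP s (le_refl t) x u]
  have h1 := Ws_le n k hRper (Q := fun y => ∃ t, t < n ∧ R t y) (fun t ht y _ _ h => ⟨t, ht, h⟩)
  refine h1.trans ?_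
  have hPper : Per n (fun y => ∃ t, t < n ∧ R t y) := by
    intro x u
    simp only
    apply propext
    apply exists_congr
    intro t
    apply and_congr_right
    intro ht
    rw [((hRper t).mono ht.le) x u]
  have h2 := pb_repr (s := s) hPper (per_nGd n (4 ^ l) δ) (by
    rintro y y' hrel ⟨t, ht, hRt⟩ hq hq'
    push Not at hq
    exact hRt (exit_one hs hrel hq hq' ht.le))
  linarith

theorem exit_time {s : ℤ × ℤ} {a b n l δ : ℕ} (hs : GS a b s) :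
    pb n (fun y => ∃ t ≤ n, ¬ GS (a + δ) (a + 2 * δ + b + l + 1) (rn stP t s y)) ≤
      2 * pb n (fun y => ¬ Gd n (4 ^ l : ℕ) δ y) := by
  have hPper : Per n (fun y => ∃ t ≤ n, ¬ GS (a + δ) (a + 2 * δ + b + l + 1) (rn stP t s y)) := by
    intro x u
    simp only
    apply propext
    apply exists_congr
    intro t
    apply and_congr_right
    intro ht
    rw [per_rn stP s ht x u]
  apply pb_repr (s := s) hPper (per_nGd n (4 ^ l) δ)
  rintro y y' hrel ⟨t, ht, hRt⟩ hq hq'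
  push Not at hq
  exact hRt (exit_one hs hrel hq hq' ht)

/-- short words stay near -/
theorem near_Ws {s : ℤ × ℤ} {a b n l δ nL δL L : ℕ} (hs : GS a b s) (hnL : nL ≤ n) (hL : 2 * L + δL ≤ nL)
    {k : ℕ} (hk : k < L) :
    Ws n k (fun t y => id1 (¬ (GS (a + δ) (a + 2 * δ + b + l + 1) (rn stP t s y) ∧
      |(rn stP t s y).1 - s.1| ≤ δL))) ≤
      4 * pb n (fun y => ¬ Gd n (4 ^ l : ℕ) δ y) + 4 * pb nL (fun y => ¬ Gd nL (4 ^ l : ℕ) δL y) := by
  set R : ℕ → ℤ → Prop := fun t y => ¬ (GS (a + δ) (a + 2 * δ + b + l + 1) (rn stP t s y) ∧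
      |(rn stP t s y).1 - s.1| ≤ δL) with hR
  have hRper : ∀ t, Per t (R t) := by
    intro t x u
    rw [hR]; simp only
    rw [per_rn stP s (le_refl t) x u]
  set P : ℤ → Prop := fun y => ∃ t, t < n ∧ isW k t y ∧ R t y with hP
  have h1 := Ws_le n k hRper (Q := P) (fun t ht y hw _ h => ⟨t, ht, hw, h⟩)
  refine h1.trans ?_
  have hPper : Per n P := by
    intro x u
    rw [hP]
    simp only
    apply propext
    apply exists_congr
    intro t
    apply and_congr_right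
    intro ht
    rw [((hRper t).mono ht.le) x u, ((per_isW k t).mono ht.le) x u]
  set Q : ℤ → Prop := fun y => (¬ Gd n (4 ^ l : ℕ) δ y) ∨ (¬ Gd nL (4 ^ l : ℕ) δL y) with hQ
  have hQper : Per n Q := by
    intro x u
    rw [hQ]; simp only
    have e1 := per_nGd n (4 ^ l) δ x u
    have e2 := ((per_nGd nL (4 ^ l) δL).mono hnL) x u
    simp only at e1 e2
    rw [e1, e2]
  have h2 := pb_repr (s := s) hPper hQper (by
    rintro y y' hrel ⟨t, ht, hw, hRt⟩ hq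
    rw [hQ] at hq ⊢
    simp only [not_or, not_not] at hq ⊢
    by_contra hq'
    simp only [not_or, not_not] at hq'
    apply hRt
    refine ⟨exit_one hs hrel hq.1 hq'.1 ht.le, ?_⟩
    have htn : t ≤ nL := by
      by_contra hcon
      push Not at hcon
      have b1 := od_lo hq.2 (le_refl nL)
      have b2 := od_mono y hcon.le
      have b3 := hw.1
      omega
    have a1 := od_up hq.2 htn
    have a2 := od_lo hq.2 htn
    have a3 := od_up hq'.2 htn
    have a4 := od_lo hq'.2 htn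
    rw [(rel_rn hrel t).2, abs_le]
    constructor <;> omega)
  have h3 : pb n Q ≤ pb n (fun y => ¬ Gd n (4 ^ l : ℕ) δ y) + pb nL (fun y => ¬ Gd nL (4 ^ l : ℕ) δL y) := by
    have := pb_or n (fun y => ¬ Gd n (4 ^ l : ℕ) δ y) (fun y => ¬ Gd nL (4 ^ l : ℕ) δL y)
    rw [pb_per hnL (per_nGd nL (4 ^ l) δL)] at this
    exact this
  linarith

/-! The mass of the typical words. -/

theorem Ws_one_ge {n k : ℕ} (hn : 1 ≤ n) (hk : 1 ≤ k) : 1 - 2 * pb n (fun y => od n y ≤ k) ≤ Ws n k (fun _ _ => 1) := by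
  rw [Ws_eq (fun t x u => rfl)]
  have h1 : pb n (fun y => pr 0 y = 1) - pb n (fun y => od n y ≤ k) ≤ ex n (GG n k (fun _ _ => 1)) := by
    rw [sub_le_iff_le_add, pb_id1, pb_id1, ← ex_add]
    apply ex_mono
    intro y
    by_cases h1 : pr 0 y = 1
    · by_cases h2 : od n y ≤ k
      · rw [id1_pos h1, id1_pos h2]
        have := GG_nonneg (n := n) (k := k) (f := fun _ _ => 1) (fun _ _ => by norm_num) y
        linarith
      · rw [id1_pos h1, id1_neg h2, add_zero]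
        push Not at h2
        obtain ⟨a, h3, h4, h5⟩ := exists_time (k := k) (y := y) (t := n) (by omega)
        unfold GG
        have h6 : isW k a y ∧ pr a y = 1 := ⟨⟨h4, Or.inr h1, by omega⟩, h5⟩
        calc (1 : ℝ) = id1 (isW k a y ∧ pr a y = 1) * 1 := by rw [id1_pos h6, one_mul]
          _ ≤ _ := single_le_sum (f := fun t => id1 (isW k t y ∧ pr t y = 1) * (1 : ℝ))
              (fun t _ => mul_nonneg (id1_nonneg _) (by norm_num)) (mem_range.2 h3)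
    · rw [id1_neg h1]
      have := GG_nonneg (n := n) (k := k) (f := fun _ _ => 1) (fun _ _ => by norm_num) y
      have := id1_nonneg (od n y ≤ k)
      linarith
  rw [pb_odd hn] at h1
  linarith

/-- the labels -/
noncomputable def Lab (a b : ℕ) : Finset (ℤ × ℤ) := Icc (-(a : ℤ)) a ×ˢ Icc (-(4 ^ b : ℤ)) (4 ^ b)

theorem mem_Lab {a b : ℕ} {s : ℤ × ℤ} : s ∈ Lab a b ↔ GS a b s := by
  unfold Lab GS
  rw [mem_product, mem_Icc, mem_Icc, abs_le, abs_le]

theorem card_Lab (a b : ℕ) : #(Lab a b) = (2 * a + 1) * (2 * 4 ^ b + 1) := by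
  unfold Lab
  rw [card_product, Int.card_Icc, Int.card_Icc]
  congr 1
  · omega
  · have : ((4 ^ b : ℤ) + 1 - -(4 ^ b)).toNat = ((2 * 4 ^ b + 1 : ℕ) : ℤ).toNat := by
      congr 1; push_cast; ring
    rw [this, Int.toNat_natCast]

theorem typ_Ws {s : ℤ × ℤ} {a b n l δ K : ℕ} (hs : GS a b s) (hK : 1 ≤ K) (hn : 2 * K + δ < n) :
    1 - 6 * pb n (fun y => ¬ Gd n (4 ^ l : ℕ) δ y) ≤
      Ws n K (fun t y => id1 (TY stP s (2 * K - δ) (2 * K + δ) l (Lab (a + δ) (a + 2 * δ + b + l + 1)) t y)) := by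
  set x := pb n (fun y => ¬ Gd n (4 ^ l : ℕ) δ y) with hx
  have h1 := Ws_one_ge (n := n) (k := K) (by omega) hK
  have h2 : pb n (fun y => od n y ≤ K) ≤ x := by
    apply pb_mono
    intro y hy hg
    have := od_lo hg (le_refl n)
    omega
  set R : ℕ → ℤ → Prop := fun t y => ¬ (isW K t y → TY stP s (2 * K - δ) (2 * K + δ) l
    (Lab (a + δ) (a + 2 * δ + b + l + 1)) t y) with hR
  have hRper : ∀ t, Per t (R t) := by
    intro t x u
    rw [hR]; simp only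
    unfold TY
    rw [per_rn stP s (le_refl t) x u, per_rh (le_refl t) x u, per_isW K t x u]
  have h3 := Ws_le n K hRper (Q := fun y => ∃ t, t < n ∧ R t y) (fun t ht y _ _ h => ⟨t, ht, h⟩)
  have hPper : Per n (fun y => ∃ t, t < n ∧ R t y) := by
    intro x u
    simp only
    apply propext
    apply exists_congr
    intro t
    apply and_congr_right
    intro ht
    rw [((hRper t).mono ht.le) x u]
  have h4 := pb_repr (s := s) hPper (per_nGd n (4 ^ l) δ) (by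
    rintro y y' hrel ⟨t, ht, hRt⟩ hq hq'
    push Not at hq
    apply hRt
    intro hw
    have a1 := od_up hq ht.le
    have a2 := od_lo hq ht.le
    rw [hw.1] at a1 a2
    refine ⟨⟨by omega, by omega⟩, (hq t ht.le).1, ?_⟩
    rw [mem_Lab]
    exact exit_one hs hrel hq hq' ht.le)
  have h5 : Ws n K (fun _ _ => 1) ≤ Ws n K (fun t y => id1 (TY stP s (2 * K - δ) (2 * K + δ) l
      (Lab (a + δ) (a + 2 * δ + b + l + 1)) t y)) + Ws n K (fun t y => id1 (R t y)) := by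
    rw [← Ws_add]
    apply Ws_mono
    intro t _ y hw
    by_cases hT : TY stP s (2 * K - δ) (2 * K + δ) l (Lab (a + δ) (a + 2 * δ + b + l + 1)) t y
    · rw [id1_pos hT]
      have := id1_nonneg (R t y)
      linarith
    · have : R t y := fun h => hT (h hw)
      rw [id1_pos this]
      have := id1_nonneg (TY stP s (2 * K - δ) (2 * K + δ) l (Lab (a + δ) (a + 2 * δ + b + l + 1)) t y)
      linarith
  linarith

end Pool.Agent.J4H39
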