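import Mathlib
import Pool.Agent.J4H39.E5

set_option autoImplicit false

namespace Pool.Agent.J4H39

open Finset Real
open Pool.Agent.H499R2.CO (rho rho_nonneg)

/-! The digit bound for pairs, with explicit parameters. -/

theorem log_card_Lab (a b : ℕ) : log ((#(Lab a b) : ℕ) : ℝ) ≤ 2 * a + 2 * (b + 1) := by
  rw [card_Lab]
  push_cast
  rw [log_mul (by positivity) (by positivity)]
  have h1 : log (2 * (a : ℝ) + 1) ≤ 2 * a := by
    have := log_le_sub_one_of_pos (show (0 : ℝ) < 2 * a + 1 by positivity)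
    linarith
  have h2 : log (2 * (4 : ℝ) ^ b + 1) ≤ 2 * (b + 1) := by
    have h3 : 2 * (4 : ℝ) ^ b + 1 ≤ 4 ^ (b + 1) := by
      have : (1 : ℝ) ≤ 4 ^ b := one_le_pow₀ (by norm_num)
      rw [pow_succ]; linarith
    have h4 := log_le_log (by positivity) h3
    rw [log_pow] at h4
    have h5 : log 4 ≤ 2 := by
      have : (4 : ℝ) = 2 ^ 2 := by norm_num
      rw [this, log_pow]
      have := log_two_lt_d9
      push_cast; linarith
    refine h4.trans ?_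
    push_cast
    have : (0 : ℝ) ≤ (b : ℝ) + 1 := by positivity
    nlinarith
  linarith

theorem pair_B {s : ℤ × ℤ} {a b n l δ K M : ℕ} (hs : GS a b s) (hK : 1 ≤ K) (hn : 2 * K + δ < n)
    (hM : M = Nat.log 3 (4 ^ l * 2 ^ (2 * K + δ)) + 1) :
    ∑ q ∈ range M, Gm stP n K s q ≤ 3 * (7 + 2 * l + 2 * δ + 12 * n * pb n (fun y => ¬ Gd n (4 ^ l : ℕ) δ y) + log n +
      2 * (a + δ) + 2 * (a + 2 * δ + b + l + 1)) := by
  set x := pb n (fun y => ¬ Gd n (4 ^ l : ℕ) δ y) with hx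
  have hx0 : 0 ≤ x := pb_nonneg _ _
  set N0 := 4 ^ l * 2 ^ (2 * K + δ) with hN0
  have hN0pos : 0 < N0 := by positivity
  have h1 : N0 < 3 ^ M := by rw [hM]; exact Nat.lt_pow_succ_log_self (by norm_num) N0
  have h2 : 3 ^ (M - 1) ≤ N0 := by
    rw [hM, Nat.add_sub_cancel]
    exact Nat.pow_log_le_self 3 hN0pos.ne'
  have hne : (Lab (a + δ) (a + 2 * δ + b + l + 1)).Nonempty := ⟨(0, 0), by
    rw [mem_Lab]
    exact ⟨by simp only [abs_zero]; positivity, by simp only [abs_zero]; positivity⟩⟩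
  have h3 := Gm_ent stP s (n := n) (K := K) (M := M) (Tlo := 2 * K - δ) (Thi := 2 * K + δ) (l := l) _ hne (by omega) h1
  have h4 := typ_Ws (l := l) hs hK hn
  refine h3.trans ?_
  apply mul_le_mul_of_nonneg_left _ (by norm_num)
  have hl2 : 0 < log 2 := log_pos (by norm_num)
  have hl2' := log_two_lt_d9
  have hl3 : log 3 ≤ 2 := by
    have := log_le_sub_one_of_pos (show (0 : ℝ) < 3 by norm_num)
    linarith
  have hl3' : 0 < log 3 := log_pos (by norm_num)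
  -- the size of `M`
  have h5 : (M : ℝ) * log 3 ≤ log 3 + (2 * l + 2 * K + δ) * log 2 := by
    have h6 : ((3 : ℝ) ^ (M - 1)) ≤ (4 : ℝ) ^ l * 2 ^ (2 * K + δ) := by exact_mod_cast h2
    have h7 := log_le_log (by positivity) h6
    rw [log_pow, log_mul (by positivity) (by positivity), log_pow, log_pow, show (4 : ℝ) = 2 ^ 2 by norm_num,
      log_pow] at h7
    have h8 : ((M - 1 : ℕ) : ℝ) = M - 1 := by
      rw [Nat.cast_sub (by omega)]; simp
    rw [h8] at h7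
    push_cast at h7
    linarith
  have h9 : ((2 * K - δ : ℕ) : ℝ) ≥ 2 * K - δ := by
    have : 2 * K ≤ (2 * K - δ) + δ := by omega
    have : (2 * K : ℝ) ≤ ((2 * K - δ : ℕ) : ℝ) + δ := by exact_mod_cast this
    linarith
  have h9' : ((2 * K - δ : ℕ) : ℝ) ≤ n := by
    have : 2 * K - δ ≤ n := by omega
    exact_mod_cast this
  set W := Ws n K (fun t y => id1 (TY stP s (2 * K - δ) (2 * K + δ) l (Lab (a + δ) (a + 2 * δ + b + l + 1)) t y)) with hW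
  have h10 : ((2 * K - δ : ℕ) : ℝ) * log 2 * (1 - 6 * x) ≤ ((2 * K - δ : ℕ) : ℝ) * log 2 * W :=
    mul_le_mul_of_nonneg_left h4 (by positivity)
  have h11 : ((2 * K - δ : ℕ) : ℝ) * log 2 * (6 * x) ≤ 12 * n * x := by
    have e1 : ((2 * K - δ : ℕ) : ℝ) * log 2 ≤ n * 1 := mul_le_mul h9' (by linarith) hl2.le (by positivity)
    have : ((2 * K - δ : ℕ) : ℝ) * log 2 * (6 * x) ≤ n * 1 * (6 * x) := mul_le_mul_of_nonneg_right e1 (by positivity)
    have h12 : 0 ≤ (n : ℝ) * x := by positivity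
    linarith
  have h12 : (2 * (K : ℝ) - δ) * log 2 ≤ ((2 * K - δ : ℕ) : ℝ) * log 2 := mul_le_mul_of_nonneg_right h9 hl2.le
  have h13 := log_card_Lab (a + δ) (a + 2 * δ + b + l + 1)
  have hnpos : (0 : ℝ) < n := by
    have : 0 < n := by omega
    exact_mod_cast this
  have hcpos : (0 : ℝ) < ((#(Lab (a + δ) (a + 2 * δ + b + l + 1)) : ℕ) : ℝ) := by
    exact_mod_cast Finset.card_pos.2 hne
  have h14 : log ((n : ℝ) * ((#(Lab (a + δ) (a + 2 * δ + b + l + 1)) : ℕ) : ℝ)) ≤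
      log n + (2 * ((a + δ : ℕ) : ℝ) + 2 * (((a + 2 * δ + b + l + 1 : ℕ) : ℝ) + 1)) := by
    rw [log_mul hnpos.ne' hcpos.ne']; linarith
  push_cast at h14
  have h15 : (2 * (l : ℝ) + 2 * K + δ) * log 2 - (2 * (K : ℝ) - δ) * log 2 ≤ 2 * l + 2 * δ := by
    have : (2 * (l : ℝ) + 2 * K + δ) * log 2 - (2 * (K : ℝ) - δ) * log 2 = (2 * l + 2 * δ) * log 2 := by ring
    rw [this]
    have h16 : (0 : ℝ) ≤ 2 * l + 2 * δ := by positivity
    nlinarith
  linarith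

theorem pair_digit {C : ℝ} (hC : 0 < C) (hrate : ∀ (k : ℕ), 1 ≤ k → ∀ (D : ℤ) (u : ℕ) (r : ℤ), |(r : ℝ)| ≤ 4 ^ u →
    ns k (D, r) ≤ C * √ (1 + (D : ℝ) ^ 2 + u) * rho k) {s : ℤ × ℤ} {a b n l δ nL δL L K j : ℕ}
    (hs : GS a b s) (hL : 1 ≤ L) (h50 : 50 * L ≤ K) (hK100 : 100 ≤ K) (hn : 2 * K + δ < n) (hj : 10 * j ≤ K)
    (hnL : nL ≤ n) (hLL : 2 * L + δL ≤ nL) :
    Gm stP n K s (K + j) ≤
      3 * (7 + 2 * l + 2 * δ + 12 * n * pb n (fun y => ¬ Gd n (4 ^ l : ℕ) δ y) + log n +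
        2 * ((a + δ) + δ) + 2 * ((a + δ) + 2 * δ + (a + 2 * δ + b + l + 1) + l + 1)) / L +
      8 * pb n (fun y => ¬ Gd n (4 ^ l : ℕ) δ y) + 4 * pb nL (fun y => ¬ Gd nL (4 ^ l : ℕ) δL y) +
      4 * (C * √ (1 + (δL : ℝ) ^ 2 + (4 * (a + δ) + (a + 2 * δ + b + l + 1) + 3 : ℕ)) * rho (K / 100)) := by
  set a₁ := a + δ with ha₁
  set b₁ := a + 2 * δ + b + l + 1 with hb₁
  set x := pb n (fun y => ¬ Gd n (4 ^ l : ℕ) δ y) with hx
  set xL := pb nL (fun y => ¬ Gd nL (4 ^ l : ℕ) δL y) with hxL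
  have hx0 : 0 ≤ x := pb_nonneg _ _
  set I := K / 100 with hI
  have hI1 : 1 ≤ I := by rw [hI]; omega
  set K₀ := K - I - L with hK₀
  have hKK : I + L + K₀ = K := by omega
  have hK₀1 : 1 ≤ K₀ := by omega
  set δc := 2 * (C * √ (1 + (δL : ℝ) ^ 2 + (4 * a₁ + b₁ + 3 : ℕ)) * rho I) with hδc
  have hδc0 : 0 ≤ δc := by
    have := rho_nonneg I
    positivity
  set M := Nat.log 3 (4 ^ l * 2 ^ (2 * K₀ + δ)) + 1 with hM
  have hM2 : K + j ≤ M := by
    have h1 : 4 ^ l * 2 ^ (2 * K₀ + δ) < 3 ^ M := Nat.lt_pow_succ_log_self (by norm_num) _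
    have h2 : 4 ^ K₀ < 3 ^ M := by
      refine lt_of_le_of_lt ?_ h1
      calc 4 ^ K₀ = 2 ^ (2 * K₀) := by rw [pow_mul]; norm_num
        _ ≤ 2 ^ (2 * K₀ + δ) := Nat.pow_le_pow_right (by norm_num) (by omega)
        _ ≤ 4 ^ l * 2 ^ (2 * K₀ + δ) := Nat.le_mul_of_pos_left _ (by positivity)
    by_contra hcon
    push Not at hcon
    have h3 : 4 * M ≤ 5 * K₀ := by omega
    have h4 : 3 ^ (4 * M) ≤ 4 ^ (4 * K₀) := by
      calc 3 ^ (4 * M) ≤ 3 ^ (5 * K₀) := Nat.pow_le_pow_right (by norm_num) h3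
        _ = (3 ^ 5) ^ K₀ := by rw [pow_mul]
        _ ≤ (4 ^ 4) ^ K₀ := Nat.pow_le_pow_left (by norm_num) _
        _ = 4 ^ (4 * K₀) := by rw [← pow_mul]
    have h5 : 4 ^ (4 * K₀) < 3 ^ (4 * M) := by
      rw [mul_comm 4 K₀, mul_comm 4 M, pow_mul, pow_mul]
      exact Nat.pow_lt_pow_left h2 (by norm_num)
    omega
  have key := digit_bound stP (n := n) (K₀ := K₀) (I := I) (L := L) (e := K + j - L) (M := M) (k := I) s (GS a₁ b₁)
    (fun s' => GS a₁ b₁ s' ∧ |s'.1 - s.1| ≤ δL) (δ := δc) (x₁ := 4 * x + 4 * xL) (x₂ := 4 * x)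
    (B := 3 * (7 + 2 * l + 2 * δ + 12 * n * x + log n +
        2 * (a₁ + δ) + 2 * (a₁ + 2 * δ + b₁ + l + 1)))
    hI1 le_rfl hL (by
      have : 0 ≤ log (n : ℝ) := log_natCast_nonneg n
      positivity) hδc0 ?_ ?_ ?_ ?_ (by omega) (by omega)
  · rw [hKK, show K + j - L + L = K + j by omega] at key
    have ha1r : (a₁ : ℝ) = a + δ := by rw [ha₁]; push_cast; ring
    have hb1r : (b₁ : ℝ) = a + 2 * δ + b + l + 1 := by rw [hb₁]; push_cast; ring
    refine key.trans (le_of_eq ?_)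
    rw [hδc, ha1r, hb1r]; ring
  · rintro s' ⟨h1, h2⟩
    exact cpl_pair hC hrate hI1 (by omega) (GS_mono (by omega) (by omega) hs) h1 h2
  · intro k hk
    exact near_Ws hs hnL hLL hk
  · exact exit_Ws hs I
  · intro s₁ hs₁
    have := pair_B (l := l) (δ := δ) (n := n) (M := M) hs₁ hK₀1 (by omega) rfl
    push_cast at this ⊢
    exact this

end Pool.Agent.J4H39
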