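import Mathlib
import Pool.Agent.J4H39.E6

set_option autoImplicit false

namespace Pool.Agent.J4H39

open Finset Real Filter Topology
open Pool.Agent.H499R2.CO (rho rho_nonneg)

/-! Decay of the nonuniformity for pairs. -/

theorem exp_le_four (z : ℕ) : Real.exp ((z : ℝ) / 6) ≤ 4 ^ z := by
  have h1 : Real.exp ((z : ℝ) / 6) ≤ Real.exp z := Real.exp_le_exp.2 (by
    have : (0 : ℝ) ≤ z := by positivity
    linarith)
  refine h1.trans ?_
  have h2 : Real.exp (z : ℝ) = Real.exp 1 ^ z := by rw [← Real.exp_nat_mul, mul_one]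
  rw [h2]
  apply pow_le_pow_left₀ (Real.exp_pos 1).le
  have := Real.exp_one_lt_d9
  linarith

theorem div_four_le {a : ℝ} (ha : 0 ≤ a) (z : ℕ) : a / 4 ^ z ≤ a * Real.exp (-((z : ℝ) / 6)) := by
  rw [Real.exp_neg, div_eq_mul_inv]
  apply mul_le_mul_of_nonneg_left _ ha
  apply inv_anti₀ (Real.exp_pos _)
  exact exp_le_four z

/-- the bound for the exceptional probabilities -/
noncomputable def yz (z : ℕ) : ℝ := 100 * (z : ℝ) ^ 40 * Real.exp (-((z : ℝ) / 6))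

theorem x_bd {z n : ℕ} (hz : 16 ≤ z) (hn : 1 ≤ n) (hn8 : n ≤ 8 * z ^ 20) :
    pb n (fun y => ¬ Gd n (4 ^ z : ℕ) ((z ^ 11 : ℕ) : ℝ) y) ≤ yz z := by
  have hz0 : (16 : ℝ) ≤ z := by exact_mod_cast hz
  have hn0 : (1 : ℝ) ≤ n := by exact_mod_cast hn
  have hn8r : (n : ℝ) ≤ 8 * (z : ℝ) ^ 20 := by exact_mod_cast hn8
  have hz20 : (1 : ℝ) ≤ (z : ℝ) ^ 20 := one_le_pow₀ (by linarith)
  refine (pb_Gd (L := 4 ^ z) (Nat.one_le_pow _ _ (by norm_num)) hn (by positivity)).trans ?_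
  push_cast
  set e := Real.exp (-((z : ℝ) / 6)) with he
  have he0 : 0 < e := Real.exp_pos _
  have h1 : (n : ℝ) / (4 * 4 ^ z) ≤ 2 * (z : ℝ) ^ 20 * e := by
    have : (n : ℝ) / (4 * 4 ^ z) = (n / 4) / 4 ^ z := by field_simp
    rw [this]
    refine (div_four_le (by positivity) z).trans ?_
    apply mul_le_mul_of_nonneg_right _ he0.le
    linarith
  have h2 : Real.exp (-(((z : ℝ) ^ 11) ^ 2 / (2 * n))) ≤ e := by
    apply Real.exp_le_exp.2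
    apply neg_le_neg
    rw [le_div_iff₀ (by positivity)]
    have e1 : (z : ℝ) / 6 * (2 * n) ≤ z / 6 * (2 * (8 * (z : ℝ) ^ 20)) := by gcongr
    refine e1.trans ?_
    have e2 : ((z : ℝ) ^ 11) ^ 2 = z * (z * (z : ℝ) ^ 20) := by ring
    rw [e2]
    have e3 : (z : ℝ) / 6 * (2 * (8 * (z : ℝ) ^ 20)) = z * ((16 / 6) * (z : ℝ) ^ 20) := by ring
    rw [e3]
    gcongr; linarith
  have h3 : (n : ℝ) + 1 ≤ 9 * (z : ℝ) ^ 20 := by linarith
  calc ((n : ℝ) + 1) * (n / (4 * 4 ^ z) + 2 * Real.exp (-(((z : ℝ) ^ 11) ^ 2 / (2 * n))))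
      ≤ (9 * (z : ℝ) ^ 20) * (2 * (z : ℝ) ^ 20 * e + 2 * e) := by gcongr
    _ ≤ (9 * (z : ℝ) ^ 20) * (4 * (z : ℝ) ^ 20 * e) := by
        gcongr
        nlinarith
    _ ≤ yz z := by
        unfold yz
        rw [← he]
        have : (0 : ℝ) ≤ (z : ℝ) ^ 40 * e := by positivity
        have e4 : (9 * (z : ℝ) ^ 20) * (4 * (z : ℝ) ^ 20 * e) = 36 * ((z : ℝ) ^ 40 * e) := by ring
        rw [e4]; linarith

theorem xL_bd {z : ℕ} (hz : 16 ≤ z) :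
    pb (3 * z ^ 15) (fun y => ¬ Gd (3 * z ^ 15) (4 ^ z : ℕ) ((z ^ 8 : ℕ) : ℝ) y) ≤ yz z := by
  have hz0 : (16 : ℝ) ≤ z := by exact_mod_cast hz
  have hz15 : (1 : ℝ) ≤ (z : ℝ) ^ 15 := one_le_pow₀ (by linarith)
  have hn : 1 ≤ 3 * z ^ 15 := by
    have : 0 < z ^ 15 := by positivity
    omega
  refine (pb_Gd (L := 4 ^ z) (Nat.one_le_pow _ _ (by norm_num)) hn (by positivity)).trans ?_
  push_cast
  set e := Real.exp (-((z : ℝ) / 6)) with he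
  have he0 : 0 < e := Real.exp_pos _
  have h1 : (3 * (z : ℝ) ^ 15) / (4 * 4 ^ z) ≤ (z : ℝ) ^ 15 * e := by
    have : (3 * (z : ℝ) ^ 15) / (4 * 4 ^ z) = (3 * (z : ℝ) ^ 15 / 4) / 4 ^ z := by field_simp
    rw [this]
    refine (div_four_le (by positivity) z).trans ?_
    apply mul_le_mul_of_nonneg_right _ he0.le
    linarith
  have h2 : Real.exp (-(((z : ℝ) ^ 8) ^ 2 / (2 * (3 * (z : ℝ) ^ 15)))) = e := by
    rw [he]
    congr 2
    have : (z : ℝ) ≠ 0 := by linarith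
    field_simp
    norm_num
  rw [h2]
  calc (3 * (z : ℝ) ^ 15 + 1) * (3 * (z : ℝ) ^ 15 / (4 * 4 ^ z) + 2 * e)
      ≤ (4 * (z : ℝ) ^ 15) * ((z : ℝ) ^ 15 * e + 2 * e) := by gcongr; linarith
    _ ≤ (4 * (z : ℝ) ^ 15) * (3 * (z : ℝ) ^ 15 * e) := by
        gcongr
        nlinarith
    _ ≤ yz z := by
        unfold yz
        rw [← he]
        have e4 : (4 * (z : ℝ) ^ 15) * (3 * (z : ℝ) ^ 15 * e) = 12 * ((z : ℝ) ^ 30 * e) := by ring
        rw [e4]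
        have h30 : (z : ℝ) ^ 30 ≤ (z : ℝ) ^ 40 := pow_le_pow_right₀ (by linarith) (by norm_num)
        have : (z : ℝ) ^ 30 * e ≤ (z : ℝ) ^ 40 * e := mul_le_mul_of_nonneg_right h30 he0.le
        have : (0 : ℝ) ≤ (z : ℝ) ^ 40 * e := by positivity
        linarith

theorem yz_nonneg (z : ℕ) : 0 ≤ yz z := by unfold yz; positivity

/-- superpolynomial decay -/
theorem yz_small (P : ℕ) {ε : ℝ} (hε : 0 < ε) : ∀ᶠ z : ℕ in atTop, (z : ℝ) ^ P * yz z ≤ ε := by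
  have h1 : Tendsto (fun z : ℕ => (z : ℝ) / 6) atTop atTop :=
    tendsto_natCast_atTop_atTop.atTop_div_const (by norm_num)
  have h2 := (Real.tendsto_pow_mul_exp_neg_atTop_nhds_zero (40 + P)).comp h1
  have h3 := h2.const_mul (100 * 6 ^ (40 + P))
  rw [mul_zero] at h3
  filter_upwards [h3.eventually (ge_mem_nhds hε)] with z hz
  refine le_trans (le_of_eq ?_) hz
  simp only [Function.comp]
  unfold yz
  rw [div_pow, pow_add]
  field_simp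
  ring

theorem log_le_sqrt {z : ℝ} (hz : 0 < z) : Real.log z ≤ 2 * √ z := by
  have h1 : 0 < √ z := Real.sqrt_pos.2 hz
  have h2 := Real.log_le_sub_one_of_pos h1
  have h3 : Real.log z = 2 * Real.log (√ z) := by
    conv_lhs => rw [← Real.sq_sqrt hz.le]
    rw [Real.log_pow]; push_cast; ring
  rw [h3]; linarith

theorem log_n_le {z n : ℕ} (hz : 1 ≤ z) (hn : 1 ≤ n) (hn8 : n ≤ 8 * z ^ 20) : Real.log n ≤ 43 * √ z := by
  have hz0 : (1 : ℝ) ≤ z := by exact_mod_cast hz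
  have hn0 : (0 : ℝ) < n := by exact_mod_cast hn
  have hn8r : (n : ℝ) ≤ 8 * (z : ℝ) ^ 20 := by exact_mod_cast hn8
  have h1 := Real.log_le_log hn0 hn8r
  rw [Real.log_mul (by norm_num) (by positivity), Real.log_pow, show (8 : ℝ) = 2 ^ 3 by norm_num, Real.log_pow] at h1
  have h2 := log_le_sqrt (show (0 : ℝ) < z by linarith)
  have h3 := Real.log_two_lt_d9
  have h4 : 1 ≤ √ (z : ℝ) := by rw [Real.one_le_sqrt]; exact hz0
  push_cast at h1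
  linarith

/-- the digit bound -/
theorem digit_z {C : ℝ} (hC : 0 < C) (hrate : ∀ (k : ℕ), 1 ≤ k → ∀ (D : ℤ) (u : ℕ) (r : ℤ), |(r : ℝ)| ≤ 4 ^ u →
    ns k (D, r) ≤ C * √ (1 + (D : ℝ) ^ 2 + u) * rho k) {z c n : ℕ} (hz : 16 ≤ z) (hy : (z : ℝ) ^ 20 * yz z ≤ 1)
    (hn : z ^ 20 ≤ n) (hn8 : n ≤ 8 * z ^ 20) {s : ℤ × ℤ} (hs : GS (c * z ^ 12) (c * z ^ 14) s) {K j : ℕ}
    (hK : z ^ 18 ≤ K) (hKn : 2 * K + z ^ 11 < n) (hj : 10 * j ≤ K) :
    Gm stP n K s (K + j) ≤ (700 + 100 * c) / z + 4 * C * √ ((20 + 6 * c) * 8600 * (√ z / z ^ 2)) := by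
  have hz0 : (16 : ℝ) ≤ z := by exact_mod_cast hz
  have hzp : (0 : ℝ) < z := by linarith
  have hz1 : (1 : ℝ) ≤ z := by linarith
  have hc0 : (0 : ℝ) ≤ c := by positivity
  have hn1 : 1 ≤ n := le_trans (Nat.one_le_pow _ _ (by omega)) hn
  have h := pair_digit hC hrate (s := s) (a := c * z ^ 12) (b := c * z ^ 14) (n := n) (l := z) (δ := z ^ 11)
    (nL := 3 * z ^ 15) (δL := z ^ 8) (L := z ^ 15) (K := K) (j := j) hs (Nat.one_le_pow _ _ (by omega))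
    (by
      refine le_trans ?_ hK
      calc 50 * z ^ 15 ≤ z ^ 3 * z ^ 15 := Nat.mul_le_mul_right _ (by
            calc 50 ≤ 16 ^ 3 := by norm_num
              _ ≤ z ^ 3 := Nat.pow_le_pow_left hz 3)
        _ = z ^ 18 := by ring)
    (by
      refine le_trans ?_ hK
      calc 100 ≤ 16 ^ 18 := by norm_num
        _ ≤ z ^ 18 := Nat.pow_le_pow_left hz 18) hKn hj
    (by
      refine le_trans ?_ hn
      calc 3 * z ^ 15 ≤ z ^ 5 * z ^ 15 := Nat.mul_le_mul_right _ (by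
            calc 3 ≤ 16 ^ 5 := by norm_num
              _ ≤ z ^ 5 := Nat.pow_le_pow_left hz 5)
        _ = z ^ 20 := by ring)
    (by
      have : z ^ 8 ≤ z ^ 15 := Nat.pow_le_pow_right (by omega) (by norm_num)
      omega)
  refine h.trans ?_
  have hx := x_bd hz hn1 hn8
  have hxL := xL_bd hz
  set x := pb n (fun y => ¬ Gd n (4 ^ z : ℕ) ((z ^ 11 : ℕ) : ℝ) y) with hxdef
  set xL := pb (3 * z ^ 15) (fun y => ¬ Gd (3 * z ^ 15) (4 ^ z : ℕ) ((z ^ 8 : ℕ) : ℝ) y) with hxLdef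
  have hyz := yz_nonneg z
  have hx0 : 0 ≤ x := pb_nonneg _ _
  have hxL0 : 0 ≤ xL := pb_nonneg _ _
  have hlog := log_n_le (show 1 ≤ z by omega) hn1 hn8
  have hn8r : (n : ℝ) ≤ 8 * (z : ℝ) ^ 20 := by exact_mod_cast hn8
  have hsz : √ (z : ℝ) ≤ z := by
    rw [Real.sqrt_le_left hzp.le]
    nlinarith
  have hsz1 : 1 ≤ √ (z : ℝ) := by rw [Real.one_le_sqrt]; exact hz1
  -- powers
  have p1 : (z : ℝ) ≤ (z : ℝ) ^ 14 := by
    calc (z : ℝ) = z ^ 1 := (pow_one _).symm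
      _ ≤ z ^ 14 := pow_le_pow_right₀ hz1 (by norm_num)
  have p11 : (z : ℝ) ^ 11 ≤ (z : ℝ) ^ 14 := pow_le_pow_right₀ hz1 (by norm_num)
  have p12 : (z : ℝ) ^ 12 ≤ (z : ℝ) ^ 14 := pow_le_pow_right₀ hz1 (by norm_num)
  have p0 : (1 : ℝ) ≤ (z : ℝ) ^ 14 := one_le_pow₀ hz1
  have hcp12 : (c : ℝ) * (z : ℝ) ^ 12 ≤ c * (z : ℝ) ^ 14 := mul_le_mul_of_nonneg_left p12 hc0
  have t1 : 12 * (n : ℝ) * x ≤ 96 := by
    calc 12 * (n : ℝ) * x ≤ 12 * (8 * (z : ℝ) ^ 20) * yz z := by gcongr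
      _ = 96 * ((z : ℝ) ^ 20 * yz z) := by ring
      _ ≤ 96 * 1 := by gcongr
      _ = 96 := by norm_num
  have hy1 : yz z ≤ 1 / z := by
    rw [le_div_iff₀ hzp]
    refine le_trans ?_ hy
    rw [mul_comm]
    apply mul_le_mul_of_nonneg_right _ hyz
    calc (z : ℝ) = z ^ 1 := (pow_one _).symm
      _ ≤ z ^ 20 := pow_le_pow_right₀ hz1 (by norm_num)
  have T1 : 3 * (7 + 2 * (z : ℝ) + 2 * ((z ^ 11 : ℕ) : ℝ) + 12 * n * x + Real.log n +
        2 * ((((c * z ^ 12 : ℕ) : ℝ) + ((z ^ 11 : ℕ) : ℝ)) + ((z ^ 11 : ℕ) : ℝ)) +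
        2 * ((((c * z ^ 12 : ℕ) : ℝ) + ((z ^ 11 : ℕ) : ℝ)) + 2 * ((z ^ 11 : ℕ) : ℝ) +
          (((c * z ^ 12 : ℕ) : ℝ) + 2 * ((z ^ 11 : ℕ) : ℝ) + ((c * z ^ 14 : ℕ) : ℝ) + z + 1) + z + 1)) / ((z ^ 15 : ℕ) : ℝ)
      ≤ (600 + 100 * c) / z := by
    push_cast
    rw [div_le_div_iff₀ (by positivity) hzp]
    have e : (600 + 100 * (c : ℝ)) * (z : ℝ) ^ 15 = (600 + 100 * c) * (z : ℝ) ^ 14 * z := by ring
    rw [e]
    apply mul_le_mul_of_nonneg_right _ hzp.le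
    have hcz : 0 ≤ (c : ℝ) * (z : ℝ) ^ 14 := by positivity
    have e2 : (600 + 100 * (c : ℝ)) * (z : ℝ) ^ 14 = 600 * (z : ℝ) ^ 14 + 100 * (c * (z : ℝ) ^ 14) := by ring
    rw [e2]
    linarith
  have T2 : 8 * x + 4 * xL ≤ 100 / z := by
    have : 8 * x + 4 * xL ≤ 12 * (1 / z) := by linarith
    have e : 12 * (1 / (z : ℝ)) = 12 / z := by ring
    rw [e] at this
    refine this.trans ?_
    gcongr; norm_num
  have T3 : C * √ (1 + ((z ^ 8 : ℕ) : ℝ) ^ 2 + ((4 * (c * z ^ 12 + z ^ 11) +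
      (c * z ^ 12 + 2 * z ^ 11 + c * z ^ 14 + z + 1) + 3 : ℕ) : ℝ)) * rho (K / 100) ≤
      C * √ ((20 + 6 * c) * 8600 * (√ z / z ^ 2)) := by
    rw [mul_assoc]
    apply mul_le_mul_of_nonneg_left _ hC.le
    unfold rho
    rw [← Real.sqrt_mul (by positivity)]
    apply Real.sqrt_le_sqrt
    have p16 : ∀ i : ℕ, i ≤ 16 → (z : ℝ) ^ i ≤ (z : ℝ) ^ 16 := fun i hi => pow_le_pow_right₀ hz1 hi
    have a1 : 1 + ((z ^ 8 : ℕ) : ℝ) ^ 2 + ((4 * (c * z ^ 12 + z ^ 11) +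
      (c * z ^ 12 + 2 * z ^ 11 + c * z ^ 14 + z + 1) + 3 : ℕ) : ℝ) ≤ (20 + 6 * c) * (z : ℝ) ^ 16 := by
      push_cast
      have q0 := p16 0 (by norm_num)
      have q1 := p16 1 (by norm_num)
      have q11 := p16 11 (by norm_num)
      have q12 := p16 12 (by norm_num)
      have q14 := p16 14 (by norm_num)
      rw [pow_zero] at q0
      rw [pow_one] at q1
      have r12 : (c : ℝ) * (z : ℝ) ^ 12 ≤ c * (z : ℝ) ^ 16 := mul_le_mul_of_nonneg_left q12 hc0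
      have r14 : (c : ℝ) * (z : ℝ) ^ 14 ≤ c * (z : ℝ) ^ 16 := mul_le_mul_of_nonneg_left q14 hc0
      have e : ((z : ℝ) ^ 8) ^ 2 = (z : ℝ) ^ 16 := by ring
      rw [e]
      linarith
    have hKr : (z : ℝ) ^ 18 ≤ K := by exact_mod_cast hK
    have hK100 : (z : ℝ) ^ 18 / 200 ≤ ((K / 100 : ℕ) : ℝ) := by
      have h1 : K ≤ 100 * (K / 100) + 99 := by omega
      have h2 : (K : ℝ) ≤ 100 * ((K / 100 : ℕ) : ℝ) + 99 := by exact_mod_cast h1
      have h3 : (200 : ℝ) ≤ (z : ℝ) ^ 18 := by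
        calc (200 : ℝ) ≤ 16 ^ 18 := by norm_num
          _ ≤ (z : ℝ) ^ 18 := pow_le_pow_left₀ (by norm_num) hz0 18
      linarith
    have hKpos : (0 : ℝ) < (z : ℝ) ^ 18 / 200 := by positivity
    have hlogK : Real.log (((K / 100 : ℕ) : ℝ) + 1) ≤ 43 * √ z := by
      refine le_trans (Real.log_le_log (by positivity) ?_) hlog
      have : K / 100 + 1 ≤ n := by omega
      exact_mod_cast this
    have hlog0 : 0 ≤ Real.log (((K / 100 : ℕ) : ℝ) + 1) := Real.log_nonneg (by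
      have : (0 : ℝ) ≤ ((K / 100 : ℕ) : ℝ) := by positivity
      linarith)
    calc (1 + ((z ^ 8 : ℕ) : ℝ) ^ 2 + ((4 * (c * z ^ 12 + z ^ 11) +
      (c * z ^ 12 + 2 * z ^ 11 + c * z ^ 14 + z + 1) + 3 : ℕ) : ℝ)) *
        (Real.log (((K / 100 : ℕ) : ℝ) + 1) / ((K / 100 : ℕ) : ℝ)) ≤
        ((20 + 6 * c) * (z : ℝ) ^ 16) * ((43 * √ z) / ((z : ℝ) ^ 18 / 200)) := by gcongr
      _ = (20 + 6 * c) * 8600 * (√ z / z ^ 2) := by field_simp; norm_num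
  have e0 : (700 + 100 * (c : ℝ)) / z = (600 + 100 * c) / z + 100 / z := by ring
  rw [e0]
  linarith

theorem digit_ev (c : ℕ) : ∀ᶠ z : ℕ in atTop, ∀ n, z ^ 20 ≤ n → n ≤ 8 * z ^ 20 → ∀ s, GS (c * z ^ 12) (c * z ^ 14) s →
    ∀ K j, z ^ 18 ≤ K → 2 * K + z ^ 11 < n → 10 * j ≤ K → Gm stP n K s (K + j) ≤ 1 / √ z := by
  obtain ⟨C, hC, hrate⟩ := ns_rate
  have h1 : Tendsto (fun z : ℕ => √ (z : ℝ)) atTop atTop := tendsto_sqrt_atTop.comp tendsto_natCast_atTop_atTop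
  have h2 : Tendsto (fun t : ℝ => (700 + 100 * (c : ℝ)) / t + 4 * C * √ ((20 + 6 * c) * 8600 * (1 / t))) atTop (𝓝 0) := by
    have a1 : Tendsto (fun t : ℝ => (700 + 100 * (c : ℝ)) / t) atTop (𝓝 0) := tendsto_const_nhds.div_atTop tendsto_id
    have a2 : Tendsto (fun t : ℝ => (20 + 6 * (c : ℝ)) * 8600 * (1 / t)) atTop (𝓝 0) := by
      have := (tendsto_const_nhds (x := (1 : ℝ))).div_atTop (tendsto_id (α := ℝ) (x := atTop))
      have := this.const_mul ((20 + 6 * (c : ℝ)) * 8600)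
      rw [mul_zero] at this
      exact this
    have a3 := (Real.continuous_sqrt.tendsto 0).comp a2
    rw [Real.sqrt_zero] at a3
    have a4 := a3.const_mul (4 * C)
    rw [mul_zero] at a4
    have := a1.add a4
    rw [add_zero] at this
    exact this
  have h3 := h2.comp h1
  filter_upwards [h3.eventually (ge_mem_nhds one_pos), yz_small 20 one_pos, eventually_ge_atTop 16] with z a1 a2 a3
  intro n hn hn8 s hs K j hK hKn hj
  refine (digit_z hC hrate a3 a2 hn hn8 hs hK hKn hj).trans ?_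
  simp only [Function.comp] at a1
  have hz0 : (16 : ℝ) ≤ z := by exact_mod_cast a3
  have hzp : (0 : ℝ) < z := by linarith
  set t := √ (z : ℝ) with ht
  have ht0 : 0 < t := Real.sqrt_pos.2 hzp
  have htz : t ^ 2 = z := Real.sq_sqrt hzp.le
  rw [← htz, le_div_iff₀ ht0, add_mul]
  have e1 : (700 + 100 * (c : ℝ)) / t ^ 2 * t = (700 + 100 * (c : ℝ)) / t := by field_simp
  have e2 : 4 * C * √ ((20 + 6 * (c : ℝ)) * 8600 * (t / (t ^ 2) ^ 2)) * t =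
      4 * C * √ ((20 + 6 * (c : ℝ)) * 8600 * (1 / t)) := by
    have : t = √ (t ^ 2) := (Real.sqrt_sq ht0.le).symm
    rw [mul_assoc]
    congr 1
    conv_lhs => rw [show √ ((20 + 6 * (c : ℝ)) * 8600 * (t / (t ^ 2) ^ 2)) * t =
      √ ((20 + 6 * (c : ℝ)) * 8600 * (t / (t ^ 2) ^ 2)) * √ (t ^ 2) by rw [Real.sqrt_sq ht0.le]]
    rw [← Real.sqrt_mul (by positivity)]
    congr 1
    field_simp
  rw [e1, e2]
  exact a1

/-- Decay of the nonuniformity for pairs. -/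
theorem pair_mix (c P : ℕ) : ∀ᶠ z : ℕ in atTop, ∀ n, z ^ 20 ≤ n → n ≤ 8 * z ^ 20 → ∀ s, GS (c * z ^ 12) (c * z ^ 14) s →
    ∀ q k, z ^ 19 ≤ q → 2 * q + z ^ 11 < n → q ≤ k → Gm stP n k s q ≤ 1 / (z : ℝ) ^ P := by
  set m := 2 * P + 2 with hm
  filter_upwards [digit_ev (2 * c + 4), yz_small P (ε := 1 / (8 * m)) (by positivity), eventually_ge_atTop (2 * 11 ^ m),
    eventually_ge_atTop 16] with z h1 h2 h3 h4
  intro n hn hn8 s hs q k hq hqn hqk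
  have hz0 : (16 : ℝ) ≤ z := by exact_mod_cast h4
  have hzp : (0 : ℝ) < z := by linarith
  have hz1 : (1 : ℝ) ≤ z := by linarith
  have hn1 : 1 ≤ n := le_trans (Nat.one_le_pow _ _ (by omega)) hn
  have hx := x_bd h4 hn1 hn8
  set x := pb n (fun y => ¬ Gd n (4 ^ z : ℕ) ((z ^ 11 : ℕ) : ℝ) y) with hxdef
  have hx0 : 0 ≤ x := pb_nonneg _ _
  have p11 : z ^ 11 ≤ z ^ 12 := Nat.pow_le_pow_right (by omega) (by norm_num)
  have p12 : z ^ 12 ≤ z ^ 14 := Nat.pow_le_pow_right (by omega) (by norm_num)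
  have p1 : z ≤ z ^ 14 := Nat.le_self_pow (by norm_num) z
  have p0 : 1 ≤ z ^ 14 := Nat.one_le_pow _ _ (by omega)
  have ha : c * z ^ 12 + z ^ 11 ≤ (2 * c + 4) * z ^ 12 := by nlinarith [Nat.zero_le (c * z ^ 12)]
  have hb : c * z ^ 12 + 2 * z ^ 11 + c * z ^ 14 + z + 1 ≤ (2 * c + 4) * z ^ 14 := by
    have := Nat.mul_le_mul_left c p12
    nlinarith
  have hex : ∀ k₂, Ws n k₂ (fun t y => id1 (¬ GS ((2 * c + 4) * z ^ 12) ((2 * c + 4) * z ^ 14) (rn stP t s y))) ≤ 4 * x := by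
    intro k₂
    refine le_trans ?_ (exit_Ws (l := z) (δ := z ^ 11) (n := n) hs k₂)
    apply Ws_mono
    intro t _ y _
    apply id1_mono
    intro hh hg
    exact hh (GS_mono ha hb hg)
  have hsq1 : 1 ≤ √ (z : ℝ) := by rw [Real.one_le_sqrt]; exact hz1
  have key := decay stP (n := n) (GS ((2 * c + 4) * z ^ 12) ((2 * c + 4) * z ^ 14)) (Kmin := z ^ 18) (Kmax := q)
    (ε := 1 / √ z) (X := 4 * x) (by positivity) (by rw [div_le_one (by linarith)]; exact hsq1) (by positivity)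
    (fun s₁ hs₁ k₁ j a b d => h1 n hn hn8 s₁ hs₁ k₁ j a (by omega) d) hex m q k (by
      refine le_trans ?_ hq
      calc 2 * 11 ^ m * z ^ 18 ≤ z * z ^ 18 := Nat.mul_le_mul_right _ h3
        _ = z ^ 19 := by ring) le_rfl hqk
  refine key.trans ?_
  have hzP : (0 : ℝ) < (z : ℝ) ^ P := by positivity
  have e1 : (1 / √ (z : ℝ)) ^ m = 1 / (z : ℝ) ^ (P + 1) := by
    rw [hm, show 2 * P + 2 = 2 * (P + 1) by ring, pow_mul, div_pow, Real.sq_sqrt hzp.le, one_pow, div_pow, one_pow]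
  have e2 : 1 / (z : ℝ) ^ (P + 1) ≤ (1 / 2) * (1 / (z : ℝ) ^ P) := by
    rw [pow_succ, one_div, mul_inv, ← one_div, mul_comm]
    apply mul_le_mul_of_nonneg_right _ (by positivity)
    rw [inv_le_comm₀ hzp (by norm_num)]
    norm_num; linarith
  have hm0 : (0 : ℝ) < m := by rw [hm]; positivity
  have e3 : (m : ℝ) * (4 * x) ≤ (1 / 2) * (1 / (z : ℝ) ^ P) := by
    have a1 : (m : ℝ) * (4 * x) ≤ 4 * m * yz z := by
      have := mul_le_mul_of_nonneg_left hx (by positivity : (0 : ℝ) ≤ 4 * m)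
      linarith
    refine a1.trans ?_
    have a2 : yz z ≤ 1 / (8 * m) / (z : ℝ) ^ P := by
      rw [le_div_iff₀ hzP, mul_comm]; exact h2
    calc 4 * (m : ℝ) * yz z ≤ 4 * m * (1 / (8 * m) / (z : ℝ) ^ P) := mul_le_mul_of_nonneg_left a2 (by positivity)
      _ = (1 / 2) * (1 / (z : ℝ) ^ P) := by field_simp; norm_num
  rw [e1]
  linarith

end Pool.Agent.J4H39
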