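import Mathlib
import Pool.Agent.J4H39.E4

set_option autoImplicit false

namespace Pool.Agent.J4H39

open Finset Real
open Pool.Agent.H499R2.ND (dev dev_le)

/-! Words of a fixed length. -/

section
variable {S : Type*}

/-- the label at time `j` -/
def lb (stp : S → ℕ → S) (j : ℕ) (s : S) (y : ℤ) : ℕ × S := (od j y, rn stp j s y)

theorem per_lb (stp : S → ℕ → S) (s : S) {i j : ℕ} (h : i ≤ j) : Per j (lb stp i s) := by
  intro x u
  unfold lb
  rw [per_od h x u, per_rn stp s h x u]

open Classical in
/-- the labels -/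
noncomputable def imL (stp : S → ℕ → S) (j : ℕ) (s : S) : Finset (ℕ × S) :=
  (range (2 ^ j)).image (fun y => lb stp j s ((y : ℕ) : ℤ))

theorem lb_mem (stp : S → ℕ → S) (j : ℕ) (s : S) (y : ℤ) : lb stp j s y ∈ imL stp j s := by
  classical
  unfold imL
  rw [mem_image]
  refine ⟨cl j y, mem_range.2 (cl_lt j y), ?_⟩
  obtain ⟨u, hu⟩ := cl_dvd j y
  have h : y = (cl j y : ℕ) + 2 ^ j * u := by linarith
  conv_rhs => rw [h, per_lb stp s (le_refl j)]

theorem sum_lb (stp : S → ℕ → S) (j : ℕ) (s : S) (F : ℕ × S → ℝ) :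
    ∑ μ ∈ imL stp j s, pb j (fun y => lb stp j s y = μ) * F μ = ex j (fun y => F (lb stp j s y)) := by
  have h1 : ∀ μ ∈ imL stp j s, pb j (fun y => lb stp j s y = μ) * F μ = ex j (fun y => id1 (lb stp j s y = μ) * F μ) := by
    intro μ _
    rw [pb_id1, mul_comm, ← ex_mul]
    apply ex_congr; intro y; ring
  rw [sum_congr rfl h1, ← ex_sum]
  apply ex_congr
  intro y
  rw [sum_eq_single (lb stp j s y)]
  · rw [id1_pos rfl, one_mul]
  · intro b _ hb
    rw [id1_neg (fun hh => hb hh.symm), zero_mul]
  · intro hn
    exact absurd (lb_mem stp j s y) hn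

open Classical in
/-- decomposition of the words of length `j` according to the last `q` blocks -/
theorem NU_time (stp : S → ℕ → S) {j q : ℕ} (s : S) (hq : 1 ≤ q) {o : ℕ} (hqo : q ≤ o) (s' : S) :
    NU j (fun y => lb stp j s y = (o, s')) q ≤
      ∑ a ∈ range (j + 1), ∑ μ ∈ imL stp a s, (if μ.1 + q = o then
        NU (j - a) (fun z => isW q (j - a) z ∧ rn stp (j - a) μ.2 z = s') q * pb a (fun y => lb stp a s y = μ) else 0) := by
  have key := NU_conv ((range (j + 1)).sigma (fun a => (imL stp a s).filter (fun μ => μ.1 + q = o))) j q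
    (fun y => lb stp j s y = (o, s')) (fun p => p.1) (fun p => j - p.1)
    (fun p y => lb stp p.1 s y = p.2) (fun p z => isW q (j - p.1) z ∧ rn stp (j - p.1) p.2.2 z = s')
    (by intro p hp
        rw [mem_sigma, mem_range] at hp
        omega)
    (by intro p _ x u
        simp only
        rw [per_lb stp s (le_refl p.1) x u])
    (by intro p _ x u
        simp only
        rw [per_isW q _ x u, per_rn stp _ (le_refl (j - p.1)) x u])
    (fun p _ z hz => hz.1.1)
    (by
      intro y R
      by_cases h : lb stp j s y = (o, s') ∧ R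
      · rw [id1_pos h]
        obtain ⟨hlb, hR⟩ := h
        unfold lb at hlb
        rw [Prod.mk.injEq] at hlb
        obtain ⟨ho, hs'⟩ := hlb
        · obtain ⟨a, ha1, ha2, ha3⟩ := exists_time (k := o - q) (y := y) (t := j) (by omega)
          have hw : isW q (j - a) (T^[a] y) := by
            refine ⟨?_, Or.inr ?_, by omega⟩
            · have h4 := od_comp a y (j - a)
              rw [Nat.add_sub_cancel' ha1.le] at h4
              omega
            · rw [pr_iter, add_zero]; exact ha3
          have hrn : rn stp (j - a) (rn stp a s y) (T^[a] y) = s' := by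
            rw [← rn_comp, Nat.add_sub_cancel' ha1.le]; exact hs'
          rw [sum_eq_single (⟨a, lb stp a s y⟩ : (_ : ℕ) × (ℕ × S))]
          · rw [id1_pos ⟨⟨rfl, hw, hrn⟩, hR⟩]
          · rintro ⟨b, μ⟩ hb hne
            rw [id1_neg]
            rintro ⟨⟨e1, e2, _⟩, _⟩
            simp only at e1 e2
            rw [mem_sigma, mem_range, mem_filter] at hb
            simp only at hb
            obtain ⟨hb1, hb2, hb3⟩ := hb
            have e3 : od b y = o - q := by
              have : (lb stp b s y).1 = μ.1 := by rw [e1]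
              unfold lb at this
              simp only at this
              omega
            have e4 : pr b y = 1 := by
              rcases e2.2.1 with h | h
              · have := e2.1
                rw [h] at this
                simp [od] at this
                omega
              · rw [pr_iter, add_zero] at h; exact h
            have hab : a = b := by
              rcases Nat.lt_trichotomy a b with h | h | h
              · have := od_succ a y
                have := od_mono y (show a + 1 ≤ b by omega)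
                omega
              · exact h
              · have := od_succ b y
                have := od_mono y (show b + 1 ≤ a by omega)
                omega
            subst hab
            apply hne
            rw [e1]
          · intro hn
            exfalso
            apply hn
            rw [mem_sigma, mem_range, mem_filter]
            refine ⟨by simp only; omega, lb_mem stp a s y, ?_⟩
            unfold lb
            simp only
            omega
      · rw [id1_neg h]
        symm
        apply sum_eq_zero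
        rintro ⟨a, μ⟩ ha
        rw [id1_neg]
        rintro ⟨⟨e1, e2, e3⟩, hR⟩
        simp only at e1 e2 e3
        rw [mem_sigma, mem_range, mem_filter] at ha
        simp only at ha
        apply h
        refine ⟨?_, hR⟩
        have haj : a + (j - a) = j := by omega
        unfold lb at e1 ⊢
        have h5 := od_comp a y (j - a)
        have h6 := rn_comp stp a s y (j - a)
        rw [haj] at h5 h6
        have e1a : od a y = μ.1 := by rw [← e1]
        have e1b : rn stp a s y = μ.2 := by rw [← e1]
        rw [h5, h6, e2.1, e1a, e1b, e3, ha.2.2]) 0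
  rw [add_zero] at key
  refine key.trans ?_
  rw [sum_sigma]
  apply sum_le_sum
  intro a _
  rw [sum_filter]
  apply sum_le_sum
  intro μ _
  split_ifs with h
  · exact mul_le_mul_of_nonneg_left (NU_le _ _ _) (NU_nonneg _ _ _)
  · exact le_rfl

open Classical in
/-- total nonuniformity of the digit `q` for the words of length `j`, given the label -/
theorem Gam_time (stp : S → ℕ → S) {j n q : ℕ} (s : S) (hq : 1 ≤ q) (hn : j < n) :
    ∑ μ ∈ (imL stp j s).filter (fun μ => q ≤ μ.1), NU j (fun y => lb stp j s y = μ) q ≤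
      ∑ a ∈ range (j + 1), ex a (fun y => Gm stp n q (rn stp a s y) q) := by
  have h1 : ∀ μ ∈ (imL stp j s).filter (fun μ => q ≤ μ.1), NU j (fun y => lb stp j s y = μ) q ≤
      ∑ a ∈ range (j + 1), ∑ ν ∈ imL stp a s, (if ν.1 + q = μ.1 then
        NU (j - a) (fun z => isW q (j - a) z ∧ rn stp (j - a) ν.2 z = μ.2) q * pb a (fun y => lb stp a s y = ν) else 0) := by
    rintro ⟨o, s'⟩ hμ
    rw [mem_filter] at hμ
    exact NU_time stp s hq hμ.2 s'
  refine (sum_le_sum h1).trans ?_
  rw [sum_comm]
  apply sum_le_sum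
  intro a ha
  rw [mem_range] at ha
  rw [sum_comm]
  have h2 : ex a (fun y => Gm stp n q (rn stp a s y) q) =
      ∑ ν ∈ imL stp a s, pb a (fun y => lb stp a s y = ν) * Gm stp n q ν.2 q := by
    rw [sum_lb stp a s (fun ν => Gm stp n q ν.2 q)]
    rfl
  rw [h2]
  apply sum_le_sum
  intro ν _
  have h3 : ∑ μ ∈ (imL stp j s).filter (fun μ => q ≤ μ.1), (if ν.1 + q = μ.1 then
        NU (j - a) (fun z => isW q (j - a) z ∧ rn stp (j - a) ν.2 z = μ.2) q * pb a (fun y => lb stp a s y = ν) else 0) ≤
      pb a (fun y => lb stp a s y = ν) * ∑ s' ∈ im stp q (j - a) ν.2,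
        NU (j - a) (fun z => isW q (j - a) z ∧ rn stp (j - a) ν.2 z = s') q := by
    have h4 : ∀ μ ∈ (imL stp j s).filter (fun μ => q ≤ μ.1), (if ν.1 + q = μ.1 then
        NU (j - a) (fun z => isW q (j - a) z ∧ rn stp (j - a) ν.2 z = μ.2) q * pb a (fun y => lb stp a s y = ν) else 0) =
        (if ν.1 + q = μ.1 ∧ μ.2 ∈ im stp q (j - a) ν.2 then
        NU (j - a) (fun z => isW q (j - a) z ∧ rn stp (j - a) ν.2 z = μ.2) q * pb a (fun y => lb stp a s y = ν) else 0) := by
      intro μ _
      by_cases h5 : ν.1 + q = μ.1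
      · by_cases h6 : μ.2 ∈ im stp q (j - a) ν.2
        · rw [if_pos h5, if_pos ⟨h5, h6⟩]
        · rw [if_pos h5, if_neg (fun hh => h6 hh.2)]
          have : NU (j - a) (fun z => isW q (j - a) z ∧ rn stp (j - a) ν.2 z = μ.2) q = 0 := by
            apply le_antisymm _ (NU_nonneg _ _ _)
            refine (NU_le _ _ _).trans ?_
            rw [pb_id1]
            have : ∀ z, id1 (isW q (j - a) z ∧ rn stp (j - a) ν.2 z = μ.2) = 0 := by
              intro z
              rw [id1_neg]
              rintro ⟨h7, h8⟩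
              rw [← h8] at h6
              exact h6 (rn_mem_im h7)
            rw [ex_congr this, ex_const]
          rw [this, zero_mul]
      · rw [if_neg h5, if_neg (fun hh => h5 hh.1)]
    rw [sum_congr rfl h4, ← sum_filter, filter_filter, mul_sum]
    have hinj : Set.InjOn (fun μ : ℕ × S => μ.2) (((imL stp j s).filter (fun μ => q ≤ μ.1 ∧ ν.1 + q = μ.1 ∧
        μ.2 ∈ im stp q (j - a) ν.2) : Finset (ℕ × S)) : Set (ℕ × S)) := by
      intro μ h μ' h' heq
      rw [mem_coe, mem_filter] at h h'
      apply Prod.ext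
      · omega
      · exact heq
    calc ∑ μ ∈ (imL stp j s).filter (fun μ => q ≤ μ.1 ∧ ν.1 + q = μ.1 ∧ μ.2 ∈ im stp q (j - a) ν.2),
          NU (j - a) (fun z => isW q (j - a) z ∧ rn stp (j - a) ν.2 z = μ.2) q * pb a (fun y => lb stp a s y = ν)
        = ∑ s' ∈ ((imL stp j s).filter (fun μ => q ≤ μ.1 ∧ ν.1 + q = μ.1 ∧
            μ.2 ∈ im stp q (j - a) ν.2)).image (fun μ : ℕ × S => μ.2),
            pb a (fun y => lb stp a s y = ν) * NU (j - a) (fun z => isW q (j - a) z ∧ rn stp (j - a) ν.2 z = s') q := by
          rw [sum_image hinj]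
          apply sum_congr rfl
          intro μ _
          ring
      _ ≤ _ := by
          apply sum_le_sum_of_subset_of_nonneg
          · intro s' hs'
            rw [mem_image] at hs'
            obtain ⟨μ, hμ, rfl⟩ := hs'
            rw [mem_filter] at hμ
            exact hμ.2.2.2
          · intro _ _ _
            exact mul_nonneg (pb_nonneg _ _) (NU_nonneg _ _ _)
  refine h3.trans ?_
  apply mul_le_mul_of_nonneg_left _ (pb_nonneg _ _)
  unfold Gm
  exact single_le_sum (f := fun t => ∑ s' ∈ im stp q t ν.2, NU t (fun y => isW q t y ∧ rn stp t ν.2 y = s') q)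
    (fun t _ => sum_nonneg fun _ _ => NU_nonneg _ _ _) (mem_range.2 (by omega : j - a < n))

open Classical in
/-- total deviation from uniformity -/
noncomputable def DV (stp : S → ℕ → S) (j : ℕ) (s : S) (m : ℕ) : ℝ :=
  ∑ μ ∈ (imL stp j s).filter (fun μ => m ≤ μ.1), dev (cls j (fun y => lb stp j s y = μ)) (w2 j) (ro j) μ.1 m

theorem DV_le (stp : S → ℕ → S) {j n m : ℕ} (s : S) (hm : 1 ≤ m) (hn : j < n) {E : ℝ}
    (hE : ∀ q, m ≤ q → q ≤ j → ∀ a ≤ j, ex a (fun y => Gm stp n q (rn stp a s y) q) ≤ E) :
    DV stp j s m ≤ j * √ (2 * ((j + 1) * E)) := by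
  classical
  have h0 : ∀ μ ∈ (imL stp j s).filter (fun μ => m ≤ μ.1), μ.1 ≤ j := by
    intro μ hμ
    rw [mem_filter] at hμ
    unfold imL at hμ
    rw [mem_image] at hμ
    obtain ⟨⟨y, _, rfl⟩, _⟩ := hμ
    exact od_le j _
  have h1 : ∀ μ ∈ (imL stp j s).filter (fun μ => m ≤ μ.1),
      dev (cls j (fun y => lb stp j s y = μ)) (w2 j) (ro j) μ.1 m ≤
      ∑ q ∈ Ico m j, (if q ≤ μ.1 then √ (2 * pb j (fun y => lb stp j s y = μ)) *
        √ (NU j (fun y => lb stp j s y = μ) q) else 0) := by
    intro μ hμ
    have hle := h0 μ hμ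
    rw [mem_filter] at hμ
    have := dev_le (s := cls j (fun y => lb stp j s y = μ)) (wt := w2 j) (ro j) (fun _ _ => w2_nonneg _ _) m μ.1 hμ.2
    refine this.trans ?_
    rw [sum_wt]
    have h2 : ∑ J ∈ Ico m μ.1, √ (2 * pb j (fun y => lb stp j s y = μ)) *
        √ (Pool.Agent.H320R2.PD.Gam (cls j (fun y => lb stp j s y = μ)) (w2 j) (ro j) J) =
        ∑ J ∈ Ico m μ.1, (if J ≤ μ.1 then √ (2 * pb j (fun y => lb stp j s y = μ)) *
        √ (NU j (fun y => lb stp j s y = μ) J) else 0) := by
      apply sum_congr rfl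
      intro J hJ
      rw [mem_Ico] at hJ
      rw [if_pos hJ.2.le]
      rfl
    rw [h2]
    apply sum_le_sum_of_subset_of_nonneg
    · exact Ico_subset_Ico le_rfl hle
    · intro _ _ _
      split_ifs
      · positivity
      · exact le_rfl
  unfold DV
  refine (sum_le_sum h1).trans ?_
  rw [sum_comm]
  have h3 : ∀ q ∈ Ico m j, ∑ μ ∈ (imL stp j s).filter (fun μ => m ≤ μ.1), (if q ≤ μ.1 then
      √ (2 * pb j (fun y => lb stp j s y = μ)) * √ (NU j (fun y => lb stp j s y = μ) q) else 0) ≤
      √ (2 * ((j + 1) * E)) := by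
    intro q hq
    rw [mem_Ico] at hq
    rw [← sum_filter, filter_filter]
    have hsub : (imL stp j s).filter (fun μ => m ≤ μ.1 ∧ q ≤ μ.1) = (imL stp j s).filter (fun μ => q ≤ μ.1) := by
      apply filter_congr
      intro μ _
      constructor
      · intro h; exact h.2
      · intro h; exact ⟨by omega, h⟩
    rw [hsub]
    refine (Real.sum_sqrt_mul_sqrt_le _ (fun μ => by have := pb_nonneg j (fun y => lb stp j s y = μ); positivity)
      (fun μ => NU_nonneg _ _ _)).trans ?_
    rw [← Real.sqrt_mul (sum_nonneg fun μ _ => by have := pb_nonneg j (fun y => lb stp j s y = μ); positivity)]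
    apply Real.sqrt_le_sqrt
    have h4 : ∑ μ ∈ (imL stp j s).filter (fun μ => q ≤ μ.1), 2 * pb j (fun y => lb stp j s y = μ) ≤ 2 := by
      rw [← mul_sum]
      have h5 : ∑ μ ∈ (imL stp j s).filter (fun μ => q ≤ μ.1), pb j (fun y => lb stp j s y = μ) ≤
          ∑ μ ∈ imL stp j s, pb j (fun y => lb stp j s y = μ) :=
        sum_le_sum_of_subset_of_nonneg (filter_subset _ _) (fun _ _ _ => pb_nonneg _ _)
      have h6 : ∑ μ ∈ imL stp j s, pb j (fun y => lb stp j s y = μ) = 1 := by
        have := sum_lb stp j s (fun _ => 1)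
        simp only [mul_one] at this
        rw [this, ex_const]
      linarith
    have h5 : ∑ μ ∈ (imL stp j s).filter (fun μ => q ≤ μ.1), NU j (fun y => lb stp j s y = μ) q ≤ (j + 1) * E := by
      refine (Gam_time stp s (by omega) hn).trans ?_
      refine (sum_le_sum fun a ha => hE q hq.1 hq.2.le a (by rw [mem_range] at ha; omega)).trans (le_of_eq ?_)
      rw [sum_const, card_range, nsmul_eq_mul]; push_cast; ring
    exact mul_le_mul h4 h5 (sum_nonneg fun _ _ => NU_nonneg _ _ _) (by norm_num)
  refine (sum_le_sum h3).trans ?_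
  rw [sum_const, nsmul_eq_mul, Nat.card_Ico]
  apply mul_le_mul_of_nonneg_right _ (Real.sqrt_nonneg _)
  exact_mod_cast Nat.sub_le j m

end

end Pool.Agent.J4H39
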