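import Mathlib
import Pool.Agent.J4H39.E8

set_option autoImplicit false

namespace Pool.Agent.J4H39

open Finset
open Pool.Agent.H320R2.PD (cnt)
open Pool.Agent.H499R2.ND (dev cnt_congr sum_cnt)

/-! One stage: from an interval to the intervals of the images. -/

theorem sum_block (a b : ℕ) (f : ℕ → ℝ) :
    ∑ c ∈ range (a * b), f c = ∑ b' ∈ range b, ∑ c₀ ∈ range a, f (c₀ + a * b') := by
  induction b with
  | zero => simp
  | succ b ih =>
    rw [Nat.mul_succ, sum_range_add, ih, sum_range_succ]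
    congr 1
    apply sum_congr rfl
    intro c _
    rw [add_comm]

theorem sum_unit {M : ℕ} (hM : 0 < M) {u : ℤ} (hu : IsCoprime u (M : ℤ)) {f : ℤ → ℝ}
    (hf : ∀ c c' : ℤ, (M : ℤ) ∣ c - c' → f c = f c') :
    ∑ c ∈ range M, f (u * (c : ℕ)) = ∑ c ∈ range M, f ((c : ℕ) : ℤ) := by
  classical
  have hM0 : (0 : ℤ) < M := by exact_mod_cast hM
  have hcast : ∀ x : ℤ, (((x % M).toNat : ℕ) : ℤ) = x % M := fun x => Int.toNat_of_nonneg (Int.emod_nonneg x hM0.ne')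
  have hinj : Set.InjOn (fun c : ℕ => ((u * (c : ℕ)) % M).toNat) (range M : Finset ℕ) := by
    intro a ha b hb hab
    rw [mem_coe, mem_range] at ha hb
    simp only at hab
    have h1 : (u * (a : ℤ)) % M = (u * (b : ℤ)) % M := by
      have := congrArg (Nat.cast : ℕ → ℤ) hab
      rwa [hcast, hcast] at this
    have h2 : (M : ℤ) ∣ u * (a : ℤ) - u * b :=
      Int.ModEq.dvd (show (u * (b : ℤ)) ≡ u * a [ZMOD M] from h1.symm)
    rw [← mul_sub] at h2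
    have h3 : (M : ℤ) ∣ (a : ℤ) - b := hu.symm.dvd_of_dvd_mul_left h2
    have h4 : (a : ℤ) - b = 0 := by
      apply Int.eq_zero_of_abs_lt_dvd h3
      rw [abs_lt]; constructor <;> omega
    omega
  have himg : (range M).image (fun c : ℕ => ((u * (c : ℕ)) % M).toNat) = range M := by
    apply eq_of_subset_of_card_le
    · intro x hx
      rw [mem_image] at hx
      obtain ⟨c, _, rfl⟩ := hx
      rw [mem_range]
      have h1 := Int.emod_lt_of_pos (u * (c : ℤ)) hM0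
      have h2 := hcast (u * (c : ℤ))
      omega
    · rw [card_image_of_injOn hinj]
  conv_rhs => rw [← himg]
  rw [sum_image hinj]
  apply sum_congr rfl
  intro c _
  apply hf
  rw [hcast]
  exact Int.dvd_self_sub_emod

theorem isCoprime_two_three (j o : ℕ) : IsCoprime ((2 : ℤ) ^ j) (((3 ^ o : ℕ) : ℤ)) := by
  push_cast
  exact coprime_pow o j

/-- the counting function of the images -/
theorem cnt_T {j n o : ℕ} {P : ℤ → Prop} (hP : ∀ y, P y → od j y = o) (hn : n ≤ o) (c : ℤ) :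
    cnt (cls j P) (w2 j) (fun w : ℕ => T^[j] ((w : ℕ) : ℤ)) n c = cnt (cls j P) (w2 j) (ro j) n (2 ^ j * c) := by
  classical
  unfold cnt
  apply sum_congr rfl
  intro w hw
  rw [mem_cls] at hw
  have ho := hP _ hw.2
  have h1 := iter_eq j ((w : ℕ) : ℤ)
  rw [ho] at h1
  have h3n : (3 : ℤ) ^ n ∣ 3 ^ o * ((w : ℕ) : ℤ) := Dvd.dvd.mul_right (pow_dvd_pow 3 hn) _
  have e : (3 : ℤ) ^ n ∣ T^[j] ((w : ℕ) : ℤ) - c ↔ (3 : ℤ) ^ n ∣ ro j w - 2 ^ j * c := by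
    have h2 : (2 : ℤ) ^ j * (T^[j] ((w : ℕ) : ℤ) - c) = 3 ^ o * ((w : ℕ) : ℤ) + (ro j w - 2 ^ j * c) := by
      unfold ro; rw [mul_sub, h1]; ring
    constructor
    · intro h
      have h3 : (3 : ℤ) ^ n ∣ 3 ^ o * ((w : ℕ) : ℤ) + (ro j w - 2 ^ j * c) := by rw [← h2]; exact h.mul_left _
      exact (dvd_add_right h3n).1 h3
    · intro h
      have h3 : (3 : ℤ) ^ n ∣ 2 ^ j * (T^[j] ((w : ℕ) : ℤ) - c) := by rw [h2]; exact dvd_add h3n h
      exact (coprime_pow n j).symm.dvd_of_dvd_mul_left h3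
  by_cases h : (3 : ℤ) ^ n ∣ T^[j] ((w : ℕ) : ℤ) - c
  · rw [if_pos h, if_pos (e.1 h)]
  · rw [if_neg h, if_neg (fun hh => h (e.2 hh))]

/-- The estimate for one label. -/
theorem label_est {j m o : ℕ} {P : ℤ → Prop} (hP : ∀ y, P y → od j y = o) (hm : m ≤ o) (g : ℤ → ℝ)
    (hg0 : ∀ z, 0 ≤ g z) (hg1 : ∀ z, g z ≤ 1) (v₀ : ℤ) (Y : ℕ) {V δ : ℝ}
    (hcl : ∀ w : ℕ, w < 2 ^ j → P ((w : ℕ) : ℤ) → ∀ c : ℤ, 0 ≤ c → c < 3 ^ m → (3 : ℤ) ^ m ∣ T^[j] ((w : ℕ) : ℤ) - c →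
      |∑ i ∈ range (3 ^ (o - m) * Y), g (c + 3 ^ m * (3 ^ (o - m) * v₀ + (i : ℕ))) - ((3 ^ (o - m) * Y : ℕ) : ℝ) * V| ≤
        δ * ((3 ^ (o - m) * Y : ℕ) : ℝ)) :
    |∑ w ∈ cls j P, w2 j w * ∑ v ∈ range Y, g (T^[j] ((w : ℕ) : ℤ) % 3 ^ o + 3 ^ o * (v₀ + (v : ℕ))) -
      pb j P * (Y * V)| ≤ Y * dev (cls j P) (w2 j) (ro j) o m + δ * Y * pb j P := by
  classical
  set cT : ℕ → ℤ → ℝ := fun n c => cnt (cls j P) (w2 j) (fun w : ℕ => T^[j] ((w : ℕ) : ℤ)) n c with hcT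
  set Γ : ℤ → ℝ := fun c => ∑ v ∈ range Y, g (c + 3 ^ o * (v₀ + (v : ℕ))) with hΓ
  have h3o : (0 : ℤ) < 3 ^ o := by positivity
  have hΓ0 : ∀ c, 0 ≤ Γ c := fun c => sum_nonneg fun _ _ => hg0 _
  have hΓY : ∀ c, Γ c ≤ Y := by
    intro c
    have : Γ c ≤ ∑ v ∈ range Y, (1 : ℝ) := sum_le_sum fun _ _ => hg1 _
    rwa [sum_const, card_range, nsmul_eq_mul, mul_one] at this
  have hcT0 : ∀ n c, 0 ≤ cT n c := fun n c => Pool.Agent.H320R2.PD.cnt_nonneg (fun _ _ => w2_nonneg _ _) _ _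
  -- (A)
  have hA : ∑ w ∈ cls j P, w2 j w * Γ (T^[j] ((w : ℕ) : ℤ) % 3 ^ o) = ∑ c ∈ range (3 ^ o), cT o ((c : ℕ) : ℤ) * Γ ((c : ℕ) : ℤ) := by
    have e1 : ∀ c ∈ range (3 ^ o), cT o ((c : ℕ) : ℤ) * Γ ((c : ℕ) : ℤ) = ∑ w ∈ cls j P,
        (if (3 : ℤ) ^ o ∣ T^[j] ((w : ℕ) : ℤ) - ((c : ℕ) : ℤ) then w2 j w * Γ ((c : ℕ) : ℤ) else 0) := by
      intro c _
      rw [hcT]
      simp only
      unfold cnt
      rw [sum_mul]
      apply sum_congr rfl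
      intro w _
      split_ifs <;> simp
    rw [sum_congr rfl e1, sum_comm]
    apply sum_congr rfl
    intro w _
    set c₁ : ℕ := (T^[j] ((w : ℕ) : ℤ) % 3 ^ o).toNat with hc₁
    have hc₁' : ((c₁ : ℕ) : ℤ) = T^[j] ((w : ℕ) : ℤ) % 3 ^ o := Int.toNat_of_nonneg (Int.emod_nonneg _ h3o.ne')
    have hlt : c₁ < 3 ^ o := by
      have := Int.emod_lt_of_pos (T^[j] ((w : ℕ) : ℤ)) h3o
      rw [← hc₁'] at this
      exact_mod_cast this
    rw [sum_eq_single c₁]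
    · rw [if_pos, hc₁']
      rw [hc₁']
      exact Int.dvd_self_sub_emod
    · intro b hb hne
      rw [mem_range] at hb
      rw [if_neg]
      intro hd
      apply hne
      have h1 : (3 : ℤ) ^ o ∣ ((b : ℕ) : ℤ) - c₁ := by
        have h2 : (3 : ℤ) ^ o ∣ T^[j] ((w : ℕ) : ℤ) - c₁ := by rw [hc₁']; exact Int.dvd_self_sub_emod
        have := dvd_sub h2 hd
        rwa [sub_sub_sub_cancel_left] at this
      have h3 : ((b : ℕ) : ℤ) - c₁ = 0 := by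
        apply Int.eq_zero_of_abs_lt_dvd h1
        have a1 : (b : ℤ) < 3 ^ o := by exact_mod_cast hb
        have a2 : (c₁ : ℤ) < 3 ^ o := by exact_mod_cast hlt
        rw [abs_lt]; constructor <;> omega
      omega
    · intro hn; rw [mem_range] at hn; exact absurd hlt hn
  -- (B)
  have hB : ∑ c ∈ range (3 ^ o), |cT o ((c : ℕ) : ℤ) - cT m ((c : ℕ) : ℤ) / 3 ^ (o - m)| =
      dev (cls j P) (w2 j) (ro j) o m := by
    unfold dev
    set f : ℤ → ℝ := fun c => |cnt (cls j P) (w2 j) (ro j) o c - cnt (cls j P) (w2 j) (ro j) m c / 3 ^ (o - m)| with hf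
    have hper : ∀ c c' : ℤ, ((3 ^ o : ℕ) : ℤ) ∣ c - c' → f c = f c' := by
      intro c c' h
      push_cast at h
      rw [hf]
      simp only
      rw [cnt_congr (ro j) o h, cnt_congr (ro j) m ((pow_dvd_pow 3 hm).trans h)]
    rw [← sum_unit (by positivity) (isCoprime_two_three j o) hper]
    apply sum_congr rfl
    intro c _
    rw [hf, hcT]
    simp only
    rw [cnt_T hP le_rfl, cnt_T hP hm]
  -- (C)
  have hC : ∑ c ∈ range (3 ^ o), cT m ((c : ℕ) : ℤ) / 3 ^ (o - m) * Γ ((c : ℕ) : ℤ) =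
      ∑ c₀ ∈ range (3 ^ m), cT m ((c₀ : ℕ) : ℤ) / 3 ^ (o - m) *
        ∑ i ∈ range (3 ^ (o - m) * Y), g (((c₀ : ℕ) : ℤ) + 3 ^ m * (3 ^ (o - m) * v₀ + (i : ℕ))) := by
    have e0 : 3 ^ o = 3 ^ m * 3 ^ (o - m) := by rw [← pow_add]; congr 1; omega
    have e0z : (3 : ℤ) ^ o = 3 ^ m * 3 ^ (o - m) := by rw [← pow_add]; congr 1; omega
    rw [e0, sum_block, sum_comm]
    apply sum_congr rfl
    intro c₀ _
    have e1 : ∀ b' : ℕ, cT m (((c₀ + 3 ^ m * b' : ℕ)) : ℤ) = cT m ((c₀ : ℕ) : ℤ) := by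
      intro b'
      apply cnt_congr
      exact ⟨b', by push_cast; ring⟩
    simp only [e1]
    rw [← mul_sum]
    congr 1
    rw [sum_block]
    rw [hΓ]
    simp only
    rw [sum_comm]
    apply sum_congr rfl
    intro v _
    apply sum_congr rfl
    intro b' _
    congr 1
    rw [e0z]
    push_cast
    ring
  -- (D)
  have hsum : ∑ c₀ ∈ range (3 ^ m), cT m ((c₀ : ℕ) : ℤ) = pb j P := by
    have := sum_cnt (s := cls j P) (wt := w2 j) (fun w : ℕ => T^[j] ((w : ℕ) : ℤ)) m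
    rw [sum_wt] at this
    exact this
  have hpw : (0 : ℝ) < 3 ^ (o - m) := by positivity
  have hD : |∑ c₀ ∈ range (3 ^ m), cT m ((c₀ : ℕ) : ℤ) / 3 ^ (o - m) *
        ∑ i ∈ range (3 ^ (o - m) * Y), g (((c₀ : ℕ) : ℤ) + 3 ^ m * (3 ^ (o - m) * v₀ + (i : ℕ))) -
        pb j P * (Y * V)| ≤ δ * Y * pb j P := by
    rw [← hsum, sum_mul, mul_sum, ← sum_sub_distrib]
    refine (abs_sum_le_sum_abs _ _).trans (sum_le_sum fun c₀ hc₀r => ?_)
    have e2 : cT m ((c₀ : ℕ) : ℤ) / 3 ^ (o - m) *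
        ∑ i ∈ range (3 ^ (o - m) * Y), g (((c₀ : ℕ) : ℤ) + 3 ^ m * (3 ^ (o - m) * v₀ + (i : ℕ))) -
        cT m ((c₀ : ℕ) : ℤ) * (Y * V) = cT m ((c₀ : ℕ) : ℤ) / 3 ^ (o - m) *
        (∑ i ∈ range (3 ^ (o - m) * Y), g (((c₀ : ℕ) : ℤ) + 3 ^ m * (3 ^ (o - m) * v₀ + (i : ℕ))) -
          ((3 ^ (o - m) * Y : ℕ) : ℝ) * V) := by
      push_cast
      field_simp
    rw [e2, abs_mul, abs_of_nonneg (div_nonneg (hcT0 _ _) hpw.le)]
    by_cases h0 : cT m ((c₀ : ℕ) : ℤ) = 0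
    · rw [h0]; simp
    · have hex : ∃ w ∈ cls j P, (3 : ℤ) ^ m ∣ T^[j] ((w : ℕ) : ℤ) - ((c₀ : ℕ) : ℤ) := by
        by_contra hcon
        push Not at hcon
        apply h0
        rw [hcT]
        simp only
        unfold cnt
        apply sum_eq_zero
        intro w hw
        rw [if_neg (hcon w hw)]
      obtain ⟨w, hw, hd⟩ := hex
      rw [mem_cls] at hw
      rw [mem_range] at hc₀r
      have h3 := hcl w hw.1 hw.2 ((c₀ : ℕ) : ℤ) (by positivity) (by exact_mod_cast hc₀r) hd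
      calc cT m ((c₀ : ℕ) : ℤ) / 3 ^ (o - m) * _ ≤ cT m ((c₀ : ℕ) : ℤ) / 3 ^ (o - m) * (δ * ((3 ^ (o - m) * Y : ℕ) : ℝ)) :=
            mul_le_mul_of_nonneg_left h3 (div_nonneg (hcT0 _ _) hpw.le)
        _ = δ * Y * cT m ((c₀ : ℕ) : ℤ) := by push_cast; field_simp
  have hE : |∑ c ∈ range (3 ^ o), cT o ((c : ℕ) : ℤ) * Γ ((c : ℕ) : ℤ) -
      ∑ c ∈ range (3 ^ o), cT m ((c : ℕ) : ℤ) / 3 ^ (o - m) * Γ ((c : ℕ) : ℤ)| ≤ Y * dev (cls j P) (w2 j) (ro j) o m := by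
    rw [← sum_sub_distrib, ← hB, mul_sum]
    refine (abs_sum_le_sum_abs _ _).trans (sum_le_sum fun c _ => ?_)
    rw [← sub_mul, abs_mul, abs_of_nonneg (hΓ0 _), mul_comm]
    exact mul_le_mul_of_nonneg_right (hΓY _) (abs_nonneg _)
  rw [hA]
  rw [hC] at hE
  have := abs_sub_le (∑ c ∈ range (3 ^ o), cT o ((c : ℕ) : ℤ) * Γ ((c : ℕ) : ℤ))
    (∑ c₀ ∈ range (3 ^ m), cT m ((c₀ : ℕ) : ℤ) / 3 ^ (o - m) *
        ∑ i ∈ range (3 ^ (o - m) * Y), g (((c₀ : ℕ) : ℤ) + 3 ^ m * (3 ^ (o - m) * v₀ + (i : ℕ))))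
    (pb j P * (Y * V))
  linarith

section
variable {S : Type*}

open Classical in
/-- One stage. -/
theorem stage (stp : S → ℕ → S) (s : S) {j m : ℕ} (g : ℕ × S → ℤ → ℝ) (hg0 : ∀ μ z, 0 ≤ g μ z) (hg1 : ∀ μ z, g μ z ≤ 1)
    (V : ℕ × S → ℝ) (hV0 : ∀ μ, 0 ≤ V μ) (hV1 : ∀ μ, V μ ≤ 1) (v₀ : ℤ) (Y : ℕ) {δ : ℝ} (hδ : 0 ≤ δ)
    (Lg : ℕ × S → Prop) (hGm : ∀ μ, Lg μ → m ≤ μ.1)
    (hcl : ∀ w : ℕ, w < 2 ^ j → Lg (lb stp j s ((w : ℕ) : ℤ)) → ∀ c : ℤ, 0 ≤ c → c < 3 ^ m → (3 : ℤ) ^ m ∣ T^[j] ((w : ℕ) : ℤ) - c →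
      |∑ i ∈ range (3 ^ ((lb stp j s ((w : ℕ) : ℤ)).1 - m) * Y), g (lb stp j s ((w : ℕ) : ℤ))
          (c + 3 ^ m * (3 ^ ((lb stp j s ((w : ℕ) : ℤ)).1 - m) * v₀ + (i : ℕ))) -
        ((3 ^ ((lb stp j s ((w : ℕ) : ℤ)).1 - m) * Y : ℕ) : ℝ) * V (lb stp j s ((w : ℕ) : ℤ))| ≤
        δ * ((3 ^ ((lb stp j s ((w : ℕ) : ℤ)).1 - m) * Y : ℕ) : ℝ)) :
    |ex j (fun w => ∑ v ∈ range Y, g (lb stp j s w) (T^[j] w % 3 ^ od j w + 3 ^ od j w * (v₀ + (v : ℕ)))) -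
      Y * ex j (fun w => V (lb stp j s w))| ≤
      Y * (DV stp j s m + δ + pb j (fun w => ¬ Lg (lb stp j s w))) := by
  classical
  set Φ : ℤ → ℝ := fun w => ∑ v ∈ range Y, g (lb stp j s w) (T^[j] w % 3 ^ od j w + 3 ^ od j w * (v₀ + (v : ℕ))) with hΦ
  have hΦ0 : ∀ w, 0 ≤ Φ w := fun w => sum_nonneg fun _ _ => hg0 _ _
  have hΦY : ∀ w, Φ w ≤ Y := by
    intro w
    have : Φ w ≤ ∑ v ∈ range Y, (1 : ℝ) := sum_le_sum fun _ _ => hg1 _ _
    rwa [sum_const, card_range, nsmul_eq_mul, mul_one] at this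
  have hY0 : (0 : ℝ) ≤ Y := by positivity
  -- sum over the labels
  have hsplit : ∀ F : ℤ → ℝ, ex j F = ∑ μ ∈ imL stp j s, ∑ w ∈ cls j (fun y => lb stp j s y = μ), w2 j w * F ((w : ℕ) : ℤ) := by
    intro F
    have e1 : ∀ μ ∈ imL stp j s, ∑ w ∈ cls j (fun y => lb stp j s y = μ), w2 j w * F ((w : ℕ) : ℤ) =
        ex j (fun w => id1 (lb stp j s w = μ) * F w) := by
      intro μ _
      rw [cls_sum]
      unfold ex
      rw [sum_div]
      apply sum_congr rfl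
      intro w _
      unfold w2
      rw [one_div_pow]; ring
    rw [sum_congr rfl e1, ← ex_sum]
    apply ex_congr
    intro w
    rw [sum_eq_single (lb stp j s w)]
    · rw [id1_pos rfl, one_mul]
    · intro b _ hb
      rw [id1_neg (fun hh => hb hh.symm), zero_mul]
    · intro hn
      exact absurd (lb_mem stp j s w) hn
  have h1 : ex j Φ - Y * ex j (fun w => V (lb stp j s w)) = ∑ μ ∈ imL stp j s,
      (∑ w ∈ cls j (fun y => lb stp j s y = μ), w2 j w * Φ ((w : ℕ) : ℤ) - pb j (fun y => lb stp j s y = μ) * (Y * V μ)) := by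
    rw [sum_sub_distrib, ← hsplit Φ]
    congr 1
    rw [sum_lb stp j s (fun μ => Y * V μ), ← ex_mul]
  rw [h1]
  refine (abs_sum_le_sum_abs _ _).trans ?_
  have h2 : ∀ μ ∈ imL stp j s, |∑ w ∈ cls j (fun y => lb stp j s y = μ), w2 j w * Φ ((w : ℕ) : ℤ) -
      pb j (fun y => lb stp j s y = μ) * (Y * V μ)| ≤
      (if m ≤ μ.1 then Y * dev (cls j (fun y => lb stp j s y = μ)) (w2 j) (ro j) μ.1 m else 0) +
        δ * Y * pb j (fun y => lb stp j s y = μ) + Y * (pb j (fun y => lb stp j s y = μ) * id1 (¬ Lg μ)) := by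
    intro μ _
    have hp := pb_nonneg j (fun y => lb stp j s y = μ)
    have hd : 0 ≤ dev (cls j (fun y => lb stp j s y = μ)) (w2 j) (ro j) μ.1 m := sum_nonneg fun _ _ => abs_nonneg _
    by_cases hG : Lg μ
    · rw [if_pos (hGm μ hG), id1_neg (fun hh => hh hG), mul_zero, mul_zero, add_zero]
      have key := label_est (j := j) (m := m) (o := μ.1) (P := fun y => lb stp j s y = μ)
        (fun y hy => by rw [← hy]; rfl) (hGm μ hG) (g μ) (hg0 μ) (hg1 μ) v₀ Y (V := V μ) (δ := δ) (by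
          intro w hw hlb c hc0 hc1 hd
          have := hcl w hw (by rw [hlb]; exact hG) c hc0 hc1 hd
          rw [hlb] at this
          exact this)
      have e3 : ∑ w ∈ cls j (fun y => lb stp j s y = μ), w2 j w * Φ ((w : ℕ) : ℤ) =
          ∑ w ∈ cls j (fun y => lb stp j s y = μ), w2 j w *
            ∑ v ∈ range Y, g μ (T^[j] ((w : ℕ) : ℤ) % 3 ^ μ.1 + 3 ^ μ.1 * (v₀ + (v : ℕ))) := by
        apply sum_congr rfl
        intro w hw
        rw [mem_cls] at hw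
        rw [hΦ]
        simp only
        rw [hw.2]
        have : od j ((w : ℕ) : ℤ) = μ.1 := by rw [← hw.2]; rfl
        rw [this]
      rw [e3]
      exact key
    · rw [id1_pos hG, mul_one]
      have e4 : 0 ≤ ∑ w ∈ cls j (fun y => lb stp j s y = μ), w2 j w * Φ ((w : ℕ) : ℤ) :=
        sum_nonneg fun w _ => mul_nonneg (w2_nonneg _ _) (hΦ0 _)
      have e5 : ∑ w ∈ cls j (fun y => lb stp j s y = μ), w2 j w * Φ ((w : ℕ) : ℤ) ≤ Y * pb j (fun y => lb stp j s y = μ) := by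
        rw [← sum_wt, mul_sum]
        apply sum_le_sum
        intro w _
        rw [mul_comm]
        exact mul_le_mul_of_nonneg_right (hΦY _) (w2_nonneg _ _)
      have e6 : 0 ≤ pb j (fun y => lb stp j s y = μ) * (Y * V μ) := mul_nonneg hp (mul_nonneg hY0 (hV0 μ))
      have e7 : pb j (fun y => lb stp j s y = μ) * (Y * V μ) ≤ Y * pb j (fun y => lb stp j s y = μ) := by
        rw [mul_comm]
        apply mul_le_mul_of_nonneg_right _ hp
        exact mul_le_of_le_one_right hY0 (hV1 μ)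
      have e8 : 0 ≤ (if m ≤ μ.1 then Y * dev (cls j (fun y => lb stp j s y = μ)) (w2 j) (ro j) μ.1 m else 0) := by
        split_ifs
        · exact mul_nonneg hY0 hd
        · exact le_rfl
      have e9 : 0 ≤ δ * Y * pb j (fun y => lb stp j s y = μ) := by positivity
      rw [abs_le]
      constructor <;> linarith
  refine (sum_le_sum h2).trans (le_of_eq ?_)
  rw [sum_add_distrib, sum_add_distrib, ← sum_filter, ← mul_sum, ← mul_sum, ← mul_sum]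
  have e10 : ∑ μ ∈ imL stp j s, pb j (fun y => lb stp j s y = μ) = 1 := by
    have := sum_lb stp j s (fun _ => 1)
    simp only [mul_one] at this
    rw [this, ex_const]
  have e11 : ∑ μ ∈ imL stp j s, pb j (fun y => lb stp j s y = μ) * id1 (¬ Lg μ) = pb j (fun w => ¬ Lg (lb stp j s w)) := by
    rw [sum_lb stp j s (fun μ => id1 (¬ Lg μ)), pb_id1]
  rw [e10, e11]
  unfold DV
  ring

end

end Pool.Agent.J4H39
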