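import Mathlib
import Pool.Agent.J4H39.E7
import Pool.Agent.J4H39.E9
import Pool.Agent.J4H39.B0
import Pool.Agent.J4H39.B2

set_option autoImplicit false

namespace Pool.Agent.J4H39

open Finset Filter Real
open Pool.Agent.H499R2.CO (rho rho_nonneg)

/-! Preparations for the transfer to intervals. -/

/-- the images of the residues are residues -/
theorem T_lt (j : ℕ) : ∀ w : ℤ, 0 ≤ w → w < 2 ^ j → 0 ≤ T^[j] w ∧ T^[j] w < 3 ^ od j w := by
  induction j with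
  | zero => intro w h0 h1; simp [od] at *; omega
  | succ j ih =>
    intro w h0 h1
    have h2j : (0 : ℤ) < 2 ^ j := by positivity
    have e1 : w % 2 ^ j + 2 ^ j * (w / 2 ^ j) = w := Int.emod_add_mul_ediv w (2 ^ j)
    have hb0 : 0 ≤ w / 2 ^ j := Int.ediv_nonneg h0 h2j.le
    have hb1 : w / 2 ^ j ≤ 1 := by
      have : w / 2 ^ j < 2 := by
        apply Int.ediv_lt_of_lt_mul h2j
        rw [pow_succ] at h1; linarith
      omega
    have hw0 := Int.emod_nonneg w h2j.ne'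
    have hw1 := Int.emod_lt_of_pos w h2j
    obtain ⟨i0, i1⟩ := ih (w % 2 ^ j) hw0 hw1
    have hT := T_add j (w % 2 ^ j) (w / 2 ^ j)
    have ho := od_add j (w % 2 ^ j) (w / 2 ^ j)
    rw [e1] at hT ho
    have h3 : (0 : ℤ) < 3 ^ od j (w % 2 ^ j) := by positivity
    have hy0 : 0 ≤ T^[j] w := by rw [hT]; positivity
    have hy1 : T^[j] w < 2 * 3 ^ od j w := by
      rw [hT, ho]; nlinarith
    rw [Function.iterate_succ_apply', od_succ]
    have h2 := T_pr (T^[j] w)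
    rw [pr_iter, add_zero] at h2
    rcases pr_cases j w with ⟨h, h'⟩ | ⟨h, h'⟩
    · rw [h] at h2 ⊢
      simp at h2
      rw [add_zero]
      omega
    · rw [h] at h2 ⊢
      rw [pow_succ]
      push_cast at h2
      omega

theorem T_mod (j : ℕ) {w : ℤ} (h0 : 0 ≤ w) (h1 : w < 2 ^ j) : T^[j] w % 3 ^ od j w = T^[j] w := by
  obtain ⟨a, b⟩ := T_lt j w h0 h1
  exact Int.emod_eq_of_lt a b

/-- values on an interval -/
theorem cnt_aff {k : ℕ} {P : ℤ → Prop} (hP : Per k P) {a : ℤ} (ha : a % 2 = 1) (b : ℤ) (Z : ℕ) :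
    ∑ i ∈ range Z, id1 (P (a * ((i : ℕ) : ℤ) + b)) ≤ (Z + 2 ^ k : ℝ) * pb k P := by
  have h1 : Per k (fun m => P (a * m + b)) := by
    intro x u
    simp only
    rw [show a * (x + 2 ^ k * u) + b = (a * x + b) + 2 ^ k * (a * u) by ring, hP]
  have h2 := cnt_upper h1 0 Z
  rw [pb_affine hP ha] at h2
  refine le_trans (le_of_eq ?_) h2
  unfold cnt
  apply sum_congr rfl
  intro i _
  rw [zero_add]
  unfold id1
  rfl

theorem cnt_two {k : ℕ} {P : ℤ → Prop} (hP : Per k P) {a : ℤ} (ha : a % 2 = 1) (b : ℤ) (Z : ℕ) :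
    |∑ i ∈ range Z, id1 (P (a * ((i : ℕ) : ℤ) + b)) - Z * pb k P| ≤ 2 ^ k := by
  have h1 := cnt_aff hP ha b Z
  have hP' : Per k (fun x => ¬ P x) := hP.comp (fun p => ¬ p)
  have h2 := cnt_aff hP' ha b Z
  rw [pb_not] at h2
  have h3 : ∑ i ∈ range Z, id1 (P (a * ((i : ℕ) : ℤ) + b)) + ∑ i ∈ range Z, id1 (¬ P (a * ((i : ℕ) : ℤ) + b)) = Z := by
    rw [← sum_add_distrib]
    have : ∀ i ∈ range Z, id1 (P (a * ((i : ℕ) : ℤ) + b)) + id1 (¬ P (a * ((i : ℕ) : ℤ) + b)) = 1 := by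
      intro i _
      by_cases h : P (a * ((i : ℕ) : ℤ) + b)
      · rw [id1_pos h, id1_neg (fun hh => hh h)]; norm_num
      · rw [id1_neg h, id1_pos h]; norm_num
    rw [sum_congr rfl this]; simp
  have h4 := pb_nonneg k P
  have h5 := pb_le_one k P
  have h6 : (0 : ℝ) < 2 ^ k := by positivity
  rw [abs_le]
  constructor
  · nlinarith
  · nlinarith

/-- the second member of a pair -/
def par (s : ℤ × ℤ) (y : ℤ) : ℤ := (3 ^ s.1.toNat * y + s.2) / 3 ^ (-s.1).toNat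

theorem par_eq {s : ℤ × ℤ} {y y' : ℤ} (h : Rel s y y') : par s y = y' := by
  unfold par
  unfold Rel at h
  rw [← h]
  exact Int.mul_ediv_cancel_left _ (by positivity)

/-- merging of a pair -/
noncomputable def gP (t : ℕ) (s : ℤ × ℤ) (z : ℤ) : ℝ := id1 (T^[t] z = T^[t] (par s z))

theorem gP_rel (t : ℕ) {s : ℤ × ℤ} {y y' : ℤ} (h : Rel s y y') : gP t s y = id1 (T^[t] y = T^[t] y') := by
  unfold gP; rw [par_eq h]

theorem gP_nonneg (t : ℕ) (s : ℤ × ℤ) (z : ℤ) : 0 ≤ gP t s z := id1_nonneg _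

theorem gP_le_one (t : ℕ) (s : ℤ × ℤ) (z : ℤ) : gP t s z ≤ 1 := id1_le_one _

/-- one more stage for a pair -/
theorem gP_step (j t : ℕ) {s : ℤ × ℤ} {y y' : ℤ} (h : Rel s y y') :
    gP (j + t) s y = gP t (rn stP j s y) (T^[j] y) := by
  rw [gP_rel _ h, gP_rel _ (rel_rn h j).1, add_comm j t, Function.iterate_add_apply, Function.iterate_add_apply]

theorem ns_nonneg (k : ℕ) (s : ℤ × ℤ) : 0 ≤ ns k s := pb_nonneg _ _

theorem ns_le_one (k : ℕ) (s : ℤ × ℤ) : ns k s ≤ 1 := pb_le_one _ _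

theorem ns_tower (j k : ℕ) (s : ℤ × ℤ) : ns (j + k) s = ex j (fun y => ns k (rn stP j s y)) := by
  have h := tower_rn stP s (fun s' z => rn stP k s' z ≠ (0, 0)) j k (fun s' => per_ns k s')
  unfold ns
  rw [← h]
  apply pb_congr
  intro y
  rw [rn_comp]

theorem rel_shift {s : ℤ × ℤ} {y y' : ℤ} (h : Rel s y y') (u : ℤ) :
    Rel s (y + 3 ^ (-s.1).toNat * u) (y' + 3 ^ s.1.toNat * u) := by
  unfold Rel at *
  rw [mul_add, h]; ring

theorem rel_shift_m {s : ℤ × ℤ} {y y' : ℤ} (h : Rel s y y') {m : ℕ} (hm : (-s.1).toNat ≤ m) (u : ℤ) :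
    Rel s (y + 3 ^ m * u) (y' + 3 ^ (m - (-s.1).toNat + s.1.toNat) * u) := by
  have := rel_shift h (3 ^ (m - (-s.1).toNat) * u)
  rw [← mul_assoc, ← mul_assoc, ← pow_add, ← pow_add, Nat.add_sub_cancel' hm, add_comm s.1.toNat] at this
  exact this

theorem rel_zero (r y : ℤ) : Rel (0, r) y (y + r) := by
  unfold Rel; simp

/-- shifts that merge quickly do not change the merging of the pair -/
theorem gP_shift {t k : ℕ} (hkt : k ≤ t) {s : ℤ × ℤ} {y y' u : ℤ} (h : Rel s y y')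
    (h1 : rn stP k (0, 3 ^ (-s.1).toNat * u) y = (0, 0)) (h2 : rn stP k (0, 3 ^ s.1.toNat * u) y' = (0, 0)) :
    gP t s (y + 3 ^ (-s.1).toNat * u) = gP t s y := by
  have a1 := (merge_of_rn (rel_zero _ y) (rn_zero_of_le hkt h1)).1
  have a2 := (merge_of_rn (rel_zero _ y') (rn_zero_of_le hkt h2)).1
  rw [gP_rel t (rel_shift h u), gP_rel t h, a1, a2]

theorem id_diff {a b : ℝ} (ha0 : 0 ≤ a) (ha1 : a ≤ 1) (hb0 : 0 ≤ b) (hb1 : b ≤ 1) {P Q : Prop}
    (h : ¬ P → ¬ Q → a = b) : |a - b| ≤ id1 P + id1 Q := by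
  have h3 : |a - b| ≤ 1 := by rw [abs_le]; constructor <;> linarith
  by_cases hP : P
  · rw [id1_pos hP]; have := id1_nonneg Q; linarith
  · by_cases hQ : Q
    · rw [id1_pos hQ]; have := id1_nonneg P; linarith
    · rw [h hP hQ, sub_self, abs_zero]; have := id1_nonneg P; have := id1_nonneg Q; linarith

/-- comparison of two progressions -/
theorem prog_shift {t k : ℕ} (hkt : k ≤ t) {s : ℤ × ℤ} {m : ℕ} (hm : (-s.1).toNat ≤ m) {y y' u : ℤ} (h : Rel s y y')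
    {Z : ℕ} (hZ : 2 ^ k ≤ Z) :
    |∑ i ∈ range Z, gP t s (y + 3 ^ (-s.1).toNat * u + 3 ^ m * ((i : ℕ) : ℤ)) -
      ∑ i ∈ range Z, gP t s (y + 3 ^ m * ((i : ℕ) : ℤ))| ≤
      2 * Z * (ns k (0, 3 ^ (-s.1).toNat * u) + ns k (0, 3 ^ s.1.toNat * u)) := by
  rw [← sum_sub_distrib]
  refine (abs_sum_le_sum_abs _ _).trans ?_
  have h1 : ∀ i ∈ range Z, |gP t s (y + 3 ^ (-s.1).toNat * u + 3 ^ m * ((i : ℕ) : ℤ)) - gP t s (y + 3 ^ m * ((i : ℕ) : ℤ))| ≤
      id1 (rn stP k (0, 3 ^ (-s.1).toNat * u) (3 ^ m * ((i : ℕ) : ℤ) + y) ≠ (0, 0)) +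
      id1 (rn stP k (0, 3 ^ s.1.toNat * u) (3 ^ (m - (-s.1).toNat + s.1.toNat) * ((i : ℕ) : ℤ) + y') ≠ (0, 0)) := by
    intro i _
    apply id_diff (gP_nonneg _ _ _) (gP_le_one _ _ _) (gP_nonneg _ _ _) (gP_le_one _ _ _)
    intro h2 h3
    rw [not_not] at h2 h3
    rw [add_comm _ y] at h2
    rw [add_comm _ y'] at h3
    rw [show y + 3 ^ (-s.1).toNat * u + 3 ^ m * ((i : ℕ) : ℤ) = y + 3 ^ m * ((i : ℕ) : ℤ) + 3 ^ (-s.1).toNat * u by ring]
    exact gP_shift hkt (rel_shift_m h hm _) h2 h3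
  refine (sum_le_sum h1).trans ?_
  rw [sum_add_distrib]
  have h4 := cnt_aff (per_ns k (0, 3 ^ (-s.1).toNat * u)) (pow3_odd m) y Z
  have h5 := cnt_aff (per_ns k (0, 3 ^ s.1.toNat * u)) (pow3_odd (m - (-s.1).toNat + s.1.toNat)) y' Z
  have h6 : ((Z : ℝ) + 2 ^ k) ≤ 2 * Z := by
    have : ((2 : ℝ) ^ k) ≤ Z := by exact_mod_cast hZ
    linarith
  have h7 := mul_le_mul_of_nonneg_right h6 (pb_nonneg k (fun y => rn stP k (0, 3 ^ (-s.1).toNat * u) y ≠ (0, 0)))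
  have h8 := mul_le_mul_of_nonneg_right h6 (pb_nonneg k (fun y => rn stP k (0, 3 ^ s.1.toNat * u) y ≠ (0, 0)))
  unfold ns
  linarith

end Pool.Agent.J4H39
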