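import Mathlib
import Pool.Agent.J4H39.E10

set_option autoImplicit false

namespace Pool.Agent.J4H39

open Finset Filter Real
open Pool.Agent.H499R2.CO (rho rho_nonneg)

/-! The estimate for the classes and one step of the transfer. -/

/-- the transfer at a fixed time -/
def TA (t a b : ℕ) (M ε : ℝ) : Prop := ∀ (i : ℕ) (r : ℤ), GS a b ((i : ℤ), r) → ∀ (x : ℤ) (X : ℕ), M ≤ X →
  |∑ v ∈ range X, id1 (T^[t] (x + (v : ℕ)) = T^[t] (3 ^ i * (x + (v : ℕ)) + r)) - X * (1 - ns t ((i : ℤ), r))| ≤ ε * X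

theorem TA_state {t a b : ℕ} {M ε : ℝ} (h : TA t a b M ε) {s : ℤ × ℤ} (hs : GS a b s) (x : ℤ) (X : ℕ) (hX : M ≤ X) :
    |∑ v ∈ range X, gP t s (3 ^ (-s.1).toNat * (x + (v : ℕ)) - s.2) - X * (1 - ns t s)| ≤ ε * X := by
  obtain ⟨D, r⟩ := s
  rcases le_or_gt 0 D with h0 | h0
  · obtain ⟨i, rfl⟩ := Int.eq_ofNat_of_zero_le h0
    have h1 := h i r hs (x - r) X hX
    refine le_trans (le_of_eq ?_) h1
    congr 2
    apply sum_congr rfl
    intro v _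
    simp only
    rw [show (-((i : ℕ) : ℤ)).toNat = 0 by omega, pow_zero, one_mul,
      show x + ((v : ℕ) : ℤ) - r = x - r + (v : ℕ) by ring, gP_rel t (rel_nat i r _)]
  · obtain ⟨i, hi⟩ := Int.eq_ofNat_of_zero_le (show 0 ≤ -D by omega)
    have : D = -(i : ℤ) := by omega
    subst this
    have h1 := h i (-r) (by
      unfold GS at hs ⊢
      simp only at hs ⊢
      rw [abs_neg] at hs
      rw [abs_neg]
      exact hs) x X hX
    rw [← ns_sw_nat] at h1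
    refine le_trans (le_of_eq ?_) h1
    congr 2
    apply sum_congr rfl
    intro v _
    simp only
    rw [neg_neg, Int.toNat_natCast]
    have h2 : Rel (-(i : ℤ), r) (3 ^ i * (x + (v : ℕ)) - r) (x + (v : ℕ)) := by
      unfold Rel
      simp only [neg_neg, Int.toNat_natCast]
      rw [show (-(i : ℤ)).toNat = 0 by omega]
      ring
    rw [gP_rel t h2]
    apply id1_congr
    rw [sub_eq_add_neg]
    exact eq_comm

theorem class_est {t k m a b : ℕ} {M ε η : ℝ} (hTA : TA t a b M ε) (hkt : k ≤ t) {s : ℤ × ℤ} (hs : GS a b s)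
    (ham : a ≤ m) (hbm : b ≤ m) {y y' : ℤ} (hrel : Rel s y y') {c : ℤ} (hc0 : 0 ≤ c) (hc1 : c < 3 ^ m)
    (hd : (3 : ℤ) ^ m ∣ y - c) (v₁ : ℤ) {Z : ℕ} (hZ : 2 ^ k ≤ Z) (hM : M ≤ ((3 ^ (m - (-s.1).toNat) * Z : ℕ) : ℝ))
    (hη : ∀ r : ℤ, |r| ≤ 4 ^ (m + 1 + a) → ns k (0, r) ≤ η) :
    |∑ i ∈ range Z, gP t s (c + 3 ^ m * (v₁ + ((i : ℕ) : ℤ))) - Z * (1 - ns t s)| ≤ (4 * η + ε) * Z := by
  have hsa := hs.1
  rw [abs_le] at hsa
  set E := (-s.1).toNat with hE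
  have hEa : E ≤ a := by omega
  have hEm : E ≤ m := hEa.trans ham
  have hDa : s.1.toNat ≤ a := by omega
  obtain ⟨u₀, hu₀⟩ := hd
  set y₁ : ℤ := c + 3 ^ m * v₁ with hy₁
  have hy₁' : y₁ = y + 3 ^ m * (v₁ - u₀) := by rw [hy₁]; linarith
  have hr1 := rel_shift_m hrel hEm (v₁ - u₀)
  rw [← hy₁'] at hr1
  set y₁' := y' + 3 ^ (m - (-s.1).toNat + s.1.toNat) * (v₁ - u₀) with hy₁'d
  obtain ⟨w, hw⟩ : ∃ w, y₁ + s.2 = 3 ^ E * w := by
    rcases Nat.eq_zero_or_pos E with h0 | h0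
    · exact ⟨y₁ + s.2, by rw [h0]; ring⟩
    · refine ⟨y₁', ?_⟩
      unfold Rel at hr1
      have : s.1.toNat = 0 := by omega
      rw [this, pow_zero, one_mul] at hr1
      rw [← hr1]
  have h3E : (0 : ℤ) < 3 ^ E := by positivity
  have e3 : (3 : ℤ) ^ m = 3 ^ E * 3 ^ (m - E) := by rw [← pow_add]; congr 1; omega
  have hkey : ∀ e ∈ range (3 ^ (m - E)), |∑ i ∈ range Z, gP t s (3 ^ E * (3 ^ (m - E) * v₁ + ((e + 3 ^ (m - E) * i : ℕ) : ℤ)) - s.2) -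
      ∑ i ∈ range Z, gP t s (c + 3 ^ m * (v₁ + ((i : ℕ) : ℤ)))| ≤ 4 * η * Z := by
    intro e he
    rw [mem_range] at he
    set u : ℤ := e + 3 ^ (m - E) * v₁ - w with hu
    have hb1 : 3 ^ E * u = 3 ^ E * e - c - s.2 := by
      rw [hu, mul_sub, mul_add, ← hw, hy₁, ← mul_assoc, ← e3]; ring
    have hb2 : |3 ^ E * u| ≤ 4 ^ (m + 1) := by
      rw [hb1]
      have a1 : (3 : ℤ) ^ E * e < 3 ^ m := by
        rw [e3]
        apply mul_lt_mul_of_pos_left _ h3E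
        exact_mod_cast he
      have a2 : (0 : ℤ) ≤ 3 ^ E * e := by positivity
      have a3 := hs.2
      rw [abs_le] at a3
      have a4 : (4 : ℤ) ^ b ≤ 4 ^ m := pow_le_pow_right₀ (by norm_num) hbm
      have a5 : (3 : ℤ) ^ m ≤ 4 ^ m := pow_le_pow_left₀ (by norm_num) (by norm_num) m
      rw [abs_le, pow_succ]
      constructor <;> linarith
    have hb3 : |3 ^ E * u| ≤ 4 ^ (m + 1 + a) := by
      refine hb2.trans ?_
      exact pow_le_pow_right₀ (by norm_num) (by omega)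
    have hb4 : |3 ^ s.1.toNat * u| ≤ 4 ^ (m + 1 + a) := by
      have a1 : |u| ≤ |3 ^ E * u| := by
        rw [abs_mul, abs_of_pos h3E]
        have : (1 : ℤ) ≤ 3 ^ E := one_le_pow₀ (by norm_num)
        nlinarith [abs_nonneg u]
      rw [abs_mul, abs_of_pos (by positivity : (0 : ℤ) < 3 ^ s.1.toNat)]
      have a2 : (3 : ℤ) ^ s.1.toNat ≤ 4 ^ a := by
        calc (3 : ℤ) ^ s.1.toNat ≤ 3 ^ a := pow_le_pow_right₀ (by norm_num) hDa
          _ ≤ 4 ^ a := pow_le_pow_left₀ (by norm_num) (by norm_num) a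
      calc 3 ^ s.1.toNat * |u| ≤ 4 ^ a * 4 ^ (m + 1) :=
            mul_le_mul a2 (a1.trans hb2) (abs_nonneg _) (by positivity)
        _ = 4 ^ (m + 1 + a) := by rw [← pow_add]; congr 1; omega
    have key := prog_shift (t := t) hkt (s := s) hEm (u := u) hr1 hZ
    have c1 := hη _ hb3
    have c2 := hη _ hb4
    have e5 : ∀ i : ℕ, y₁ + 3 ^ (-s.1).toNat * u + 3 ^ m * ((i : ℕ) : ℤ) =
        3 ^ E * (3 ^ (m - E) * v₁ + ((e + 3 ^ (m - E) * i : ℕ) : ℤ)) - s.2 := by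
      intro i
      rw [← hE, hb1, hy₁]
      push_cast
      rw [e3]; ring
    have e6 : ∀ i : ℕ, y₁ + 3 ^ m * ((i : ℕ) : ℤ) = c + 3 ^ m * (v₁ + ((i : ℕ) : ℤ)) := by
      intro i; rw [hy₁]; ring
    simp only [e5, e6] at key
    refine key.trans ?_
    have hZ0 : (0 : ℝ) ≤ Z := by positivity
    have : ns k (0, 3 ^ (-s.1).toNat * u) + ns k (0, 3 ^ s.1.toNat * u) ≤ 2 * η := by linarith
    nlinarith
  have hTs := TA_state hTA hs (3 ^ (m - E) * v₁) (3 ^ (m - E) * Z) hM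
  rw [sum_block, sum_comm] at hTs
  set S := ∑ i ∈ range Z, gP t s (c + 3 ^ m * (v₁ + ((i : ℕ) : ℤ))) with hS
  have hsum : |∑ e ∈ range (3 ^ (m - E)), ∑ i ∈ range Z, gP t s (3 ^ E * (3 ^ (m - E) * v₁ +
      ((e + 3 ^ (m - E) * i : ℕ) : ℤ)) - s.2) - 3 ^ (m - E) * S| ≤ 3 ^ (m - E) * (4 * η * Z) := by
    have e7 : (3 : ℝ) ^ (m - E) * S = ∑ e ∈ range (3 ^ (m - E)), S := by
      rw [sum_const, card_range, nsmul_eq_mul]; push_cast; ring
    rw [e7, ← sum_sub_distrib]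
    refine (abs_sum_le_sum_abs _ _).trans ((sum_le_sum hkey).trans (le_of_eq ?_))
    rw [sum_const, card_range, nsmul_eq_mul]; push_cast; ring
  rw [← hE] at hTs
  push_cast at hTs hsum
  have hp : (0 : ℝ) < 3 ^ (m - E) := by positivity
  have hfin : |3 ^ (m - E) * (S - Z * (1 - ns t s))| ≤ 3 ^ (m - E) * ((4 * η + ε) * Z) := by
    have a1 := abs_sub_le (3 ^ (m - E) * S) (∑ e ∈ range (3 ^ (m - E)), ∑ i ∈ range Z, gP t s (3 ^ E * (3 ^ (m - E) * v₁ +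
      ((e : ℤ) + 3 ^ (m - E) * (i : ℤ))) - s.2)) (3 ^ (m - E) * Z * (1 - ns t s))
    rw [abs_sub_comm] at hsum
    have e8 : (3 : ℝ) ^ (m - E) * (S - Z * (1 - ns t s)) = 3 ^ (m - E) * S - 3 ^ (m - E) * Z * (1 - ns t s) := by ring
    rw [e8]
    refine a1.trans ?_
    linarith
  rw [abs_mul, abs_of_pos hp] at hfin
  exact le_of_mul_le_mul_left hfin hp

/-- One step of the transfer. -/
theorem step_core {i j t k m a b o₀ : ℕ} {r : ℤ} {M ε η : ℝ} (hTA : TA t a b M ε) (hkt : k ≤ t)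
    (ham : a ≤ m) (hbm : b ≤ m) (hmk : m + k ≤ o₀) (v₀ : ℤ) {Y : ℕ} (hY : 1 ≤ Y)
    (hM : M ≤ ((3 ^ (o₀ - a) * Y : ℕ) : ℝ))
    (hη : ∀ r : ℤ, |r| ≤ 4 ^ (m + 1 + a) → ns k (0, r) ≤ η) :
    |∑ u ∈ range (2 ^ j * Y), id1 (T^[j + t] (2 ^ j * v₀ + (u : ℕ)) = T^[j + t] (3 ^ i * (2 ^ j * v₀ + (u : ℕ)) + r)) -
      2 ^ j * Y * (1 - ns (j + t) ((i : ℤ), r))| ≤
      2 ^ j * Y * (DV stP j ((i : ℤ), r) m + (4 * η + ε) +
        pb j (fun w => ¬ (o₀ ≤ od j w ∧ GS a b (rn stP j ((i : ℤ), r) w)))) := by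
  set s : ℤ × ℤ := ((i : ℤ), r) with hs
  have key := stage stP s (j := j) (m := m) (fun μ z => gP t μ.2 z) (fun μ z => gP_nonneg _ _ _) (fun μ z => gP_le_one _ _ _)
    (fun μ => 1 - ns t μ.2) (fun μ => by have := ns_le_one t μ.2; linarith) (fun μ => by have := ns_nonneg t μ.2; linarith)
    v₀ Y (δ := 4 * η + ε) (by
      have h1 := hη 0 (by simp)
      have h2 := ns_nonneg k (0, 0)
      have h3 : 0 ≤ ε := by
        by_contra hcon
        push Not at hcon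
        have h4 := hTA 0 0 (by unfold GS; simp) 0 (⌈M⌉₊ + 1) (by push_cast; linarith [Nat.le_ceil M])
        have h5 := abs_nonneg (∑ v ∈ range (⌈M⌉₊ + 1), id1 (T^[t] (0 + ((v : ℕ) : ℤ)) = T^[t] (3 ^ 0 * (0 + ((v : ℕ) : ℤ)) + 0)) -
          ((⌈M⌉₊ + 1 : ℕ) : ℝ) * (1 - ns t (((0 : ℕ) : ℤ), 0)))
        have h6 : (0 : ℝ) < ((⌈M⌉₊ + 1 : ℕ) : ℝ) := by positivity
        have h7 : ε * ((⌈M⌉₊ + 1 : ℕ) : ℝ) < 0 := mul_neg_of_neg_of_pos hcon h6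
        linarith
      linarith)
    (fun μ => o₀ ≤ μ.1 ∧ GS a b μ.2) (fun μ hμ => by omega) (by
      intro w hw hgood c hc0 hc1 hd
      obtain ⟨hg1, hg2⟩ := hgood
      set o := (lb stP j s ((w : ℕ) : ℤ)).1 with ho
      set s' := (lb stP j s ((w : ℕ) : ℤ)).2 with hs'
      have hrel : Rel s' (T^[j] ((w : ℕ) : ℤ)) (T^[j] (3 ^ i * ((w : ℕ) : ℤ) + r)) := (rel_rn (rel_nat i r ((w : ℕ) : ℤ)) j).1
      have hsa := hg2.1
      rw [abs_le] at hsa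
      have h1 := class_est (Z := 3 ^ (o - m) * Y) hTA hkt hg2 ham hbm hrel hc0 hc1 hd (3 ^ (o - m) * v₀) (by
        calc 2 ^ k ≤ 3 ^ k := Nat.pow_le_pow_left (by norm_num) k
          _ ≤ 3 ^ (o - m) := Nat.pow_le_pow_right (by norm_num) (by omega)
          _ ≤ 3 ^ (o - m) * Y := Nat.le_mul_of_pos_right _ hY) (by
        refine hM.trans ?_
        have : 3 ^ (o₀ - a) * Y ≤ 3 ^ (m - (-s'.1).toNat) * (3 ^ (o - m) * Y) := by
          rw [← mul_assoc, ← pow_add]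
          apply Nat.mul_le_mul_right
          apply Nat.pow_le_pow_right (by norm_num)
          omega
        exact_mod_cast this) hη
      exact h1)
  have e1 : ex j (fun w => ∑ v ∈ range Y, gP t (lb stP j s w).2 (T^[j] w % 3 ^ od j w + 3 ^ od j w * (v₀ + (v : ℕ)))) =
      (∑ u ∈ range (2 ^ j * Y), id1 (T^[j + t] (2 ^ j * v₀ + (u : ℕ)) = T^[j + t] (3 ^ i * (2 ^ j * v₀ + (u : ℕ)) + r))) / 2 ^ j := by
    unfold ex
    congr 1
    rw [sum_block, sum_comm]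
    apply sum_congr rfl
    intro v _
    apply sum_congr rfl
    intro w hw
    rw [mem_range] at hw
    rw [T_mod j (by positivity) (by exact_mod_cast hw), ← T_add]
    have h2 : rn stP j s ((w : ℕ) : ℤ) = rn stP j s (((w : ℕ) : ℤ) + 2 ^ j * (v₀ + (v : ℕ))) :=
      (per_rn stP s (le_refl j) ((w : ℕ) : ℤ) (v₀ + (v : ℕ))).symm
    have h3 : (lb stP j s ((w : ℕ) : ℤ)).2 = rn stP j s ((w : ℕ) : ℤ) := rfl
    rw [h3, h2, ← gP_step j t (rel_nat i r (((w : ℕ) : ℤ) + 2 ^ j * (v₀ + (v : ℕ)))), gP_rel _ (rel_nat i r _)]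
    have h4 : ((w : ℕ) : ℤ) + 2 ^ j * (v₀ + (v : ℕ)) = 2 ^ j * v₀ + ((w + 2 ^ j * v : ℕ) : ℤ) := by push_cast; ring
    rw [h4]
  have e2 : ex j (fun w => 1 - ns t (lb stP j s w).2) = 1 - ns (j + t) s := by
    rw [ns_tower j t s]
    have : ∀ w, 1 - ns t (lb stP j s w).2 = 1 + (-1) * ns t (rn stP j s w) := by intro w; unfold lb; ring
    rw [ex_congr this, ex_add, ex_mul, ex_const]; ring
  rw [e1, e2] at key
  have h2j : (0 : ℝ) < 2 ^ j := by positivity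
  set A := ∑ u ∈ range (2 ^ j * Y), id1 (T^[j + t] (2 ^ j * v₀ + (u : ℕ)) = T^[j + t] (3 ^ i * (2 ^ j * v₀ + (u : ℕ)) + r)) with hA
  have h5 : A - 2 ^ j * Y * (1 - ns (j + t) s) = 2 ^ j * (A / 2 ^ j - Y * (1 - ns (j + t) s)) := by
    field_simp
  rw [h5, abs_mul, abs_of_pos h2j, mul_assoc (2 ^ j : ℝ) (Y : ℝ)]
  exact mul_le_mul_of_nonneg_left key h2j.le

end Pool.Agent.J4H39
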