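import Mathlib
import Pool.Agent.J4H39.E11

set_option autoImplicit false

namespace Pool.Agent.J4H39

open Finset Filter Real
open Pool.Agent.H499R2.CO (rho rho_nonneg)

/-! The error terms; the transfer theorem. -/

theorem DV_small (c : ℕ) {ε : ℝ} (hε : 0 < ε) : ∀ᶠ z : ℕ in atTop, ∀ j, z ^ 20 ≤ j → j ≤ 2 * z ^ 20 →
    ∀ s, GS (c * z ^ 12) (c * z ^ 14) s → DV stP j s (z ^ 19) ≤ ε := by
  filter_upwards [pair_mix (2 * c + 4) 100, yz_small 100 (ε := 1) one_pos, eventually_ge_atTop 16,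
    eventually_ge_atTop (⌈10 / ε⌉₊)] with z h1 h2 h3 h4
  intro j hj hj2 s hs
  have hz0 : (16 : ℝ) ≤ z := by exact_mod_cast h3
  have hzp : (0 : ℝ) < z := by linarith
  have hz1 : (1 : ℝ) ≤ z := by linarith
  have hj1 : 1 ≤ j := le_trans (Nat.one_le_pow _ _ (by omega)) hj
  have p11 : z ^ 11 ≤ z ^ 12 := Nat.pow_le_pow_right (by omega) (by norm_num)
  have p12 : z ^ 12 ≤ z ^ 14 := Nat.pow_le_pow_right (by omega) (by norm_num)
  have p1 : z ≤ z ^ 14 := Nat.le_self_pow (by norm_num) z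
  have p0 : 1 ≤ z ^ 14 := Nat.one_le_pow _ _ (by omega)
  have p20 : z ^ 11 < z ^ 20 := Nat.pow_lt_pow_right (by omega) (by norm_num)
  have ha : c * z ^ 12 + z ^ 11 ≤ (2 * c + 4) * z ^ 12 := by nlinarith [Nat.zero_le (c * z ^ 12)]
  have hb : c * z ^ 12 + 2 * z ^ 11 + c * z ^ 14 + z + 1 ≤ (2 * c + 4) * z ^ 14 := by
    have := Nat.mul_le_mul_left c p12
    nlinarith
  have hx := x_bd h3 hj1 (by omega : j ≤ 8 * z ^ 20)
  set E : ℝ := 1 / (z : ℝ) ^ 100 + 2 * yz z with hE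
  have hz100 : (0 : ℝ) < (z : ℝ) ^ 100 := by positivity
  have hyz : yz z ≤ 1 / (z : ℝ) ^ 100 := by rw [le_div_iff₀ hz100, mul_comm]; exact h2
  have hE3 : E ≤ 3 / (z : ℝ) ^ 100 := by
    have : 3 / (z : ℝ) ^ 100 = 3 * (1 / (z : ℝ) ^ 100) := by ring
    rw [this, hE]; linarith
  have key := DV_le stP (j := j) (n := 4 * j) (m := z ^ 19) s (Nat.one_le_pow _ _ (by omega)) (by omega) (E := E) (by
    intro q hq hqj a haj
    have e1 : ∀ y, Gm stP (4 * j) q (rn stP a s y) q ≤ 1 / (z : ℝ) ^ 100 +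
        id1 (¬ GS ((2 * c + 4) * z ^ 12) ((2 * c + 4) * z ^ 14) (rn stP a s y)) := by
      intro y
      by_cases hg : GS ((2 * c + 4) * z ^ 12) ((2 * c + 4) * z ^ 14) (rn stP a s y)
      · rw [id1_neg (fun hh => hh hg), add_zero]
        exact h1 (4 * j) (by omega) (by omega) _ hg q q hq (by omega) le_rfl
      · rw [id1_pos hg]
        have := Gm_le_one stP (4 * j) q (rn stP a s y) q
        have : 0 < 1 / (z : ℝ) ^ 100 := by positivity
        linarith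
    refine (ex_mono e1).trans ?_
    rw [ex_add, ex_const, ← pb_id1, hE]
    have e2 : pb a (fun y => ¬ GS ((2 * c + 4) * z ^ 12) ((2 * c + 4) * z ^ 14) (rn stP a s y)) ≤ 2 * yz z := by
      have hper : Per a (fun y => ¬ GS ((2 * c + 4) * z ^ 12) ((2 * c + 4) * z ^ 14) (rn stP a s y)) := by
        intro x u
        simp only
        rw [per_rn stP s (le_refl a) x u]
      rw [← pb_per haj hper]
      refine le_trans ?_ ((exit_time (l := z) (δ := z ^ 11) (n := j) hs).trans (by linarith))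
      apply pb_mono
      intro y hy
      exact ⟨a, haj, fun hg => hy (GS_mono ha hb hg)⟩
    linarith)
  refine key.trans ?_
  have hjr : (j : ℝ) ≤ 2 * (z : ℝ) ^ 20 := by exact_mod_cast hj2
  have hz20 : (1 : ℝ) ≤ (z : ℝ) ^ 20 := one_le_pow₀ hz1
  have e3 : √ (2 * (((j : ℝ) + 1) * E)) ≤ 5 / (z : ℝ) ^ 40 := by
    rw [Real.sqrt_le_left (by positivity)]
    have a1 : ((j : ℝ) + 1) ≤ 3 * (z : ℝ) ^ 20 := by linarith
    have hE0 : 0 ≤ E := by have := yz_nonneg z; positivity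
    calc 2 * (((j : ℝ) + 1) * E) ≤ 2 * ((3 * (z : ℝ) ^ 20) * (3 / (z : ℝ) ^ 100)) := by gcongr
      _ = 18 / (z : ℝ) ^ 80 := by field_simp; norm_num
      _ ≤ 25 / (z : ℝ) ^ 80 := by gcongr; norm_num
      _ = (5 / (z : ℝ) ^ 40) ^ 2 := by rw [div_pow, ← pow_mul]; norm_num
  calc (j : ℝ) * √ (2 * (((j : ℝ) + 1) * E)) ≤ (2 * (z : ℝ) ^ 20) * (5 / (z : ℝ) ^ 40) := by gcongr
    _ = 10 / (z : ℝ) ^ 20 := by field_simp; norm_num
    _ ≤ 10 / z := by
        apply div_le_div_of_nonneg_left (by norm_num) hzp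
        exact le_self_pow₀ hz1 (by norm_num)
    _ ≤ ε := by
        rw [div_le_iff₀ hzp]
        have h5 : 10 / ε ≤ z := (Nat.le_ceil _).trans (by exact_mod_cast h4)
        rw [div_le_iff₀ hε] at h5
        linarith

theorem label_small (c : ℕ) {ε : ℝ} (hε : 0 < ε) : ∀ᶠ z : ℕ in atTop, ∀ j, z ^ 20 ≤ j → j ≤ 2 * z ^ 20 →
    ∀ s, GS (c * z ^ 12) (c * z ^ 14) s → pb j (fun w => ¬ ((j - z ^ 11) / 2 ≤ od j w ∧
      GS ((2 * c + 4) * z ^ 12) ((2 * c + 4) * z ^ 14) (rn stP j s w))) ≤ ε := by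
  filter_upwards [yz_small 0 (ε := ε / 3) (by positivity), eventually_ge_atTop 16] with z h2 h3
  intro j hj hj2 s hs
  rw [pow_zero, one_mul] at h2
  have hj1 : 1 ≤ j := le_trans (Nat.one_le_pow _ _ (by omega)) hj
  have p11 : z ^ 11 ≤ z ^ 12 := Nat.pow_le_pow_right (by omega) (by norm_num)
  have p12 : z ^ 12 ≤ z ^ 14 := Nat.pow_le_pow_right (by omega) (by norm_num)
  have p1 : z ≤ z ^ 14 := Nat.le_self_pow (by norm_num) z
  have p0 : 1 ≤ z ^ 14 := Nat.one_le_pow _ _ (by omega)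
  have ha : c * z ^ 12 + z ^ 11 ≤ (2 * c + 4) * z ^ 12 := by nlinarith [Nat.zero_le (c * z ^ 12)]
  have hb : c * z ^ 12 + 2 * z ^ 11 + c * z ^ 14 + z + 1 ≤ (2 * c + 4) * z ^ 14 := by
    have := Nat.mul_le_mul_left c p12
    nlinarith
  have hx := x_bd h3 hj1 (by omega : j ≤ 8 * z ^ 20)
  have h4 : pb j (fun w => ¬ ((j - z ^ 11) / 2 ≤ od j w ∧
      GS ((2 * c + 4) * z ^ 12) ((2 * c + 4) * z ^ 14) (rn stP j s w))) ≤
      pb j (fun y => ¬ Gd j (4 ^ z : ℕ) ((z ^ 11 : ℕ) : ℝ) y) +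
      pb j (fun y => ∃ t ≤ j, ¬ GS (c * z ^ 12 + z ^ 11) (c * z ^ 12 + 2 * z ^ 11 + c * z ^ 14 + z + 1) (rn stP t s y)) := by
    refine le_trans (pb_mono ?_) (pb_or _ _ _)
    intro w hw
    by_cases hg : Gd j (4 ^ z : ℕ) ((z ^ 11 : ℕ) : ℝ) w
    · right
      refine ⟨j, le_rfl, fun hgs => hw ⟨?_, GS_mono ha hb hgs⟩⟩
      have := od_lo hg le_rfl
      omega
    · left; exact hg
  have h5 := exit_time (l := z) (δ := z ^ 11) (n := j) hs
  linarith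

theorem eta_small (c : ℕ) {ε : ℝ} (hε : 0 < ε) : ∀ᶠ z : ℕ in atTop, ∀ j, z ^ 20 ≤ j → j ≤ 2 * z ^ 20 →
    ∀ r : ℤ, |r| ≤ 4 ^ (z ^ 19 + 1 + (2 * c + 4) * z ^ 12) → ns (j / 8) (0, r) ≤ ε := by
  obtain ⟨C, hC, hrate⟩ := ns_rate
  have h1 : Tendsto (fun z : ℕ => √ (z : ℝ)) atTop atTop := tendsto_sqrt_atTop.comp tendsto_natCast_atTop_atTop
  have h2 : Tendsto (fun t : ℝ => C * √ (2752 * (1 / t))) atTop (nhds 0) := by
    have a2 : Tendsto (fun t : ℝ => (2752 : ℝ) * (1 / t)) atTop (nhds 0) := by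
      have := (tendsto_const_nhds (x := (1 : ℝ))).div_atTop (tendsto_id (α := ℝ) (x := atTop))
      have := this.const_mul (2752 : ℝ)
      rw [mul_zero] at this
      exact this
    have a3 := (Real.continuous_sqrt.tendsto 0).comp a2
    rw [Real.sqrt_zero] at a3
    have := a3.const_mul C
    rw [mul_zero] at this
    exact this
  filter_upwards [(h2.comp h1).eventually (ge_mem_nhds hε), eventually_ge_atTop 16, eventually_ge_atTop (2 * c + 4)] with z h3 h4 h5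
  intro j hj hj2 r hr
  have hz0 : (16 : ℝ) ≤ z := by exact_mod_cast h4
  have hzp : (0 : ℝ) < z := by linarith
  have hz1 : (1 : ℝ) ≤ z := by linarith
  have p19 : (2 * c + 4) * z ^ 12 ≤ z ^ 19 := by
    calc (2 * c + 4) * z ^ 12 ≤ z * z ^ 12 := Nat.mul_le_mul_right _ h5
      _ = z ^ 13 := by ring
      _ ≤ z ^ 19 := Nat.pow_le_pow_right (by omega) (by norm_num)
  have p20 : z * z ^ 19 = z ^ 20 := by ring
  have p19' : 1 ≤ z ^ 19 := Nat.one_le_pow _ _ (by omega)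
  have hk16 : z ^ 20 ≤ 16 * (j / 8) := by
    have : 16 ≤ z ^ 20 := le_trans h4 (Nat.le_self_pow (by norm_num) z)
    omega
  have hk1 : 1 ≤ j / 8 := by
    have : 1 ≤ z ^ 20 := Nat.one_le_pow _ _ (by omega)
    omega
  refine (hrate (j / 8) hk1 0 (z ^ 19 + 1 + (2 * c + 4) * z ^ 12) r (by exact_mod_cast hr)).trans ?_
  refine le_trans ?_ h3
  simp only [Function.comp]
  rw [mul_assoc]
  apply mul_le_mul_of_nonneg_left _ hC.le
  unfold rho
  rw [← Real.sqrt_mul (by positivity)]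
  apply Real.sqrt_le_sqrt
  have hlog := log_n_le (z := z) (n := j / 8 + 1) (by omega) (by omega) (by omega)
  have a1 : 1 + (((0 : ℤ) : ℝ)) ^ 2 + ((z ^ 19 + 1 + (2 * c + 4) * z ^ 12 : ℕ) : ℝ) ≤ 4 * (z : ℝ) ^ 19 := by
    have : 1 + (z ^ 19 + 1 + (2 * c + 4) * z ^ 12) ≤ 4 * z ^ 19 := by omega
    have : ((1 + (z ^ 19 + 1 + (2 * c + 4) * z ^ 12) : ℕ) : ℝ) ≤ 4 * (z : ℝ) ^ 19 := by exact_mod_cast this
    push_cast at this ⊢
    linarith
  have hkr : (z : ℝ) ^ 20 / 16 ≤ ((j / 8 : ℕ) : ℝ) := by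
    have : (z : ℝ) ^ 20 ≤ 16 * ((j / 8 : ℕ) : ℝ) := by exact_mod_cast hk16
    linarith
  have hlog0 : 0 ≤ Real.log (((j / 8 : ℕ) : ℝ) + 1) := Real.log_nonneg (by
      have : (0 : ℝ) ≤ ((j / 8 : ℕ) : ℝ) := by positivity
      linarith)
  push_cast at hlog
  have hs : √ (z : ℝ) * √ z = z := Real.mul_self_sqrt hzp.le
  have hs0 : 0 < √ (z : ℝ) := Real.sqrt_pos.2 hzp
  calc (1 + (((0 : ℤ) : ℝ)) ^ 2 + ((z ^ 19 + 1 + (2 * c + 4) * z ^ 12 : ℕ) : ℝ)) *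
        (Real.log (((j / 8 : ℕ) : ℝ) + 1) / ((j / 8 : ℕ) : ℝ)) ≤
        (4 * (z : ℝ) ^ 19) * ((43 * √ z) / ((z : ℝ) ^ 20 / 16)) := by gcongr
    _ = 2752 * (√ z / z) := by field_simp; norm_num
    _ = 2752 * (1 / √ z) := by
        congr 1
        rw [div_eq_div_iff hzp.ne' hs0.ne', hs, one_mul]

/-- comparison with a union of blocks -/
theorem block_cmp {f : ℤ → ℝ} (h0 : ∀ u, 0 ≤ f u) (h1 : ∀ u, f u ≤ 1) (j : ℕ) (x : ℤ) (X : ℕ) :
    |∑ v ∈ range X, f (x + (v : ℕ)) - ∑ u ∈ range (2 ^ j * (X / 2 ^ j)), f (2 ^ j * (x / 2 ^ j) + (u : ℕ))| ≤ 3 * 2 ^ j := by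
  have h2j : (0 : ℤ) < 2 ^ j := by positivity
  set v₀ : ℤ := x / 2 ^ j with hv₀
  set d : ℕ := (x % 2 ^ j).toNat with hd
  have hd' : ((d : ℕ) : ℤ) = x % 2 ^ j := Int.toNat_of_nonneg (Int.emod_nonneg _ h2j.ne')
  have hx : x = 2 ^ j * v₀ + d := by
    rw [hd', hv₀]; have := Int.emod_add_mul_ediv x (2 ^ j); linarith
  have hdlt : d < 2 ^ j := by
    have := Int.emod_lt_of_pos x h2j
    rw [← hd'] at this
    exact_mod_cast this
  set F : ℕ → ℝ := fun u => f (2 ^ j * v₀ + (u : ℕ)) with hF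
  set B := 2 ^ j * (X / 2 ^ j) with hB
  have hBX : B ≤ X := Nat.mul_div_le X (2 ^ j)
  have hXB : X < B + 2 ^ j := by
    have := Nat.lt_div_mul_add (a := X) (b := 2 ^ j) (by positivity)
    rw [mul_comm] at this
    exact this
  have e1 : ∑ v ∈ range X, f (x + (v : ℕ)) = ∑ v ∈ range X, F (d + v) := by
    apply sum_congr rfl
    intro v _
    rw [hF]
    simp only
    rw [hx]
    push_cast
    ring_nf
  have e2 : ∑ u ∈ range (d + X), F u = ∑ u ∈ range d, F u + ∑ v ∈ range X, F (d + v) := sum_range_add _ _ _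
  have e3 : ∑ u ∈ range (B + (d + X - B)), F u = ∑ u ∈ range B, F u + ∑ v ∈ range (d + X - B), F (B + v) := sum_range_add _ _ _
  rw [Nat.add_sub_cancel' (by omega : B ≤ d + X)] at e3
  have b1 : ∀ (n : ℕ) (g : ℕ → ℕ), 0 ≤ ∑ u ∈ range n, F (g u) ∧ ∑ u ∈ range n, F (g u) ≤ n := by
    intro n g
    refine ⟨sum_nonneg fun _ _ => h0 _, ?_⟩
    have : ∑ u ∈ range n, F (g u) ≤ ∑ u ∈ range n, (1 : ℝ) := sum_le_sum fun _ _ => h1 _
    rwa [sum_const, card_range, nsmul_eq_mul, mul_one] at this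
  have c1 := b1 d (fun u => u)
  have c2 := b1 (d + X - B) (fun v => B + v)
  have c3 : ((d + X - B : ℕ) : ℝ) ≤ 2 * 2 ^ j := by
    have : d + X - B ≤ 2 * 2 ^ j := by omega
    exact_mod_cast this
  have c4 : (d : ℝ) ≤ 2 ^ j := by exact_mod_cast hdlt.le
  have c5 : (0 : ℝ) < 2 ^ j := by positivity
  rw [e1]
  change |∑ v ∈ range X, F (d + v) - ∑ u ∈ range B, F u| ≤ 3 * 2 ^ j
  rw [abs_le]
  constructor <;> linarith

end Pool.Agent.J4H39
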