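import Mathlib
import Pool.Agent.J4H39.E12
import Pool.Agent.J4H39.B0

set_option autoImplicit false

namespace Pool.Agent.J4H39

open Finset Filter Real
open Pool.Agent.H499R2.CO (rho rho_nonneg)

/-! The transfer theorem. -/

/-- the transfer statement with the exponent `κ` -/
def TT (κ : ℝ) : Prop := ∀ ε : ℝ, 0 < ε → ∀ c : ℕ, ∃ t₀ : ℕ, ∀ t : ℕ, t₀ ≤ t → ∀ z : ℕ, z ^ 20 ≤ t →
  TA t (c * z ^ 12) (c * z ^ 14) ((2 : ℝ) ^ (κ * t)) ε

theorem TT_mono {κ κ' : ℝ} (h : κ ≤ κ') (hT : TT κ) : TT κ' := by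
  intro ε hε c
  obtain ⟨t₀, ht₀⟩ := hT ε hε c
  refine ⟨t₀, fun t ht z hz i r hs x X hX => ht₀ t ht z hz i r hs x X (le_trans ?_ hX)⟩
  apply Real.rpow_le_rpow_of_exponent_le (by norm_num)
  exact mul_le_mul_of_nonneg_right h (by positivity)

/-- accidental merging -/
theorem accid {t : ℕ} {i : ℕ} {r : ℤ} {u q : ℤ} (h1 : rn stP t ((i : ℤ), r) u ≠ (0, 0))
    (h2 : T^[t] u = T^[t] (3 ^ i * u + r))
    (h3 : T^[t] (u + 2 ^ t * q) = T^[t] (3 ^ i * (u + 2 ^ t * q) + r)) : q = 0 := by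
  have r1 := (rel_rn (rel_nat i r u) t).1
  have r2 := (rel_rn (rel_nat i r (u + 2 ^ t * q)) t).1
  rw [per_rn stP _ (le_refl t) u q] at r2
  rw [← h2] at r1
  rw [← h3] at r2
  set s' := rn stP t ((i : ℤ), r) u with hs'
  unfold Rel at r1 r2
  rw [T_add] at r2
  have h4 : (3 : ℤ) ^ (-s'.1).toNat * (3 ^ od t u * q) = 3 ^ s'.1.toNat * (3 ^ od t u * q) := by
    linear_combination r2 - r1
  by_contra hq
  have h5 : (3 : ℤ) ^ od t u * q ≠ 0 := mul_ne_zero (by positivity) hq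
  have h6 := mul_right_cancel₀ h5 h4
  have h7 : (-s'.1).toNat = s'.1.toNat := by
    have : (3 : ℕ) ^ (-s'.1).toNat = 3 ^ s'.1.toNat := by exact_mod_cast h6
    exact Nat.pow_right_injective (le_refl 2 |>.trans (by norm_num)) this
  have h8 : s'.1 = 0 := by omega
  apply h1
  apply Prod.ext h8
  rw [h8] at r1
  simp at r1
  exact r1

theorem accid_count (t i : ℕ) (r x : ℤ) (X : ℕ) :
    ∑ v ∈ range X, id1 (rn stP t ((i : ℤ), r) (x + (v : ℕ)) ≠ (0, 0) ∧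
      T^[t] (x + (v : ℕ)) = T^[t] (3 ^ i * (x + (v : ℕ)) + r)) ≤ 2 ^ t := by
  classical
  have h2t : (0 : ℤ) < 2 ^ t := by positivity
  have e : ∑ v ∈ range X, id1 (rn stP t ((i : ℤ), r) (x + (v : ℕ)) ≠ (0, 0) ∧
      T^[t] (x + (v : ℕ)) = T^[t] (3 ^ i * (x + (v : ℕ)) + r)) =
      #((range X).filter (fun v : ℕ => rn stP t ((i : ℤ), r) (x + (v : ℕ)) ≠ (0, 0) ∧
      T^[t] (x + (v : ℕ)) = T^[t] (3 ^ i * (x + (v : ℕ)) + r))) := by
    rw [card_filter]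
    push_cast
    apply sum_congr rfl
    intro v _
    unfold id1
    congr
  rw [e]
  have h := card_le_card_of_injOn (s := (range X).filter (fun v : ℕ => rn stP t ((i : ℤ), r) (x + (v : ℕ)) ≠ (0, 0) ∧
      T^[t] (x + (v : ℕ)) = T^[t] (3 ^ i * (x + (v : ℕ)) + r))) (t := range (2 ^ t))
    (fun v => ((x + (v : ℕ)) % 2 ^ t).toNat) (by
      intro v _
      rw [mem_coe, mem_range]
      have h1 := Int.emod_lt_of_pos (x + (v : ℕ)) h2t
      have h2 := Int.emod_nonneg (x + (v : ℕ)) h2t.ne'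
      have h3 : (((x + (v : ℕ)) % 2 ^ t).toNat : ℤ) < 2 ^ t := by rw [Int.toNat_of_nonneg h2]; exact h1
      exact_mod_cast h3) (by
      intro v hv v' hv' hvv
      rw [mem_coe, mem_filter] at hv hv'
      simp only at hvv
      have h1 : (x + (v : ℕ)) % 2 ^ t = (x + (v' : ℕ)) % 2 ^ t := by
        have := congrArg (Nat.cast : ℕ → ℤ) hvv
        rwa [Int.toNat_of_nonneg (Int.emod_nonneg _ h2t.ne'), Int.toNat_of_nonneg (Int.emod_nonneg _ h2t.ne')] at this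
      obtain ⟨q, hq⟩ : (2 : ℤ) ^ t ∣ (x + (v' : ℕ)) - (x + (v : ℕ)) := Int.ModEq.dvd h1
      have h2 : x + ((v' : ℕ) : ℤ) = (x + (v : ℕ)) + 2 ^ t * q := by linarith
      have h3 := hv'.2.2
      rw [h2] at h3
      have h4 := accid hv.2.1 hv.2.2 h3
      rw [h4, mul_zero, add_zero] at h2
      omega)
  rw [card_range] at h
  exact_mod_cast h

/-- The transfer to long intervals. -/
theorem TT_base : TT 2 := by
  intro ε hε c
  obtain ⟨t₀, ht₀⟩ := pow_unbounded_of_one_lt (2 / ε) (by norm_num : (1 : ℝ) < 2)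
  refine ⟨t₀, fun t ht z hz i r hs x X hX => ?_⟩
  have h1 : 2 / ε ≤ (2 : ℝ) ^ t := ht₀.le.trans (pow_le_pow_right₀ (by norm_num) ht)
  have h2 : 2 * (2 : ℝ) ^ t ≤ ε * X := by
    have a1 : ((2 : ℝ) ^ (2 * (t : ℝ))) = 2 ^ t * 2 ^ t := by
      rw [two_mul, Real.rpow_add (by norm_num), Real.rpow_natCast]
    rw [a1] at hX
    rw [div_le_iff₀ hε] at h1
    have h2t : (0 : ℝ) < 2 ^ t := by positivity
    calc 2 * (2 : ℝ) ^ t ≤ (2 ^ t * ε) * 2 ^ t := mul_le_mul_of_nonneg_right h1 h2t.le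
      _ = ε * (2 ^ t * 2 ^ t) := by ring
      _ ≤ ε * X := mul_le_mul_of_nonneg_left hX hε.le
  have h3 := accid_count t i r x X
  have h4 := cnt_two (per_ns t ((i : ℤ), r)) (show (1 : ℤ) % 2 = 1 by norm_num) x X
  have h5 : ∑ v ∈ range X, id1 (T^[t] (x + (v : ℕ)) = T^[t] (3 ^ i * (x + (v : ℕ)) + r)) =
      ∑ v ∈ range X, id1 (rn stP t ((i : ℤ), r) (x + (v : ℕ)) ≠ (0, 0) ∧
      T^[t] (x + (v : ℕ)) = T^[t] (3 ^ i * (x + (v : ℕ)) + r)) +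
      (X - ∑ v ∈ range X, id1 (rn stP t ((i : ℤ), r) (1 * ((v : ℕ) : ℤ) + x) ≠ (0, 0))) := by
    have e1 : (X : ℝ) = ∑ v ∈ range X, 1 := by simp
    conv_rhs => rw [e1]
    rw [← sum_sub_distrib, ← sum_add_distrib]
    apply sum_congr rfl
    intro v _
    rw [one_mul, add_comm ((v : ℕ) : ℤ) x]
    by_cases h : rn stP t ((i : ℤ), r) (x + (v : ℕ)) = (0, 0)
    · rw [id1_neg (show ¬ (rn stP t ((i : ℤ), r) (x + (v : ℕ)) ≠ (0, 0) ∧
          T^[t] (x + (v : ℕ)) = T^[t] (3 ^ i * (x + (v : ℕ)) + r)) from fun hh => hh.1 h),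
        id1_neg (show ¬ (rn stP t ((i : ℤ), r) (x + (v : ℕ)) ≠ (0, 0)) from fun hh => hh h),
        id1_pos (merge_of_rn (rel_nat i r _) h).1]
      ring
    · rw [id1_pos (show rn stP t ((i : ℤ), r) (x + (v : ℕ)) ≠ (0, 0) from h)]
      have : id1 (rn stP t ((i : ℤ), r) (x + (v : ℕ)) ≠ (0, 0) ∧
          T^[t] (x + (v : ℕ)) = T^[t] (3 ^ i * (x + (v : ℕ)) + r)) = id1 (T^[t] (x + (v : ℕ)) = T^[t] (3 ^ i * (x + (v : ℕ)) + r)) :=
        id1_congr ⟨fun hh => hh.2, fun hh => ⟨h, hh⟩⟩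
      rw [this]; ring
  rw [h5]
  have h6 : 0 ≤ ∑ v ∈ range X, id1 (rn stP t ((i : ℤ), r) (x + (v : ℕ)) ≠ (0, 0) ∧
      T^[t] (x + (v : ℕ)) = T^[t] (3 ^ i * (x + (v : ℕ)) + r)) := sum_nonneg fun _ _ => id1_nonneg _
  unfold ns
  rw [abs_le] at h4 ⊢
  constructor <;> linarith [h4.1, h4.2]

end Pool.Agent.J4H39
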