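import Mathlib
import Pool.Agent.J4H39.E13

set_option autoImplicit false

namespace Pool.Agent.J4H39

open Finset Filter Real
open Pool.Agent.H499R2.CO (rho rho_nonneg)

/-! Iteration of the step. -/

theorem scaleGS {c c₁ z z₁ : ℕ} (hc₁ : c₁ = 4782969 * c) (hzz : z ≤ 3 * z₁) {s : ℤ × ℤ}
    (hs : GS (c * z ^ 12) (c * z ^ 14) s) : GS (c₁ * z₁ ^ 12) (c₁ * z₁ ^ 14) s := by
  have q1 : c * z ^ 12 ≤ c₁ * z₁ ^ 12 := by
    calc c * z ^ 12 ≤ c * (3 * z₁) ^ 12 := Nat.mul_le_mul_left _ (Nat.pow_le_pow_left hzz 12)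
      _ = (531441 * c) * z₁ ^ 12 := by ring
      _ ≤ (4782969 * c) * z₁ ^ 12 := Nat.mul_le_mul_right _ (Nat.mul_le_mul_right _ (by norm_num))
      _ = c₁ * z₁ ^ 12 := by rw [hc₁]
  have q2 : c * z ^ 14 ≤ c₁ * z₁ ^ 14 := by
    calc c * z ^ 14 ≤ c * (3 * z₁) ^ 14 := Nat.mul_le_mul_left _ (Nat.pow_le_pow_left hzz 14)
      _ = (4782969 * c) * z₁ ^ 14 := by ring
      _ = c₁ * z₁ ^ 14 := by rw [hc₁]
  exact GS_mono q1 q2 hs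

/-- the step for fixed parameters -/
theorem TT_fixed {θ Δ κ κ' ε : ℝ} (hΔ : κ = θ + Δ) (hκ' : κ' = θ + 9 / 10 * Δ) (hΔ0 : 0 < Δ) (hε : 0 < ε)
    (hθ : θ = th0) {t j z₁ c₁ c₂ : ℕ} (ht : 10 ≤ t) (hj : j = t / 5) (hr1 : z₁ ^ 20 ≤ j) (hj2 : j ≤ 2 * z₁ ^ 20)
    (h40 : 40 ≤ z₁) (hc : c₂ ≤ z₁)
    (g1 : 8 / ε ≤ (2 : ℝ) ^ ((θ - 1 / 5) * t)) (g2 : 2 ≤ (2 : ℝ) ^ ((θ - 1 / 5) * t))
    (hTA : TA (t - j) (c₂ * z₁ ^ 12) (c₂ * z₁ ^ 14) ((2 : ℝ) ^ (κ * ((t - j : ℕ) : ℝ))) (ε / 16))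
    (hpoly : 2 * (c₂ + 1) * (z₁ : ℝ) ^ 12 + 1 ≤ Δ * ((z₁ : ℝ) ^ 20 / 10 - 1))
    (hDV : ∀ s, GS (c₁ * z₁ ^ 12) (c₁ * z₁ ^ 14) s → DV stP j s (z₁ ^ 19) ≤ ε / 16)
    (hlab : ∀ s, GS (c₁ * z₁ ^ 12) (c₁ * z₁ ^ 14) s → pb j (fun w => ¬ ((j - z₁ ^ 11) / 2 ≤ od j w ∧
      GS (c₂ * z₁ ^ 12) (c₂ * z₁ ^ 14) (rn stP j s w))) ≤ ε / 16)
    (heta : ∀ r : ℤ, |r| ≤ 4 ^ (z₁ ^ 19 + 1 + c₂ * z₁ ^ 12) → ns (j / 8) (0, r) ≤ ε / 64) :
    TA t (c₁ * z₁ ^ 12) (c₁ * z₁ ^ 14) ((2 : ℝ) ^ (κ' * t)) ε := by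
  intro i r hs x X hX
  have hth := th0_gt
  have hth1 := th0_lt
  obtain ⟨ham, hbm, hmk, hA⟩ := nat_facts h40 hc hr1
  obtain ⟨t', ht'⟩ : ∃ t', t' = t - j := ⟨_, rfl⟩
  rw [← ht'] at hTA
  have hjt : j + t' = t := by omega
  have hj5 : (j : ℝ) ≤ t / 5 := by
    have : 5 * j ≤ t := by omega
    have : (5 : ℝ) * j ≤ t := by exact_mod_cast this
    linarith
  have hj5' : (t : ℝ) / 5 - 1 ≤ j := by
    have : t ≤ 5 * j + 4 := by omega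
    have : (t : ℝ) ≤ 5 * j + 4 := by exact_mod_cast this
    linarith
  obtain ⟨hX2, hX3⟩ := size_fact hκ' hΔ0 hε hj5 g1 g2 hX
  have hX3n : 2 * 2 ^ j ≤ X := by exact_mod_cast hX3
  obtain ⟨Y, hY⟩ : ∃ Y, Y = X / 2 ^ j := ⟨_, rfl⟩
  have hY1 : 1 ≤ Y := by
    rw [hY, Nat.one_le_div_iff (by positivity)]
    omega
  have hYX : 2 ^ j * Y ≤ X := by rw [hY]; exact Nat.mul_div_le X (2 ^ j)
  have hXY : X < 2 ^ j * Y + 2 ^ j := by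
    have := Nat.lt_div_mul_add (a := X) (b := 2 ^ j) (by positivity)
    rw [mul_comm, ← hY] at this
    exact this
  have hYXr : (2 : ℝ) ^ j * Y ≤ X := by exact_mod_cast hYX
  have hXYr : (X : ℝ) ≤ 2 ^ j * Y + 2 ^ j := by exact_mod_cast hXY.le
  have hM := len_fact (A := (j - z₁ ^ 11) / 2 - c₂ * z₁ ^ 12) (W := 2 * (c₂ + 1) * (z₁ : ℝ) ^ 12) hΔ hκ' hΔ0
    (by rw [hθ]; linarith) (by rw [hθ]; linarith) hθ (by positivity) hjt hj5' (by exact_mod_cast hA) (by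
      refine hpoly.trans ?_
      apply mul_le_mul_of_nonneg_left _ hΔ0.le
      have h1 : z₁ ^ 20 ≤ t := hr1.trans (by omega)
      have : (z₁ : ℝ) ^ 20 ≤ t := by exact_mod_cast h1
      linarith) hX hXYr hY1
  have key := step_core (i := i) (j := j) (t := t') (k := j / 8) (m := z₁ ^ 19) (o₀ := (j - z₁ ^ 11) / 2) (r := r)
    (η := ε / 64) hTA (by omega) ham hbm hmk (x / 2 ^ j) hY1 hM heta
  rw [hjt] at key
  have hcmp := block_cmp (f := fun u => id1 (T^[t] u = T^[t] (3 ^ i * u + r))) (fun _ => id1_nonneg _)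
    (fun _ => id1_le_one _) j x X
  rw [← hY] at hcmp
  refine final_fact (ns_nonneg t ((i : ℤ), r)) (ns_le_one t ((i : ℤ), r)) hε hcmp ?_ hYXr hXYr hX2
  refine key.trans ?_
  apply mul_le_mul_of_nonneg_left _ (by positivity)
  have d1 := hDV _ hs
  have d2 := hlab _ hs
  linarith

theorem TT_step {κ : ℝ} (hκ : th0 < κ) (h : TT κ) : TT (th0 + 9 / 10 * (κ - th0)) := by
  intro ε hε c
  have hΔ0 : 0 < κ - th0 := by linarith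
  have hθ5 := th0_gt
  obtain ⟨c₁, hc₁⟩ : ∃ c₁ : ℕ, c₁ = 4782969 * c := ⟨_, rfl⟩
  obtain ⟨c₂, hc₂⟩ : ∃ c₂ : ℕ, c₂ = 2 * c₁ + 4 := ⟨_, rfl⟩
  obtain ⟨t₁, ht₁⟩ := h (ε / 16) (by positivity) c₂
  have hl := label_small c₁ (ε := ε / 16) (by positivity)
  have he := eta_small c₁ (ε := ε / 64) (by positivity)
  rw [← hc₂] at hl he
  obtain ⟨z₀, hz₀⟩ := eventually_atTop.1 (((DV_small c₁ (ε := ε / 16) (by positivity)).and
    (hl.and he)).and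
    ((poly_ev (2 * (c₂ + 1)) hΔ0).and ((eventually_ge_atTop 40).and (eventually_ge_atTop c₂))))
  obtain ⟨t₂, ht₂⟩ := eventually_atTop.1 ((exp_beats (8 / ε) (show 0 < th0 - 1 / 5 by linarith)).and
    (exp_beats 2 (show 0 < th0 - 1 / 5 by linarith)))
  refine ⟨max (max t₂ (2 * t₁)) (5 * z₀ ^ 20 + 200), fun t ht z hz i r hs x X hX => ?_⟩
  rw [max_le_iff, max_le_iff] at ht
  obtain ⟨⟨ht2, ht1⟩, ht3⟩ := ht
  obtain ⟨g1, g2⟩ := ht₂ t ht2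
  obtain ⟨j, hj⟩ : ∃ j, j = t / 5 := ⟨_, rfl⟩
  obtain ⟨z₁, hr1, hr2⟩ := root20 j
  have hz₁ : z₀ ≤ z₁ := by
    by_contra hcon
    push Not at hcon
    have := Nat.pow_le_pow_left (show z₁ + 1 ≤ z₀ by omega) 20
    omega
  obtain ⟨⟨e1, e2, e3⟩, e4, e5, e6⟩ := hz₀ z₁ hz₁
  have hj2 : j ≤ 2 * z₁ ^ 20 := hr2.le.trans (succ20 e5)
  have hzz := scale20 (by omega) hj hz hr2 e5
  have hz1t : z₁ ^ 20 ≤ t - j := hr1.trans (by omega)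
  exact TT_fixed (θ := th0) (Δ := κ - th0) (κ := κ) (by ring) rfl hΔ0 hε rfl (by omega) hj hr1 hj2 e5 e6 g1 g2
    (ht₁ (t - j) (by omega) z₁ hz1t) e4 (fun s hs => e1 j hr1 hj2 s hs) (fun s hs => e2 j hr1 hj2 s hs)
    (fun r hr => e3 j hr1 hj2 r hr) i r (scaleGS hc₁ hzz hs) x X hX

/-- The transfer theorem. -/
theorem TT_all {κ : ℝ} (hκ : th0 < κ) : TT κ := by
  have hth := th0_lt
  have h1 : ∀ n : ℕ, TT (th0 + (9 / 10) ^ n * (2 - th0)) := by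
    intro n
    induction n with
    | zero => rw [pow_zero, one_mul, add_sub_cancel]; exact TT_base
    | succ n ih =>
      have h2 : 0 < (9 / 10 : ℝ) ^ n * (2 - th0) := mul_pos (by positivity) (by linarith)
      have h3 := TT_step (by linarith) ih
      rw [add_sub_cancel_left] at h3
      rw [pow_succ]
      have e : (9 / 10 : ℝ) ^ n * (9 / 10) * (2 - th0) = 9 / 10 * ((9 / 10) ^ n * (2 - th0)) := by ring
      rw [e]; exact h3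
  obtain ⟨n, hn⟩ := exists_pow_lt_of_lt_one (show 0 < (κ - th0) / (2 - th0) by
    apply div_pos <;> linarith) (show (9 / 10 : ℝ) < 1 by norm_num)
  rw [lt_div_iff₀ (by linarith)] at hn
  exact TT_mono (by linarith) (h1 n)

end Pool.Agent.J4H39
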