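import Mathlib
import Pool.Agent.J4H39.E14

set_option autoImplicit false

/-! Tuples of trajectories: the automaton, the statements. -/

namespace Pool.Agent.J4H39

open Finset Filter Real

/-- one step of a tuple of companions (all relative to the same base trajectory) -/
def stK {k : ℕ} (s : Fin k → ℤ × ℤ) (p : ℕ) : Fin k → ℤ × ℤ := fun i => stP (s i) p

theorem rn_stK {k : ℕ} (j : ℕ) (s : Fin k → ℤ × ℤ) (y : ℤ) : rn stK j s y = fun i => rn stP j (s i) y := by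
  induction j with
  | zero => rfl
  | succ j ih => rw [rn, ih]; rfl

theorem rn_stK_apply {k : ℕ} (j : ℕ) (s : Fin k → ℤ × ℤ) (y : ℤ) (i : Fin k) : rn stK j s y i = rn stP j (s i) y := by
  rw [rn_stK]

/-- bounded tuples of states -/
def GK {k : ℕ} (a b : ℕ) (s : Fin k → ℤ × ℤ) : Prop := ∀ i, GS a b (s i)

/-- compatible tuples of states: some integer has companions in all the states -/
def Cm {k : ℕ} (s : Fin k → ℤ × ℤ) : Prop := ∃ y : ℤ, ∀ i, ∃ y' : ℤ, Rel (s i) y y'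

theorem GK_mono {k a b a' b' : ℕ} (ha : a ≤ a') (hb : b ≤ b') {s : Fin k → ℤ × ℤ} (h : GK a b s) : GK a' b' s :=
  fun i => GS_mono ha hb (h i)

theorem rel_shift' {s : ℤ × ℤ} {y y' : ℤ} (h : Rel s y y') {E : ℕ} (hE : (-s.1).toNat ≤ E) (u : ℤ) :
    ∃ y'' : ℤ, Rel s (y + 3 ^ E * u) y'' := by
  obtain ⟨d, hd⟩ := Nat.exists_eq_add_of_le hE
  refine ⟨y' + 3 ^ s.1.toNat * (3 ^ d * u), ?_⟩
  unfold Rel at h ⊢
  rw [hd, mul_add, h, pow_add]; ring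

/-- a compatible tuple has an integral base point in every residue class modulo `2 ^ j` -/
theorem Cm_class {k : ℕ} {s : Fin k → ℤ × ℤ} (h : Cm s) (j : ℕ) (y : ℤ) :
    ∃ u : ℤ, ∀ i, ∃ y' : ℤ, Rel (s i) (y + 2 ^ j * u) y' := by
  obtain ⟨y₀, hy₀⟩ := h
  obtain ⟨E, hE⟩ : ∃ E : ℕ, ∀ i, (-(s i).1).toNat ≤ E := ⟨univ.sup (fun i => (-(s i).1).toNat),
    fun i => le_sup (f := fun i => (-(s i).1).toNat) (mem_univ i)⟩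
  have hcop : IsCoprime ((2 : ℤ) ^ j) (3 ^ E) := coprime_pow E j
  obtain ⟨p, q, hpq⟩ := hcop
  refine ⟨p * (y₀ - y), fun i => ?_⟩
  obtain ⟨y', hy'⟩ := hy₀ i
  have e : y + 2 ^ j * (p * (y₀ - y)) = y₀ + 3 ^ E * (q * (y - y₀)) := by
    linear_combination (y₀ - y) * hpq
  rw [e]
  exact rel_shift' hy' (hE i) _

theorem Cm_rn {k : ℕ} {s : Fin k → ℤ × ℤ} (h : Cm s) (j : ℕ) (y : ℤ) : Cm (rn stK j s y) := by
  obtain ⟨u, hu⟩ := Cm_class h j y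
  have e : rn stK j s y = rn stK j s (y + 2 ^ j * u) := (per_rn stK s (le_refl j) y u).symm
  rw [e]
  refine ⟨T^[j] (y + 2 ^ j * u), fun i => ?_⟩
  obtain ⟨y', hy'⟩ := hu i
  refine ⟨T^[j] y', ?_⟩
  rw [rn_stK_apply]
  exact (rel_rn hy' j).1

theorem Cm_nonneg {k : ℕ} {s : Fin k → ℤ × ℤ} (h : ∀ i, 0 ≤ (s i).1) : Cm s := by
  refine ⟨0, fun i => ⟨(s i).2, ?_⟩⟩
  unfold Rel
  have : (-(s i).1).toNat = 0 := by have := h i; omega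
  rw [this]; ring

/-! The statements of the mixing part. -/

/-- Coupling of two tuples of states. -/
def S_CPL : Prop := ∀ C : ℝ, 0 < C → (∀ (k : ℕ), 1 ≤ k → ∀ (D : ℤ) (u : ℕ) (r : ℤ), |(r : ℝ)| ≤ 4 ^ u →
    ns k (D, r) ≤ C * √ (1 + (D : ℝ) ^ 2 + u) * Pool.Agent.H499R2.CO.rho k) → ∀ (K k n a b d : ℕ), 1 ≤ k → k ≤ n →
    ∀ s s' : Fin K → ℤ × ℤ, GK a b s → GK a b s' → Cm s → Cm s' → (∀ i, |(s' i).1 - (s i).1| ≤ d) →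
    Cpl stK k n s s' ((K + 1) * (C * √ (1 + (d : ℝ) ^ 2 + (4 * a + b + 3 : ℕ)) * Pool.Agent.H499R2.CO.rho k))

/-- Decay of the nonuniformity for tuples. -/
def S_MIX : Prop := ∀ K c P : ℕ, ∀ᶠ z : ℕ in atTop, ∀ n, z ^ 20 ≤ n → n ≤ 8 * z ^ 20 → ∀ s : Fin K → ℤ × ℤ,
    GK (c * z ^ 12) (c * z ^ 14) s → Cm s → ∀ q k, z ^ 19 ≤ q → 2 * q + z ^ 11 < n → q ≤ k →
    Gm stK n k s q ≤ 1 / (z : ℝ) ^ P

/-- The total deviation for tuples. -/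
def S_DV : Prop := ∀ (K c : ℕ) (ε : ℝ), 0 < ε → ∀ᶠ z : ℕ in atTop, ∀ j, z ^ 20 ≤ j → j ≤ 2 * z ^ 20 →
    ∀ s : Fin K → ℤ × ℤ, GK (c * z ^ 12) (c * z ^ 14) s → Cm s → DV stK j s (z ^ 19) ≤ ε

/-- Exits for tuples. -/
def S_LAB : Prop := ∀ (K c : ℕ) (ε : ℝ), 0 < ε → ∀ᶠ z : ℕ in atTop, ∀ j, z ^ 20 ≤ j → j ≤ 2 * z ^ 20 →
    ∀ s : Fin K → ℤ × ℤ, GK (c * z ^ 12) (c * z ^ 14) s → pb j (fun w => ¬ ((j - z ^ 11) / 2 ≤ od j w ∧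
      GK ((2 * c + 4) * z ^ 12) ((2 * c + 4) * z ^ 14) (rn stK j s w))) ≤ ε

/-! The statements of the transfer. -/

/-- observables of a tuple: functions of the exponents and of the pattern of the mergings -/
noncomputable def Gf {K : ℕ} (g : (Fin K → ℤ) → (Fin K → Fin K → Prop) → ℝ) (μ : ℕ × (Fin K → ℤ × ℤ)) : ℝ :=
  g (fun i => (μ.1 : ℤ) + (μ.2 i).1) (fun i j => μ.2 i = μ.2 j)

/-- the transfer at a fixed time -/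
def TK (K t a b : ℕ) (M ε : ℝ) : Prop := ∀ s : Fin K → ℤ × ℤ, (∀ i, 0 ≤ (s i).1) → GK a b s →
  ∀ g : (Fin K → ℤ) → (Fin K → Fin K → Prop) → ℝ, (∀ A p, 0 ≤ g A p) → (∀ A p, g A p ≤ 1) →
  ∀ (x : ℤ) (X : ℕ), M ≤ X →
    |∑ v ∈ range X, Gf g (lb stK t s (x + (v : ℕ))) - X * ex t (fun y => Gf g (lb stK t s y))| ≤ ε * X

/-- the transfer statement with the exponent `κ` -/
def TTK (K : ℕ) (κ : ℝ) : Prop := ∀ ε : ℝ, 0 < ε → ∀ c : ℕ, ∃ t₀ : ℕ, ∀ t : ℕ, t₀ ≤ t → ∀ z : ℕ, z ^ 20 ≤ t →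
  TK K t (c * z ^ 12) (c * z ^ 14) ((2 : ℝ) ^ (κ * t)) ε

/-- the class estimate -/
def S_CLASS : Prop := ∀ (K t k m a b : ℕ) (M ε η : ℝ), TK K t (2 * a) (2 * a + b + 1) M ε → k ≤ t →
  ∀ s : Fin K → ℤ × ℤ, GK a b s → a ≤ m → b ≤ m → ∀ y : ℤ, (∀ i, ∃ y' : ℤ, Rel (s i) y y') →
  ∀ c : ℤ, 0 ≤ c → c < 3 ^ m → (3 : ℤ) ^ m ∣ y - c → ∀ (v₁ : ℤ) (Z : ℕ), 2 ^ k ≤ Z → M ≤ ((3 ^ (m - a) * Z : ℕ) : ℝ) →
  (∀ r : ℤ, |r| ≤ 4 ^ (m + 1 + a) → ns k (0, r) ≤ η) →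
  ∀ g : (Fin K → ℤ) → (Fin K → Fin K → Prop) → ℝ, (∀ A p, 0 ≤ g A p) → (∀ A p, g A p ≤ 1) → ∀ o : ℤ,
    |∑ i ∈ range Z, Gf (fun A p => g (fun i => o + A i) p) (lb stK t s (c + 3 ^ m * (v₁ + ((i : ℕ) : ℤ)))) -
      Z * ex t (fun z => Gf (fun A p => g (fun i => o + A i) p) (lb stK t s z))| ≤ (2 * K * η + ε) * Z

/-- the transfer for all tuples, up to the threshold -/
def S_TTK : Prop := ∀ (K : ℕ) (κ : ℝ), th0 < κ → TTK K κ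

end Pool.Agent.J4H39
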