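import Mathlib
import Pool.Agent.J4H39.K0

set_option autoImplicit false

/-! Tuples of trajectories: exits, the total deviation. -/

namespace Pool.Agent.J4H39

open Finset Filter Real

theorem GS_zero (a b : ℕ) : GS a b (0, 0) := by
  unfold GS
  simp

theorem t_LAB : S_LAB := by
  intro K c ε hε
  filter_upwards [label_small c (ε := ε / (K + 1)) (by positivity)] with z h1
  intro j hj hj2 s hs
  have e1 : ∀ w : ℤ, id1 (¬ ((j - z ^ 11) / 2 ≤ od j w ∧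
      GK ((2 * c + 4) * z ^ 12) ((2 * c + 4) * z ^ 14) (rn stK j s w))) ≤
      id1 (¬ ((j - z ^ 11) / 2 ≤ od j w ∧ GS ((2 * c + 4) * z ^ 12) ((2 * c + 4) * z ^ 14) (rn stP j (0, 0) w))) +
      ∑ i : Fin K, id1 (¬ ((j - z ^ 11) / 2 ≤ od j w ∧ GS ((2 * c + 4) * z ^ 12) ((2 * c + 4) * z ^ 14) (rn stP j (s i) w))) := by
    intro w
    have hs0 : ∀ i ∈ (univ : Finset (Fin K)), 0 ≤ id1 (¬ ((j - z ^ 11) / 2 ≤ od j w ∧
      GS ((2 * c + 4) * z ^ 12) ((2 * c + 4) * z ^ 14) (rn stP j (s i) w))) := fun _ _ => id1_nonneg _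
    by_cases hA : (j - z ^ 11) / 2 ≤ od j w
    · by_cases hG : ∀ i, GS ((2 * c + 4) * z ^ 12) ((2 * c + 4) * z ^ 14) (rn stP j (s i) w)
      · rw [id1_neg (P := ¬ ((j - z ^ 11) / 2 ≤ od j w ∧ GK ((2 * c + 4) * z ^ 12) ((2 * c + 4) * z ^ 14) (rn stK j s w)))
          (fun hh => hh ⟨hA, fun i => by rw [rn_stK_apply]; exact hG i⟩)]
        exact add_nonneg (id1_nonneg _) (sum_nonneg hs0)
      · push Not at hG
        obtain ⟨i, hi⟩ := hG
        have a1 : (1 : ℝ) ≤ ∑ i : Fin K, id1 (¬ ((j - z ^ 11) / 2 ≤ od j w ∧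
            GS ((2 * c + 4) * z ^ 12) ((2 * c + 4) * z ^ 14) (rn stP j (s i) w))) := by
          calc (1 : ℝ) = id1 (¬ ((j - z ^ 11) / 2 ≤ od j w ∧
            GS ((2 * c + 4) * z ^ 12) ((2 * c + 4) * z ^ 14) (rn stP j (s i) w))) := (id1_pos (fun hh => hi hh.2)).symm
            _ ≤ _ := single_le_sum hs0 (mem_univ i)
        have a2 := id1_le_one (¬ ((j - z ^ 11) / 2 ≤ od j w ∧
          GK ((2 * c + 4) * z ^ 12) ((2 * c + 4) * z ^ 14) (rn stK j s w)))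
        have a3 := id1_nonneg (¬ ((j - z ^ 11) / 2 ≤ od j w ∧
          GS ((2 * c + 4) * z ^ 12) ((2 * c + 4) * z ^ 14) (rn stP j (0, 0) w)))
        linarith
    · rw [id1_pos (P := ¬ ((j - z ^ 11) / 2 ≤ od j w ∧ GS ((2 * c + 4) * z ^ 12) ((2 * c + 4) * z ^ 14) (rn stP j (0, 0) w)))
        (fun hh => hA hh.1)]
      have a2 := id1_le_one (¬ ((j - z ^ 11) / 2 ≤ od j w ∧
          GK ((2 * c + 4) * z ^ 12) ((2 * c + 4) * z ^ 14) (rn stK j s w)))
      have a3 := sum_nonneg hs0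
      linarith
  rw [pb_id1]
  refine (ex_mono e1).trans ?_
  rw [ex_add, ex_sum]
  have b0 := h1 j hj hj2 (0, 0) (GS_zero _ _)
  have b1 : ∑ i : Fin K, ex j (fun w => id1 (¬ ((j - z ^ 11) / 2 ≤ od j w ∧
      GS ((2 * c + 4) * z ^ 12) ((2 * c + 4) * z ^ 14) (rn stP j (s i) w)))) ≤ ∑ i : Fin K, ε / (K + 1) :=
    sum_le_sum fun i _ => h1 j hj hj2 (s i) (hs i)
  rw [sum_const, card_univ, Fintype.card_fin, nsmul_eq_mul] at b1
  rw [pb_id1] at b0
  have e2 : ε / (K + 1) + K * (ε / (K + 1)) = ε := by field_simp; ring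
  linarith

theorem t_DV (hM : S_MIX) : S_DV := by
  intro K c ε hε
  filter_upwards [hM K (2 * c + 4) 100, yz_small 100 (ε := 1 / (K + 1)) (by positivity), eventually_ge_atTop 16,
    eventually_ge_atTop (⌈10 / ε⌉₊)] with z h1 h2 h3 h4
  intro j hj hj2 s hs hcm
  have hz0 : (16 : ℝ) ≤ z := by exact_mod_cast h3
  have hzp : (0 : ℝ) < z := by linarith
  have hz1 : (1 : ℝ) ≤ z := by linarith
  have hj1 : 1 ≤ j := le_trans (Nat.one_le_pow _ _ (by omega)) hj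
  have p11 : z ^ 11 ≤ z ^ 12 := Nat.pow_le_pow_right (by omega) (by norm_num)
  have p12 : z ^ 12 ≤ z ^ 14 := Nat.pow_le_pow_right (by omega) (by norm_num)
  have p1 : z ≤ z ^ 14 := Nat.le_self_pow (by norm_num) z
  have p0 : 1 ≤ z ^ 14 := Nat.one_le_pow _ _ (by omega)
  have p20 : z ^ 11 < z ^ 20 := Nat.pow_lt_pow_right (by omega) (by norm_num)
  have ha : c * z ^ 12 + z ^ 11 ≤ (2 * c + 4) * z ^ 12 := by nlinarith [Nat.zero_le (c * z ^ 12)]
  have hb : c * z ^ 12 + 2 * z ^ 11 + c * z ^ 14 + z + 1 ≤ (2 * c + 4) * z ^ 14 := by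
    have := Nat.mul_le_mul_left c p12
    nlinarith
  have hx := x_bd h3 hj1 (by omega : j ≤ 8 * z ^ 20)
  obtain ⟨E, hE⟩ : ∃ E : ℝ, E = 1 / (z : ℝ) ^ 100 + K * (2 * yz z) := ⟨_, rfl⟩
  have hz100 : (0 : ℝ) < (z : ℝ) ^ 100 := by positivity
  have hyz0 := yz_nonneg z
  have hK1 : (0 : ℝ) < (K : ℝ) + 1 := by positivity
  have hyz : (K + 1) * yz z ≤ 1 / (z : ℝ) ^ 100 := by
    rw [le_div_iff₀ hK1] at h2
    rw [le_div_iff₀ hz100]
    calc (K + 1) * yz z * (z : ℝ) ^ 100 = (z : ℝ) ^ 100 * yz z * (K + 1) := by ring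
      _ ≤ 1 := h2
  have hE3 : E ≤ 3 / (z : ℝ) ^ 100 := by
    have e3 : 3 / (z : ℝ) ^ 100 = 3 * (1 / (z : ℝ) ^ 100) := by ring
    rw [e3, hE]
    have : (K : ℝ) * yz z ≤ (K + 1) * yz z := by nlinarith
    linarith
  have hE0 : 0 ≤ E := by rw [hE]; positivity
  have key := DV_le stK (j := j) (n := 4 * j) (m := z ^ 19) s (Nat.one_le_pow _ _ (by omega)) (by omega) (E := E) (by
    intro q hq hqj a haj
    have e1 : ∀ y, Gm stK (4 * j) q (rn stK a s y) q ≤ 1 / (z : ℝ) ^ 100 +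
        ∑ i : Fin K, id1 (¬ GS ((2 * c + 4) * z ^ 12) ((2 * c + 4) * z ^ 14) (rn stP a (s i) y)) := by
      intro y
      have hs0 : ∀ i ∈ (univ : Finset (Fin K)), 0 ≤ id1 (¬ GS ((2 * c + 4) * z ^ 12) ((2 * c + 4) * z ^ 14)
        (rn stP a (s i) y)) := fun _ _ => id1_nonneg _
      have hpos : 0 < 1 / (z : ℝ) ^ 100 := by positivity
      by_cases hg : ∀ i, GS ((2 * c + 4) * z ^ 12) ((2 * c + 4) * z ^ 14) (rn stP a (s i) y)
      · have hgk : GK ((2 * c + 4) * z ^ 12) ((2 * c + 4) * z ^ 14) (rn stK a s y) := fun i => by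
          rw [rn_stK_apply]; exact hg i
        have b1 := h1 (4 * j) (by omega) (by omega) _ hgk (Cm_rn hcm a y) q q hq (by omega) le_rfl
        have b2 := sum_nonneg hs0
        linarith
      · push Not at hg
        obtain ⟨i, hi⟩ := hg
        have a1 : (1 : ℝ) ≤ ∑ i : Fin K, id1 (¬ GS ((2 * c + 4) * z ^ 12) ((2 * c + 4) * z ^ 14) (rn stP a (s i) y)) := by
          calc (1 : ℝ) = id1 (¬ GS ((2 * c + 4) * z ^ 12) ((2 * c + 4) * z ^ 14) (rn stP a (s i) y)) := (id1_pos hi).symm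
            _ ≤ _ := single_le_sum hs0 (mem_univ i)
        have := Gm_le_one stK (4 * j) q (rn stK a s y) q
        linarith
    refine (ex_mono e1).trans ?_
    rw [ex_add, ex_const, ex_sum, hE]
    have e2 : ∀ i ∈ (univ : Finset (Fin K)), ex a (fun y => id1 (¬ GS ((2 * c + 4) * z ^ 12) ((2 * c + 4) * z ^ 14)
        (rn stP a (s i) y))) ≤ 2 * yz z := by
      intro i _
      rw [← pb_id1]
      have hper : Per a (fun y => ¬ GS ((2 * c + 4) * z ^ 12) ((2 * c + 4) * z ^ 14) (rn stP a (s i) y)) := by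
        intro x u
        simp only
        rw [per_rn stP (s i) (le_refl a) x u]
      rw [← pb_per haj hper]
      refine le_trans ?_ ((exit_time (l := z) (δ := z ^ 11) (n := j) (hs i)).trans (by linarith))
      apply pb_mono
      intro y hy
      exact ⟨a, haj, fun hg => hy (GS_mono ha hb hg)⟩
    have e3 := sum_le_sum e2
    rw [sum_const, card_univ, Fintype.card_fin, nsmul_eq_mul] at e3
    linarith)
  refine key.trans ?_
  have hjr : (j : ℝ) ≤ 2 * (z : ℝ) ^ 20 := by exact_mod_cast hj2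
  have hz20 : (1 : ℝ) ≤ (z : ℝ) ^ 20 := one_le_pow₀ hz1
  have e3 : √ (2 * (((j : ℝ) + 1) * E)) ≤ 5 / (z : ℝ) ^ 40 := by
    rw [Real.sqrt_le_left (by positivity)]
    have a1 : ((j : ℝ) + 1) ≤ 3 * (z : ℝ) ^ 20 := by linarith
    calc 2 * (((j : ℝ) + 1) * E) ≤ 2 * ((3 * (z : ℝ) ^ 20) * (3 / (z : ℝ) ^ 100)) := by gcongr
      _ = 18 / (z : ℝ) ^ 80 := by field_simp; norm_num
      _ ≤ 25 / (z : ℝ) ^ 80 := by gcongr; norm_num
      _ = (5 / (z : ℝ) ^ 40) ^ 2 := by rw [div_pow, ← pow_mul]; norm_num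
  calc (j : ℝ) * √ (2 * (((j : ℝ) + 1) * E)) ≤ (2 * (z : ℝ) ^ 20) * (5 / (z : ℝ) ^ 40) := by gcongr
    _ = 10 / (z : ℝ) ^ 20 := by field_simp; norm_num
    _ ≤ 10 / z := by
        apply div_le_div_of_nonneg_left (by norm_num) hzp
        exact le_self_pow₀ hz1 (by norm_num)
    _ ≤ ε := by
        rw [div_le_iff₀ hzp]
        have h5 : 10 / ε ≤ z := (Nat.le_ceil _).trans (by exact_mod_cast h4)
        rw [div_le_iff₀ hε] at h5
        linarith

end Pool.Agent.J4H39
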