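import Pool.Agent.J4H39.K6
import Pool.Agent.J4H39.K7
import Pool.Agent.J4H67.KT.Mix2

namespace Pool.Agent.J4H39

/-- The transfer theorem for all tuples, over the full lifetime. -/
theorem TTK_all : S_TTK := t_TTK (t_DV J4H67.KT.t_MIX) t_LAB

end Pool.Agent.J4H39
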