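import Mathlib
import Pool.Agent.J4H39.L3
import Pool.Agent.J4H39.E14

set_option autoImplicit false

namespace Pool.Agent.J4H39

open Finset Filter Topology

/-! The law for pairs of linear forms. -/

theorem sum_ap {t k m a b a₀ : ℕ} {M ε η : ℝ} (hTA : TA t a b M ε) (hkt : k ≤ t) {i : ℕ} {r : ℤ}
    (hs : GS a b ((i : ℤ), r)) (ham : a ≤ m) (hbm : b ≤ m) (ha₀ : a₀ ≤ m) (r₁ x : ℤ) {Z : ℕ} (hZ : 2 ^ k ≤ Z)
    (hM : M ≤ ((3 ^ m * Z : ℕ) : ℝ)) (hη : ∀ r : ℤ, |r| ≤ 4 ^ (m + 1 + a) → ns k (0, r) ≤ η) :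
    |∑ v ∈ range (3 ^ (m - a₀) * Z), gP t ((i : ℤ), r) (3 ^ a₀ * (x + (v : ℕ)) + r₁) -
      3 ^ (m - a₀) * Z * (1 - ns t ((i : ℤ), r))| ≤ 3 ^ (m - a₀) * ((4 * η + ε) * Z) := by
  rw [sum_block, sum_comm]
  have e0 : (3 : ℝ) ^ (m - a₀) * Z * (1 - ns t ((i : ℤ), r)) = ∑ e ∈ range (3 ^ (m - a₀)), Z * (1 - ns t ((i : ℤ), r)) := by
    rw [sum_const, card_range, nsmul_eq_mul]; push_cast; ring
  rw [e0, ← sum_sub_distrib]
  refine (abs_sum_le_sum_abs _ _).trans ?_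
  have h3m : (0 : ℤ) < 3 ^ m := by positivity
  have e3 : (3 : ℤ) ^ m = 3 ^ a₀ * 3 ^ (m - a₀) := by rw [← pow_add]; congr 1; omega
  have key : ∀ e ∈ range (3 ^ (m - a₀)), |∑ i' ∈ range Z, gP t ((i : ℤ), r) (3 ^ a₀ * (x + ((e + 3 ^ (m - a₀) * i' : ℕ) : ℤ)) + r₁) -
      Z * (1 - ns t ((i : ℤ), r))| ≤ (4 * η + ε) * Z := by
    intro e _
    set y : ℤ := 3 ^ a₀ * (x + (e : ℕ)) + r₁ with hy
    have h0 := Int.emod_nonneg y h3m.ne'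
    have h1 := Int.emod_lt_of_pos y h3m
    have hz : (-(((i : ℕ) : ℤ), r).1).toNat = 0 := by simp only; omega
    have h2 := class_est hTA hkt hs ham hbm (rel_nat i r y) h0 h1 Int.dvd_self_sub_emod (y / 3 ^ m) hZ (by
      rw [hz]; exact hM) hη
    refine le_trans (le_of_eq ?_) h2
    congr 2
    apply sum_congr rfl
    intro i' _
    congr 1
    have h3 := Int.emod_add_mul_ediv y (3 ^ m)
    push_cast
    have h4 : (3 : ℤ) ^ a₀ * (x + ((e : ℤ) + 3 ^ (m - a₀) * (i' : ℤ))) + r₁ = y + 3 ^ m * (i' : ℤ) := by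
      rw [hy, e3]; push_cast; ring
    rw [h4]
    linarith
  refine (sum_le_sum key).trans (le_of_eq ?_)
  rw [sum_const, card_range, nsmul_eq_mul]; push_cast; ring

theorem pow_tN {τ : ℝ} (hτ : 0 < τ) {N : ℕ} (hN : 1 ≤ N) : (2 : ℝ) ^ (1 / τ * (tN τ N : ℝ)) ≤ N := by
  have hN0 : (0 : ℝ) < N := by exact_mod_cast hN
  have hlog : 0 ≤ Real.logb 2 (N : ℝ) := Real.logb_nonneg (by norm_num) (by exact_mod_cast hN)
  have h1 : (tN τ N : ℝ) ≤ τ * Real.logb 2 N := Nat.floor_le (mul_nonneg hτ.le hlog)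
  calc (2 : ℝ) ^ (1 / τ * (tN τ N : ℝ)) ≤ 2 ^ (Real.logb 2 N) := by
        apply Real.rpow_le_rpow_of_exponent_le (by norm_num)
        rw [one_div, inv_mul_le_iff₀ hτ]; exact h1
    _ = N := Real.rpow_logb (by norm_num) (by norm_num) hN0

theorem succ_pow {z e : ℕ} (hz : 40 ≤ z) (he : e ≤ 20) : (z + 1) ^ e ≤ 2 * z ^ e := by
  have h1 : 40 * (z + 1) ≤ 41 * z := by omega
  have h2 := Nat.pow_le_pow_left h1 e
  rw [mul_pow, mul_pow] at h2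
  have h3 : (41 : ℕ) ^ e ≤ 2 * 40 ^ e := by interval_cases e <;> norm_num
  have h4 : 40 ^ e * (z + 1) ^ e ≤ 40 ^ e * (2 * z ^ e) := by
    calc 40 ^ e * (z + 1) ^ e ≤ 41 ^ e * z ^ e := h2
      _ ≤ (2 * 40 ^ e) * z ^ e := Nat.mul_le_mul_right _ h3
      _ = 40 ^ e * (2 * z ^ e) := by ring
  exact Nat.le_of_mul_le_mul_left h4 (by positivity)

theorem rpow_z {t z e : ℕ} (hr2 : t < (z + 1) ^ 20) (hz : 40 ≤ z) (he : e ≤ 20) : (t : ℝ) ^ ((e : ℝ) / 20) ≤ 2 * (z : ℝ) ^ e := by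
  have h1 : (t : ℝ) ≤ ((z : ℝ) + 1) ^ 20 := by
    have h0 : ((t : ℕ) : ℝ) ≤ (((z + 1) ^ 20 : ℕ) : ℝ) := Nat.cast_le.2 hr2.le
    rwa [Nat.cast_pow, Nat.cast_add, Nat.cast_one] at h0
  clear hr2
  have h2 : (t : ℝ) ^ ((e : ℝ) / 20) ≤ (((z : ℝ) + 1) ^ 20) ^ ((e : ℝ) / 20) :=
    Real.rpow_le_rpow (by positivity) h1 (by positivity)
  have h3 : (((z : ℝ) + 1) ^ 20) ^ ((e : ℝ) / 20) = ((z : ℝ) + 1) ^ e := by
    have hb : (0 : ℝ) ≤ (z : ℝ) + 1 := by positivity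
    generalize (z : ℝ) + 1 = y at *
    calc (y ^ 20) ^ ((e : ℝ) / 20) = (y ^ ((20 : ℕ) : ℝ)) ^ ((e : ℝ) / 20) := by rw [Real.rpow_natCast]
      _ = y ^ (((20 : ℕ) : ℝ) * ((e : ℝ) / 20)) := (Real.rpow_mul hb _ _).symm
      _ = y ^ (e : ℝ) := by congr 1; push_cast; ring
      _ = y ^ e := Real.rpow_natCast _ _
  rw [h3] at h2
  refine h2.trans ?_
  have h4 : (((z + 1) ^ e : ℕ) : ℝ) ≤ ((2 * z ^ e : ℕ) : ℝ) := Nat.cast_le.2 (succ_pow hz he)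
  rw [Nat.cast_pow, Nat.cast_add, Nat.cast_one, Nat.cast_mul, Nat.cast_pow] at h4
  exact h4

theorem exp_z {t z : ℕ} (hr2 : t < (z + 1) ^ 20) (hz : 40 ≤ z) {r : ℤ} (hr : |(r : ℝ)| ≤ Real.exp ((t : ℝ) ^ (7 / 10 : ℝ))) :
    |r| ≤ 4 ^ (2 * z ^ 14) := by
  have h1 := rpow_z (e := 14) hr2 hz (by norm_num)
  have e1 : (((14 : ℕ) : ℝ) / 20) = 7 / 10 := by norm_num
  rw [e1] at h1
  have h2 : |(r : ℝ)| ≤ 4 ^ (2 * z ^ 14) := by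
    calc |(r : ℝ)| ≤ Real.exp ((t : ℝ) ^ (7 / 10 : ℝ)) := hr
      _ ≤ Real.exp (((2 * z ^ 14 : ℕ) : ℝ)) := by
          apply Real.exp_le_exp.2; push_cast; exact h1
      _ = Real.exp 1 ^ (2 * z ^ 14) := by rw [← Real.exp_nat_mul, mul_one]
      _ ≤ 4 ^ (2 * z ^ 14) := by
          apply pow_le_pow_left₀ (Real.exp_pos 1).le
          have := Real.exp_one_lt_d9
          linarith
  exact_mod_cast h2

theorem poly19 {δ : ℝ} (hδ : 0 < δ) : ∀ᶠ z : ℕ in atTop, 2 * (z : ℝ) ^ 19 + 2 ≤ δ * (z : ℝ) ^ 20 := by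
  filter_upwards [eventually_ge_atTop 1, eventually_ge_atTop ⌈4 / δ⌉₊] with z h1 h2
  have hz1 : (1 : ℝ) ≤ z := by exact_mod_cast h1
  have h3 : 4 / δ ≤ z := (Nat.le_ceil _).trans (by exact_mod_cast h2)
  rw [div_le_iff₀ hδ] at h3
  have h12 : (1 : ℝ) ≤ (z : ℝ) ^ 19 := one_le_pow₀ hz1
  have h5 : 4 * (z : ℝ) ^ 19 ≤ (z * δ) * (z : ℝ) ^ 19 := mul_le_mul_of_nonneg_right h3 (by positivity)
  have h6 : (z * δ) * (z : ℝ) ^ 19 = δ * (z : ℝ) ^ 20 := by ring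
  linarith

theorem gs_pair {z a b i : ℕ} (hz40 : 40 ≤ z) (hi : i = b - a) {r s ρ : ℤ} (hρ : ρ = s - 3 ^ i * r)
    (hb : b ≤ 2 * z ^ 12) (hr : |r| ≤ 4 ^ (2 * z ^ 14)) (hs : |s| ≤ 4 ^ (2 * z ^ 14)) :
    GS (5 * z ^ 12) (5 * z ^ 14) ((i : ℤ), ρ) := by
  have hz0 : (1 : ℕ) ≤ z ^ 12 := Nat.one_le_pow _ _ (by omega)
  have hz14 : z ^ 12 ≤ z ^ 14 := Nat.pow_le_pow_right (by omega) (by norm_num)
  generalize z ^ 12 = A at *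
  generalize z ^ 14 = B at *
  constructor
  · simp only
    rw [abs_of_nonneg (by positivity)]
    have : i ≤ 5 * A := by omega
    exact_mod_cast this
  · simp only
    have h1 : (3 : ℤ) ^ i ≤ 4 ^ (2 * A) := by
      calc (3 : ℤ) ^ i ≤ 4 ^ i := pow_le_pow_left₀ (by norm_num) (by norm_num) i
        _ ≤ 4 ^ (2 * A) := pow_le_pow_right₀ (by norm_num) (by omega)
    have h2 : |ρ| ≤ |s| + 3 ^ i * |r| := by
      rw [hρ]
      refine (abs_sub _ _).trans ?_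
      rw [abs_mul, abs_of_pos (by positivity : (0 : ℤ) < 3 ^ i)]
    have h3 : 3 ^ i * |r| ≤ 4 ^ (2 * A) * 4 ^ (2 * B) := mul_le_mul h1 hr (abs_nonneg _) (by positivity)
    rw [← pow_add] at h3
    have h4 : (4 : ℤ) ^ (2 * B) ≤ 4 ^ (2 * A + 2 * B) := pow_le_pow_right₀ (by norm_num) (by omega)
    have h5 : (4 : ℤ) * 4 ^ (2 * A + 2 * B) ≤ 4 ^ (5 * B) := by
      rw [← pow_succ']
      exact pow_le_pow_right₀ (by norm_num) (by omega)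
    have h6 : (0 : ℤ) < 4 ^ (2 * A + 2 * B) := by positivity
    linarith

theorem sizes {κ δ ε : ℝ} (hκ : 1 / 5 < κ) (hδ : 0 < δ) (hε : 0 < ε) {t m N a Q Z : ℕ}
    (hpoly : 2 * (m : ℝ) + 2 ≤ δ * t) (hC : 64 / ε ≤ (2 : ℝ) ^ (κ * t))
    (hN : (2 : ℝ) ^ ((κ + δ) * t) ≤ N) (hQ : Q = 3 ^ (m - a)) (hZ : Z = N / Q) :
    16 * (Q : ℝ) ≤ ε * N ∧ Q * Z ≤ N ∧ N < Q * Z + Q ∧ (2 : ℝ) ^ (κ * (t : ℝ)) ≤ Z ∧ 2 ^ (t / 8) ≤ Z := by
  have htr : (0 : ℝ) ≤ t := by positivity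
  have hQ0 : 0 < Q := by rw [hQ]; positivity
  have h4m : (4 : ℝ) ^ m * 4 ≤ 2 ^ (δ * t) := by
    have e1 : (4 : ℝ) ^ m * 4 = 2 ^ (2 * (m : ℝ) + 2) := by
      rw [Real.rpow_add (by norm_num), Real.rpow_mul (by norm_num)]
      norm_num
    rw [e1]
    exact Real.rpow_le_rpow_of_exponent_le (by norm_num) hpoly
  have hQ4 : (Q : ℝ) ≤ 4 ^ m := by
    rw [hQ]; push_cast
    calc (3 : ℝ) ^ (m - a) ≤ 4 ^ (m - a) := pow_le_pow_left₀ (by norm_num) (by norm_num) _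
      _ ≤ 4 ^ m := pow_le_pow_right₀ (by norm_num) (by omega)
  have hκt : (1 : ℝ) ≤ 2 ^ (κ * (t : ℝ)) := Real.one_le_rpow (by norm_num) (by positivity)
  have hN1 : (2 : ℝ) ^ (κ * (t : ℝ)) * (4 ^ m * 4) ≤ N := by
    refine le_trans ?_ hN
    rw [add_mul, Real.rpow_add (by norm_num)]
    exact mul_le_mul_of_nonneg_left h4m (by positivity)
  have h4m0 : (0 : ℝ) < 4 ^ m := by positivity
  have hQN : (Q : ℝ) * 4 ≤ N := by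
    calc (Q : ℝ) * 4 ≤ 4 ^ m * 4 := by linarith
      _ = 1 * (4 ^ m * 4) := by ring
      _ ≤ (2 : ℝ) ^ (κ * (t : ℝ)) * (4 ^ m * 4) := mul_le_mul_of_nonneg_right hκt (by positivity)
      _ ≤ N := hN1
  have hQε : 16 * (Q : ℝ) ≤ ε * N := by
    have a1 : 64 / ε * (4 ^ m * 4) ≤ N := (mul_le_mul_of_nonneg_right hC (by positivity)).trans hN1
    have a2 : ε * (64 / ε * (4 ^ m * 4)) ≤ ε * N := mul_le_mul_of_nonneg_left a1 hε.le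
    have a3 : ε * (64 / ε * (4 ^ m * 4)) = 256 * (4 : ℝ) ^ m := by field_simp; norm_num
    linarith
  have hQZ : Q * Z ≤ N := by rw [hZ]; exact Nat.mul_div_le N Q
  have hNQ : N < Q * Z + Q := by
    have := Nat.lt_div_mul_add (a := N) (b := Q) hQ0
    rw [mul_comm, ← hZ] at this
    exact this
  have hNQr : (N : ℝ) ≤ Q * Z + Q := by exact_mod_cast hNQ.le
  have hNZ : (N : ℝ) ≤ 2 * (Q * Z) := by linarith
  have hZ1 : (2 : ℝ) ^ (κ * (t : ℝ)) ≤ Z := by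
    have a1 : (2 : ℝ) ^ (κ * (t : ℝ)) * (4 ^ m * 4) ≤ 2 * (4 ^ m * Z) := by
      refine hN1.trans (hNZ.trans ?_)
      have : (Q : ℝ) * Z ≤ 4 ^ m * Z := mul_le_mul_of_nonneg_right hQ4 (by positivity)
      linarith
    have a2 : 4 ^ m * (2 ^ (κ * (t : ℝ)) * 4) ≤ 4 ^ m * (2 * (Z : ℝ)) := by linarith
    have a3 := le_of_mul_le_mul_left a2 h4m0
    linarith
  refine ⟨hQε, hQZ, hNQ, hZ1, ?_⟩
  have a1 : (2 : ℝ) ^ (t / 8) ≤ Z := by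
    refine le_trans ?_ hZ1
    rw [← Real.rpow_natCast]
    apply Real.rpow_le_rpow_of_exponent_le (by norm_num)
    have a2 : (((t / 8 : ℕ)) : ℝ) ≤ t / 8 := Nat.cast_div_le
    have : 1 / 5 * (t : ℝ) ≤ κ * t := mul_le_mul_of_nonneg_right hκ.le htr
    linarith
  exact_mod_cast a1

theorem combine {f : ℕ → ℝ} (h0 : ∀ v, 0 ≤ f v) (h1 : ∀ v, f v ≤ 1) {N B : ℕ} {Q ε P G : ℝ} (hBN : B ≤ N)
    (hNB : (N : ℝ) ≤ B + Q) (n0 : 0 ≤ P) (n1 : P ≤ 1) (hPG : |P - G| ≤ ε / 4)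
    (key : |∑ v ∈ range B, f v - B * (1 - P)| ≤ (3 * ε / 16) * N) (hQ : 16 * Q ≤ ε * N) :
    |∑ v ∈ range N, f v - N * (1 - G)| ≤ ε * N := by
  have hBr : (B : ℝ) ≤ N := by exact_mod_cast hBN
  have e4 : ∑ v ∈ range N, f v = ∑ v ∈ range B, f v + ∑ v ∈ range (N - B), f (B + v) := by
    rw [← sum_range_add]
    congr 2
    omega
  have b1 : 0 ≤ ∑ v ∈ range (N - B), f (B + v) := sum_nonneg fun _ _ => h0 _
  have b2 : ∑ v ∈ range (N - B), f (B + v) ≤ Q := by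
    have a1 : ∑ v ∈ range (N - B), f (B + v) ≤ ∑ v ∈ range (N - B), (1 : ℝ) := sum_le_sum fun _ _ => h1 _
    rw [sum_const, card_range, nsmul_eq_mul, mul_one, Nat.cast_sub hBN] at a1
    linarith
  have k3 : |(B : ℝ) * (1 - P) - N * (1 - P)| ≤ Q := by
    rw [← sub_mul, abs_mul, abs_of_nonneg (show 0 ≤ 1 - P by linarith), abs_sub_comm, abs_of_nonneg (by linarith)]
    calc ((N : ℝ) - B) * (1 - P) ≤ ((N : ℝ) - B) * 1 := mul_le_mul_of_nonneg_left (by linarith) (by linarith)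
      _ ≤ Q := by linarith
  have k4 : |(N : ℝ) * (1 - P) - N * (1 - G)| ≤ N * (ε / 4) := by
    rw [← mul_sub, abs_mul, abs_of_nonneg (by positivity : (0 : ℝ) ≤ N)]
    apply mul_le_mul_of_nonneg_left _ (by positivity)
    rw [show (1 - P) - (1 - G) = -(P - G) by ring, abs_neg]
    exact hPG
  have e5 : (N : ℝ) * (ε / 4) = (ε * N) * (1 / 4) := by ring
  have e6 : (3 * ε / 16) * (N : ℝ) = (ε * N) * (3 / 16) := by ring
  have e7 : 0 ≤ ε * (N : ℝ) := by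
    have := abs_nonneg (P - G)
    have : 0 ≤ ε := by linarith
    positivity
  rw [e5] at k4
  rw [e6] at key
  rw [e4]
  rw [abs_le] at key k3 k4 ⊢
  constructor <;> linarith [key.1, key.2, k3.1, k3.2, k4.1, k4.2]

/-- the law for fixed parameters -/
theorem pairs_fixed {κ δ ε : ℝ} (hκ : 1 / 5 < κ) (hδ : 0 < δ) (hε : 0 < ε) {t z N : ℕ}
    (hr1 : z ^ 20 ≤ t) (hz40 : 40 ≤ z)
    (hTA : TA t (5 * z ^ 12) (5 * z ^ 14) ((2 : ℝ) ^ (κ * t)) (ε / 8))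
    (heta : ∀ r : ℤ, |r| ≤ 4 ^ (z ^ 19 + 1 + (2 * 1 + 4) * z ^ 12) → ns (t / 8) (0, r) ≤ ε / 64)
    (hpoly : 2 * (z : ℝ) ^ 19 + 2 ≤ δ * (z : ℝ) ^ 20) (hC : 64 / ε ≤ (2 : ℝ) ^ (κ * t))
    (hN : (2 : ℝ) ^ ((κ + δ) * t) ≤ N) (hp : ∀ (i : ℕ) (r : ℤ), GS (5 * z ^ 12) (5 * z ^ 14) ((i : ℤ), r) →
      |ns t ((i : ℤ), r) - U (t / 2) i| ≤ ε / 8)
    (hU : ∀ d : ℕ, d ≤ t → |U (t / 2) d - Erf (d / √ t)| ≤ ε / 8) (x : ℤ) {a b : ℕ} (hab : a ≤ b) {r s : ℤ}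
    (hb : b ≤ 2 * z ^ 12) (hr : |r| ≤ 4 ^ (2 * z ^ 14)) (hs : |s| ≤ 4 ^ (2 * z ^ 14)) :
    |∑ v ∈ range N, id1 (T^[t] (3 ^ a * (x + (v : ℕ)) + r) = T^[t] (3 ^ b * (x + (v : ℕ)) + s)) -
      N * (1 - Erf (((b - a : ℕ) : ℝ) / √ t))| ≤ ε * N := by
  obtain ⟨i, hi⟩ : ∃ i, i = b - a := ⟨_, rfl⟩
  obtain ⟨ρ, hρ⟩ : ∃ ρ : ℤ, ρ = s - 3 ^ i * r := ⟨_, rfl⟩
  have hGS := gs_pair hz40 hi hρ hb hr hs
  have hz0 : (1 : ℕ) ≤ z ^ 12 := Nat.one_le_pow _ _ (by omega)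
  have hz14 : z ^ 12 ≤ z ^ 14 := Nat.pow_le_pow_right (by omega) (by norm_num)
  have hz19 : 6 * z ^ 14 ≤ z ^ 19 := by
    calc 6 * z ^ 14 ≤ z * z ^ 14 := Nat.mul_le_mul_right _ (by omega)
      _ = z ^ 15 := by ring
      _ ≤ z ^ 19 := Nat.pow_le_pow_right (by omega) (by norm_num)
  have hz20 : 2 * z ^ 12 ≤ z ^ 20 := by
    calc 2 * z ^ 12 ≤ z * z ^ 12 := Nat.mul_le_mul_right _ (by omega)
      _ = z ^ 13 := by ring
      _ ≤ z ^ 20 := Nat.pow_le_pow_right (by omega) (by norm_num)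
  have hit : i ≤ t := by omega
  have hpoly' : 2 * (((z ^ 19 : ℕ)) : ℝ) + 2 ≤ δ * t := by
    push_cast
    refine hpoly.trans ?_
    apply mul_le_mul_of_nonneg_left _ hδ.le
    have : (((z ^ 20 : ℕ)) : ℝ) ≤ t := Nat.cast_le.2 hr1
    rwa [Nat.cast_pow] at this
  obtain ⟨m, hm⟩ : ∃ m, m = z ^ 19 := ⟨_, rfl⟩
  rw [← hm] at hpoly' heta hz19
  have ham : a ≤ m := by omega
  obtain ⟨Q, hQ⟩ : ∃ Q, Q = 3 ^ (m - a) := ⟨_, rfl⟩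
  obtain ⟨Z, hZ⟩ : ∃ Z, Z = N / Q := ⟨_, rfl⟩
  obtain ⟨s1, s2, s3, s4, s5⟩ := sizes hκ hδ hε hpoly' hC hN hQ hZ
  have hp1 := hp i ρ hGS
  have hU1 := hU i hit
  have key := sum_ap (a := 5 * z ^ 12) (b := 5 * z ^ 14) (k := t / 8) (m := m) (a₀ := a) hTA (by omega) hGS (by omega)
    (by omega) ham r x s5 (by
      refine s4.trans ?_
      have : Z ≤ 3 ^ m * Z := Nat.le_mul_of_pos_left _ (by positivity)
      exact_mod_cast this) (η := ε / 64) (by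
      intro r' hr'
      apply heta
      refine hr'.trans ?_
      apply pow_le_pow_right₀ (by norm_num)
      omega)
  have e2 : ∀ v : ℕ, gP t ((i : ℤ), ρ) (3 ^ a * (x + (v : ℕ)) + r) =
      id1 (T^[t] (3 ^ a * (x + (v : ℕ)) + r) = T^[t] (3 ^ b * (x + (v : ℕ)) + s)) := by
    intro v
    rw [gP_rel t (rel_nat i ρ _)]
    congr 3
    have e3 : (3 : ℤ) ^ b = 3 ^ i * 3 ^ a := by rw [← pow_add]; congr 1; omega
    rw [e3, hρ]; ring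
  simp only [e2] at key
  rw [← hi]
  have hPG : |ns t ((i : ℤ), ρ) - Erf ((i : ℝ) / √ t)| ≤ ε / 4 := by
    have := abs_sub_le (ns t ((i : ℤ), ρ)) (U (t / 2) i) (Erf ((i : ℝ) / √ t))
    linarith
  have hQe : (3 : ℝ) ^ (m - a) = Q := by rw [hQ]; push_cast; rfl
  rw [← hQ, hQe] at key
  have s2r : ((Q * Z : ℕ) : ℝ) ≤ N := Nat.cast_le.2 s2
  have s3r : (N : ℝ) ≤ ((Q * Z : ℕ) : ℝ) + Q := by
    have : ((N : ℕ) : ℝ) ≤ ((Q * Z + Q : ℕ) : ℝ) := Nat.cast_le.2 s3.le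
    rwa [Nat.cast_add] at this
  refine combine (f := fun v : ℕ => id1 (T^[t] (3 ^ a * (x + (v : ℕ)) + r) = T^[t] (3 ^ b * (x + (v : ℕ)) + s)))
    (fun _ => id1_nonneg _) (fun _ => id1_le_one _) s2 s3r (ns_nonneg _ _) (ns_le_one _ _) hPG ?_ s1
  rw [Nat.cast_mul]
  refine key.trans ?_
  have e5 : (Q : ℝ) * ((4 * (ε / 64) + ε / 8) * Z) = (3 * ε / 16) * ((Q * Z : ℕ) : ℝ) := by push_cast; ring
  rw [e5]
  exact mul_le_mul_of_nonneg_left s2r (by positivity)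

end Pool.Agent.J4H39
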