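import Mathlib
import Pool.Agent.J4H39.L4
import Pool.Agent.J4H39.V4

set_option autoImplicit false

namespace Pool.Agent.J4H39

open Finset Filter Topology

/-! The law for pairs of linear forms, asymptotic statement. -/

theorem ns_U {ε c' : ℝ} (hc' : 0 < c') {t₂ : ℕ} (ht₂ : ∀ t : ℕ, t₂ ≤ t → ∀ (D : ℤ) (u : ℕ),
    |(D : ℝ)| ≤ c' * t → (u : ℝ) ≤ c' * t → ∀ r : ℤ, |r| ≤ 4 ^ u → |ns t (D, r) - U (t / 2) D| ≤ ε) {t z c : ℕ}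
    (h2 : t₂ ≤ t) (hzt : (z : ℝ) ^ 20 ≤ t) (hz1 : (1 : ℝ) ≤ z) (hzc : (c : ℝ) ≤ z * c') (D : ℤ) (r : ℤ)
    (hs : GS (c * z ^ 12) (c * z ^ 14) (D, r)) : |ns t (D, r) - U (t / 2) D| ≤ ε := by
  have q14 : (c : ℝ) * (z : ℝ) ^ 14 ≤ c' * t := by
    calc (c : ℝ) * (z : ℝ) ^ 14 ≤ (z * c') * (z : ℝ) ^ 14 := mul_le_mul_of_nonneg_right hzc (by positivity)
      _ = c' * (z : ℝ) ^ 15 := by ring
      _ ≤ c' * (z : ℝ) ^ 20 := mul_le_mul_of_nonneg_left (pow_le_pow_right₀ hz1 (by norm_num)) hc'.le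
      _ ≤ c' * t := mul_le_mul_of_nonneg_left hzt hc'.le
  have q12 : (c : ℝ) * (z : ℝ) ^ 12 ≤ c' * t := by
    refine le_trans ?_ q14
    exact mul_le_mul_of_nonneg_left (pow_le_pow_right₀ hz1 (by norm_num)) (by positivity)
  refine ht₂ t h2 D (c * z ^ 14) ?_ (by rw [Nat.cast_mul, Nat.cast_pow]; exact q14) r hs.2
  have a1 := hs.1
  simp only at a1
  have a2 : |(D : ℝ)| ≤ ((c * z ^ 12 : ℕ) : ℝ) := by exact_mod_cast a1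
  refine a2.trans ?_
  rw [Nat.cast_mul, Nat.cast_pow]
  exact q12

theorem pairs_law {τ : ℝ} (hτ : 0 < τ) (hτ1 : τ * th0 < 1) {ε : ℝ} (hε : 0 < ε) :
    ∀ᶠ N : ℕ in atTop, ∀ (x : ℤ) (a b : ℕ), a ≤ b → (b : ℝ) ≤ (tN τ N : ℝ) ^ (3 / 5 : ℝ) → ∀ r s : ℤ,
      |(r : ℝ)| ≤ Real.exp ((tN τ N : ℝ) ^ (7 / 10 : ℝ)) → |(s : ℝ)| ≤ Real.exp ((tN τ N : ℝ) ^ (7 / 10 : ℝ)) →
      |∑ v ∈ range N, id1 (T^[tN τ N] (3 ^ a * (x + (v : ℕ)) + r) = T^[tN τ N] (3 ^ b * (x + (v : ℕ)) + s)) -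
        N * (1 - Erf (((b - a : ℕ) : ℝ) / √ (tN τ N : ℕ)))| ≤ ε * N := by
  have hth := th0_gt
  have h1τ : th0 < 1 / τ := by rw [lt_div_iff₀ hτ]; linarith
  obtain ⟨κ, hκ⟩ : ∃ κ, κ = (1 / τ + th0) / 2 := ⟨_, rfl⟩
  obtain ⟨δ, hδ⟩ : ∃ δ, δ = (1 / τ - th0) / 2 := ⟨_, rfl⟩
  have hκ0 : th0 < κ := by rw [hκ]; linarith
  have hδ0 : 0 < δ := by rw [hδ]; linarith
  have hκδ : κ + δ = 1 / τ := by rw [hκ, hδ]; ring
  obtain ⟨t₁, ht₁⟩ := TT_all hκ0 (ε / 8) (by positivity) 5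
  obtain ⟨c', hc', t₂, ht₂⟩ := ns_law (show 0 < ε / 8 by positivity)
  obtain ⟨t₃, ht₃⟩ := U_erf_half (show 0 < ε / 8 by positivity)
  obtain ⟨z₀, hz₀⟩ := eventually_atTop.1 (((eta_small 1 (ε := ε / 64) (by positivity)).and (poly19 hδ0)).and
    ((eventually_ge_atTop 40).and (eventually_ge_atTop ⌈5 / c'⌉₊)))
  obtain ⟨t₄, ht₄⟩ := eventually_atTop.1 (exp_beats (64 / ε) (show 0 < κ by linarith))
  have hlim := tN_tendsto hτ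
  filter_upwards [hlim.eventually_ge_atTop t₁, hlim.eventually_ge_atTop t₂, hlim.eventually_ge_atTop t₃,
    hlim.eventually_ge_atTop t₄, hlim.eventually_ge_atTop (z₀ ^ 20), eventually_ge_atTop 1] with N h1 h2 h3 h4 h5 h6
  intro x a b hab hb r s hr hs
  have hN := pow_tN hτ h6
  generalize tN τ N = t at hN h1 h2 h3 h4 h5 hb hr hs ⊢
  obtain ⟨z, hr1, hr2⟩ := root20 t
  have hz : z₀ ≤ z := by
    by_contra hcon
    have h7 : (z + 1) ^ 20 ≤ z₀ ^ 20 := Nat.pow_le_pow_left (by omega) 20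
    exact absurd (hr2.trans_le h7) (not_lt.2 h5)
  obtain ⟨⟨e1, e2⟩, e3, e4⟩ := hz₀ z hz
  have hb2 : b ≤ 2 * z ^ 12 := by
    have a1 := rpow_z (e := 12) hr2 e3 (by norm_num)
    have a2 : (((12 : ℕ) : ℝ) / 20) = 3 / 5 := by norm_num
    rw [a2] at a1
    have a3 : (b : ℝ) ≤ ((2 * z ^ 12 : ℕ) : ℝ) := by rw [Nat.cast_mul, Nat.cast_pow]; exact hb.trans a1
    exact Nat.cast_le.1 a3
  have hr' := exp_z hr2 e3 hr
  have hs' := exp_z hr2 e3 hs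
  have ht2 : t ≤ 2 * z ^ 20 := hr2.le.trans (succ20 e3)
  have hp : ∀ (i : ℕ) (r : ℤ), GS (5 * z ^ 12) (5 * z ^ 14) ((i : ℤ), r) → |ns t ((i : ℤ), r) - U (t / 2) i| ≤ ε / 8 := by
    intro i r hs
    have hzc : 5 / c' ≤ z := (Nat.le_ceil _).trans (Nat.cast_le.2 e4)
    rw [div_le_iff₀ hc'] at hzc
    have hz1 : (1 : ℝ) ≤ z := by
      have : (1 : ℕ) ≤ z := by omega
      exact_mod_cast this
    have hzt : (z : ℝ) ^ 20 ≤ t := by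
      have : (((z ^ 20 : ℕ)) : ℝ) ≤ t := Nat.cast_le.2 hr1
      rwa [Nat.cast_pow] at this
    exact ns_U hc' ht₂ h2 hzt hz1 (by push_cast; exact hzc) i r hs
  have hTA := ht₁ t h1 z hr1
  have heta := e1 t hr1 ht2
  rw [← hκδ] at hN
  have hκ5 : 1 / 5 < κ := by clear hr2 hr1 h5; linarith
  exact pairs_fixed hκ5 hδ0 hε hr1 e3 hTA heta e2 (ht₄ t h4) hN hp (fun d hd => ht₃ t h3 d hd) x hab hb2 hr' hs'

end Pool.Agent.J4H39
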