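import Mathlib
import Pool.Agent.J4H39.E12

set_option autoImplicit false

namespace Pool.Agent.J4H39

open Finset Filter Real

/-! Transfer for one trajectory. -/

/-- mean over an interval -/
noncomputable def mn (a : ℤ) (b : ℕ) (f : ℤ → ℝ) : ℝ := (∑ v ∈ range b, f (a + (v : ℕ))) / b

theorem mn_nonneg {a : ℤ} {b : ℕ} {f : ℤ → ℝ} (h : ∀ z, 0 ≤ f z) : 0 ≤ mn a b f :=
  div_nonneg (sum_nonneg fun _ _ => h _) (by positivity)

theorem mn_le_one {a : ℤ} {b : ℕ} {f : ℤ → ℝ} (h : ∀ z, f z ≤ 1) : mn a b f ≤ 1 := by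
  unfold mn
  rcases Nat.eq_zero_or_pos b with h0 | h0
  · subst h0; simp
  · have hb : (0 : ℝ) < b := by exact_mod_cast h0
    rw [div_le_one hb]
    have : ∑ v ∈ range b, f (a + (v : ℕ)) ≤ ∑ v ∈ range b, (1 : ℝ) := sum_le_sum fun _ _ => h _
    rwa [sum_const, card_range, nsmul_eq_mul, mul_one] at this

theorem mn_congr {a : ℤ} {b : ℕ} {f g : ℤ → ℝ} (h : ∀ z, f z = g z) : mn a b f = mn a b g := by
  unfold mn
  congr 1
  exact sum_congr rfl fun _ _ => h _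

/-- invariance under quick merging -/
def Inv (k : ℕ) (Φ : ℕ → ℤ → ℝ) : Prop := ∀ (o : ℕ) (z h : ℤ), rn stP k (0, h) z = (0, 0) → Φ o (z + h) = Φ o z

theorem Inv.mono {k k' : ℕ} (h : k ≤ k') {Φ : ℕ → ℤ → ℝ} (hI : Inv k' Φ) : Inv k Φ :=
  fun o z r hr => hI o z r (rn_zero_of_le h hr)

/-- the observable `j` steps before -/
def bk (j : ℕ) (Φ : ℕ → ℤ → ℝ) : ℕ → ℤ → ℝ := fun o z => Φ (o + od j z) (T^[j] z)

theorem Inv_bk {k j : ℕ} (h : k ≤ j) (Φ : ℕ → ℤ → ℝ) : Inv k (bk j Φ) := by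
  intro o z r hr
  obtain ⟨h1, h2⟩ := merge_of_rn (rel_zero r z) (rn_zero_of_le h hr)
  unfold bk
  simp only at h2
  have h3 : od j (z + r) = od j z := by omega
  rw [← h1, h3]

theorem bk_bk (i j : ℕ) (Φ : ℕ → ℤ → ℝ) : bk i (bk j Φ) = bk (i + j) Φ := by
  funext o z
  unfold bk
  rw [od_comp, add_comm i j, Function.iterate_add_apply, add_assoc]

/-- the class estimate for one trajectory -/
theorem class_one {k m Y o : ℕ} {η : ℝ} {Φ : ℕ → ℤ → ℝ} (hI : Inv k Φ) (h0 : ∀ o z, 0 ≤ Φ o z) (h1 : ∀ o z, Φ o z ≤ 1)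
    (hη : ∀ r : ℤ, |r| ≤ 4 ^ m → ns k (0, r) ≤ η) (hm : m ≤ o) (hZ : 2 ^ k ≤ 3 ^ (o - m) * Y) (o' : ℕ) (v₀ : ℤ)
    {c : ℤ} (hc0 : 0 ≤ c) (hc1 : c < 3 ^ m) :
    |∑ i ∈ range (3 ^ (o - m) * Y), Φ o' (c + 3 ^ m * (3 ^ (o - m) * v₀ + ((i : ℕ) : ℤ))) -
      ((3 ^ (o - m) * Y : ℕ) : ℝ) * mn (3 ^ o * v₀) (3 ^ o * Y) (Φ o')| ≤
      2 * η * ((3 ^ (o - m) * Y : ℕ) : ℝ) := by
  set Z := 3 ^ (o - m) * Y with hZd
  have h2k : 1 ≤ 2 ^ k := Nat.one_le_pow _ _ (by norm_num)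
  have hZ1 : 1 ≤ Z := h2k.trans hZ
  have hZ0 : (0 : ℝ) < Z := by exact_mod_cast hZ1
  have e3 : 3 ^ o * Y = 3 ^ m * Z := by rw [hZd, ← mul_assoc, ← pow_add]; congr 2; omega
  have e3z : (3 : ℤ) ^ o = 3 ^ m * 3 ^ (o - m) := by rw [← pow_add]; congr 1; omega
  have h3m : (0 : ℝ) < 3 ^ m := by positivity
  -- the sum over the classes
  have hsum : ((3 ^ o * Y : ℕ) : ℝ) * mn (3 ^ o * v₀) (3 ^ o * Y) (Φ o') =
      ∑ e ∈ range (3 ^ m), ∑ i ∈ range Z, Φ o' ((e : ℤ) + 3 ^ m * (3 ^ (o - m) * v₀ + ((i : ℕ) : ℤ))) := by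
    unfold mn
    have hne : ((3 ^ o * Y : ℕ) : ℝ) ≠ 0 := by
      rw [e3]; push_cast; positivity
    rw [mul_div_cancel₀ _ hne, e3, sum_block, sum_comm]
    apply sum_congr rfl
    intro e _
    apply sum_congr rfl
    intro i _
    congr 1
    rw [e3z]; push_cast; ring
  have key : ∀ e ∈ range (3 ^ m), |∑ i ∈ range Z, Φ o' ((e : ℤ) + 3 ^ m * (3 ^ (o - m) * v₀ + ((i : ℕ) : ℤ))) -
      ∑ i ∈ range Z, Φ o' (c + 3 ^ m * (3 ^ (o - m) * v₀ + ((i : ℕ) : ℤ)))| ≤ 2 * η * Z := by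
    intro e he
    rw [mem_range] at he
    rw [← sum_sub_distrib]
    refine (abs_sum_le_sum_abs _ _).trans ?_
    have h5 : ∀ i ∈ range Z, |Φ o' ((e : ℤ) + 3 ^ m * (3 ^ (o - m) * v₀ + ((i : ℕ) : ℤ))) -
        Φ o' (c + 3 ^ m * (3 ^ (o - m) * v₀ + ((i : ℕ) : ℤ)))| ≤
        id1 (rn stP k (0, (e : ℤ) - c) (3 ^ m * ((i : ℕ) : ℤ) + (c + 3 ^ m * (3 ^ (o - m) * v₀))) ≠ (0, 0)) := by
      intro i _
      by_cases h6 : rn stP k (0, (e : ℤ) - c) (3 ^ m * ((i : ℕ) : ℤ) + (c + 3 ^ m * (3 ^ (o - m) * v₀))) = (0, 0)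
      · have h7 := hI o' _ _ h6
        have e7 : 3 ^ m * ((i : ℕ) : ℤ) + (c + 3 ^ m * (3 ^ (o - m) * v₀)) + ((e : ℤ) - c) =
            (e : ℤ) + 3 ^ m * (3 ^ (o - m) * v₀ + ((i : ℕ) : ℤ)) := by ring
        have e8 : 3 ^ m * ((i : ℕ) : ℤ) + (c + 3 ^ m * (3 ^ (o - m) * v₀)) =
            c + 3 ^ m * (3 ^ (o - m) * v₀ + ((i : ℕ) : ℤ)) := by ring
        rw [e7, e8] at h7
        rw [h7, sub_self, abs_zero]
        exact id1_nonneg _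
      · rw [id1_pos (show rn stP k (0, (e : ℤ) - c) (3 ^ m * ((i : ℕ) : ℤ) + (c + 3 ^ m * (3 ^ (o - m) * v₀))) ≠ (0, 0) from h6)]
        have a0 := h0 o' ((e : ℤ) + 3 ^ m * (3 ^ (o - m) * v₀ + ((i : ℕ) : ℤ)))
        have a1 := h1 o' ((e : ℤ) + 3 ^ m * (3 ^ (o - m) * v₀ + ((i : ℕ) : ℤ)))
        have b0 := h0 o' (c + 3 ^ m * (3 ^ (o - m) * v₀ + ((i : ℕ) : ℤ)))
        have b1 := h1 o' (c + 3 ^ m * (3 ^ (o - m) * v₀ + ((i : ℕ) : ℤ)))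
        rw [abs_le]; constructor <;> linarith
    refine (sum_le_sum h5).trans ?_
    have h8 := cnt_aff (per_ns k (0, (e : ℤ) - c)) (pow3_odd m) (c + 3 ^ m * (3 ^ (o - m) * v₀)) Z
    refine h8.trans ?_
    have h9 : ns k (0, (e : ℤ) - c) ≤ η := by
      apply hη
      have a1 : (e : ℤ) < 3 ^ m := by exact_mod_cast he
      have a2 : (3 : ℤ) ^ m ≤ 4 ^ m := pow_le_pow_left₀ (by norm_num) (by norm_num) m
      rw [abs_le]; constructor <;> linarith [(Int.natCast_nonneg e)]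
    have h10 : ((Z : ℝ) + 2 ^ k) ≤ 2 * Z := by
      have : ((2 : ℝ) ^ k) ≤ Z := by exact_mod_cast hZ
      linarith
    have h11 := ns_nonneg k (0, (e : ℤ) - c)
    calc ((Z : ℝ) + 2 ^ k) * pb k (fun y => rn stP k (0, (e : ℤ) - c) y ≠ (0, 0)) ≤ (2 * Z) * η :=
          mul_le_mul h10 h9 h11 (by positivity)
      _ = 2 * η * Z := by ring
  set S := ∑ i ∈ range Z, Φ o' (c + 3 ^ m * (3 ^ (o - m) * v₀ + ((i : ℕ) : ℤ))) with hS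
  have h12 : |((3 ^ o * Y : ℕ) : ℝ) * mn (3 ^ o * v₀) (3 ^ o * Y) (Φ o') - 3 ^ m * S| ≤ 3 ^ m * (2 * η * Z) := by
    have e7 : (3 : ℝ) ^ m * S = ∑ e ∈ range (3 ^ m), S := by
      rw [sum_const, card_range, nsmul_eq_mul]; push_cast; ring
    rw [hsum, e7, ← sum_sub_distrib]
    refine (abs_sum_le_sum_abs _ _).trans ((sum_le_sum key).trans (le_of_eq ?_))
    rw [sum_const, card_range, nsmul_eq_mul]; push_cast; ring
  rw [e3] at h12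
  have e9 : ((3 ^ m * Z : ℕ) : ℝ) = 3 ^ m * (Z : ℝ) := by push_cast; ring
  rw [e9, mul_assoc, ← mul_sub, abs_mul, abs_of_pos h3m, abs_sub_comm] at h12
  have h13 := le_of_mul_le_mul_left h12 h3m
  rw [e3]
  exact h13

/-- One stage for one trajectory, aligned. -/
theorem stage_one {j k m o₀ : ℕ} {η : ℝ} {Φ : ℕ → ℤ → ℝ} (hI : Inv k Φ) (h0 : ∀ o z, 0 ≤ Φ o z) (h1 : ∀ o z, Φ o z ≤ 1)
    (hη : ∀ r : ℤ, |r| ≤ 4 ^ m → ns k (0, r) ≤ η) (hmk : m + k ≤ o₀) (o' : ℕ) (v₀ : ℤ) {Y : ℕ} (hY : 1 ≤ Y) :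
    |(∑ u ∈ range (2 ^ j * Y), bk j Φ o' (2 ^ j * v₀ + (u : ℕ))) / 2 ^ j -
      Y * ex j (fun w => mn (3 ^ od j w * v₀) (3 ^ od j w * Y) (Φ (o' + od j w)))| ≤
      Y * (DV stP j (0, 0) m + 2 * η + pb j (fun w => ¬ (o₀ ≤ od j w))) := by
  have hη0 : 0 ≤ η := (ns_nonneg k (0, 0)).trans (hη 0 (by simp))
  have key := stage stP (0, 0) (j := j) (m := m) (fun μ z => Φ (o' + μ.1) z) (fun μ z => h0 _ _) (fun μ z => h1 _ _)
    (fun μ => mn (3 ^ μ.1 * v₀) (3 ^ μ.1 * Y) (Φ (o' + μ.1))) (fun μ => mn_nonneg (h0 _)) (fun μ => mn_le_one (h1 _))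
    v₀ Y (δ := 2 * η) (by positivity) (fun μ => o₀ ≤ μ.1) (fun μ hμ => by omega) (by
      intro w hw hgood c hc0 hc1 _
      set o := (lb stP j ((0 : ℤ), (0 : ℤ)) ((w : ℕ) : ℤ)).1 with ho
      exact class_one hI h0 h1 hη (by omega) (by
        calc 2 ^ k ≤ 3 ^ k := Nat.pow_le_pow_left (by norm_num) k
          _ ≤ 3 ^ (o - m) := Nat.pow_le_pow_right (by norm_num) (by omega)
          _ ≤ 3 ^ (o - m) * Y := Nat.le_mul_of_pos_right _ hY) (o' + o) v₀ hc0 hc1)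
  have e1 : ex j (fun w => ∑ v ∈ range Y, Φ (o' + (lb stP j ((0 : ℤ), (0 : ℤ)) w).1)
      (T^[j] w % 3 ^ od j w + 3 ^ od j w * (v₀ + (v : ℕ)))) =
      (∑ u ∈ range (2 ^ j * Y), bk j Φ o' (2 ^ j * v₀ + (u : ℕ))) / 2 ^ j := by
    unfold ex
    congr 1
    rw [sum_block, sum_comm]
    apply sum_congr rfl
    intro v _
    apply sum_congr rfl
    intro w hw
    rw [mem_range] at hw
    rw [T_mod j (by positivity) (by exact_mod_cast hw), ← T_add]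
    have h3 : (lb stP j ((0 : ℤ), (0 : ℤ)) ((w : ℕ) : ℤ)).1 = od j (((w : ℕ) : ℤ) + 2 ^ j * (v₀ + (v : ℕ))) := by
      rw [od_add]; rfl
    rw [h3]
    have h4 : ((w : ℕ) : ℤ) + 2 ^ j * (v₀ + (v : ℕ)) = 2 ^ j * v₀ + ((w + 2 ^ j * v : ℕ) : ℤ) := by push_cast; ring
    rw [h4]
    rfl
  rw [e1] at key
  exact key

theorem ex_abs {s : ℕ} {f g c : ℤ → ℝ} (h : ∀ y, |f y - g y| ≤ c y) : |ex s f - ex s g| ≤ ex s c := by
  unfold ex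
  rw [← sub_div, ← sum_sub_distrib, abs_div, abs_of_pos (by positivity : (0 : ℝ) < 2 ^ s)]
  apply div_le_div_of_nonneg_right _ (by positivity)
  exact (abs_sum_le_sum_abs _ _).trans (sum_le_sum fun _ _ => h _)

theorem ex_abs_const {s : ℕ} {f g : ℤ → ℝ} {c : ℝ} (h : ∀ y, |f y - g y| ≤ c) : |ex s f - ex s g| ≤ c := by
  have := ex_abs (s := s) (c := fun _ => c) h
  rwa [ex_const] at this

end Pool.Agent.J4H39
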