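import Mathlib
import Pool.Agent.J4H39.M1

set_option autoImplicit false

namespace Pool.Agent.J4H39

open Finset Filter Real

/-! Comparison of two families of blocks. -/

theorem sum_Ico {a : ℤ} {b : ℕ} (f : ℤ → ℝ) : ∑ v ∈ range b, f (a + (v : ℕ)) = ∑ z ∈ Ico a (a + b), f z := by
  apply sum_bij (fun (v : ℕ) _ => a + (v : ℤ))
  · intro v hv
    rw [mem_range] at hv
    rw [mem_Ico]
    constructor <;> omega
  · intro v _ v' _ h
    omega
  · intro z hz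
    rw [mem_Ico] at hz
    exact ⟨(z - a).toNat, by rw [mem_range]; omega, by omega⟩
  · intro v _
    rfl

theorem sum_Ico_toNat {a c : ℤ} (h : a ≤ c) (f : ℤ → ℝ) : ∑ v ∈ range (c - a).toNat, f (a + (v : ℕ)) = ∑ z ∈ Ico a c, f z := by
  rw [sum_Ico]
  congr 2
  omega

theorem blocks_le {A : ℕ → ℤ} {L : ℕ} (hd : ∀ p, A p + L ≤ A (p + 1)) {f : ℤ → ℝ} (hf : ∀ z, 0 ≤ f z) (M : ℕ) :
    ∑ p ∈ range (M + 1), ∑ v ∈ range L, f (A p + (v : ℕ)) ≤ ∑ v ∈ range (A M + L - A 0).toNat, f (A 0 + (v : ℕ)) := by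
  have hmono : ∀ p, A 0 ≤ A p := by
    intro p
    induction p with
    | zero => exact le_rfl
    | succ p ih => have := hd p; omega
  have h1 : ∀ m, ∑ p ∈ range m, ∑ v ∈ range L, f (A p + (v : ℕ)) ≤ ∑ z ∈ Ico (A 0) (A m), f z := by
    intro m
    induction m with
    | zero => simp
    | succ m ih =>
      rw [sum_range_succ]
      have h2 : ∑ z ∈ Ico (A 0) (A (m + 1)), f z = ∑ z ∈ Ico (A 0) (A m), f z + ∑ z ∈ Ico (A m) (A (m + 1)), f z := by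
        rw [← sum_union (Ico_disjoint_Ico_consecutive _ _ _), Ico_union_Ico_eq_Ico (hmono m) (by have := hd m; omega)]
      rw [h2, sum_Ico]
      have h3 : ∑ z ∈ Ico (A m) (A m + L), f z ≤ ∑ z ∈ Ico (A m) (A (m + 1)), f z := by
        apply sum_le_sum_of_subset_of_nonneg
        · exact Ico_subset_Ico le_rfl (hd m)
        · intro _ _ _; exact hf _
      linarith
  rw [sum_Ico_toNat (by have := hmono M; omega)]
  have h2 : ∑ z ∈ Ico (A 0) (A M + L), f z = ∑ z ∈ Ico (A 0) (A M), f z + ∑ z ∈ Ico (A M) (A M + L), f z := by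
    rw [← sum_union (Ico_disjoint_Ico_consecutive _ _ _), Ico_union_Ico_eq_Ico (hmono M) (by omega)]
  rw [h2, sum_range_succ, sum_Ico]
  have := h1 M
  linarith

/-- two-sided version for functions bounded by one -/
theorem blocks_two {A : ℕ → ℤ} {L : ℕ} (hd : ∀ p, A p + L ≤ A (p + 1)) {f : ℤ → ℝ} (hf : ∀ z, 0 ≤ f z) (hf1 : ∀ z, f z ≤ 1)
    (M : ℕ) :
    |∑ p ∈ range (M + 1), ∑ v ∈ range L, f (A p + (v : ℕ)) - ∑ v ∈ range (A M + L - A 0).toNat, f (A 0 + (v : ℕ))| ≤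
      ((A M + L - A 0).toNat : ℝ) - (M + 1) * L := by
  have h1 := blocks_le hd hf M
  have h2 := blocks_le hd (f := fun z => 1 - f z) (fun z => by have := hf1 z; linarith) M
  simp only [sum_sub_distrib, sum_const, card_range, nsmul_eq_mul, mul_one] at h2
  push_cast at h2
  rw [abs_le]
  constructor <;> linarith

theorem iter_ne {k' k : ℕ} (h : k' ≤ k) {x y : ℤ} (hne : T^[k] x ≠ T^[k] y) : T^[k'] x ≠ T^[k'] y := by
  intro he
  apply hne
  obtain ⟨d, rfl⟩ := Nat.exists_eq_add_of_le h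
  rw [add_comm, Function.iterate_add_apply, Function.iterate_add_apply, he]

/-- sum over an interval of the indicator of late merging with a shift -/
theorem shift_count {k' W : ℕ} {ε' : ℝ} {ρ : ℤ} (hns : ns k' (0, ρ) ≤ ε') {c : ℤ} (hc : c % 2 = 1) (a : ℤ) :
    ∑ v ∈ range W, id1 (T^[k'] (c * (a + (v : ℕ))) ≠ T^[k'] (c * (a + (v : ℕ)) + ρ)) ≤ ((W : ℝ) + 2 ^ k') * ε' := by
  have h1 : ∑ v ∈ range W, id1 (T^[k'] (c * (a + (v : ℕ))) ≠ T^[k'] (c * (a + (v : ℕ)) + ρ)) ≤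
      ∑ v ∈ range W, id1 (rn stP k' (0, ρ) (c * ((v : ℕ) : ℤ) + c * a) ≠ (0, 0)) := by
    apply sum_le_sum
    intro v _
    apply id1_mono
    intro hne he
    apply hne
    have e : c * (a + (v : ℕ)) = c * ((v : ℕ) : ℤ) + c * a := by ring
    rw [e]
    exact (merge_of_rn (rel_zero ρ _) he).1
  refine h1.trans ((cnt_aff (per_ns k' (0, ρ)) hc (c * a) W).trans ?_)
  apply mul_le_mul_of_nonneg_left hns (by positivity)

/-- the weight of the second member -/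
noncomputable def wgA (k' R : ℕ) (z' : ℤ) : ℝ := (∑ ρ ∈ range R, id1 (T^[k'] (1 * z') ≠ T^[k'] (1 * z' + ((ρ : ℕ) : ℤ)))) / R

/-- the weight of the first member -/
noncomputable def wgB (k' R D : ℕ) (z : ℤ) : ℝ :=
  (∑ ρ ∈ range (3 * R), id1 (T^[k'] (3 ^ D * z) ≠ T^[k'] (3 ^ D * z + (((ρ : ℕ) : ℤ) - R)))) / R

theorem wgA_nonneg (k' R : ℕ) (z : ℤ) : 0 ≤ wgA k' R z := div_nonneg (sum_nonneg fun _ _ => id1_nonneg _) (by positivity)

theorem wgB_nonneg (k' R D : ℕ) (z : ℤ) : 0 ≤ wgB k' R D z := div_nonneg (sum_nonneg fun _ _ => id1_nonneg _) (by positivity)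

theorem wg_cover {k k' R D : ℕ} (hk : k' ≤ k) (hR : 1 ≤ R) {z z' : ℤ} (hcl : |z' - 3 ^ D * z| ≤ R) :
    |id1 (T^[k] z ≠ T^[k] z') - id1 (T^[k] z ≠ T^[k] (3 ^ D * z))| ≤ wgA k' R z' + wgB k' R D z := by
  have hR0 : (0 : ℝ) < R := by exact_mod_cast hR
  have hA := wgA_nonneg k' R z'
  have hB := wgB_nonneg k' R D z
  by_cases h : T^[k] z' = T^[k] (3 ^ D * z)
  · rw [h, sub_self, abs_zero]; linarith
  · have h1 := iter_ne hk h
    have h2 : (1 : ℝ) ≤ wgA k' R z' + wgB k' R D z := by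
      unfold wgA wgB
      rw [← add_div, le_div_iff₀ hR0, one_mul]
      rw [abs_le] at hcl
      obtain ⟨c, hc⟩ : ∃ c : ℕ, (c : ℤ) = z' - 3 ^ D * z + R := ⟨(z' - 3 ^ D * z + R).toNat, by omega⟩
      have hc2 : c ≤ 2 * R := by omega
      have h3 : ∑ ρ ∈ range R, id1 (T^[k'] (3 ^ D * z) ≠ T^[k'] (3 ^ D * z + (((c + ρ : ℕ) : ℤ) - R))) ≤
          ∑ ρ ∈ range (3 * R), id1 (T^[k'] (3 ^ D * z) ≠ T^[k'] (3 ^ D * z + (((ρ : ℕ) : ℤ) - R))) := by
        have h4 := sum_range_add (fun ρ : ℕ => id1 (T^[k'] (3 ^ D * z) ≠ T^[k'] (3 ^ D * z + (((ρ : ℕ) : ℤ) - R)))) c R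
        have h5 : ∑ ρ ∈ range (c + R), id1 (T^[k'] (3 ^ D * z) ≠ T^[k'] (3 ^ D * z + (((ρ : ℕ) : ℤ) - R))) ≤
            ∑ ρ ∈ range (3 * R), id1 (T^[k'] (3 ^ D * z) ≠ T^[k'] (3 ^ D * z + (((ρ : ℕ) : ℤ) - R))) := by
          apply sum_le_sum_of_subset_of_nonneg
          · intro x hx; rw [mem_range] at hx ⊢; omega
          · intro _ _ _; exact id1_nonneg _
        have h6 : 0 ≤ ∑ ρ ∈ range c, id1 (T^[k'] (3 ^ D * z) ≠ T^[k'] (3 ^ D * z + (((ρ : ℕ) : ℤ) - R))) :=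
          sum_nonneg fun _ _ => id1_nonneg _
        linarith
      have h7 : (R : ℝ) ≤ ∑ ρ ∈ range R, (id1 (T^[k'] (1 * z') ≠ T^[k'] (1 * z' + ((ρ : ℕ) : ℤ))) +
          id1 (T^[k'] (3 ^ D * z) ≠ T^[k'] (3 ^ D * z + (((c + ρ : ℕ) : ℤ) - R)))) := by
        have h8 : ∀ ρ ∈ range R, (1 : ℝ) ≤ id1 (T^[k'] (1 * z') ≠ T^[k'] (1 * z' + ((ρ : ℕ) : ℤ))) +
            id1 (T^[k'] (3 ^ D * z) ≠ T^[k'] (3 ^ D * z + (((c + ρ : ℕ) : ℤ) - R))) := by
          intro ρ _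
          have e1 : 3 ^ D * z + (((c + ρ : ℕ) : ℤ) - R) = 1 * z' + ((ρ : ℕ) : ℤ) := by push_cast; rw [hc]; ring
          rw [e1]
          by_cases h9 : T^[k'] (1 * z') = T^[k'] (1 * z' + ((ρ : ℕ) : ℤ))
          · have h10 : T^[k'] (3 ^ D * z) ≠ T^[k'] (1 * z' + ((ρ : ℕ) : ℤ)) := by
              intro h11
              apply h1
              rw [h11, ← h9, one_mul]
            rw [id1_pos h10]
            have := id1_nonneg (T^[k'] (1 * z') ≠ T^[k'] (1 * z' + ((ρ : ℕ) : ℤ)))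
            linarith
          · rw [id1_pos (show T^[k'] (1 * z') ≠ T^[k'] (1 * z' + ((ρ : ℕ) : ℤ)) from h9)]
            have := id1_nonneg (T^[k'] (3 ^ D * z) ≠ T^[k'] (1 * z' + ((ρ : ℕ) : ℤ)))
            linarith
        have := sum_le_sum h8
        rwa [sum_const, card_range, nsmul_eq_mul, mul_one] at this
      rw [sum_add_distrib] at h7
      linarith
    have h3 : |id1 (T^[k] z ≠ T^[k] z') - id1 (T^[k] z ≠ T^[k] (3 ^ D * z))| ≤ 1 := by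
      have a0 := id1_nonneg (T^[k] z ≠ T^[k] z')
      have a1 := id1_le_one (T^[k] z ≠ T^[k] z')
      have b0 := id1_nonneg (T^[k] z ≠ T^[k] (3 ^ D * z))
      have b1 := id1_le_one (T^[k] z ≠ T^[k] (3 ^ D * z))
      rw [abs_le]; constructor <;> linarith
    linarith

theorem wgA_sum {k' R W : ℕ} {ε' : ℝ} (hR : 1 ≤ R) (hns : ∀ ρ : ℤ, |ρ| ≤ 2 * R → ns k' (0, ρ) ≤ ε') (a : ℤ) :
    ∑ v ∈ range W, wgA k' R (a + (v : ℕ)) ≤ ((W : ℝ) + 2 ^ k') * ε' := by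
  have hR0 : (0 : ℝ) < R := by exact_mod_cast hR
  unfold wgA
  rw [← sum_div, sum_comm, div_le_iff₀ hR0]
  have h1 : ∀ ρ ∈ range R, ∑ v ∈ range W, id1 (T^[k'] (1 * (a + (v : ℕ))) ≠ T^[k'] (1 * (a + (v : ℕ)) + ((ρ : ℕ) : ℤ))) ≤
      ((W : ℝ) + 2 ^ k') * ε' := by
    intro ρ hρ
    rw [mem_range] at hρ
    exact shift_count (hns _ (by rw [abs_of_nonneg (by positivity)]; omega)) (by norm_num) a
  refine (sum_le_sum h1).trans (le_of_eq ?_)
  rw [sum_const, card_range, nsmul_eq_mul, mul_comm]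

theorem wgB_sum {k' R D W : ℕ} {ε' : ℝ} (hR : 1 ≤ R) (hns : ∀ ρ : ℤ, |ρ| ≤ 2 * R → ns k' (0, ρ) ≤ ε') (a : ℤ) :
    ∑ v ∈ range W, wgB k' R D (a + (v : ℕ)) ≤ 3 * (((W : ℝ) + 2 ^ k') * ε') := by
  have hR0 : (0 : ℝ) < R := by exact_mod_cast hR
  unfold wgB
  rw [← sum_div, sum_comm, div_le_iff₀ hR0]
  have h1 : ∀ ρ ∈ range (3 * R), ∑ v ∈ range W, id1 (T^[k'] (3 ^ D * (a + (v : ℕ))) ≠
      T^[k'] (3 ^ D * (a + (v : ℕ)) + (((ρ : ℕ) : ℤ) - R))) ≤ ((W : ℝ) + 2 ^ k') * ε' := by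
    intro ρ hρ
    rw [mem_range] at hρ
    exact shift_count (hns _ (by rw [abs_le]; constructor <;> omega)) (pow3_odd D) a
  refine (sum_le_sum h1).trans (le_of_eq ?_)
  rw [sum_const, card_range, nsmul_eq_mul]; push_cast; ring

/-- Comparison of the pairs of blocks with the pairs `z, 3 ^ D z`. -/
theorem S_claim {k k' D R M L L' : ℕ} {A A' : ℕ → ℤ} {ε' η P : ℝ} (hk : k' ≤ k) (hR : 1 ≤ R) (hL : 1 ≤ L) (hL' : 1 ≤ L')
    (hd : ∀ p, A p + L ≤ A (p + 1)) (hd' : ∀ p, A' p + L' ≤ A' (p + 1))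
    (hW : ((A M + L - A 0 : ℤ) : ℝ) ≤ (1 + η) * ((M + 1) * L)) (hW' : ((A' M + L' - A' 0 : ℤ) : ℝ) ≤ (1 + η) * ((M + 1) * L'))
    (hη0 : 0 ≤ η) (hη1 : η ≤ 1) (hε' : 0 ≤ ε')
    (hcl : ∀ p ≤ M, ∀ v < L, ∀ v' < L', |(A' p + (v' : ℕ)) - 3 ^ D * (A p + (v : ℕ))| ≤ R)
    (hns : ∀ ρ : ℤ, |ρ| ≤ 2 * R → ns k' (0, ρ) ≤ ε')
    (h2 : (2 : ℝ) ^ k' ≤ (M + 1) * L) (h2' : (2 : ℝ) ^ k' ≤ (M + 1) * L') (hP0 : 0 ≤ P) (hP1 : P ≤ 1)
    (hTT : |∑ v ∈ range (A M + L - A 0).toNat, id1 (T^[k] (A 0 + (v : ℕ)) = T^[k] (3 ^ D * (A 0 + (v : ℕ)))) -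
      ((A M + L - A 0).toNat : ℝ) * (1 - P)| ≤ ε' * ((A M + L - A 0).toNat : ℝ)) :
    |(∑ p ∈ range (M + 1), mn (A p) L (fun z => mn (A' p) L' (fun z' => id1 (T^[k] z ≠ T^[k] z')))) / (M + 1) - P| ≤
      20 * ε' + 2 * η := by
  have hL0 : (0 : ℝ) < L := by exact_mod_cast hL
  have hL0' : (0 : ℝ) < L' := by exact_mod_cast hL'
  have hM0 : (0 : ℝ) < (M : ℝ) + 1 := by positivity
  have hmono : ∀ p, A 0 ≤ A p := by
    intro p
    induction p with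
    | zero => exact le_rfl
    | succ p ih => have := hd p; omega
  have hmono' : ∀ p, A' 0 ≤ A' p := by
    intro p
    induction p with
    | zero => exact le_rfl
    | succ p ih => have := hd' p; omega
  obtain ⟨W, hWd⟩ : ∃ W, W = (A M + L - A 0).toNat := ⟨_, rfl⟩
  obtain ⟨W', hWd'⟩ : ∃ W', W' = (A' M + L' - A' 0).toNat := ⟨_, rfl⟩
  have hWr : (W : ℝ) ≤ (1 + η) * ((M + 1) * L) := by
    have e : ((W : ℤ) : ℝ) = ((A M + L - A 0 : ℤ) : ℝ) := by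
      rw [hWd, Int.toNat_of_nonneg (by have := hmono M; omega)]
    rw [← e] at hW
    exact_mod_cast hW
  have hWr' : (W' : ℝ) ≤ (1 + η) * ((M + 1) * L') := by
    have e : ((W' : ℤ) : ℝ) = ((A' M + L' - A' 0 : ℤ) : ℝ) := by
      rw [hWd', Int.toNat_of_nonneg (by have := hmono' M; omega)]
    rw [← e] at hW'
    exact_mod_cast hW'
  rw [← hWd] at hTT
  set F₀ : ℤ → ℝ := fun z => id1 (T^[k] z ≠ T^[k] (3 ^ D * z)) with hF₀
  -- pointwise comparison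
  have c1 : ∀ p ∈ range (M + 1), |mn (A p) L (fun z => mn (A' p) L' (fun z' => id1 (T^[k] z ≠ T^[k] z'))) - mn (A p) L F₀| ≤
      mn (A' p) L' (wgA k' R) + mn (A p) L (wgB k' R D) := by
    intro p hp
    rw [mem_range] at hp
    unfold mn
    rw [← sub_div, ← sum_sub_distrib, abs_div, abs_of_pos hL0, div_le_iff₀ hL0]
    have d1 : ∀ v ∈ range L, |(∑ v' ∈ range L', id1 (T^[k] (A p + (v : ℕ)) ≠ T^[k] (A' p + (v' : ℕ)))) / L' - F₀ (A p + (v : ℕ))| ≤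
        (∑ v' ∈ range L', wgA k' R (A' p + (v' : ℕ))) / L' + wgB k' R D (A p + (v : ℕ)) := by
      intro v hv
      rw [mem_range] at hv
      have e1 : (∑ v' ∈ range L', id1 (T^[k] (A p + (v : ℕ)) ≠ T^[k] (A' p + (v' : ℕ)))) / L' - F₀ (A p + (v : ℕ)) =
          (∑ v' ∈ range L', (id1 (T^[k] (A p + (v : ℕ)) ≠ T^[k] (A' p + (v' : ℕ))) - F₀ (A p + (v : ℕ)))) / L' := by
        rw [sum_sub_distrib, sum_const, card_range, nsmul_eq_mul]
        field_simp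
      rw [e1, abs_div, abs_of_pos hL0']
      have e2 : (∑ v' ∈ range L', wgA k' R (A' p + (v' : ℕ))) / L' + wgB k' R D (A p + (v : ℕ)) =
          (∑ v' ∈ range L', (wgA k' R (A' p + (v' : ℕ)) + wgB k' R D (A p + (v : ℕ)))) / L' := by
        rw [sum_add_distrib, sum_const, card_range, nsmul_eq_mul]
        field_simp
      rw [e2]
      apply div_le_div_of_nonneg_right _ hL0'.le
      refine (abs_sum_le_sum_abs _ _).trans (sum_le_sum fun v' hv' => ?_)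
      rw [mem_range] at hv'
      exact wg_cover hk hR (hcl p (by omega) v hv v' hv')
    refine (abs_sum_le_sum_abs _ _).trans ((sum_le_sum d1).trans (le_of_eq ?_))
    rw [sum_add_distrib, sum_const, card_range, nsmul_eq_mul]
    field_simp
  -- sums of the weights
  have hML : (0 : ℝ) < (M + 1) * L := by positivity
  have hML' : (0 : ℝ) < (M + 1) * L' := by positivity
  have s1 : ∑ p ∈ range (M + 1), mn (A' p) L' (wgA k' R) ≤ 3 * ε' * (M + 1) := by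
    unfold mn
    rw [← sum_div, div_le_iff₀ hL0']
    refine (blocks_le hd' (wgA_nonneg k' R) M).trans ?_
    rw [← hWd']
    refine (wgA_sum hR hns (A' 0)).trans ?_
    have : ((W' : ℝ) + 2 ^ k') ≤ 3 * ((M + 1) * L') := by
      have : η * ((M + 1) * (L' : ℝ)) ≤ 1 * ((M + 1) * L') := mul_le_mul_of_nonneg_right hη1 hML'.le
      linarith
    calc ((W' : ℝ) + 2 ^ k') * ε' ≤ (3 * ((M + 1) * L')) * ε' := mul_le_mul_of_nonneg_right this hε'
      _ = 3 * ε' * (M + 1) * L' := by ring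
  have s2 : ∑ p ∈ range (M + 1), mn (A p) L (wgB k' R D) ≤ 9 * ε' * (M + 1) := by
    unfold mn
    rw [← sum_div, div_le_iff₀ hL0]
    refine (blocks_le hd (wgB_nonneg k' R D) M).trans ?_
    rw [← hWd]
    refine (wgB_sum hR hns (A 0)).trans ?_
    have : ((W : ℝ) + 2 ^ k') ≤ 3 * ((M + 1) * L) := by
      have : η * ((M + 1) * (L : ℝ)) ≤ 1 * ((M + 1) * L) := mul_le_mul_of_nonneg_right hη1 hML.le
      linarith
    calc 3 * (((W : ℝ) + 2 ^ k') * ε') ≤ 3 * ((3 * ((M + 1) * L)) * ε') :=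
          mul_le_mul_of_nonneg_left (mul_le_mul_of_nonneg_right this hε') (by norm_num)
      _ = 9 * ε' * (M + 1) * L := by ring
  have c2 : |∑ p ∈ range (M + 1), mn (A p) L (fun z => mn (A' p) L' (fun z' => id1 (T^[k] z ≠ T^[k] z'))) -
      ∑ p ∈ range (M + 1), mn (A p) L F₀| ≤ 12 * ε' * (M + 1) := by
    rw [← sum_sub_distrib]
    refine (abs_sum_le_sum_abs _ _).trans ((sum_le_sum c1).trans ?_)
    rw [sum_add_distrib]
    linarith
  -- the main term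
  have c3 : |∑ p ∈ range (M + 1), mn (A p) L F₀ - (∑ v ∈ range W, F₀ (A 0 + (v : ℕ))) / L| ≤ η * (M + 1) := by
    unfold mn
    rw [← sum_div, ← sub_div, abs_div, abs_of_pos hL0, div_le_iff₀ hL0]
    have := blocks_two hd (f := F₀) (fun _ => id1_nonneg _) (fun _ => id1_le_one _) M
    rw [← hWd] at this
    refine this.trans ?_
    linarith
  have c4 : |(∑ v ∈ range W, F₀ (A 0 + (v : ℕ))) - W * P| ≤ ε' * W := by
    have e1 : ∑ v ∈ range W, F₀ (A 0 + (v : ℕ)) = W - ∑ v ∈ range W, id1 (T^[k] (A 0 + (v : ℕ)) = T^[k] (3 ^ D * (A 0 + (v : ℕ)))) := by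
      have e2 : (W : ℝ) = ∑ v ∈ range W, 1 := by simp
      conv_rhs => rw [e2]
      rw [← sum_sub_distrib]
      apply sum_congr rfl
      intro v _
      rw [hF₀]
      simp only
      by_cases h : T^[k] (A 0 + (v : ℕ)) = T^[k] (3 ^ D * (A 0 + (v : ℕ)))
      · rw [id1_pos h, id1_neg (not_not.2 h)]; ring
      · rw [id1_neg h, id1_pos (show T^[k] (A 0 + (v : ℕ)) ≠ T^[k] (3 ^ D * (A 0 + (v : ℕ))) from h)]; ring
    rw [e1]
    rw [abs_le] at hTT ⊢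
    constructor <;> linarith
  have hWlow : (M + 1) * (L : ℝ) ≤ W := by
    have := blocks_two hd (f := fun _ => 0) (fun _ => le_rfl) (fun _ => zero_le_one) M
    rw [← hWd] at this
    have h0 := (abs_nonneg _).trans this
    linarith
  have c5 : |(∑ v ∈ range W, F₀ (A 0 + (v : ℕ))) / L - (M + 1) * P| ≤ (2 * ε' + η) * (M + 1) := by
    have e1 : (∑ v ∈ range W, F₀ (A 0 + (v : ℕ))) / L - (M + 1) * P =
        ((∑ v ∈ range W, F₀ (A 0 + (v : ℕ))) - (M + 1) * L * P) / L := by field_simp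
    rw [e1, abs_div, abs_of_pos hL0, div_le_iff₀ hL0]
    have d1 : |(W : ℝ) * P - (M + 1) * L * P| ≤ η * ((M + 1) * L) := by
      rw [← sub_mul, abs_mul, abs_of_nonneg hP0, abs_of_nonneg (by linarith)]
      calc ((W : ℝ) - (M + 1) * L) * P ≤ (W - (M + 1) * L) * 1 := mul_le_mul_of_nonneg_left hP1 (by linarith)
        _ ≤ η * ((M + 1) * L) := by linarith
    have d2 : ε' * W ≤ 2 * ε' * ((M + 1) * L) := by
      have : (W : ℝ) ≤ 2 * ((M + 1) * L) := by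
        have : η * ((M + 1) * (L : ℝ)) ≤ 1 * ((M + 1) * L) := mul_le_mul_of_nonneg_right hη1 hML.le
        linarith
      calc ε' * W ≤ ε' * (2 * ((M + 1) * L)) := mul_le_mul_of_nonneg_left this hε'
        _ = 2 * ε' * ((M + 1) * L) := by ring
    have := abs_sub_le (∑ v ∈ range W, F₀ (A 0 + (v : ℕ))) (W * P) ((M + 1) * L * P)
    have e2 : (2 * ε' + η) * (M + 1) * (L : ℝ) = 2 * ε' * ((M + 1) * L) + η * ((M + 1) * L) := by ring
    rw [e2]
    linarith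
  have c6 : |∑ p ∈ range (M + 1), mn (A p) L (fun z => mn (A' p) L' (fun z' => id1 (T^[k] z ≠ T^[k] z'))) - (M + 1) * P| ≤
      (20 * ε' + 2 * η) * (M + 1) := by
    have a1 := abs_sub_le (∑ p ∈ range (M + 1), mn (A p) L (fun z => mn (A' p) L' (fun z' => id1 (T^[k] z ≠ T^[k] z'))))
      (∑ p ∈ range (M + 1), mn (A p) L F₀) ((M + 1) * P)
    have a2 := abs_sub_le (∑ p ∈ range (M + 1), mn (A p) L F₀) ((∑ v ∈ range W, F₀ (A 0 + (v : ℕ))) / L) ((M + 1) * P)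
    have a3 : 0 ≤ ε' * (M + 1) := mul_nonneg hε' hM0.le
    have e1 : (20 * ε' + 2 * η) * ((M : ℝ) + 1) = 20 * (ε' * (M + 1)) + 2 * (η * (M + 1)) := by ring
    have e2 : (2 * ε' + η) * ((M : ℝ) + 1) = 2 * (ε' * (M + 1)) + η * (M + 1) := by ring
    have e3 : 12 * ε' * ((M : ℝ) + 1) = 12 * (ε' * (M + 1)) := by ring
    rw [e2] at c5
    rw [e3] at c2
    rw [e1]
    linarith
  have e1 : (∑ p ∈ range (M + 1), mn (A p) L (fun z => mn (A' p) L' (fun z' => id1 (T^[k] z ≠ T^[k] z')))) / ((M : ℝ) + 1) - P =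
      (∑ p ∈ range (M + 1), mn (A p) L (fun z => mn (A' p) L' (fun z' => id1 (T^[k] z ≠ T^[k] z'))) - (M + 1) * P) / (M + 1) := by
    field_simp
  rw [e1, abs_div, abs_of_pos hM0, div_le_iff₀ hM0]
  exact c6

end Pool.Agent.J4H39
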