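import Mathlib
import Pool.Agent.J4H39.M1

set_option autoImplicit false

namespace Pool.Agent.J4H39

open Finset Filter Real

/-! Iteration of the transfer for one trajectory. -/

/-- One stage for one trajectory. -/
theorem stage_gen {j k m o₀ : ℕ} {η : ℝ} {Φ : ℕ → ℤ → ℝ} (hI : Inv k Φ) (h0 : ∀ o z, 0 ≤ Φ o z) (h1 : ∀ o z, Φ o z ≤ 1)
    (hη : ∀ r : ℤ, |r| ≤ 4 ^ m → ns k (0, r) ≤ η) (hmk : m + k ≤ o₀) (o' : ℕ) (a : ℤ) {b : ℕ} (hb : 2 ^ j ≤ b) :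
    |mn a b (bk j Φ o') - ex j (fun w => mn (3 ^ od j w * (a / 2 ^ j)) (3 ^ od j w * (b / 2 ^ j)) (Φ (o' + od j w)))| ≤
      DV stP j (0, 0) m + 2 * η + pb j (fun w => ¬ (o₀ ≤ od j w)) + 4 * 2 ^ j / b := by
  obtain ⟨Y, hY⟩ : ∃ Y, Y = b / 2 ^ j := ⟨_, rfl⟩
  have hY1 : 1 ≤ Y := by
    rw [hY, Nat.one_le_div_iff (by positivity)]; exact hb
  have h2j : (0 : ℝ) < 2 ^ j := by positivity
  have hb0 : (0 : ℝ) < b := by
    have : (2 : ℝ) ^ j ≤ b := by exact_mod_cast hb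
    linarith
  have hYX : 2 ^ j * Y ≤ b := by rw [hY]; exact Nat.mul_div_le b (2 ^ j)
  have hXY : b < 2 ^ j * Y + 2 ^ j := by
    have := Nat.lt_div_mul_add (a := b) (b := 2 ^ j) (by positivity)
    rw [mul_comm, ← hY] at this
    exact this
  have hYXr : (2 : ℝ) ^ j * Y ≤ b := by exact_mod_cast hYX
  have hXYr : (b : ℝ) ≤ 2 ^ j * Y + 2 ^ j := by exact_mod_cast hXY.le
  have key := stage_one (j := j) hI h0 h1 hη hmk o' (a / 2 ^ j) hY1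
  have hcmp := block_cmp (f := bk j Φ o') (fun _ => h0 _ _) (fun _ => h1 _ _) j a b
  rw [← hY] at hcmp ⊢
  set E := ex j (fun w => mn (3 ^ od j w * (a / 2 ^ j)) (3 ^ od j w * Y) (Φ (o' + od j w))) with hE
  have hE0 : 0 ≤ E := ex_nonneg fun _ => mn_nonneg (h0 _)
  have hE1 : E ≤ 1 := by
    rw [← ex_const j 1]
    exact ex_mono fun _ => mn_le_one (h1 _)
  set e := DV stP j (0, 0) m + 2 * η + pb j (fun w => ¬ (o₀ ≤ od j w)) with he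
  set A := ∑ v ∈ range b, bk j Φ o' (a + (v : ℕ)) with hA
  set A' := ∑ u ∈ range (2 ^ j * Y), bk j Φ o' (2 ^ j * (a / 2 ^ j) + (u : ℕ)) with hA'
  have hYr : (1 : ℝ) ≤ Y := by exact_mod_cast hY1
  have he0 : 0 ≤ e := by
    have h5 := abs_nonneg (A' / 2 ^ j - Y * E)
    by_contra hcon
    push Not at hcon
    have : (Y : ℝ) * e < 0 := mul_neg_of_pos_of_neg (by linarith) hcon
    linarith
  have k1 : |A' - 2 ^ j * Y * E| ≤ b * e := by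
    have h5 : A' - 2 ^ j * Y * E = 2 ^ j * (A' / 2 ^ j - Y * E) := by field_simp
    rw [h5, abs_mul, abs_of_pos h2j]
    calc (2 : ℝ) ^ j * |A' / 2 ^ j - Y * E| ≤ 2 ^ j * (Y * e) := mul_le_mul_of_nonneg_left key h2j.le
      _ = (2 ^ j * Y) * e := by ring
      _ ≤ b * e := mul_le_mul_of_nonneg_right hYXr he0
  have k2 : |(2 : ℝ) ^ j * Y * E - b * E| ≤ 2 ^ j := by
    rw [← sub_mul, abs_mul, abs_of_nonneg hE0, abs_sub_comm, abs_of_nonneg (by linarith)]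
    calc ((b : ℝ) - 2 ^ j * Y) * E ≤ (b - 2 ^ j * Y) * 1 := mul_le_mul_of_nonneg_left hE1 (by linarith)
      _ ≤ 2 ^ j := by linarith
  have k3 : |A - b * E| ≤ b * e + 4 * 2 ^ j := by
    have a1 := abs_sub_le A A' (b * E)
    have a2 := abs_sub_le A' (2 ^ j * Y * E) (b * E)
    linarith
  change |A / b - E| ≤ e + 4 * 2 ^ j / b
  have k4 : A / b - E = (A - b * E) / b := by field_simp
  rw [k4, abs_div, abs_of_pos hb0, div_le_iff₀ hb0]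
  have k5 : (e + 4 * 2 ^ j / b) * b = b * e + 4 * 2 ^ j := by field_simp
  rw [k5]; exact k3

/-- the probability of few odd steps is small -/
theorem low_ev {ε : ℝ} (hε : 0 < ε) : ∀ᶠ z : ℕ in atTop, ∀ j, z ^ 20 ≤ j → j ≤ 2 * z ^ 20 →
    pb j (fun w => ¬ ((j - z ^ 11) / 2 ≤ od j w)) ≤ ε := by
  filter_upwards [label_small 0 hε] with z h j hj hj2
  refine le_trans (pb_mono ?_) (h j hj hj2 (0, 0) (by unfold GS; simp))
  intro w hw hh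
  exact hw hh.1

theorem stage_ev {ε : ℝ} (hε : 0 < ε) : ∀ᶠ z : ℕ in atTop, ∀ j, z ^ 20 ≤ j → j ≤ 2 * z ^ 20 →
    ∀ Φ : ℕ → ℤ → ℝ, Inv (j / 8) Φ → (∀ o z, 0 ≤ Φ o z) → (∀ o z, Φ o z ≤ 1) → ∀ (o' : ℕ) (a : ℤ) (b : ℕ),
    16 * (2 : ℝ) ^ j ≤ ε * b → 2 ^ j ≤ b →
    |mn a b (bk j Φ o') - ex j (fun w => mn (3 ^ od j w * (a / 2 ^ j)) (3 ^ od j w * (b / 2 ^ j)) (Φ (o' + od j w)))| ≤ ε := by
  filter_upwards [low_ev (show 0 < ε / 4 by positivity), DV_small 0 (show 0 < ε / 4 by positivity),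
    eta_small 0 (show 0 < ε / 8 by positivity), eventually_ge_atTop 40] with z h1 h2 h3 h4
  intro j hj hj2 Φ hI h0 h1' o' a b hb1 hb2
  have e1 := h1 j hj hj2
  have e2 := h2 j hj hj2 (0, 0) (by unfold GS; simp)
  obtain ⟨_, _, hmk, _⟩ := nat_facts (c₂ := 0) h4 (by omega) hj
  have key := stage_gen (j := j) (m := z ^ 19) (o₀ := (j - z ^ 11) / 2) (η := ε / 8) hI h0 h1' (by
    intro r hr
    apply h3 j hj hj2
    refine hr.trans ?_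
    exact pow_le_pow_right₀ (by norm_num) (by omega)) hmk o' a hb2
  refine key.trans ?_
  have hb0 : (0 : ℝ) < b := by
    have h5 : (0 : ℝ) < 2 ^ j := by positivity
    have : (2 : ℝ) ^ j ≤ b := by exact_mod_cast hb2
    linarith
  have h6 : 4 * 2 ^ j / (b : ℝ) ≤ ε / 4 := by
    rw [div_le_iff₀ hb0]; linarith
  linarith

/-- the final interval of a path -/
def Jn : ℕ → ℕ → ℤ → ℤ × ℕ → ℤ × ℕ
  | 0, t, y, p => (3 ^ od t y * (p.1 / 2 ^ t), 3 ^ od t y * (p.2 / 2 ^ t))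
  | n + 1, t, y, p => Jn n (t - t / 5) (T^[t / 5] y) (3 ^ od (t / 5) y * (p.1 / 2 ^ (t / 5)), 3 ^ od (t / 5) y * (p.2 / 2 ^ (t / 5)))

/-- the length of the last stage -/
def ln : ℕ → ℕ → ℕ
  | 0, t => t
  | n + 1, t => ln n (t - t / 5)

theorem per_Jn (n : ℕ) : ∀ (t : ℕ) (p : ℤ × ℕ), Per t (fun y => Jn n t y p) := by
  induction n with
  | zero =>
    intro t p y u
    simp only [Jn]
    rw [od_add]
  | succ n ih =>
    intro t p y u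
    simp only [Jn]
    have h1 : t / 5 ≤ t := Nat.div_le_self t 5
    have e : y + 2 ^ t * u = y + 2 ^ (t / 5) * (2 ^ (t - t / 5) * u) := by
      rw [← mul_assoc, ← pow_add]; congr 3; omega
    rw [e, od_add, T_add]
    have h2 := ih (t - t / 5) (3 ^ od (t / 5) y * (p.1 / 2 ^ (t / 5)), 3 ^ od (t / 5) y * (p.2 / 2 ^ (t / 5)))
      (T^[t / 5] y) (3 ^ od (t / 5) y * u)
    simp only at h2
    rw [← h2]
    congr 1
    ring

/-- Equidistribution of one trajectory on the intervals `Jn`. -/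
def ST (n : ℕ) (κ : ℝ) : Prop := ∀ ε : ℝ, 0 < ε → ∃ t₀ : ℕ, ∀ t : ℕ, t₀ ≤ t → ∀ Φ : ℕ → ℤ → ℝ,
  Inv (ln n t / 8) Φ → (∀ o z, 0 ≤ Φ o z) → (∀ o z, Φ o z ≤ 1) → ∀ (o : ℕ) (a : ℤ) (b : ℕ), (2 : ℝ) ^ (κ * t) ≤ b →
  |mn a b (bk t Φ o) - ex t (fun y => mn (Jn n t y (a, b)).1 (Jn n t y (a, b)).2 (Φ (o + od t y)))| ≤ ε

theorem root_ev {P : ℕ → Prop} {Q : ℕ → ℕ → Prop} (h : ∀ᶠ z : ℕ in atTop, Q z z ∧ ∀ j, z ^ 20 ≤ j → j ≤ 2 * z ^ 20 → Q z j → P j)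
    (hQ : ∀ z j, Q z z → Q z j) : ∃ j₀ : ℕ, ∀ j ≥ j₀, P j := by
  obtain ⟨z₀, hz₀⟩ := eventually_atTop.1 (h.and (eventually_ge_atTop 40))
  refine ⟨z₀ ^ 20, fun t ht => ?_⟩
  obtain ⟨z, hr1, hr2⟩ := root20 t
  have hz : z₀ ≤ z := by
    by_contra hcon
    have h7 : (z + 1) ^ 20 ≤ z₀ ^ 20 := Nat.pow_le_pow_left (by omega) 20
    exact absurd (hr2.trans_le h7) (not_lt.2 ht)
  obtain ⟨⟨h1, h2⟩, h3⟩ := hz₀ z hz
  exact h2 t hr1 (hr2.le.trans (succ20 h3)) (hQ z t h1)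

theorem ev_of_root {P : ℕ → Prop} (h : ∀ᶠ z : ℕ in atTop, ∀ j, z ^ 20 ≤ j → j ≤ 2 * z ^ 20 → P j) :
    ∃ j₀ : ℕ, ∀ j ≥ j₀, P j :=
  root_ev (Q := fun _ _ => True) (h.mono fun z hz => ⟨trivial, fun j h1 h2 _ => hz j h1 h2⟩) (fun _ _ _ => trivial)

theorem ST_base : ST 0 2 := by
  intro ε hε
  obtain ⟨j₀, hj₀⟩ := ev_of_root (stage_ev hε)
  obtain ⟨t₁, ht₁⟩ := pow_unbounded_of_one_lt (16 / ε) (by norm_num : (1 : ℝ) < 2)
  refine ⟨max t₁ j₀, fun t ht Φ hI h0 h1 o a b hb => ?_⟩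
  rw [max_le_iff] at ht
  have a1 : ((2 : ℝ) ^ (2 * (t : ℝ))) = 2 ^ t * 2 ^ t := by
    rw [two_mul, Real.rpow_add (by norm_num), Real.rpow_natCast]
  rw [a1] at hb
  have a2 : 16 / ε ≤ (2 : ℝ) ^ t := ht₁.le.trans (pow_le_pow_right₀ (by norm_num) ht.1)
  rw [div_le_iff₀ hε] at a2
  have h2t : (0 : ℝ) < 2 ^ t := by positivity
  have h2t1 : (1 : ℝ) ≤ 2 ^ t := one_le_pow₀ (by norm_num)
  refine hj₀ t ht.2 Φ hI h0 h1 o a b ?_ ?_
  · calc 16 * (2 : ℝ) ^ t ≤ (2 ^ t * ε) * 2 ^ t := mul_le_mul_of_nonneg_right a2 h2t.le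
      _ = ε * (2 ^ t * 2 ^ t) := by ring
      _ ≤ ε * b := mul_le_mul_of_nonneg_left hb hε.le
  · have : ((2 : ℝ) ^ t) ≤ b := by
      calc (2 : ℝ) ^ t = 2 ^ t * 1 := (mul_one _).symm
        _ ≤ 2 ^ t * 2 ^ t := mul_le_mul_of_nonneg_left h2t1 h2t.le
        _ ≤ b := hb
    exact_mod_cast this

/-- after a good first stage the interval is long enough -/
theorem len_ev {κ : ℝ} (hκ : th0 < κ) : ∀ᶠ z : ℕ in atTop, ∀ j, z ^ 20 ≤ j → j ≤ 2 * z ^ 20 → ∀ t b : ℕ, j = t / 5 →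
    2 * 2 ^ j ≤ b → (2 : ℝ) ^ ((th0 + 9 / 10 * (κ - th0)) * t) ≤ b → ∀ w : ℤ, (j - z ^ 11) / 2 ≤ od j w →
      (2 : ℝ) ^ (κ * ((t - j : ℕ) : ℝ)) ≤ ((3 ^ od j w * (b / 2 ^ j) : ℕ) : ℝ) := by
  have hΔ0 : 0 < κ - th0 := by linarith
  have hth := th0_gt
  have hth1 := th0_lt
  filter_upwards [poly_ev 2 hΔ0, eventually_ge_atTop 40] with z h1 h2
  intro j hr1 hj2 t b hj hb1 hb w hw
  obtain ⟨_, _, _, hA⟩ := nat_facts (c₂ := 0) h2 (by omega) hr1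
  rw [zero_mul, Nat.sub_zero, zero_add, mul_one] at hA
  obtain ⟨A, hAd⟩ : ∃ A, A = (j - z ^ 11) / 2 := ⟨_, rfl⟩
  rw [← hAd] at hA hw
  have hzt : (z : ℝ) ^ 20 ≤ t := by
    have h3 : z ^ 20 ≤ t := hr1.trans (by omega)
    have : (((z ^ 20 : ℕ)) : ℝ) ≤ t := Nat.cast_le.2 h3
    rwa [Nat.cast_pow] at this
  have hAr : (j : ℝ) ≤ 2 * A + 2 * (z : ℝ) ^ 12 := by
    have : ((j : ℕ) : ℝ) ≤ ((2 * A + 2 * z ^ 12 : ℕ) : ℝ) := Nat.cast_le.2 hA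
    rwa [Nat.cast_add, Nat.cast_mul, Nat.cast_mul, Nat.cast_pow] at this
  have hW0 : (0 : ℝ) ≤ 2 * (z : ℝ) ^ 12 := by
    have := pow_nonneg (Nat.cast_nonneg (α := ℝ) z) 12
    clear hr1 hj2 hAd
    positivity
  have hj5' : (t : ℝ) / 5 - 1 ≤ j := by
    have h3 : t ≤ 5 * j + 4 := by omega
    have : ((t : ℕ) : ℝ) ≤ ((5 * j + 4 : ℕ) : ℝ) := Nat.cast_le.2 h3
    rw [Nat.cast_add, Nat.cast_mul] at this
    clear hr1 hj2 hAd
    push_cast at this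
    linarith
  have hjt : j + (t - j) = t := by omega
  obtain ⟨Y, hY⟩ : ∃ Y, Y = b / 2 ^ j := ⟨_, rfl⟩
  have hY1 : 1 ≤ Y := by
    rw [hY, Nat.one_le_div_iff (Nat.two_pow_pos j)]
    omega
  have hXY : b < 2 ^ j * Y + 2 ^ j := by
    have := Nat.lt_div_mul_add (a := b) (b := 2 ^ j) (Nat.two_pow_pos j)
    rw [mul_comm, ← hY] at this
    exact this
  have hXYr : (b : ℝ) ≤ 2 ^ j * Y + 2 ^ j := by
    have : ((b : ℕ) : ℝ) ≤ ((2 ^ j * Y + 2 ^ j : ℕ) : ℝ) := Nat.cast_le.2 hXY.le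
    push_cast at this
    exact this
  rw [← hY]
  clear hr1 hj2 hAd hA
  have hM := len_fact (κ' := th0 + 9 / 10 * (κ - th0)) (κ := κ) (θ := th0) (Δ := κ - th0) (A := A)
    (W := 2 * (z : ℝ) ^ 12) (by ring) rfl hΔ0
    (by linarith) (by linarith) rfl hW0 hjt hj5' hAr (by
      refine h1.trans ?_
      apply mul_le_mul_of_nonneg_left _ hΔ0.le
      linarith) hb hXYr hY1
  refine hM.trans ?_
  have : 3 ^ A * Y ≤ 3 ^ od j w * Y := Nat.mul_le_mul_right _ (Nat.pow_le_pow_right (by norm_num) hw)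
  exact_mod_cast this

theorem ST_step {n : ℕ} {κ : ℝ} (hκ : th0 < κ) (h : ST n κ) : ST (n + 1) (th0 + 9 / 10 * (κ - th0)) := by
  intro ε hε
  have hΔ0 : 0 < κ - th0 := by linarith
  have hth := th0_gt
  obtain ⟨t₁, ht₁⟩ := h (ε / 4) (by positivity)
  have hev : ∀ᶠ z : ℕ in atTop, ∀ j, z ^ 20 ≤ j → j ≤ 2 * z ^ 20 →
      ((∀ Φ : ℕ → ℤ → ℝ, Inv (j / 8) Φ → (∀ o z, 0 ≤ Φ o z) → (∀ o z, Φ o z ≤ 1) → ∀ (o' : ℕ) (a : ℤ) (b : ℕ),
        16 * (2 : ℝ) ^ j ≤ (ε / 4) * b → 2 ^ j ≤ b →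
        |mn a b (bk j Φ o') - ex j (fun w => mn (3 ^ od j w * (a / 2 ^ j)) (3 ^ od j w * (b / 2 ^ j)) (Φ (o' + od j w)))| ≤ ε / 4) ∧
      ∃ A : ℕ, pb j (fun w => ¬ (A ≤ od j w)) ≤ ε / 4 ∧ ∀ t b : ℕ, j = t / 5 →
        2 * 2 ^ j ≤ b → (2 : ℝ) ^ ((th0 + 9 / 10 * (κ - th0)) * t) ≤ b → ∀ w : ℤ, A ≤ od j w →
          (2 : ℝ) ^ (κ * ((t - j : ℕ) : ℝ)) ≤ ((3 ^ od j w * (b / 2 ^ j) : ℕ) : ℝ)) := by
    filter_upwards [stage_ev (show 0 < ε / 4 by positivity), low_ev (show 0 < ε / 4 by positivity), len_ev hκ] with z h1 h2 h3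
    intro j hj1 hj2
    exact ⟨h1 j hj1 hj2, _, h2 j hj1 hj2, h3 j hj1 hj2⟩
  obtain ⟨j₀, hj₀⟩ := ev_of_root hev
  obtain ⟨t₂, ht₂⟩ := eventually_atTop.1 ((exp_beats (64 / ε) (show 0 < th0 - 1 / 5 by linarith)).and
    (exp_beats 2 (show 0 < th0 - 1 / 5 by linarith)))
  refine ⟨max (max t₂ (2 * t₁)) (5 * j₀ + 10), fun t ht Φ hI h0 h1 o a b hb => ?_⟩
  rw [max_le_iff, max_le_iff] at ht
  obtain ⟨⟨ht2, ht1⟩, ht3⟩ := ht
  obtain ⟨g1, g2⟩ := ht₂ t ht2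
  obtain ⟨j, hj⟩ : ∃ j, j = t / 5 := ⟨_, rfl⟩
  obtain ⟨hst, A, hA, hlen⟩ := hj₀ j (by omega)
  have hj5 : (j : ℝ) ≤ t / 5 := by
    have : 5 * j ≤ t := by omega
    have : (5 : ℝ) * j ≤ t := by exact_mod_cast this
    linarith
  obtain ⟨s1, s2⟩ := size_fact (ε := ε / 8) (θ := th0) rfl hΔ0 (by positivity) hj5 (by
    have : 8 / (ε / 8) = 64 / ε := by field_simp; norm_num
    rw [this]; exact g1) g2 hb
  have s2n : 2 * 2 ^ j ≤ b := by exact_mod_cast s2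
  have hjt : j + (t - j) = t := by omega
  have b1 := hst (bk (t - j) Φ) (Inv_bk (by omega) Φ) (fun _ _ => h0 _ _) (fun _ _ => h1 _ _) o a b (by linarith) (by omega)
  rw [bk_bk, hjt] at b1
  have hIn : Inv (ln n (t - j) / 8) Φ := by
    rw [hj]; exact hI
  have b2 : ∀ w : ℤ, A ≤ od j w → |mn (3 ^ od j w * (a / 2 ^ j)) (3 ^ od j w * (b / 2 ^ j)) (bk (t - j) Φ (o + od j w)) -
      ex (t - j) (fun y => mn (Jn n (t - j) y (3 ^ od j w * (a / 2 ^ j), 3 ^ od j w * (b / 2 ^ j))).1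
        (Jn n (t - j) y (3 ^ od j w * (a / 2 ^ j), 3 ^ od j w * (b / 2 ^ j))).2 (Φ (o + od j w + od (t - j) y)))| ≤ ε / 4 := by
    intro w hw
    exact ht₁ (t - j) (by omega) Φ hIn h0 h1 _ _ _ (hlen t b hj s2n hb w hw)
  set G : ℤ → ℤ → ℝ := fun w y => mn (Jn n (t - j) y (3 ^ od j w * (a / 2 ^ j), 3 ^ od j w * (b / 2 ^ j))).1
        (Jn n (t - j) y (3 ^ od j w * (a / 2 ^ j), 3 ^ od j w * (b / 2 ^ j))).2 (Φ (o + od j w + od (t - j) y)) with hG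
  have hG0 : ∀ w y, 0 ≤ G w y := fun _ _ => mn_nonneg (h0 _)
  have hG1 : ∀ w y, G w y ≤ 1 := fun _ _ => mn_le_one (h1 _)
  have b3 : |ex j (fun w => mn (3 ^ od j w * (a / 2 ^ j)) (3 ^ od j w * (b / 2 ^ j)) (bk (t - j) Φ (o + od j w))) -
      ex j (fun w => ex (t - j) (G w))| ≤ ε / 4 + ε / 4 := by
    have c1 : ∀ w, |mn (3 ^ od j w * (a / 2 ^ j)) (3 ^ od j w * (b / 2 ^ j)) (bk (t - j) Φ (o + od j w)) - ex (t - j) (G w)| ≤
        ε / 4 + id1 (¬ (A ≤ od j w)) := by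
      intro w
      by_cases hw : A ≤ od j w
      · rw [id1_neg (not_not.2 hw), add_zero]; exact b2 w hw
      · rw [id1_pos hw]
        have d0 : 0 ≤ mn (3 ^ od j w * (a / 2 ^ j)) (3 ^ od j w * (b / 2 ^ j)) (bk (t - j) Φ (o + od j w)) :=
          mn_nonneg (fun _ => h0 _ _)
        have d1 : mn (3 ^ od j w * (a / 2 ^ j)) (3 ^ od j w * (b / 2 ^ j)) (bk (t - j) Φ (o + od j w)) ≤ 1 :=
          mn_le_one (fun _ => h1 _ _)
        have d2 : 0 ≤ ex (t - j) (G w) := ex_nonneg (hG0 w)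
        have d3 : ex (t - j) (G w) ≤ 1 := by
          rw [← ex_const (t - j) 1]; exact ex_mono (hG1 w)
        rw [abs_le]; constructor <;> linarith
    have c2 : |ex j (fun w => mn (3 ^ od j w * (a / 2 ^ j)) (3 ^ od j w * (b / 2 ^ j)) (bk (t - j) Φ (o + od j w))) -
      ex j (fun w => ex (t - j) (G w))| ≤ ex j (fun w => |mn (3 ^ od j w * (a / 2 ^ j)) (3 ^ od j w * (b / 2 ^ j))
        (bk (t - j) Φ (o + od j w)) - ex (t - j) (G w)|) := by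
      unfold ex
      rw [← sub_div, ← sum_sub_distrib, abs_div, abs_of_pos (by positivity : (0 : ℝ) < 2 ^ j)]
      apply div_le_div_of_nonneg_right _ (by positivity)
      exact abs_sum_le_sum_abs _ _
    refine c2.trans ((ex_mono c1).trans ?_)
    rw [ex_add, ex_const, ← pb_id1]
    linarith
  have b4 : ex j (fun w => ex (t - j) (G w)) =
      ex t (fun y => mn (Jn (n + 1) t y (a, b)).1 (Jn (n + 1) t y (a, b)).2 (Φ (o + od t y))) := by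
    have e1 := ex_pair j (t - j) G
      (by intro z x u
          simp only [hG]
          rw [od_add])
      (by intro w x u
          simp only [hG]
          have e2 := per_Jn n (t - j) (3 ^ od j w * (a / 2 ^ j), 3 ^ od j w * (b / 2 ^ j)) x u
          simp only at e2
          rw [e2, od_add])
    rw [hjt] at e1
    rw [← e1]
    apply ex_congr
    intro y
    simp only [hG]
    have e3 : od t y = od j y + od (t - j) (T^[j] y) := by rw [← od_comp, hjt]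
    have e4 : Jn (n + 1) t y (a, b) = Jn n (t - j) (T^[j] y) (3 ^ od j y * (a / 2 ^ j), 3 ^ od j y * (b / 2 ^ j)) := by
      rw [Jn, hj]
    rw [e4, e3, add_assoc]
  rw [b4] at b3
  have := abs_sub_le (mn a b (bk t Φ o))
    (ex j (fun w => mn (3 ^ od j w * (a / 2 ^ j)) (3 ^ od j w * (b / 2 ^ j)) (bk (t - j) Φ (o + od j w))))
    (ex t (fun y => mn (Jn (n + 1) t y (a, b)).1 (Jn (n + 1) t y (a, b)).2 (Φ (o + od t y))))
  linarith

theorem ST_all (n : ℕ) : ST n (th0 + (9 / 10) ^ n * (2 - th0)) := by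
  have hth := th0_lt
  induction n with
  | zero => rw [pow_zero, one_mul, add_sub_cancel]; exact ST_base
  | succ n ih =>
    have h2 : 0 < (9 / 10 : ℝ) ^ n * (2 - th0) := mul_pos (by positivity) (by linarith)
    have h3 := ST_step (by linarith) ih
    rw [add_sub_cancel_left] at h3
    rw [pow_succ]
    have e : (9 / 10 : ℝ) ^ n * (9 / 10) * (2 - th0) = 9 / 10 * ((9 / 10) ^ n * (2 - th0)) := by ring
    rw [e]; exact h3

end Pool.Agent.J4H39
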