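import Mathlib
import Pool.Agent.J4H39.M2

set_option autoImplicit false

namespace Pool.Agent.J4H39

open Finset Filter Real

/-! The intervals of a path. -/

/-- left end of the final interval -/
def An : ℕ → ℕ → ℤ → ℤ → ℤ
  | 0, t, y, a => 3 ^ od t y * (a / 2 ^ t)
  | n + 1, t, y, a => An n (t - t / 5) (T^[t / 5] y) (3 ^ od (t / 5) y * (a / 2 ^ (t / 5)))

/-- length of the final interval -/
def Lr : ℕ → ℕ → ℤ → ℕ → ℕ
  | 0, t, y, b => 3 ^ od t y * (b / 2 ^ t)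
  | n + 1, t, y, b => Lr n (t - t / 5) (T^[t / 5] y) (3 ^ od (t / 5) y * (b / 2 ^ (t / 5)))

theorem Jn_eq (n : ℕ) : ∀ (t : ℕ) (y : ℤ) (p : ℤ × ℕ), Jn n t y p = (An n t y p.1, Lr n t y p.2) := by
  induction n with
  | zero => intro t y p; rfl
  | succ n ih => intro t y p; rw [Jn, ih]; rfl

theorem An_mono (n : ℕ) : ∀ (t : ℕ) (y : ℤ) {a a' : ℤ}, a ≤ a' → An n t y a ≤ An n t y a' := by
  induction n with
  | zero =>
    intro t y a a' h
    simp only [An]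
    exact mul_le_mul_of_nonneg_left (Int.ediv_le_ediv (by positivity) h) (by positivity)
  | succ n ih =>
    intro t y a a' h
    simp only [An]
    apply ih
    exact mul_le_mul_of_nonneg_left (Int.ediv_le_ediv (by positivity) h) (by positivity)

theorem add_ediv_ge (a : ℤ) (b t : ℕ) : a / 2 ^ t + ((b / 2 ^ t : ℕ) : ℤ) ≤ (a + b) / 2 ^ t := by
  rw [Int.le_ediv_iff_mul_le (by positivity)]
  have h1 := Int.ediv_mul_le a (show (2 : ℤ) ^ t ≠ 0 by positivity)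
  have h2 : ((b / 2 ^ t : ℕ) : ℤ) * 2 ^ t ≤ b := by
    have := Nat.div_mul_le_self b (2 ^ t)
    exact_mod_cast this
  linarith

theorem An_add (n : ℕ) : ∀ (t : ℕ) (y a : ℤ) (b : ℕ), An n t y a + Lr n t y b ≤ An n t y (a + b) := by
  induction n with
  | zero =>
    intro t y a b
    simp only [An, Lr]
    push_cast
    have h := add_ediv_ge a b t
    push_cast at h
    have h3 : (0 : ℤ) < 3 ^ od t y := by positivity
    nlinarith
  | succ n ih =>
    intro t y a b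
    simp only [An, Lr]
    refine (ih _ _ _ _).trans (An_mono n _ _ ?_)
    have h := add_ediv_ge a b (t / 5)
    push_cast at h ⊢
    have h3 : (0 : ℤ) < 3 ^ od (t / 5) y := by positivity
    nlinarith

/-- the contraction factor -/
noncomputable def qf (t : ℕ) (y : ℤ) : ℝ := 3 ^ od t y / 2 ^ t

theorem qf_pos (t : ℕ) (y : ℤ) : 0 < qf t y := by unfold qf; positivity

theorem qf_comp {j t : ℕ} (h : j ≤ t) (y : ℤ) : qf t y = qf (t - j) (T^[j] y) * qf j y := by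
  unfold qf
  have e1 : od t y = od j y + od (t - j) (T^[j] y) := by rw [← od_comp, Nat.add_sub_cancel' h]
  have e2 : (2 : ℝ) ^ t = 2 ^ j * 2 ^ (t - j) := by rw [← pow_add, Nat.add_sub_cancel' h]
  rw [e1, e2, pow_add]
  field_simp

/-- the rounding error -/
noncomputable def Bn : ℕ → ℕ → ℤ → ℝ
  | 0, t, _ => 2 ^ t
  | n + 1, t, y => 2 ^ (t / 5) + Bn n (t - t / 5) (T^[t / 5] y) / qf (t / 5) y

theorem Bn_nonneg (n : ℕ) : ∀ (t : ℕ) (y : ℤ), 0 ≤ Bn n t y := by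
  induction n with
  | zero => intro t y; unfold Bn; positivity
  | succ n ih =>
    intro t y
    unfold Bn
    have := ih (t - t / 5) (T^[t / 5] y)
    have := qf_pos (t / 5) y
    positivity

theorem floor_bd (a : ℤ) (t : ℕ) (y : ℤ) : qf t y * (a - 2 ^ t) ≤ ((3 ^ od t y * (a / 2 ^ t) : ℤ) : ℝ) ∧
    ((3 ^ od t y * (a / 2 ^ t) : ℤ) : ℝ) ≤ qf t y * a := by
  have h2 : (0 : ℤ) < 2 ^ t := by positivity
  have h3 : (0 : ℝ) < 3 ^ od t y := by positivity
  have h2r : (0 : ℝ) < 2 ^ t := by positivity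
  have e1 := Int.emod_add_mul_ediv a (2 ^ t)
  have e2 := Int.emod_nonneg a h2.ne'
  have e3 := Int.emod_lt_of_pos a h2
  have f1 : ((a % 2 ^ t : ℤ) : ℝ) + 2 ^ t * ((a / 2 ^ t : ℤ) : ℝ) = a := by exact_mod_cast e1
  have f2 : (0 : ℝ) ≤ ((a % 2 ^ t : ℤ) : ℝ) := by exact_mod_cast e2
  have f3 : ((a % 2 ^ t : ℤ) : ℝ) < 2 ^ t := by exact_mod_cast e3
  unfold qf
  rw [Int.cast_mul, Int.cast_pow]
  constructor
  · rw [div_mul_eq_mul_div, div_le_iff₀ h2r]
    have : (a : ℝ) - 2 ^ t ≤ ((a / 2 ^ t : ℤ) : ℝ) * 2 ^ t := by linarith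
    calc (3 : ℝ) ^ od t y * (a - 2 ^ t) ≤ 3 ^ od t y * (((a / 2 ^ t : ℤ) : ℝ) * 2 ^ t) := mul_le_mul_of_nonneg_left this h3.le
      _ = ((3 : ℤ) : ℝ) ^ od t y * ((a / 2 ^ t : ℤ) : ℝ) * 2 ^ t := by push_cast; ring
  · rw [div_mul_eq_mul_div, le_div_iff₀ h2r]
    have : ((a / 2 ^ t : ℤ) : ℝ) * 2 ^ t ≤ a := by linarith
    calc ((3 : ℤ) : ℝ) ^ od t y * ((a / 2 ^ t : ℤ) : ℝ) * 2 ^ t = 3 ^ od t y * (((a / 2 ^ t : ℤ) : ℝ) * 2 ^ t) := by push_cast; ring
      _ ≤ 3 ^ od t y * a := mul_le_mul_of_nonneg_left this h3.le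

theorem An_bd (n : ℕ) : ∀ (t : ℕ) (y a : ℤ), qf t y * (a - Bn n t y) ≤ (An n t y a : ℝ) ∧ (An n t y a : ℝ) ≤ qf t y * a := by
  induction n with
  | zero => intro t y a; exact floor_bd a t y
  | succ n ih =>
    intro t y a
    have hj : t / 5 ≤ t := Nat.div_le_self t 5
    have h1 := floor_bd a (t / 5) y
    have h2 := ih (t - t / 5) (T^[t / 5] y) (3 ^ od (t / 5) y * (a / 2 ^ (t / 5)))
    have hq := qf_comp hj y
    have hq1 := qf_pos (t / 5) y
    have hq2 := qf_pos (t - t / 5) (T^[t / 5] y)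
    simp only [An, Bn]
    constructor
    · refine le_trans ?_ h2.1
      rw [hq, mul_assoc]
      apply mul_le_mul_of_nonneg_left _ hq2.le
      have : qf (t / 5) y * (a - (2 ^ (t / 5) + Bn n (t - t / 5) (T^[t / 5] y) / qf (t / 5) y)) =
          qf (t / 5) y * (a - 2 ^ (t / 5)) - Bn n (t - t / 5) (T^[t / 5] y) := by
        field_simp
        ring
      rw [this]
      linarith [h1.1]
    · refine h2.2.trans ?_
      rw [hq, mul_assoc]
      exact mul_le_mul_of_nonneg_left h1.2 hq2.le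

theorem Lr_eq_An (n : ℕ) : ∀ (t : ℕ) (y : ℤ) (b : ℕ), ((Lr n t y b : ℕ) : ℤ) = An n t y b := by
  induction n with
  | zero => intro t y b; simp only [Lr, An]; push_cast; rfl
  | succ n ih => intro t y b; simp only [Lr, An]; rw [ih]; push_cast; rfl

theorem Lr_bd (n t : ℕ) (y : ℤ) (b : ℕ) : qf t y * (b - Bn n t y) ≤ (Lr n t y b : ℝ) ∧ (Lr n t y b : ℝ) ≤ qf t y * b := by
  have h := An_bd n t y b
  have e : ((Lr n t y b : ℕ) : ℝ) = ((An n t y b : ℤ) : ℝ) := by rw [← Lr_eq_An]; push_cast; rfl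
  rw [e]
  exact_mod_cast h

theorem ln_bd (n : ℕ) : ∀ t : ℕ, (ln n t : ℝ) ≤ (4 / 5) ^ n * t + 5 * (1 - (4 / 5) ^ n) := by
  induction n with
  | zero => intro t; simp [ln]
  | succ n ih =>
    intro t
    simp only [ln]
    refine (ih (t - t / 5)).trans ?_
    have h1 : ((t - t / 5 : ℕ) : ℝ) ≤ 4 / 5 * t + 4 / 5 := by
      have : 5 * (t - t / 5) ≤ 4 * t + 4 := by omega
      have : (5 : ℝ) * ((t - t / 5 : ℕ) : ℝ) ≤ 4 * t + 4 := by exact_mod_cast this
      linarith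
    have hp : (0 : ℝ) < (4 / 5) ^ n := by positivity
    have h2 := mul_le_mul_of_nonneg_left h1 hp.le
    rw [pow_succ]
    linarith

theorem ln_le (n t : ℕ) : (ln n t : ℝ) ≤ (4 / 5) ^ n * t + 5 := by
  have := ln_bd n t
  have hp : (0 : ℝ) < (4 / 5) ^ n := by positivity
  linarith

theorem Bn_bd (n : ℕ) : ∀ (t : ℕ) (y : ℤ) (C : ℝ), (∀ s ≤ t, 1 ≤ C * 2 ^ (th0 * s) * qf s y) →
    Bn n t y ≤ (n + 1) * C * 2 ^ (th0 * t + (1 - th0) * ln n t) := by
  have hth := th0_gt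
  have hth1 := th0_lt
  induction n with
  | zero =>
    intro t y C hC
    unfold Bn
    simp only [ln]
    have h0 := hC 0 (by omega)
    simp [qf, od] at h0
    have e : th0 * (t : ℝ) + (1 - th0) * t = t := by ring
    rw [e, Real.rpow_natCast]
    push_cast
    have : (0 : ℝ) < 2 ^ t := by positivity
    nlinarith
  | succ n ih =>
    intro t y C hC
    have h0 := hC 0 (by omega)
    simp [qf, od] at h0
    obtain ⟨j, hj⟩ : ∃ j, j = t / 5 := ⟨_, rfl⟩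
    have hjt : j ≤ t := by omega
    simp only [Bn, ln]
    rw [← hj]
    have hq1 := qf_pos j y
    have hC' := ih (t - j) (T^[j] y) (C * 2 ^ (th0 * j) * qf j y) (by
      intro s hs
      have h1 := hC (j + s) (by omega)
      have h2 := qf_comp (show j ≤ j + s by omega) y
      rw [Nat.add_sub_cancel_left] at h2
      rw [h2] at h1
      have e : (2 : ℝ) ^ (th0 * ((j + s : ℕ) : ℝ)) = 2 ^ (th0 * (j : ℝ)) * 2 ^ (th0 * (s : ℝ)) := by
        rw [← Real.rpow_add (by norm_num)]; congr 1; push_cast; ring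
      rw [e] at h1
      calc (1 : ℝ) ≤ C * (2 ^ (th0 * (j : ℝ)) * 2 ^ (th0 * (s : ℝ))) * (qf s (T^[j] y) * qf j y) := h1
        _ = C * 2 ^ (th0 * (j : ℝ)) * qf j y * 2 ^ (th0 * (s : ℝ)) * qf s (T^[j] y) := by ring)
    have hln : (0 : ℝ) ≤ (1 - th0) * (ln n (t - j) : ℕ) := mul_nonneg (by linarith) (by positivity)
    have h3 : Bn n (t - j) (T^[j] y) / qf j y ≤ (n + 1) * C * 2 ^ (th0 * t + (1 - th0) * (ln n (t - j) : ℕ)) := by
      rw [div_le_iff₀ hq1]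
      refine hC'.trans (le_of_eq ?_)
      have e : (2 : ℝ) ^ (th0 * t + (1 - th0) * (ln n (t - j) : ℕ)) =
          2 ^ (th0 * (j : ℝ)) * 2 ^ (th0 * ((t - j : ℕ) : ℝ) + (1 - th0) * (ln n (t - j) : ℕ)) := by
        rw [← Real.rpow_add (by norm_num)]; congr 1; rw [Nat.cast_sub hjt]; ring
      rw [e]; ring
    have h4 : (2 : ℝ) ^ j ≤ C * 2 ^ (th0 * t + (1 - th0) * (ln n (t - j) : ℕ)) := by
      have h5 : (2 : ℝ) ^ j ≤ 2 ^ (th0 * t + (1 - th0) * (ln n (t - j) : ℕ)) := by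
        rw [← Real.rpow_natCast]
        apply Real.rpow_le_rpow_of_exponent_le (by norm_num)
        have h6 : (j : ℝ) ≤ t / 5 := by
          have : 5 * j ≤ t := by omega
          have : (5 : ℝ) * j ≤ t := by exact_mod_cast this
          linarith
        have h7 : 1 / 5 * (t : ℝ) ≤ th0 * t := mul_le_mul_of_nonneg_right hth.le (by positivity)
        linarith
      have h6 : (0 : ℝ) < 2 ^ (th0 * t + (1 - th0) * (ln n (t - j) : ℕ)) := by positivity
      nlinarith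
    push_cast at h3 ⊢
    linarith

/-- good words -/
def Gy (t δ : ℕ) (y : ℤ) : Prop := ∀ s ≤ t, s ≤ 2 * od s y + δ ∧ 2 * od s y ≤ s + δ

theorem qf_eq (s : ℕ) (y : ℤ) : qf s y = 2 ^ (2 * (1 - th0) * od s y - s) := by
  unfold qf
  rw [three_pow, Real.rpow_sub (by norm_num), Real.rpow_natCast]

theorem Gy_low {t δ : ℕ} {y : ℤ} (h : Gy t δ y) {s : ℕ} (hs : s ≤ t) : 1 ≤ 2 ^ (δ : ℝ) * 2 ^ (th0 * s) * qf s y := by
  have hth := th0_gt
  have hth1 := th0_lt
  obtain ⟨h1, _⟩ := h s hs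
  have h1r : (s : ℝ) ≤ 2 * od s y + δ := by exact_mod_cast h1
  rw [qf_eq, ← Real.rpow_add (by norm_num), ← Real.rpow_add (by norm_num)]
  apply Real.one_le_rpow (by norm_num)
  have h2 : (1 - th0) * (s - δ) ≤ (1 - th0) * (2 * od s y) := mul_le_mul_of_nonneg_left (by linarith) (by linarith)
  have h3 : 0 ≤ th0 * (δ : ℝ) := mul_nonneg (by linarith) (by positivity)
  have e1 : 2 * (1 - th0) * (od s y : ℝ) = (1 - th0) * (2 * od s y) := by ring
  rw [e1]
  have e2 : (1 - th0) * ((s : ℝ) - δ) = s - δ - th0 * s + th0 * δ := by ring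
  rw [e2] at h2
  linarith

theorem Gy_up {t δ : ℕ} {y : ℤ} (h : Gy t δ y) {s : ℕ} (hs : s ≤ t) : qf s y ≤ 2 ^ ((δ : ℝ) - th0 * s) := by
  have hth := th0_gt
  have hth1 := th0_lt
  obtain ⟨_, h1⟩ := h s hs
  have h1r : 2 * (od s y : ℝ) ≤ s + δ := by exact_mod_cast h1
  rw [qf_eq]
  apply Real.rpow_le_rpow_of_exponent_le (by norm_num)
  have h2 : (1 - th0) * (2 * (od s y : ℝ)) ≤ (1 - th0) * (s + δ) := mul_le_mul_of_nonneg_left h1r (by linarith)
  have h3 : 0 ≤ th0 * (δ : ℝ) := mul_nonneg (by linarith) (by positivity)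
  have e1 : 2 * (1 - th0) * (od s y : ℝ) = (1 - th0) * (2 * od s y) := by ring
  rw [e1]
  have e2 : (1 - th0) * ((s : ℝ) + δ) = s + δ - th0 * s - th0 * δ := by ring
  rw [e2] at h2
  linarith

theorem Gy_Bn {t δ : ℕ} {y : ℤ} (h : Gy t δ y) (n : ℕ) :
    Bn n t y ≤ (n + 1) * 2 ^ (δ : ℝ) * 2 ^ (th0 * t + (1 - th0) * ln n t) :=
  Bn_bd n t y (2 ^ (δ : ℝ)) (fun _ hs => Gy_low h hs)

theorem Gy_of_Gd {t L δ : ℕ} {y : ℤ} (h : Gd t L δ y) : Gy t δ y := fun _ hs => ⟨od_lo h hs, od_up h hs⟩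

theorem per_Gy (t δ : ℕ) : Per t (Gy t δ) := by
  intro x u
  unfold Gy
  apply propext
  apply forall_congr'
  intro s
  apply forall_congr'
  intro hs
  rw [per_od hs x u]

end Pool.Agent.J4H39
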