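import Mathlib
import Pool.Agent.J4H39.M3
import Pool.Agent.J4H39.M4

set_option autoImplicit false

namespace Pool.Agent.J4H39

open Finset Filter Real

/-! Pairs of blocks, for fixed parameters. -/

theorem pair_fixed {n s k k' δ b M R G D : ℕ} {η ε' : ℝ} (hk : k' ≤ k) (hη0 : 0 < η) (hη1 : η ≤ 1 / 4) (hε' : 0 ≤ ε')
    (hβ : ((n : ℝ) + 1) * (2 : ℝ) ^ (δ : ℝ) * (2 : ℝ) ^ (th0 * s + (1 - th0) * ln n s) ≤ η * b)
    (hR : ((G : ℝ) + 2) * (b * (2 : ℝ) ^ ((δ : ℝ) - th0 * s)) ≤ R) (hns : ∀ ρ : ℤ, |ρ| ≤ 2 * R → ns k' (0, ρ) ≤ ε')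
    (h2k : (2 : ℝ) ^ k' ≤ ((M : ℝ) + 1) * (b * (1 / 2) * (2 : ℝ) ^ (-(δ : ℝ) - th0 * s)))
    (hTT : ∀ D ≤ δ, ∀ (x' : ℤ) (W : ℕ), ((M : ℝ) + 1) * (b * (1 / 2) * (2 : ℝ) ^ (-(δ : ℝ) - th0 * s)) ≤ W →
      |∑ v ∈ range W, id1 (T^[k] (x' + (v : ℕ)) = T^[k] (3 ^ D * (x' + (v : ℕ)))) - W * (1 - ns k ((D : ℤ), 0))| ≤ ε' * W)
    {y y' : ℤ} (hy : Gy s δ y) (hy' : Gy s δ y') (hD : od s y' = od s y + D) (x g : ℤ) (hg : |g| ≤ G) :
    |(∑ p ∈ range (M + 1), mn (An n s y (x + (p : ℕ) * b)) (Lr n s y b)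
        (fun z => mn (An n s y' (x + g * b + (p : ℕ) * b)) (Lr n s y' b) (fun z' => id1 (T^[k] z ≠ T^[k] z')))) / (M + 1) -
      ns k ((D : ℤ), 0)| ≤ 20 * ε' + 8 * η := by
  have hth := th0_gt
  have hth1 := th0_lt
  obtain ⟨q, hq⟩ : ∃ q, q = qf s y := ⟨_, rfl⟩
  obtain ⟨q', hq'⟩ : ∃ q', q' = qf s y' := ⟨_, rfl⟩
  have hq0 : 0 < q := by rw [hq]; exact qf_pos _ _
  have hq0' : 0 < q' := by rw [hq']; exact qf_pos _ _
  have hqq : q' = 3 ^ D * q := by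
    rw [hq, hq']; unfold qf; rw [hD, pow_add]; ring
  have hDδ : D ≤ δ := by
    have := (hy s le_rfl).1
    have := (hy' s le_rfl).2
    omega
  -- the rounding errors
  have hB := Gy_Bn hy n
  have hB' := Gy_Bn hy' n
  obtain ⟨B, hBd⟩ : ∃ B, B = Bn n s y := ⟨_, rfl⟩
  obtain ⟨B', hBd'⟩ : ∃ B', B' = Bn n s y' := ⟨_, rfl⟩
  have hB1 : B ≤ η * b := by rw [hBd]; exact hB.trans hβ
  have hB1' : B' ≤ η * b := by rw [hBd']; exact hB'.trans hβ
  -- lower bounds for q b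
  have hpos : (0 : ℝ) < (2 : ℝ) ^ (δ : ℝ) * (2 : ℝ) ^ (th0 * s) := by positivity
  have hlow : ∀ y₁, Gy s δ y₁ → (2 : ℝ) ^ (-(δ : ℝ) - th0 * s) ≤ qf s y₁ := by
    intro y₁ h
    have h1 := Gy_low h (le_refl s)
    have e : (2 : ℝ) ^ (-(δ : ℝ) - th0 * s) = ((2 : ℝ) ^ (δ : ℝ) * (2 : ℝ) ^ (th0 * s))⁻¹ := by
      rw [← Real.rpow_add (by norm_num), ← Real.rpow_neg (by norm_num)]; congr 1; ring
    rw [e, inv_le_iff_one_le_mul₀ hpos]
    linarith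
  have hβ2 : (2 : ℝ) ^ (δ : ℝ) * (2 : ℝ) ^ (th0 * s) ≤ η * b := by
    refine le_trans ?_ hβ
    have h1 : (2 : ℝ) ^ (th0 * s) ≤ (2 : ℝ) ^ (th0 * s + (1 - th0) * ln n s) := by
      apply Real.rpow_le_rpow_of_exponent_le (by norm_num)
      have : 0 ≤ (1 - th0) * (ln n s : ℝ) := mul_nonneg (by linarith) (by positivity)
      linarith
    have h2 : (2 : ℝ) ^ (δ : ℝ) * (2 : ℝ) ^ (th0 * s) ≤ (2 : ℝ) ^ (δ : ℝ) * (2 : ℝ) ^ (th0 * s + (1 - th0) * ln n s) :=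
      mul_le_mul_of_nonneg_left h1 (by positivity)
    have h3 : (0 : ℝ) ≤ n * ((2 : ℝ) ^ (δ : ℝ) * (2 : ℝ) ^ (th0 * s + (1 - th0) * ln n s)) := by positivity
    linarith
  have hqb : ∀ y₁, Gy s δ y₁ → 1 / η ≤ qf s y₁ * b := by
    intro y₁ h
    have h1 := Gy_low h (le_refl s)
    rw [div_le_iff₀ hη0]
    have h2 : ((2 : ℝ) ^ (δ : ℝ) * (2 : ℝ) ^ (th0 * s)) * qf s y₁ ≤ (η * b) * qf s y₁ := mul_le_mul_of_nonneg_right hβ2 (qf_pos _ _).le
    linarith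
  have hLlow : ∀ y₁, Gy s δ y₁ → (1 - η) * (qf s y₁ * b) ≤ (Lr n s y₁ b : ℝ) := by
    intro y₁ h
    have h1 := (Lr_bd n s y₁ b).1
    have h2 := Gy_Bn h n
    have h3 : qf s y₁ * ((1 - η) * b) ≤ qf s y₁ * (b - Bn n s y₁) := mul_le_mul_of_nonneg_left (by linarith) (qf_pos _ _).le
    linarith
  have hL1 : ∀ y₁, Gy s δ y₁ → 1 ≤ Lr n s y₁ b := by
    intro y₁ h
    have h1 := hLlow y₁ h
    have h2 := hqb y₁ h
    have h4 : (4 : ℝ) ≤ 1 / η := by rw [le_div_iff₀ hη0]; linarith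
    have h5 : (3 / 4 : ℝ) * 4 ≤ (1 - η) * (qf s y₁ * b) := mul_le_mul (by linarith) (by linarith) (by norm_num) (by linarith)
    have h6 : (0 : ℝ) < Lr n s y₁ b := by linarith
    exact_mod_cast h6
  have hML : ∀ y₁, Gy s δ y₁ → (M + 1) * (b * (1 / 2) * (2 : ℝ) ^ (-(δ : ℝ) - th0 * s)) ≤ (M + 1) * (Lr n s y₁ b : ℝ) := by
    intro y₁ h
    apply mul_le_mul_of_nonneg_left _ (by positivity)
    refine le_trans ?_ (hLlow y₁ h)
    have h1 := hlow y₁ h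
    have h2 : (b : ℝ) * (2 : ℝ) ^ (-(δ : ℝ) - th0 * s) ≤ b * qf s y₁ := mul_le_mul_of_nonneg_left h1 (by positivity)
    have h3 : 0 ≤ (b : ℝ) * qf s y₁ := mul_nonneg (by positivity) (qf_pos _ _).le
    calc (b : ℝ) * (1 / 2) * (2 : ℝ) ^ (-(δ : ℝ) - th0 * s) = (1 / 2) * (b * (2 : ℝ) ^ (-(δ : ℝ) - th0 * s)) := by ring
      _ ≤ (1 / 2) * (b * qf s y₁) := mul_le_mul_of_nonneg_left h2 (by norm_num)
      _ ≤ (1 - η) * (b * qf s y₁) := mul_le_mul_of_nonneg_right (by linarith) h3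
      _ = (1 - η) * (qf s y₁ * b) := by ring
  -- the total lengths
  have hWgen : ∀ (y₁ : ℤ), Gy s δ y₁ → ∀ x₁ : ℤ,
      ((An n s y₁ (x₁ + (M : ℕ) * b) + Lr n s y₁ b - An n s y₁ (x₁ + ((0 : ℕ) : ℤ) * b) : ℤ) : ℝ) ≤
        (1 + 4 * η) * ((M + 1) * (Lr n s y₁ b : ℝ)) := by
    intro y₁ h x₁
    have hz : x₁ + ((0 : ℕ) : ℤ) * (b : ℤ) = x₁ := by push_cast; ring
    rw [hz]
    have a1 := (An_bd n s y₁ (x₁ + (M : ℕ) * b)).2
    have a2 := (An_bd n s y₁ x₁).1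
    have a3 := (Lr_bd n s y₁ b).2
    have a4 := Gy_Bn h n
    have a5 := hLlow y₁ h
    have hqp := qf_pos s y₁
    push_cast at a1 a2 ⊢
    have b1 : qf s y₁ * Bn n s y₁ ≤ qf s y₁ * (η * b) := mul_le_mul_of_nonneg_left (a4.trans hβ) hqp.le
    have b2 : (1 + 4 * η) * ((M + 1) * ((1 - η) * (qf s y₁ * b))) ≤ (1 + 4 * η) * ((M + 1) * (Lr n s y₁ b : ℝ)) :=
      mul_le_mul_of_nonneg_left (mul_le_mul_of_nonneg_left a5 (by positivity)) (by linarith)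
    refine le_trans ?_ b2
    have b3 : (0 : ℝ) ≤ qf s y₁ * b := mul_nonneg hqp.le (by positivity)
    have b4 : (1 + η) ≤ (1 + 4 * η) * (1 - η) := by nlinarith
    have b5 : (1 + η) * ((M + 1) * (qf s y₁ * b)) ≤ ((1 + 4 * η) * (1 - η)) * ((M + 1) * (qf s y₁ * b)) :=
      mul_le_mul_of_nonneg_right b4 (by positivity)
    have b6 : (0 : ℝ) ≤ η * (M * (qf s y₁ * b)) := by positivity
    have e1 : (1 + 4 * η) * (((M : ℝ) + 1) * ((1 - η) * (qf s y₁ * b))) = ((1 + 4 * η) * (1 - η)) * ((M + 1) * (qf s y₁ * b)) := by ring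
    rw [e1]
    have e2 : (1 + η) * (((M : ℝ) + 1) * (qf s y₁ * b)) = M * (qf s y₁ * b) + qf s y₁ * b + η * (M * (qf s y₁ * b)) + qf s y₁ * (η * b) := by ring
    have e3 : qf s y₁ * ((x₁ : ℝ) + M * b) = qf s y₁ * x₁ + M * (qf s y₁ * b) := by ring
    have e4 : qf s y₁ * ((x₁ : ℝ) - Bn n s y₁) = qf s y₁ * x₁ - qf s y₁ * Bn n s y₁ := by ring
    rw [e3] at a1
    rw [e4] at a2
    linarith
  -- consecutive blocks
  have hdis : ∀ (y₁ x₁ : ℤ) (p : ℕ), An n s y₁ (x₁ + (p : ℕ) * b) + Lr n s y₁ b ≤ An n s y₁ (x₁ + ((p + 1 : ℕ) : ℤ) * b) := by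
    intro y₁ x₁ p
    have := An_add n s y₁ (x₁ + (p : ℕ) * b) b
    have e : x₁ + (p : ℕ) * (b : ℤ) + b = x₁ + ((p + 1 : ℕ) : ℤ) * b := by push_cast; ring
    rwa [e] at this
  have hgr : |(g : ℝ)| ≤ G := by exact_mod_cast hg
  have hR1 : 1 ≤ R := by
    have h1 := Gy_up hy (le_refl s)
    have h2 := hqb y hy
    have h4 : (4 : ℝ) ≤ 1 / η := by rw [le_div_iff₀ hη0]; linarith
    have h3 : qf s y * b ≤ b * (2 : ℝ) ^ ((δ : ℝ) - th0 * s) := by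
      rw [mul_comm]; exact mul_le_mul_of_nonneg_left h1 (by positivity)
    have h5 : (0 : ℝ) < R := by
      refine lt_of_lt_of_le ?_ hR
      have : (0 : ℝ) < b * (2 : ℝ) ^ ((δ : ℝ) - th0 * s) := by linarith
      positivity
    exact_mod_cast h5
  refine (S_claim (k := k) (k' := k') (D := D) (R := R) (M := M) (L := Lr n s y b) (L' := Lr n s y' b)
    (A := fun p => An n s y (x + (p : ℕ) * b)) (A' := fun p => An n s y' (x + g * b + (p : ℕ) * b)) (ε' := ε') (η := 4 * η)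
    (P := ns k ((D : ℤ), 0)) hk hR1 (hL1 y hy) (hL1 y' hy') (hdis y x) (hdis y' (x + g * b)) (hWgen y hy x)
    (hWgen y' hy' (x + g * b)) (by positivity) (by linarith) hε' ?_ hns (h2k.trans (hML y hy)) (h2k.trans (hML y' hy'))
    (ns_nonneg _ _) (ns_le_one _ _) ?_).trans (by linarith)
  · -- closeness
    intro p hp v hv v' hv'
    have a1 := An_bd n s y (x + (p : ℕ) * b)
    have a2 := An_bd n s y' (x + g * b + (p : ℕ) * b)
    have a3 := (Lr_bd n s y b).2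
    have a4 := (Lr_bd n s y' b).2
    rw [← hq, ← hBd] at a1
    rw [← hq', ← hBd'] at a2
    rw [← hq] at a3
    rw [← hq'] at a4
    have hvr : (v : ℝ) ≤ Lr n s y b := by exact_mod_cast hv.le
    have hvr' : (v' : ℝ) ≤ Lr n s y' b := by exact_mod_cast hv'.le
    have hv0 : (0 : ℝ) ≤ v := by positivity
    have hv0' : (0 : ℝ) ≤ v' := by positivity
    push_cast at a1 a2
    have h3D : (0 : ℝ) < 3 ^ D := by positivity
    have hup := Gy_up hy' (le_refl s)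
    rw [← hq'] at hup
    have hqR : (G + 2) * (b * q') ≤ R := by
      refine le_trans ?_ hR
      exact mul_le_mul_of_nonneg_left (mul_le_mul_of_nonneg_left hup (by positivity)) (by positivity)
    have hbq0 : (0 : ℝ) ≤ b * q' := by positivity
    have goal : |((An n s y' (x + g * b + (p : ℕ) * b) : ℤ) : ℝ) + v' - 3 ^ D * (((An n s y (x + (p : ℕ) * b) : ℤ) : ℝ) + v)| ≤ R := by
      have c1 : 3 ^ D * (q * ((x : ℝ) + p * b - B)) ≤ 3 ^ D * (((An n s y (x + (p : ℕ) * b) : ℤ) : ℝ) + v) :=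
        mul_le_mul_of_nonneg_left (by linarith [a1.1]) h3D.le
      have c2 : 3 ^ D * (((An n s y (x + (p : ℕ) * b) : ℤ) : ℝ) + v) ≤ 3 ^ D * (q * ((x : ℝ) + p * b) + q * b) :=
        mul_le_mul_of_nonneg_left (by linarith [a1.2]) h3D.le
      have c3 : 3 ^ D * (q * ((x : ℝ) + p * b - B)) = q' * (x + p * b) - q' * B := by rw [hqq]; ring
      have c4 : 3 ^ D * (q * ((x : ℝ) + p * b) + q * b) = q' * (x + p * b) + q' * b := by rw [hqq]; ring
      rw [c3] at c1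
      rw [c4] at c2
      have c5 : q' * ((x : ℝ) + g * b + p * b) = q' * (x + p * b) + g * (q' * b) := by ring
      have c6 : q' * ((x : ℝ) + g * b + p * b - B') = q' * (x + p * b) + g * (q' * b) - q' * B' := by ring
      rw [c6, c5] at a2
      have c7 : q' * B ≤ q' * (η * b) := mul_le_mul_of_nonneg_left hB1 hq0'.le
      have c8 : q' * B' ≤ q' * (η * b) := mul_le_mul_of_nonneg_left hB1' hq0'.le
      have c9 : q' * (η * b) ≤ b * q' := by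
        have : η * (b * q') ≤ 1 * (b * q') := mul_le_mul_of_nonneg_right (by linarith) hbq0
        linarith
      have c10 : |(g : ℝ) * (q' * b)| ≤ G * (b * q') := by
        rw [abs_mul, abs_of_nonneg (by linarith : (0 : ℝ) ≤ q' * b), mul_comm q']
        exact mul_le_mul_of_nonneg_right hgr hbq0
      rw [abs_le] at c10 ⊢
      have c11 : q' * (b : ℝ) = b * q' := by ring
      constructor
      · linarith [a2.1, a2.2, c10.1, c10.2]
      · linarith [a2.1, a2.2, c10.1, c10.2]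
    exact_mod_cast goal
  · -- the transfer
    have h1 := hTT D hDδ (An n s y (x + ((0 : ℕ) : ℤ) * b)) (An n s y (x + (M : ℕ) * b) + Lr n s y b - An n s y (x + ((0 : ℕ) : ℤ) * b)).toNat
      (by
        refine (hML y hy).trans ?_
        have := blocks_two (A := fun p : ℕ => An n s y (x + (p : ℕ) * b)) (hdis y x) (f := fun _ => 0) (fun _ => le_rfl)
          (fun _ => zero_le_one) M
        have h0 := (abs_nonneg _).trans this
        linarith)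
    exact h1

end Pool.Agent.J4H39
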