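import Mathlib
import Pool.Agent.J4H39.M5

set_option autoImplicit false

namespace Pool.Agent.J4H39

open Finset Filter Real

/-! The two-point kernel, for fixed parameters. -/

theorem mn_abs {a : ℤ} {b : ℕ} {f g : ℤ → ℝ} {c : ℝ} (hc : 0 ≤ c) (h : ∀ z, |f z - g z| ≤ c) :
    |mn a b f - mn a b g| ≤ c := by
  unfold mn
  rw [← sub_div, ← sum_sub_distrib, abs_div, Nat.abs_cast]
  rcases Nat.eq_zero_or_pos b with h0 | h0
  · subst h0; simpa using hc
  · have hb : (0 : ℝ) < b := by exact_mod_cast h0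
    rw [div_le_iff₀ hb]
    refine (abs_sum_le_sum_abs _ _).trans ((sum_le_sum fun _ _ => h _).trans (le_of_eq ?_))
    rw [sum_const, card_range, nsmul_eq_mul]; ring

theorem mn_mul (a : ℤ) (b : ℕ) (c : ℝ) (f : ℤ → ℝ) : mn a b (fun z => c * f z) = c * mn a b f := by
  unfold mn; rw [← mul_sum, mul_div_assoc]

theorem mn_comm (a a' : ℤ) (b b' : ℕ) (F : ℤ → ℤ → ℝ) :
    mn a b (fun z => mn a' b' (F z)) = mn a' b' (fun z' => mn a b (fun z => F z z')) := by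
  unfold mn
  simp only [← sum_div]
  rw [sum_comm, div_div, div_div, mul_comm]

theorem mn_ex (a : ℤ) (b s : ℕ) (F : ℤ → ℤ → ℝ) : mn a b (fun z => ex s (F z)) = ex s (fun y => mn a b (fun z => F z y)) := by
  unfold mn ex
  simp only [← sum_div]
  rw [sum_comm, div_div, div_div, mul_comm]

theorem ex_comm (s r : ℕ) (F : ℤ → ℤ → ℝ) : ex s (fun y => ex r (F y)) = ex r (fun y' => ex s (fun y => F y y')) := by
  unfold ex
  simp only [← sum_div]
  rw [sum_comm, div_div, div_div, mul_comm]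

theorem inv_pt {k₁ k : ℕ} (hk : k₁ ≤ k) (w : ℕ → ℝ) (Z : ℤ) : Inv k₁ (fun o z => w o * id1 (T^[k] z ≠ Z)) := by
  intro o z r hr
  obtain ⟨h1, _⟩ := merge_of_rn (rel_zero r z) (rn_zero_of_le hk hr)
  simp only
  rw [h1]

/-- transfer hypothesis for one trajectory at fixed parameters -/
def STf (n s k₁ b : ℕ) (ε₁ : ℝ) : Prop := ∀ Φ : ℕ → ℤ → ℝ, Inv k₁ Φ → (∀ o z, 0 ≤ Φ o z) → (∀ o z, Φ o z ≤ 1) →
  ∀ (o : ℕ) (a : ℤ), |mn a b (bk s Φ o) - ex s (fun y => mn (Jn n s y (a, b)).1 (Jn n s y (a, b)).2 (Φ (o + od s y)))| ≤ ε₁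

theorem KL_one {n s k k₁ b : ℕ} {ε₁ : ℝ} (hε₁ : 0 ≤ ε₁) (hk₁ : k₁ ≤ k) (hST : STf n s k₁ b ε₁)
    (ω : ℕ → ℕ → ℝ) (hω0 : ∀ o o', 0 ≤ ω o o') (hω1 : ∀ o o', ω o o' ≤ 1) (a a' : ℤ) :
    |mn a b (fun x => mn a' b (fun u => ω (od s x) (od s u) * id1 (T^[k + s] x ≠ T^[k + s] u))) -
      ex s (fun y => ex s (fun y' => ω (od s y) (od s y') * mn (An n s y a) (Lr n s y b)
        (fun z => mn (An n s y' a') (Lr n s y' b) (fun z' => id1 (T^[k] z ≠ T^[k] z')))))| ≤ 2 * ε₁ := by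
  obtain ⟨P1, hP1⟩ : ∃ P1 : ℤ → ℝ, P1 = fun x => mn a' b (fun u => ω (od s x) (od s u) * id1 (T^[k + s] x ≠ T^[k + s] u)) := ⟨_, rfl⟩
  have hb01 : ∀ (w : ℝ) (Q : Prop), 0 ≤ w → w ≤ 1 → 0 ≤ w * id1 Q ∧ w * id1 Q ≤ 1 := by
    intro w Q h0 h1
    refine ⟨mul_nonneg h0 (id1_nonneg _), ?_⟩
    calc w * id1 Q ≤ 1 * 1 := mul_le_mul h1 (id1_le_one _) (id1_nonneg _) zero_le_one
      _ = 1 := one_mul 1
  have s1 : ∀ x, |P1 x - ex s (fun y' => mn (An n s y' a') (Lr n s y' b)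
      (fun z' => ω (od s x) (od s y') * id1 (T^[k] z' ≠ T^[k] (T^[s] x))))| ≤ ε₁ := by
    intro x
    have h := hST (fun o z => ω (od s x) o * id1 (T^[k] z ≠ T^[k] (T^[s] x))) (inv_pt hk₁ _ _)
      (fun _ _ => (hb01 _ _ (hω0 _ _) (hω1 _ _)).1) (fun _ _ => (hb01 _ _ (hω0 _ _) (hω1 _ _)).2) 0 a'
    simp only [Jn_eq, zero_add] at h
    have e : mn a' b (bk s (fun o z => ω (od s x) o * id1 (T^[k] z ≠ T^[k] (T^[s] x))) 0) = P1 x := by
      rw [hP1]
      apply mn_congr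
      intro u
      unfold bk
      rw [zero_add, Function.iterate_add_apply, Function.iterate_add_apply]
      simp only
      congr 1
      exact id1_congr ne_comm
    rw [← e]; exact h
  have s2 := mn_abs (a := a) (b := b) hε₁ s1
  have s3 : mn a b (fun x => ex s (fun y' => mn (An n s y' a') (Lr n s y' b)
      (fun z' => ω (od s x) (od s y') * id1 (T^[k] z' ≠ T^[k] (T^[s] x))))) =
      ex s (fun y' => mn (An n s y' a') (Lr n s y' b) (fun z' => mn a b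
        (fun x => ω (od s x) (od s y') * id1 (T^[k] z' ≠ T^[k] (T^[s] x))))) := by
    rw [mn_ex]
    apply ex_congr
    intro y'
    rw [mn_comm]
  have s4 : ∀ y' z', |mn a b (fun x => ω (od s x) (od s y') * id1 (T^[k] z' ≠ T^[k] (T^[s] x))) -
      ex s (fun y => mn (An n s y a) (Lr n s y b) (fun z => ω (od s y) (od s y') * id1 (T^[k] z ≠ T^[k] z')))| ≤ ε₁ := by
    intro y' z'
    have h := hST (fun o z => ω o (od s y') * id1 (T^[k] z ≠ T^[k] z')) (inv_pt hk₁ _ _)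
      (fun _ _ => (hb01 _ _ (hω0 _ _) (hω1 _ _)).1) (fun _ _ => (hb01 _ _ (hω0 _ _) (hω1 _ _)).2) 0 a
    simp only [Jn_eq, zero_add] at h
    have e : mn a b (bk s (fun o z => ω o (od s y') * id1 (T^[k] z ≠ T^[k] z')) 0) =
        mn a b (fun x => ω (od s x) (od s y') * id1 (T^[k] z' ≠ T^[k] (T^[s] x))) := by
      apply mn_congr
      intro u
      unfold bk
      rw [zero_add]
      simp only
      congr 1
      exact id1_congr ne_comm
    rw [← e]; exact h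
  have s5 := ex_abs_const (s := s) (fun y' => mn_abs (a := An n s y' a') (b := Lr n s y' b) hε₁ (s4 y'))
  have s6 : ex s (fun y' => mn (An n s y' a') (Lr n s y' b) (fun z' => ex s (fun y => mn (An n s y a) (Lr n s y b)
      (fun z => ω (od s y) (od s y') * id1 (T^[k] z ≠ T^[k] z'))))) =
      ex s (fun y => ex s (fun y' => ω (od s y) (od s y') * mn (An n s y a) (Lr n s y b)
        (fun z => mn (An n s y' a') (Lr n s y' b) (fun z' => id1 (T^[k] z ≠ T^[k] z'))))) := by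
    rw [ex_comm s s (fun y y' => ω (od s y) (od s y') * mn (An n s y a) (Lr n s y b)
        (fun z => mn (An n s y' a') (Lr n s y' b) (fun z' => id1 (T^[k] z ≠ T^[k] z'))))]
    apply ex_congr
    intro y'
    rw [mn_ex]
    apply ex_congr
    intro y
    rw [← mn_mul, mn_comm]
    apply mn_congr
    intro z
    rw [mn_mul]
  rw [← s3] at s5
  rw [s6] at s5
  rw [hP1] at s2
  have := abs_sub_le (mn a b (fun x => mn a' b (fun u => ω (od s x) (od s u) * id1 (T^[k + s] x ≠ T^[k + s] u))))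
    (mn a b (fun x => ex s (fun y' => mn (An n s y' a') (Lr n s y' b)
      (fun z' => ω (od s x) (od s y') * id1 (T^[k] z' ≠ T^[k] (T^[s] x))))))
    (ex s (fun y => ex s (fun y' => ω (od s y) (od s y') * mn (An n s y a) (Lr n s y b)
        (fun z => mn (An n s y' a') (Lr n s y' b) (fun z' => id1 (T^[k] z ≠ T^[k] z'))))))
  linarith

/-- The conditions on the parameters. -/
structure PF (n s k k' δ b M R G : ℕ) (η ε' : ℝ) : Prop where
  hk : k' ≤ k
  hη0 : 0 < η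
  hη1 : η ≤ 1 / 4
  hε' : 0 ≤ ε'
  hβ : ((n : ℝ) + 1) * (2 : ℝ) ^ (δ : ℝ) * (2 : ℝ) ^ (th0 * s + (1 - th0) * ln n s) ≤ η * b
  hR : ((G : ℝ) + 2) * (b * (2 : ℝ) ^ ((δ : ℝ) - th0 * s)) ≤ R
  hns : ∀ ρ : ℤ, |ρ| ≤ 2 * R → ns k' (0, ρ) ≤ ε'
  h2k : (2 : ℝ) ^ k' ≤ ((M : ℝ) + 1) * (b * (1 / 2) * (2 : ℝ) ^ (-(δ : ℝ) - th0 * s))
  hTT : ∀ D ≤ δ, ∀ (x' : ℤ) (W : ℕ), ((M : ℝ) + 1) * (b * (1 / 2) * (2 : ℝ) ^ (-(δ : ℝ) - th0 * s)) ≤ W →
      |∑ v ∈ range W, id1 (T^[k] (x' + (v : ℕ)) = T^[k] (3 ^ D * (x' + (v : ℕ)))) - W * (1 - ns k ((D : ℤ), 0))| ≤ ε' * W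

theorem pair_both {n s k k' δ b M R G : ℕ} {η ε' : ℝ} (P : PF n s k k' δ b M R G η ε')
    {y y' : ℤ} (hy : Gy s δ y) (hy' : Gy s δ y') (x g : ℤ) (hg : |g| ≤ G) :
    |(∑ p ∈ range (M + 1), mn (An n s y (x + (p : ℕ) * b)) (Lr n s y b)
        (fun z => mn (An n s y' (x + g * b + (p : ℕ) * b)) (Lr n s y' b) (fun z' => id1 (T^[k] z ≠ T^[k] z')))) / (M + 1) -
      ns k ((od s y' : ℤ) - od s y, 0)| ≤ 20 * ε' + 8 * η := by
  rcases le_total (od s y) (od s y') with h | h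
  · obtain ⟨D, hD⟩ := Nat.exists_eq_add_of_le h
    have := pair_fixed P.hk P.hη0 P.hη1 P.hε' P.hβ P.hR P.hns P.h2k P.hTT hy hy' hD x g hg
    have e : ((od s y' : ℤ) - od s y) = (D : ℤ) := by omega
    rw [e]; exact this
  · obtain ⟨D, hD⟩ := Nat.exists_eq_add_of_le h
    have := pair_fixed P.hk P.hη0 P.hη1 P.hε' P.hβ P.hR P.hns P.h2k P.hTT hy' hy hD (x + g * b) (-g) (by rwa [abs_neg])
    have e : ((od s y' : ℤ) - od s y) = -(D : ℤ) := by omega
    have e2 : ns k (-(D : ℤ), 0) = ns k ((D : ℤ), 0) := by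
      have := ns_sw_nat k D 0
      rwa [neg_zero] at this
    rw [e, e2]
    refine le_trans (le_of_eq ?_) this
    congr 3
    apply sum_congr rfl
    intro p _
    rw [mn_comm]
    have e3 : x + g * (b : ℤ) + -g * b + (p : ℕ) * b = x + (p : ℕ) * b := by ring
    rw [e3]
    apply mn_congr
    intro z
    apply mn_congr
    intro z'
    exact id1_congr ne_comm

theorem avg_abs {M : ℕ} {X Y : ℕ → ℝ} {c : ℝ} (h : ∀ p, |X p - Y p| ≤ c) :
    |(∑ p ∈ range (M + 1), X p) / (M + 1) - (∑ p ∈ range (M + 1), Y p) / (M + 1)| ≤ c := by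
  have hM : (0 : ℝ) < (M : ℝ) + 1 := by positivity
  rw [← sub_div, ← sum_sub_distrib, abs_div, abs_of_pos hM, div_le_iff₀ hM]
  refine (abs_sum_le_sum_abs _ _).trans ((sum_le_sum fun _ _ => h _).trans (le_of_eq ?_))
  rw [sum_const, card_range, nsmul_eq_mul]; push_cast; ring

theorem KL_fixed {n s k k' k₁ δ b M R G : ℕ} {η ε' ε₁ : ℝ} (P : PF n s k k' δ b M R G η ε') (hε₁ : 0 ≤ ε₁) (hk₁ : k₁ ≤ k)
    (hST : STf n s k₁ b ε₁) (ω : ℕ → ℕ → ℝ) (hω0 : ∀ o o', 0 ≤ ω o o') (hω1 : ∀ o o', ω o o' ≤ 1)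
    (x g : ℤ) (hg : |g| ≤ G) :
    |(∑ p ∈ range (M + 1), mn (x + (p : ℕ) * b) b (fun v => mn (x + g * b + (p : ℕ) * b) b
        (fun u => ω (od s v) (od s u) * id1 (T^[k + s] v ≠ T^[k + s] u)))) / (M + 1) -
      ex s (fun y => ex s (fun y' => ω (od s y) (od s y') * ns k ((od s y' : ℤ) - od s y, 0)))| ≤
      2 * ε₁ + (20 * ε' + 8 * η) + 2 * pb s (fun y => ¬ Gy s δ y) := by
  have h1 := avg_abs (M := M) (fun p => KL_one (n := n) hε₁ hk₁ hST ω hω0 hω1 (x + (p : ℕ) * b) (x + g * b + (p : ℕ) * b))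
  have hM : (0 : ℝ) < (M : ℝ) + 1 := by positivity
  have hc0 : 0 ≤ 20 * ε' + 8 * η := by
    have := P.hε'
    have := P.hη0
    positivity
  have h2 : (∑ p ∈ range (M + 1), ex s (fun y => ex s (fun y' => ω (od s y) (od s y') * mn (An n s y (x + (p : ℕ) * b)) (Lr n s y b)
      (fun z => mn (An n s y' (x + g * b + (p : ℕ) * b)) (Lr n s y' b) (fun z' => id1 (T^[k] z ≠ T^[k] z')))))) / ((M : ℝ) + 1) =
      ex s (fun y => ex s (fun y' => ω (od s y) (od s y') * ((∑ p ∈ range (M + 1), mn (An n s y (x + (p : ℕ) * b)) (Lr n s y b)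
      (fun z => mn (An n s y' (x + g * b + (p : ℕ) * b)) (Lr n s y' b) (fun z' => id1 (T^[k] z ≠ T^[k] z')))) / (M + 1)))) := by
    rw [← ex_sum, div_eq_inv_mul, ← ex_mul]
    apply ex_congr
    intro y
    rw [← ex_sum, ← ex_mul]
    apply ex_congr
    intro y'
    rw [← mul_sum]
    field_simp
  rw [h2] at h1
  have h3 : ∀ y y', |ω (od s y) (od s y') * ((∑ p ∈ range (M + 1), mn (An n s y (x + (p : ℕ) * b)) (Lr n s y b)
      (fun z => mn (An n s y' (x + g * b + (p : ℕ) * b)) (Lr n s y' b) (fun z' => id1 (T^[k] z ≠ T^[k] z')))) / (M + 1)) -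
      ω (od s y) (od s y') * ns k ((od s y' : ℤ) - od s y, 0)| ≤ (20 * ε' + 8 * η) + id1 (¬ Gy s δ y) + id1 (¬ Gy s δ y') := by
    intro y y'
    rw [← mul_sub, abs_mul, abs_of_nonneg (hω0 _ _)]
    refine (mul_le_mul_of_nonneg_right (hω1 _ _) (abs_nonneg _)).trans ?_
    rw [one_mul]
    have i1 := id1_nonneg (¬ Gy s δ y)
    have i2 := id1_nonneg (¬ Gy s δ y')
    by_cases hy : Gy s δ y
    · by_cases hy' : Gy s δ y'
      · have := pair_both P hy hy' x g hg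
        linarith
      · rw [id1_pos hy']
        have a0 : 0 ≤ (∑ p ∈ range (M + 1), mn (An n s y (x + (p : ℕ) * b)) (Lr n s y b)
          (fun z => mn (An n s y' (x + g * b + (p : ℕ) * b)) (Lr n s y' b) (fun z' => id1 (T^[k] z ≠ T^[k] z')))) / ((M : ℝ) + 1) :=
          div_nonneg (sum_nonneg fun _ _ => mn_nonneg fun _ => mn_nonneg fun _ => id1_nonneg _) hM.le
        have a1 : (∑ p ∈ range (M + 1), mn (An n s y (x + (p : ℕ) * b)) (Lr n s y b)
          (fun z => mn (An n s y' (x + g * b + (p : ℕ) * b)) (Lr n s y' b) (fun z' => id1 (T^[k] z ≠ T^[k] z')))) / ((M : ℝ) + 1) ≤ 1 := by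
          rw [div_le_one hM]
          refine (sum_le_sum fun _ _ => mn_le_one fun _ => mn_le_one fun _ => id1_le_one _).trans (le_of_eq ?_)
          rw [sum_const, card_range, nsmul_eq_mul, mul_one]; push_cast; ring
        have b0 := ns_nonneg k ((od s y' : ℤ) - od s y, 0)
        have b1 := ns_le_one k ((od s y' : ℤ) - od s y, 0)
        rw [abs_le]; constructor <;> linarith
    · rw [id1_pos hy]
      have a0 : 0 ≤ (∑ p ∈ range (M + 1), mn (An n s y (x + (p : ℕ) * b)) (Lr n s y b)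
        (fun z => mn (An n s y' (x + g * b + (p : ℕ) * b)) (Lr n s y' b) (fun z' => id1 (T^[k] z ≠ T^[k] z')))) / ((M : ℝ) + 1) :=
        div_nonneg (sum_nonneg fun _ _ => mn_nonneg fun _ => mn_nonneg fun _ => id1_nonneg _) hM.le
      have a1 : (∑ p ∈ range (M + 1), mn (An n s y (x + (p : ℕ) * b)) (Lr n s y b)
        (fun z => mn (An n s y' (x + g * b + (p : ℕ) * b)) (Lr n s y' b) (fun z' => id1 (T^[k] z ≠ T^[k] z')))) / ((M : ℝ) + 1) ≤ 1 := by
        rw [div_le_one hM]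
        refine (sum_le_sum fun _ _ => mn_le_one fun _ => mn_le_one fun _ => id1_le_one _).trans (le_of_eq ?_)
        rw [sum_const, card_range, nsmul_eq_mul, mul_one]; push_cast; ring
      have b0 := ns_nonneg k ((od s y' : ℤ) - od s y, 0)
      have b1 := ns_le_one k ((od s y' : ℤ) - od s y, 0)
      rw [abs_le]; constructor <;> linarith
  have h4 := ex_abs (s := s) (fun y => ex_abs (s := s) (h3 y))
  have h5 : ex s (fun y => ex s (fun y' => (20 * ε' + 8 * η) + id1 (¬ Gy s δ y) + id1 (¬ Gy s δ y'))) =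
      (20 * ε' + 8 * η) + 2 * pb s (fun y => ¬ Gy s δ y) := by
    have e1 : ∀ y, ex s (fun y' => (20 * ε' + 8 * η) + id1 (¬ Gy s δ y) + id1 (¬ Gy s δ y')) =
        ((20 * ε' + 8 * η) + pb s (fun y => ¬ Gy s δ y)) + id1 (¬ Gy s δ y) := by
      intro y
      rw [ex_add, ex_const, ← pb_id1]; ring
    rw [ex_congr e1, ex_add, ex_const, ← pb_id1]; ring
  rw [h5] at h4
  have := abs_sub_le ((∑ p ∈ range (M + 1), mn (x + (p : ℕ) * b) b (fun v => mn (x + g * b + (p : ℕ) * b) b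
        (fun u => ω (od s v) (od s u) * id1 (T^[k + s] v ≠ T^[k + s] u)))) / ((M : ℝ) + 1))
    (ex s (fun y => ex s (fun y' => ω (od s y) (od s y') * ((∑ p ∈ range (M + 1), mn (An n s y (x + (p : ℕ) * b)) (Lr n s y b)
      (fun z => mn (An n s y' (x + g * b + (p : ℕ) * b)) (Lr n s y' b) (fun z' => id1 (T^[k] z ≠ T^[k] z')))) / (M + 1)))))
    (ex s (fun y => ex s (fun y' => ω (od s y) (od s y') * ns k ((od s y' : ℤ) - od s y, 0))))
  linarith

end Pool.Agent.J4H39
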