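import Mathlib
import Pool.Agent.J4H39.M6

set_option autoImplicit false

namespace Pool.Agent.J4H39

open Finset Filter Real

/-! The parameters. -/

theorem delta_small {ν : ℝ} (hν : 0 < ν) : ∃ m₀ : ℕ, ∀ m ≥ m₀, ∀ z : ℕ, z ^ 20 ≤ m → (((z ^ 11 : ℕ)) : ℝ) ≤ ν * m := by
  obtain ⟨Z, hZ⟩ : ∃ Z : ℕ, Z = ⌈1 / ν⌉₊ + 1 := ⟨_, rfl⟩
  have hZν : 1 ≤ ν * Z := by
    have h1 : 1 / ν ≤ Z := by
      rw [hZ]; push_cast
      have := Nat.le_ceil (1 / ν)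
      linarith
    rwa [div_le_iff₀ hν, mul_comm] at h1
  have hZ1 : 1 ≤ Z := by omega
  refine ⟨Z ^ 12, fun m hm z hz => ?_⟩
  rcases le_total z Z with h | h
  · have h1 : z ^ 11 ≤ Z ^ 11 := Nat.pow_le_pow_left h 11
    have h2 : ((z ^ 11 : ℕ) : ℝ) ≤ ((Z ^ 11 : ℕ) : ℝ) := Nat.cast_le.2 h1
    have h3 : ((Z ^ 12 : ℕ) : ℝ) ≤ m := Nat.cast_le.2 hm
    rw [Nat.cast_pow] at h3
    rw [Nat.cast_pow Z] at h2
    refine h2.trans ?_
    clear hm hz h1 h2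
    calc (Z : ℝ) ^ 11 = 1 * (Z : ℝ) ^ 11 := (one_mul _).symm
      _ ≤ (ν * Z) * (Z : ℝ) ^ 11 := mul_le_mul_of_nonneg_right hZν (pow_nonneg (Nat.cast_nonneg _) _)
      _ = ν * (Z : ℝ) ^ 12 := by ring
      _ ≤ ν * m := mul_le_mul_of_nonneg_left h3 hν.le
  · have h3 : ((z ^ 20 : ℕ) : ℝ) ≤ m := Nat.cast_le.2 hz
    rw [Nat.cast_pow] at h3
    have hzr : (1 : ℝ) ≤ z := by
      have : 1 ≤ z := by omega
      exact_mod_cast this
    have hzZ : (Z : ℝ) ≤ z := by exact_mod_cast h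
    rw [Nat.cast_pow]
    clear hm hz
    calc (z : ℝ) ^ 11 = 1 * (z : ℝ) ^ 11 := (one_mul _).symm
      _ ≤ (ν * z) * (z : ℝ) ^ 11 := by
          apply mul_le_mul_of_nonneg_right _ (pow_nonneg (Nat.cast_nonneg _) _)
          exact hZν.trans (mul_le_mul_of_nonneg_left hzZ hν.le)
      _ = ν * (z : ℝ) ^ 12 := by ring
      _ ≤ ν * (z : ℝ) ^ 20 := mul_le_mul_of_nonneg_left (pow_le_pow_right₀ hzr (by norm_num)) hν.le
      _ ≤ ν * m := mul_le_mul_of_nonneg_left h3 hν.le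

theorem Gy_bound {s δ : ℕ} (hs : 1 ≤ s) {ε : ℝ} (hε : 0 < ε) :
    pb s (fun y => ¬ Gy s δ y) ≤ ε + (s + 1) * (2 * Real.exp (-((δ : ℝ) ^ 2 / (2 * s)))) := by
  obtain ⟨L, hL⟩ : ∃ L : ℕ, L = ⌈((s : ℝ) + 1) * s / ε⌉₊ + 1 := ⟨_, rfl⟩
  have h1 : pb s (fun y => ¬ Gy s δ y) ≤ pb s (fun y => ¬ Gd s L δ y) := by
    apply pb_mono
    intro y hy hG
    exact hy (Gy_of_Gd hG)
  have h2 := pb_Gd (t := s) (L := L) (by omega) hs (δ := (δ : ℝ)) (by positivity)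
  have hL0 : (0 : ℝ) < L := by
    have : 0 < L := by omega
    exact_mod_cast this
  have h3 : ((s : ℝ) + 1) * (s / (4 * L)) ≤ ε := by
    have h4 : ((s : ℝ) + 1) * s / ε ≤ L := by
      rw [hL]; push_cast
      have := Nat.le_ceil (((s : ℝ) + 1) * s / ε)
      linarith
    rw [div_le_iff₀ hε] at h4
    rw [mul_div_assoc', div_le_iff₀ (by positivity)]
    have : 0 ≤ ε * L := by positivity
    linarith
  linarith

theorem exp_small {C ε : ℝ} (hC : 0 < C) (hε : 0 < ε) : ∀ᶠ z : ℕ in atTop,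
    (C * (z : ℝ) ^ 20 + 1) * (2 * Real.exp (-((z : ℝ) ^ 2 / (2 * C)))) ≤ ε := by
  have h1 : Tendsto (fun y : ℝ => y ^ 20 * Real.exp (-y)) atTop (nhds 0) := Real.tendsto_pow_mul_exp_neg_atTop_nhds_zero 20
  have h2 : Tendsto (fun z : ℕ => (z : ℝ) ^ 2 / (2 * C)) atTop atTop := by
    apply Tendsto.atTop_div_const (by positivity)
    exact (tendsto_pow_atTop (by norm_num)).comp tendsto_natCast_atTop_atTop
  have h3 := h1.comp h2
  have h4 : (0 : ℝ) < ε / (2 * (C + 1) * (2 * C) ^ 20) := by positivity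
  filter_upwards [h3.eventually_le_const h4, eventually_ge_atTop 1] with z hz hz1
  simp only [Function.comp] at hz
  have hz1r : (1 : ℝ) ≤ z := by exact_mod_cast hz1
  obtain ⟨E, hE⟩ : ∃ E, E = Real.exp (-((z : ℝ) ^ 2 / (2 * C))) := ⟨_, rfl⟩
  rw [← hE] at hz ⊢
  have hE0 : 0 ≤ E := by rw [hE]; exact (Real.exp_pos _).le
  rw [div_pow, le_div_iff₀ (by positivity)] at hz
  have h5 : ((z : ℝ) ^ 2) ^ 20 / (2 * C) ^ 20 * E * (2 * (C + 1) * (2 * C) ^ 20) = 2 * (C + 1) * ((z : ℝ) ^ 40 * E) := by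
    have : (2 * C) ^ 20 ≠ 0 := by positivity
    field_simp
  rw [h5] at hz
  refine le_trans ?_ hz
  have h20 : (z : ℝ) ^ 20 ≤ (z : ℝ) ^ 40 := pow_le_pow_right₀ hz1r (by norm_num)
  have h40 : (1 : ℝ) ≤ (z : ℝ) ^ 40 := one_le_pow₀ hz1r
  have h6 : C * (z : ℝ) ^ 20 + 1 ≤ (C + 1) * (z : ℝ) ^ 40 := by
    have := mul_le_mul_of_nonneg_left h20 hC.le
    linarith
  calc (C * (z : ℝ) ^ 20 + 1) * (2 * E) ≤ ((C + 1) * (z : ℝ) ^ 40) * (2 * E) :=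
        mul_le_mul_of_nonneg_right h6 (by positivity)
    _ = 2 * (C + 1) * ((z : ℝ) ^ 40 * E) := by ring

theorem Gy_small {C ε : ℝ} (hC : 0 < C) (hε : 0 < ε) : ∃ z₀ : ℕ, ∀ z ≥ z₀, ∀ s : ℕ, 1 ≤ s → (s : ℝ) ≤ C * (z : ℝ) ^ 20 →
    pb s (fun y => ¬ Gy s (z ^ 11) y) ≤ ε := by
  obtain ⟨z₀, hz₀⟩ := eventually_atTop.1 (exp_small hC (show 0 < ε / 2 by positivity))
  refine ⟨max z₀ 1, fun z hz s hs hsz => ?_⟩
  rw [ge_iff_le, max_le_iff] at hz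
  have h1 := hz₀ z hz.1
  have h2 := Gy_bound (δ := z ^ 11) hs (show 0 < ε / 2 by positivity)
  refine h2.trans ?_
  have hs0 : (0 : ℝ) < s := by exact_mod_cast hs
  have hz0 : (0 : ℝ) < z := by
    have : 0 < z := by omega
    exact_mod_cast this
  have h3 : (z : ℝ) ^ 2 / (2 * C) ≤ (((z ^ 11 : ℕ)) : ℝ) ^ 2 / (2 * s) := by
    rw [Nat.cast_pow, div_le_div_iff₀ (by positivity) (by positivity)]
    have e : ((z : ℝ) ^ 11) ^ 2 = (z : ℝ) ^ 2 * (z : ℝ) ^ 20 := by ring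
    rw [e]
    calc (z : ℝ) ^ 2 * (2 * s) ≤ (z : ℝ) ^ 2 * (2 * (C * (z : ℝ) ^ 20)) := by
          apply mul_le_mul_of_nonneg_left _ (by positivity)
          linarith
      _ = (z : ℝ) ^ 2 * (z : ℝ) ^ 20 * (2 * C) := by ring
  have h4 : Real.exp (-((((z ^ 11 : ℕ)) : ℝ) ^ 2 / (2 * s))) ≤ Real.exp (-((z : ℝ) ^ 2 / (2 * C))) :=
    Real.exp_le_exp.2 (by linarith)
  have h5 : ((s : ℝ) + 1) * (2 * Real.exp (-((((z ^ 11 : ℕ)) : ℝ) ^ 2 / (2 * s)))) ≤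
      (C * (z : ℝ) ^ 20 + 1) * (2 * Real.exp (-((z : ℝ) ^ 2 / (2 * C)))) := by
    apply mul_le_mul (by linarith) (by linarith) (by positivity)
    have : 0 ≤ C * (z : ℝ) ^ 20 := by positivity
    linarith
  linarith

/-- size of the blocks -/
theorem log_block {θ ε₀ : ℝ} (hθ : 0 < θ) (hε₀ : 0 < ε₀) (hε₀1 : ε₀ ≤ 1) : ∀ᶠ N : ℕ in atTop, ∀ b : ℕ, b = ⌊ε₀ * HN θ N⌋₊ →
    1 ≤ b ∧ θ * logb 2 N - logb 2 (2 / ε₀) ≤ logb 2 b ∧ logb 2 b ≤ θ * logb 2 N := by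
  have h1 : Tendsto (fun N : ℕ => ε₀ * (N : ℝ) ^ θ) atTop atTop :=
    ((tendsto_rpow_atTop hθ).comp tendsto_natCast_atTop_atTop).const_mul_atTop hε₀
  filter_upwards [h1.eventually_ge_atTop 4, eventually_ge_atTop 1] with N h2 h3
  intro b hb
  have hN0 : (0 : ℝ) < N := by exact_mod_cast h3
  have hP0 : (0 : ℝ) < (N : ℝ) ^ θ := by positivity
  have hH1 : (HN θ N : ℝ) ≤ (N : ℝ) ^ θ := Nat.floor_le hP0.le
  have hH2 : (N : ℝ) ^ θ < HN θ N + 1 := Nat.lt_floor_add_one _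
  have hb1 : (b : ℝ) ≤ ε₀ * HN θ N := by rw [hb]; exact Nat.floor_le (by positivity)
  have hb2 : ε₀ * HN θ N < b + 1 := by rw [hb]; exact Nat.lt_floor_add_one _
  have hb3 : ε₀ * (N : ℝ) ^ θ / 2 ≤ b := by
    have : ε₀ * (N : ℝ) ^ θ < ε₀ * (HN θ N + 1) := mul_lt_mul_of_pos_left hH2 hε₀
    linarith
  have hb0 : (0 : ℝ) < b := by linarith
  have hlN : logb 2 ((N : ℝ) ^ θ) = θ * logb 2 N := Real.logb_rpow_eq_mul_logb_of_pos hN0
  refine ⟨?_, ?_, ?_⟩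
  · exact_mod_cast hb0
  · have h4 : logb 2 (ε₀ * (N : ℝ) ^ θ / 2) ≤ logb 2 b := Real.logb_le_logb_of_le (by norm_num) (by positivity) hb3
    have e : ε₀ * (N : ℝ) ^ θ / 2 = (N : ℝ) ^ θ / (2 / ε₀) := by field_simp
    rw [e, Real.logb_div hP0.ne' (by positivity), hlN] at h4
    exact h4
  · rw [← hlN]
    apply Real.logb_le_logb_of_le (by norm_num) hb0
    calc (b : ℝ) ≤ ε₀ * HN θ N := hb1
      _ ≤ 1 * HN θ N := mul_le_mul_of_nonneg_right hε₀1 (by positivity)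
      _ ≤ (N : ℝ) ^ θ := by rw [one_mul]; exact hH1

/-- the exponents -/
noncomputable def kn (n : ℕ) : ℝ := th0 + (9 / 10) ^ n * (2 - th0)

theorem kn_gt (n : ℕ) : th0 < kn n := by
  have := th0_lt
  unfold kn
  have : 0 < (9 / 10 : ℝ) ^ n * (2 - th0) := mul_pos (by positivity) (by linarith)
  linarith

theorem kn_le_two (n : ℕ) : kn n ≤ 2 := by
  have := th0_lt
  unfold kn
  have h1 : (9 / 10 : ℝ) ^ n ≤ 1 := pow_le_one₀ (by norm_num) (by norm_num)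
  have h2 : (9 / 10 : ℝ) ^ n * (2 - th0) ≤ 1 * (2 - th0) := mul_le_mul_of_nonneg_right h1 (by linarith)
  linarith

theorem kn_tendsto : Tendsto kn atTop (nhds th0) := by
  have h1 : Tendsto (fun n : ℕ => (9 / 10 : ℝ) ^ n) atTop (nhds 0) :=
    tendsto_pow_atTop_nhds_zero_of_lt_one (by norm_num) (by norm_num)
  have := (h1.mul_const (2 - th0)).const_add th0
  rw [zero_mul, add_zero] at this
  exact this

theorem kn_gap (n : ℕ) : (4 / 5 : ℝ) ^ n ≤ kn n - th0 - (1 - th0) * (4 / 5) ^ n := by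
  have h0 := th0_lt
  unfold kn
  have h1 : (4 / 5 : ℝ) ^ n ≤ (9 / 10) ^ n := pow_le_pow_left₀ (by norm_num) (by norm_num) n
  have h2 : (4 / 5 : ℝ) ^ n * (2 - th0) ≤ (9 / 10) ^ n * (2 - th0) := mul_le_mul_of_nonneg_right h1 (by linarith)
  linarith

theorem PF_of {n s k k' δ b M G N e u z : ℕ} {η ε' κ' L : ℝ} (hη0 : 0 < η) (hη1 : η ≤ 1 / 4) (hε' : 0 ≤ ε')
    (hN : (2 : ℝ) ^ L ≤ N) (hb1 : (2 : ℝ) ^ (kn n * s) ≤ b) (hb2 : (b : ℝ) ≤ 2 ^ (kn n * s + 2))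
    (hNM : (N : ℝ) ≤ 2 * ((M + 1) * b)) (heη : (2 : ℝ) ^ (-(e : ℝ)) ≤ η) (heG : ((G : ℝ) + 3) ≤ 2 ^ (e : ℝ))
    (C1 : (δ : ℝ) + n + 5 + e ≤ (4 / 5) ^ n * s) (C2 : (e : ℝ) + 3 + (kn n - th0) * s + δ ≤ 2 * u)
    (C3 : (k' : ℝ) + 2 + δ + th0 * s ≤ L) (C4 : κ' * k + 2 + δ + th0 * s ≤ L) (C5 : k' ≤ k)
    (hns : ∀ ρ : ℤ, |ρ| ≤ 4 ^ u → ns k' (0, ρ) ≤ ε') (hTA : TA k (1 * z ^ 12) (1 * z ^ 14) ((2 : ℝ) ^ (κ' * k)) ε')
    (hδz : δ ≤ z ^ 12) : PF n s k k' δ b M (⌈((G : ℝ) + 2) * (b * (2 : ℝ) ^ ((δ : ℝ) - th0 * s))⌉₊) G η ε' := by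
  have hth := th0_gt
  have hth1 := th0_lt
  have hgap := kn_gap n
  have hb0 : (0 : ℝ) < b := lt_of_lt_of_le (by positivity) hb1
  have hln := ln_le n s
  -- mass of the blocks
  have hmass : (2 : ℝ) ^ (L - 2 - δ - th0 * s) ≤ ((M : ℝ) + 1) * (b * (1 / 2) * (2 : ℝ) ^ (-(δ : ℝ) - th0 * s)) := by
    have e1 : (2 : ℝ) ^ (L - 2 - δ - th0 * s) = 2 ^ L * (1 / 4) * 2 ^ (-(δ : ℝ) - th0 * s) := by
      have : L - 2 - (δ : ℝ) - th0 * s = L + (-(2 : ℝ)) + (-(δ : ℝ) - th0 * s) := by ring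
      rw [this, Real.rpow_add (by norm_num), Real.rpow_add (by norm_num)]
      congr 2
      rw [Real.rpow_neg (by norm_num)]
      norm_num
    rw [e1]
    have e2 : ((M : ℝ) + 1) * (b * (1 / 2) * (2 : ℝ) ^ (-(δ : ℝ) - th0 * s)) =
        ((M + 1) * b * (1 / 2)) * (2 : ℝ) ^ (-(δ : ℝ) - th0 * s) := by ring
    rw [e2]
    apply mul_le_mul_of_nonneg_right _ (by positivity)
    linarith
  refine ⟨C5, hη0, hη1, hε', ?_, Nat.le_ceil _, ?_, ?_, ?_⟩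
  · -- rounding errors
    have h1 : ((n : ℝ) + 1) ≤ 2 ^ (n : ℝ) := by
      rw [Real.rpow_natCast]
      have : n + 1 ≤ 2 ^ n := Nat.lt_two_pow_self
      exact_mod_cast this
    have h2 : (2 : ℝ) ^ (th0 * s + (1 - th0) * ln n s) ≤ 2 ^ (th0 * s + (1 - th0) * ((4 / 5) ^ n * s + 5)) := by
      apply Real.rpow_le_rpow_of_exponent_le (by norm_num)
      have := mul_le_mul_of_nonneg_left hln (show 0 ≤ 1 - th0 by linarith)
      linarith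
    have h3 : ((n : ℝ) + 1) * (2 : ℝ) ^ (δ : ℝ) * (2 : ℝ) ^ (th0 * s + (1 - th0) * ln n s) ≤
        2 ^ (n : ℝ) * (2 : ℝ) ^ (δ : ℝ) * 2 ^ (th0 * s + (1 - th0) * ((4 / 5) ^ n * s + 5)) := by
      apply mul_le_mul _ h2 (by positivity) (by positivity)
      exact mul_le_mul_of_nonneg_right h1 (by positivity)
    refine h3.trans ?_
    have h4 : (2 : ℝ) ^ (-(e : ℝ)) * 2 ^ (kn n * s) ≤ η * b := mul_le_mul heη hb1 (by positivity) hη0.le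
    refine le_trans ?_ h4
    rw [← Real.rpow_add (by norm_num), ← Real.rpow_add (by norm_num), ← Real.rpow_add (by norm_num)]
    apply Real.rpow_le_rpow_of_exponent_le (by norm_num)
    have hs0 : (0 : ℝ) ≤ s := by positivity
    have h5 := mul_le_mul_of_nonneg_right hgap hs0
    have h6 : (kn n - th0 - (1 - th0) * (4 / 5) ^ n) * (s : ℝ) = kn n * s - th0 * s - (1 - th0) * ((4 / 5) ^ n * s) := by ring
    rw [h6] at h5
    have h7 : (1 - th0) * ((4 / 5 : ℝ) ^ n * s + 5) = (1 - th0) * ((4 / 5) ^ n * s) + 5 - 5 * th0 := by ring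
    rw [h7]
    linarith
  · -- the shifts
    intro ρ hρ
    apply hns
    have hX1 : (1 : ℝ) ≤ b * (2 : ℝ) ^ ((δ : ℝ) - th0 * s) := by
      have h1 : (2 : ℝ) ^ (kn n * s) * (2 : ℝ) ^ ((δ : ℝ) - th0 * s) ≤ b * (2 : ℝ) ^ ((δ : ℝ) - th0 * s) :=
        mul_le_mul_of_nonneg_right hb1 (by positivity)
      refine le_trans ?_ h1
      rw [← Real.rpow_add (by norm_num)]
      apply Real.one_le_rpow (by norm_num)
      have : th0 * s ≤ kn n * s := mul_le_mul_of_nonneg_right (kn_gt n).le (by positivity)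
      have : (0 : ℝ) ≤ δ := by positivity
      linarith
    have h2 : ((⌈((G : ℝ) + 2) * (b * (2 : ℝ) ^ ((δ : ℝ) - th0 * s))⌉₊ : ℕ) : ℝ) ≤
        ((G : ℝ) + 3) * (b * (2 : ℝ) ^ ((δ : ℝ) - th0 * s)) := by
      have := Nat.ceil_lt_add_one (show 0 ≤ ((G : ℝ) + 2) * (b * (2 : ℝ) ^ ((δ : ℝ) - th0 * s)) by positivity)
      linarith
    have h3 : ((G : ℝ) + 3) * (b * (2 : ℝ) ^ ((δ : ℝ) - th0 * s)) ≤ 2 ^ (e : ℝ) * (2 ^ (kn n * s + 2) * (2 : ℝ) ^ ((δ : ℝ) - th0 * s)) := by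
      apply mul_le_mul heG _ (by positivity) (by positivity)
      exact mul_le_mul_of_nonneg_right hb2 (by positivity)
    rw [← Real.rpow_add (by norm_num), ← Real.rpow_add (by norm_num)] at h3
    have h4 : (2 : ℝ) * 2 ^ ((e : ℝ) + (kn n * s + 2 + ((δ : ℝ) - th0 * s))) ≤ 4 ^ u := by
      have e1 : (4 : ℝ) ^ u = 2 ^ (2 * (u : ℝ)) := by
        rw [Real.rpow_mul (by norm_num), Real.rpow_natCast]; norm_num
      have e2 : (2 : ℝ) * 2 ^ ((e : ℝ) + (kn n * s + 2 + ((δ : ℝ) - th0 * s))) =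
          2 ^ (1 + ((e : ℝ) + (kn n * s + 2 + ((δ : ℝ) - th0 * s)))) := by
        rw [Real.rpow_add (by norm_num) 1, Real.rpow_one]
      rw [e1, e2]
      apply Real.rpow_le_rpow_of_exponent_le (by norm_num)
      linarith
    have h5 : |(ρ : ℝ)| ≤ 4 ^ u := by
      have : |(ρ : ℝ)| ≤ 2 * ((⌈((G : ℝ) + 2) * (b * (2 : ℝ) ^ ((δ : ℝ) - th0 * s))⌉₊ : ℕ) : ℝ) := by exact_mod_cast hρ
      linarith
    exact_mod_cast h5
  · refine le_trans ?_ hmass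
    rw [← Real.rpow_natCast]
    apply Real.rpow_le_rpow_of_exponent_le (by norm_num)
    linarith
  · intro D hD x' W hW
    have h1 : (2 : ℝ) ^ (κ' * k) ≤ W := by
      refine le_trans ?_ (hmass.trans hW)
      apply Real.rpow_le_rpow_of_exponent_le (by norm_num)
      linarith
    have h2 := hTA D 0 (by
      constructor
      · simp only
        rw [abs_of_nonneg (by positivity), one_mul]
        exact_mod_cast hD.trans hδz
      · simp) x' W h1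
    simpa only [add_zero] using h2

end Pool.Agent.J4H39
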