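import Mathlib
import Pool.Agent.J4H39.K8
import Pool.Agent.J4H39.M9

set_option autoImplicit false

/-! Tuples of random points of a short window: definitions and statements. -/

namespace Pool.Agent.J4H39

open Finset Filter Real

/-- mean over a box -/
noncomputable def mnK : (K : ℕ) → (Fin K → ℤ) → (Fin K → ℕ) → ((Fin K → ℤ) → ℝ) → ℝ
  | 0, _, _, F => F (fun i => i.elim0)
  | K + 1, a, b, F => mn (a 0) (b 0) (fun z => mnK K (fun i => a i.succ) (fun i => b i.succ) (fun v => F (Fin.cons z v)))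

/-- mean over tuples of words -/
noncomputable def exK (s : ℕ) : (K : ℕ) → ((Fin K → ℤ) → ℝ) → ℝ
  | 0, F => F (fun i => i.elim0)
  | K + 1, F => ex s (fun y => exK s K (fun v => F (Fin.cons y v)))

/-- invariance under quick merging in each coordinate -/
def InvK {K : ℕ} (k₁ : ℕ) (Ψ : (Fin K → ℕ) → (Fin K → ℤ) → ℝ) : Prop := ∀ (o : Fin K → ℕ) (z : Fin K → ℤ) (i : Fin K) (h : ℤ),
  rn stP k₁ (0, h) (z i) = (0, 0) → Ψ o (Function.update z i (z i + h)) = Ψ o z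

/-- (P1) The transfer for several independent points. -/
def S_KLK : Prop := ∀ (K n s k₁ b : ℕ) (ε₁ : ℝ), 0 ≤ ε₁ → STf n s k₁ b ε₁ → ∀ Ψ : (Fin K → ℕ) → (Fin K → ℤ) → ℝ,
  InvK k₁ Ψ → (∀ o z, 0 ≤ Ψ o z) → (∀ o z, Ψ o z ≤ 1) → ∀ a : Fin K → ℤ,
  |mnK K a (fun _ => b) (fun x => Ψ (fun i => od s (x i)) (fun i => T^[s] (x i))) -
    exK s K (fun y => mnK K (fun i => An n s (y i) (a i)) (fun i => Lr n s (y i) b)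
      (fun z => Ψ (fun i => od s (y i)) z))| ≤ K * ε₁

/-- the full mean of an observable of the forms `3 ^ o i * m` -/
noncomputable def Wd {K : ℕ} (k : ℕ) (g : (Fin K → ℤ) → (Fin K → Fin K → Prop) → ℝ) (o : Fin K → ℕ) : ℝ :=
  ex k (fun m => ob k g (fun i => (o i : ℤ)) (fun i => 3 ^ o i * m))

/-- The conditions on the parameters, for tuples. -/
structure PFK (K n s k k' δ b M R G : ℕ) (η ε' : ℝ) : Prop where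
  hk : k' ≤ k
  hη0 : 0 < η
  hη1 : η ≤ 1 / 4
  hε' : 0 ≤ ε'
  hβ : ((n : ℝ) + 1) * (2 : ℝ) ^ (δ : ℝ) * (2 : ℝ) ^ (th0 * s + (1 - th0) * ln n s) ≤ η * b
  hR : ((G : ℝ) + 2) * (b * (2 : ℝ) ^ ((δ : ℝ) - th0 * s)) ≤ R
  hns : ∀ ρ : ℤ, |ρ| ≤ 2 * R → ns k' (0, ρ) ≤ ε'
  h2k : (2 : ℝ) ^ k' ≤ ((M : ℝ) + 1) * (b * (1 / 2) * (2 : ℝ) ^ (-(δ : ℝ) - th0 * s))
  hTK : TK K k δ 0 (((M : ℝ) + 1) * (b * (1 / 2) * (2 : ℝ) ^ (-(δ : ℝ) - th0 * s))) ε'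

/-- (P2) The choice of the parameters (as `params` of `M9`, with `TTK_all` instead of `TT_all`). -/
def S_PARK : Prop := ∀ (K : ℕ) (θ τ : ℝ), 0 < θ → θ < 1 → θ < τ * th0 → τ * th0 < 1 → ∃ C : ℝ, 0 < C ∧
    ∀ ε ε₀ : ℝ, 0 < ε → ε ≤ 1 / 4 → 0 < ε₀ → ε₀ ≤ 1 → ∀ G K₀ : ℕ, ∃ n : ℕ, kn n ≤ th0 + ε ∧ ∀ᶠ N : ℕ in atTop,
    ∀ b s M : ℕ, b = ⌊ε₀ * HN θ N⌋₊ → s = ⌊logb 2 b / kn n⌋₊ → (N : ℝ) ≤ 2 * (((M : ℝ) + 1) * b) →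
    ∃ k k' δ R k₁ : ℕ, tN τ N = k + s ∧ PFK K n s k k' δ b M R G ε ε ∧ k₁ ≤ k ∧ STf n s k₁ b ε ∧
      pb s (fun y => ¬ Gy s δ y) ≤ ε ∧ K₀ ≤ k ∧ K₀ ≤ s ∧ (s : ℝ) ≤ C * k ∧
      |(s : ℝ) / (s + k) - θ / (kn n * τ)| ≤ ε

/-- (P3) The blocks, for fixed words. -/
def S_BLK : Prop := ∀ (K n s k k' δ b M R G : ℕ) (η ε' : ℝ), PFK K n s k k' δ b M R G η ε' → ∀ y : Fin K → ℤ,
  (∀ i, Gy s δ (y i)) → ∀ (x : ℤ) (γ : Fin K → ℤ), (∀ i, |γ i| ≤ G) → ∀ g : (Fin K → ℤ) → (Fin K → Fin K → Prop) → ℝ,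
  (∀ A p, 0 ≤ g A p) → (∀ A p, g A p ≤ 1) →
  |(∑ p ∈ range (M + 1), mnK K (fun i => An n s (y i) (x + γ i * b + (p : ℕ) * b)) (fun i => Lr n s (y i) b)
      (fun z => ob k g (fun i => (od s (y i) : ℤ)) z)) / (M + 1) - Wd k g (fun i => od s (y i))| ≤
    (12 * K + 2) * ε' + 8 * η

/-- (P4) The transfer for tuples of blocks. -/
def S_KLF : Prop := ∀ (K n s k k' k₁ δ b M R G : ℕ) (η ε' ε₁ : ℝ), PFK K n s k k' δ b M R G η ε' → 0 ≤ ε₁ → k₁ ≤ k →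
  STf n s k₁ b ε₁ → ∀ (x : ℤ) (γ : Fin K → ℤ), (∀ i, |γ i| ≤ G) → ∀ g : (Fin K → ℤ) → (Fin K → Fin K → Prop) → ℝ,
  (∀ A p, 0 ≤ g A p) → (∀ A p, g A p ≤ 1) →
  |(∑ p ∈ range (M + 1), mnK K (fun i => x + γ i * b + (p : ℕ) * b) (fun _ => b)
      (fun v => ob (k + s) g (fun _ => 0) v)) / (M + 1) - exK s K (fun y => Wd k g (fun i => od s (y i)))| ≤
    K * ε₁ + ((12 * K + 2) * ε' + 8 * η) + K * pb s (fun y => ¬ Gy s δ y)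

/-- (P5) The passage to the window: the points are `n` and `n + h i`, `1 ≤ h i ≤ H`. -/
def S_WIN : Prop := ∀ (K : ℕ) (θ τ : ℝ), 0 < θ → θ < 1 → θ < τ * th0 → τ * th0 < 1 → ∀ ε : ℝ, 0 < ε → ∀ K₀ : ℕ,
  ∀ᶠ N : ℕ in atTop, ∃ s k : ℕ, tN τ N = k + s ∧ K₀ ≤ s ∧ K₀ ≤ k ∧ |(s : ℝ) / (s + k) - θ / (τ * th0)| ≤ ε ∧
    ∀ (x : ℤ) (g : (Fin (K + 1) → ℤ) → (Fin (K + 1) → Fin (K + 1) → Prop) → ℝ),
      (∀ A p, 0 ≤ g A p) → (∀ A p, g A p ≤ 1) →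
      |mn x N (fun n => mnK K (fun _ => n + 1) (fun _ => HN θ N) (fun u => ob (k + s) g (fun _ => 0) (Fin.cons n u))) -
        exK s (K + 1) (fun y => Wd k g (fun i => od s (y i)))| ≤ ε

end Pool.Agent.J4H39
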