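import Mathlib
import Pool.Agent.J4H39.K9

set_option autoImplicit false

/-! Tuples of blocks: merging, weights, means over boxes. -/

namespace Pool.Agent.J4H39

open Finset Filter Real

/-- the two points have merged with the same exponent -/
def Mg (k : ℕ) (x y : ℤ) : Prop := T^[k] x = T^[k] y ∧ od k x = od k y

theorem Mg_symm {k : ℕ} {x y : ℤ} (h : Mg k x y) : Mg k y x := ⟨h.1.symm, h.2.symm⟩

theorem Mg_trans {k : ℕ} {x y z : ℤ} (h : Mg k x y) (h' : Mg k y z) : Mg k x z := ⟨h.1.trans h'.1, h.2.trans h'.2⟩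

theorem Mg_mono {k k' : ℕ} (hk : k' ≤ k) {x y : ℤ} (h : Mg k' x y) : Mg k x y := by
  obtain ⟨d, rfl⟩ := Nat.exists_eq_add_of_le hk
  refine ⟨?_, ?_⟩
  · rw [add_comm, Function.iterate_add_apply, Function.iterate_add_apply, h.1]
  · rw [od_comp, od_comp, h.1, h.2]

theorem Mg_of_rn {k : ℕ} {r z : ℤ} (h : rn stP k (0, r) z = (0, 0)) : Mg k z (z + r) := by
  obtain ⟨h1, h2⟩ := merge_of_rn (rel_zero r z) h
  simp only [zero_add] at h2
  exact ⟨h1, by exact_mod_cast h2⟩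

/-- the observable changes only if some point has not merged -/
theorem ob_close {K k : ℕ} (g : (Fin K → ℤ) → (Fin K → Fin K → Prop) → ℝ) (h0 : ∀ A p, 0 ≤ g A p) (h1 : ∀ A p, g A p ≤ 1)
    (D v u : Fin K → ℤ) : |ob k g D v - ob k g D u| ≤ ∑ i, id1 (¬ Mg k (v i) (u i)) := by
  have hs0 : ∀ i ∈ (univ : Finset (Fin K)), 0 ≤ id1 (¬ Mg k (v i) (u i)) := fun _ _ => id1_nonneg _
  by_cases hm : ∀ i, Mg k (v i) (u i)
  · have e : ob k g D v = ob k g D u := by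
      unfold ob
      congr 1
      · funext i; rw [(hm i).2]
      · funext i j; rw [(hm i).2, (hm j).2, (hm i).1, (hm j).1]
    rw [e, sub_self, abs_zero]
    exact sum_nonneg hs0
  · push Not at hm
    obtain ⟨i, hi⟩ := hm
    have a1 : (1 : ℝ) ≤ ∑ i, id1 (¬ Mg k (v i) (u i)) := by
      calc (1 : ℝ) = id1 (¬ Mg k (v i) (u i)) := (id1_pos hi).symm
        _ ≤ _ := single_le_sum hs0 (mem_univ i)
    refine le_trans ?_ a1
    have b0 : 0 ≤ ob k g D v := h0 _ _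
    have b1 : ob k g D v ≤ 1 := h1 _ _
    have c0 : 0 ≤ ob k g D u := h0 _ _
    have c1 : ob k g D u ≤ 1 := h1 _ _
    rw [abs_le]; constructor <;> linarith

/-- sum over an interval of the indicator of late merging with a shift -/
theorem Mg_count {k' W : ℕ} {ε' : ℝ} {ρ : ℤ} (hns : ns k' (0, ρ) ≤ ε') {c : ℤ} (hc : c % 2 = 1) (a : ℤ) :
    ∑ v ∈ range W, id1 (¬ Mg k' (c * (a + (v : ℕ))) (c * (a + (v : ℕ)) + ρ)) ≤ ((W : ℝ) + 2 ^ k') * ε' := by
  have h1 : ∑ v ∈ range W, id1 (¬ Mg k' (c * (a + (v : ℕ))) (c * (a + (v : ℕ)) + ρ)) ≤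
      ∑ v ∈ range W, id1 (rn stP k' (0, ρ) (c * ((v : ℕ) : ℤ) + c * a) ≠ (0, 0)) := by
    apply sum_le_sum
    intro v _
    apply id1_mono
    intro hne he
    apply hne
    have e : c * (a + (v : ℕ)) = c * ((v : ℕ) : ℤ) + c * a := by ring
    rw [e]
    exact Mg_of_rn he
  refine h1.trans ((cnt_aff (per_ns k' (0, ρ)) hc (c * a) W).trans ?_)
  apply mul_le_mul_of_nonneg_left hns (by positivity)

/-- the weight of the points -/
noncomputable def wA (k' R : ℕ) (z' : ℤ) : ℝ := (∑ ρ ∈ range R, id1 (¬ Mg k' (1 * z') (1 * z' + ((ρ : ℕ) : ℤ)))) / R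

/-- the weight of the base point -/
noncomputable def wB (k' R D : ℕ) (z : ℤ) : ℝ :=
  (∑ ρ ∈ range (3 * R), id1 (¬ Mg k' (3 ^ D * z) (3 ^ D * z + (((ρ : ℕ) : ℤ) - R)))) / R

theorem wA_nonneg (k' R : ℕ) (z : ℤ) : 0 ≤ wA k' R z := div_nonneg (sum_nonneg fun _ _ => id1_nonneg _) (by positivity)

theorem wB_nonneg (k' R D : ℕ) (z : ℤ) : 0 ≤ wB k' R D z := div_nonneg (sum_nonneg fun _ _ => id1_nonneg _) (by positivity)

theorem w_cover {k k' R D : ℕ} (hk : k' ≤ k) (hR : 1 ≤ R) {z z' : ℤ} (hcl : |z' - 3 ^ D * z| ≤ R) :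
    id1 (¬ Mg k z' (3 ^ D * z)) ≤ wA k' R z' + wB k' R D z := by
  have hR0 : (0 : ℝ) < R := by exact_mod_cast hR
  have hA := wA_nonneg k' R z'
  have hB := wB_nonneg k' R D z
  by_cases h : Mg k z' (3 ^ D * z)
  · rw [id1_neg (not_not.2 h)]; linarith
  · have h1 : ¬ Mg k' z' (3 ^ D * z) := fun h' => h (Mg_mono hk h')
    have h2 : (1 : ℝ) ≤ wA k' R z' + wB k' R D z := by
      unfold wA wB
      rw [← add_div, le_div_iff₀ hR0, one_mul]
      rw [abs_le] at hcl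
      obtain ⟨c, hc⟩ : ∃ c : ℕ, (c : ℤ) = z' - 3 ^ D * z + R := ⟨(z' - 3 ^ D * z + R).toNat, by omega⟩
      have hc2 : c ≤ 2 * R := by omega
      have h3 : ∑ ρ ∈ range R, id1 (¬ Mg k' (3 ^ D * z) (3 ^ D * z + (((c + ρ : ℕ) : ℤ) - R))) ≤
          ∑ ρ ∈ range (3 * R), id1 (¬ Mg k' (3 ^ D * z) (3 ^ D * z + (((ρ : ℕ) : ℤ) - R))) := by
        have h4 := sum_range_add (fun ρ : ℕ => id1 (¬ Mg k' (3 ^ D * z) (3 ^ D * z + (((ρ : ℕ) : ℤ) - R)))) c R
        have h5 : ∑ ρ ∈ range (c + R), id1 (¬ Mg k' (3 ^ D * z) (3 ^ D * z + (((ρ : ℕ) : ℤ) - R))) ≤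
            ∑ ρ ∈ range (3 * R), id1 (¬ Mg k' (3 ^ D * z) (3 ^ D * z + (((ρ : ℕ) : ℤ) - R))) := by
          apply sum_le_sum_of_subset_of_nonneg
          · intro x hx; rw [mem_range] at hx ⊢; omega
          · intro _ _ _; exact id1_nonneg _
        have h6 : 0 ≤ ∑ ρ ∈ range c, id1 (¬ Mg k' (3 ^ D * z) (3 ^ D * z + (((ρ : ℕ) : ℤ) - R))) :=
          sum_nonneg fun _ _ => id1_nonneg _
        linarith
      have h7 : (R : ℝ) ≤ ∑ ρ ∈ range R, (id1 (¬ Mg k' (1 * z') (1 * z' + ((ρ : ℕ) : ℤ))) +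
          id1 (¬ Mg k' (3 ^ D * z) (3 ^ D * z + (((c + ρ : ℕ) : ℤ) - R)))) := by
        have h8 : ∀ ρ ∈ range R, (1 : ℝ) ≤ id1 (¬ Mg k' (1 * z') (1 * z' + ((ρ : ℕ) : ℤ))) +
            id1 (¬ Mg k' (3 ^ D * z) (3 ^ D * z + (((c + ρ : ℕ) : ℤ) - R))) := by
          intro ρ _
          have e1 : 3 ^ D * z + (((c + ρ : ℕ) : ℤ) - R) = 1 * z' + ((ρ : ℕ) : ℤ) := by push_cast; rw [hc]; ring
          rw [e1]
          by_cases h9 : Mg k' (1 * z') (1 * z' + ((ρ : ℕ) : ℤ))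
          · have h10 : ¬ Mg k' (3 ^ D * z) (1 * z' + ((ρ : ℕ) : ℤ)) := by
              intro h11
              apply h1
              have h12 := Mg_trans h9 (Mg_symm h11)
              rwa [one_mul] at h12
            rw [id1_pos h10]
            have := id1_nonneg (¬ Mg k' (1 * z') (1 * z' + ((ρ : ℕ) : ℤ)))
            linarith
          · rw [id1_pos h9]
            have := id1_nonneg (¬ Mg k' (3 ^ D * z) (1 * z' + ((ρ : ℕ) : ℤ)))
            linarith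
        have := sum_le_sum h8
        rwa [sum_const, card_range, nsmul_eq_mul, mul_one] at this
      rw [sum_add_distrib] at h7
      linarith
    have := id1_le_one (¬ Mg k z' (3 ^ D * z))
    linarith

theorem wA_sum {k' R W : ℕ} {ε' : ℝ} (hR : 1 ≤ R) (hns : ∀ ρ : ℤ, |ρ| ≤ 2 * R → ns k' (0, ρ) ≤ ε') (a : ℤ) :
    ∑ v ∈ range W, wA k' R (a + (v : ℕ)) ≤ ((W : ℝ) + 2 ^ k') * ε' := by
  have hR0 : (0 : ℝ) < R := by exact_mod_cast hR
  unfold wA
  rw [← sum_div, sum_comm, div_le_iff₀ hR0]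
  have h1 : ∀ ρ ∈ range R, ∑ v ∈ range W, id1 (¬ Mg k' (1 * (a + (v : ℕ))) (1 * (a + (v : ℕ)) + ((ρ : ℕ) : ℤ))) ≤
      ((W : ℝ) + 2 ^ k') * ε' := by
    intro ρ hρ
    rw [mem_range] at hρ
    exact Mg_count (hns _ (by rw [abs_of_nonneg (by positivity)]; omega)) (by norm_num) a
  refine (sum_le_sum h1).trans (le_of_eq ?_)
  rw [sum_const, card_range, nsmul_eq_mul, mul_comm]

theorem wB_sum {k' R D W : ℕ} {ε' : ℝ} (hR : 1 ≤ R) (hns : ∀ ρ : ℤ, |ρ| ≤ 2 * R → ns k' (0, ρ) ≤ ε') (a : ℤ) :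
    ∑ v ∈ range W, wB k' R D (a + (v : ℕ)) ≤ 3 * (((W : ℝ) + 2 ^ k') * ε') := by
  have hR0 : (0 : ℝ) < R := by exact_mod_cast hR
  unfold wB
  rw [← sum_div, sum_comm, div_le_iff₀ hR0]
  have h1 : ∀ ρ ∈ range (3 * R), ∑ v ∈ range W, id1 (¬ Mg k' (3 ^ D * (a + (v : ℕ)))
      (3 ^ D * (a + (v : ℕ)) + (((ρ : ℕ) : ℤ) - R))) ≤ ((W : ℝ) + 2 ^ k') * ε' := by
    intro ρ hρ
    rw [mem_range] at hρ
    exact Mg_count (hns _ (by rw [abs_le]; constructor <;> omega)) (pow3_odd D) a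
  refine (sum_le_sum h1).trans (le_of_eq ?_)
  rw [sum_const, card_range, nsmul_eq_mul]; push_cast; ring

/-! Means over boxes. -/

theorem mn_close {a : ℤ} {b : ℕ} (hb : 1 ≤ b) {f ψ : ℤ → ℝ} {c : ℝ} (h : ∀ z, a ≤ z → z < a + b → |f z - c| ≤ ψ z) :
    |mn a b f - c| ≤ mn a b ψ := by
  have hb0 : (0 : ℝ) < b := by exact_mod_cast hb
  unfold mn
  have e : (∑ v ∈ range b, f (a + (v : ℕ))) / b - c = (∑ v ∈ range b, (f (a + (v : ℕ)) - c)) / b := by
    rw [sum_sub_distrib, sum_const, card_range, nsmul_eq_mul]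
    field_simp
  rw [e, abs_div, abs_of_pos hb0]
  apply div_le_div_of_nonneg_right _ hb0.le
  refine (abs_sum_le_sum_abs _ _).trans (sum_le_sum fun v hv => ?_)
  rw [mem_range] at hv
  exact h _ (by omega) (by omega)

theorem mn_add_fn (a : ℤ) (b : ℕ) (f g : ℤ → ℝ) : mn a b (fun z => f z + g z) = mn a b f + mn a b g := by
  unfold mn; rw [sum_add_distrib, add_div]

theorem mn_const {a : ℤ} {b : ℕ} (hb : 1 ≤ b) (c : ℝ) : mn a b (fun _ => c) = c := by
  have hb0 : (b : ℝ) ≠ 0 := by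
    have : (0 : ℝ) < b := by exact_mod_cast hb
    exact this.ne'
  unfold mn
  rw [sum_const, card_range, nsmul_eq_mul]; field_simp

theorem mn_fsum {ι : Type*} (S : Finset ι) (a : ℤ) (b : ℕ) (f : ι → ℤ → ℝ) :
    mn a b (fun z => ∑ i ∈ S, f i z) = ∑ i ∈ S, mn a b (f i) := by
  unfold mn
  rw [sum_comm, sum_div]

/-- comparison of the mean over a box with a constant -/
theorem mnK_close {K : ℕ} : ∀ (a : Fin K → ℤ) (b : Fin K → ℕ) (F : (Fin K → ℤ) → ℝ) (c e : ℝ) (f : Fin K → ℤ → ℝ),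
    (∀ i, 1 ≤ b i) → (∀ v : Fin K → ℤ, (∀ i, a i ≤ v i ∧ v i < a i + b i) → |F v - c| ≤ ∑ i, f i (v i) + e) →
    |mnK K a b F - c| ≤ ∑ i, mn (a i) (b i) (f i) + e := by
  induction K with
  | zero =>
    intro a b F c e f _ h
    have := h (fun i => i.elim0) (fun i => i.elim0)
    simpa [mnK] using this
  | succ K ih =>
    intro a b F c e f hb h
    simp only [mnK]
    have h1 : ∀ z, a 0 ≤ z → z < a 0 + b 0 → |mnK K (fun i => a i.succ) (fun i => b i.succ) (fun v => F (Fin.cons z v)) - c| ≤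
        f 0 z + (∑ i : Fin K, mn (a i.succ) (b i.succ) (f i.succ) + e) := by
      intro z hz1 hz2
      have := ih (fun i => a i.succ) (fun i => b i.succ) (fun v => F (Fin.cons z v)) c (e + f 0 z) (fun i => f i.succ)
        (fun i => hb _) (by
          intro v hv
          have h2 := h (Fin.cons z v) (by
            intro i
            refine Fin.cases ?_ ?_ i
            · simpa using ⟨hz1, hz2⟩
            · intro j; simpa using hv j)
          rw [Fin.sum_univ_succ] at h2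
          simp only [Fin.cons_zero, Fin.cons_succ] at h2
          linarith)
      linarith
    have h2 := mn_close (hb 0) h1
    rw [mn_add_fn, mn_const (hb 0)] at h2
    rw [Fin.sum_univ_succ]
    linarith

theorem mnK_nonneg {K : ℕ} : ∀ (a : Fin K → ℤ) (b : Fin K → ℕ) (F : (Fin K → ℤ) → ℝ), (∀ v, 0 ≤ F v) → 0 ≤ mnK K a b F := by
  induction K with
  | zero => intro a b F h; exact h _
  | succ K ih => intro a b F h; exact mn_nonneg fun z => ih _ _ _ fun v => h _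

theorem mnK_le_one {K : ℕ} : ∀ (a : Fin K → ℤ) (b : Fin K → ℕ) (F : (Fin K → ℤ) → ℝ), (∀ v, F v ≤ 1) → mnK K a b F ≤ 1 := by
  induction K with
  | zero => intro a b F h; exact h _
  | succ K ih => intro a b F h; exact mn_le_one fun z => ih _ _ _ fun v => h _

/-- the full mean, with the common factor removed -/
theorem Wd_eq {K : ℕ} (k : ℕ) (g : (Fin K → ℤ) → (Fin K → Fin K → Prop) → ℝ) (o₀ : ℕ) (D : Fin K → ℕ) :
    Wd k g (fun i => o₀ + D i) =
      ex k (fun z => Gf (fun A p => g (fun i => (o₀ : ℤ) + A i) p) (lb stK k (fun i => ((D i : ℤ), (0 : ℤ))) z)) := by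
  have h1 : ∀ z : ℤ, Gf (fun A p => g (fun i => (o₀ : ℤ) + A i) p) (lb stK k (fun i => ((D i : ℤ), (0 : ℤ))) z) =
      ob k g (fun i => (o₀ : ℤ) + D i) (fun i => 3 ^ D i * z) := by
    intro z
    rw [Gf_rel k _ (s := fun i => ((D i : ℤ), (0 : ℤ))) (z := z) (Y := fun i => 3 ^ D i * z) (by
      intro i
      have := rel_pos (s := ((D i : ℤ), (0 : ℤ))) (by simp) z
      simpa using this)]
    exact ob_shift k g (o₀ : ℤ) (fun i => ((D i : ℕ) : ℤ)) (fun i => 3 ^ D i * z)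
  have h2 := ex_affine k (per_Gf (fun A p => g (fun i => (o₀ : ℤ) + A i) p) (fun i => ((D i : ℤ), (0 : ℤ))) (le_refl k))
    (pow3_odd o₀) 0
  rw [← h2]
  unfold Wd
  apply ex_congr
  intro u
  rw [h1]
  unfold ob
  have e : ∀ i, (3 : ℤ) ^ (o₀ + D i) * u = 3 ^ D i * (3 ^ o₀ * u + 0) := fun i => by rw [pow_add]; ring
  simp only [e, Nat.cast_add]

end Pool.Agent.J4H39
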