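import Mathlib
import Pool.Agent.J4H39.K10

set_option autoImplicit false

/-! Tuples of blocks: geometry of the intervals. -/

namespace Pool.Agent.J4H39

open Finset Filter Real

variable {K n s k k' δ b M R G : ℕ} {η ε' : ℝ}

theorem PFK.β2 (P : PFK K n s k k' δ b M R G η ε') : (2 : ℝ) ^ (δ : ℝ) * (2 : ℝ) ^ (th0 * s) ≤ η * b := by
  have hth := th0_gt
  have hth1 := th0_lt
  refine le_trans ?_ P.hβ
  have h1 : (2 : ℝ) ^ (th0 * s) ≤ (2 : ℝ) ^ (th0 * s + (1 - th0) * ln n s) := by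
    apply Real.rpow_le_rpow_of_exponent_le (by norm_num)
    have : 0 ≤ (1 - th0) * (ln n s : ℝ) := mul_nonneg (by linarith) (by positivity)
    linarith
  have h2 : (2 : ℝ) ^ (δ : ℝ) * (2 : ℝ) ^ (th0 * s) ≤ (2 : ℝ) ^ (δ : ℝ) * (2 : ℝ) ^ (th0 * s + (1 - th0) * ln n s) :=
    mul_le_mul_of_nonneg_left h1 (by positivity)
  have h3 : (0 : ℝ) ≤ n * ((2 : ℝ) ^ (δ : ℝ) * (2 : ℝ) ^ (th0 * s + (1 - th0) * ln n s)) := by positivity
  linarith

theorem PFK.qb (P : PFK K n s k k' δ b M R G η ε') {y : ℤ} (h : Gy s δ y) : 1 / η ≤ qf s y * b := by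
  have h1 := Gy_low h (le_refl s)
  rw [div_le_iff₀ P.hη0]
  have h2 : ((2 : ℝ) ^ (δ : ℝ) * (2 : ℝ) ^ (th0 * s)) * qf s y ≤ (η * b) * qf s y :=
    mul_le_mul_of_nonneg_right P.β2 (qf_pos _ _).le
  linarith

theorem PFK.Llow (P : PFK K n s k k' δ b M R G η ε') {y : ℤ} (h : Gy s δ y) : (1 - η) * (qf s y * b) ≤ (Lr n s y b : ℝ) := by
  have h1 := (Lr_bd n s y b).1
  have h2 := Gy_Bn h n
  have hβ := P.hβ
  have h3 : qf s y * ((1 - η) * b) ≤ qf s y * (b - Bn n s y) := mul_le_mul_of_nonneg_left (by linarith) (qf_pos _ _).le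
  linarith

theorem PFK.L1 (P : PFK K n s k k' δ b M R G η ε') {y : ℤ} (h : Gy s δ y) : 1 ≤ Lr n s y b := by
  have h1 := P.Llow h
  have h2 := P.qb h
  have hη0 := P.hη0
  have hη1 := P.hη1
  have h4 : (4 : ℝ) ≤ 1 / η := by rw [le_div_iff₀ hη0]; linarith
  have h5 : (3 / 4 : ℝ) * 4 ≤ (1 - η) * (qf s y * b) := mul_le_mul (by linarith) (by linarith) (by norm_num) (by linarith)
  have h6 : (0 : ℝ) < Lr n s y b := by linarith
  exact_mod_cast h6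

theorem PFK.ML (P : PFK K n s k k' δ b M R G η ε') {y : ℤ} (h : Gy s δ y) :
    ((M : ℝ) + 1) * (b * (1 / 2) * (2 : ℝ) ^ (-(δ : ℝ) - th0 * s)) ≤ (M + 1) * (Lr n s y b : ℝ) := by
  have hη0 := P.hη0
  have hη1 := P.hη1
  have hpos : (0 : ℝ) < (2 : ℝ) ^ (δ : ℝ) * (2 : ℝ) ^ (th0 * s) := by positivity
  have hlow : (2 : ℝ) ^ (-(δ : ℝ) - th0 * s) ≤ qf s y := by
    have h1 := Gy_low h (le_refl s)
    have e : (2 : ℝ) ^ (-(δ : ℝ) - th0 * s) = ((2 : ℝ) ^ (δ : ℝ) * (2 : ℝ) ^ (th0 * s))⁻¹ := by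
      rw [← Real.rpow_add (by norm_num), ← Real.rpow_neg (by norm_num)]; congr 1; ring
    rw [e, inv_le_iff_one_le_mul₀ hpos]
    linarith
  apply mul_le_mul_of_nonneg_left _ (by positivity)
  refine le_trans ?_ (P.Llow h)
  have h2 : (b : ℝ) * (2 : ℝ) ^ (-(δ : ℝ) - th0 * s) ≤ b * qf s y := mul_le_mul_of_nonneg_left hlow (by positivity)
  have h3 : 0 ≤ (b : ℝ) * qf s y := mul_nonneg (by positivity) (qf_pos _ _).le
  calc (b : ℝ) * (1 / 2) * (2 : ℝ) ^ (-(δ : ℝ) - th0 * s) = (1 / 2) * (b * (2 : ℝ) ^ (-(δ : ℝ) - th0 * s)) := by ring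
    _ ≤ (1 / 2) * (b * qf s y) := mul_le_mul_of_nonneg_left h2 (by norm_num)
    _ ≤ (1 - η) * (b * qf s y) := mul_le_mul_of_nonneg_right (by linarith) h3
    _ = (1 - η) * (qf s y * b) := by ring

/-- the total length -/
theorem PFK.Wle (P : PFK K n s k k' δ b M R G η ε') {y₁ : ℤ} (h : Gy s δ y₁) (x₁ : ℤ) :
    ((An n s y₁ (x₁ + (M : ℕ) * b) + Lr n s y₁ b - An n s y₁ (x₁ + ((0 : ℕ) : ℤ) * b) : ℤ) : ℝ) ≤
      (1 + 4 * η) * ((M + 1) * (Lr n s y₁ b : ℝ)) := by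
  have hη0 := P.hη0
  have hη1 := P.hη1
  have hβ := P.hβ
  have hz : x₁ + ((0 : ℕ) : ℤ) * (b : ℤ) = x₁ := by push_cast; ring
  rw [hz]
  have a1 := (An_bd n s y₁ (x₁ + (M : ℕ) * b)).2
  have a2 := (An_bd n s y₁ x₁).1
  have a3 := (Lr_bd n s y₁ b).2
  have a4 := Gy_Bn h n
  have a5 := P.Llow h
  have hqp := qf_pos s y₁
  push_cast at a1 a2 ⊢
  have b1 : qf s y₁ * Bn n s y₁ ≤ qf s y₁ * (η * b) := mul_le_mul_of_nonneg_left (a4.trans hβ) hqp.le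
  have b2 : (1 + 4 * η) * ((M + 1) * ((1 - η) * (qf s y₁ * b))) ≤ (1 + 4 * η) * ((M + 1) * (Lr n s y₁ b : ℝ)) :=
    mul_le_mul_of_nonneg_left (mul_le_mul_of_nonneg_left a5 (by positivity)) (by linarith)
  refine le_trans ?_ b2
  have b3 : (0 : ℝ) ≤ qf s y₁ * b := mul_nonneg hqp.le (by positivity)
  have b4 : (1 + η) ≤ (1 + 4 * η) * (1 - η) := by nlinarith
  have b5 : (1 + η) * ((M + 1) * (qf s y₁ * b)) ≤ ((1 + 4 * η) * (1 - η)) * ((M + 1) * (qf s y₁ * b)) :=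
    mul_le_mul_of_nonneg_right b4 (by positivity)
  have b6 : (0 : ℝ) ≤ η * (M * (qf s y₁ * b)) := by positivity
  have e1 : (1 + 4 * η) * (((M : ℝ) + 1) * ((1 - η) * (qf s y₁ * b))) = ((1 + 4 * η) * (1 - η)) * ((M + 1) * (qf s y₁ * b)) := by ring
  rw [e1]
  have e2 : (1 + η) * (((M : ℝ) + 1) * (qf s y₁ * b)) = M * (qf s y₁ * b) + qf s y₁ * b + η * (M * (qf s y₁ * b)) + qf s y₁ * (η * b) := by ring
  have e3 : qf s y₁ * ((x₁ : ℝ) + M * b) = qf s y₁ * x₁ + M * (qf s y₁ * b) := by ring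
  have e4 : qf s y₁ * ((x₁ : ℝ) - Bn n s y₁) = qf s y₁ * x₁ - qf s y₁ * Bn n s y₁ := by ring
  rw [e3] at a1
  rw [e4] at a2
  linarith

/-- consecutive blocks -/
theorem blk_next (n s b : ℕ) (y₁ x₁ : ℤ) (p : ℕ) :
    An n s y₁ (x₁ + (p : ℕ) * b) + Lr n s y₁ b ≤ An n s y₁ (x₁ + ((p + 1 : ℕ) : ℤ) * b) := by
  have := An_add n s y₁ (x₁ + (p : ℕ) * b) b
  have e : x₁ + (p : ℕ) * (b : ℤ) + b = x₁ + ((p + 1 : ℕ) : ℤ) * b := by push_cast; ring
  rwa [e] at this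

theorem PFK.R1 (P : PFK K n s k k' δ b M R G η ε') {y : ℤ} (hy : Gy s δ y) : 1 ≤ R := by
  have hη0 := P.hη0
  have hη1 := P.hη1
  have h1 := Gy_up hy (le_refl s)
  have h2 := P.qb hy
  have h4 : (4 : ℝ) ≤ 1 / η := by rw [le_div_iff₀ hη0]; linarith
  have h3 : qf s y * b ≤ b * (2 : ℝ) ^ ((δ : ℝ) - th0 * s) := by
    rw [mul_comm]; exact mul_le_mul_of_nonneg_left h1 (by positivity)
  have h5 : (0 : ℝ) < R := by
    refine lt_of_lt_of_le ?_ P.hR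
    have : (0 : ℝ) < b * (2 : ℝ) ^ ((δ : ℝ) - th0 * s) := by linarith
    positivity
  exact_mod_cast h5

/-- closeness of the members of the blocks -/
theorem PFK.close (P : PFK K n s k k' δ b M R G η ε') {y y' : ℤ} (hy : Gy s δ y) (hy' : Gy s δ y') {D : ℕ}
    (hD : od s y' = od s y + D) (x g : ℤ) (hg : |g| ≤ G) (p : ℕ) {v v' : ℤ}
    (hv : An n s y (x + (p : ℕ) * b) ≤ v ∧ v < An n s y (x + (p : ℕ) * b) + Lr n s y b)
    (hv' : An n s y' (x + g * b + (p : ℕ) * b) ≤ v' ∧ v' < An n s y' (x + g * b + (p : ℕ) * b) + Lr n s y' b) :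
    |v' - 3 ^ D * v| ≤ R := by
  have hη0 := P.hη0
  have hη1 := P.hη1
  have hβ := P.hβ
  have hR := P.hR
  obtain ⟨q, hq⟩ : ∃ q, q = qf s y := ⟨_, rfl⟩
  obtain ⟨q', hq'⟩ : ∃ q', q' = qf s y' := ⟨_, rfl⟩
  have hq0 : 0 < q := by rw [hq]; exact qf_pos _ _
  have hq0' : 0 < q' := by rw [hq']; exact qf_pos _ _
  have hqq : q' = 3 ^ D * q := by
    rw [hq, hq']; unfold qf; rw [hD, pow_add]; ring
  -- the rounding errors
  have hB := Gy_Bn hy n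
  have hB' := Gy_Bn hy' n
  obtain ⟨B, hBd⟩ : ∃ B, B = Bn n s y := ⟨_, rfl⟩
  obtain ⟨B', hBd'⟩ : ∃ B', B' = Bn n s y' := ⟨_, rfl⟩
  have hB1 : B ≤ η * b := by rw [hBd]; exact hB.trans hβ
  have hB1' : B' ≤ η * b := by rw [hBd']; exact hB'.trans hβ
  have hgr : |(g : ℝ)| ≤ G := by exact_mod_cast hg
  have a1 := An_bd n s y (x + (p : ℕ) * b)
  have a2 := An_bd n s y' (x + g * b + (p : ℕ) * b)
  have a3 := (Lr_bd n s y b).2
  have a4 := (Lr_bd n s y' b).2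
  rw [← hq, ← hBd] at a1
  rw [← hq', ← hBd'] at a2
  rw [← hq] at a3
  rw [← hq'] at a4
  have hv1 : ((An n s y (x + (p : ℕ) * b) : ℤ) : ℝ) ≤ v := by exact_mod_cast hv.1
  have hv2 : (v : ℝ) ≤ ((An n s y (x + (p : ℕ) * b) : ℤ) : ℝ) + Lr n s y b := by exact_mod_cast hv.2.le
  have hv1' : ((An n s y' (x + g * b + (p : ℕ) * b) : ℤ) : ℝ) ≤ v' := by exact_mod_cast hv'.1
  have hv2' : (v' : ℝ) ≤ ((An n s y' (x + g * b + (p : ℕ) * b) : ℤ) : ℝ) + Lr n s y' b := by exact_mod_cast hv'.2.le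
  push_cast at a1 a2
  have h3D : (0 : ℝ) < 3 ^ D := by positivity
  have hup := Gy_up hy' (le_refl s)
  rw [← hq'] at hup
  have hqR : (G + 2) * (b * q') ≤ R := by
    refine le_trans ?_ hR
    exact mul_le_mul_of_nonneg_left (mul_le_mul_of_nonneg_left hup (by positivity)) (by positivity)
  have hbq0 : (0 : ℝ) ≤ b * q' := by positivity
  have goal : |(v' : ℝ) - 3 ^ D * v| ≤ R := by
    have c1 : 3 ^ D * (q * ((x : ℝ) + p * b - B)) ≤ 3 ^ D * (v : ℝ) :=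
      mul_le_mul_of_nonneg_left (by linarith [a1.1]) h3D.le
    have c2 : 3 ^ D * (v : ℝ) ≤ 3 ^ D * (q * ((x : ℝ) + p * b) + q * b) :=
      mul_le_mul_of_nonneg_left (by linarith [a1.2]) h3D.le
    have c3 : 3 ^ D * (q * ((x : ℝ) + p * b - B)) = q' * (x + p * b) - q' * B := by rw [hqq]; ring
    have c4 : 3 ^ D * (q * ((x : ℝ) + p * b) + q * b) = q' * (x + p * b) + q' * b := by rw [hqq]; ring
    rw [c3] at c1
    rw [c4] at c2
    have c5 : q' * ((x : ℝ) + g * b + p * b) = q' * (x + p * b) + g * (q' * b) := by ring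
    have c6 : q' * ((x : ℝ) + g * b + p * b - B') = q' * (x + p * b) + g * (q' * b) - q' * B' := by ring
    rw [c6, c5] at a2
    have c7 : q' * B ≤ q' * (η * b) := mul_le_mul_of_nonneg_left hB1 hq0'.le
    have c8 : q' * B' ≤ q' * (η * b) := mul_le_mul_of_nonneg_left hB1' hq0'.le
    have c9 : q' * (η * b) ≤ b * q' := by
      have : η * (b * q') ≤ 1 * (b * q') := mul_le_mul_of_nonneg_right (by linarith) hbq0
      linarith
    have c10 : |(g : ℝ) * (q' * b)| ≤ G * (b * q') := by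
      rw [abs_mul, abs_of_nonneg (by linarith : (0 : ℝ) ≤ q' * b), mul_comm q']
      exact mul_le_mul_of_nonneg_right hgr hbq0
    rw [abs_le] at c10 ⊢
    have c11 : q' * (b : ℝ) = b * q' := by ring
    constructor
    · linarith [a2.1, a2.2, c10.1, c10.2]
    · linarith [a2.1, a2.2, c10.1, c10.2]
  exact_mod_cast goal

end Pool.Agent.J4H39
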