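import Mathlib
import Pool.Agent.J4H39.K11

set_option autoImplicit false

/-! Tuples of blocks, for fixed words. -/

namespace Pool.Agent.J4H39

open Finset Filter Real

theorem toNat_le_real {a : ℤ} {c : ℝ} (h : (a : ℝ) ≤ c) (hc : 0 ≤ c) : ((a.toNat : ℕ) : ℝ) ≤ c := by
  rcases le_total a 0 with h0 | h0
  · rw [Int.toNat_of_nonpos h0]; simpa using hc
  · have e : ((a.toNat : ℕ) : ℝ) = ((a.toNat : ℤ) : ℝ) := by push_cast; rfl
    rw [e, Int.toNat_of_nonneg h0]; exact h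

theorem t_BLK : S_BLK := by
  intro K n s k k' δ b M R G η ε' P y hy x γ hγ g h0 h1
  rcases Nat.eq_zero_or_pos K with hK | hK
  · subst hK
    have hη0 := P.hη0
    have hε' := P.hε'
    have hM : (M : ℝ) + 1 ≠ 0 := by positivity
    have e1 : ∀ p ∈ range (M + 1), mnK 0 (fun i => An n s (y i) (x + γ i * b + (p : ℕ) * b)) (fun i => Lr n s (y i) b)
      (fun z => ob k g (fun i => (od s (y i) : ℤ)) z) = Wd k g (fun i => od s (y i)) := by
      intro p _
      simp only [mnK]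
      unfold Wd
      have e2 : ∀ m : ℤ, ob k g (fun i : Fin 0 => ((od s (y i) : ℕ) : ℤ)) (fun i => 3 ^ od s (y i) * m) =
          ob k g (fun i => (od s (y i) : ℤ)) (fun i => i.elim0) := by
        intro m
        congr 1
        funext i
        exact i.elim0
      rw [ex_congr e2, ex_const]
    rw [sum_congr rfl e1, sum_const, card_range, nsmul_eq_mul]
    push_cast
    rw [mul_div_cancel_left₀ _ hM, sub_self, abs_zero]
    positivity
  -- the index with the smallest exponent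
  obtain ⟨i₀, hi₀⟩ : ∃ i₀ : Fin K, ∀ i, od s (y i₀) ≤ od s (y i) := by
    have : Nonempty (Fin K) := ⟨⟨0, hK⟩⟩
    obtain ⟨i₀, _, hi⟩ := exists_min_image (univ : Finset (Fin K)) (fun i => od s (y i)) univ_nonempty
    exact ⟨i₀, fun i => hi i (mem_univ i)⟩
  obtain ⟨o₀, ho₀⟩ : ∃ o₀, o₀ = od s (y i₀) := ⟨_, rfl⟩
  obtain ⟨D, hD⟩ : ∃ D : Fin K → ℕ, ∀ i, od s (y i) = o₀ + D i := ⟨fun i => od s (y i) - o₀, fun i => by
    have := hi₀ i
    rw [← ho₀] at this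
    simp only
    omega⟩
  have hDδ : ∀ i, D i ≤ δ := by
    intro i
    have a1 := (hy i₀ s le_rfl).1
    have a2 := (hy i s le_rfl).2
    rw [← ho₀] at a1
    rw [hD i] at a2
    omega
  have hη0 := P.hη0
  have hη1 := P.hη1
  have hε' := P.hε'
  have hR1 := P.R1 (hy i₀)
  have hns := P.hns
  have hM0 : (0 : ℝ) < (M : ℝ) + 1 := by positivity
  -- the base
  obtain ⟨A, hA⟩ : ∃ A : ℕ → ℤ, A = fun p : ℕ => An n s (y i₀) (x + (p : ℕ) * b) := ⟨_, rfl⟩
  obtain ⟨L, hL⟩ : ∃ L, L = Lr n s (y i₀) b := ⟨_, rfl⟩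
  obtain ⟨A', hA'⟩ : ∃ A' : Fin K → ℕ → ℤ, A' = fun i (p : ℕ) => An n s (y i) (x + γ i * b + (p : ℕ) * b) := ⟨_, rfl⟩
  obtain ⟨L', hL'⟩ : ∃ L' : Fin K → ℕ, L' = fun i => Lr n s (y i) b := ⟨_, rfl⟩
  have hL1 : 1 ≤ L := by rw [hL]; exact P.L1 (hy i₀)
  have hL1' : ∀ i, 1 ≤ L' i := fun i => by rw [hL']; exact P.L1 (hy i)
  have hd : ∀ p, A p + L ≤ A (p + 1) := fun p => by rw [hA, hL]; exact blk_next n s b (y i₀) x p
  have hd' : ∀ i p, A' i p + L' i ≤ A' i (p + 1) := fun i p => by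
    rw [hA', hL']; exact blk_next n s b (y i) (x + γ i * b) p
  have hW : ((A M + L - A 0 : ℤ) : ℝ) ≤ (1 + 4 * η) * ((M + 1) * L) := by
    rw [hA, hL]; exact P.Wle (hy i₀) x
  have hW' : ∀ i, ((A' i M + L' i - A' i 0 : ℤ) : ℝ) ≤ (1 + 4 * η) * ((M + 1) * L' i) := fun i => by
    rw [hA', hL']; exact P.Wle (hy i) (x + γ i * b)
  have hML : ((M : ℝ) + 1) * (b * (1 / 2) * (2 : ℝ) ^ (-(δ : ℝ) - th0 * s)) ≤ (M + 1) * (L : ℝ) := by
    rw [hL]; exact P.ML (hy i₀)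
  have h2k : (2 : ℝ) ^ k' ≤ (M + 1) * (L : ℝ) := P.h2k.trans hML
  have h2k' : ∀ i, (2 : ℝ) ^ k' ≤ (M + 1) * (L' i : ℝ) := fun i => by
    rw [hL']; exact P.h2k.trans (P.ML (hy i))
  have hL0 : (0 : ℝ) < L := by exact_mod_cast hL1
  have hL0' : ∀ i, (0 : ℝ) < L' i := fun i => by exact_mod_cast hL1' i
  -- the functions
  obtain ⟨F, hF⟩ : ∃ F : (Fin K → ℤ) → ℝ, F = fun v => ob k g (fun i => (od s (y i) : ℤ)) v := ⟨_, rfl⟩
  obtain ⟨C, hC⟩ : ∃ C : ℤ → ℝ, C = fun z => F (fun i => 3 ^ D i * z) := ⟨_, rfl⟩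
  have hC0 : ∀ z, 0 ≤ C z := fun z => by rw [hC, hF]; exact h0 _ _
  have hC1 : ∀ z, C z ≤ 1 := fun z => by rw [hC, hF]; exact h1 _ _
  have hA'd : ∀ p : ℕ, (fun i => An n s (y i) (x + γ i * b + (p : ℕ) * b)) = fun i => A' i p := fun p => by rw [hA']
  have hL'd : (fun i => Lr n s (y i) b) = L' := by rw [hL']
  -- one family of blocks
  have c1 : ∀ p : ℕ, |mnK K (fun i => A' i p) L' F - mn (A p) L C| ≤
      ∑ i, mn (A' i p) (L' i) (wA k' R) + ∑ i, mn (A p) L (wB k' R (D i)) := by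
    intro p
    have d1 : ∀ z, A p ≤ z → z < A p + L → |C z - mnK K (fun i => A' i p) L' F| ≤
        ∑ i, mn (A' i p) (L' i) (wA k' R) + ∑ i, wB k' R (D i) z := by
      intro z hz1 hz2
      rw [abs_sub_comm]
      refine mnK_close (fun i => A' i p) L' F (C z) (∑ i, wB k' R (D i) z) (fun _ => wA k' R) hL1' ?_
      intro v hv
      rw [hC, hF, ← sum_add_distrib]
      refine (ob_close g h0 h1 _ _ _).trans (sum_le_sum fun i _ => ?_)
      apply w_cover P.hk hR1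
      refine P.close (hy i₀) (hy i) (by rw [hD i, ← ho₀]) x (γ i) (hγ i) p ?_ ?_
      · rw [hA] at hz1
        rw [hA, hL] at hz2
        exact ⟨hz1, hz2⟩
      · have := hv i
        rw [hA', hL'] at this
        exact this
    have d2 := mn_close hL1 d1
    rw [abs_sub_comm, mn_add_fn, mn_const hL1, mn_fsum] at d2
    exact d2
  -- the weights
  have s1 : ∀ i, ∑ p ∈ range (M + 1), mn (A' i p) (L' i) (wA k' R) ≤ 3 * ε' * (M + 1) := by
    intro i
    have hML' : (0 : ℝ) < (M + 1) * L' i := mul_pos hM0 (hL0' i)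
    unfold mn
    rw [← sum_div, div_le_iff₀ (hL0' i)]
    refine (blocks_le (hd' i) (wA_nonneg k' R) M).trans ?_
    refine (wA_sum hR1 hns (A' i 0)).trans ?_
    have hWn : (((A' i M + L' i - A' i 0).toNat : ℕ) : ℝ) ≤ (1 + 4 * η) * ((M + 1) * L' i) :=
      toNat_le_real (hW' i) (by positivity)
    have h2 := h2k' i
    have h3 : 4 * η * ((M + 1) * (L' i : ℝ)) ≤ 1 * ((M + 1) * L' i) := mul_le_mul_of_nonneg_right (by linarith) hML'.le
    have h4 : (((A' i M + L' i - A' i 0).toNat : ℕ) : ℝ) + 2 ^ k' ≤ 3 * ((M + 1) * L' i) := by linarith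
    calc ((((A' i M + L' i - A' i 0).toNat : ℕ) : ℝ) + 2 ^ k') * ε' ≤ (3 * ((M + 1) * L' i)) * ε' :=
          mul_le_mul_of_nonneg_right h4 hε'
      _ = 3 * ε' * (M + 1) * L' i := by ring
  have hMLp : (0 : ℝ) < (M + 1) * L := mul_pos hM0 hL0
  obtain ⟨W, hWd⟩ : ∃ W, W = (A M + L - A 0).toNat := ⟨_, rfl⟩
  have hWr : (W : ℝ) ≤ (1 + 4 * η) * ((M + 1) * L) := by
    rw [hWd]; exact toNat_le_real hW (by positivity)
  have hη4 : 4 * η * ((M + 1) * (L : ℝ)) ≤ 1 * ((M + 1) * L) := mul_le_mul_of_nonneg_right (by linarith) hMLp.le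
  have s2 : ∀ i, ∑ p ∈ range (M + 1), mn (A p) L (wB k' R (D i)) ≤ 9 * ε' * (M + 1) := by
    intro i
    unfold mn
    rw [← sum_div, div_le_iff₀ hL0]
    refine (blocks_le hd (wB_nonneg k' R (D i)) M).trans ?_
    rw [← hWd]
    refine (wB_sum hR1 hns (A 0)).trans ?_
    have : ((W : ℝ) + 2 ^ k') ≤ 3 * ((M + 1) * L) := by linarith
    calc 3 * (((W : ℝ) + 2 ^ k') * ε') ≤ 3 * ((3 * ((M + 1) * L)) * ε') :=
          mul_le_mul_of_nonneg_left (mul_le_mul_of_nonneg_right this hε') (by norm_num)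
      _ = 9 * ε' * (M + 1) * L := by ring
  have c2 : |∑ p ∈ range (M + 1), mnK K (fun i => A' i p) L' F - ∑ p ∈ range (M + 1), mn (A p) L C| ≤
      12 * K * ε' * (M + 1) := by
    rw [← sum_sub_distrib]
    refine (abs_sum_le_sum_abs _ _).trans ((sum_le_sum fun p _ => c1 p).trans ?_)
    rw [sum_add_distrib, sum_comm, sum_comm (s := range (M + 1)) (t := univ)]
    have t1 : ∑ i : Fin K, ∑ p ∈ range (M + 1), mn (A' i p) (L' i) (wA k' R) ≤ ∑ _i : Fin K, 3 * ε' * (M + 1) :=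
      sum_le_sum fun i _ => s1 i
    have t2 : ∑ i : Fin K, ∑ p ∈ range (M + 1), mn (A p) L (wB k' R (D i)) ≤ ∑ _i : Fin K, 9 * ε' * (M + 1) :=
      sum_le_sum fun i _ => s2 i
    rw [sum_const, card_univ, Fintype.card_fin, nsmul_eq_mul] at t1 t2
    have e1 : 12 * (K : ℝ) * ε' * (M + 1) = K * (3 * ε' * (M + 1)) + K * (9 * ε' * (M + 1)) := by ring
    rw [e1]
    exact add_le_add t1 t2
  -- the main term
  have hmono : ∀ p, A 0 ≤ A p := by
    intro p
    induction p with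
    | zero => exact le_rfl
    | succ p ih => have := hd p; omega
  have c3 : |∑ p ∈ range (M + 1), mn (A p) L C - (∑ v ∈ range W, C (A 0 + (v : ℕ))) / L| ≤ 4 * η * (M + 1) := by
    unfold mn
    rw [← sum_div, ← sub_div, abs_div, abs_of_pos hL0, div_le_iff₀ hL0]
    have := blocks_two hd hC0 hC1 M
    rw [← hWd] at this
    refine this.trans ?_
    linarith
  have hWlow : (M + 1) * (L : ℝ) ≤ W := by
    have := blocks_two hd (f := fun _ => 0) (fun _ => le_rfl) (fun _ => zero_le_one) M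
    rw [← hWd] at this
    have h0 := (abs_nonneg _).trans this
    linarith
  obtain ⟨Q, hQ⟩ : ∃ Q, Q = Wd k g (fun i => od s (y i)) := ⟨_, rfl⟩
  have hQ0 : 0 ≤ Q := by rw [hQ]; exact ex_nonneg fun _ => h0 _ _
  have hQ1 : Q ≤ 1 := by
    rw [hQ, ← ex_const k 1]
    exact ex_mono fun _ => h1 _ _
  have c4 : |(∑ v ∈ range W, C (A 0 + (v : ℕ))) - W * Q| ≤ ε' * W := by
    have e0 : (fun i => od s (y i)) = fun i => o₀ + D i := by funext i; exact hD i
    have e1 : Q = ex k (fun z => Gf (fun A p => g (fun i => (o₀ : ℤ) + A i) p) (lb stK k (fun i => ((D i : ℤ), (0 : ℤ))) z)) := by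
      rw [hQ, e0, Wd_eq]
    have e2 : ∀ z, C z = Gf (fun A p => g (fun i => (o₀ : ℤ) + A i) p) (lb stK k (fun i => ((D i : ℤ), (0 : ℤ))) z) := by
      intro z
      rw [Gf_rel k _ (s := fun i => ((D i : ℤ), (0 : ℤ))) (z := z) (Y := fun i => 3 ^ D i * z) (by
        intro i
        have := rel_pos (s := ((D i : ℤ), (0 : ℤ))) (by simp) z
        simpa using this)]
      rw [ob_shift k g (o₀ : ℤ) (fun i => ((D i : ℕ) : ℤ)) (fun i => 3 ^ D i * z), hC, hF]
      have e3 : (fun i => ((od s (y i) : ℕ) : ℤ)) = fun i => (o₀ : ℤ) + (D i : ℕ) := by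
        funext i; rw [hD i]; push_cast; ring
      simp only [e3]
    have h2 := P.hTK (fun i => ((D i : ℤ), (0 : ℤ))) (fun i => by simp) (by
      intro i
      refine ⟨?_, ?_⟩
      · simp only
        rw [abs_of_nonneg (by positivity)]
        exact_mod_cast hDδ i
      · simp) (fun A p => g (fun i => (o₀ : ℤ) + A i) p) (fun _ _ => h0 _ _) (fun _ _ => h1 _ _) (A 0) W (hML.trans hWlow)
    rw [e1, sum_congr rfl (fun v _ => e2 _)]
    exact h2
  have c5 : |(∑ v ∈ range W, C (A 0 + (v : ℕ))) / L - (M + 1) * Q| ≤ (2 * ε' + 4 * η) * (M + 1) := by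
    have e1 : (∑ v ∈ range W, C (A 0 + (v : ℕ))) / L - (M + 1) * Q =
        ((∑ v ∈ range W, C (A 0 + (v : ℕ))) - (M + 1) * L * Q) / L := by field_simp
    rw [e1, abs_div, abs_of_pos hL0, div_le_iff₀ hL0]
    have d1 : |(W : ℝ) * Q - (M + 1) * L * Q| ≤ 4 * η * ((M + 1) * L) := by
      rw [← sub_mul, abs_mul, abs_of_nonneg hQ0, abs_of_nonneg (by linarith)]
      calc ((W : ℝ) - (M + 1) * L) * Q ≤ (W - (M + 1) * L) * 1 := mul_le_mul_of_nonneg_left hQ1 (by linarith)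
        _ ≤ 4 * η * ((M + 1) * L) := by linarith
    have d2 : ε' * W ≤ 2 * ε' * ((M + 1) * L) := by
      have : (W : ℝ) ≤ 2 * ((M + 1) * L) := by linarith
      calc ε' * W ≤ ε' * (2 * ((M + 1) * L)) := mul_le_mul_of_nonneg_left this hε'
        _ = 2 * ε' * ((M + 1) * L) := by ring
    have := abs_sub_le (∑ v ∈ range W, C (A 0 + (v : ℕ))) (W * Q) ((M + 1) * L * Q)
    have e2 : (2 * ε' + 4 * η) * (M + 1) * (L : ℝ) = 2 * ε' * ((M + 1) * L) + 4 * η * ((M + 1) * L) := by ring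
    rw [e2]
    linarith
  have c6 : |∑ p ∈ range (M + 1), mnK K (fun i => A' i p) L' F - (M + 1) * Q| ≤ ((12 * K + 2) * ε' + 8 * η) * (M + 1) := by
    have a1 := abs_sub_le (∑ p ∈ range (M + 1), mnK K (fun i => A' i p) L' F) (∑ p ∈ range (M + 1), mn (A p) L C) ((M + 1) * Q)
    have a2 := abs_sub_le (∑ p ∈ range (M + 1), mn (A p) L C) ((∑ v ∈ range W, C (A 0 + (v : ℕ))) / L) ((M + 1) * Q)
    have e1 : ((12 * (K : ℝ) + 2) * ε' + 8 * η) * ((M : ℝ) + 1) = 12 * K * ε' * (M + 1) + 2 * ε' * (M + 1) + 8 * (η * (M + 1)) := by ring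
    have e2 : (2 * ε' + 4 * η) * ((M : ℝ) + 1) = 2 * ε' * (M + 1) + 4 * (η * (M + 1)) := by ring
    have e3 : 4 * η * ((M : ℝ) + 1) = 4 * (η * (M + 1)) := by ring
    rw [e2] at c5
    rw [e3] at c3
    rw [e1]
    linarith
  rw [← hQ, ← hF, hL'd]
  simp only [hA'd]
  have e1 : (∑ p ∈ range (M + 1), mnK K (fun i => A' i p) L' F) / ((M : ℝ) + 1) - Q =
      (∑ p ∈ range (M + 1), mnK K (fun i => A' i p) L' F - (M + 1) * Q) / (M + 1) := by
    field_simp
  rw [e1, abs_div, abs_of_pos hM0, div_le_iff₀ hM0]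
  exact c6

end Pool.Agent.J4H39
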