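import Mathlib
import Pool.Agent.J4H39.K12

set_option autoImplicit false

/-! The transfer for tuples of blocks. -/

namespace Pool.Agent.J4H39

open Finset Filter Real

theorem ob_eq_of_Mg {K k : ℕ} (g : (Fin K → ℤ) → (Fin K → Fin K → Prop) → ℝ) (D v u : Fin K → ℤ)
    (hm : ∀ i, Mg k (v i) (u i)) : ob k g D v = ob k g D u := by
  unfold ob
  congr 1
  · funext i; rw [(hm i).2]
  · funext i j; rw [(hm i).2, (hm j).2, (hm i).1, (hm j).1]

theorem InvK_ob {K k k₁ : ℕ} (hk : k₁ ≤ k) (g : (Fin K → ℤ) → (Fin K → Fin K → Prop) → ℝ) :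
    InvK k₁ (fun (o : Fin K → ℕ) z => ob k g (fun i => (o i : ℤ)) z) := by
  intro o z i h hr
  apply ob_eq_of_Mg
  intro j
  by_cases hj : j = i
  · subst hj
    rw [Function.update_self]
    exact Mg_symm (Mg_mono hk (Mg_of_rn hr))
  · rw [Function.update_of_ne hj]
    exact ⟨rfl, rfl⟩

theorem ob_split {K k s : ℕ} (g : (Fin K → ℤ) → (Fin K → Fin K → Prop) → ℝ) (v : Fin K → ℤ) :
    ob (k + s) g (fun _ => 0) v = ob k g (fun i => ((od s (v i) : ℕ) : ℤ)) (fun i => T^[s] (v i)) := by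
  unfold ob
  congr 1
  · funext i
    rw [add_comm k s, od_comp]; push_cast; ring
  · funext i j
    rw [add_comm k s, od_comp, od_comp, add_comm s k, Function.iterate_add_apply, Function.iterate_add_apply]
    push_cast
    apply propext
    apply and_congr_left'
    constructor <;> intro h <;> omega

theorem exK_close {K s : ℕ} : ∀ (F G : (Fin K → ℤ) → ℝ) (e : ℝ) (f : Fin K → ℤ → ℝ),
    (∀ v, |F v - G v| ≤ ∑ i, f i (v i) + e) → |exK s K F - exK s K G| ≤ ∑ i, ex s (f i) + e := by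
  induction K with
  | zero =>
    intro F G e f h
    have := h (fun i => i.elim0)
    simpa [exK] using this
  | succ K ih =>
    intro F G e f h
    simp only [exK]
    have h1 : ∀ y, |exK s K (fun v => F (Fin.cons y v)) - exK s K (fun v => G (Fin.cons y v))| ≤
        f 0 y + (∑ i : Fin K, ex s (f i.succ) + e) := by
      intro y
      have := ih (fun v => F (Fin.cons y v)) (fun v => G (Fin.cons y v)) (e + f 0 y) (fun i => f i.succ) (by
        intro v
        have h2 := h (Fin.cons y v)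
        rw [Fin.sum_univ_succ] at h2
        simp only [Fin.cons_zero, Fin.cons_succ] at h2
        linarith)
      linarith
    have h2 := ex_abs (s := s) h1
    rw [ex_add, ex_const] at h2
    rw [Fin.sum_univ_succ]
    linarith

theorem exK_avg {K s : ℕ} (M : ℕ) : ∀ (F : ℕ → (Fin K → ℤ) → ℝ),
    (∑ p ∈ range (M + 1), exK s K (F p)) / ((M : ℝ) + 1) = exK s K (fun v => (∑ p ∈ range (M + 1), F p v) / ((M : ℝ) + 1)) := by
  induction K with
  | zero => intro F; rfl
  | succ K ih =>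
    intro F
    simp only [exK]
    rw [← ex_sum, div_eq_inv_mul, ← ex_mul]
    apply ex_congr
    intro y
    have := ih (fun p v => F p (Fin.cons y v))
    rw [← this, div_eq_inv_mul]

theorem exK_nonneg {K s : ℕ} : ∀ (F : (Fin K → ℤ) → ℝ), (∀ v, 0 ≤ F v) → 0 ≤ exK s K F := by
  induction K with
  | zero => intro F h; exact h _
  | succ K ih => intro F h; exact ex_nonneg fun y => ih _ fun v => h _

theorem exK_le_one {K s : ℕ} : ∀ (F : (Fin K → ℤ) → ℝ), (∀ v, F v ≤ 1) → exK s K F ≤ 1 := by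
  induction K with
  | zero => intro F h; exact h _
  | succ K ih =>
    intro F h
    rw [← ex_const s 1]
    exact ex_mono fun y => ih _ fun v => h _

theorem t_KLF (hKLK : S_KLK) : S_KLF := by
  intro K n s k k' k₁ δ b M R G η ε' ε₁ P hε₁ hk₁ hST x γ hγ g h0 h1
  have hM : (0 : ℝ) < (M : ℝ) + 1 := by positivity
  have hη0 := P.hη0
  have hε' := P.hε'
  obtain ⟨Q, hQ⟩ : ∃ Q : ℕ → (Fin K → ℤ) → ℝ, Q = fun (p : ℕ) (y : Fin K → ℤ) =>
    mnK K (fun i => An n s (y i) (x + γ i * b + (p : ℕ) * b)) (fun i => Lr n s (y i) b)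
      (fun z => ob k g (fun i => (od s (y i) : ℤ)) z) := ⟨_, rfl⟩
  have hQ0 : ∀ p y, 0 ≤ Q p y := fun p y => by rw [hQ]; exact mnK_nonneg _ _ _ fun v => h0 _ _
  have hQ1 : ∀ p y, Q p y ≤ 1 := fun p y => by rw [hQ]; exact mnK_le_one _ _ _ fun v => h1 _ _
  have s1 : ∀ p : ℕ, |mnK K (fun i => x + γ i * b + (p : ℕ) * b) (fun _ => b) (fun v => ob (k + s) g (fun _ => 0) v) -
      exK s K (Q p)| ≤ K * ε₁ := by
    intro p
    have h2 := hKLK K n s k₁ b ε₁ hε₁ hST (fun o z => ob k g (fun i => (o i : ℤ)) z) (InvK_ob hk₁ g)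
      (fun _ _ => h0 _ _) (fun _ _ => h1 _ _) (fun i => x + γ i * b + (p : ℕ) * b)
    simp only [ob_split]
    rw [hQ]
    exact h2
  have s2 := avg_abs (M := M) s1
  rw [exK_avg] at s2
  have s3 : ∀ y : Fin K → ℤ, |(∑ p ∈ range (M + 1), Q p y) / ((M : ℝ) + 1) - Wd k g (fun i => od s (y i))| ≤
      ∑ i, id1 (¬ Gy s δ (y i)) + ((12 * K + 2) * ε' + 8 * η) := by
    intro y
    have hs0 : ∀ i ∈ (univ : Finset (Fin K)), 0 ≤ id1 (¬ Gy s δ (y i)) := fun _ _ => id1_nonneg _
    have hc0 : 0 ≤ (12 * K + 2) * ε' + 8 * η := by positivity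
    by_cases hy : ∀ i, Gy s δ (y i)
    · have h2 := t_BLK K n s k k' δ b M R G η ε' P y hy x γ hγ g h0 h1
      have h3 := sum_nonneg hs0
      rw [hQ]
      simp only
      linarith
    · push Not at hy
      obtain ⟨i, hi⟩ := hy
      have a1 : (1 : ℝ) ≤ ∑ i, id1 (¬ Gy s δ (y i)) := by
        calc (1 : ℝ) = id1 (¬ Gy s δ (y i)) := (id1_pos hi).symm
          _ ≤ _ := single_le_sum hs0 (mem_univ i)
      have b0 : 0 ≤ (∑ p ∈ range (M + 1), Q p y) / ((M : ℝ) + 1) := div_nonneg (sum_nonneg fun _ _ => hQ0 _ _) hM.le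
      have b1 : (∑ p ∈ range (M + 1), Q p y) / ((M : ℝ) + 1) ≤ 1 := by
        rw [div_le_one hM]
        refine (sum_le_sum fun _ _ => hQ1 _ _).trans (le_of_eq ?_)
        rw [sum_const, card_range, nsmul_eq_mul, mul_one]; push_cast; ring
      have c0 : 0 ≤ Wd k g (fun i => od s (y i)) := ex_nonneg fun _ => h0 _ _
      have c1 : Wd k g (fun i => od s (y i)) ≤ 1 := by
        rw [← ex_const k 1]
        exact ex_mono fun _ => h1 _ _
      rw [abs_le]; constructor <;> linarith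
  have s4 := exK_close (s := s) _ _ _ (fun _ y => id1 (¬ Gy s δ y)) s3
  rw [sum_const, card_univ, Fintype.card_fin, nsmul_eq_mul, ← pb_id1] at s4
  have := abs_sub_le ((∑ p ∈ range (M + 1), mnK K (fun i => x + γ i * b + (p : ℕ) * b) (fun _ => b)
      (fun v => ob (k + s) g (fun _ => 0) v)) / ((M : ℝ) + 1))
    (exK s K (fun v => (∑ p ∈ range (M + 1), Q p v) / ((M : ℝ) + 1))) (exK s K (fun y => Wd k g (fun i => od s (y i))))
  linarith

end Pool.Agent.J4H39
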