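import Mathlib
import Pool.Agent.J4H39.M1
import Pool.Agent.J4H39.L3
import Pool.Agent.J4H39.V4

set_option autoImplicit false

namespace Pool.Agent.J4H39

open Finset Filter Real

/-! The limit of the kernel. -/

theorem ex_od_succ (s : ℕ) (g : ℕ → ℝ) : ex (s + 1) (fun y => g (od (s + 1) y)) =
    (ex s (fun y => g (od s y)) + ex s (fun y => g (od s y + 1))) / 2 := by
  rw [ex_succ]
  have h : ∀ x : ℤ, (g (od (s + 1) x) + g (od (s + 1) (x + 2 ^ s))) / 2 = 1 / 2 * g (od s x) + 1 / 2 * g (od s x + 1) := by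
    intro x
    have h1 : od s (x + 2 ^ s) = od s x := by
      have := per_od le_rfl (i := s) x 1
      rwa [mul_one] at this
    rw [od_succ, od_succ, h1, pr_flip]
    rcases Nat.le_one_iff_eq_zero_or_eq_one.1 (pr_le s x) with h | h
    · rw [h]; norm_num; ring
    · rw [h]; norm_num; ring
  rw [ex_congr h, ex_add, ex_mul, ex_mul]
  ring

/-- averaging over a simple random walk -/
noncomputable def Av (f : ℤ → ℝ) : ℕ → ℤ → ℝ
  | 0, d => f d
  | a + 1, d => (Av f a (d + 1) + Av f a (d - 1)) / 2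

theorem F_Av (m : ℕ) : ∀ (a : ℕ) (d : ℤ), F m (m + a) d = Av (U m) a d := by
  intro a
  induction a with
  | zero => intro d; rfl
  | succ a ih =>
    intro d
    rw [← add_assoc, F_rec (by omega), ih, ih]
    rfl

theorem LL (f : ℤ → ℝ) : ∀ (s : ℕ) (e : ℤ),
    ex s (fun y => ex s (fun y' => f (e + 2 * ((od s y' : ℤ) - od s y)))) = Av f (2 * s) e := by
  intro s
  induction s with
  | zero =>
    intro e
    rw [ex_zero, ex_zero]
    simp [od, Av]
  | succ s ih =>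
    intro e
    have h1 : ∀ y, ex (s + 1) (fun y' => f (e + 2 * ((od (s + 1) y' : ℤ) - od (s + 1) y))) =
        (ex s (fun y' => f (e + 2 * ((od s y' : ℤ) - od (s + 1) y))) +
          ex s (fun y' => f (e + 2 * (((od s y' + 1 : ℕ) : ℤ) - od (s + 1) y)))) / 2 := by
      intro y
      exact ex_od_succ s (fun o => f (e + 2 * ((o : ℤ) - od (s + 1) y)))
    rw [ex_congr h1]
    rw [ex_od_succ s (fun o => (ex s (fun y' => f (e + 2 * ((od s y' : ℤ) - (o : ℤ)))) +
          ex s (fun y' => f (e + 2 * (((od s y' + 1 : ℕ) : ℤ) - (o : ℤ))))) / 2)]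
    have h2 : ∀ f₁ f₂ : ℤ → ℝ, ex s (fun y => (f₁ y + f₂ y) / 2) = (ex s f₁ + ex s f₂) / 2 := by
      intro f₁ f₂
      have : ∀ y, (f₁ y + f₂ y) / 2 = 1 / 2 * f₁ y + 1 / 2 * f₂ y := fun y => by ring
      rw [ex_congr this, ex_add, ex_mul, ex_mul]; ring
    rw [h2, h2]
    have e0 := ih e
    have e1 := ih (e + 1 + 1)
    have e2 := ih (e - 1 - 1)
    have a1 : ex s (fun y => ex s (fun y' => f (e + 2 * (((od s y' + 1 : ℕ) : ℤ) - od s y)))) = Av f (2 * s) (e + 1 + 1) := by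
      rw [← e1]; apply ex_congr; intro y; apply ex_congr; intro y'; congr 1; push_cast; ring
    have a2 : ex s (fun y => ex s (fun y' => f (e + 2 * ((od s y' : ℤ) - ((od s y + 1 : ℕ) : ℤ))))) = Av f (2 * s) (e - 1 - 1) := by
      rw [← e2]; apply ex_congr; intro y; apply ex_congr; intro y'; congr 1; push_cast; ring
    have a3 : ex s (fun y => ex s (fun y' => f (e + 2 * (((od s y' + 1 : ℕ) : ℤ) - ((od s y + 1 : ℕ) : ℤ))))) = Av f (2 * s) e := by
      rw [← e0]; apply ex_congr; intro y; apply ex_congr; intro y'; congr 1; push_cast; ring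
    rw [a1, a2, a3, e0]
    have e3 : 2 * (s + 1) = 2 * s + 1 + 1 := by ring
    rw [e3]
    simp only [Av]
    rw [add_sub_cancel_right, sub_add_cancel]
    ring

theorem K_arc {s k : ℕ} (hs : 1 ≤ s) (hk : 3 ≤ k) :
    |ex s (fun y => ex s (fun y' => U (2 * k) (2 * ((od s y' : ℤ) - od s y)))) - 2 / π * arcsin √((s : ℝ) / (s + k))| ≤
      1 / √ ((s : ℝ) + k) + 4 / k := by
  have h := arc_law (a := s) (b := s + k) hs (by omega)
  have e1 : ex s (fun y => ex s (fun y' => U (2 * k) (2 * ((od s y' : ℤ) - od s y)))) = F (2 * (s + k - s)) (2 * (s + k)) 0 := by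
    have h1 := LL (U (2 * k)) s 0
    simp only [zero_add] at h1
    rw [h1, ← F_Av]
    congr 1
    · omega
    · ring
  rw [e1]
  push_cast at h
  rw [add_sub_cancel_left] at h
  exact h

theorem U_cmp {ε : ℝ} (hε : 0 < ε) : ∃ k₀ : ℕ, ∀ k ≥ k₀, ∀ D : ℤ, |(D : ℝ)| ≤ k → |U (k / 2) D - U (2 * k) (2 * D)| ≤ ε := by
  obtain ⟨k₁, h1⟩ := U_erf_half (show 0 < ε / 2 by positivity)
  obtain ⟨q₀, h2⟩ := U_erf (show 0 < ε / 2 by positivity)
  refine ⟨max k₁ q₀, fun k hk D hD => ?_⟩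
  rw [ge_iff_le, max_le_iff] at hk
  obtain ⟨d, hd⟩ : ∃ d : ℕ, d = D.natAbs := ⟨_, rfl⟩
  have e1 : U (k / 2) D = U (k / 2) (d : ℕ) := by rw [hd]; exact U_abs _ _
  have e2 : U (2 * k) (2 * D) = U (2 * k) ((2 * d : ℕ) : ℕ) := by
    rw [hd, U_abs]; congr 1
    rw [Int.natAbs_mul]; norm_num
  have hdk : d ≤ k := by
    have h3 : |D| ≤ (k : ℤ) := by exact_mod_cast hD
    have h4 : ((D.natAbs : ℕ) : ℤ) = |D| := Int.natCast_natAbs D
    omega
  have a1 := h1 k hk.1 d hdk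
  have a2 := h2 (2 * k) (by omega) (2 * d)
  have e3 : (((2 * d : ℕ) : ℝ)) / √ (2 * ((2 * k : ℕ) : ℝ)) = d / √ k := by
    have : (2 : ℝ) * ((2 * k : ℕ) : ℝ) = 2 ^ 2 * k := by push_cast; ring
    rw [this, Real.sqrt_mul (by positivity), Real.sqrt_sq (by norm_num)]
    push_cast
    rw [mul_div_mul_left _ _ (by norm_num)]
  rw [e3] at a2
  rw [e1, e2]
  rw [abs_le] at a1 a2 ⊢
  constructor <;> linarith [a1.1, a1.2, a2.1, a2.2]

/-- comparison of the kernel with the non return probability -/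
theorem K_U {ε C : ℝ} (hε : 0 < ε) (hC : 0 < C) : ∃ k₀ s₀ : ℕ, ∀ k ≥ k₀, ∀ s ≥ s₀, (s : ℝ) ≤ C * k →
    ∀ ω : ℕ → ℕ → ℝ, (∀ o o', 0 ≤ ω o o') → (∀ o o', ω o o' ≤ 1) →
    |ex s (fun y => ex s (fun y' => ω (od s y) (od s y') * ns k ((od s y' : ℤ) - od s y, 0))) -
      ex s (fun y => ex s (fun y' => ω (od s y) (od s y') * U (2 * k) (2 * ((od s y' : ℤ) - od s y))))| ≤ ε := by
  obtain ⟨c, hc, k₁, h1⟩ := ns_law (show 0 < ε / 8 by positivity)
  obtain ⟨k₂, h2⟩ := U_cmp (show 0 < ε / 8 by positivity)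
  obtain ⟨ρ, hρ⟩ : ∃ ρ, ρ = min c 1 / C := ⟨_, rfl⟩
  have hρ0 : 0 < ρ := by rw [hρ]; have : 0 < min c 1 := lt_min hc one_pos; positivity
  have hlim : Tendsto (fun s : ℕ => 2 * Real.exp (-((ρ ^ 2 / 2) * s))) atTop (nhds 0) := by
    have h3 : Tendsto (fun s : ℕ => Real.exp (-((ρ ^ 2 / 2) * (s : ℝ)))) atTop (nhds 0) := by
      apply Real.tendsto_exp_neg_atTop_nhds_zero.comp
      exact tendsto_natCast_atTop_atTop.const_mul_atTop (by positivity)
    have := h3.const_mul 2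
    rwa [mul_zero] at this
  obtain ⟨s₁, h3⟩ := eventually_atTop.1 (hlim.eventually_le_const (show (0 : ℝ) < ε / 8 by positivity))
  refine ⟨max k₁ k₂, max s₁ 1, fun k hk s hs hsk ω hω0 hω1 => ?_⟩
  rw [ge_iff_le, max_le_iff] at hk hs
  have hs0 : (0 : ℝ) < s := by exact_mod_cast hs.2
  have key : ∀ y y', |ω (od s y) (od s y') * ns k ((od s y' : ℤ) - od s y, 0) -
      ω (od s y) (od s y') * U (2 * k) (2 * ((od s y' : ℤ) - od s y))| ≤
      (ε / 4) + id1 (ρ * s ≤ |2 * (od s y : ℝ) - s|) + id1 (ρ * s ≤ |2 * (od s y' : ℝ) - s|) := by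
    intro y y'
    rw [← mul_sub, abs_mul, abs_of_nonneg (hω0 _ _)]
    refine (mul_le_mul_of_nonneg_right (hω1 _ _) (abs_nonneg _)).trans ?_
    rw [one_mul]
    have b0 := ns_nonneg k ((od s y' : ℤ) - od s y, 0)
    have b1 := ns_le_one k ((od s y' : ℤ) - od s y, 0)
    have c0 := U_nonneg (2 * k) (2 * ((od s y' : ℤ) - od s y))
    have c1 := U_le_one (2 * k) (2 * ((od s y' : ℤ) - od s y))
    have i1 := id1_nonneg (ρ * s ≤ |2 * (od s y : ℝ) - s|)
    have i2 := id1_nonneg (ρ * s ≤ |2 * (od s y' : ℝ) - s|)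
    by_cases hy : ρ * s ≤ |2 * (od s y : ℝ) - s|
    · rw [id1_pos hy]; rw [abs_le]; constructor <;> linarith
    · by_cases hy' : ρ * s ≤ |2 * (od s y' : ℝ) - s|
      · rw [id1_pos hy']; rw [abs_le]; constructor <;> linarith
      · push Not at hy hy'
        have hD : |(((od s y' : ℤ) - od s y : ℤ) : ℝ)| ≤ ρ * s := by
          push_cast
          rw [abs_lt] at hy hy'
          rw [abs_le]
          constructor <;> linarith [hy.1, hy.2, hy'.1, hy'.2]
        have hρs : ρ * s ≤ min c 1 * k := by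
          rw [hρ]
          calc min c 1 / C * s ≤ min c 1 / C * (C * k) := mul_le_mul_of_nonneg_left hsk (by rw [← hρ]; exact hρ0.le)
            _ = min c 1 * k := by field_simp
        have hk0 : (0 : ℝ) ≤ k := by positivity
        have hm1 : min c 1 * k ≤ c * k := mul_le_mul_of_nonneg_right (min_le_left _ _) hk0
        have hm2 : min c 1 * k ≤ 1 * k := mul_le_mul_of_nonneg_right (min_le_right _ _) hk0
        have a1 := h1 k hk.1 ((od s y' : ℤ) - od s y) 0 (by linarith) (by push_cast; positivity) 0 (by simp)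
        have a2 := h2 k hk.2 ((od s y' : ℤ) - od s y) (by linarith)
        rw [abs_le] at a1 a2 ⊢
        constructor <;> linarith [a1.1, a1.2, a2.1, a2.2]
  have h4 := ex_abs (s := s) (fun y => ex_abs (s := s) (key y))
  refine h4.trans ?_
  have e1 : ∀ y, ex s (fun y' => (ε / 4) + id1 (ρ * s ≤ |2 * (od s y : ℝ) - s|) + id1 (ρ * s ≤ |2 * (od s y' : ℝ) - s|)) =
      ((ε / 4) + pb s (fun y => ρ * s ≤ |2 * (od s y : ℝ) - s|)) + id1 (ρ * s ≤ |2 * (od s y : ℝ) - s|) := by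
    intro y
    rw [ex_add, ex_const, ← pb_id1]; ring
  rw [ex_congr e1, ex_add, ex_const, ← pb_id1]
  have h5 := pb_od hs.2 (show 0 ≤ ρ * s by positivity)
  have e2 : (ρ * (s : ℝ)) ^ 2 / (2 * s) = (ρ ^ 2 / 2) * s := by field_simp
  rw [e2] at h5
  have h6 := h3 s hs.1
  linarith

theorem K_law {ε C : ℝ} (hε : 0 < ε) (hC : 0 < C) : ∃ k₀ s₀ : ℕ, ∀ k ≥ k₀, ∀ s ≥ s₀, (s : ℝ) ≤ C * k →
    |ex s (fun y => ex s (fun y' => ns k ((od s y' : ℤ) - od s y, 0))) - 2 / π * arcsin √((s : ℝ) / (s + k))| ≤ ε := by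
  obtain ⟨k₁, s₁, h1⟩ := K_U (show 0 < ε / 3 by positivity) hC
  have hl1 : Tendsto (fun k : ℕ => 1 / √ (k : ℝ)) atTop (nhds 0) := by
    have := (Real.tendsto_sqrt_atTop.comp (tendsto_natCast_atTop_atTop (R := ℝ))).inv_tendsto_atTop
    refine this.congr fun k => ?_
    simp
  have hl2 : Tendsto (fun k : ℕ => 4 / (k : ℝ)) atTop (nhds 0) := tendsto_const_div_atTop_nhds_zero_nat 4
  obtain ⟨k₂, h2⟩ := eventually_atTop.1 ((hl1.eventually_le_const (show (0 : ℝ) < ε / 3 by positivity)).and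
    (hl2.eventually_le_const (show (0 : ℝ) < ε / 3 by positivity)))
  refine ⟨max (max k₁ k₂) 3, max s₁ 1, fun k hk s hs hsk => ?_⟩
  rw [ge_iff_le, max_le_iff] at hk hs
  obtain ⟨hk, hk3⟩ := hk
  rw [max_le_iff] at hk
  have a1 := h1 k hk.1 s hs.1 hsk (fun _ _ => 1) (fun _ _ => zero_le_one) (fun _ _ => le_rfl)
  simp only [one_mul] at a1
  have a2 := K_arc (s := s) (k := k) hs.2 hk3
  obtain ⟨b1, b2⟩ := h2 k hk.2
  have b3 : 1 / √ ((s : ℝ) + k) ≤ 1 / √ (k : ℝ) := by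
    apply one_div_le_one_div_of_le
    · apply Real.sqrt_pos.2
      have : 0 < k := by omega
      exact_mod_cast this
    · apply Real.sqrt_le_sqrt
      have : (0 : ℝ) ≤ s := by positivity
      linarith
  have := abs_sub_le (ex s (fun y => ex s (fun y' => ns k ((od s y' : ℤ) - od s y, 0))))
    (ex s (fun y => ex s (fun y' => U (2 * k) (2 * ((od s y' : ℤ) - od s y))))) (2 / π * arcsin √((s : ℝ) / (s + k)))
  linarith

end Pool.Agent.J4H39
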