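import Mathlib
import Pool.Agent.J4H39.M7
import Pool.Agent.J4H39.K13
import Pool.Agent.J4H26.AF.Coal

set_option autoImplicit false

/-! Coalescing walks and independent walks. -/

namespace Pool.Agent.J4H39

open Finset Filter Real
open Pool.Agent.J4H26.AF (moves moves_pos)

variable {K : ℕ}

/-- the mean of `G` after `n` steps of coalescing walks started at `z` -/
noncomputable def cw (G : (Fin K → ℤ) → ℝ) : ℕ → (Fin K → ℤ) → ℝ
  | 0, z => G z
  | n + 1, z => (∑ p ∈ moves z, cw G n (fun i => z i + (p i : ℕ))) / (moves z).card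

/-- the mean of `G` after `n` steps of independent walks started at `z` -/
noncomputable def iw (G : (Fin K → ℤ) → ℝ) : ℕ → (Fin K → ℤ) → ℝ
  | 0, z => G z
  | n + 1, z => (∑ p : Fin K → Fin 2, iw G n (fun i => z i + (p i : ℕ))) / 2 ^ K

theorem card_moves (z : Fin K → ℤ) : (0 : ℝ) < (moves z).card := by exact_mod_cast moves_pos z

theorem cw_mem {G : (Fin K → ℤ) → ℝ} (h0 : ∀ z, 0 ≤ G z) (h1 : ∀ z, G z ≤ 1) (n : ℕ) : ∀ z, 0 ≤ cw G n z ∧ cw G n z ≤ 1 := by
  induction n with
  | zero => intro z; exact ⟨h0 z, h1 z⟩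
  | succ n ih =>
    intro z
    have hc := card_moves z
    simp only [cw]
    refine ⟨div_nonneg (sum_nonneg fun _ _ => (ih _).1) hc.le, ?_⟩
    rw [div_le_one hc]
    refine (sum_le_sum fun p _ => (ih _).2).trans (le_of_eq ?_)
    simp

theorem iw_mem {G : (Fin K → ℤ) → ℝ} (h0 : ∀ z, 0 ≤ G z) (h1 : ∀ z, G z ≤ 1) (n : ℕ) : ∀ z, 0 ≤ iw G n z ∧ iw G n z ≤ 1 := by
  induction n with
  | zero => intro z; exact ⟨h0 z, h1 z⟩
  | succ n ih =>
    intro z
    simp only [iw]
    refine ⟨div_nonneg (sum_nonneg fun _ _ => (ih _).1) (by positivity), ?_⟩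
    rw [div_le_one (by positivity)]
    refine (sum_le_sum fun p _ => (ih _).2).trans (le_of_eq ?_)
    simp

theorem cw_add (G : (Fin K → ℤ) → ℝ) (m n : ℕ) : ∀ z, cw G (m + n) z = cw (cw G m) n z := by
  induction n with
  | zero => intro z; rfl
  | succ n ih =>
    intro z
    show cw G ((m + n) + 1) z = _
    simp only [cw]
    congr 1
    exact sum_congr rfl fun p _ => ih _

theorem iw_add (G : (Fin K → ℤ) → ℝ) (m n : ℕ) : ∀ z, iw G (m + n) z = iw (iw G m) n z := by
  induction n with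
  | zero => intro z; rfl
  | succ n ih =>
    intro z
    show iw G ((m + n) + 1) z = _
    simp only [iw]
    congr 1
    exact sum_congr rfl fun p _ => ih _

theorem iw_close {F G B : (Fin K → ℤ) → ℝ} (h : ∀ z, |F z - G z| ≤ B z) (n : ℕ) : ∀ z, |iw F n z - iw G n z| ≤ iw B n z := by
  induction n with
  | zero => intro z; exact h z
  | succ n ih =>
    intro z
    simp only [iw]
    rw [← sub_div, ← sum_sub_distrib, abs_div, abs_of_pos (by positivity : (0 : ℝ) < 2 ^ K)]
    apply div_le_div_of_nonneg_right _ (by positivity)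
    exact (abs_sum_le_sum_abs _ _).trans (sum_le_sum fun p _ => ih _)

theorem iw_mono {F G : (Fin K → ℤ) → ℝ} (h : ∀ z, F z ≤ G z) (n : ℕ) : ∀ z, iw F n z ≤ iw G n z := by
  induction n with
  | zero => intro z; exact h z
  | succ n ih =>
    intro z
    simp only [iw]
    apply div_le_div_of_nonneg_right _ (by positivity)
    exact sum_le_sum fun p _ => ih _

theorem iw_const (c : ℝ) (n : ℕ) : ∀ z : Fin K → ℤ, iw (fun _ => c) n z = c := by
  induction n with
  | zero => intro z; rfl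
  | succ n ih =>
    intro z
    simp only [iw, ih]
    rw [sum_const, card_univ]
    simp

theorem iw_fsum {ι : Type*} (S : Finset ι) (f : ι → (Fin K → ℤ) → ℝ) (n : ℕ) :
    ∀ z, iw (fun z => ∑ i ∈ S, f i z) n z = ∑ i ∈ S, iw (f i) n z := by
  induction n with
  | zero => intro z; rfl
  | succ n ih =>
    intro z
    simp only [iw, ih]
    rw [sum_comm, sum_div]

theorem iw_one_sub (f : (Fin K → ℤ) → ℝ) (n : ℕ) : ∀ z, iw (fun z => 1 - f z) n z = 1 - iw f n z := by
  induction n with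
  | zero => intro z; rfl
  | succ n ih =>
    intro z
    simp only [iw, ih]
    rw [sum_sub_distrib, sum_const, card_univ, sub_div]
    simp

/-- mean over two coordinates of the steps -/
theorem avg_two {i j : Fin K} (hij : i ≠ j) (φ : Fin 2 → Fin 2 → ℝ) :
    (∑ p : Fin K → Fin 2, φ (p i) (p j)) / 2 ^ K = (φ 0 0 + φ 0 1 + φ 1 0 + φ 1 1) / 4 := by
  have flip : ∀ (l : Fin K) (f : (Fin K → Fin 2) → ℝ), ∑ p : Fin K → Fin 2, f p =
      ∑ p : Fin K → Fin 2, f (Function.update p l (1 - p l)) := by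
    intro l f
    have hinv : Function.Involutive (fun p : Fin K → Fin 2 => Function.update p l (1 - p l)) := by
      intro p
      simp only [Function.update_self, Function.update_idem]
      have : (1 : Fin 2) - (1 - p l) = p l := by
        generalize p l = q
        revert q; decide
      rw [this, Function.update_eq_self]
    exact (Equiv.sum_comp (Function.Involutive.toPerm _ hinv) f).symm
  have h1 : ∑ p : Fin K → Fin 2, φ (p i) (p j) = (∑ p : Fin K → Fin 2, (φ (p i) 0 + φ (p i) 1)) / 2 := by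
    have e := flip j (fun p => φ (p i) (p j))
    simp only [Function.update_self, Function.update_of_ne hij] at e
    have e2 : ∀ p : Fin K → Fin 2, φ (p i) 0 + φ (p i) 1 = φ (p i) (p j) + φ (p i) (1 - p j) := by
      intro p
      generalize p j = q
      fin_cases q
      · simp
      · simp only [Fin.mk_one, sub_self]; ring
    rw [sum_congr rfl (fun p _ => e2 p), sum_add_distrib, ← e]
    ring
  have h2 : ∑ p : Fin K → Fin 2, (φ (p i) 0 + φ (p i) 1) = (∑ _p : Fin K → Fin 2, (φ 0 0 + φ 0 1 + (φ 1 0 + φ 1 1))) / 2 := by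
    have e := flip i (fun p => φ (p i) 0 + φ (p i) 1)
    simp only [Function.update_self] at e
    have e2 : ∀ p : Fin K → Fin 2, (φ 0 0 + φ 0 1 + (φ 1 0 + φ 1 1)) = (φ (p i) 0 + φ (p i) 1) + (φ (1 - p i) 0 + φ (1 - p i) 1) := by
      intro p
      generalize p i = q
      fin_cases q
      · simp
      · simp only [Fin.mk_one, sub_self]; ring
    have e3 : (∑ _p : Fin K → Fin 2, (φ 0 0 + φ 0 1 + (φ 1 0 + φ 1 1))) =
        ∑ p : Fin K → Fin 2, ((φ (p i) 0 + φ (p i) 1) + (φ (1 - p i) 0 + φ (1 - p i) 1)) :=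
      sum_congr rfl (fun p _ => e2 p)
    have e4 := sum_add_distrib (s := (univ : Finset (Fin K → Fin 2))) (f := fun p => φ (p i) 0 + φ (p i) 1)
      (g := fun p => φ (1 - p i) 0 + φ (1 - p i) 1)
    rw [e3, e4, ← e]
    ring
  rw [h1, h2, sum_const, card_univ]
  simp only [Fintype.card_pi, Fintype.card_fin, prod_const, card_univ, nsmul_eq_mul]
  push_cast
  field_simp
  ring

/-- the pairs -/
def prs (K : ℕ) : Finset (Fin K × Fin K) := univ.filter fun e => e.1 < e.2

/-- bound for the probability of a meeting -/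
noncomputable def mt (j : ℕ) (z : Fin K → ℤ) : ℝ := ∑ e ∈ prs K, (1 - U (2 * j) (2 * (z e.2 - z e.1)))

theorem U_two {j : ℕ} {d : ℤ} (hd : d ≠ 0) : U (2 * (j + 1)) (2 * d) =
    (U (2 * j) (2 * d) + U (2 * j) (2 * (d + 1)) + U (2 * j) (2 * (d - 1)) + U (2 * j) (2 * d)) / 4 := by
  have e : 2 * (j + 1) = (2 * j + 1) + 1 := by ring
  rw [e, U_rec (2 * j + 1) (show 2 * d ≠ 0 by omega), U_rec (2 * j) (show 2 * d + 1 ≠ 0 by omega),
    U_rec (2 * j) (show 2 * d - 1 ≠ 0 by omega)]
  have e1 : 2 * d + 1 + 1 = 2 * (d + 1) := by ring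
  have e2 : 2 * d + 1 - 1 = 2 * d := by ring
  have e3 : 2 * d - 1 + 1 = 2 * d := by ring
  have e4 : 2 * d - 1 - 1 = 2 * (d - 1) := by ring
  rw [e1, e2, e3, e4]
  ring

theorem mt_nonneg (j : ℕ) (z : Fin K → ℤ) : 0 ≤ mt j z := sum_nonneg fun e _ => by
  have := U_le_one (2 * j) (2 * (z e.2 - z e.1))
  linarith

/-- a function of the difference of two coordinates -/
theorem avg_dif {i j : Fin K} (hij : i ≠ j) (f : ℤ → ℝ) (d : ℤ) :
    (∑ p : Fin K → Fin 2, f (2 * (d + ((p j : ℕ) : ℤ) - ((p i : ℕ) : ℤ)))) / 2 ^ K =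
      (f (2 * d) + f (2 * (d + 1)) + f (2 * (d - 1)) + f (2 * d)) / 4 := by
  have h := avg_two hij (fun a b => f (2 * (d + ((b : ℕ) : ℤ) - ((a : ℕ) : ℤ))))
  rw [h]
  simp

theorem meet {Ψ : (Fin K → ℤ) → ℝ} (h0 : ∀ z, 0 ≤ Ψ z) (h1 : ∀ z, Ψ z ≤ 1) (j : ℕ) :
    ∀ z, |cw Ψ j z - iw Ψ j z| ≤ mt j z := by
  induction j with
  | zero =>
    intro z
    simp only [cw, iw, sub_self, abs_zero]
    exact mt_nonneg _ _
  | succ j ih =>
    intro z
    by_cases hz : ∀ e ∈ prs K, z e.1 ≠ z e.2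
    · have hmv : moves z = univ := by
        unfold moves
        rw [filter_eq_self]
        intro p _ a b hab
        rcases lt_trichotomy a b with h | h | h
        · exact absurd hab (hz (a, b) (by unfold prs; rw [mem_filter]; exact ⟨mem_univ _, h⟩))
        · rw [h]
        · exact absurd hab.symm (hz (b, a) (by unfold prs; rw [mem_filter]; exact ⟨mem_univ _, h⟩))
      simp only [cw, iw]
      rw [hmv, card_univ]
      simp only [Fintype.card_pi, Fintype.card_fin, prod_const, card_univ]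
      push_cast
      rw [← sub_div, ← sum_sub_distrib, abs_div, abs_of_pos (by positivity : (0 : ℝ) < 2 ^ K)]
      have e1 : mt (j + 1) z = (∑ p : Fin K → Fin 2, mt j (fun i => z i + (p i : ℕ))) / 2 ^ K := by
        unfold mt
        rw [sum_comm, sum_div]
        apply sum_congr rfl
        intro e he
        have hne := hz e he
        have hlt : e.1 ≠ e.2 := by
          unfold prs at he
          rw [mem_filter] at he
          exact he.2.ne
        have h2 := avg_dif hlt (fun d => 1 - U (2 * j) d) (z e.2 - z e.1)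
        have e2 : ∀ p : Fin K → Fin 2, (1 - U (2 * j) (2 * (z e.2 + ((p e.2 : ℕ) : ℤ) - (z e.1 + ((p e.1 : ℕ) : ℤ))))) =
            1 - U (2 * j) (2 * (z e.2 - z e.1 + ((p e.2 : ℕ) : ℤ) - ((p e.1 : ℕ) : ℤ))) := by
          intro p
          congr 3
          ring
        rw [sum_congr rfl (fun p _ => e2 p), h2, U_two (show z e.2 - z e.1 ≠ 0 by omega)]
        ring
      rw [e1]
      apply div_le_div_of_nonneg_right _ (by positivity)
      exact (abs_sum_le_sum_abs _ _).trans (sum_le_sum fun p _ => ih _)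
    · push Not at hz
      obtain ⟨e, he, hze⟩ := hz
      have h2 : (1 : ℝ) ≤ mt (j + 1) z := by
        unfold mt
        have h3 : (1 : ℝ) = 1 - U (2 * (j + 1)) (2 * (z e.2 - z e.1)) := by
          rw [hze, sub_self, mul_zero, U_zero]; ring
        calc (1 : ℝ) = 1 - U (2 * (j + 1)) (2 * (z e.2 - z e.1)) := h3
          _ ≤ _ := single_le_sum (f := fun e : Fin K × Fin K => 1 - U (2 * (j + 1)) (2 * (z e.2 - z e.1)))
            (fun e _ => by have := U_le_one (2 * (j + 1)) (2 * (z e.2 - z e.1)); linarith) he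
      have a := cw_mem h0 h1 (j + 1) z
      have b := iw_mem h0 h1 (j + 1) z
      rw [abs_le]; constructor <;> linarith [a.1, a.2, b.1, b.2]

/-- independent walks and a function of a difference -/
theorem iw_dif {i j : Fin K} (hij : i ≠ j) (f : ℤ → ℝ) (s : ℕ) : ∀ z : Fin K → ℤ,
    iw (fun z => f (2 * (z j - z i))) s z = Av f (2 * s) (2 * (z j - z i)) := by
  induction s with
  | zero => intro z; rfl
  | succ s ih =>
    intro z
    simp only [iw, ih]
    have e2 : ∀ p : Fin K → Fin 2, Av f (2 * s) (2 * (z j + ((p j : ℕ) : ℤ) - (z i + ((p i : ℕ) : ℤ)))) =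
        Av f (2 * s) (2 * (z j - z i + ((p j : ℕ) : ℤ) - ((p i : ℕ) : ℤ))) := by
      intro p
      congr 1
      ring
    rw [sum_congr rfl (fun p _ => e2 p), avg_dif hij]
    have e3 : 2 * (s + 1) = 2 * s + 1 + 1 := by ring
    rw [e3]
    simp only [Av]
    have e4 : 2 * (z j - z i) + 1 + 1 = 2 * (z j - z i + 1) := by ring
    have e5 : 2 * (z j - z i) + 1 - 1 = 2 * (z j - z i) := by ring
    have e6 : 2 * (z j - z i) - 1 + 1 = 2 * (z j - z i) := by ring
    have e7 : 2 * (z j - z i) - 1 - 1 = 2 * (z j - z i - 1) := by ring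
    rw [e4, e5, e6, e7]
    ring

theorem iw_mt (j s : ℕ) : iw (mt j) s (fun _ : Fin K => (0 : ℤ)) = (prs K).card * (1 - F (2 * j) (2 * j + 2 * s) 0) := by
  have h1 : iw (mt j) s (fun _ : Fin K => (0 : ℤ)) = ∑ e ∈ prs K, iw (fun z => 1 - U (2 * j) (2 * (z e.2 - z e.1))) s (fun _ => 0) :=
    iw_fsum (prs K) (fun e z => 1 - U (2 * j) (2 * (z e.2 - z e.1))) s _
  rw [h1]
  have h2 : ∀ e ∈ prs K, iw (fun z : Fin K → ℤ => 1 - U (2 * j) (2 * (z e.2 - z e.1))) s (fun _ => 0) = 1 - F (2 * j) (2 * j + 2 * s) 0 := by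
    intro e he
    have hlt : e.1 ≠ e.2 := by
      unfold prs at he
      rw [mem_filter] at he
      exact he.2.ne
    rw [iw_one_sub, iw_dif hlt (U (2 * j)) s, F_Av]
    simp
  rw [sum_congr rfl h2, sum_const, nsmul_eq_mul]

/-- change of the time of the beginning of the coalescence -/
theorem switch {G : (Fin K → ℤ) → ℝ} (h0 : ∀ z, 0 ≤ G z) (h1 : ∀ z, G z ≤ 1) (s j n : ℕ) :
    |iw (cw G (n + j)) s (fun _ => 0) - iw (cw G n) (s + j) (fun _ => 0)| ≤ (prs K).card * (1 - F (2 * j) (2 * j + 2 * s) 0) := by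
  have h2 : ∀ z, |cw G (n + j) z - iw (cw G n) j z| ≤ mt j z := by
    intro z
    rw [cw_add]
    exact meet (fun z => (cw_mem h0 h1 n z).1) (fun z => (cw_mem h0 h1 n z).2) j z
  have h3 := iw_close h2 s (fun _ => 0)
  rw [iw_mt] at h3
  rw [add_comm s j, iw_add]
  exact h3

end Pool.Agent.J4H39
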