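import Mathlib
import Pool.Agent.J4H39.Z1

set_option autoImplicit false

/-! Words and walks; continuity in the time of the beginning of the coalescence. -/

namespace Pool.Agent.J4H39

open Finset Filter Real
open Pool.Agent.J4H26.AF (moves moves_pos)

variable {K : ℕ}

theorem exK_congr' {s : ℕ} : ∀ {K : ℕ} {F G : (Fin K → ℤ) → ℝ}, (∀ v, F v = G v) → exK s K F = exK s K G := by
  intro K F G h
  have : F = G := funext h
  rw [this]

theorem exK_od_succ (s : ℕ) : ∀ {K : ℕ} (G : (Fin K → ℕ) → ℝ), exK (s + 1) K (fun y => G (fun i => od (s + 1) (y i))) =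
    (∑ p : Fin K → Fin 2, exK s K (fun y => G (fun i => od s (y i) + (p i : ℕ)))) / 2 ^ K := by
  intro K
  induction K with
  | zero =>
    intro G
    simp only [exK, pow_zero, div_one]
    rw [Fintype.sum_unique]
    congr 1
    funext i
    exact i.elim0
  | succ K ih =>
    intro G
    simp only [exK]
    have h1 : ∀ y : ℤ, exK (s + 1) K (fun v => G (fun i => od (s + 1) ((Fin.cons y v : Fin (K + 1) → ℤ) i))) =
        (fun o => exK (s + 1) K (fun v => G (Fin.cons o (fun i => od (s + 1) (v i))))) (od (s + 1) y) := by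
      intro y
      apply exK_congr'
      intro v
      congr 1
      funext i
      refine Fin.cases ?_ ?_ i
      · simp
      · intro j; simp
    rw [ex_congr h1, ex_od_succ s (fun o => exK (s + 1) K (fun v => G (Fin.cons o (fun i => od (s + 1) (v i)))))]
    have h2 : ∀ o : ℕ, exK (s + 1) K (fun v => G (Fin.cons o (fun i => od (s + 1) (v i)))) =
        (∑ p : Fin K → Fin 2, exK s K (fun v => G (Fin.cons o (fun i => od s (v i) + (p i : ℕ))))) / 2 ^ K :=
      fun o => ih (fun w => G (Fin.cons o w))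
    simp only [h2]
    have h3 : ∀ (q : ℕ), ex s (fun y => (∑ p : Fin K → Fin 2, exK s K (fun v => G (Fin.cons (od s y + q) (fun i => od s (v i) + (p i : ℕ))))) / 2 ^ K) =
        (∑ p : Fin K → Fin 2, ex s (fun y => exK s K (fun v => G (Fin.cons (od s y + q) (fun i => od s (v i) + (p i : ℕ)))))) / 2 ^ K := by
      intro q
      rw [← ex_sum, div_eq_inv_mul, ← ex_mul]
      apply ex_congr
      intro y
      rw [div_eq_inv_mul]
    have h4 := h3 0
    simp only [add_zero] at h4
    rw [h4, h3 1]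
    have h5 : ∑ p : Fin (K + 1) → Fin 2, ex s (fun y => exK s K (fun v => G (fun i => od s ((Fin.cons y v : Fin (K + 1) → ℤ) i) + (p i : ℕ)))) =
        ∑ q : Fin 2, ∑ p : Fin K → Fin 2, ex s (fun y => exK s K (fun v => G (Fin.cons (od s y + (q : ℕ)) (fun i => od s (v i) + (p i : ℕ))))) := by
      rw [← Fintype.sum_prod_type']
      symm
      apply Fintype.sum_equiv (Fin.consEquiv (fun _ => Fin 2))
      rintro ⟨q, p⟩
      simp only [Fin.consEquiv_apply]
      apply ex_congr
      intro y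
      apply exK_congr'
      intro v
      congr 1
      funext i
      refine Fin.cases ?_ ?_ i
      · simp
      · intro j; simp
    rw [h5, Fin.sum_univ_two, pow_succ]
    simp only [Fin.val_zero, Fin.val_one, add_zero]
    ring

/-- means over words are means over independent walks -/
theorem exK_iw (Φ : (Fin K → ℤ) → ℝ) (s : ℕ) : ∀ z : Fin K → ℤ,
    exK s K (fun y => Φ (fun i => z i + (od s (y i) : ℕ))) = iw Φ s z := by
  induction s with
  | zero =>
    intro z
    have h : ∀ {K : ℕ} (Φ : (Fin K → ℤ) → ℝ) (z : Fin K → ℤ), exK 0 K (fun y => Φ (fun i => z i + (od 0 (y i) : ℕ))) = Φ z := by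
      intro K
      induction K with
      | zero =>
        intro Φ z
        simp only [exK]
        congr 1
        funext i
        exact i.elim0
      | succ K ih =>
        intro Φ z
        simp only [exK]
        rw [ex_zero]
        have := ih (fun w => Φ (Fin.cons (z 0) w)) (fun i => z i.succ)
        have e1 : (Fin.cons (z 0) (fun i => z i.succ) : Fin (K + 1) → ℤ) = z := by
          funext i
          refine Fin.cases ?_ ?_ i
          · simp
          · intro j; simp
        rw [e1] at this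
        rw [← this]
        apply exK_congr'
        intro v
        congr 1
        funext i
        refine Fin.cases ?_ ?_ i
        · simp [od]
        · intro j; simp
    exact h Φ z
  | succ s ih =>
    intro z
    simp only [iw]
    rw [exK_od_succ s (fun o => Φ (fun i => z i + (o i : ℕ)))]
    congr 1
    apply sum_congr rfl
    intro p _
    rw [← ih]
    apply exK_congr'
    intro v
    congr 1
    funext i
    push_cast
    ring

theorem U_anti' {q q' : ℕ} (h : q ≤ q') (d : ℤ) : U q' d ≤ U q d := by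
  induction q', h using Nat.le_induction with
  | base => exact le_rfl
  | succ n _ ih => exact (U_anti n d).trans ih

theorem Av_mono {f g : ℤ → ℝ} (h : ∀ d, f d ≤ g d) (a : ℕ) : ∀ d, Av f a d ≤ Av g a d := by
  induction a with
  | zero => exact h
  | succ a ih =>
    intro d
    simp only [Av]
    have := ih (d + 1)
    have := ih (d - 1)
    linarith

/-- continuity in the time of the beginning of the coalescence -/
theorem switch_small (K : ℕ) {r₀ ε : ℝ} (hr₀ : 0 < r₀) (hε : 0 < ε) : ∃ η : ℝ, 0 < η ∧ ∃ t₀ : ℕ, ∀ t ≥ t₀, ∀ s s' n n' : ℕ,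
    s + n = t → s' + n' = t → r₀ * t ≤ s → r₀ * t ≤ s' → |(s : ℝ) - s'| ≤ η * t → ∀ G : (Fin K → ℤ) → ℝ,
    (∀ z, 0 ≤ G z) → (∀ z, G z ≤ 1) → |iw (cw G n) s (fun _ => 0) - iw (cw G n') s' (fun _ => 0)| ≤ ε := by
  obtain ⟨C, hC⟩ : ∃ C : ℝ, C = ((prs K).card : ℝ) + 1 := ⟨_, rfl⟩
  have hC1 : 1 ≤ C := by rw [hC]; have : (0 : ℝ) ≤ (prs K).card := by positivity
                         linarith
  obtain ⟨ε', hε'⟩ : ∃ ε', ε' = ε / (3 * C) := ⟨_, rfl⟩
  have hε'0 : 0 < ε' := by rw [hε']; positivity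
  have hcont : Continuous (fun r : ℝ => 2 / π * arcsin √r) :=
    continuous_const.mul (continuous_arcsin.comp continuous_sqrt)
  obtain ⟨δ, hδ, hδc⟩ := Metric.continuous_iff.1 hcont 1 ε' hε'0
  have h1 : 2 / π * arcsin √(1 : ℝ) = 1 := by
    rw [Real.sqrt_one, Real.arcsin_one]
    have := Real.pi_pos
    field_simp
  rw [h1] at hδc
  obtain ⟨η, hη⟩ : ∃ η, η = min (r₀ * δ / 4) 1 := ⟨_, rfl⟩
  have hη0 : 0 < η := by rw [hη]; apply lt_min; positivity; norm_num
  have hη1 : η ≤ r₀ * δ / 4 := by rw [hη]; exact min_le_left _ _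
  refine ⟨η, hη0, ?_⟩
  have hl1 : Tendsto (fun k : ℕ => 1 / √ (k : ℝ)) atTop (nhds 0) := by
    have := (Real.tendsto_sqrt_atTop.comp (tendsto_natCast_atTop_atTop (R := ℝ))).inv_tendsto_atTop
    refine this.congr fun k => ?_
    simp
  have hl2 : Tendsto (fun k : ℕ => 4 / (k : ℝ)) atTop (nhds 0) := tendsto_const_div_atTop_nhds_zero_nat 4
  obtain ⟨k₂, hk₂⟩ := eventually_atTop.1 ((hl1.eventually_le_const hε'0).and (hl2.eventually_le_const hε'0))
  obtain ⟨t₁, ht₁⟩ := exists_nat_ge (((k₂ : ℝ) + 4) / η)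
  obtain ⟨t₂, ht₂⟩ := exists_nat_ge (1 / η)
  obtain ⟨t₃, ht₃⟩ := exists_nat_ge (1 / r₀)
  refine ⟨max (max t₁ t₂) t₃, ?_⟩
  -- the ordered case
  have key : ∀ t ≥ max (max t₁ t₂) t₃, ∀ s s' n n' : ℕ, s + n = t → s' + n' = t → r₀ * t ≤ s → s ≤ s' → (s' : ℝ) - s ≤ η * t →
      ∀ G : (Fin K → ℤ) → ℝ, (∀ z, 0 ≤ G z) → (∀ z, G z ≤ 1) →
      |iw (cw G n) s (fun _ => 0) - iw (cw G n') s' (fun _ => 0)| ≤ ε := by
    intro t ht s s' n n' hsn hsn' hrs hss hd G hG0 hG1
    have htt1 : t₁ ≤ t := ((le_max_left _ _).trans (le_max_left _ _)).trans ht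
    have htt2 : t₂ ≤ t := ((le_max_right _ _).trans (le_max_left _ _)).trans ht
    have htt3 : t₃ ≤ t := (le_max_right _ _).trans ht
    have g1 : ((k₂ : ℝ) + 4) ≤ η * t := by
      rw [div_le_iff₀ hη0] at ht₁
      have : (t₁ : ℝ) ≤ t := by exact_mod_cast htt1
      nlinarith
    have g2 : 1 ≤ η * t := by
      rw [div_le_iff₀ hη0] at ht₂
      have : (t₂ : ℝ) ≤ t := by exact_mod_cast htt2
      nlinarith
    have g3 : 1 ≤ r₀ * t := by
      rw [div_le_iff₀ hr₀] at ht₃
      have : (t₃ : ℝ) ≤ t := by exact_mod_cast htt3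
      nlinarith
    obtain ⟨j, hj⟩ := Nat.exists_eq_add_of_le hss
    have hn : n = n' + j := by omega
    obtain ⟨j₀, hj₀⟩ : ∃ j₀, j₀ = ⌊η * (t : ℝ)⌋₊ := ⟨_, rfl⟩
    have hj₀1 : (j₀ : ℝ) ≤ η * t := by rw [hj₀]; exact Nat.floor_le (by linarith)
    have hj₀2 : η * t < j₀ + 1 := by rw [hj₀]; exact Nat.lt_floor_add_one _
    have hjj : j ≤ j₀ := by
      rw [hj₀]
      apply Nat.le_floor
      rw [hj] at hd
      push_cast at hd
      linarith
    have hj₀3 : k₂ + 3 ≤ j₀ := by
      have : (k₂ : ℝ) + 3 ≤ j₀ := by linarith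
      exact_mod_cast this
    have hs0 : (0 : ℝ) < s := by linarith
    have hs1 : 1 ≤ s := by exact_mod_cast hs0
    have h2 := switch hG0 hG1 s j n'
    rw [← hn, ← hj] at h2
    refine h2.trans ?_
    have h3 : F (2 * j₀) (2 * j₀ + 2 * s) 0 ≤ F (2 * j) (2 * j + 2 * s) 0 := by
      rw [F_Av, F_Av]
      exact Av_mono (fun d => U_anti' (by omega) d) _ _
    have h4 := arc_law (a := s) (b := s + j₀) hs1 (by omega)
    have e1 : F (2 * (s + j₀ - s)) (2 * (s + j₀)) 0 = F (2 * j₀) (2 * j₀ + 2 * s) 0 := by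
      congr 1 <;> omega
    rw [e1] at h4
    have hj0r : (0 : ℝ) ≤ j₀ := by positivity
    have h5 : |(s : ℝ) / ((s + j₀ : ℕ) : ℝ) - 1| < δ := by
      push_cast
      have e2 : (s : ℝ) / (s + j₀) - 1 = -(j₀ / (s + j₀)) := by field_simp; ring
      rw [e2, abs_neg, abs_of_nonneg (by positivity), div_lt_iff₀ (by positivity)]
      have h6 : (j₀ : ℝ) ≤ r₀ * δ / 4 * t := hj₀1.trans (mul_le_mul_of_nonneg_right hη1 (by positivity))
      have h7 : δ * (r₀ * t) ≤ δ * s := mul_le_mul_of_nonneg_left hrs hδ.le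
      have h8 : 0 < δ * (r₀ * t) := by positivity
      have h9 : 0 ≤ δ * j₀ := by positivity
      have e3 : r₀ * δ / 4 * (t : ℝ) = δ * (r₀ * t) / 4 := by ring
      rw [e3] at h6
      linarith
    have h6 := hδc _ (by rw [Real.dist_eq]; exact h5)
    rw [Real.dist_eq] at h6
    obtain ⟨b1, b2⟩ := hk₂ j₀ (by omega)
    have h7 : 1 / √ (((s + j₀ : ℕ)) : ℝ) ≤ ε' := by
      refine le_trans ?_ b1
      apply one_div_le_one_div_of_le
      · apply Real.sqrt_pos.2
        have : 0 < j₀ := by omega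
        exact_mod_cast this
      · apply Real.sqrt_le_sqrt
        push_cast; linarith
    have h8 : 4 / ((((s + j₀ : ℕ)) : ℝ) - s) ≤ ε' := by
      push_cast
      rw [add_sub_cancel_left]
      exact b2
    have h9 : 1 - F (2 * j) (2 * j + 2 * s) 0 ≤ 3 * ε' := by
      rw [abs_le] at h4
      rw [abs_lt] at h6
      linarith [h4.1, h6.1]
    have h10 : 0 ≤ 1 - F (2 * j) (2 * j + 2 * s) 0 := by
      have := F_le_one (2 * j) (2 * j + 2 * s) 0
      linarith
    calc ((prs K).card : ℝ) * (1 - F (2 * j) (2 * j + 2 * s) 0) ≤ C * (3 * ε') :=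
          mul_le_mul (by rw [hC]; linarith) h9 h10 (by linarith)
      _ = ε := by rw [hε']; field_simp
  intro t ht s s' n n' hsn hsn' hrs hrs' hd G hG0 hG1
  rw [abs_le] at hd
  rcases le_total s s' with h | h
  · exact key t ht s s' n n' hsn hsn' hrs h (by linarith [hd.1]) G hG0 hG1
  · rw [abs_sub_comm]
    exact key t ht s' s n' n hsn' hsn hrs' h (by linarith [hd.2]) G hG0 hG1

end Pool.Agent.J4H39
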