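import Mathlib
import Pool.Agent.J4H39.Z2
import Pool.Agent.J4H26.KT.W0

set_option autoImplicit false

/-! The statements (W0), (W1) of helper26. -/

namespace Pool.Agent.J4H39

open Finset Filter Real
open Pool.Agent.J4H26.AF (moves moves_pos)

variable {K : ℕ}

theorem cw_eq (G : (Fin K → ℤ) → ℝ) (n : ℕ) : ∀ z, cw G n z = J4H26.KT.cw G n z := by
  induction n with
  | zero => intro z; rfl
  | succ n ih =>
    intro z
    show (∑ p ∈ moves z, cw G n (fun i => z i + (p i : ℕ))) / (moves z).card =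
      (∑ p ∈ moves z, J4H26.KT.cw G n (fun i => z i + (p i : ℕ))) / (moves z).card
    rw [sum_congr rfl fun p _ => ih _]

theorem iw_eq (G : (Fin K → ℤ) → ℝ) (n : ℕ) : ∀ z, iw G n z = J4H26.KT.iw G n z := by
  induction n with
  | zero => intro z; rfl
  | succ n ih =>
    intro z
    show (∑ p : Fin K → Fin 2, iw G n (fun i => z i + (p i : ℕ))) / 2 ^ K =
      (∑ p : Fin K → Fin 2, J4H26.KT.iw G n (fun i => z i + (p i : ℕ))) / 2 ^ K
    rw [sum_congr rfl fun p _ => ih _]

theorem t_EXK : J4H26.KT.S_EXK := by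
  intro K s F
  have h := exK_iw F s (fun _ => 0)
  simp only [zero_add] at h
  rw [h, iw_eq]

theorem cw_aff (G : (Fin K → ℤ) → ℝ) (a b : ℝ) (n : ℕ) : ∀ z, cw (fun u => a * G u + b) n z = a * cw G n z + b := by
  induction n with
  | zero => intro z; rfl
  | succ n ih =>
    intro z
    simp only [cw, ih]
    have hc := card_moves z
    rw [sum_add_distrib, ← mul_sum, sum_const, nsmul_eq_mul]
    field_simp

theorem iw_aff (G : (Fin K → ℤ) → ℝ) (a b : ℝ) (n : ℕ) : ∀ z, iw (fun u => a * G u + b) n z = a * iw G n z + b := by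
  induction n with
  | zero => intro z; rfl
  | succ n ih =>
    intro z
    simp only [iw, ih]
    rw [sum_add_distrib, ← mul_sum, sum_const, card_univ]
    simp only [Fintype.card_pi, Fintype.card_fin, prod_const, card_univ, nsmul_eq_mul]
    push_cast
    field_simp

theorem t_CONT : J4H26.KT.S_CONT := by
  intro K δ ε hδ hε
  obtain ⟨η, hη, t₀, ht₀⟩ := switch_small K hδ (show 0 < ε / 2 by positivity)
  refine ⟨η, hη, ?_⟩
  filter_upwards [eventually_ge_atTop t₀] with t ht
  intro s s' k k' hs hs' hd hd' hss G hG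
  have hcw : ∀ n : ℕ, J4H26.KT.cw G n = fun z => 2 * cw (fun u => 1 / 2 * G u + 1 / 2) n z + (-1) := by
    intro n
    funext z
    rw [← cw_eq, cw_aff]
    ring
  have hiw : ∀ n m : ℕ, J4H26.KT.iw (J4H26.KT.cw G n) m (fun _ => 0) =
      2 * iw (cw (fun u => 1 / 2 * G u + 1 / 2) n) m (fun _ => 0) + (-1) := by
    intro n m
    rw [← iw_eq, hcw n, iw_aff]
  rw [hiw, hiw]
  have h := ht₀ t ht s s' k k' hs hs' hd hd' hss (fun u => 1 / 2 * G u + 1 / 2)
    (fun u => by have := (abs_le.1 (hG u)).1; linarith) (fun u => by have := (abs_le.1 (hG u)).2; linarith)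
  have e : 2 * iw (cw (fun u => 1 / 2 * G u + 1 / 2) k) s (fun _ => (0 : ℤ)) + -1 -
      (2 * iw (cw (fun u => 1 / 2 * G u + 1 / 2) k') s' (fun _ => (0 : ℤ)) + -1) =
      2 * (iw (cw (fun u => 1 / 2 * G u + 1 / 2) k) s (fun _ => (0 : ℤ)) - iw (cw (fun u => 1 / 2 * G u + 1 / 2) k') s' (fun _ => 0)) := by
    ring
  rw [e, abs_mul, abs_of_pos (by norm_num : (0 : ℝ) < 2)]
  linarith

end Pool.Agent.J4H39
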