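import Mathlib
import Pool.Agent.J4H39.K13
import Pool.Agent.J4H67.KT.P1
import Pool.Agent.J4H75.KT.P2
import Pool.Agent.J4H79.KT.P5

set_option autoImplicit false

namespace Pool.Agent.J4H39

theorem KLF_all : S_KLF := t_KLF J4H67.KT.t_KLK

/-- **Reduction to words.**  The joint law of the exponents and of the pattern of mergings of several random points of a
window is the one of independent words, followed by related forms. -/
theorem WIN_all : S_WIN := J4H79.KT.t_WIN J4H75.KT.t_PARK KLF_all

end Pool.Agent.J4H39
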