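import Mathlib
import Pool.Agent.J4H39.M9
import Pool.Agent.J4H39.M7

set_option autoImplicit false

namespace Pool.Agent.J4H39

open Finset Filter Real

/-! The arcsine law. -/

theorem blk_le {N H b M G : ℕ} (x : ℤ) {F : ℤ → ℤ → ℝ} (hF : ∀ n u, 0 ≤ F n u) (hM : (M + 1) * b ≤ N) (hG : (G + 1) * b ≤ H) :
    ∑ g ∈ range G, ∑ p ∈ range (M + 1), ∑ i ∈ range b, ∑ j ∈ range b,
      F (x + (p : ℕ) * b + (i : ℕ)) (x + ((g + 1 : ℕ) : ℤ) * b + (p : ℕ) * b + (j : ℕ)) ≤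
    ∑ i ∈ range N, ∑ h ∈ Icc 1 H, F (x + (i : ℕ)) (x + (i : ℕ) + (h : ℕ)) := by
  have h1 : ∑ g ∈ range G, ∑ p ∈ range (M + 1), ∑ i ∈ range b, ∑ j ∈ range b,
      F (x + (p : ℕ) * b + (i : ℕ)) (x + ((g + 1 : ℕ) : ℤ) * b + (p : ℕ) * b + (j : ℕ)) =
      ∑ p ∈ range (M + 1), ∑ i ∈ range b, ∑ g ∈ range G, ∑ j ∈ range b,
      F (x + (p : ℕ) * b + (i : ℕ)) (x + ((g + 1 : ℕ) : ℤ) * b + (p : ℕ) * b + (j : ℕ)) := by
    rw [sum_comm]
    apply sum_congr rfl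
    intro p _
    rw [sum_comm]
  rw [h1]
  have h2 : ∀ p ∈ range (M + 1), ∀ i ∈ range b, ∑ g ∈ range G, ∑ j ∈ range b,
      F (x + (p : ℕ) * b + (i : ℕ)) (x + ((g + 1 : ℕ) : ℤ) * b + (p : ℕ) * b + (j : ℕ)) ≤
      ∑ h ∈ Icc 1 H, F (x + ((i + b * p : ℕ) : ℤ)) (x + ((i + b * p : ℕ) : ℤ) + (h : ℕ)) := by
    intro p _ i hi
    rw [mem_range] at hi
    have e0 : x + (p : ℕ) * (b : ℤ) + (i : ℕ) = x + ((i + b * p : ℕ) : ℤ) := by push_cast; ring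
    have e1 : ∑ g ∈ range G, ∑ j ∈ range b, F (x + (p : ℕ) * b + (i : ℕ)) (x + ((g + 1 : ℕ) : ℤ) * b + (p : ℕ) * b + (j : ℕ)) =
        ∑ v ∈ range (b * G), F (x + ((i + b * p : ℕ) : ℤ)) (x + ((i + b * p : ℕ) : ℤ) + ((b - i + v : ℕ) : ℤ)) := by
      rw [sum_block]
      apply sum_congr rfl
      intro g _
      apply sum_congr rfl
      intro j _
      rw [e0]
      congr 1
      rw [Nat.cast_add (b - i), Nat.cast_sub hi.le]
      push_cast; ring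
    rw [e1]
    have e2 := sum_Ico_eq_sum_range (fun h : ℕ => F (x + ((i + b * p : ℕ) : ℤ)) (x + ((i + b * p : ℕ) : ℤ) + (h : ℤ))) (b - i) (b - i + b * G)
    rw [Nat.add_sub_cancel_left] at e2
    rw [← e2]
    apply sum_le_sum_of_subset_of_nonneg
    · intro h hh
      rw [mem_Ico] at hh
      rw [mem_Icc]
      have : (G + 1) * b = b + b * G := by ring
      omega
    · intro _ _ _; exact hF _ _
  refine (sum_le_sum fun p hp => sum_le_sum fun i hi => h2 p hp i hi).trans ?_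
  rw [← sum_block b (M + 1) (fun n => ∑ h ∈ Icc 1 H, F (x + ((n : ℕ) : ℤ)) (x + ((n : ℕ) : ℤ) + (h : ℕ)))]
  apply sum_le_sum_of_subset_of_nonneg
  · apply range_mono
    rw [mul_comm]; exact hM
  · intro _ _ _
    exact sum_nonneg fun _ _ => hF _ _

theorem blk_two {N H b M G : ℕ} (x : ℤ) {F : ℤ → ℤ → ℝ} (hF : ∀ n u, 0 ≤ F n u) (hF1 : ∀ n u, F n u ≤ 1)
    (hM : (M + 1) * b ≤ N) (hG : (G + 1) * b ≤ H) :
    |∑ i ∈ range N, ∑ h ∈ Icc 1 H, F (x + (i : ℕ)) (x + (i : ℕ) + (h : ℕ)) -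
      ∑ g ∈ range G, ∑ p ∈ range (M + 1), ∑ i ∈ range b, ∑ j ∈ range b,
      F (x + (p : ℕ) * b + (i : ℕ)) (x + ((g + 1 : ℕ) : ℤ) * b + (p : ℕ) * b + (j : ℕ))| ≤
      (N : ℝ) * H - G * (M + 1) * b ^ 2 := by
  have h1 := blk_le x hF hM hG
  have h2 := blk_le x (F := fun n u => 1 - F n u) (fun n u => by have := hF1 n u; linarith) hM hG
  simp only [sum_sub_distrib, sum_const, card_range, nsmul_eq_mul, mul_one, Nat.card_Icc, Nat.add_sub_cancel] at h2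
  push_cast at h1 h2 ⊢
  rw [abs_le]
  constructor
  · nlinarith
  · nlinarith

/-- error arithmetic -/
theorem final_arith {S B NH m A e₁ e₂ : ℝ} (h1 : |S - B| ≤ NH - m) (h2 : |B - m * A| ≤ m * e₁) (hA0 : 0 ≤ A) (hA1 : A ≤ 1)
    (he : 0 ≤ e₁) (h3 : NH - m ≤ e₂ * NH) (hm : m ≤ NH) : |S - NH * A| ≤ (e₁ + 2 * e₂) * NH := by
  have h4 : |m * A - NH * A| ≤ NH - m := by
    rw [← sub_mul, abs_mul, abs_of_nonneg hA0, abs_sub_comm, abs_of_nonneg (by linarith)]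
    calc (NH - m) * A ≤ (NH - m) * 1 := mul_le_mul_of_nonneg_left hA1 (by linarith)
      _ = NH - m := mul_one _
  have h5 : m * e₁ ≤ NH * e₁ := mul_le_mul_of_nonneg_right hm he
  have a1 := abs_sub_le S B (NH * A)
  have a2 := abs_sub_le B (m * A) (NH * A)
  linarith

theorem mn_sum (a : ℤ) {b : ℕ} (hb : 1 ≤ b) (f : ℤ → ℝ) : ∑ v ∈ range b, f (a + (v : ℕ)) = b * mn a b f := by
  have : (b : ℝ) ≠ 0 := by
    have : (0 : ℝ) < b := by exact_mod_cast hb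
    exact this.ne'
  unfold mn; field_simp

theorem full_law {θ τ : ℝ} (hθ : 0 < θ) (hθ1 : θ < 1) (hτθ : θ < τ * th0) (hτ1 : τ * th0 < 1) {ε : ℝ} (hε : 0 < ε) :
    ∀ᶠ N : ℕ in atTop, ∀ x : ℤ,
    |∑ i ∈ range N, ∑ h ∈ Icc 1 (HN θ N), id1 (T^[tN τ N] (x + (i : ℕ)) ≠ T^[tN τ N] (x + (i : ℕ) + (h : ℕ))) -
      N * HN θ N * (2 / π * arcsin √(θ / (τ * th0)))| ≤ ε * (N * HN θ N) := by
  have hth0 := th0_pos
  have hτ : 0 < τ := by
    by_contra hcon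
    push Not at hcon
    have : τ * th0 ≤ 0 := mul_nonpos_of_nonpos_of_nonneg hcon hth0.le
    linarith
  obtain ⟨C, hC, hpar⟩ := params hθ hθ1 hτθ hτ1
  -- continuity
  have hcont : Continuous (fun r : ℝ => 2 / π * arcsin √r) :=
    continuous_const.mul (continuous_arcsin.comp continuous_sqrt)
  obtain ⟨δ₀, hδ₀, hδc⟩ := Metric.continuous_iff.1 hcont (θ / (τ * th0)) (ε / 4) (by positivity)
  obtain ⟨W, hW⟩ : ∃ W, W = 1 + θ / (τ * th0 ^ 2) := ⟨_, rfl⟩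
  have hW0 : 0 < W := by rw [hW]; positivity
  obtain ⟨ε₁, hε₁⟩ : ∃ ε₁, ε₁ = min (min (ε / 200) (1 / 4)) (δ₀ / (2 * W)) := ⟨_, rfl⟩
  have hε₁0 : 0 < ε₁ := by
    rw [hε₁]
    apply lt_min
    · apply lt_min <;> linarith
    · positivity
  have hε₁1 : ε₁ ≤ ε / 200 := by rw [hε₁]; exact (min_le_left _ _).trans (min_le_left _ _)
  have hε₁2 : ε₁ ≤ 1 / 4 := by rw [hε₁]; exact (min_le_left _ _).trans (min_le_right _ _)
  have hε₁3 : ε₁ * W < δ₀ := by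
    have : ε₁ ≤ δ₀ / (2 * W) := by rw [hε₁]; exact min_le_right _ _
    calc ε₁ * W ≤ δ₀ / (2 * W) * W := mul_le_mul_of_nonneg_right this hW0.le
      _ = δ₀ / 2 := by field_simp
      _ < δ₀ := by linarith
  obtain ⟨ε₀, hε₀⟩ : ∃ ε₀, ε₀ = min (ε / 24) 1 := ⟨_, rfl⟩
  have hε₀0 : 0 < ε₀ := by rw [hε₀]; apply lt_min <;> linarith
  have hε₀1 : ε₀ ≤ 1 := by rw [hε₀]; exact min_le_right _ _
  have hε₀2 : ε₀ ≤ ε / 24 := by rw [hε₀]; exact min_le_left _ _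
  obtain ⟨k₀, s₀, hKl⟩ := K_law hε₁0 hC
  obtain ⟨G₀, hG₀⟩ : ∃ G₀ : ℕ, G₀ = ⌈2 / ε₀⌉₊ := ⟨_, rfl⟩
  obtain ⟨n, hn, hev⟩ := hpar ε₁ ε₀ hε₁0 hε₁2 hε₀0 hε₀1 G₀ (max k₀ s₀)
  have hH := HN_tendsto hθ
  have hHr : Tendsto (fun N : ℕ => (HN θ N : ℝ)) atTop atTop := tendsto_natCast_atTop_atTop.comp hH
  filter_upwards [hev, hHr.eventually_ge_atTop (2 / ε₀), eventually_ge_atTop 1] with N hN hHN hN1
  intro x
  obtain ⟨H, hHd⟩ : ∃ H, H = HN θ N := ⟨_, rfl⟩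
  rw [← hHd] at hN hHN ⊢
  rw [div_le_iff₀ hε₀0] at hHN
  have hN0 : (0 : ℝ) < N := by exact_mod_cast hN1
  have hHN1 : H ≤ N := by
    have h1 : (H : ℝ) ≤ (N : ℝ) ^ θ := by rw [hHd]; exact Nat.floor_le (by positivity)
    have h2 : (N : ℝ) ^ θ ≤ (N : ℝ) ^ (1 : ℝ) := Real.rpow_le_rpow_of_exponent_le (by exact_mod_cast hN1) hθ1.le
    rw [Real.rpow_one] at h2
    exact_mod_cast h1.trans h2
  have hH0 : (0 : ℝ) < H := by
    by_contra hcon
    push Not at hcon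
    have : (H : ℝ) * ε₀ ≤ 0 := mul_nonpos_of_nonpos_of_nonneg hcon hε₀0.le
    linarith
  obtain ⟨b, hb⟩ : ∃ b, b = ⌊ε₀ * H⌋₊ := ⟨_, rfl⟩
  have hb1 : (b : ℝ) ≤ ε₀ * H := by rw [hb]; exact Nat.floor_le (by positivity)
  have hb2 : ε₀ * H < b + 1 := by rw [hb]; exact Nat.lt_floor_add_one _
  have hb3 : ε₀ * H / 2 ≤ b := by linarith
  have hb0 : 1 ≤ b := by
    have : (1 : ℝ) ≤ b := by linarith
    exact_mod_cast this
  have hbr : (1 : ℝ) ≤ b := by exact_mod_cast hb0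
  have hbH : b ≤ H := by
    have : (b : ℝ) ≤ H := by
      calc (b : ℝ) ≤ ε₀ * H := hb1
        _ ≤ 1 * H := mul_le_mul_of_nonneg_right hε₀1 hH0.le
        _ = H := one_mul _
    exact_mod_cast this
  obtain ⟨s, hs⟩ : ∃ s, s = ⌊logb 2 (b : ℝ) / kn n⌋₊ := ⟨_, rfl⟩
  -- numbers of blocks
  obtain ⟨M, hM⟩ : ∃ M, M + 1 = N / b := by
    have : 1 ≤ N / b := (Nat.one_le_div_iff (by omega)).2 (by omega)
    exact ⟨N / b - 1, by omega⟩
  obtain ⟨G, hG⟩ : ∃ G, G + 1 = H / b := by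
    have : 1 ≤ H / b := (Nat.one_le_div_iff (by omega)).2 hbH
    exact ⟨H / b - 1, by omega⟩
  have hM1 : (M + 1) * b ≤ N := by rw [hM]; exact Nat.div_mul_le_self N b
  have hM2 : N < (M + 1) * b + b := by rw [hM]; exact Nat.lt_div_mul_add (by omega)
  have hG1 : (G + 1) * b ≤ H := by rw [hG]; exact Nat.div_mul_le_self H b
  have hG2 : H < (G + 1) * b + b := by rw [hG]; exact Nat.lt_div_mul_add (by omega)
  have hM1r : ((M : ℝ) + 1) * b ≤ N := by exact_mod_cast hM1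
  have hM2r : (N : ℝ) ≤ (M + 1) * b + b := by exact_mod_cast hM2.le
  have hG1r : ((G : ℝ) + 1) * b ≤ H := by exact_mod_cast hG1
  have hG2r : (H : ℝ) ≤ (G + 1) * b + b := by exact_mod_cast hG2.le
  obtain ⟨k, k', δ, R, k₁, htk, hPF, hk₁, hST, hGy, hK1, hK2, hsC, hrat⟩ := hN b s M hb hs (by
    have : (1 : ℝ) * b ≤ (M + 1) * b := mul_le_mul_of_nonneg_right (by have : (0 : ℝ) ≤ M := by positivity
                                                                       linarith) (by linarith)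
    linarith)
  have hKl' := hKl k ((le_max_left _ _).trans hK1) s ((le_max_right _ _).trans hK2) hsC
  have hGG : G + 1 ≤ G₀ := by
    have h1 : ((G : ℝ) + 1) * b ≤ 2 / ε₀ * b := by
      refine hG1r.trans ?_
      calc (H : ℝ) = 2 / ε₀ * (ε₀ * H / 2) := by field_simp
        _ ≤ 2 / ε₀ * b := mul_le_mul_of_nonneg_left hb3 (by positivity)
    have h2 : ((G : ℝ) + 1) ≤ 2 / ε₀ := le_of_mul_le_mul_right h1 (by linarith)
    have h3 : ((G : ℝ) + 1) ≤ G₀ := by rw [hG₀]; exact h2.trans (Nat.le_ceil _)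
    exact_mod_cast h3
  obtain ⟨E, hE⟩ : ∃ E, E = ex s (fun y => ex s (fun y' => ns k ((od s y' : ℤ) - od s y, 0))) := ⟨_, rfl⟩
  -- each family of blocks
  have hfam : ∀ g < G, |(∑ p ∈ range (M + 1), mn (x + (p : ℕ) * b) b (fun v => mn (x + ((g + 1 : ℕ) : ℤ) * b + (p : ℕ) * b) b
        (fun u => id1 (T^[k + s] v ≠ T^[k + s] u)))) / (M + 1) - E| ≤ 32 * ε₁ := by
    intro g hg
    have h1 := KL_fixed hPF hε₁0.le hk₁ hST (fun _ _ => 1) (fun _ _ => zero_le_one) (fun _ _ => le_rfl) x ((g + 1 : ℕ) : ℤ)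
      (by rw [abs_of_nonneg (by positivity)]; exact_mod_cast (by omega : g + 1 ≤ G₀))
    simp only [one_mul] at h1
    rw [← hE] at h1
    linarith
  obtain ⟨A, hA⟩ : ∃ A, A = 2 / π * arcsin √(θ / (τ * th0)) := ⟨_, rfl⟩
  have hA0 : 0 ≤ A := by rw [hA]; exact arc_nonneg (Real.sqrt_nonneg _)
  have hA1 : A ≤ 1 := by rw [hA]; exact arc_le_one _
  have hEA : |E - A| ≤ ε₁ + ε / 4 := by
    have h1 := kn_gt n
    have h2 : |(s : ℝ) / (s + k) - θ / (τ * th0)| < δ₀ := by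
      have h3 : |θ / (kn n * τ) - θ / (τ * th0)| ≤ ε₁ * (θ / (τ * th0 ^ 2)) := by
        have hkn : 0 < kn n := by linarith
        have e1 : θ / (kn n * τ) - θ / (τ * th0) = -((kn n - th0) * (θ / (τ * (kn n * th0)))) := by
          field_simp
          ring
        rw [e1, abs_neg, abs_of_nonneg (mul_nonneg (by linarith) (by positivity))]
        apply mul_le_mul (by linarith) _ (by positivity) hε₁0.le
        apply div_le_div_of_nonneg_left hθ.le (by positivity)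
        apply mul_le_mul_of_nonneg_left _ hτ.le
        rw [sq]
        exact mul_le_mul_of_nonneg_right h1.le hth0.le
      have := abs_sub_le ((s : ℝ) / (s + k)) (θ / (kn n * τ)) (θ / (τ * th0))
      have e2 : ε₁ * W = ε₁ + ε₁ * (θ / (τ * th0 ^ 2)) := by rw [hW]; ring
      linarith
    have h3 := hδc ((s : ℝ) / (s + k)) (by rw [Real.dist_eq]; exact h2)
    rw [Real.dist_eq] at h3
    have h4 := abs_sub_le E (2 / π * arcsin √((s : ℝ) / (s + k))) A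
    rw [hE] at h4 ⊢
    rw [hA] at h4 ⊢
    linarith
  have hblk := blk_two (N := N) (H := H) (b := b) (M := M) (G := G) x (F := fun v u => id1 (T^[k + s] v ≠ T^[k + s] u))
    (fun _ _ => id1_nonneg _) (fun _ _ => id1_le_one _) hM1 hG1
  have hB : |∑ g ∈ range G, ∑ p ∈ range (M + 1), ∑ i ∈ range b, ∑ j ∈ range b,
      id1 (T^[k + s] (x + (p : ℕ) * b + (i : ℕ)) ≠ T^[k + s] (x + ((g + 1 : ℕ) : ℤ) * b + (p : ℕ) * b + (j : ℕ))) -
      (G * (M + 1) * b ^ 2) * A| ≤ (G * (M + 1) * b ^ 2) * (33 * ε₁ + ε / 4) := by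
    have e1 : ((G : ℝ) * (M + 1) * b ^ 2) * A = ∑ g ∈ range G, (((M : ℝ) + 1) * b ^ 2) * A := by
      rw [sum_const, card_range, nsmul_eq_mul]; ring
    have e2 : ((G : ℝ) * (M + 1) * b ^ 2) * (33 * ε₁ + ε / 4) = ∑ g ∈ range G, (((M : ℝ) + 1) * b ^ 2) * (33 * ε₁ + ε / 4) := by
      rw [sum_const, card_range, nsmul_eq_mul]; ring
    rw [e1, e2, ← sum_sub_distrib]
    refine (abs_sum_le_sum_abs _ _).trans (sum_le_sum ?_)
    intro g hg
    rw [mem_range] at hg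
    have h1 := hfam g hg
    have e3 : ∑ p ∈ range (M + 1), ∑ i ∈ range b, ∑ j ∈ range b,
      id1 (T^[k + s] (x + (p : ℕ) * b + (i : ℕ)) ≠ T^[k + s] (x + ((g + 1 : ℕ) : ℤ) * b + (p : ℕ) * b + (j : ℕ))) =
      (((M : ℝ) + 1) * b ^ 2) * ((∑ p ∈ range (M + 1), mn (x + (p : ℕ) * b) b (fun v => mn (x + ((g + 1 : ℕ) : ℤ) * b + (p : ℕ) * b) b
        (fun u => id1 (T^[k + s] v ≠ T^[k + s] u)))) / (M + 1)) := by
      have hM0 : ((M : ℝ) + 1) ≠ 0 := by positivity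
      rw [mul_div_assoc', mul_comm ((M : ℝ) + 1), mul_assoc, mul_comm ((M : ℝ) + 1), ← mul_assoc, mul_div_assoc, div_self hM0,
        mul_one, mul_sum]
      apply sum_congr rfl
      intro p _
      have e4 : ∀ i : ℕ, ∑ j ∈ range b, id1 (T^[k + s] (x + (p : ℕ) * b + (i : ℕ)) ≠
          T^[k + s] (x + ((g + 1 : ℕ) : ℤ) * b + (p : ℕ) * b + (j : ℕ))) = b * mn (x + ((g + 1 : ℕ) : ℤ) * b + (p : ℕ) * b) b
        (fun u => id1 (T^[k + s] (x + (p : ℕ) * b + (i : ℕ)) ≠ T^[k + s] u)) := fun i =>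
        mn_sum (x + ((g + 1 : ℕ) : ℤ) * b + (p : ℕ) * b) hb0 (fun u => id1 (T^[k + s] (x + (p : ℕ) * b + (i : ℕ)) ≠ T^[k + s] u))
      rw [sum_congr rfl (fun i _ => e4 i), ← mul_sum]
      rw [mn_sum (x + (p : ℕ) * b) hb0 (fun v => mn (x + ((g + 1 : ℕ) : ℤ) * b + (p : ℕ) * b) b
        (fun u => id1 (T^[k + s] v ≠ T^[k + s] u)))]
      ring
    rw [e3, ← mul_sub, abs_mul, abs_of_nonneg (show (0 : ℝ) ≤ ((M : ℝ) + 1) * b ^ 2 by positivity)]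
    apply mul_le_mul_of_nonneg_left _ (by positivity)
    have := abs_sub_le ((∑ p ∈ range (M + 1), mn (x + (p : ℕ) * b) b (fun v => mn (x + ((g + 1 : ℕ) : ℤ) * b + (p : ℕ) * b) b
        (fun u => id1 (T^[k + s] v ≠ T^[k + s] u)))) / ((M : ℝ) + 1)) E A
    linarith
  -- the defect
  have hGb : (H : ℝ) - 2 * b ≤ G * b := by linarith
  have hMb : (N : ℝ) - b ≤ (M + 1) * b := by linarith
  have hbN : (b : ℝ) ≤ N := by
    have : b ≤ N := hbH.trans hHN1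
    exact_mod_cast this
  have hGb0 : (0 : ℝ) ≤ G * b := by positivity
  have hGbH : (G : ℝ) * b ≤ H := by linarith
  have hm1 : (G : ℝ) * (M + 1) * b ^ 2 ≤ N * H := by
    calc (G : ℝ) * (M + 1) * b ^ 2 = ((M + 1) * b) * (G * b) := by ring
      _ ≤ N * H := mul_le_mul hM1r hGbH hGb0 hN0.le
  have hm2 : (N : ℝ) * H - G * (M + 1) * b ^ 2 ≤ (3 * ε₀) * (N * H) := by
    have h1 : ((N : ℝ) - b) * (G * b) ≤ ((M + 1) * b) * (G * b) := mul_le_mul_of_nonneg_right hMb hGb0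
    have h2 : ((N : ℝ) - b) * (H - 2 * b) ≤ (N - b) * (G * b) := mul_le_mul_of_nonneg_left hGb (by linarith)
    have h3 : (b : ℝ) * N ≤ (ε₀ * H) * N := mul_le_mul_of_nonneg_right hb1 hN0.le
    have h4 : (b : ℝ) * H ≤ b * N := mul_le_mul_of_nonneg_left (by exact_mod_cast hHN1) (by linarith)
    have h5 : (0 : ℝ) ≤ b * b := by positivity
    have e1 : ((N : ℝ) - b) * (H - 2 * b) = N * H - b * H - 2 * (b * N) + 2 * (b * b) := by ring
    have e2 : (G : ℝ) * (M + 1) * b ^ 2 = ((M + 1) * b) * (G * b) := by ring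
    rw [e2]
    linarith
  have hfin := final_arith (S := ∑ i ∈ range N, ∑ h ∈ Icc 1 H, id1 (T^[k + s] (x + (i : ℕ)) ≠ T^[k + s] (x + (i : ℕ) + (h : ℕ))))
    (NH := (N : ℝ) * H) (m := G * (M + 1) * b ^ 2) (A := A) (e₁ := 33 * ε₁ + ε / 4) (e₂ := 3 * ε₀) hblk hB hA0 hA1
    (by linarith) hm2 hm1
  rw [htk, ← hA]
  refine hfin.trans ?_
  apply mul_le_mul_of_nonneg_right _ (by positivity)
  linarith

end Pool.Agent.J4H39
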