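import Mathlib
import Pool.Agent.J4H39.K14
import Pool.Agent.J4H39.M10
import Pool.Agent.J4H26.KT.W0

set_option autoImplicit false

/-! Merging with unequal exponents is rare in windows. -/

namespace Pool.Agent.J4H39

open Finset Filter Real

theorem id1_not' (P : Prop) : id1 (¬ P) = 1 - id1 P := by
  by_cases h : P
  · rw [id1_pos h, id1_neg (not_not.2 h)]; ring
  · rw [id1_neg h, id1_pos h]; ring

/-- the observable: merged -/
noncomputable def gm (_A : Fin 2 → ℤ) (p : Fin 2 → Fin 2 → Prop) : ℝ := id1 (p 0 1)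

theorem Wd_zero (k : ℕ) (o₀ D : ℕ) : Wd k gm (fun i => o₀ + (if i = (0 : Fin 2) then 0 else D)) = 1 - ns k ((D : ℤ), 0) := by
  have h1 := Wd_eq k gm o₀ (fun i => if i = (0 : Fin 2) then 0 else D)
  rw [h1]
  have h2 : ∀ z : ℤ, Gf (fun A p => gm (fun i => (o₀ : ℤ) + A i) p) (lb stK k (fun i : Fin 2 => (((if i = (0 : Fin 2) then 0 else D : ℕ) : ℤ), (0 : ℤ))) z) =
      1 - id1 (rn stP k ((D : ℤ), 0) z ≠ (0, 0)) := by
    intro z
    unfold Gf gm lb
    simp only [rn_stK_apply]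
    have e0 : rn stP k ((0 : ℤ), (0 : ℤ)) z = (0, 0) := rn_zero_of_le (Nat.zero_le k) rfl
    simp only [if_true, one_ne_zero, if_false, Nat.cast_zero]
    rw [e0, ← id1_not']
    apply id1_congr
    constructor
    · intro h hne; exact hne h.symm
    · intro h; by_contra hcon; exact h (fun e => hcon e.symm)
  rw [ex_congr h2]
  unfold ns
  rw [pb_id1]
  have h3 : ∀ y : ℤ, 1 - id1 (rn stP k ((D : ℤ), 0) y ≠ (0, 0)) = 1 + (-1) * id1 (rn stP k ((D : ℤ), 0) y ≠ (0, 0)) := fun y => by ring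
  rw [ex_congr h3, ex_add, ex_const, ex_mul]
  ring

theorem Wd_one (k : ℕ) (o₀ D : ℕ) : Wd k gm (fun i => o₀ + (if i = (1 : Fin 2) then 0 else D)) = 1 - ns k ((D : ℤ), 0) := by
  have h1 := Wd_eq k gm o₀ (fun i => if i = (1 : Fin 2) then 0 else D)
  rw [h1]
  have h2 : ∀ z : ℤ, Gf (fun A p => gm (fun i => (o₀ : ℤ) + A i) p) (lb stK k (fun i : Fin 2 => (((if i = (1 : Fin 2) then 0 else D : ℕ) : ℤ), (0 : ℤ))) z) =
      1 - id1 (rn stP k ((D : ℤ), 0) z ≠ (0, 0)) := by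
    intro z
    unfold Gf gm lb
    simp only [rn_stK_apply]
    have e0 : rn stP k ((0 : ℤ), (0 : ℤ)) z = (0, 0) := rn_zero_of_le (Nat.zero_le k) rfl
    simp only [if_true, zero_ne_one, if_false, Nat.cast_zero]
    rw [e0, ← id1_not']
    apply id1_congr
    constructor
    · intro h hne; exact hne h
    · intro h; by_contra hcon; exact h hcon
  rw [ex_congr h2]
  unfold ns
  rw [pb_id1]
  have h3 : ∀ y : ℤ, 1 - id1 (rn stP k ((D : ℤ), 0) y ≠ (0, 0)) = 1 + (-1) * id1 (rn stP k ((D : ℤ), 0) y ≠ (0, 0)) := fun y => by ring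
  rw [ex_congr h3, ex_add, ex_const, ex_mul]
  ring

theorem Wd_gm (k : ℕ) (o : Fin 2 → ℕ) : Wd k gm o = 1 - ns k ((o 1 : ℤ) - o 0, 0) := by
  rcases le_total (o 0) (o 1) with h | h
  · obtain ⟨D, hD⟩ := Nat.exists_eq_add_of_le h
    have e : o = fun i => o 0 + (if i = (0 : Fin 2) then 0 else D) := by
      funext i
      fin_cases i
      · simp
      · simp [hD]
    have h2 := Wd_zero k (o 0) D
    rw [← e] at h2
    rw [h2]
    congr 3
    omega
  · obtain ⟨D, hD⟩ := Nat.exists_eq_add_of_le h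
    have e : o = fun i => o 1 + (if i = (1 : Fin 2) then 0 else D) := by
      funext i
      fin_cases i
      · simp [hD]
      · simp
    have h2 := Wd_one k (o 1) D
    rw [← e] at h2
    rw [h2]
    have e1 : ((o 1 : ℤ) - o 0, (0 : ℤ)) = (-(D : ℤ), 0) := by
      congr 1; omega
    have e2 : ns k (-(D : ℤ), 0) = ns k ((D : ℤ), 0) := by
      have := ns_sw_nat k D 0
      rwa [neg_zero] at this
    rw [e1, e2]

theorem exK_gm (s k : ℕ) : exK s 2 (fun y => Wd k gm (fun i => od s (y i))) =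
    1 - ex s (fun y => ex s (fun y' => ns k ((od s y' : ℤ) - od s y, 0))) := by
  simp only [exK, Wd_gm]
  simp only [Fin.cons_zero, Fin.cons_one]
  have h1 : ∀ y : ℤ, ex s (fun y' => 1 - ns k ((od s y' : ℤ) - od s y, 0)) = 1 + (-1) * ex s (fun y' => ns k ((od s y' : ℤ) - od s y, 0)) := by
    intro y
    have h3 : ∀ y' : ℤ, 1 - ns k ((od s y' : ℤ) - od s y, 0) = 1 + (-1) * ns k ((od s y' : ℤ) - od s y, 0) := fun y' => by ring
    rw [ex_congr h3, ex_add, ex_const, ex_mul]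
  rw [ex_congr h1, ex_add, ex_const, ex_mul]
  ring

theorem t_UNEQ : J4H26.KT.S_UNEQ := by
  intro θ τ hθ hθ1 hτθ hτ1 ε hε
  have hth0 := th0_pos
  have hτ : 0 < τ := by
    by_contra hcon
    push Not at hcon
    have : τ * th0 ≤ 0 := mul_nonpos_of_nonpos_of_nonneg hcon hth0.le
    linarith
  obtain ⟨ρ, hρ⟩ : ∃ ρ, ρ = θ / (τ * th0) := ⟨_, rfl⟩
  have hρ0 : 0 < ρ := by rw [hρ]; positivity
  have hρ1 : ρ < 1 := by rw [hρ, div_lt_one (by positivity)]; exact hτθ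
  obtain ⟨A, hA⟩ : ∃ A, A = 2 / π * arcsin √ρ := ⟨_, rfl⟩
  -- continuity
  have hcont : Continuous (fun r : ℝ => 2 / π * arcsin √r) :=
    continuous_const.mul (continuous_arcsin.comp continuous_sqrt)
  obtain ⟨δ₀, hδ₀, hδc⟩ := Metric.continuous_iff.1 hcont ρ (ε / 4) (by positivity)
  obtain ⟨ε₁, hε₁⟩ : ∃ ε₁, ε₁ = min (min (ε / 4) (δ₀ / 2)) ((1 - ρ) / 2) := ⟨_, rfl⟩
  have hε₁0 : 0 < ε₁ := by
    rw [hε₁]
    apply lt_min
    · apply lt_min <;> positivity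
    · linarith
  have hε₁1 : ε₁ ≤ ε / 4 := by rw [hε₁]; exact (min_le_left _ _).trans (min_le_left _ _)
  have hε₁2 : ε₁ ≤ δ₀ / 2 := by rw [hε₁]; exact (min_le_left _ _).trans (min_le_right _ _)
  have hε₁3 : ε₁ ≤ (1 - ρ) / 2 := by rw [hε₁]; exact min_le_right _ _
  obtain ⟨C, hC⟩ : ∃ C, C = 2 / (1 - ρ) := ⟨_, rfl⟩
  have hC0 : 0 < C := by rw [hC]; apply div_pos (by norm_num); linarith
  obtain ⟨k₀, s₀, hKl⟩ := K_law (show 0 < ε / 4 by positivity) hC0
  have hHr : Tendsto (fun N : ℕ => (HN θ N : ℝ)) atTop atTop := tendsto_natCast_atTop_atTop.comp (HN_tendsto hθ)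
  filter_upwards [full_law hθ hθ1 hτθ hτ1 (show 0 < ε / 4 by positivity),
    WIN_all 1 θ τ hθ hθ1 hτθ hτ1 ε₁ hε₁0 (max (max k₀ s₀) 1), eventually_ge_atTop 1, hHr.eventually_ge_atTop 1] with N h1 h2 hN1 hH1
  intro x
  obtain ⟨s, k, ht, hs0, hk0, hrat, hwin⟩ := h2
  have h3 := h1 x
  have h4 := hwin x gm (fun _ _ => id1_nonneg _) (fun _ _ => id1_le_one _)
  rw [exK_gm] at h4
  rw [← hρ] at h3 hrat
  rw [← hA] at h3
  have hN0 : (0 : ℝ) < N := by exact_mod_cast hN1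
  have hH0 : (0 : ℝ) < HN θ N := by linarith
  have hsk : (s : ℝ) ≤ C * k := by
    have h5 := (abs_le.1 hrat).2
    have hk1 : 1 ≤ k := (le_max_right _ _).trans hk0
    have hk1r : (1 : ℝ) ≤ k := by exact_mod_cast hk1
    have hs0' : (0 : ℝ) ≤ s := by positivity
    have h6 : (s : ℝ) / (s + k) ≤ (1 + ρ) / 2 := by linarith
    rw [div_le_iff₀ (by linarith)] at h6
    have h1ρ : 0 < 1 - ρ := by linarith
    rw [hC, div_mul_eq_mul_div, le_div_iff₀ h1ρ]
    nlinarith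
  have h5 := hKl k (((le_max_left _ _).trans (le_max_left _ _)).trans hk0) s (((le_max_right _ _).trans (le_max_left _ _)).trans hs0) hsk
  have h6 : |2 / π * arcsin √((s : ℝ) / (s + k)) - A| < ε / 4 := by
    have := hδc ((s : ℝ) / (s + k)) (by
      rw [Real.dist_eq]
      refine lt_of_le_of_lt hrat ?_
      linarith)
    rw [Real.dist_eq] at this
    rw [hA]
    exact this
  -- the window mean of the pairs
  obtain ⟨t, htd⟩ : ∃ t, t = tN τ N := ⟨_, rfl⟩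
  obtain ⟨H, hHd⟩ : ∃ H, H = HN θ N := ⟨_, rfl⟩
  rw [← htd] at h3 ht ⊢
  rw [← ht] at h4
  rw [← hHd] at h3 h4 hH0 ⊢
  have m1 : mn x N (fun n => mn (n + 1) H (fun u => id1 (T^[t] n ≠ T^[t] u))) =
      (∑ i ∈ range N, ∑ h ∈ Icc 1 H, id1 (T^[t] (x + (i : ℕ)) ≠ T^[t] (x + (i : ℕ) + (h : ℕ)))) / (N * H) := by
    unfold mn
    rw [← sum_div, div_div, mul_comm (H : ℝ)]
    congr 1
    apply sum_congr rfl
    intro i _
    have e1 := sum_Ico_eq_sum_range (fun h : ℕ => id1 (T^[t] (x + (i : ℕ)) ≠ T^[t] (x + (i : ℕ) + (h : ℕ)))) 1 (H + 1)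
    have e2 : Icc 1 H = Ico 1 (H + 1) := by
      ext a
      rw [mem_Icc, mem_Ico]
      omega
    rw [e2, e1, Nat.add_sub_cancel]
    apply sum_congr rfl
    intro v _
    have e3 : x + (i : ℕ) + 1 + (v : ℕ) = x + (i : ℕ) + ((1 + v : ℕ) : ℤ) := by push_cast; ring
    rw [e3]
  have m2 : |mn x N (fun n => mn (n + 1) H (fun u => id1 (T^[t] n ≠ T^[t] u))) - A| ≤ ε / 4 := by
    rw [m1]
    have e1 : (∑ i ∈ range N, ∑ h ∈ Icc 1 H, id1 (T^[t] (x + (i : ℕ)) ≠ T^[t] (x + (i : ℕ) + (h : ℕ)))) / ((N : ℝ) * H) - A =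
        ((∑ i ∈ range N, ∑ h ∈ Icc 1 H, id1 (T^[t] (x + (i : ℕ)) ≠ T^[t] (x + (i : ℕ) + (h : ℕ)))) - N * H * A) / (N * H) := by
      field_simp
    rw [e1, abs_div, abs_of_pos (show (0 : ℝ) < N * H by positivity), div_le_iff₀ (by positivity)]
    exact h3
  have m3 : ∀ n : ℤ, mnK 1 (fun _ => n + 1) (fun _ => H) (fun u => ob t gm (fun _ => 0) (Fin.cons n u)) =
      mn (n + 1) H (fun u => id1 ((od t n : ℤ) = od t u ∧ T^[t] n = T^[t] u)) := by
    intro n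
    simp only [mnK]
    apply mn_congr
    intro z
    unfold ob gm
    simp only [Fin.cons_zero, Fin.cons_one, zero_add]
  have m4 : mn x N (fun n => mn (n + 1) H (fun u => id1 (T^[t] n = T^[t] u ∧ ¬ ((od t n : ℤ) = od t u)))) =
      1 - mn x N (fun n => mn (n + 1) H (fun u => id1 (T^[t] n ≠ T^[t] u))) -
      mn x N (fun n => mn (n + 1) H (fun u => id1 ((od t n : ℤ) = od t u ∧ T^[t] n = T^[t] u))) := by
    have hH1' : 1 ≤ H := by exact_mod_cast hH0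
    have e1 : ∀ n u : ℤ, id1 (T^[t] n = T^[t] u ∧ ¬ ((od t n : ℤ) = od t u)) =
        1 + ((-1) * id1 (T^[t] n ≠ T^[t] u) + (-1) * id1 ((od t n : ℤ) = od t u ∧ T^[t] n = T^[t] u)) := by
      intro n u
      by_cases a : T^[t] n = T^[t] u
      · by_cases b : (od t n : ℤ) = od t u
        · rw [id1_neg (by tauto : ¬ (T^[t] n = T^[t] u ∧ ¬ ((od t n : ℤ) = od t u))), id1_neg (not_not.2 a), id1_pos ⟨b, a⟩]; ring
        · rw [id1_pos ⟨a, b⟩, id1_neg (not_not.2 a), id1_neg (by tauto : ¬ ((od t n : ℤ) = od t u ∧ T^[t] n = T^[t] u))]; ring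
      · rw [id1_neg (by tauto : ¬ (T^[t] n = T^[t] u ∧ ¬ ((od t n : ℤ) = od t u))), id1_pos (show T^[t] n ≠ T^[t] u from a),
          id1_neg (by tauto : ¬ ((od t n : ℤ) = od t u ∧ T^[t] n = T^[t] u))]; ring
    simp only [e1]
    have e2 : ∀ n : ℤ, mn (n + 1) H (fun u => 1 + ((-1) * id1 (T^[t] n ≠ T^[t] u) + (-1) * id1 ((od t n : ℤ) = od t u ∧ T^[t] n = T^[t] u))) =
        1 + ((-1) * mn (n + 1) H (fun u => id1 (T^[t] n ≠ T^[t] u)) + (-1) * mn (n + 1) H (fun u => id1 ((od t n : ℤ) = od t u ∧ T^[t] n = T^[t] u))) := by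
      intro n
      rw [mn_add_fn, mn_add_fn, mn_const hH1', mn_mul, mn_mul]
    simp only [e2]
    rw [mn_add_fn, mn_add_fn, mn_const hN1, mn_mul, mn_mul]
    ring
  rw [m4]
  simp only [m3] at h4
  rw [abs_le] at h4 h5 m2
  rw [abs_lt] at h6
  linarith [h4.1, h5.2, h6.2, m2.1, h5.1, h6.1, m2.2]

end Pool.Agent.J4H39
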