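import Mathlib
import Pool.Agent.J4H39.Z4

set_option autoImplicit false

/-! Merging with unequal exponents is rare in windows: all pairs. -/

namespace Pool.Agent.J4H39

open Finset Filter Real

theorem mnK_const {K : ℕ} : ∀ (a : Fin K → ℤ) (b : Fin K → ℕ) (c : ℝ), (∀ i, 1 ≤ b i) → mnK K a b (fun _ => c) = c := by
  induction K with
  | zero => intro a b c _; rfl
  | succ K ih =>
    intro a b c hb
    simp only [mnK]
    have h : ∀ z : ℤ, mnK K (fun i => a i.succ) (fun i => b i.succ) (fun _ => c) = c := fun z => ih _ _ c fun i => hb _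
    rw [mn_congr h, mn_const (hb 0)]

theorem mnK_one {K : ℕ} : ∀ (a : Fin K → ℤ) (b : Fin K → ℕ) (f : ℤ → ℝ), (∀ i, 1 ≤ b i) → ∀ i, mnK K a b (fun v => f (v i)) = mn (a i) (b i) f := by
  induction K with
  | zero => intro a b f _ i; exact i.elim0
  | succ K ih =>
    intro a b f hb i
    simp only [mnK]
    refine Fin.cases ?_ ?_ i
    · simp only [Fin.cons_zero]
      exact mn_congr fun z => mnK_const _ _ _ fun i => hb _
    · intro j
      simp only [Fin.cons_succ]
      rw [mn_congr fun z => ih (fun i => a i.succ) (fun i => b i.succ) f (fun i => hb _) j, mn_const (hb 0)]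

theorem mnK_two {K : ℕ} : ∀ (a : Fin K → ℤ) (b : Fin K → ℕ) (φ : ℤ → ℤ → ℝ), (∀ i, 1 ≤ b i) → ∀ i j, i ≠ j →
    mnK K a b (fun v => φ (v i) (v j)) = mn (a i) (b i) (fun u => mn (a j) (b j) (φ u)) := by
  induction K with
  | zero => intro a b f _ i; exact i.elim0
  | succ K ih =>
    intro a b φ hb i j
    simp only [mnK]
    refine Fin.cases ?_ ?_ i
    · refine Fin.cases ?_ ?_ j
      · intro h; exact absurd rfl h
      · intro j' _
        simp only [Fin.cons_zero, Fin.cons_succ]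
        exact mn_congr fun z => mnK_one (fun i => a i.succ) (fun i => b i.succ) (φ z) (fun i => hb _) j'
    · intro i'
      refine Fin.cases ?_ ?_ j
      · intro _
        simp only [Fin.cons_zero, Fin.cons_succ]
        rw [mn_congr fun z => mnK_one (fun i => a i.succ) (fun i => b i.succ) (fun w => φ w z) (fun i => hb _) i', mn_comm]
      · intro j' hij
        simp only [Fin.cons_succ]
        rw [mn_congr fun z => ih (fun i => a i.succ) (fun i => b i.succ) φ (fun i => hb _) i' j' (fun e => hij (by rw [e])),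
          mn_const (hb 0)]

theorem mn_mono {a : ℤ} {b : ℕ} {f g : ℤ → ℝ} (h : ∀ z, f z ≤ g z) : mn a b f ≤ mn a b g := by
  unfold mn
  exact div_le_div_of_nonneg_right (sum_le_sum fun _ _ => h _) (by positivity)

/-- two points of the window `[a, a + H)` -/
theorem two_le {H : ℕ} (a : ℤ) {φ : ℤ → ℤ → ℝ} (h0 : ∀ u w, 0 ≤ φ u w) (hs : ∀ u w, φ u w = φ w u) (hd : ∀ u, φ u u = 0) :
    mn a H (fun u => mn a H (φ u)) ≤ 2 * mn a H (fun u => mn (u + 1) H (φ u)) := by
  unfold mn
  rw [← mul_div_assoc, ← sum_div, ← sum_div, mul_div_assoc']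
  apply div_le_div_of_nonneg_right _ (by positivity)
  apply div_le_div_of_nonneg_right _ (by positivity)
  have h1 : ∑ v ∈ range H, ∑ w ∈ range H, φ (a + (v : ℕ)) (a + (w : ℕ)) =
      ∑ v ∈ range H, ∑ w ∈ range H, ((if v < w then φ (a + (v : ℕ)) (a + (w : ℕ)) else 0) +
        (if w < v then φ (a + (w : ℕ)) (a + (v : ℕ)) else 0)) := by
    apply sum_congr rfl
    intro v _
    apply sum_congr rfl
    intro w _
    rcases lt_trichotomy v w with h | h | h
    · rw [if_pos h, if_neg (by omega), add_zero]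
    · subst h
      rw [if_neg (lt_irrefl _), hd, add_zero]
    · rw [if_neg (by omega), if_pos h, zero_add, hs]
  have h2 : ∑ v ∈ range H, ∑ w ∈ range H, (if w < v then φ (a + (w : ℕ)) (a + (v : ℕ)) else 0) =
      ∑ v ∈ range H, ∑ w ∈ range H, (if v < w then φ (a + (v : ℕ)) (a + (w : ℕ)) else 0) := sum_comm
  rw [h1]
  simp only [sum_add_distrib]
  rw [h2, ← two_mul]
  apply mul_le_mul_of_nonneg_left _ (by norm_num)
  apply sum_le_sum
  intro v hv
  rw [mem_range] at hv
  rw [← sum_filter]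
  have h3 : ∑ w ∈ (range H).filter (fun w => v < w), φ (a + (v : ℕ)) (a + (w : ℕ)) =
      ∑ d ∈ range (H - v - 1), φ (a + (v : ℕ)) (a + (v : ℕ) + 1 + (d : ℕ)) := by
    symm
    apply sum_bij (fun (d : ℕ) _ => v + 1 + d)
    · intro d hd
      rw [mem_range] at hd
      rw [mem_filter, mem_range]
      omega
    · intro d _ d' _ h; omega
    · intro w hw
      rw [mem_filter, mem_range] at hw
      exact ⟨w - v - 1, by rw [mem_range]; omega, by omega⟩
    · intro d _
      congr 1
      push_cast; ring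
  rw [h3]
  apply sum_le_sum_of_subset_of_nonneg
  · apply range_mono; omega
  · intro _ _ _; exact h0 _ _

theorem mn_shift_le {N H : ℕ} (hH : 1 ≤ H) (x : ℤ) {Ψ : ℤ → ℝ} {e : ℝ} (h : ∀ x' : ℤ, mn x' N Ψ ≤ e) :
    mn x N (fun n => mn (n + 1) H Ψ) ≤ e := by
  have hH0 : (0 : ℝ) < H := by exact_mod_cast hH
  have e1 : mn x N (fun n => mn (n + 1) H Ψ) = (∑ v ∈ range H, mn (x + 1 + (v : ℕ)) N Ψ) / H := by
    unfold mn
    rw [← sum_div, ← sum_div, sum_comm, div_div, div_div, mul_comm]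
    congr 1
    apply sum_congr rfl
    intro v _
    apply sum_congr rfl
    intro i _
    congr 1
    ring
  rw [e1, div_le_iff₀ hH0]
  refine (sum_le_sum fun v _ => h _).trans (le_of_eq ?_)
  rw [sum_const, card_range, nsmul_eq_mul]; ring

/-- all pairs of the points `n`, `n + h i` -/
theorem t_UNEQK (K : ℕ) {θ τ : ℝ} (hθ : 0 < θ) (hθ1 : θ < 1) (hτθ : θ < τ * th0) (hτ1 : τ * th0 < 1) {ε : ℝ} (hε : 0 < ε) :
    ∀ᶠ N : ℕ in atTop, ∀ x : ℤ, ∀ i j : Fin (K + 1), i ≠ j →
      mn x N (fun n => mnK K (fun _ => n + 1) (fun _ => HN θ N) (fun u => id1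
        (T^[tN τ N] ((Fin.cons n u : Fin (K + 1) → ℤ) i) = T^[tN τ N] ((Fin.cons n u : Fin (K + 1) → ℤ) j) ∧
        ¬ ((od (tN τ N) ((Fin.cons n u : Fin (K + 1) → ℤ) i) : ℤ) = od (tN τ N) ((Fin.cons n u : Fin (K + 1) → ℤ) j))))) ≤ ε := by
  have hHr : Tendsto (fun N : ℕ => (HN θ N : ℝ)) atTop atTop := tendsto_natCast_atTop_atTop.comp (HN_tendsto hθ)
  filter_upwards [t_UNEQ θ τ hθ hθ1 hτθ hτ1 (ε / 2) (by positivity), hHr.eventually_ge_atTop 1] with N h hH
  have hH1 : 1 ≤ HN θ N := by exact_mod_cast hH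
  intro x
  obtain ⟨φ, hφ⟩ : ∃ φ : ℤ → ℤ → ℝ, φ = fun n u => id1 (T^[tN τ N] n = T^[tN τ N] u ∧ ¬ ((od (tN τ N) n : ℤ) = od (tN τ N) u)) := ⟨_, rfl⟩
  have hφ0 : ∀ u w, 0 ≤ φ u w := fun u w => by rw [hφ]; exact id1_nonneg _
  have hφs : ∀ u w, φ u w = φ w u := fun u w => by
    rw [hφ]
    apply id1_congr
    constructor
    · rintro ⟨a, b⟩; exact ⟨a.symm, fun e => b e.symm⟩
    · rintro ⟨a, b⟩; exact ⟨a.symm, fun e => b e.symm⟩
  have hφd : ∀ u, φ u u = 0 := fun u => by
    rw [hφ]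
    exact id1_neg (fun h => h.2 rfl)
  have h' : ∀ x' : ℤ, mn x' N (fun n => mn (n + 1) (HN θ N) (φ n)) ≤ ε / 2 := by
    rw [hφ]; exact h
  have key : ∀ i j : Fin (K + 1), i ≠ j →
      mn x N (fun n => mnK K (fun _ => n + 1) (fun _ => HN θ N) (fun u => φ ((Fin.cons n u : Fin (K + 1) → ℤ) i)
        ((Fin.cons n u : Fin (K + 1) → ℤ) j))) ≤ ε := by
    intro i j
    refine Fin.cases ?_ ?_ i
    · refine Fin.cases ?_ ?_ j
      · intro h; exact absurd rfl h
      · intro j' _
        simp only [Fin.cons_zero, Fin.cons_succ]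
        have e1 : ∀ n : ℤ, mnK K (fun _ => n + 1) (fun _ => HN θ N) (fun u => φ n (u j')) = mn (n + 1) (HN θ N) (φ n) :=
          fun n => mnK_one _ _ (φ n) (fun _ => hH1) j'
        rw [mn_congr e1]
        linarith [h' x]
    · intro i'
      refine Fin.cases ?_ ?_ j
      · intro _
        simp only [Fin.cons_zero, Fin.cons_succ]
        have e1 : ∀ n : ℤ, mnK K (fun _ => n + 1) (fun _ => HN θ N) (fun u => φ (u i') n) = mn (n + 1) (HN θ N) (φ n) := by
          intro n
          rw [mnK_one _ _ (fun w => φ w n) (fun _ => hH1) i']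
          exact mn_congr fun z => hφs _ _
        rw [mn_congr e1]
        linarith [h' x]
      · intro j' hij
        simp only [Fin.cons_succ]
        have e1 : ∀ n : ℤ, mnK K (fun _ => n + 1) (fun _ => HN θ N) (fun u => φ (u i') (u j')) ≤
            2 * mn (n + 1) (HN θ N) (fun u => mn (u + 1) (HN θ N) (φ u)) := by
          intro n
          rw [mnK_two _ _ φ (fun _ => hH1) i' j' (fun e => hij (by rw [e]))]
          exact two_le (n + 1) hφ0 hφs hφd
        refine (mn_mono e1).trans ?_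
        rw [mn_mul]
        have := mn_shift_le hH1 x h'
        linarith
  intro i j hij
  have := key i j hij
  rw [hφ] at this
  exact this

end Pool.Agent.J4H39
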