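import Mathlib
import Pool.Agent.J4H39.Z5
import Pool.Agent.J4H39.Z3

set_option autoImplicit false

/-! Before the threshold: independence, no mergings. -/

namespace Pool.Agent.J4H39

open Finset Filter Real

theorem mn_aff {a : ℤ} {b : ℕ} (hb : 1 ≤ b) (c e : ℝ) (f : ℤ → ℝ) : mn a b (fun z => c * f z + e) = c * mn a b f + e := by
  rw [mn_add_fn, mn_const hb, mn_mul]

/-- the law of the exponent on every interval of length `2 ^ (kn n * t)` -/
theorem one_law (n : ℕ) {ε : ℝ} (hε : 0 < ε) : ∃ t₀ : ℕ, ∀ t : ℕ, t₀ ≤ t → ∀ φ : ℕ → ℝ, (∀ o, |φ o| ≤ 1) → ∀ (a : ℤ) (b : ℕ),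
    (2 : ℝ) ^ (kn n * t) ≤ b → |mn a b (fun z => φ (od t z)) - ex t (fun y => φ (od t y))| ≤ ε := by
  obtain ⟨t₀, ht₀⟩ := ST_all n (ε / 4) (by positivity)
  refine ⟨t₀, fun t ht φ hφ a b hb => ?_⟩
  have hb1 : 1 ≤ b := by
    have h1 : (0 : ℝ) < (2 : ℝ) ^ (kn n * t) := by positivity
    have : (0 : ℝ) < b := lt_of_lt_of_le h1 hb
    exact_mod_cast this
  -- the case of values in the unit interval
  have key : ∀ ψ : ℕ → ℝ, (∀ o, 0 ≤ ψ o) → (∀ o, ψ o ≤ 1) →
      |mn a b (fun z => ψ (od t z)) - ex t (fun y => ψ (od t y))| ≤ ε / 2 := by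
    intro ψ h0 h1
    have a1 := ht₀ t ht (fun o _ => ψ o) (fun _ _ _ _ => rfl) (fun o _ => h0 o) (fun o _ => h1 o) 0 a b hb
    have a2 := ht₀ t ht (fun _ _ => 1) (fun _ _ _ _ => rfl) (fun _ _ => zero_le_one) (fun _ _ => le_rfl) 0 a b hb
    have e1 : mn a b (bk t (fun o _ => ψ o) 0) = mn a b (fun z => ψ (od t z)) := by
      apply mn_congr; intro z; unfold bk; rw [zero_add]
    have e2 : mn a b (bk t (fun _ _ => (1 : ℝ)) 0) = 1 := by
      have : mn a b (bk t (fun _ _ => (1 : ℝ)) 0) = mn a b (fun _ => 1) := mn_congr fun z => rfl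
      rw [this, mn_const hb1]
    rw [e1] at a1
    rw [e2] at a2
    have a3 : ∀ y : ℤ, |mn (Jn n t y (a, b)).1 (Jn n t y (a, b)).2 (fun _ => ψ (0 + od t y)) - ψ (od t y)| ≤
        1 - mn (Jn n t y (a, b)).1 (Jn n t y (a, b)).2 (fun _ => 1) := by
      intro y
      rw [zero_add]
      rcases Nat.eq_zero_or_pos (Jn n t y (a, b)).2 with h | h
      · rw [h]
        unfold mn
        simp only [range_zero, sum_empty, Nat.cast_zero, div_zero, zero_sub, abs_neg, sub_zero]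
        rw [abs_of_nonneg (h0 _)]
        exact h1 _
      · rw [mn_const h, mn_const h, sub_self, sub_self, abs_zero]
    have a4 := ex_abs (s := t) a3
    have e3 : ex t (fun y => 1 - mn (Jn n t y (a, b)).1 (Jn n t y (a, b)).2 (fun _ => 1)) =
        1 - ex t (fun y => mn (Jn n t y (a, b)).1 (Jn n t y (a, b)).2 (fun _ => 1)) := by
      have h3 : ∀ y : ℤ, 1 - mn (Jn n t y (a, b)).1 (Jn n t y (a, b)).2 (fun _ => (1 : ℝ)) =
        1 + (-1) * mn (Jn n t y (a, b)).1 (Jn n t y (a, b)).2 (fun _ => 1) := fun y => by ring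
      rw [ex_congr h3, ex_add, ex_const, ex_mul]
      ring
    rw [e3] at a4
    rw [abs_le] at a1 a2 a4 ⊢
    constructor <;> linarith [a1.1, a1.2, a2.1, a2.2, a4.1, a4.2]
  have h1 := key (fun o => (1 / 2) * φ o + 1 / 2) (fun o => by have := (abs_le.1 (hφ o)).1; linarith)
    (fun o => by have := (abs_le.1 (hφ o)).2; linarith)
  have e1 : mn a b (fun z => (1 / 2) * φ (od t z) + 1 / 2) = (1 / 2) * mn a b (fun z => φ (od t z)) + 1 / 2 :=
    mn_aff hb1 (1 / 2) (1 / 2) (fun z => φ (od t z))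
  have e2 : ex t (fun y => (1 / 2) * φ (od t y) + 1 / 2) = (1 / 2) * ex t (fun y => φ (od t y)) + 1 / 2 := by
    rw [ex_add, ex_mul, ex_const]
  rw [e1, e2] at h1
  have e3 : (1 / 2) * mn a b (fun z => φ (od t z)) + 1 / 2 - ((1 / 2) * ex t (fun y => φ (od t y)) + 1 / 2) =
      (1 / 2) * (mn a b (fun z => φ (od t z)) - ex t (fun y => φ (od t y))) := by ring
  rw [e3, abs_mul, abs_of_pos (by norm_num : (0 : ℝ) < 1 / 2)] at h1
  linarith

theorem exK_abs_one {K s : ℕ} (F : (Fin K → ℤ) → ℝ) (h : ∀ v, |F v| ≤ 1) : |exK s K F| ≤ 1 := by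
  have h1 := exK_close (s := s) F (fun _ => 0) 1 (fun _ _ => 0) (by intro v; simpa using h v)
  have h2 : exK s K (fun _ => (0 : ℝ)) = 0 := by
    have h3 : ∀ K, exK s K (fun _ => (0 : ℝ)) = 0 := by
      intro K
      induction K with
      | zero => rfl
      | succ K ih => simp only [exK, ih]; exact ex_const s 0
    exact h3 K
  rw [h2, sub_zero] at h1
  have h3 : ex s (fun _ => (0 : ℝ)) = 0 := ex_const s 0
  simp only [h3, sum_const_zero, zero_add] at h1
  exact h1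

/-- independence of the exponents of the points of long boxes -/
theorem box_law {t : ℕ} {B ε : ℝ} (hε : 0 ≤ ε) (hone : ∀ φ : ℕ → ℝ, (∀ o, |φ o| ≤ 1) → ∀ (a : ℤ) (b : ℕ), B ≤ b →
    |mn a b (fun z => φ (od t z)) - ex t (fun y => φ (od t y))| ≤ ε) : ∀ (K : ℕ) (a : Fin K → ℤ) (b : Fin K → ℕ),
    (∀ i, B ≤ b i) → ∀ Ψ : (Fin K → ℕ) → ℝ, (∀ o, |Ψ o| ≤ 1) →
    |mnK K a b (fun v => Ψ (fun i => od t (v i))) - exK t K (fun y => Ψ (fun i => od t (y i)))| ≤ K * ε := by
  intro K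
  induction K with
  | zero =>
    intro a b _ Ψ _
    simp only [mnK, exK, Nat.cast_zero, zero_mul]
    have e : (fun i : Fin 0 => od t (i.elim0 : ℤ)) = fun i => od t (i.elim0 : ℤ) := rfl
    rw [sub_self, abs_zero]
  | succ K ih =>
    intro a b hb Ψ hΨ
    simp only [mnK, exK]
    have e1 : ∀ (z : ℤ) (v : Fin K → ℤ), (fun i => od t ((Fin.cons z v : Fin (K + 1) → ℤ) i)) =
        Fin.cons (od t z) (fun i => od t (v i)) := by
      intro z v
      funext i
      refine Fin.cases ?_ ?_ i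
      · simp
      · intro j; simp
    simp only [e1]
    have s1 : ∀ z : ℤ, |mnK K (fun i => a i.succ) (fun i => b i.succ) (fun v => Ψ (Fin.cons (od t z) (fun i => od t (v i)))) -
        exK t K (fun y => Ψ (Fin.cons (od t z) (fun i => od t (y i))))| ≤ K * ε := fun z =>
      ih (fun i => a i.succ) (fun i => b i.succ) (fun i => hb _) (fun o => Ψ (Fin.cons (od t z) o)) (fun _ => hΨ _)
    have s2 := mn_abs (a := a 0) (b := b 0) (by positivity) s1
    have s3 := hone (fun o => exK t K (fun y => Ψ (Fin.cons o (fun i => od t (y i)))))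
      (fun o => exK_abs_one _ fun v => hΨ _) (a 0) (b 0) (hb 0)
    have := abs_sub_le (mn (a 0) (b 0) (fun z => mnK K (fun i => a i.succ) (fun i => b i.succ) (fun v => Ψ (Fin.cons (od t z) (fun i => od t (v i))))))
      (mn (a 0) (b 0) (fun z => exK t K (fun y => Ψ (Fin.cons (od t z) (fun i => od t (y i))))))
      (ex t (fun z => exK t K (fun y => Ψ (Fin.cons (od t z) (fun i => od t (y i))))))
    push_cast
    linarith

/-- independence of the exponents in a window -/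
theorem win_law {t : ℕ} {B ε : ℝ} (hε : 0 ≤ ε) (hone : ∀ φ : ℕ → ℝ, (∀ o, |φ o| ≤ 1) → ∀ (a : ℤ) (b : ℕ), B ≤ b →
    |mn a b (fun z => φ (od t z)) - ex t (fun y => φ (od t y))| ≤ ε) (K : ℕ) (x : ℤ) {N H : ℕ} (hN : B ≤ N) (hH : B ≤ H)
    (Ψ : (Fin (K + 1) → ℕ) → ℝ) (hΨ : ∀ o, |Ψ o| ≤ 1) :
    |mn x N (fun n => mnK K (fun _ => n + 1) (fun _ => H) (fun u => Ψ (fun i => od t ((Fin.cons n u : Fin (K + 1) → ℤ) i)))) -
      exK t (K + 1) (fun y => Ψ (fun i => od t (y i)))| ≤ (K + 1) * ε := by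
  have e1 : ∀ (z : ℤ) (v : Fin K → ℤ), (fun i => od t ((Fin.cons z v : Fin (K + 1) → ℤ) i)) =
      Fin.cons (od t z) (fun i => od t (v i)) := by
    intro z v
    funext i
    refine Fin.cases ?_ ?_ i
    · simp
    · intro j; simp
  simp only [exK, e1]
  have s1 : ∀ z : ℤ, |mnK K (fun _ => z + 1) (fun _ => H) (fun v => Ψ (Fin.cons (od t z) (fun i => od t (v i)))) -
      exK t K (fun y => Ψ (Fin.cons (od t z) (fun i => od t (y i))))| ≤ K * ε := fun z =>
    box_law hε hone K (fun _ => z + 1) (fun _ => H) (fun _ => hH) (fun o => Ψ (Fin.cons (od t z) o)) (fun _ => hΨ _)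
  have s2 := mn_abs (a := x) (b := N) (by positivity) s1
  have s3 := hone (fun o => exK t K (fun y => Ψ (Fin.cons o (fun i => od t (y i)))))
    (fun o => exK_abs_one _ fun v => hΨ _) x N hN
  have := abs_sub_le (mn x N (fun z => mnK K (fun _ => z + 1) (fun _ => H) (fun v => Ψ (Fin.cons (od t z) (fun i => od t (v i))))))
    (mn x N (fun z => exK t K (fun y => Ψ (Fin.cons (od t z) (fun i => od t (y i))))))
    (ex t (fun z => exK t K (fun y => Ψ (Fin.cons (od t z) (fun i => od t (y i))))))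
  linarith

/-- pairs of points of a window -/
theorem pairs_le {K N H : ℕ} (hH1 : 1 ≤ H) {φ : ℤ → ℤ → ℝ} (hφ0 : ∀ u w, 0 ≤ φ u w) (hφs : ∀ u w, φ u w = φ w u) (hφd : ∀ u, φ u u = 0)
    {e : ℝ} (he : 0 ≤ e) (h' : ∀ x' : ℤ, mn x' N (fun n => mn (n + 1) H (φ n)) ≤ e) (x : ℤ) : ∀ i j : Fin (K + 1), i ≠ j →
    mn x N (fun n => mnK K (fun _ => n + 1) (fun _ => H) (fun u => φ ((Fin.cons n u : Fin (K + 1) → ℤ) i)
      ((Fin.cons n u : Fin (K + 1) → ℤ) j))) ≤ 2 * e := by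
  intro i j
  refine Fin.cases ?_ ?_ i
  · refine Fin.cases ?_ ?_ j
    · intro h; exact absurd rfl h
    · intro j' _
      simp only [Fin.cons_zero, Fin.cons_succ]
      have e1 : ∀ n : ℤ, mnK K (fun _ => n + 1) (fun _ => H) (fun u => φ n (u j')) = mn (n + 1) H (φ n) :=
        fun n => mnK_one _ _ (φ n) (fun _ => hH1) j'
      rw [mn_congr e1]
      linarith [h' x]
  · intro i'
    refine Fin.cases ?_ ?_ j
    · intro _
      simp only [Fin.cons_zero, Fin.cons_succ]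
      have e1 : ∀ n : ℤ, mnK K (fun _ => n + 1) (fun _ => H) (fun u => φ (u i') n) = mn (n + 1) H (φ n) := by
        intro n
        rw [mnK_one _ _ (fun w => φ w n) (fun _ => hH1) i']
        exact mn_congr fun z => hφs _ _
      rw [mn_congr e1]
      linarith [h' x]
    · intro j' hij
      simp only [Fin.cons_succ]
      have e1 : ∀ n : ℤ, mnK K (fun _ => n + 1) (fun _ => H) (fun u => φ (u i') (u j')) ≤
          2 * mn (n + 1) H (fun u => mn (u + 1) H (φ u)) := by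
        intro n
        rw [mnK_two _ _ φ (fun _ => hH1) i' j' (fun e => hij (by rw [e]))]
        exact two_le (n + 1) hφ0 hφs hφd
      refine (mn_mono e1).trans ?_
      rw [mn_mul]
      have := mn_shift_le hH1 x h'
      linarith

/-- before the threshold mergings are rare -/
theorem merge_rare {θ τ : ℝ} (hθ : 0 < θ) (hθ1 : θ < 1) (hτ : 0 < τ) (hτθ : τ * th0 < θ) {ε : ℝ} (hε : 0 < ε) :
    ∀ᶠ N : ℕ in atTop, ∀ x : ℤ, mn x N (fun n => mn (n + 1) (HN θ N) (fun u => id1 (T^[tN τ N] n = T^[tN τ N] u))) ≤ ε := by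
  have hth0 := th0_pos
  have hcont : Continuous (fun r : ℝ => 2 / π * arcsin √r) :=
    continuous_const.mul (continuous_arcsin.comp continuous_sqrt)
  obtain ⟨δ₀, hδ₀, hδc⟩ := Metric.continuous_iff.1 hcont 1 (ε / 2) (by positivity)
  have h1 : 2 / π * arcsin √(1 : ℝ) = 1 := by
    rw [Real.sqrt_one, Real.arcsin_one]
    have := Real.pi_pos
    field_simp
  rw [h1] at hδc
  -- a later time
  obtain ⟨η, hη⟩ : ∃ η, η = min (δ₀ / 2) ((1 - θ) / (2 * θ)) := ⟨_, rfl⟩
  have hη0 : 0 < η := by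
    rw [hη]; apply lt_min; positivity
    apply div_pos <;> linarith
  have hη1 : η ≤ δ₀ / 2 := by rw [hη]; exact min_le_left _ _
  have hη2 : θ * (1 + η) < 1 := by
    have h2 : η ≤ (1 - θ) / (2 * θ) := by rw [hη]; exact min_le_right _ _
    rw [le_div_iff₀ (by positivity)] at h2
    nlinarith
  obtain ⟨τ', hτ'⟩ : ∃ τ', τ' = θ * (1 + η) / th0 := ⟨_, rfl⟩
  have e1 : τ' * th0 = θ * (1 + η) := by rw [hτ']; field_simp
  have hτθ' : θ < τ' * th0 := by rw [e1]; nlinarith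
  have hτ1' : τ' * th0 < 1 := by rw [e1]; exact hη2
  have hττ' : τ ≤ τ' := by
    have : τ * th0 ≤ τ' * th0 := by linarith
    exact le_of_mul_le_mul_right this hth0
  have hrat : 1 - ε / 2 ≤ 2 / π * arcsin √(θ / (τ' * th0)) := by
    have h2 : |θ / (τ' * th0) - 1| < δ₀ := by
      rw [e1]
      have e2 : θ / (θ * (1 + η)) - 1 = -(η / (1 + η)) := by field_simp; ring
      rw [e2, abs_neg, abs_of_nonneg (by positivity)]
      have : η / (1 + η) ≤ η := div_le_self hη0.le (by linarith)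
      linarith
    have h3 := hδc _ (by rw [Real.dist_eq]; exact h2)
    rw [Real.dist_eq] at h3
    have := (abs_lt.1 h3).1
    linarith
  have hHr : Tendsto (fun N : ℕ => (HN θ N : ℝ)) atTop atTop := tendsto_natCast_atTop_atTop.comp (HN_tendsto hθ)
  filter_upwards [full_law hθ hθ1 hτθ' hτ1' (show 0 < ε / 2 by positivity), eventually_ge_atTop 1, hHr.eventually_ge_atTop 1] with N h2 hN1 hH1
  intro x
  have h3 := h2 x
  have hN0 : (0 : ℝ) < N := by exact_mod_cast hN1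
  have hH0 : (0 : ℝ) < HN θ N := by linarith
  have hH1' : 1 ≤ HN θ N := by exact_mod_cast hH1
  have htt : tN τ N ≤ tN τ' N := tN_mono hττ' hN1
  obtain ⟨t, ht⟩ : ∃ t, t = tN τ N := ⟨_, rfl⟩
  obtain ⟨t', ht'⟩ : ∃ t', t' = tN τ' N := ⟨_, rfl⟩
  obtain ⟨H, hHd⟩ : ∃ H, H = HN θ N := ⟨_, rfl⟩
  rw [← ht] at htt ⊢
  rw [← ht'] at htt h3
  rw [← hHd] at h3 hH0 hH1' ⊢
  have m0 : ∀ n u : ℤ, id1 (T^[t] n = T^[t] u) ≤ 1 + (-1) * id1 (T^[t'] n ≠ T^[t'] u) := by
    intro n u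
    by_cases h : T^[t] n = T^[t] u
    · have h4 : T^[t'] n = T^[t'] u := by
        by_contra hcon
        exact iter_ne htt hcon h
      rw [id1_pos h, id1_neg (not_not.2 h4)]; norm_num
    · rw [id1_neg h]
      have := id1_le_one (T^[t'] n ≠ T^[t'] u)
      linarith
  have m1 : mn x N (fun n => mn (n + 1) H (fun u => id1 (T^[t'] n ≠ T^[t'] u))) =
      (∑ i ∈ range N, ∑ h ∈ Icc 1 H, id1 (T^[t'] (x + (i : ℕ)) ≠ T^[t'] (x + (i : ℕ) + (h : ℕ)))) / (N * H) := by
    unfold mn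
    rw [← sum_div, div_div, mul_comm (H : ℝ)]
    congr 1
    apply sum_congr rfl
    intro i _
    have e1 := sum_Ico_eq_sum_range (fun h : ℕ => id1 (T^[t'] (x + (i : ℕ)) ≠ T^[t'] (x + (i : ℕ) + (h : ℕ)))) 1 (H + 1)
    have e2 : Icc 1 H = Ico 1 (H + 1) := by
      ext a
      rw [mem_Icc, mem_Ico]
      omega
    rw [e2, e1, Nat.add_sub_cancel]
    apply sum_congr rfl
    intro v _
    have e3 : x + (i : ℕ) + 1 + (v : ℕ) = x + (i : ℕ) + ((1 + v : ℕ) : ℤ) := by push_cast; ring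
    rw [e3]
  have m2 : mn x N (fun n => mn (n + 1) H (fun u => id1 (T^[t] n = T^[t] u))) ≤
      1 + (-1) * mn x N (fun n => mn (n + 1) H (fun u => id1 (T^[t'] n ≠ T^[t'] u))) := by
    have a1 : ∀ n : ℤ, mn (n + 1) H (fun u => id1 (T^[t] n = T^[t] u)) ≤ 1 + (-1) * mn (n + 1) H (fun u => id1 (T^[t'] n ≠ T^[t'] u)) := by
      intro n
      refine (mn_mono (m0 n)).trans (le_of_eq ?_)
      rw [mn_add_fn, mn_const hH1', mn_mul]
    refine (mn_mono a1).trans (le_of_eq ?_)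
    rw [mn_add_fn, mn_const hN1, mn_mul]
  refine m2.trans ?_
  rw [m1]
  have m3 : 2 / π * arcsin √(θ / (τ' * th0)) - ε / 2 ≤
      (∑ i ∈ range N, ∑ h ∈ Icc 1 H, id1 (T^[t'] (x + (i : ℕ)) ≠ T^[t'] (x + (i : ℕ) + (h : ℕ)))) / (N * H) := by
    rw [le_div_iff₀ (by positivity)]
    have := (abs_le.1 h3).1
    linarith
  linarith

end Pool.Agent.J4H39
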