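import Mathlib
import Pool.Agent.J4H39.Z6

set_option autoImplicit false

/-! Before the threshold: the law of the exponents and of the pattern. -/

namespace Pool.Agent.J4H39

open Finset Filter Real
open Pool.Agent.J4H26.KT (IsE Adm fW)

theorem isE_mn (a : ℤ) {b : ℕ} (hb : 1 ≤ b) : IsE (fun f : ℤ → ℝ => mn a b f) where
  add f g := mn_add_fn a b f g
  smul c f := mn_mul a b c f
  mono _ _ h := mn_mono h
  one := mn_const hb 1

theorem isE_mnK {K : ℕ} : ∀ (a : Fin K → ℤ) (b : Fin K → ℕ), (∀ i, 1 ≤ b i) → IsE (fun F : (Fin K → ℤ) → ℝ => mnK K a b F) := by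
  induction K with
  | zero =>
    intro a b _
    exact ⟨fun _ _ => rfl, fun _ _ => rfl, fun _ _ h => h _, rfl⟩
  | succ K ih =>
    intro a b hb
    have h1 := ih (fun i => a i.succ) (fun i => b i.succ) (fun i => hb _)
    have h2 := isE_mn (a 0) (hb 0)
    refine ⟨?_, ?_, ?_, ?_⟩
    · intro f g
      simp only [mnK]
      rw [← h2.add]
      exact mn_congr fun z => h1.add _ _
    · intro c f
      simp only [mnK]
      rw [← h2.smul]
      exact mn_congr fun z => h1.smul _ _
    · intro f g h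
      simp only [mnK]
      exact mn_mono fun z => h1.mono _ _ fun v => h _
    · simp only [mnK]
      rw [mn_congr (fun z => h1.one)]
      exact h2.one

/-- the mean over the points `n`, `n + h i` of the window -/
noncomputable def wE (K : ℕ) (x : ℤ) (N H : ℕ) (F : (Fin (K + 1) → ℤ) → ℝ) : ℝ :=
  mn x N (fun n => mnK K (fun _ => n + 1) (fun _ => H) (fun u => F (Fin.cons n u)))

theorem isE_wE (K : ℕ) (x : ℤ) {N H : ℕ} (hN : 1 ≤ N) (hH : 1 ≤ H) : IsE (wE K x N H) := by
  have h2 := isE_mn x hN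
  have h1 : ∀ n : ℤ, IsE (fun F : (Fin K → ℤ) → ℝ => mnK K (fun _ => n + 1) (fun _ => H) F) := fun n => isE_mnK _ _ fun _ => hH
  refine ⟨?_, ?_, ?_, ?_⟩
  · intro f g
    unfold wE
    rw [← h2.add]
    exact mn_congr fun z => (h1 z).add _ _
  · intro c f
    unfold wE
    rw [← h2.smul]
    exact mn_congr fun z => (h1 z).smul _ _
  · intro f g h
    exact mn_mono fun z => (h1 z).mono _ _ fun v => h _
  · unfold wE
    rw [mn_congr (fun z => (h1 z).one)]
    exact h2.one

theorem isE_iw {K : ℕ} (n : ℕ) (z : Fin K → ℤ) : IsE (fun f => iw f n z) := by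
  refine ⟨?_, ?_, ?_, ?_⟩
  · intro f g
    have h := iw_fsum (univ : Finset (Fin 2)) (fun i z => if i = 0 then f z else g z) n z
    simp only [Fin.sum_univ_two, if_true, one_ne_zero, if_false] at h
    exact h
  · intro c f
    have h := iw_aff f c 0 n z
    simp only [add_zero] at h
    exact h
  · intro f g h
    exact iw_mono h n z
  · exact iw_const 1 n z

/-- coincidences of two points of a window are rare -/
theorem eq_rare {K : ℕ} (x : ℤ) {N H : ℕ} (hN : 1 ≤ N) (hH : 1 ≤ H) (i j : Fin (K + 1)) (hij : i ≠ j) :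
    mn x N (fun n => mnK K (fun _ => n + 1) (fun _ => H) (fun u => if 1 ≤ i.val ∧ 1 ≤ j.val then
      id1 ((Fin.cons n u : Fin (K + 1) → ℤ) i = (Fin.cons n u : Fin (K + 1) → ℤ) j) else 0)) ≤ 1 / H := by
  have hH0 : (0 : ℝ) < H := by exact_mod_cast hH
  by_cases h : 1 ≤ i.val ∧ 1 ≤ j.val
  · simp only [if_pos h]
    obtain ⟨i', rfl⟩ : ∃ i' : Fin K, i = i'.succ := ⟨i.pred (by intro e; rw [e] at h; exact absurd h.1 (by simp)), by simp⟩
    obtain ⟨j', rfl⟩ : ∃ j' : Fin K, j = j'.succ := ⟨j.pred (by intro e; rw [e] at h; exact absurd h.2 (by simp)), by simp⟩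
    simp only [Fin.cons_succ]
    have e1 : ∀ n : ℤ, mnK K (fun _ => n + 1) (fun _ => H) (fun u => id1 (u i' = u j')) ≤ 1 / H := by
      intro n
      rw [mnK_two (fun _ => n + 1) (fun _ => H) (fun a b => id1 (a = b)) (fun _ => hH) i' j' (fun e => hij (by rw [e]))]
      have e2 : ∀ u : ℤ, mn (n + 1) H (fun w => id1 (u = w)) ≤ 1 / H := by
        intro u
        unfold mn
        apply div_le_div_of_nonneg_right _ hH0.le
        have e3 : ∑ v ∈ range H, id1 (u = n + 1 + (v : ℕ)) ≤ ∑ v ∈ range H, (if v = (u - (n + 1)).toNat then (1 : ℝ) else 0) := by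
          apply sum_le_sum
          intro v _
          by_cases hv : u = n + 1 + (v : ℕ)
          · rw [id1_pos hv, if_pos (by omega)]
          · rw [id1_neg hv]; split_ifs <;> norm_num
        refine e3.trans ?_
        rw [sum_ite_eq']
        split_ifs <;> norm_num
      refine (mn_mono e2).trans (le_of_eq ?_)
      exact mn_const hH _
    refine (mn_mono e1).trans (le_of_eq ?_)
    exact mn_const hN _
  · simp only [if_neg h]
    have e1 : ∀ n : ℤ, mnK K (fun _ => n + 1) (fun _ => H) (fun _ => (0 : ℝ)) = 0 := fun n => mnK_const _ _ 0 fun _ => hH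
    rw [mn_congr e1, mn_const hN]
    positivity

/-- before the threshold: the mean of the coincidences of the images -/
theorem rareK (K : ℕ) {θ τ : ℝ} (hθ : 0 < θ) (hθ1 : θ < 1) (hτ : 0 < τ) (hτθ : τ * th0 < θ) {ε : ℝ} (hε : 0 < ε) :
    ∀ᶠ N : ℕ in atTop, ∀ x : ℤ, ∀ i j : Fin (K + 1), i ≠ j →
      wE K x N (HN θ N) (fun U => id1 (T^[tN τ N] (U i) = T^[tN τ N] (U j))) ≤ ε := by
  have hHr : Tendsto (fun N : ℕ => (HN θ N : ℝ)) atTop atTop := tendsto_natCast_atTop_atTop.comp (HN_tendsto hθ)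
  filter_upwards [merge_rare hθ hθ1 hτ hτθ (show 0 < ε / 4 by positivity), hHr.eventually_ge_atTop 1,
    hHr.eventually_ge_atTop (2 / ε), eventually_ge_atTop 1] with N h hH hH2 hN
  have hH1 : 1 ≤ HN θ N := by exact_mod_cast hH
  intro x i j hij
  obtain ⟨t, ht⟩ : ∃ t, t = tN τ N := ⟨_, rfl⟩
  obtain ⟨H, hHd⟩ : ∃ H, H = HN θ N := ⟨_, rfl⟩
  rw [← ht, ← hHd] at h ⊢
  rw [← hHd] at hH1 hH2 hH
  obtain ⟨φ, hφ⟩ : ∃ φ : ℤ → ℤ → ℝ, φ = fun n u => id1 (T^[t] n = T^[t] u ∧ n ≠ u) := ⟨_, rfl⟩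
  have hφ0 : ∀ u w, 0 ≤ φ u w := fun u w => by rw [hφ]; exact id1_nonneg _
  have hφs : ∀ u w, φ u w = φ w u := fun u w => by
    rw [hφ]
    apply id1_congr
    constructor
    · rintro ⟨a, b⟩; exact ⟨a.symm, fun e => b e.symm⟩
    · rintro ⟨a, b⟩; exact ⟨a.symm, fun e => b e.symm⟩
  have hφd : ∀ u, φ u u = 0 := fun u => by
    rw [hφ]
    exact id1_neg (fun h => h.2 rfl)
  have h' : ∀ x' : ℤ, mn x' N (fun n => mn (n + 1) H (φ n)) ≤ ε / 4 := by
    intro x'
    refine le_trans ?_ (h x')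
    apply mn_mono
    intro n
    apply mn_mono
    intro u
    rw [hφ]
    exact id1_mono fun h => h.1
  have h1 := pairs_le (K := K) hH1 hφ0 hφs hφd (by positivity) h' x i j hij
  have h2 := eq_rare (K := K) x hN hH1 i j hij
  have hE := isE_wE K x hN hH1
  have h3 : ∀ n : ℤ, mnK K (fun _ => n + 1) (fun _ => H) (fun u => id1 (T^[t] ((Fin.cons n u : Fin (K + 1) → ℤ) i) = T^[t] ((Fin.cons n u : Fin (K + 1) → ℤ) j))) ≤
      mnK K (fun _ => n + 1) (fun _ => H) (fun u => φ ((Fin.cons n u : Fin (K + 1) → ℤ) i) ((Fin.cons n u : Fin (K + 1) → ℤ) j)) +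
      mnK K (fun _ => n + 1) (fun _ => H) (fun u => if 1 ≤ i.val ∧ 1 ≤ j.val then
      id1 ((Fin.cons n u : Fin (K + 1) → ℤ) i = (Fin.cons n u : Fin (K + 1) → ℤ) j) else 0) := by
    intro n
    have hEn := isE_mnK (K := K) (fun _ => n + 1) (fun _ => H) (fun _ => hH1)
    by_cases hc : 1 ≤ i.val ∧ 1 ≤ j.val
    · rw [← hEn.add]
      apply hEn.mono
      intro u
      rw [if_pos hc]
      by_cases e : (Fin.cons n u : Fin (K + 1) → ℤ) i = (Fin.cons n u : Fin (K + 1) → ℤ) j
      · rw [id1_pos e]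
        have := hφ0 ((Fin.cons n u : Fin (K + 1) → ℤ) i) ((Fin.cons n u : Fin (K + 1) → ℤ) j)
        have := id1_le_one (T^[t] ((Fin.cons n u : Fin (K + 1) → ℤ) i) = T^[t] ((Fin.cons n u : Fin (K + 1) → ℤ) j))
        linarith
      · rw [id1_neg e, add_zero, hφ]
        exact id1_mono fun h => ⟨h, e⟩
    · simp only [if_neg hc]
      rw [mnK_const _ _ 0 (fun _ => hH1), add_zero]
      -- one of the points is `n`
      have key : ∀ j' : Fin K, mnK K (fun _ => n + 1) (fun _ => H) (fun u => id1 (T^[t] n = T^[t] (u j'))) ≤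
          mnK K (fun _ => n + 1) (fun _ => H) (fun u => φ n (u j')) := by
        intro j'
        rw [mnK_one _ _ (fun w => id1 (T^[t] n = T^[t] w)) (fun _ => hH1) j', mnK_one _ _ (φ n) (fun _ => hH1) j']
        unfold mn
        apply div_le_div_of_nonneg_right _ (by positivity)
        apply sum_le_sum
        intro v _
        rw [hφ]
        exact id1_mono fun h => ⟨h, by omega⟩
      rcases Fin.eq_zero_or_eq_succ i with hi | ⟨i', hi⟩
      · rcases Fin.eq_zero_or_eq_succ j with hj | ⟨j', hj⟩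
        · exact absurd (hi.trans hj.symm) hij
        · rw [hi, hj]
          simp only [Fin.cons_zero, Fin.cons_succ]
          exact key j'
      · rcases Fin.eq_zero_or_eq_succ j with hj | ⟨j', hj⟩
        · rw [hi, hj]
          simp only [Fin.cons_zero, Fin.cons_succ]
          have e1 : ∀ u : Fin K → ℤ, id1 (T^[t] (u i') = T^[t] n) = id1 (T^[t] n = T^[t] (u i')) := fun u => id1_congr eq_comm
          have e2 : ∀ u : Fin K → ℤ, φ (u i') n = φ n (u i') := fun u => hφs _ _
          simp only [e1, e2]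
          exact key i'
        · exfalso
          apply hc
          rw [hi, hj]
          simp
  have h4 : wE K x N H (fun U => id1 (T^[t] (U i) = T^[t] (U j))) ≤ 2 * (ε / 4) + 1 / H := by
    unfold wE
    refine (mn_mono h3).trans ?_
    rw [mn_add_fn]
    exact add_le_add h1 h2
  have h5 : 1 / (H : ℝ) ≤ ε / 2 := by
    rw [div_le_iff₀ hε] at hH2
    rw [div_le_iff₀ (by linarith)]
    linarith
  linarith

/-- the pattern of distinct points -/
theorem pattern_dif {K : ℕ} {f : (Fin K → ℝ) → (Fin K → Fin K → Prop) → ℝ} (hf : Adm f) (v : Fin K → ℝ) (P : Fin K → Fin K → Prop)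
    (hr : ∀ i, P i i) : |f v P - f v (fun i j => i = j)| ≤ ∑ i, ∑ j, if i = j then 0 else 2 * id1 (P i j) := by
  have hs : ∀ i ∈ (univ : Finset (Fin K)), 0 ≤ ∑ j, (if i = j then (0 : ℝ) else 2 * id1 (P i j)) := by
    intro i _
    apply sum_nonneg
    intro j _
    split_ifs
    · exact le_rfl
    · have := id1_nonneg (P i j); positivity
  by_cases h : ∀ i j, i ≠ j → ¬ P i j
  · have e : P = fun i j => i = j := by
      funext i j
      apply propext
      constructor
      · intro hp; by_contra hne; exact h i j hne hp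
      · intro e; rw [e]; exact hr j
    rw [e, sub_self, abs_zero]
    rw [e] at hs
    exact sum_nonneg hs
  · push Not at h
    obtain ⟨i, j, hij, hp⟩ := h
    have h1 : |f v P - f v (fun i j => i = j)| ≤ 2 := by
      have a1 := abs_le.1 (hf.1 v P)
      have a2 := abs_le.1 (hf.1 v (fun i j => i = j))
      rw [abs_le]; constructor <;> linarith [a1.1, a1.2, a2.1, a2.2]
    have h2 : (2 : ℝ) ≤ ∑ j, (if i = j then (0 : ℝ) else 2 * id1 (P i j)) := by
      calc (2 : ℝ) = (if i = j then (0 : ℝ) else 2 * id1 (P i j)) := by rw [if_neg hij, id1_pos hp]; norm_num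
        _ ≤ _ := single_le_sum (f := fun j => if i = j then (0 : ℝ) else 2 * id1 (P i j)) (fun j _ => by
          split_ifs
          · exact le_rfl
          · have := id1_nonneg (P i j); positivity) (mem_univ j)
    have h3 := single_le_sum hs (mem_univ i)
    linarith

/-- the walks before the threshold -/
theorem walks_rare (K : ℕ) {ε : ℝ} (hε : 0 < ε) : ∃ t₀ : ℕ, ∀ t ≥ t₀, ∀ i j : Fin K, i ≠ j →
    iw (fun z : Fin K → ℤ => id1 (z i = z j)) t (fun _ => 0) ≤ ε := by
  have hcont : Continuous (fun r : ℝ => 2 / π * arcsin √r) :=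
    continuous_const.mul (continuous_arcsin.comp continuous_sqrt)
  obtain ⟨δ, hδ, hδc⟩ := Metric.continuous_iff.1 hcont 1 (ε / 3) (by positivity)
  have h1 : 2 / π * arcsin √(1 : ℝ) = 1 := by
    rw [Real.sqrt_one, Real.arcsin_one]
    have := Real.pi_pos
    field_simp
  rw [h1] at hδc
  obtain ⟨q, hq⟩ : ∃ q : ℕ, q = ⌈12 / ε⌉₊ + 3 := ⟨_, rfl⟩
  have hq1 : 4 / (q : ℝ) ≤ ε / 3 := by
    have h2 : 12 / ε ≤ q := by
      rw [hq]; push_cast
      have := Nat.le_ceil (12 / ε)
      linarith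
    rw [div_le_iff₀ hε] at h2
    rw [div_le_iff₀ (by rw [hq]; positivity)]
    linarith
  obtain ⟨t₁, ht₁⟩ := exists_nat_ge ((q : ℝ) / δ + 1)
  obtain ⟨t₂, ht₂⟩ := exists_nat_ge (9 / ε ^ 2)
  refine ⟨max (max t₁ t₂) 1, fun t ht i j hij => ?_⟩
  have htt1 : t₁ ≤ t := ((le_max_left _ _).trans (le_max_left _ _)).trans ht
  have htt2 : t₂ ≤ t := ((le_max_right _ _).trans (le_max_left _ _)).trans ht
  have htt3 : 1 ≤ t := (le_max_right _ _).trans ht
  have ht0 : (0 : ℝ) < t := by exact_mod_cast htt3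
  have h2 : iw (fun z : Fin K → ℤ => id1 (z i = z j)) t (fun _ => 0) ≤ iw (fun z : Fin K → ℤ => 1 - U (2 * q) (2 * (z j - z i))) t (fun _ => 0) := by
    apply iw_mono
    intro z
    by_cases hz : z i = z j
    · rw [id1_pos hz, hz, sub_self, mul_zero, U_zero, sub_zero]
    · rw [id1_neg hz]
      have := U_le_one (2 * q) (2 * (z j - z i))
      linarith
  refine h2.trans ?_
  rw [iw_one_sub, iw_dif hij (U (2 * q)) t, ← F_Av]
  simp only [sub_self, mul_zero]
  have h4 := arc_law (a := t) (b := t + q) htt3 (by omega)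
  have e1 : F (2 * (t + q - t)) (2 * (t + q)) 0 = F (2 * q) (2 * q + 2 * t) 0 := by
    congr 1 <;> omega
  rw [e1] at h4
  have h5 : |(t : ℝ) / ((t + q : ℕ) : ℝ) - 1| < δ := by
    push_cast
    have hq0 : (0 : ℝ) ≤ q := by positivity
    have e2 : (t : ℝ) / (t + q) - 1 = -(q / (t + q)) := by field_simp; ring
    rw [e2, abs_neg, abs_of_nonneg (by positivity), div_lt_iff₀ (by positivity)]
    have h6 : (q : ℝ) / δ < t := by
      have : (t₁ : ℝ) ≤ t := by exact_mod_cast htt1
      linarith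
    rw [div_lt_iff₀ hδ] at h6
    have : 0 ≤ δ * q := by positivity
    linarith
  have h6 := hδc _ (by rw [Real.dist_eq]; exact h5)
  rw [Real.dist_eq] at h6
  have h7 : 1 / √ (((t + q : ℕ)) : ℝ) ≤ ε / 3 := by
    have h8 : 3 / ε ≤ √ (((t + q : ℕ)) : ℝ) := by
      apply Real.le_sqrt_of_sq_le
      have e3 : (3 / ε) ^ 2 = 9 / ε ^ 2 := by rw [div_pow]; norm_num
      rw [e3]
      refine ht₂.trans ?_
      have : t₂ ≤ t + q := by omega
      exact_mod_cast this
    rw [div_le_iff₀ hε] at h8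
    rw [div_le_iff₀ (by apply Real.sqrt_pos.2; positivity)]
    linarith
  have h8 : 4 / ((((t + q : ℕ)) : ℝ) - t) ≤ ε / 3 := by
    push_cast
    rw [add_sub_cancel_left]
    exact hq1
  rw [abs_le] at h4
  rw [abs_lt] at h6
  linarith [h4.1, h6.1]

end Pool.Agent.J4H39
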