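import Mathlib
import Pool.Agent.J4H39.K0

set_option autoImplicit false

/-! Tuples of trajectories: the class estimate. -/

namespace Pool.Agent.J4H39

open Finset Filter Real

theorem pat_iff {s s' : ℤ × ℤ} {z y y' : ℤ} (h : Rel s z y) (h' : Rel s' z y') (t : ℕ) :
    rn stP t s z = rn stP t s' z ↔ s.1 + od t y = s'.1 + od t y' ∧ T^[t] y = T^[t] y' := by
  obtain ⟨a1, a2⟩ := rel_rn h t
  obtain ⟨b1, b2⟩ := rel_rn h' t
  constructor
  · intro e
    rw [e] at a1 a2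
    refine ⟨by omega, ?_⟩
    unfold Rel at a1 b1
    exact mul_left_cancel₀ (pow_ne_zero _ (by norm_num)) (a1.trans b1.symm)
  · rintro ⟨e1, e2⟩
    rw [← e2] at b1
    exact rel_eq a1 b1 (by rw [a2, b2]; omega)

/-- the observable of actual trajectories -/
noncomputable def ob {K : ℕ} (t : ℕ) (g : (Fin K → ℤ) → (Fin K → Fin K → Prop) → ℝ) (D Y : Fin K → ℤ) : ℝ :=
  g (fun i => D i + od t (Y i)) (fun i j => D i + od t (Y i) = D j + od t (Y j) ∧ T^[t] (Y i) = T^[t] (Y j))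

theorem Gf_rel {K : ℕ} (t : ℕ) (g : (Fin K → ℤ) → (Fin K → Fin K → Prop) → ℝ) {s : Fin K → ℤ × ℤ} {z : ℤ}
    {Y : Fin K → ℤ} (h : ∀ i, Rel (s i) z (Y i)) : Gf g (lb stK t s z) = ob t g (fun i => (s i).1) Y := by
  unfold Gf lb ob
  congr 1
  · funext i
    simp only [rn_stK_apply]
    rw [(rel_rn (h i) t).2]; ring
  · funext i j
    simp only [rn_stK_apply]
    exact propext (pat_iff (h i) (h j) t)

theorem ob_shift {K : ℕ} (t : ℕ) (g : (Fin K → ℤ) → (Fin K → Fin K → Prop) → ℝ) (o : ℤ) (D Y : Fin K → ℤ) :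
    ob t (fun A p => g (fun i => o + A i) p) D Y = ob t g (fun i => o + D i) Y := by
  unfold ob
  show g (fun i => o + (D i + od t (Y i))) (fun i j => D i + od t (Y i) = D j + od t (Y j) ∧ T^[t] (Y i) = T^[t] (Y j)) =
    g (fun i => o + D i + od t (Y i)) (fun i j => o + D i + od t (Y i) = o + D j + od t (Y j) ∧ T^[t] (Y i) = T^[t] (Y j))
  congr 1
  · funext i; ring
  · funext i j
    apply propext
    apply and_congr_left'
    constructor <;> intro h <;> omega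

/-- quick merging of the companions with the shifted companions -/
theorem ob_merge {K t k : ℕ} (hkt : k ≤ t) (g : (Fin K → ℤ) → (Fin K → Fin K → Prop) → ℝ) (D Y h : Fin K → ℤ)
    (hm : ∀ i, rn stP k (0, h i) (Y i) = (0, 0)) : ob t g D (fun i => Y i + h i) = ob t g D Y := by
  have e : ∀ i, T^[t] (Y i) = T^[t] (Y i + h i) ∧ od t (Y i) = od t (Y i + h i) := by
    intro i
    obtain ⟨a1, a2⟩ := merge_of_rn (rel_zero (h i) (Y i)) (rn_zero_of_le hkt (hm i))
    simp only [zero_add] at a2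
    exact ⟨a1, by exact_mod_cast a2⟩
  unfold ob
  congr 1
  · funext i; rw [← (e i).2]
  · funext i j; rw [← (e i).2, ← (e j).2, ← (e i).1, ← (e j).1]

theorem ob_diff {K t k : ℕ} (hkt : k ≤ t) (g : (Fin K → ℤ) → (Fin K → Fin K → Prop) → ℝ) (h0 : ∀ A p, 0 ≤ g A p)
    (h1 : ∀ A p, g A p ≤ 1) (D Y h : Fin K → ℤ) :
    |ob t g D (fun i => Y i + h i) - ob t g D Y| ≤ ∑ i, id1 (rn stP k (0, h i) (Y i) ≠ (0, 0)) := by
  have hs0 : ∀ i ∈ (univ : Finset (Fin K)), 0 ≤ id1 (rn stP k (0, h i) (Y i) ≠ (0, 0)) := fun _ _ => id1_nonneg _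
  by_cases hm : ∀ i, rn stP k (0, h i) (Y i) = (0, 0)
  · rw [ob_merge hkt g D Y h hm, sub_self, abs_zero]
    exact sum_nonneg hs0
  · push Not at hm
    obtain ⟨i, hi⟩ := hm
    have a1 : (1 : ℝ) ≤ ∑ i, id1 (rn stP k (0, h i) (Y i) ≠ (0, 0)) := by
      calc (1 : ℝ) = id1 (rn stP k (0, h i) (Y i) ≠ (0, 0)) := (id1_pos hi).symm
        _ ≤ _ := single_le_sum hs0 (mem_univ i)
    refine le_trans ?_ a1
    have b1 := h0 (fun i => D i + od t (Y i + h i)) (fun i j => D i + od t (Y i + h i) = D j + od t (Y j + h j) ∧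
      T^[t] (Y i + h i) = T^[t] (Y j + h j))
    have b2 := h1 (fun i => D i + od t (Y i + h i)) (fun i j => D i + od t (Y i + h i) = D j + od t (Y j + h j) ∧
      T^[t] (Y i + h i) = T^[t] (Y j + h j))
    have b3 := h0 (fun i => D i + od t (Y i)) (fun i j => D i + od t (Y i) = D j + od t (Y j) ∧ T^[t] (Y i) = T^[t] (Y j))
    have b4 := h1 (fun i => D i + od t (Y i)) (fun i j => D i + od t (Y i) = D j + od t (Y j) ∧ T^[t] (Y i) = T^[t] (Y j))
    unfold ob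
    rw [abs_le]
    constructor <;> linarith

theorem per_Gf {K : ℕ} (g : (Fin K → ℤ) → (Fin K → Fin K → Prop) → ℝ) (s : Fin K → ℤ × ℤ) {t n : ℕ} (h : t ≤ n) :
    Per n (fun y => Gf g (lb stK t s y)) := by
  intro x u
  simp only
  rw [per_lb stK s h x u]

theorem Gf_nonneg {K : ℕ} {g : (Fin K → ℤ) → (Fin K → Fin K → Prop) → ℝ} (h0 : ∀ A p, 0 ≤ g A p)
    (μ : ℕ × (Fin K → ℤ × ℤ)) : 0 ≤ Gf g μ := h0 _ _

theorem Gf_le_one {K : ℕ} {g : (Fin K → ℤ) → (Fin K → Fin K → Prop) → ℝ} (h1 : ∀ A p, g A p ≤ 1)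
    (μ : ℕ × (Fin K → ℤ × ℤ)) : Gf g μ ≤ 1 := h1 _ _

/-- the companion of an integer in a state, moved along the class -/
theorem rel_move {s : ℤ × ℤ} {y y' : ℤ} (h : Rel s y y') {E : ℕ} (hE : (-s.1).toNat ≤ E) (u : ℤ) :
    Rel s (y + 3 ^ E * u) (y' + 3 ^ (E - (-s.1).toNat + s.1.toNat) * u) := by
  have := rel_shift h (3 ^ (E - (-s.1).toNat) * u)
  rw [← mul_assoc, ← mul_assoc, ← pow_add, ← pow_add, Nat.add_sub_cancel' hE, add_comm s.1.toNat] at this
  exact this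

theorem t_CLASS : S_CLASS := by
  intro K t k m a b M ε η hTK hkt s hs ham hbm y hrel c hc0 hc1 hd v₁ Z hZ hM hη g h0 h1 o
  classical
  obtain ⟨E, hE, hEa⟩ : ∃ E : ℕ, (∀ i, (-(s i).1).toNat ≤ E) ∧ E ≤ a := by
    refine ⟨univ.sup (fun i => (-(s i).1).toNat), fun i => le_sup (f := fun i => (-(s i).1).toNat) (mem_univ i), ?_⟩
    apply Finset.sup_le
    intro i _
    have := (hs i).1
    rw [abs_le] at this
    omega
  have hEm : E ≤ m := hEa.trans ham
  have h3E : (0 : ℤ) < 3 ^ E := by positivity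
  have e3 : (3 : ℤ) ^ m = 3 ^ E * 3 ^ (m - E) := by rw [← pow_add]; congr 1; omega
  -- the class modulo `3 ^ E`
  obtain ⟨c₀, hc₀⟩ : ∃ c₀ : ℤ, c₀ = c % 3 ^ E := ⟨_, rfl⟩
  obtain ⟨w, hw⟩ : ∃ w : ℤ, w = c / 3 ^ E := ⟨_, rfl⟩
  have hcw : c = c₀ + 3 ^ E * w := by rw [hc₀, hw]; exact (Int.emod_add_mul_ediv c (3 ^ E)).symm
  have hc₀0 : 0 ≤ c₀ := by rw [hc₀]; exact Int.emod_nonneg _ h3E.ne'
  have hc₀1 : c₀ < 3 ^ E := by rw [hc₀]; exact Int.emod_lt_of_pos _ h3E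
  have hw0 : 0 ≤ w := by rw [hw]; exact Int.ediv_nonneg hc0 h3E.le
  have hw1 : 3 ^ E * w ≤ c := by rw [hcw]; linarith
  -- companions of `c₀`
  have hY : ∀ i, ∃ ρ : ℤ, Rel (s i) c₀ ρ := by
    intro i
    obtain ⟨y', hy'⟩ := hrel i
    obtain ⟨u₀, hu₀⟩ := hd
    have e : c₀ = y + 3 ^ E * (-(3 ^ (m - E) * u₀) - w) := by
      rw [e3] at hu₀
      linear_combination -hcw - hu₀
    rw [e]
    exact rel_shift' hy' (hE i) _
  choose ρ hρ using hY
  obtain ⟨s', hs'⟩ : ∃ s' : Fin K → ℤ × ℤ, s' = fun i => ((s i).1 + E, ρ i) := ⟨_, rfl⟩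
  obtain ⟨Y, hYd⟩ : ∃ Y : Fin K → ℤ → ℤ, Y = fun i x => ρ i + 3 ^ (E - (-(s i).1).toNat + (s i).1.toNat) * x := ⟨_, rfl⟩
  have hnn : ∀ i, 0 ≤ (s i).1 + E := by intro i; have := hE i; omega
  have hexp : ∀ i, E - (-(s i).1).toNat + (s i).1.toNat = ((s i).1 + E).toNat := by intro i; have := hE i; omega
  have R1 : ∀ i x, Rel (s i) (3 ^ E * x + c₀) (Y i x) := by
    intro i x
    rw [hYd, add_comm (3 ^ E * x)]
    exact rel_move (hρ i) (hE i) x
  have R2 : ∀ i x, Rel (s' i) x (Y i x) := by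
    intro i x
    rw [hYd, hs']
    unfold Rel
    simp only
    rw [hexp i, show (-((s i).1 + (E : ℤ))).toNat = 0 by have := hnn i; omega]
    ring
  -- bounds
  have hs'b : GK (2 * a) (2 * a + b + 1) s' := by
    intro i
    have h2 := (hs i).1
    have h3 := (hs i).2
    rw [abs_le] at h2
    refine ⟨?_, ?_⟩
    · rw [hs', abs_le]
      simp only
      push_cast
      constructor <;> omega
    · rw [hs']
      simp only
      have h4 := hρ i
      unfold Rel at h4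
      have h5 : |ρ i| ≤ |3 ^ (-(s i).1).toNat * ρ i| := by
        rw [abs_mul, abs_of_pos (by positivity : (0 : ℤ) < 3 ^ (-(s i).1).toNat)]
        have : (1 : ℤ) ≤ 3 ^ (-(s i).1).toNat := one_le_pow₀ (by norm_num)
        exact le_mul_of_one_le_left (abs_nonneg _) this
      refine h5.trans ?_
      rw [h4]
      refine (abs_add_le _ _).trans ?_
      have h6 : (3 : ℤ) ^ (s i).1.toNat ≤ 4 ^ a :=
        (pow_le_pow_left₀ (by norm_num) (by norm_num) _).trans (pow_le_pow_right₀ (by norm_num) (by omega))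
      have h7 : (3 : ℤ) ^ E ≤ 4 ^ a :=
        (pow_le_pow_left₀ (by norm_num) (by norm_num) _).trans (pow_le_pow_right₀ (by norm_num) hEa)
      have h8 : |3 ^ (s i).1.toNat * c₀| ≤ 4 ^ a * 4 ^ a := by
        rw [abs_mul, abs_of_pos (by positivity : (0 : ℤ) < 3 ^ (s i).1.toNat), abs_of_nonneg hc₀0]
        exact mul_le_mul h6 (hc₀1.le.trans h7) hc₀0 (by positivity)
      have h9 : (4 : ℤ) ^ (2 * a + b + 1) = 4 * (4 ^ a * 4 ^ a * 4 ^ b) := by ring
      have q1 : (1 : ℤ) ≤ 4 ^ a := one_le_pow₀ (by norm_num)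
      have q2 : (1 : ℤ) ≤ 4 ^ b := one_le_pow₀ (by norm_num)
      have q3 : (4 : ℤ) ^ a * 4 ^ a ≤ 4 ^ a * 4 ^ a * 4 ^ b := le_mul_of_one_le_right (by positivity) q2
      have q4 : (4 : ℤ) ^ b ≤ 4 ^ a * 4 ^ a * 4 ^ b :=
        le_mul_of_one_le_left (by positivity) (one_le_mul_of_one_le_of_one_le q1 q1)
      rw [h9]
      linarith
  -- the observable in the two coordinates
  obtain ⟨F, hF⟩ : ∃ F : ℤ → ℝ, F = fun x => ob t g (fun i => o + (s i).1) (fun i => Y i x) := ⟨_, rfl⟩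
  have F1 : ∀ x, Gf (fun A p => g (fun i => o + A i) p) (lb stK t s (3 ^ E * x + c₀)) = F x := by
    intro x
    rw [Gf_rel t _ (fun i => R1 i x), ob_shift, hF]
  have F2 : ∀ x, Gf (fun A p => g (fun i => (o - E) + A i) p) (lb stK t s' x) = F x := by
    intro x
    rw [Gf_rel t _ (fun i => R2 i x), ob_shift, hF, hs']
    simp only
    congr 1
    funext i; ring
  have hex : ex t (fun z => Gf (fun A p => g (fun i => o + A i) p) (lb stK t s z)) = ex t F := by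
    have := ex_affine t (per_Gf (fun A p => g (fun i => o + A i) p) s (le_refl t)) (pow3_odd E) c₀
    rw [← this]
    exact ex_congr F1
  have hTs := hTK s' (fun i => by rw [hs']; exact hnn i) hs'b (fun A p => g (fun i => (o - E) + A i) p)
    (fun A p => h0 _ _) (fun A p => h1 _ _) (3 ^ (m - E) * v₁) (3 ^ (m - E) * Z) (by
      refine hM.trans ?_
      have : 3 ^ (m - a) * Z ≤ 3 ^ (m - E) * Z :=
        Nat.mul_le_mul_right _ (Nat.pow_le_pow_right (by norm_num) (by omega))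
      exact_mod_cast this)
  simp only [F2] at hTs
  rw [hex]
  set S := ∑ i ∈ range Z, Gf (fun A p => g (fun i => o + A i) p) (lb stK t s (c + 3 ^ m * (v₁ + ((i : ℕ) : ℤ)))) with hS
  have hSF : S = ∑ i ∈ range Z, F (3 ^ (m - E) * v₁ + w + 3 ^ (m - E) * ((i : ℕ) : ℤ)) := by
    rw [hS]
    apply sum_congr rfl
    intro i _
    rw [← F1]
    congr 2
    rw [e3, hcw]; ring
  -- comparison of the classes
  have hkey : ∀ e ∈ range (3 ^ (m - E)), |∑ i ∈ range Z, F (3 ^ (m - E) * v₁ + ((e + 3 ^ (m - E) * i : ℕ) : ℤ)) - S| ≤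
      2 * K * η * Z := by
    intro e he
    rw [mem_range] at he
    rw [hSF, ← sum_sub_distrib]
    refine (abs_sum_le_sum_abs _ _).trans ?_
    set h : Fin K → ℤ := fun l => 3 ^ (E - (-(s l).1).toNat + (s l).1.toNat) * ((e : ℤ) - w) with hh
    have hb : ∀ l, ns k (0, h l) ≤ η := by
      intro l
      apply hη
      have a1 : |(3 : ℤ) ^ E * ((e : ℤ) - w)| ≤ 4 ^ (m + 1) := by
        have b1 : (3 : ℤ) ^ E * e < 3 ^ m := by
          rw [e3]
          apply mul_lt_mul_of_pos_left _ h3E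
          exact_mod_cast he
        have b2 : (0 : ℤ) ≤ 3 ^ E * e := by positivity
        have b3 : (0 : ℤ) ≤ 3 ^ E * w := by positivity
        have b4 : (3 : ℤ) ^ m ≤ 4 ^ m := pow_le_pow_left₀ (by norm_num) (by norm_num) m
        rw [mul_sub, abs_le, pow_succ]
        constructor <;> linarith
      have a2 : h l * 3 ^ (-(s l).1).toNat = 3 ^ (s l).1.toNat * (3 ^ E * ((e : ℤ) - w)) := by
        rw [hh]
        simp only
        have : (3 : ℤ) ^ E = 3 ^ (E - (-(s l).1).toNat) * 3 ^ (-(s l).1).toNat := by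
          rw [← pow_add]; congr 1; have := hE l; omega
        rw [pow_add, this]; ring
      have a3 : |h l| ≤ |h l * 3 ^ (-(s l).1).toNat| := by
        have b1 : (1 : ℤ) ≤ 3 ^ (-(s l).1).toNat := one_le_pow₀ (by norm_num)
        have b2 : |h l * 3 ^ (-(s l).1).toNat| = |h l| * 3 ^ (-(s l).1).toNat := by
          rw [abs_mul (h l), abs_of_pos (by positivity : (0 : ℤ) < 3 ^ (-(s l).1).toNat)]
        rw [b2]
        exact le_mul_of_one_le_right (abs_nonneg _) b1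
      refine a3.trans ?_
      rw [a2, abs_mul, abs_of_pos (by positivity : (0 : ℤ) < 3 ^ (s l).1.toNat)]
      have h2 := (hs l).1
      rw [abs_le] at h2
      have a4 : (3 : ℤ) ^ (s l).1.toNat ≤ 4 ^ a :=
        (pow_le_pow_left₀ (by norm_num) (by norm_num) _).trans (pow_le_pow_right₀ (by norm_num) (by omega))
      calc 3 ^ (s l).1.toNat * |3 ^ E * ((e : ℤ) - w)| ≤ 4 ^ a * 4 ^ (m + 1) :=
            mul_le_mul a4 a1 (abs_nonneg _) (by positivity)
        _ = 4 ^ (m + 1 + a) := by rw [← pow_add]; congr 1; omega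
    have hpt : ∀ i ∈ range Z, |F (3 ^ (m - E) * v₁ + ((e + 3 ^ (m - E) * i : ℕ) : ℤ)) -
        F (3 ^ (m - E) * v₁ + w + 3 ^ (m - E) * ((i : ℕ) : ℤ))| ≤
        ∑ l, id1 (rn stP k (0, h l) (3 ^ (E - (-(s l).1).toNat + (s l).1.toNat + (m - E)) * ((i : ℕ) : ℤ) +
          Y l (3 ^ (m - E) * v₁ + w)) ≠ (0, 0)) := by
      intro i _
      have := ob_diff hkt g h0 h1 (fun i => o + (s i).1)
        (fun l => Y l (3 ^ (m - E) * v₁ + w + 3 ^ (m - E) * ((i : ℕ) : ℤ))) h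
      have e1 : (fun l => Y l (3 ^ (m - E) * v₁ + w + 3 ^ (m - E) * ((i : ℕ) : ℤ)) + h l) =
          fun l => Y l (3 ^ (m - E) * v₁ + ((e + 3 ^ (m - E) * i : ℕ) : ℤ)) := by
        funext l
        rw [hYd, hh]
        push_cast
        ring
      rw [e1] at this
      rw [hF]
      refine this.trans (le_of_eq ?_)
      apply sum_congr rfl
      intro l _
      apply id1_congr
      have e2 : Y l (3 ^ (m - E) * v₁ + w + 3 ^ (m - E) * ((i : ℕ) : ℤ)) =
          3 ^ (E - (-(s l).1).toNat + (s l).1.toNat + (m - E)) * ((i : ℕ) : ℤ) + Y l (3 ^ (m - E) * v₁ + w) := by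
        rw [hYd, pow_add _ _ (m - E)]
        simp only
        ring
      rw [e2]
    refine (sum_le_sum hpt).trans ?_
    rw [sum_comm]
    have hcol : ∀ l ∈ (univ : Finset (Fin K)), ∑ i ∈ range Z, id1 (rn stP k (0, h l)
        (3 ^ (E - (-(s l).1).toNat + (s l).1.toNat + (m - E)) * ((i : ℕ) : ℤ) + Y l (3 ^ (m - E) * v₁ + w)) ≠ (0, 0)) ≤
        2 * η * Z := by
      intro l _
      have h4 := cnt_aff (per_ns k (0, h l)) (pow3_odd (E - (-(s l).1).toNat + (s l).1.toNat + (m - E)))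
        (Y l (3 ^ (m - E) * v₁ + w)) Z
      refine h4.trans ?_
      have h6 : ((Z : ℝ) + 2 ^ k) ≤ 2 * Z := by
        have : ((2 : ℝ) ^ k) ≤ Z := by exact_mod_cast hZ
        linarith
      have h7 := hb l
      calc ((Z : ℝ) + 2 ^ k) * pb k (fun y => rn stP k (0, h l) y ≠ (0, 0)) ≤ (2 * Z) * η :=
            mul_le_mul h6 h7 (pb_nonneg _ _) (by positivity)
        _ = 2 * η * Z := by ring
    refine (sum_le_sum hcol).trans (le_of_eq ?_)
    rw [sum_const, card_univ, Fintype.card_fin, nsmul_eq_mul]; ring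
  -- conclusion
  have hTs2 : |∑ e ∈ range (3 ^ (m - E)), ∑ i ∈ range Z, F (3 ^ (m - E) * v₁ + ((e + 3 ^ (m - E) * i : ℕ) : ℤ)) -
      3 ^ (m - E) * (Z * ex t F)| ≤ 3 ^ (m - E) * (ε * Z) := by
    have e4 : ∑ v ∈ range (3 ^ (m - E) * Z), F (3 ^ (m - E) * v₁ + ((v : ℕ) : ℤ)) =
        ∑ e ∈ range (3 ^ (m - E)), ∑ i ∈ range Z, F (3 ^ (m - E) * v₁ + ((e + 3 ^ (m - E) * i : ℕ) : ℤ)) := by
      rw [sum_block, sum_comm]
    rw [e4] at hTs
    push_cast at hTs ⊢
    have e5 : (3 : ℝ) ^ (m - E) * (Z * ex t F) = 3 ^ (m - E) * Z * ex t F := by ring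
    have e6 : (3 : ℝ) ^ (m - E) * (ε * Z) = ε * (3 ^ (m - E) * Z) := by ring
    rw [e5, e6]
    exact hTs
  have hp : (0 : ℝ) < 3 ^ (m - E) := by positivity
  have hsum : |∑ e ∈ range (3 ^ (m - E)), ∑ i ∈ range Z, F (3 ^ (m - E) * v₁ + ((e + 3 ^ (m - E) * i : ℕ) : ℤ)) -
      3 ^ (m - E) * S| ≤ 3 ^ (m - E) * (2 * K * η * Z) := by
    have e7 : (3 : ℝ) ^ (m - E) * S = ∑ e ∈ range (3 ^ (m - E)), S := by
      rw [sum_const, card_range, nsmul_eq_mul]; push_cast; ring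
    rw [e7, ← sum_sub_distrib]
    refine (abs_sum_le_sum_abs _ _).trans ((sum_le_sum hkey).trans (le_of_eq ?_))
    rw [sum_const, card_range, nsmul_eq_mul]; push_cast; ring
  have hfin : |3 ^ (m - E) * (S - Z * ex t F)| ≤ 3 ^ (m - E) * ((2 * K * η + ε) * Z) := by
    rw [abs_le] at hsum hTs2 ⊢
    constructor <;> linarith [hsum.1, hsum.2, hTs2.1, hTs2.2]
  rw [abs_mul, abs_of_pos hp] at hfin
  exact le_of_mul_le_mul_left hfin hp

end Pool.Agent.J4H39
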