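import Mathlib
import Pool.Agent.J4H39.K4

set_option autoImplicit false

/-! Tuples of trajectories: one step of the transfer, the transfer to long intervals. -/

namespace Pool.Agent.J4H39

open Finset Filter Real

/-- the observable after `j` steps -/
noncomputable def gK {K : ℕ} (t : ℕ) (g : (Fin K → ℤ) → (Fin K → Fin K → Prop) → ℝ) (μ : ℕ × (Fin K → ℤ × ℤ)) (z : ℤ) : ℝ :=
  Gf (fun A p => g (fun i => (μ.1 : ℤ) + A i) p) (lb stK t μ.2 z)

theorem gK_step {K : ℕ} (j t : ℕ) (g : (Fin K → ℤ) → (Fin K → Fin K → Prop) → ℝ) (s : Fin K → ℤ × ℤ) (y : ℤ) :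
    Gf g (lb stK (j + t) s y) = gK t g (lb stK j s y) (T^[j] y) := by
  unfold gK Gf lb
  simp only
  rw [rn_comp, od_comp]
  congr 1
  funext i
  push_cast; ring

theorem gK_tower {K : ℕ} (j t : ℕ) (g : (Fin K → ℤ) → (Fin K → Fin K → Prop) → ℝ) (s : Fin K → ℤ × ℤ) :
    ex (j + t) (fun y => Gf g (lb stK (j + t) s y)) = ex j (fun w => ex t (gK t g (lb stK j s w))) := by
  have h := ex_pair j t (fun y z => gK t g (lb stK j s y) z) ?_ ?_
  · rw [← h]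
    exact ex_congr fun y => gK_step j t g s y
  · intro z x u
    simp only
    rw [per_lb stK s (le_refl j) x u]
  · intro y
    unfold gK
    exact per_Gf _ _ (le_refl t)

/-- the companion of a state with a non-negative exponent -/
theorem rel_pos {s : ℤ × ℤ} (h : 0 ≤ s.1) (x : ℤ) : Rel s x (3 ^ s.1.toNat * x + s.2) := by
  unfold Rel
  rw [show (-s.1).toNat = 0 by omega]; ring

/-- One step of the transfer for tuples. -/
theorem stepK {K j t k m a b o₀ : ℕ} {M ε η : ℝ} (hTK : TK K t (2 * a) (2 * a + b + 1) M ε) (hkt : k ≤ t)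
    (ham : a ≤ m) (hbm : b ≤ m) (hmk : m + k ≤ o₀) {s : Fin K → ℤ × ℤ} (hs0 : ∀ i, 0 ≤ (s i).1)
    {g : (Fin K → ℤ) → (Fin K → Fin K → Prop) → ℝ} (h0 : ∀ A p, 0 ≤ g A p) (h1 : ∀ A p, g A p ≤ 1)
    (v₀ : ℤ) {Y : ℕ} (hY : 1 ≤ Y) (hM : M ≤ ((3 ^ (o₀ - a) * Y : ℕ) : ℝ))
    (hη : ∀ r : ℤ, |r| ≤ 4 ^ (m + 1 + a) → ns k (0, r) ≤ η) (hε : 0 ≤ ε) :
    |∑ u ∈ range (2 ^ j * Y), Gf g (lb stK (j + t) s (2 ^ j * v₀ + (u : ℕ))) -
      2 ^ j * Y * ex (j + t) (fun y => Gf g (lb stK (j + t) s y))| ≤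
      2 ^ j * Y * (DV stK j s m + (2 * K * η + ε) +
        pb j (fun w => ¬ (o₀ ≤ od j w ∧ GK a b (rn stK j s w)))) := by
  have hη0 : 0 ≤ η := (ns_nonneg k (0, 0)).trans (hη 0 (by simp))
  have key := stage stK s (j := j) (m := m) (gK t g) (fun μ z => h0 _ _) (fun μ z => h1 _ _)
    (fun μ => ex t (gK t g μ)) (fun μ => ex_nonneg fun _ => h0 _ _)
    (fun μ => by
      have := ex_mono (j := t) (f := gK t g μ) (g := fun _ => 1) (fun x => h1 _ _)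
      rwa [ex_const] at this)
    v₀ Y (δ := 2 * K * η + ε) (by positivity)
    (fun μ => o₀ ≤ μ.1 ∧ GK a b μ.2) (fun μ hμ => by omega) (by
      intro w hw hgood c hc0 hc1 hd
      obtain ⟨hg1, hg2⟩ := hgood
      set o := (lb stK j s ((w : ℕ) : ℤ)).1 with ho
      have hrel : ∀ i, ∃ y', Rel ((lb stK j s ((w : ℕ) : ℤ)).2 i) (T^[j] ((w : ℕ) : ℤ)) y' := by
        intro i
        refine ⟨T^[j] (3 ^ (s i).1.toNat * ((w : ℕ) : ℤ) + (s i).2), ?_⟩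
        have := (rel_rn (rel_pos (hs0 i) ((w : ℕ) : ℤ)) j).1
        unfold lb
        simp only [rn_stK_apply]
        exact this
      exact t_CLASS K t k m a b M ε η hTK hkt (lb stK j s ((w : ℕ) : ℤ)).2 hg2 ham hbm (T^[j] ((w : ℕ) : ℤ)) hrel c hc0 hc1 hd
        (3 ^ (o - m) * v₀) (3 ^ (o - m) * Y) (by
          calc 2 ^ k ≤ 3 ^ k := Nat.pow_le_pow_left (by norm_num) k
            _ ≤ 3 ^ (o - m) := Nat.pow_le_pow_right (by norm_num) (by omega)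
            _ ≤ 3 ^ (o - m) * Y := Nat.le_mul_of_pos_right _ hY) (by
          refine hM.trans ?_
          have : 3 ^ (o₀ - a) * Y ≤ 3 ^ (m - a) * (3 ^ (o - m) * Y) := by
            rw [← mul_assoc, ← pow_add]
            apply Nat.mul_le_mul_right
            apply Nat.pow_le_pow_right (by norm_num)
            omega
          exact_mod_cast this) hη g h0 h1 (o : ℤ))
  have e1 : ex j (fun w => ∑ v ∈ range Y, gK t g (lb stK j s w) (T^[j] w % 3 ^ od j w + 3 ^ od j w * (v₀ + (v : ℕ)))) =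
      (∑ u ∈ range (2 ^ j * Y), Gf g (lb stK (j + t) s (2 ^ j * v₀ + (u : ℕ)))) / 2 ^ j := by
    unfold ex
    congr 1
    rw [sum_block, sum_comm]
    apply sum_congr rfl
    intro v _
    apply sum_congr rfl
    intro w hw
    rw [mem_range] at hw
    rw [T_mod j (by positivity) (by exact_mod_cast hw), ← T_add]
    have h3 : lb stK j s ((w : ℕ) : ℤ) = lb stK j s (((w : ℕ) : ℤ) + 2 ^ j * (v₀ + (v : ℕ))) :=
      (per_lb stK s (le_refl j) ((w : ℕ) : ℤ) (v₀ + (v : ℕ))).symm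
    rw [h3, ← gK_step]
    have h4 : ((w : ℕ) : ℤ) + 2 ^ j * (v₀ + (v : ℕ)) = 2 ^ j * v₀ + ((w + 2 ^ j * v : ℕ) : ℤ) := by push_cast; ring
    rw [h4]
  rw [e1] at key
  rw [← gK_tower] at key
  have h2j : (0 : ℝ) < 2 ^ j := by positivity
  set A := ∑ u ∈ range (2 ^ j * Y), Gf g (lb stK (j + t) s (2 ^ j * v₀ + (u : ℕ))) with hA
  set B := ex (j + t) (fun y => Gf g (lb stK (j + t) s y)) with hB
  have h5 : A - 2 ^ j * Y * B = 2 ^ j * (A / 2 ^ j - Y * B) := by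
    field_simp
  rw [h5, abs_mul, abs_of_pos h2j, mul_assoc (2 ^ j : ℝ) (Y : ℝ)]
  exact mul_le_mul_of_nonneg_left key h2j.le

theorem TTK_mono {K : ℕ} {κ κ' : ℝ} (h : κ ≤ κ') (hT : TTK K κ) : TTK K κ' := by
  intro ε hε c
  obtain ⟨t₀, ht₀⟩ := hT ε hε c
  refine ⟨t₀, fun t ht z hz s hs0 hs g h0 h1 x X hX => ht₀ t ht z hz s hs0 hs g h0 h1 x X (le_trans ?_ hX)⟩
  apply Real.rpow_le_rpow_of_exponent_le (by norm_num)
  exact mul_le_mul_of_nonneg_right h (by positivity)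

/-- sums of periodic functions over intervals -/
theorem per_sum {t : ℕ} {f : ℤ → ℝ} (hf : Per t f) (h0 : ∀ y, 0 ≤ f y) (h1 : ∀ y, f y ≤ 1) (x : ℤ) (X : ℕ) :
    |∑ v ∈ range X, f (x + (v : ℕ)) - X * ex t f| ≤ 4 * 2 ^ t := by
  have hcmp := block_cmp h0 h1 t x X
  have e1 : ∑ u ∈ range (2 ^ t * (X / 2 ^ t)), f (2 ^ t * (x / 2 ^ t) + (u : ℕ)) = 2 ^ t * (X / 2 ^ t : ℕ) * ex t f := by
    rw [sum_block]
    have e2 : ∀ b' ∈ range (X / 2 ^ t), ∑ c₀ ∈ range (2 ^ t), f (2 ^ t * (x / 2 ^ t) + ((c₀ + 2 ^ t * b' : ℕ) : ℤ)) =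
        2 ^ t * ex t f := by
      intro b' _
      unfold ex
      rw [mul_div_cancel₀ _ (by positivity)]
      apply sum_congr rfl
      intro c₀ _
      have := hf ((c₀ : ℕ) : ℤ) (x / 2 ^ t + b')
      rw [← this]
      congr 1
      push_cast; ring
    rw [sum_congr rfl e2, sum_const, card_range, nsmul_eq_mul]; ring
  rw [e1] at hcmp
  have hex0 : 0 ≤ ex t f := ex_nonneg h0
  have hex1 : ex t f ≤ 1 := by
    have := ex_mono (j := t) (f := f) (g := fun _ => 1) h1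
    rwa [ex_const] at this
  have hB : 2 ^ t * (X / 2 ^ t) ≤ X := Nat.mul_div_le X (2 ^ t)
  have hXB : X < 2 ^ t * (X / 2 ^ t) + 2 ^ t := by
    have := Nat.lt_div_mul_add (a := X) (b := 2 ^ t) (by positivity)
    rw [mul_comm] at this
    exact this
  have hBr : (2 : ℝ) ^ t * ((X / 2 ^ t : ℕ) : ℝ) ≤ X := by exact_mod_cast hB
  have hXBr : (X : ℝ) ≤ 2 ^ t * ((X / 2 ^ t : ℕ) : ℝ) + 2 ^ t := by exact_mod_cast hXB.le
  have h2t : (0 : ℝ) < 2 ^ t := by positivity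
  have h3 : |(2 : ℝ) ^ t * ((X / 2 ^ t : ℕ) : ℝ) * ex t f - X * ex t f| ≤ 2 ^ t := by
    rw [← sub_mul, abs_mul, abs_of_nonneg hex0]
    have : |(2 : ℝ) ^ t * ((X / 2 ^ t : ℕ) : ℝ) - X| ≤ 2 ^ t := by rw [abs_le]; constructor <;> linarith
    calc |(2 : ℝ) ^ t * ((X / 2 ^ t : ℕ) : ℝ) - X| * ex t f ≤ 2 ^ t * 1 := mul_le_mul this hex1 hex0 h2t.le
      _ = 2 ^ t := mul_one _
  have := abs_sub_le (∑ v ∈ range X, f (x + (v : ℕ))) (2 ^ t * ((X / 2 ^ t : ℕ) : ℝ) * ex t f) (X * ex t f)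
  linarith

theorem TTK_base (K : ℕ) : TTK K 2 := by
  intro ε hε c
  obtain ⟨t₀, ht₀⟩ := pow_unbounded_of_one_lt (4 / ε) (by norm_num : (1 : ℝ) < 2)
  refine ⟨t₀, fun t ht z hz s hs0 hs g h0 h1 x X hX => ?_⟩
  have h3 : 4 / ε ≤ (2 : ℝ) ^ t := ht₀.le.trans (pow_le_pow_right₀ (by norm_num) ht)
  refine (per_sum (per_Gf g s (le_refl t)) (fun y => h0 _ _) (fun y => h1 _ _) x X).trans ?_
  have a1 : ((2 : ℝ) ^ (2 * (t : ℝ))) = 2 ^ t * 2 ^ t := by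
    rw [two_mul, Real.rpow_add (by norm_num), Real.rpow_natCast]
  rw [a1] at hX
  rw [div_le_iff₀ hε] at h3
  have h2t : (0 : ℝ) < 2 ^ t := by positivity
  calc 4 * (2 : ℝ) ^ t ≤ (2 ^ t * ε) * 2 ^ t := mul_le_mul_of_nonneg_right h3 h2t.le
    _ = ε * (2 ^ t * 2 ^ t) := by ring
    _ ≤ ε * X := mul_le_mul_of_nonneg_left hX hε.le

end Pool.Agent.J4H39
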