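import Mathlib
import Pool.Agent.J4H39.K5

set_option autoImplicit false

/-! Tuples of trajectories: iteration of the step. -/

namespace Pool.Agent.J4H39

open Finset Filter Real

theorem TK_mono {K t a b a' b' : ℕ} {M ε : ℝ} (ha : a ≤ a') (hb : b ≤ b') (h : TK K t a' b' M ε) : TK K t a b M ε :=
  fun s hs0 hs g h0 h1 x X hX => h s hs0 (GK_mono ha hb hs) g h0 h1 x X hX

theorem scaleGK {K c c₁ z z₁ : ℕ} (hc₁ : c₁ = 4782969 * c) (hzz : z ≤ 3 * z₁) {s : Fin K → ℤ × ℤ}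
    (hs : GK (c * z ^ 12) (c * z ^ 14) s) : GK (c₁ * z₁ ^ 12) (c₁ * z₁ ^ 14) s := fun i => scaleGS hc₁ hzz (hs i)

/-- the step for fixed parameters -/
theorem TTK_fixed {K : ℕ} {θ Δ κ κ' ε : ℝ} (hΔ : κ = θ + Δ) (hκ' : κ' = θ + 9 / 10 * Δ) (hΔ0 : 0 < Δ) (hε : 0 < ε)
    (hθ : θ = th0) {t j z₁ c₁ c₂ c₃ : ℕ} (ht : 10 ≤ t) (hj : j = t / 5) (hr1 : z₁ ^ 20 ≤ j)
    (h40 : 40 ≤ z₁) (hc : c₂ ≤ z₁) (hc₃ : c₃ = 3 * c₂ + 1)
    (g1 : 8 / ε ≤ (2 : ℝ) ^ ((θ - 1 / 5) * t)) (g2 : 2 ≤ (2 : ℝ) ^ ((θ - 1 / 5) * t))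
    (hTK : TK K (t - j) (c₃ * z₁ ^ 12) (c₃ * z₁ ^ 14) ((2 : ℝ) ^ (κ * ((t - j : ℕ) : ℝ))) (ε / 16))
    (hpoly : 2 * (c₂ + 1) * (z₁ : ℝ) ^ 12 + 1 ≤ Δ * ((z₁ : ℝ) ^ 20 / 10 - 1))
    (hDV : ∀ s : Fin K → ℤ × ℤ, GK (c₁ * z₁ ^ 12) (c₁ * z₁ ^ 14) s → Cm s → DV stK j s (z₁ ^ 19) ≤ ε / 16)
    (hlab : ∀ s : Fin K → ℤ × ℤ, GK (c₁ * z₁ ^ 12) (c₁ * z₁ ^ 14) s → pb j (fun w => ¬ ((j - z₁ ^ 11) / 2 ≤ od j w ∧
      GK (c₂ * z₁ ^ 12) (c₂ * z₁ ^ 14) (rn stK j s w))) ≤ ε / 16)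
    (heta : ∀ r : ℤ, |r| ≤ 4 ^ (z₁ ^ 19 + 1 + c₂ * z₁ ^ 12) → ns (j / 8) (0, r) ≤ ε / (32 * (K + 1))) :
    TK K t (c₁ * z₁ ^ 12) (c₁ * z₁ ^ 14) ((2 : ℝ) ^ (κ' * t)) ε := by
  intro s hs0 hs g h0 h1 x X hX
  have hth := th0_gt
  have hth1 := th0_lt
  obtain ⟨ham, hbm, hmk, hA⟩ := nat_facts h40 hc hr1
  obtain ⟨t', ht'⟩ : ∃ t', t' = t - j := ⟨_, rfl⟩
  rw [← ht'] at hTK
  have hjt : j + t' = t := by omega
  have hj5 : (j : ℝ) ≤ t / 5 := by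
    have : 5 * j ≤ t := by omega
    have : (5 : ℝ) * j ≤ t := by exact_mod_cast this
    linarith
  have hj5' : (t : ℝ) / 5 - 1 ≤ j := by
    have : t ≤ 5 * j + 4 := by omega
    have : (t : ℝ) ≤ 5 * j + 4 := by exact_mod_cast this
    linarith
  obtain ⟨hX2, hX3⟩ := size_fact hκ' hΔ0 hε hj5 g1 g2 hX
  have hX3n : 2 * 2 ^ j ≤ X := by exact_mod_cast hX3
  obtain ⟨Y, hY⟩ : ∃ Y, Y = X / 2 ^ j := ⟨_, rfl⟩
  have hY1 : 1 ≤ Y := by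
    rw [hY, Nat.one_le_div_iff (by positivity)]
    omega
  have hYX : 2 ^ j * Y ≤ X := by rw [hY]; exact Nat.mul_div_le X (2 ^ j)
  have hXY : X < 2 ^ j * Y + 2 ^ j := by
    have := Nat.lt_div_mul_add (a := X) (b := 2 ^ j) (by positivity)
    rw [mul_comm, ← hY] at this
    exact this
  have hYXr : (2 : ℝ) ^ j * Y ≤ X := by exact_mod_cast hYX
  have hXYr : (X : ℝ) ≤ 2 ^ j * Y + 2 ^ j := by exact_mod_cast hXY.le
  have hM := len_fact (A := (j - z₁ ^ 11) / 2 - c₂ * z₁ ^ 12) (W := 2 * (c₂ + 1) * (z₁ : ℝ) ^ 12) hΔ hκ' hΔ0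
    (by rw [hθ]; linarith) (by rw [hθ]; linarith) hθ (by positivity) hjt hj5' (by exact_mod_cast hA) (by
      refine hpoly.trans ?_
      apply mul_le_mul_of_nonneg_left _ hΔ0.le
      have h1 : z₁ ^ 20 ≤ t := hr1.trans (by omega)
      have : (z₁ : ℝ) ^ 20 ≤ t := by exact_mod_cast h1
      linarith) hX hXYr hY1
  have hTK' : TK K t' (2 * (c₂ * z₁ ^ 12)) (2 * (c₂ * z₁ ^ 12) + c₂ * z₁ ^ 14 + 1) ((2 : ℝ) ^ (κ * (t' : ℝ))) (ε / 16) := by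
    apply TK_mono _ _ hTK
    · rw [hc₃, ← mul_assoc]
      exact Nat.mul_le_mul_right _ (by omega)
    · have p12 : z₁ ^ 12 ≤ z₁ ^ 14 := Nat.pow_le_pow_right (by omega) (by norm_num)
      have p0 : 1 ≤ z₁ ^ 14 := Nat.one_le_pow _ _ (by omega)
      have q1 : c₂ * z₁ ^ 12 ≤ c₂ * z₁ ^ 14 := Nat.mul_le_mul_left _ p12
      have e : c₃ * z₁ ^ 14 = 3 * (c₂ * z₁ ^ 14) + z₁ ^ 14 := by rw [hc₃]; ring
      rw [e]
      omega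
  have key := stepK (j := j) (t := t') (k := j / 8) (m := z₁ ^ 19) (o₀ := (j - z₁ ^ 11) / 2)
    (η := ε / (32 * (K + 1))) hTK' (by omega) ham hbm hmk hs0 h0 h1 (x / 2 ^ j) hY1 hM heta (by positivity)
  rw [hjt] at key
  have hcmp := block_cmp (f := fun u => Gf g (lb stK t s u)) (fun _ => h0 _ _)
    (fun _ => h1 _ _) j x X
  rw [← hY] at hcmp
  obtain ⟨P, hP⟩ : ∃ P : ℝ, P = ex t (fun y => Gf g (lb stK t s y)) := ⟨_, rfl⟩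
  have hP0 : 0 ≤ P := by rw [hP]; exact ex_nonneg fun _ => h0 _ _
  have hP1 : P ≤ 1 := by
    rw [hP]
    have := ex_mono (j := t) (f := fun y => Gf g (lb stK t s y)) (g := fun _ => 1) (fun x => h1 _ _)
    rwa [ex_const] at this
  rw [← hP] at key ⊢
  have hfin := final_fact (p := 1 - P) (by linarith) (by linarith) hε hcmp (Y2 := 2 ^ j * Y) (X2 := X) ?_ hYXr hXYr hX2
  · rw [sub_sub_cancel] at hfin
    exact hfin
  · rw [sub_sub_cancel]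
    refine key.trans ?_
    apply mul_le_mul_of_nonneg_left _ (by positivity)
    have d1 := hDV _ hs (Cm_nonneg hs0)
    have d2 := hlab _ hs
    have d3 : 2 * (K : ℝ) * (ε / (32 * (K + 1))) ≤ ε / 16 := by
      have hK : (0 : ℝ) ≤ K := by positivity
      rw [mul_div_assoc', div_le_div_iff₀ (by positivity) (by norm_num)]
      nlinarith
    linarith

theorem TTK_step (hD : S_DV) (hL : S_LAB) {K : ℕ} {κ : ℝ} (hκ : th0 < κ) (h : TTK K κ) :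
    TTK K (th0 + 9 / 10 * (κ - th0)) := by
  intro ε hε c
  have hΔ0 : 0 < κ - th0 := by linarith
  have hθ5 := th0_gt
  obtain ⟨c₁, hc₁⟩ : ∃ c₁ : ℕ, c₁ = 4782969 * c := ⟨_, rfl⟩
  obtain ⟨c₂, hc₂⟩ : ∃ c₂ : ℕ, c₂ = 2 * c₁ + 4 := ⟨_, rfl⟩
  obtain ⟨c₃, hc₃⟩ : ∃ c₃ : ℕ, c₃ = 3 * c₂ + 1 := ⟨_, rfl⟩
  obtain ⟨t₁, ht₁⟩ := h (ε / 16) (by positivity) c₃
  have hl := hL K c₁ (ε / 16) (by positivity)
  have he := eta_small c₁ (ε := ε / (32 * (K + 1))) (by positivity)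
  rw [← hc₂] at hl he
  obtain ⟨z₀, hz₀⟩ := eventually_atTop.1 (((hD K c₁ (ε / 16) (by positivity)).and
    (hl.and he)).and
    ((poly_ev (2 * (c₂ + 1)) hΔ0).and ((eventually_ge_atTop 40).and (eventually_ge_atTop c₂))))
  obtain ⟨t₂, ht₂⟩ := eventually_atTop.1 ((exp_beats (8 / ε) (show 0 < th0 - 1 / 5 by linarith)).and
    (exp_beats 2 (show 0 < th0 - 1 / 5 by linarith)))
  refine ⟨max (max t₂ (2 * t₁)) (5 * z₀ ^ 20 + 200), fun t ht z hz s hs0 hs => ?_⟩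
  rw [max_le_iff, max_le_iff] at ht
  obtain ⟨⟨ht2, ht1⟩, ht3⟩ := ht
  obtain ⟨g1, g2⟩ := ht₂ t ht2
  obtain ⟨j, hj⟩ : ∃ j, j = t / 5 := ⟨_, rfl⟩
  obtain ⟨z₁, hr1, hr2⟩ := root20 j
  have hz₁ : z₀ ≤ z₁ := by
    by_contra hcon
    push Not at hcon
    have := Nat.pow_le_pow_left (show z₁ + 1 ≤ z₀ by omega) 20
    omega
  obtain ⟨⟨e1, e2, e3⟩, e4, e5, e6⟩ := hz₀ z₁ hz₁
  have hj2 : j ≤ 2 * z₁ ^ 20 := hr2.le.trans (succ20 e5)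
  have hzz := scale20 (by omega) hj hz hr2 e5
  have hz1t : z₁ ^ 20 ≤ t - j := hr1.trans (by omega)
  exact TTK_fixed (θ := th0) (Δ := κ - th0) (κ := κ) (by ring) rfl hΔ0 hε rfl (by omega) hj hr1 e5 e6 hc₃ g1 g2
    (ht₁ (t - j) (by omega) z₁ hz1t) e4 (fun s hs => e1 j hr1 hj2 s hs) (fun s hs => e2 j hr1 hj2 s hs)
    (fun r hr => e3 j hr1 hj2 r hr) s hs0 (scaleGK hc₁ hzz hs)

/-- The transfer theorem for tuples. -/
theorem t_TTK (hD : S_DV) (hL : S_LAB) : S_TTK := by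
  intro K κ hκ
  have hth := th0_lt
  have h1 : ∀ n : ℕ, TTK K (th0 + (9 / 10) ^ n * (2 - th0)) := by
    intro n
    induction n with
    | zero => rw [pow_zero, one_mul, add_sub_cancel]; exact TTK_base K
    | succ n ih =>
      have h2 : 0 < (9 / 10 : ℝ) ^ n * (2 - th0) := mul_pos (by positivity) (by linarith)
      have h3 := TTK_step hD hL (by linarith) ih
      rw [add_sub_cancel_left] at h3
      rw [pow_succ]
      have e : (9 / 10 : ℝ) ^ n * (9 / 10) * (2 - th0) = 9 / 10 * ((9 / 10) ^ n * (2 - th0)) := by ring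
      rw [e]; exact h3
  obtain ⟨n, hn⟩ := exists_pow_lt_of_lt_one (show 0 < (κ - th0) / (2 - th0) by
    apply div_pos <;> linarith) (show (9 / 10 : ℝ) < 1 by norm_num)
  rw [lt_div_iff₀ (by linarith)] at hn
  exact TTK_mono (by linarith) (h1 n)

end Pool.Agent.J4H39
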