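import Mathlib
import Pool.Agent.J4H39.E1

set_option autoImplicit false

namespace Pool.Agent.J4H39

open Finset Filter Real

/-! Popular values. -/

theorem pop (T : Finset ℕ) (f : ℕ → ℤ) : ∃ v : ℤ, 0 ≤ (#T : ℝ) - #{i ∈ T | f i = v} ∧
    ((#T : ℝ) - #{i ∈ T | f i = v}) ^ 2 ≤ ∑ i ∈ T, ∑ j ∈ T, id1 (f i ≠ f j) := by
  have hle : ∀ v, (#{i ∈ T | f i = v} : ℝ) ≤ #T := fun v => by exact_mod_cast card_filter_le _ _
  rcases T.eq_empty_or_nonempty with h | h
  · subst h
    exact ⟨0, by simp, by simp⟩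
  · obtain ⟨i₀, hi₀, hmax⟩ := exists_max_image T (fun i => #{j ∈ T | f j = f i}) h
    refine ⟨f i₀, by have := hle (f i₀); linarith, ?_⟩
    obtain ⟨c, hc⟩ : ∃ c : ℝ, c = #{i ∈ T | f i = f i₀} := ⟨_, rfl⟩
    rw [← hc]
    have hc1 : c ≤ #T := by rw [hc]; exact hle _
    have hc0 : 0 ≤ c := by rw [hc]; positivity
    have key : ∀ i ∈ T, (#T : ℝ) - c ≤ ∑ j ∈ T, id1 (f i ≠ f j) := by
      intro i hi
      have h1 : ∑ j ∈ T, id1 (f i ≠ f j) = #T - #{j ∈ T | f j = f i} := by
        have h2 : ∀ j ∈ T, id1 (f i ≠ f j) = 1 - (if f j = f i then (1 : ℝ) else 0) := by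
          intro j _
          by_cases hh : f j = f i
          · rw [if_pos hh, id1_neg (by rw [hh]; simp)]; ring
          · rw [if_neg hh, id1_pos (Ne.symm hh)]; ring
        rw [sum_congr rfl h2, sum_sub_distrib, sum_const, nsmul_eq_mul, mul_one, sum_boole]
      rw [h1]
      have h3 : (#{j ∈ T | f j = f i} : ℝ) ≤ c := by rw [hc]; exact_mod_cast hmax i hi
      linarith
    calc ((#T : ℝ) - c) ^ 2 = (#T - c) * (#T - c) := sq _
      _ ≤ #T * (#T - c) := mul_le_mul_of_nonneg_right (by linarith) (by linarith)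
      _ = ∑ i ∈ T, ((#T : ℝ) - c) := by rw [sum_const, nsmul_eq_mul]
      _ ≤ _ := sum_le_sum key

theorem blockV (b : ℕ) (f : ℕ → ℤ) (β : ℕ → ℕ) (J : Finset ℕ) : ∃ V : Finset ℤ, #V ≤ #J ∧
    (#{i ∈ range b | f i ∉ V} : ℝ) ≤ #{i ∈ range b | β i ∉ J} +
      √(#J * ∑ i ∈ range b, ∑ j ∈ range b, id1 (β i = β j) * id1 (f i ≠ f j)) := by
  choose v hv0 hv1 using fun j : ℕ => pop {i ∈ range b | β i = j} f
  refine ⟨J.image v, card_image_le, ?_⟩
  obtain ⟨a, ha⟩ : ∃ a : ℕ → ℝ, a = fun j => (#{i ∈ range b | β i = j} : ℝ) - #{i ∈ {i ∈ range b | β i = j} | f i = v j} := ⟨_, rfl⟩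
  have h1 : (#{i ∈ range b | f i ∉ J.image v} : ℝ) ≤ #{i ∈ range b | β i ∉ J} + ∑ j ∈ J, a j := by
    have h2 : {i ∈ range b | f i ∉ J.image v} ⊆ {i ∈ range b | β i ∉ J} ∪
        J.biUnion (fun j => {i ∈ {i ∈ range b | β i = j} | f i ≠ v j}) := by
      intro i hi
      rw [mem_filter] at hi
      rw [mem_union, mem_filter, mem_biUnion]
      by_cases hβ : β i ∈ J
      · right
        refine ⟨β i, hβ, ?_⟩
        rw [mem_filter, mem_filter]
        refine ⟨⟨hi.1, rfl⟩, fun hh => hi.2 ?_⟩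
        rw [hh]; exact mem_image_of_mem v hβ
      · left; exact ⟨hi.1, hβ⟩
    have h3 := (card_le_card h2).trans ((card_union_le _ _).trans (Nat.add_le_add_left card_biUnion_le _))
    have h4 : (#{i ∈ range b | f i ∉ J.image v} : ℝ) ≤ #{i ∈ range b | β i ∉ J} +
        ∑ j ∈ J, (#{i ∈ {i ∈ range b | β i = j} | f i ≠ v j} : ℝ) := by exact_mod_cast h3
    refine h4.trans (le_of_eq ?_)
    congr 1
    apply sum_congr rfl
    intro j _
    rw [ha]
    simp only
    have h5 := card_filter_add_card_filter_not (s := {i ∈ range b | β i = j}) (fun i => f i = v j)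
    have h6 : (#{i ∈ {i ∈ range b | β i = j} | f i = v j} : ℝ) + #{i ∈ {i ∈ range b | β i = j} | ¬ f i = v j} =
        #{i ∈ range b | β i = j} := by exact_mod_cast h5
    linarith
  have h7 : (∑ j ∈ J, a j) ^ 2 ≤ #J * ∑ i ∈ range b, ∑ j ∈ range b, id1 (β i = β j) * id1 (f i ≠ f j) := by
    refine sq_sum_le_card_mul_sum_sq.trans ?_
    apply mul_le_mul_of_nonneg_left _ (by positivity)
    have h8 : ∑ j ∈ J, a j ^ 2 ≤ ∑ j ∈ J, ∑ i ∈ range b, ∑ i' ∈ range b, id1 (β i = j) * (id1 (β i' = j) * id1 (f i ≠ f i')) := by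
      apply sum_le_sum
      intro j _
      have h9 := hv1 j
      rw [ha]
      refine h9.trans (le_of_eq ?_)
      rw [sum_filter]
      apply sum_congr rfl
      intro i _
      by_cases hh : β i = j
      · rw [if_pos hh, id1_pos hh, sum_filter]
        apply sum_congr rfl
        intro i' _
        by_cases hh' : β i' = j
        · rw [if_pos hh', id1_pos hh', one_mul, one_mul]
        · rw [if_neg hh', id1_neg hh', zero_mul, mul_zero]
      · rw [if_neg hh, id1_neg hh]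
        symm
        apply sum_eq_zero
        intro _ _
        rw [zero_mul]
    refine h8.trans ?_
    rw [sum_comm]
    apply sum_le_sum
    intro i _
    rw [sum_comm]
    apply sum_le_sum
    intro i' _
    have h10 : ∀ j ∈ J, id1 (β i = j) * (id1 (β i' = j) * id1 (f i ≠ f i')) =
        (if β i = j then id1 (β i = β i') * id1 (f i ≠ f i') else 0) := by
      intro j _
      by_cases hh : β i = j
      · rw [if_pos hh, id1_pos hh, one_mul]
        congr 1
        apply id1_congr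
        rw [hh]; exact eq_comm
      · rw [if_neg hh, id1_neg hh, zero_mul]
    rw [sum_congr rfl h10, sum_ite_eq]
    split_ifs
    · exact le_rfl
    · exact mul_nonneg (id1_nonneg _) (id1_nonneg _)
  have h11 : ∑ j ∈ J, a j ≤ √(#J * ∑ i ∈ range b, ∑ j ∈ range b, id1 (β i = β j) * id1 (f i ≠ f j)) :=
    Real.le_sqrt_of_sq_le h7
  linarith

end Pool.Agent.J4H39
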