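import Mathlib
import Pool.Agent.J4H39.M7
import Pool.Agent.J4H39.M6

set_option autoImplicit false

namespace Pool.Agent.J4H39

open Finset Filter Real

/-! Pairs in a common bin. -/

theorem p_neg (n : ℕ) : ∀ d : ℤ, p n (-d) = p n d := by
  induction n with
  | zero => intro d; unfold p; simp only [neg_eq_zero]
  | succ n ih =>
    intro d
    rw [p_succ, p_succ]
    have h1 := ih (d - 1)
    have h2 := ih (d + 1)
    have e1 : -(d - 1) = -d + 1 := by ring
    have e2 : -(d + 1) = -d - 1 := by ring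
    rw [e1] at h1
    rw [e2] at h2
    rw [h1, h2]; ring

theorem p_le {n : ℕ} (hn : 1 ≤ n) (d : ℤ) : p n d ≤ 2 / √ n := by
  rcases le_total 0 d with h | h
  · obtain ⟨i, rfl⟩ := Int.eq_ofNat_of_zero_le h
    exact p_le_U hn i
  · obtain ⟨i, hi⟩ := Int.eq_ofNat_of_zero_le (show 0 ≤ -d by omega)
    rw [← p_neg, hi]
    exact p_le_U hn i

theorem Av_ind (e : ℤ) : ∀ (n : ℕ) (d : ℤ), Av (fun d' => id1 (d' = e)) n d = p n (d - e) := by
  intro n
  induction n with
  | zero =>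
    intro d
    simp only [Av, p]
    by_cases h : d = e
    · rw [id1_pos h, if_pos (by omega)]
    · rw [id1_neg h, if_neg (by omega)]
  | succ n ih =>
    intro d
    simp only [Av]
    rw [ih, ih, p_succ]
    congr 3 <;> ring

theorem Av_mono {f g : ℤ → ℝ} (h : ∀ d, f d ≤ g d) : ∀ (n : ℕ) (d : ℤ), Av f n d ≤ Av g n d := by
  intro n
  induction n with
  | zero => intro d; exact h d
  | succ n ih => intro d; simp only [Av]; have := ih (d + 1); have := ih (d - 1); linarith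

theorem Av_sum {ι : Type*} (S : Finset ι) (f : ι → ℤ → ℝ) : ∀ (n : ℕ) (d : ℤ),
    Av (fun d => ∑ e ∈ S, f e d) n d = ∑ e ∈ S, Av (f e) n d := by
  intro n
  induction n with
  | zero => intro d; rfl
  | succ n ih =>
    intro d
    simp only [Av]
    rw [ih, ih, ← sum_add_distrib, sum_div]

theorem same_bin {s w : ℕ} (hs : 1 ≤ s) :
    ex s (fun y => ex s (fun y' => id1 (|2 * ((od s y' : ℤ) - od s y)| < w))) ≤ 4 * w / √ (2 * s : ℕ) := by
  have h1 := LL (fun d => id1 (|d| < (w : ℤ))) s 0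
  simp only [zero_add] at h1
  rw [h1]
  have h2 : ∀ d : ℤ, id1 (|d| < (w : ℤ)) ≤ ∑ e ∈ Ioo (-(w : ℤ)) w, id1 (d = e) := by
    intro d
    by_cases h : |d| < (w : ℤ)
    · rw [id1_pos h]
      have hm : d ∈ Ioo (-(w : ℤ)) w := by rw [mem_Ioo]; exact abs_lt.1 h
      calc (1 : ℝ) = id1 (d = d) := (id1_pos rfl).symm
        _ ≤ _ := single_le_sum (f := fun e => id1 (d = e)) (fun e _ => id1_nonneg _) hm
    · rw [id1_neg h]; exact sum_nonneg fun _ _ => id1_nonneg _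
  refine (Av_mono h2 _ _).trans ?_
  rw [Av_sum]
  have h3 : ∀ e ∈ Ioo (-(w : ℤ)) w, Av (fun d => id1 (d = e)) (2 * s) 0 ≤ 2 / √ (2 * s : ℕ) := by
    intro e _
    rw [Av_ind]
    exact p_le (by omega) _
  refine (sum_le_sum h3).trans ?_
  rw [sum_const, nsmul_eq_mul]
  have h4 : (#(Ioo (-(w : ℤ)) w) : ℝ) ≤ 2 * w := by
    have : #(Ioo (-(w : ℤ)) w) ≤ 2 * w := by
      rw [Int.card_Ioo]; omega
    exact_mod_cast this
  calc (#(Ioo (-(w : ℤ)) w) : ℝ) * (2 / √ (2 * s : ℕ)) ≤ 2 * w * (2 / √ (2 * s : ℕ)) :=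
        mul_le_mul_of_nonneg_right h4 (by positivity)
    _ = 4 * w / √ (2 * s : ℕ) := by ring

theorem div_eq_lt {a b w : ℕ} (hw : 1 ≤ w) (h : a / w = b / w) : |(b : ℤ) - a| < w := by
  have h1 := Nat.div_add_mod a w
  have h2 := Nat.div_add_mod b w
  have h3 := Nat.mod_lt a (show 0 < w by omega)
  have h4 := Nat.mod_lt b (show 0 < w by omega)
  rw [h] at h1
  rw [abs_lt]
  constructor <;> omega

/-- the bin -/
noncomputable def omb (w : ℕ) (o o' : ℕ) : ℝ := id1 (2 * o / w = 2 * o' / w)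

theorem K_bin {s k w : ℕ} (hs : 1 ≤ s) (hk : 1 ≤ k) (hw : 1 ≤ w) :
    ex s (fun y => ex s (fun y' => omb w (od s y) (od s y') * U (2 * k) (2 * ((od s y' : ℤ) - od s y)))) ≤
      (2 * w / √ (2 * k : ℕ)) * (4 * w / √ (2 * s : ℕ)) := by
  have h1 : ∀ y y', omb w (od s y) (od s y') * U (2 * k) (2 * ((od s y' : ℤ) - od s y)) ≤
      (2 * w / √ (2 * k : ℕ)) * id1 (|2 * ((od s y' : ℤ) - od s y)| < w) := by
    intro y y'
    unfold omb
    have hpos : 0 ≤ (2 * w / √ (2 * k : ℕ) : ℝ) := by positivity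
    by_cases h : 2 * od s y / w = 2 * od s y' / w
    · have h2 := div_eq_lt hw h
      have h3 : |2 * ((od s y' : ℤ) - od s y)| < w := by
        have e : 2 * ((od s y' : ℤ) - od s y) = ((2 * od s y' : ℕ) : ℤ) - ((2 * od s y : ℕ) : ℤ) := by push_cast; ring
        rw [e]; exact h2
      rw [id1_pos h, id1_pos h3, one_mul, mul_one]
      refine (U_bound (show 1 ≤ 2 * k by omega) _).trans ?_
      apply div_le_div_of_nonneg_right _ (by positivity)
      have h4 : |((2 * ((od s y' : ℤ) - od s y) : ℤ) : ℝ)| ≤ w := by exact_mod_cast h3.le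
      linarith
    · rw [id1_neg h, zero_mul]
      exact mul_nonneg hpos (id1_nonneg _)
  have h2 := ex_mono (j := s) (fun y => ex_mono (j := s) (h1 y))
  refine h2.trans ?_
  have h3 : ∀ y, ex s (fun y' => (2 * w / √ (2 * k : ℕ)) * id1 (|2 * ((od s y' : ℤ) - od s y)| < w)) =
      (2 * w / √ (2 * k : ℕ)) * ex s (fun y' => id1 (|2 * ((od s y' : ℤ) - od s y)| < w)) := fun y => ex_mul _ _ _
  rw [ex_congr h3, ex_mul]
  exact mul_le_mul_of_nonneg_left (same_bin hs) (by positivity)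

theorem mn_const_le (a : ℤ) (b : ℕ) {c : ℝ} (hc : 0 ≤ c) : mn a b (fun _ => c) ≤ c := by
  unfold mn
  rw [sum_const, card_range, nsmul_eq_mul]
  rcases Nat.eq_zero_or_pos b with h | h
  · subst h; simpa using hc
  · have : (b : ℝ) ≠ 0 := by
      have : (0 : ℝ) < b := by exact_mod_cast h
      exact this.ne'
    rw [mul_div_cancel_left₀ _ this]

/-- the mass outside the central bins -/
theorem outer_mass {n s k₁ b m : ℕ} {ε₁ : ℝ} (hST : STf n s k₁ b ε₁) (a : ℤ) :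
    mn a b (fun v => id1 ((m : ℤ) < |2 * (od s v : ℤ) - s|)) ≤ pb s (fun y => (m : ℤ) < |2 * (od s y : ℤ) - s|) + ε₁ := by
  have h := hST (fun o _ => id1 ((m : ℤ) < |2 * (o : ℤ) - s|)) (fun _ _ _ _ => rfl) (fun _ _ => id1_nonneg _)
    (fun _ _ => id1_le_one _) 0 a
  unfold bk at h
  simp only [zero_add] at h
  have h2 : ex s (fun y => mn (Jn n s y (a, b)).1 (Jn n s y (a, b)).2 (fun _ => id1 ((m : ℤ) < |2 * (od s y : ℤ) - s|))) ≤
      pb s (fun y => (m : ℤ) < |2 * (od s y : ℤ) - s|) := by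
    rw [pb_id1]
    exact ex_mono fun y => mn_const_le _ _ (id1_nonneg _)
  have h3 := (abs_le.1 h).2
  linarith

theorem outer_pb {s m : ℕ} (hs : 1 ≤ s) {J : ℝ} (hJ : 0 ≤ J) (hm : J * √ s ≤ m + 1) :
    pb s (fun y => (m : ℤ) < |2 * (od s y : ℤ) - s|) ≤ 2 * Real.exp (-(J ^ 2 / 2)) := by
  have h1 := pb_od hs (show 0 ≤ J * √ s by positivity)
  have hs0 : (0 : ℝ) < s := by exact_mod_cast hs
  have e : (J * √ s) ^ 2 / (2 * s) = J ^ 2 / 2 := by
    rw [mul_pow, Real.sq_sqrt hs0.le]; field_simp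
  rw [e] at h1
  refine le_trans (pb_mono ?_) h1
  intro y hy
  have h2 : ((m : ℤ) + 1) ≤ |2 * (od s y : ℤ) - s| := by omega
  have h3 : ((m : ℝ) + 1) ≤ |2 * (od s y : ℝ) - s| := by exact_mod_cast h2
  linarith

end Pool.Agent.J4H39
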