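import Mathlib
import Pool.Agent.J4H39.N1
import Pool.Agent.J4H39.N2

set_option autoImplicit false

namespace Pool.Agent.J4H39

open Finset Filter Real

/-! Good blocks and good windows. -/

/-- most of the block has at most `B` images -/
def Gb (t b B : ℕ) (c : ℝ) (a : ℤ) : Prop :=
  ∃ V : Finset ℤ, #V ≤ B ∧ (#{i ∈ range b | T^[t] (a + (i : ℕ)) ∉ V} : ℝ) ≤ c * b

theorem bins_card {s m w B : ℕ} (hw : 1 ≤ w) (hB : 2 * m / w + 2 ≤ B) : #(Icc ((s - m) / w) ((s + m) / w)) ≤ B := by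
  rw [Nat.card_Icc]
  have h1 := Nat.lt_div_mul_add (a := s - m) (b := w) (by omega)
  have h2 := Nat.lt_div_mul_add (a := 2 * m) (b := w) (by omega)
  have h3 : s + m < ((s - m) / w + 2 * m / w + 2) * w := by
    have : ((s - m) / w + 2 * m / w + 2) * w = ((s - m) / w * w + w) + (2 * m / w * w + w) := by ring
    omega
  have h4 := (Nat.div_lt_iff_lt_mul (show 0 < w by omega)).2 h3
  omega

theorem sum_mn (a : ℤ) {b : ℕ} (hb : 1 ≤ b) (f : ℤ → ℝ) : ∑ v ∈ range b, f (a + (v : ℕ)) = b * mn a b f := by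
  have : (b : ℝ) ≠ 0 := by
    have : (0 : ℝ) < b := by exact_mod_cast hb
    exact this.ne'
  unfold mn; field_simp

theorem block_good {s t b w m B : ℕ} {X μ : ℝ} (hb : 1 ≤ b) (a : ℤ)
    (hX : mn a b (fun v => mn a b (fun u => omb w (od s v) (od s u) * id1 (T^[t] v ≠ T^[t] u))) ≤ X)
    (hμ : mn a b (fun v => id1 ((m : ℤ) < |2 * (od s v : ℤ) - s|)) ≤ μ) (hw : 1 ≤ w) (hB : 2 * m / w + 2 ≤ B) :
    Gb t b B (μ + √(B * X)) a := by
  obtain ⟨V, hV1, hV2⟩ := blockV b (fun i => T^[t] (a + (i : ℕ))) (fun i => 2 * od s (a + (i : ℕ)) / w)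
    (Icc ((s - m) / w) ((s + m) / w))
  have hJ := bins_card (s := s) hw hB
  have hb0 : (0 : ℝ) < b := by exact_mod_cast hb
  refine ⟨V, hV1.trans hJ, hV2.trans ?_⟩
  have h1 : (#{i ∈ range b | 2 * od s (a + (i : ℕ)) / w ∉ Icc ((s - m) / w) ((s + m) / w)} : ℝ) ≤ b * μ := by
    have h2 : (#{i ∈ range b | 2 * od s (a + (i : ℕ)) / w ∉ Icc ((s - m) / w) ((s + m) / w)} : ℝ) ≤
        ∑ i ∈ range b, id1 ((m : ℤ) < |2 * (od s (a + (i : ℕ)) : ℤ) - s|) := by
      rw [card_filter]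
      push_cast
      apply sum_le_sum
      intro i _
      by_cases h : (m : ℤ) < |2 * (od s (a + (i : ℕ)) : ℤ) - s|
      · rw [id1_pos h]; split_ifs <;> norm_num
      · rw [id1_neg h, if_neg]
        rw [not_not, mem_Icc]
        push Not at h
        rw [abs_le] at h
        constructor
        · apply Nat.div_le_div_right; omega
        · apply Nat.div_le_div_right; omega
    refine h2.trans ?_
    rw [sum_mn a hb (fun v => id1 ((m : ℤ) < |2 * (od s v : ℤ) - s|))]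
    exact mul_le_mul_of_nonneg_left hμ hb0.le
  have h3 : ∑ i ∈ range b, ∑ j ∈ range b, id1 (2 * od s (a + (i : ℕ)) / w = 2 * od s (a + (j : ℕ)) / w) *
      id1 (T^[t] (a + (i : ℕ)) ≠ T^[t] (a + (j : ℕ))) =
      b ^ 2 * mn a b (fun v => mn a b (fun u => omb w (od s v) (od s u) * id1 (T^[t] v ≠ T^[t] u))) := by
    have e1 : ∀ i : ℕ, ∑ j ∈ range b, id1 (2 * od s (a + (i : ℕ)) / w = 2 * od s (a + (j : ℕ)) / w) *
      id1 (T^[t] (a + (i : ℕ)) ≠ T^[t] (a + (j : ℕ))) =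
      b * mn a b (fun u => omb w (od s (a + (i : ℕ))) (od s u) * id1 (T^[t] (a + (i : ℕ)) ≠ T^[t] u)) := fun i =>
      sum_mn a hb (fun u => omb w (od s (a + (i : ℕ))) (od s u) * id1 (T^[t] (a + (i : ℕ)) ≠ T^[t] u))
    rw [sum_congr rfl (fun i _ => e1 i), ← mul_sum]
    rw [sum_mn a hb (fun v => mn a b (fun u => omb w (od s v) (od s u) * id1 (T^[t] v ≠ T^[t] u)))]
    ring
  rw [h3]
  have h4 : √(#(Icc ((s - m) / w) ((s + m) / w)) * (b ^ 2 *
      mn a b (fun v => mn a b (fun u => omb w (od s v) (od s u) * id1 (T^[t] v ≠ T^[t] u))))) ≤ b * √(B * X) := by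
    have e2 : (b : ℝ) * √(B * X) = √((b : ℝ) ^ 2 * (B * X)) := by
      rw [Real.sqrt_mul (sq_nonneg (b : ℝ)), Real.sqrt_sq hb0.le]
    rw [e2]
    apply Real.sqrt_le_sqrt
    have hmn0 : 0 ≤ mn a b (fun v => mn a b (fun u => omb w (od s v) (od s u) * id1 (T^[t] v ≠ T^[t] u))) :=
      mn_nonneg fun _ => mn_nonneg fun _ => mul_nonneg (id1_nonneg _) (id1_nonneg _)
    calc (#(Icc ((s - m) / w) ((s + m) / w)) : ℝ) * (b ^ 2 *
          mn a b (fun v => mn a b (fun u => omb w (od s v) (od s u) * id1 (T^[t] v ≠ T^[t] u)))) ≤ B * (b ^ 2 * X) := by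
          apply mul_le_mul (by exact_mod_cast hJ) _ (by positivity) (by positivity)
          exact mul_le_mul_of_nonneg_left hX (by positivity)
      _ = (b : ℝ) ^ 2 * (B * X) := by ring
  linarith

theorem markov {M : ℕ} {X : ℕ → ℝ} (h0 : ∀ p, 0 ≤ X p) {θ' : ℝ} (hθ' : 0 < θ') :
    (#{p ∈ range M | θ' < X p} : ℝ) * θ' ≤ ∑ p ∈ range M, X p := by
  rw [← nsmul_eq_mul, ← sum_const, sum_filter]
  apply sum_le_sum
  intro p _
  split_ifs with h
  · exact h.le
  · exact h0 p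

theorem window_good {t b B : ℕ} {c : ℝ} {a : ℤ} (h1 : Gb t b B c a) (h2 : Gb t b B c (a + b)) {i : ℕ} (hi : i < b) :
    ∃ V : Finset ℤ, #V ≤ 2 * B ∧ (#{h ∈ Icc 1 b | T^[t] (a + (i : ℕ) + ((h : ℕ) : ℤ)) ∉ V} : ℝ) ≤ 2 * c * b := by
  obtain ⟨V₁, a1, a2⟩ := h1
  obtain ⟨V₂, b1, b2⟩ := h2
  refine ⟨V₁ ∪ V₂, (card_union_le _ _).trans (by omega), ?_⟩
  have h3 : {h ∈ Icc 1 b | T^[t] (a + (i : ℕ) + ((h : ℕ) : ℤ)) ∉ V₁ ∪ V₂} ⊆
      ({j ∈ range b | T^[t] (a + (j : ℕ)) ∉ V₁}).image (fun j => j - i) ∪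
      ({j ∈ range b | T^[t] (a + b + (j : ℕ)) ∉ V₂}).image (fun j => j + b - i) := by
    intro h hh
    rw [mem_filter, mem_Icc, mem_union, not_or] at hh
    rw [mem_union, mem_image, mem_image]
    by_cases hib : i + h < b
    · left
      refine ⟨i + h, ?_, by omega⟩
      rw [mem_filter, mem_range]
      refine ⟨hib, ?_⟩
      have e : a + ((i + h : ℕ) : ℤ) = a + (i : ℕ) + (h : ℕ) := by push_cast; ring
      rw [e]; exact hh.2.1
    · right
      refine ⟨i + h - b, ?_, by omega⟩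
      rw [mem_filter, mem_range]
      refine ⟨by omega, ?_⟩
      have e : a + (b : ℤ) + ((i + h - b : ℕ) : ℤ) = a + (i : ℕ) + (h : ℕ) := by
        rw [Nat.cast_sub (by omega)]; push_cast; ring
      rw [e]; exact hh.2.2
  have h4 := (card_le_card h3).trans ((card_union_le _ _).trans (add_le_add card_image_le card_image_le))
  have h5 : (#{h ∈ Icc 1 b | T^[t] (a + (i : ℕ) + ((h : ℕ) : ℤ)) ∉ V₁ ∪ V₂} : ℝ) ≤
      #{j ∈ range b | T^[t] (a + (j : ℕ)) ∉ V₁} + #{j ∈ range b | T^[t] (a + b + (j : ℕ)) ∉ V₂} := by exact_mod_cast h4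
  linarith

theorem count_bad {N b : ℕ} (hb : 1 ≤ b) (x : ℤ) {good : ℕ → Prop} {Q : ℤ → Prop}
    (hQ : ∀ p i : ℕ, i < b → good p → good (p + 1) → Q (x + (p : ℕ) * b + (i : ℕ))) [DecidablePred good] [DecidablePred Q] :
    (#{n ∈ Ico x (x + N) | ¬ Q n} : ℝ) ≤ 2 * b * #{p ∈ range (N / b + 2) | ¬ good p} := by
  have h1 : {n ∈ Ico x (x + N) | ¬ Q n} ⊆
      (({p ∈ range (N / b + 2) | ¬ good p} ∪ ({p ∈ range (N / b + 2) | ¬ good p}).image (fun p => p - 1)) ×ˢ range b).image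
        (fun q : ℕ × ℕ => x + (q.1 : ℕ) * b + (q.2 : ℕ)) := by
    intro n hn
    rw [mem_filter, mem_Ico] at hn
    obtain ⟨j, hj⟩ : ∃ j : ℕ, (j : ℤ) = n - x := ⟨(n - x).toNat, by omega⟩
    have hjN : j < N := by omega
    have hdiv : j / b ≤ N / b := Nat.div_le_div_right hjN.le
    have hmod := Nat.mod_lt j (show 0 < b by omega)
    have hdm := Nat.div_add_mod j b
    have hn' : n = x + ((j / b : ℕ) : ℤ) * b + ((j % b : ℕ) : ℤ) := by
      have : ((b * (j / b) + j % b : ℕ) : ℤ) = (j : ℤ) := by exact_mod_cast hdm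
      push_cast at this ⊢
      linarith
    rw [mem_image]
    refine ⟨(j / b, j % b), ?_, hn'.symm⟩
    rw [mem_product, mem_range]
    refine ⟨?_, hmod⟩
    rw [mem_union]
    by_contra hcon
    rw [not_or] at hcon
    have g1 : good (j / b) := by
      by_contra hg
      exact hcon.1 (by rw [mem_filter, mem_range]; exact ⟨by simp only; omega, hg⟩)
    have g2 : good (j / b + 1) := by
      by_contra hg
      exact hcon.2 (by
        rw [mem_image]
        refine ⟨j / b + 1, ?_, by simp⟩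
        rw [mem_filter, mem_range]
        exact ⟨by omega, hg⟩)
    exact hn.2 (by rw [hn']; exact hQ _ _ hmod g1 g2)
  have h2 := (card_le_card h1).trans card_image_le
  rw [card_product, card_range] at h2
  have h3 : #({p ∈ range (N / b + 2) | ¬ good p} ∪ ({p ∈ range (N / b + 2) | ¬ good p}).image (fun p => p - 1)) ≤
      2 * #{p ∈ range (N / b + 2) | ¬ good p} := by
    refine (card_union_le _ _).trans ?_
    have := card_image_le (s := {p ∈ range (N / b + 2) | ¬ good p}) (f := fun p => p - 1)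
    omega
  have h4 : #{n ∈ Ico x (x + N) | ¬ Q n} ≤ 2 * #{p ∈ range (N / b + 2) | ¬ good p} * b :=
    h2.trans (Nat.mul_le_mul_right _ h3)
  have h5 : (#{n ∈ Ico x (x + N) | ¬ Q n} : ℝ) ≤ 2 * #{p ∈ range (N / b + 2) | ¬ good p} * b := by exact_mod_cast h4
  linarith

end Pool.Agent.J4H39
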