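import Mathlib
import Pool.Agent.J4H39.N3
import Pool.Agent.J4H39.M9

set_option autoImplicit false

namespace Pool.Agent.J4H39

open Finset Filter Real

/-! Condensation of windows. -/

theorem Gb_mono {t b B : ℕ} {c c' : ℝ} (h : c ≤ c') {a : ℤ} (hG : Gb t b B c a) : Gb t b B c' a := by
  obtain ⟨V, h1, h2⟩ := hG
  exact ⟨V, h1, h2.trans (mul_le_mul_of_nonneg_right h (by positivity))⟩

theorem exp_J {ε : ℝ} (hε : 0 < ε) : 2 * Real.exp (-((6 / √ε) ^ 2 / 2)) ≤ ε / 9 := by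
  have h1 : (6 / √ε) ^ 2 / 2 = 18 / ε := by
    rw [div_pow, Real.sq_sqrt hε.le]; ring
  rw [h1, Real.exp_neg]
  have h2 : 18 / ε ≤ Real.exp (18 / ε) := by
    have := Real.add_one_le_exp (18 / ε); linarith
  have h3 : (Real.exp (18 / ε))⁻¹ ≤ (18 / ε)⁻¹ := inv_anti₀ (by positivity) h2
  rw [inv_div] at h3
  linarith

/-- arithmetic of the kernel bound -/
theorem bin_arith {s k w : ℕ} {δ₁ C : ℝ} (hs : 1 ≤ s) (hk : 1 ≤ k) (hC : 0 ≤ C) (hδ : 0 ≤ δ₁) (hsk : (s : ℝ) ≤ C * k)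
    (hw : (w : ℝ) ≤ 2 * δ₁ * √ s) : (2 * w / √ (2 * k : ℕ)) * (4 * w / √ (2 * s : ℕ)) ≤ 16 * δ₁ ^ 2 * √C := by
  have hs0 : (0 : ℝ) < s := by exact_mod_cast hs
  have hk0 : (0 : ℝ) < k := by exact_mod_cast hk
  have h1 : √ ((2 * k : ℕ) : ℝ) = √2 * √k := by push_cast; exact Real.sqrt_mul (by norm_num) _
  have h2 : √ ((2 * s : ℕ) : ℝ) = √2 * √s := by push_cast; exact Real.sqrt_mul (by norm_num) _
  have h22 : √2 * √2 = (2 : ℝ) := Real.mul_self_sqrt (by norm_num)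
  have hss : √(s : ℝ) * √s = s := Real.mul_self_sqrt hs0.le
  have hsp : 0 < √(s : ℝ) := Real.sqrt_pos.2 hs0
  have hkp : 0 < √(k : ℝ) := Real.sqrt_pos.2 hk0
  have h2p : 0 < √(2 : ℝ) := Real.sqrt_pos.2 (by norm_num)
  rw [h1, h2, div_mul_div_comm, div_le_iff₀ (by positivity)]
  have h3 : √(s : ℝ) ≤ √C * √k := by
    rw [← Real.sqrt_mul hC]; exact Real.sqrt_le_sqrt hsk
  have h4 : (w : ℝ) * w ≤ (2 * δ₁ * √s) * (2 * δ₁ * √s) := mul_le_mul hw hw (by positivity) (by positivity)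
  calc 2 * (w : ℝ) * (4 * w) = 8 * (w * w) := by ring
    _ ≤ 8 * ((2 * δ₁ * √s) * (2 * δ₁ * √s)) := by linarith
    _ = 32 * δ₁ ^ 2 * √s * √s := by ring
    _ ≤ 32 * δ₁ ^ 2 * √s * (√C * √k) := mul_le_mul_of_nonneg_left h3 (by positivity)
    _ = 16 * δ₁ ^ 2 * √C * ((√2 * √2) * (√k * √s)) := by rw [h22]; ring
    _ = 16 * δ₁ ^ 2 * √C * (√2 * √k * (√2 * √s)) := by ring

/-- number of bins -/
theorem bins_arith {s m w : ℕ} {δ₁ J : ℝ} (hs : 1 ≤ s) (hδ : 0 < δ₁) (hδ1 : δ₁ ≤ 1) (hJ : 1 ≤ J) (hw : δ₁ * √s ≤ w)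
    (hm : (m : ℝ) ≤ J * √s) : ((2 * m / w + 2 : ℕ) : ℝ) ≤ 4 * J / δ₁ := by
  have hs0 : (0 : ℝ) < s := by exact_mod_cast hs
  have hsp : 0 < √(s : ℝ) := Real.sqrt_pos.2 hs0
  have hw0 : (0 : ℝ) < w := lt_of_lt_of_le (by positivity) hw
  have h1 : ((2 * m / w : ℕ) : ℝ) ≤ 2 * m / w := by
    have := Nat.cast_div_le (α := ℝ) (m := 2 * m) (n := w)
    push_cast at this
    exact this
  have h2 : 2 * (m : ℝ) / w ≤ 2 * J / δ₁ := by
    rw [div_le_div_iff₀ hw0 hδ]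
    calc 2 * (m : ℝ) * δ₁ ≤ 2 * (J * √s) * δ₁ := by
          apply mul_le_mul_of_nonneg_right _ hδ.le; linarith
      _ = 2 * J * (δ₁ * √s) := by ring
      _ ≤ 2 * J * w := mul_le_mul_of_nonneg_left hw (by linarith)
  have h3 : 1 ≤ J / δ₁ := by rw [le_div_iff₀ hδ]; linarith
  have e1 : 2 * J / δ₁ = 2 * (J / δ₁) := by ring
  have e2 : 4 * J / δ₁ = 4 * (J / δ₁) := by ring
  rw [e1] at h2
  rw [e2]
  push_cast
  linarith

open Classical in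
theorem collapse {θ τ : ℝ} (hθ : 0 < θ) (hθ1 : θ < 1) (hτθ : θ < τ * th0) (hτ1 : τ * th0 < 1) :
    ∃ C₀ : ℝ, 0 < C₀ ∧ ∀ ε : ℝ, 0 < ε → ε ≤ 1 → ∀ᶠ N : ℕ in atTop, ∀ x : ℤ,
    (#{n ∈ Ico x (x + N) | ¬ ∃ V : Finset ℤ, (#V : ℝ) ≤ C₀ / ε ^ 4 ∧
      (#{h ∈ Icc 1 (HN θ N) | T^[tN τ N] (n + ((h : ℕ) : ℤ)) ∉ V} : ℝ) ≤ ε * HN θ N} : ℝ) ≤ ε * N := by
  obtain ⟨C', hC', hpar⟩ := params hθ hθ1 hτθ hτ1
  obtain ⟨C, hC⟩ : ∃ C, C = max 1 C' := ⟨_, rfl⟩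
  have hC1 : 1 ≤ C := by rw [hC]; exact le_max_left _ _
  have hCC : C' ≤ C := by rw [hC]; exact le_max_right _ _
  obtain ⟨K, hK⟩ : ∃ K, K = √C := ⟨_, rfl⟩
  have hK1 : 1 ≤ K := by rw [hK]; exact Real.one_le_sqrt.2 hC1
  refine ⟨3538944 * K, by positivity, fun ε hε hε1 => ?_⟩
  obtain ⟨J, hJ⟩ : ∃ J, J = 6 / √ε := ⟨_, rfl⟩
  have hsε : √ε ≤ 1 := Real.sqrt_le_one.2 hε1
  have hsε0 : 0 < √ε := Real.sqrt_pos.2 hε
  have hJ1 : 6 ≤ J := by rw [hJ, le_div_iff₀ hsε0]; linarith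
  have hJ2 : J ^ 2 = 36 / ε := by rw [hJ, div_pow, Real.sq_sqrt hε.le]; norm_num
  have hJ0 : 0 < J := by linarith
  obtain ⟨δ₁, hδ₁⟩ : ∃ δ₁, δ₁ = ε ^ 3 / (12288 * J * K) := ⟨_, rfl⟩
  have hδ0 : 0 < δ₁ := by rw [hδ₁]; positivity
  have hε3 : ε ^ 3 ≤ 1 := pow_le_one₀ hε.le hε1
  have hδ1 : δ₁ ≤ 1 := by
    rw [hδ₁, div_le_one (by positivity)]
    have : 6 * 1 ≤ J * K := mul_le_mul hJ1 hK1 (by norm_num) hJ0.le
    linarith
  obtain ⟨ta, hta⟩ : ∃ ta, ta = δ₁ * ε ^ 3 / (768 * J) := ⟨_, rfl⟩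
  have hta0 : 0 < ta := by rw [hta]; positivity
  obtain ⟨ε₁, hε₁⟩ : ∃ ε₁, ε₁ = min (min (ε / 8) (1 / 4)) (ta / 34) := ⟨_, rfl⟩
  have hε₁0 : 0 < ε₁ := by
    rw [hε₁]
    apply lt_min
    · apply lt_min <;> linarith
    · positivity
  have hε₁1 : ε₁ ≤ ε / 8 := by rw [hε₁]; exact (min_le_left _ _).trans (min_le_left _ _)
  have hε₁2 : ε₁ ≤ 1 / 4 := by rw [hε₁]; exact (min_le_left _ _).trans (min_le_right _ _)
  have hε₁3 : ε₁ ≤ ta / 34 := by rw [hε₁]; exact min_le_right _ _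
  obtain ⟨k₀, s₀, hKU⟩ := K_U hε₁0 (show 0 < C by linarith)
  obtain ⟨S₁, hS₁⟩ : ∃ S₁ : ℕ, S₁ = ⌈(1 / δ₁) ^ 2⌉₊ + 1 := ⟨_, rfl⟩
  obtain ⟨n, hn, hev⟩ := hpar ε₁ 1 hε₁0 hε₁2 one_pos le_rfl 0 (max (max k₀ s₀) S₁)
  filter_upwards [hev, (HN_tendsto hθ).eventually_ge_atTop 1, eventually_ge_atTop 1] with N hN hH1 hN1
  intro x
  obtain ⟨b, hb⟩ : ∃ b, b = HN θ N := ⟨_, rfl⟩
  have hbf : b = ⌊(1 : ℝ) * HN θ N⌋₊ := by rw [one_mul, Nat.floor_natCast]; exact hb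
  rw [← hb] at hH1 ⊢
  have hN0 : (0 : ℝ) < N := by exact_mod_cast hN1
  have hbN : b ≤ N := by
    have h1 : (b : ℝ) ≤ (N : ℝ) ^ θ := by rw [hb]; exact Nat.floor_le (by positivity)
    have h2 : (N : ℝ) ^ θ ≤ (N : ℝ) ^ (1 : ℝ) := Real.rpow_le_rpow_of_exponent_le (by exact_mod_cast hN1) hθ1.le
    rw [Real.rpow_one] at h2
    exact_mod_cast h1.trans h2
  have hb0 : (0 : ℝ) < b := by exact_mod_cast hH1
  obtain ⟨M, hM⟩ : ∃ M, M + 1 = N / b + 2 := ⟨N / b + 1, rfl⟩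
  have hMb1 : N ≤ (M + 1) * b := by
    have := Nat.lt_div_mul_add (a := N) (b := b) (by omega)
    rw [hM]
    have e : (N / b + 2) * b = N / b * b + b + b := by ring
    omega
  have hMb2 : (M + 1) * b ≤ 3 * N := by
    have := Nat.div_mul_le_self N b
    rw [hM]
    have e : (N / b + 2) * b = N / b * b + b + b := by ring
    omega
  have hMb1r : (N : ℝ) ≤ (M + 1) * b := by exact_mod_cast hMb1
  have hMb2r : ((M : ℝ) + 1) * b ≤ 3 * N := by exact_mod_cast hMb2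
  obtain ⟨k, k', δ, R, k₁, htk, hPF, hk₁, hST, hGy, hKk, hKs, hsC, _⟩ := hN b _ M hbf rfl (by linarith)
  obtain ⟨s, hs⟩ : ∃ s, s = ⌊logb 2 (b : ℝ) / kn n⌋₊ := ⟨_, rfl⟩
  rw [← hs] at htk hPF hST hGy hKs hsC
  rw [max_le_iff, max_le_iff] at hKk hKs
  have hs1 : 1 ≤ s := by
    have := hKs.2; omega
  have hk1 : 1 ≤ k := by
    have := hKk.2; omega
  have hs0 : (0 : ℝ) < s := by exact_mod_cast hs1
  have hsp : 0 < √(s : ℝ) := Real.sqrt_pos.2 hs0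
  have hsC' : (s : ℝ) ≤ C * k := hsC.trans (mul_le_mul_of_nonneg_right hCC (by positivity))
  obtain ⟨w, hw⟩ : ∃ w, w = ⌈δ₁ * √(s : ℝ)⌉₊ := ⟨_, rfl⟩
  obtain ⟨m, hm⟩ : ∃ m, m = ⌊J * √(s : ℝ)⌋₊ := ⟨_, rfl⟩
  have hw1 : δ₁ * √(s : ℝ) ≤ w := by rw [hw]; exact Nat.le_ceil _
  have hds1 : 1 ≤ δ₁ * √(s : ℝ) := by
    have h1 : (1 / δ₁) ^ 2 ≤ s := by
      have h2 : ((S₁ : ℕ) : ℝ) ≤ s := by exact_mod_cast hKs.2
      refine le_trans ?_ h2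
      rw [hS₁]; push_cast
      have := Nat.le_ceil ((1 / δ₁) ^ 2)
      linarith
    have h2 : 1 / δ₁ ≤ √(s : ℝ) := Real.le_sqrt_of_sq_le h1
    rw [div_le_iff₀ hδ0] at h2
    linarith
  have hw2 : (w : ℝ) ≤ 2 * δ₁ * √(s : ℝ) := by
    have := Nat.ceil_lt_add_one (show 0 ≤ δ₁ * √(s : ℝ) by positivity)
    rw [← hw] at this
    linarith
  have hw0 : 1 ≤ w := by
    have : (1 : ℝ) ≤ w := by linarith
    exact_mod_cast this
  have hm1 : (m : ℝ) ≤ J * √(s : ℝ) := by rw [hm]; exact Nat.floor_le (by positivity)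
  have hm2 : J * √(s : ℝ) ≤ m + 1 := by rw [hm]; exact (Nat.lt_floor_add_one _).le
  obtain ⟨B, hB⟩ : ∃ B, B = 2 * m / w + 2 := ⟨_, rfl⟩
  have hBr : (B : ℝ) ≤ 4 * J / δ₁ := by rw [hB]; exact bins_arith hs1 hδ0 hδ1 (by linarith) hw1 hm1
  obtain ⟨X, hX⟩ : ∃ X : ℕ → ℝ, X = fun p => mn (x + (p : ℕ) * b) b (fun v => mn (x + (p : ℕ) * b) b
    (fun u => omb w (od s v) (od s u) * id1 (T^[k + s] v ≠ T^[k + s] u))) := ⟨_, rfl⟩
  have hom0 : ∀ o o', 0 ≤ omb w o o' := fun _ _ => id1_nonneg _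
  have hom1 : ∀ o o', omb w o o' ≤ 1 := fun _ _ => id1_le_one _
  have hX0 : ∀ p, 0 ≤ X p := by
    intro p; rw [hX]; exact mn_nonneg fun _ => mn_nonneg fun _ => mul_nonneg (id1_nonneg _) (id1_nonneg _)
  have hE : (∑ p ∈ range (M + 1), X p) / (M + 1) ≤ 2 * ta := by
    have h1 := KL_fixed hPF hε₁0.le hk₁ hST (omb w) hom0 hom1 x 0 (by simp)
    rw [zero_mul, add_zero] at h1
    have h2 := hKU k hKk.1.1 s hKs.1.2 hsC' (omb w) hom0 hom1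
    have h3 := K_bin hs1 hk1 hw0
    have h4 := bin_arith hs1 hk1 (by linarith) hδ0.le hsC' hw2
    have h5 : 16 * δ₁ ^ 2 * √C = ta := by
      rw [← hK, hta, hδ₁]
      have hK0 : K ≠ 0 := by positivity
      field_simp
      norm_num
    rw [h5] at h4
    rw [hX]
    rw [abs_le] at h1 h2
    linarith [h1.2, h2.2]
  obtain ⟨th', hth'⟩ : ∃ th', th' = ε ^ 2 * δ₁ / (64 * J) := ⟨_, rfl⟩
  have hth0 : 0 < th' := by rw [hth']; positivity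
  have hgood : ∀ p : ℕ, X p ≤ th' → Gb (k + s) b B (ε / 2) (x + (p : ℕ) * b) := by
    intro p hp
    have h1 := outer_mass (m := m) hST (x + (p : ℕ) * b)
    have h2 := outer_pb hs1 hJ0.le hm2
    have h3 := exp_J hε
    rw [← hJ] at h3
    rw [hX] at hp
    have h4 := block_good hH1 (x + (p : ℕ) * b) hp h1 hw0 (le_of_eq hB.symm)
    refine Gb_mono ?_ h4
    have h5 : √(B * th') ≤ ε / 4 := by
      rw [Real.sqrt_le_left (by positivity)]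
      calc (B : ℝ) * th' ≤ 4 * J / δ₁ * th' := mul_le_mul_of_nonneg_right hBr hth0.le
        _ = (ε / 4) ^ 2 := by rw [hth']; field_simp; norm_num
    linarith
  have hbad : (#{p ∈ range (N / b + 2) | ¬ Gb (k + s) b B (ε / 2) (x + (p : ℕ) * b)} : ℝ) ≤ (M + 1) * (ε / 6) := by
    rw [← hM]
    have h1 : (#{p ∈ range (M + 1) | ¬ Gb (k + s) b B (ε / 2) (x + (p : ℕ) * b)} : ℝ) ≤ #{p ∈ range (M + 1) | th' < X p} := by
      have : #{p ∈ range (M + 1) | ¬ Gb (k + s) b B (ε / 2) (x + (p : ℕ) * b)} ≤ #{p ∈ range (M + 1) | th' < X p} := by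
        apply card_le_card
        intro p hp
        rw [mem_filter] at hp ⊢
        refine ⟨hp.1, ?_⟩
        by_contra hcon
        exact hp.2 (hgood p (not_lt.1 hcon))
      exact_mod_cast this
    have h2 := markov (M := M + 1) hX0 hth0
    have hM0 : (0 : ℝ) < (M : ℝ) + 1 := by positivity
    rw [div_le_iff₀ hM0] at hE
    have h3 : (#{p ∈ range (M + 1) | th' < X p} : ℝ) * th' ≤ ((M + 1) * (ε / 6)) * th' := by
      refine h2.trans (hE.trans (le_of_eq ?_))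
      rw [hta, hth']
      field_simp
      norm_num
    exact h1.trans (le_of_mul_le_mul_right h3 hth0)
  have hcount := count_bad (N := N) hH1 x (good := fun p => Gb (k + s) b B (ε / 2) (x + (p : ℕ) * b))
    (Q := fun n => ∃ V : Finset ℤ, (#V : ℝ) ≤ 3538944 * K / ε ^ 4 ∧
      (#{h ∈ Icc 1 b | T^[tN τ N] (n + ((h : ℕ) : ℤ)) ∉ V} : ℝ) ≤ ε * b) (by
      intro p i hi h1 h2
      have e : x + ((p + 1 : ℕ) : ℤ) * b = x + (p : ℕ) * b + b := by push_cast; ring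
      rw [e] at h2
      obtain ⟨V, hV1, hV2⟩ := window_good h1 h2 hi
      refine ⟨V, ?_, ?_⟩
      · have h3 : (#V : ℝ) ≤ 2 * B := by exact_mod_cast hV1
        refine h3.trans ?_
        calc 2 * (B : ℝ) ≤ 2 * (4 * J / δ₁) := by linarith
          _ = 98304 * K * J ^ 2 / ε ^ 3 := by rw [hδ₁]; field_simp; norm_num
          _ = 3538944 * K / ε ^ 4 := by rw [hJ2]; field_simp; norm_num
      · rw [htk]
        refine hV2.trans (le_of_eq ?_)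
        ring)
  refine hcount.trans ?_
  calc 2 * (b : ℝ) * #{p ∈ range (N / b + 2) | ¬ Gb (k + s) b B (ε / 2) (x + (p : ℕ) * b)} ≤ 2 * b * ((M + 1) * (ε / 6)) :=
        mul_le_mul_of_nonneg_left hbad (by positivity)
    _ = ((M + 1) * b) * (ε / 3) := by ring
    _ ≤ (3 * N) * (ε / 3) := mul_le_mul_of_nonneg_right hMb2r (by positivity)
    _ = ε * N := by ring

end Pool.Agent.J4H39
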