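import Mathlib
import Pool.Agent.J4H39.M10

set_option autoImplicit false

namespace Pool.Agent.J4H39

open Finset Filter Real

/-! No condensation before the critical time. -/

theorem near_one {a : ℝ} (ha : 0 < a) (ha1 : a < 1) {ε : ℝ} (hε : 0 < ε) : ∃ q : ℝ, a < q ∧ q < 1 ∧
    1 - 2 / π * arcsin √ (a / q) ≤ ε := by
  have hcont : ContinuousAt (fun q : ℝ => 1 - 2 / π * arcsin √ (a / q)) a := by
    have h1 : ContinuousAt (fun q : ℝ => a / q) a := continuousAt_const.div continuousAt_id ha.ne'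
    have h2 : Continuous (fun r : ℝ => 1 - 2 / π * arcsin √ r) :=
      continuous_const.sub (continuous_const.mul (Real.continuous_arcsin.comp Real.continuous_sqrt))
    exact h2.continuousAt.comp h1
  have hval : 1 - 2 / π * arcsin √ (a / a) = 0 := by
    rw [div_self ha.ne', Real.sqrt_one, Real.arcsin_one]
    have := Real.pi_pos
    field_simp
    ring
  have h3 := hcont.eventually_lt_const (show (fun q : ℝ => 1 - 2 / π * arcsin √ (a / q)) a < ε by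
    simp only; rw [hval]; exact hε)
  have h4 : ∀ᶠ q in nhdsWithin a (Set.Ioi a), 1 - 2 / π * arcsin √ (a / q) < ε := nhdsWithin_le_nhds h3
  have h5 : ∀ᶠ q in nhdsWithin a (Set.Ioi a), q < 1 := nhdsWithin_le_nhds (eventually_lt_nhds ha1)
  have h6 : ∀ᶠ q in nhdsWithin a (Set.Ioi a), a < q := eventually_mem_nhdsWithin
  obtain ⟨q, hq1, hq2, hq3⟩ := (h4.and (h5.and h6)).exists
  exact ⟨q, hq3, hq2, hq1.le⟩

theorem id1_not (P : Prop) : id1 (¬ P) = 1 - id1 P := by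
  by_cases h : P
  · rw [id1_pos h, id1_neg (not_not.2 h)]; ring
  · rw [id1_neg h, id1_pos h]; ring

theorem no_merge {θ τ : ℝ} (hθ : 0 < θ) (hθ1 : θ < 1) (hτθ : τ * th0 ≤ θ) {μ : ℝ} (hμ : 0 < μ) :
    ∀ᶠ N : ℕ in atTop, ∀ x : ℤ, ∑ i ∈ range N, ∑ h ∈ Icc 1 (HN θ N),
      id1 (T^[tN τ N] (x + (i : ℕ)) = T^[tN τ N] (x + (i : ℕ) + (h : ℕ))) ≤ μ * (N * HN θ N) := by
  have hth0 := th0_pos
  obtain ⟨q, hq1, hq2, hq3⟩ := near_one hθ hθ1 (show 0 < μ / 2 by linarith)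
  have e1 : q / th0 * th0 = q := by field_simp
  have h1 := full_law (τ := q / th0) hθ hθ1 (by rw [e1]; exact hq1) (by rw [e1]; exact hq2) (show 0 < μ / 2 by linarith)
  filter_upwards [h1, eventually_ge_atTop 1] with N h2 hN1
  intro x
  have h3 := h2 x
  rw [e1] at h3
  have hle : tN τ N ≤ tN (q / th0) N := tN_mono (by rw [le_div_iff₀ hth0]; linarith) hN1
  have h4 : ∑ i ∈ range N, ∑ h ∈ Icc 1 (HN θ N),
      id1 (T^[tN τ N] (x + (i : ℕ)) = T^[tN τ N] (x + (i : ℕ) + (h : ℕ))) ≤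
      ∑ i ∈ range N, ∑ h ∈ Icc 1 (HN θ N),
      id1 (T^[tN (q / th0) N] (x + (i : ℕ)) = T^[tN (q / th0) N] (x + (i : ℕ) + (h : ℕ))) := by
    apply sum_le_sum
    intro i _
    apply sum_le_sum
    intro h _
    apply id1_mono
    intro he
    by_contra hcon
    exact iter_ne hle hcon he
  refine h4.trans ?_
  have h5 : ∑ i ∈ range N, ∑ h ∈ Icc 1 (HN θ N),
      id1 (T^[tN (q / th0) N] (x + (i : ℕ)) ≠ T^[tN (q / th0) N] (x + (i : ℕ) + (h : ℕ))) =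
      N * HN θ N - ∑ i ∈ range N, ∑ h ∈ Icc 1 (HN θ N),
      id1 (T^[tN (q / th0) N] (x + (i : ℕ)) = T^[tN (q / th0) N] (x + (i : ℕ) + (h : ℕ))) := by
    have e4 : ∀ i h : ℕ, id1 (T^[tN (q / th0) N] (x + (i : ℕ)) ≠ T^[tN (q / th0) N] (x + (i : ℕ) + (h : ℕ))) =
        1 - id1 (T^[tN (q / th0) N] (x + (i : ℕ)) = T^[tN (q / th0) N] (x + (i : ℕ) + (h : ℕ))) := fun i h => id1_not _
    simp only [e4, sum_sub_distrib, sum_const, card_range, Nat.card_Icc, nsmul_eq_mul, mul_one, Nat.add_sub_cancel]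
  rw [h5] at h3
  have h6 := (abs_le.1 h3).1
  have h7 : (1 - 2 / π * arcsin √ (θ / q)) * ((N : ℝ) * HN θ N) ≤ μ / 2 * (N * HN θ N) :=
    mul_le_mul_of_nonneg_right hq3 (by positivity)
  linarith

/-- pairs in a window -/
theorem window_pairs (f : ℤ → ℤ) (H : ℕ) (n : ℤ) :
    ∑ h ∈ Icc 1 H, ∑ h' ∈ Icc 1 H, id1 (f (n + ((h : ℕ) : ℤ)) = f (n + ((h' : ℕ) : ℤ))) ≤
      H + 2 * ∑ h ∈ Icc 1 H, ∑ d ∈ Icc 1 H, id1 (f (n + ((h : ℕ) : ℤ)) = f (n + ((h : ℕ) : ℤ) + ((d : ℕ) : ℤ))) := by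
  obtain ⟨g, hg⟩ : ∃ g : ℕ → ℕ → ℝ, g = fun h h' => id1 (f (n + ((h : ℕ) : ℤ)) = f (n + ((h' : ℕ) : ℤ))) := ⟨_, rfl⟩
  have hsym : ∀ h h', g h h' = g h' h := by intro h h'; rw [hg]; exact id1_congr eq_comm
  have h1 : ∀ h h', g h h' ≤ id1 (h = h') + id1 (h < h') * g h h' + id1 (h' < h) * g h h' := by
    intro h h'
    have hg0 : 0 ≤ g h h' := by rw [hg]; exact id1_nonneg _
    have hg1 : g h h' ≤ 1 := by rw [hg]; exact id1_le_one _
    rcases lt_trichotomy h h' with hh | hh | hh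
    · rw [id1_pos hh, id1_neg (by omega : ¬ h = h'), id1_neg (by omega : ¬ h' < h)]; linarith
    · rw [id1_pos hh, id1_neg (by omega : ¬ h < h'), id1_neg (by omega : ¬ h' < h)]; linarith
    · rw [id1_pos hh, id1_neg (by omega : ¬ h = h'), id1_neg (by omega : ¬ h < h')]; linarith
  have h2 : ∑ h ∈ Icc 1 H, ∑ h' ∈ Icc 1 H, g h h' ≤ (∑ h ∈ Icc 1 H, ∑ h' ∈ Icc 1 H, id1 (h = h')) +
      (∑ h ∈ Icc 1 H, ∑ h' ∈ Icc 1 H, id1 (h < h') * g h h') + ∑ h ∈ Icc 1 H, ∑ h' ∈ Icc 1 H, id1 (h' < h) * g h h' := by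
    rw [← sum_add_distrib, ← sum_add_distrib]
    apply sum_le_sum
    intro h _
    rw [← sum_add_distrib, ← sum_add_distrib]
    exact sum_le_sum fun h' _ => h1 h h'
  have h3 : ∑ h ∈ Icc 1 H, ∑ h' ∈ Icc 1 H, id1 (h = h') = (H : ℝ) := by
    have : ∀ h ∈ Icc 1 H, ∑ h' ∈ Icc 1 H, id1 (h = h') = 1 := by
      intro h hh
      have e : ∀ h' ∈ Icc 1 H, id1 (h = h') = if h = h' then (1 : ℝ) else 0 := by
        intro h' _
        by_cases hc : h = h'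
        · rw [id1_pos hc, if_pos hc]
        · rw [id1_neg hc, if_neg hc]
      rw [sum_congr rfl e, sum_ite_eq, if_pos hh]
    rw [sum_congr rfl this, sum_const, Nat.card_Icc, nsmul_eq_mul, mul_one, Nat.add_sub_cancel]
  have h4 : ∑ h ∈ Icc 1 H, ∑ h' ∈ Icc 1 H, id1 (h' < h) * g h h' = ∑ h ∈ Icc 1 H, ∑ h' ∈ Icc 1 H, id1 (h < h') * g h h' := by
    rw [sum_comm]
    apply sum_congr rfl
    intro h _
    apply sum_congr rfl
    intro h' _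
    rw [hsym]
  have h5 : ∀ h ∈ Icc 1 H, ∑ h' ∈ Icc 1 H, id1 (h < h') * g h h' ≤
      ∑ d ∈ Icc 1 H, id1 (f (n + ((h : ℕ) : ℤ)) = f (n + ((h : ℕ) : ℤ) + ((d : ℕ) : ℤ))) := by
    intro h hh
    have e1 : ∑ h' ∈ Icc 1 H, id1 (h < h') * g h h' = ∑ h' ∈ {h' ∈ Icc 1 H | h < h'}, g h h' := by
      rw [sum_filter]
      apply sum_congr rfl
      intro h' _
      by_cases hc : h < h'
      · rw [if_pos hc, id1_pos hc, one_mul]
      · rw [if_neg hc, id1_neg hc, zero_mul]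
    have e2 : {h' ∈ Icc 1 H | h < h'} = (Icc 1 (H - h)).image (fun d => h + d) := by
      ext h'
      rw [mem_filter, mem_Icc, mem_image]
      constructor
      · intro hx
        exact ⟨h' - h, by rw [mem_Icc]; omega, by omega⟩
      · rintro ⟨d, hd, rfl⟩
        rw [mem_Icc] at hd
        omega
    rw [e1, e2, sum_image (by intro a _ b _ hab; simpa using hab)]
    have e3 : ∀ d ∈ Icc 1 (H - h), g h (h + d) = id1 (f (n + ((h : ℕ) : ℤ)) = f (n + ((h : ℕ) : ℤ) + ((d : ℕ) : ℤ))) := by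
      intro d _
      rw [hg]
      simp only
      push_cast
      rw [add_assoc]
    rw [sum_congr rfl e3]
    apply sum_le_sum_of_subset_of_nonneg
    · apply Icc_subset_Icc_right; omega
    · intro _ _ _; exact id1_nonneg _
  have h6 := sum_le_sum h5
  have h7 : ∑ h ∈ Icc 1 H, ∑ h' ∈ Icc 1 H, id1 (f (n + ((h : ℕ) : ℤ)) = f (n + ((h' : ℕ) : ℤ))) =
      ∑ h ∈ Icc 1 H, ∑ h' ∈ Icc 1 H, g h h' := by rw [hg]
  rw [h7]
  linarith

/-- few values, many coincidences -/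
theorem few_values (f : ℤ → ℤ) (H : ℕ) (n : ℤ) (V : Finset ℤ) :
    (#{h ∈ Icc 1 H | f (n + ((h : ℕ) : ℤ)) ∈ V} : ℝ) ^ 2 ≤ #V *
      ∑ h ∈ Icc 1 H, ∑ h' ∈ Icc 1 H, id1 (f (n + ((h : ℕ) : ℤ)) = f (n + ((h' : ℕ) : ℤ))) := by
  have h1 : (#{h ∈ Icc 1 H | f (n + ((h : ℕ) : ℤ)) ∈ V} : ℝ) = ∑ v ∈ V, (#{h ∈ Icc 1 H | f (n + ((h : ℕ) : ℤ)) = v} : ℝ) := by
    have e : ∀ v ∈ V, (#{h ∈ Icc 1 H | f (n + ((h : ℕ) : ℤ)) = v} : ℝ) =
        ∑ h ∈ Icc 1 H, if f (n + ((h : ℕ) : ℤ)) = v then (1 : ℝ) else 0 := by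
      intro v _; rw [card_filter]; push_cast; rfl
    rw [sum_congr rfl e, sum_comm, card_filter]
    push_cast
    apply sum_congr rfl
    intro h _
    rw [sum_ite_eq]
  rw [h1]
  refine sq_sum_le_card_mul_sum_sq.trans ?_
  apply mul_le_mul_of_nonneg_left _ (by positivity)
  have h2 : ∀ v ∈ V, (#{h ∈ Icc 1 H | f (n + ((h : ℕ) : ℤ)) = v} : ℝ) ^ 2 =
      ∑ h ∈ Icc 1 H, ∑ h' ∈ Icc 1 H, id1 (f (n + ((h : ℕ) : ℤ)) = v) * id1 (f (n + ((h' : ℕ) : ℤ)) = v) := by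
    intro v _
    have e : (#{h ∈ Icc 1 H | f (n + ((h : ℕ) : ℤ)) = v} : ℝ) = ∑ h ∈ Icc 1 H, id1 (f (n + ((h : ℕ) : ℤ)) = v) := by
      rw [card_filter]; push_cast
      apply sum_congr rfl
      intro h _
      by_cases hc : f (n + ((h : ℕ) : ℤ)) = v
      · rw [if_pos hc, id1_pos hc]
      · rw [if_neg hc, id1_neg hc]
    rw [e, sq, sum_mul_sum]
  rw [sum_congr rfl h2, sum_comm]
  apply sum_le_sum
  intro h _
  rw [sum_comm]
  apply sum_le_sum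
  intro h' _
  have h3 : ∀ v ∈ V, id1 (f (n + ((h : ℕ) : ℤ)) = v) * id1 (f (n + ((h' : ℕ) : ℤ)) = v) =
      if f (n + ((h : ℕ) : ℤ)) = v then id1 (f (n + ((h : ℕ) : ℤ)) = f (n + ((h' : ℕ) : ℤ))) else 0 := by
    intro v _
    by_cases hv : f (n + ((h : ℕ) : ℤ)) = v
    · rw [if_pos hv, id1_pos hv, one_mul]
      apply id1_congr
      rw [← hv]; exact eq_comm
    · rw [if_neg hv, id1_neg hv, zero_mul]
  rw [sum_congr rfl h3, sum_ite_eq]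
  split_ifs
  · exact le_rfl
  · exact id1_nonneg _

open Classical in
theorem no_condensation {θ τ : ℝ} (hθ : 0 < θ) (hθ1 : θ < 1) (hτθ : τ * th0 ≤ θ) (M : ℕ) {ε : ℝ} (hε : 0 < ε) :
    ∀ᶠ N : ℕ in atTop, ∀ x : ℤ,
    (#{n ∈ Ico x (x + N) | ∃ V : Finset ℤ, #V ≤ M ∧
      ε * HN θ N < (#{h ∈ Icc 1 (HN θ N) | T^[tN τ N] (n + ((h : ℕ) : ℤ)) ∈ V} : ℝ)} : ℝ) ≤ ε * N := by
  obtain ⟨μ, hμ⟩ : ∃ μ, μ = ε ^ 3 / (4 * (M + 1)) := ⟨_, rfl⟩
  have hμ0 : 0 < μ := by rw [hμ]; positivity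
  have hHr : Tendsto (fun N : ℕ => (HN θ N : ℝ)) atTop atTop := tendsto_natCast_atTop_atTop.comp (HN_tendsto hθ)
  filter_upwards [no_merge hθ hθ1 hτθ hμ0, hHr.eventually_ge_atTop (2 * (M + 1) / ε ^ 3),
    (HN_tendsto hθ).eventually_ge_atTop 1] with N h1 h2 h3
  intro x
  obtain ⟨H, hH⟩ : ∃ H, H = HN θ N := ⟨_, rfl⟩
  rw [← hH] at h1 h2 h3 ⊢
  rw [div_le_iff₀ (by positivity)] at h2
  have hH0 : (0 : ℝ) < H := by exact_mod_cast h3
  obtain ⟨f, hf⟩ : ∃ f, f = T^[tN τ N] := ⟨_, rfl⟩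
  rw [← hf] at h1 ⊢
  obtain ⟨P, hP⟩ : ∃ P : ℤ → ℝ, P = fun n => ∑ h ∈ Icc 1 H, ∑ h' ∈ Icc 1 H, id1 (f (n + ((h : ℕ) : ℤ)) = f (n + ((h' : ℕ) : ℤ))) :=
    ⟨_, rfl⟩
  have hP0 : ∀ n, 0 ≤ P n := by intro n; rw [hP]; exact sum_nonneg fun _ _ => sum_nonneg fun _ _ => id1_nonneg _
  -- the total
  have htot : ∑ i ∈ range N, P (x + (i : ℕ)) ≤ N * H + 2 * (μ * (N * H * H)) := by
    have a1 : ∑ i ∈ range N, P (x + (i : ℕ)) ≤ ∑ i ∈ range N, ((H : ℝ) + 2 * ∑ h ∈ Icc 1 H, ∑ d ∈ Icc 1 H,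
        id1 (f (x + (i : ℕ) + ((h : ℕ) : ℤ)) = f (x + (i : ℕ) + ((h : ℕ) : ℤ) + ((d : ℕ) : ℤ)))) := by
      apply sum_le_sum
      intro i _
      rw [hP]
      exact window_pairs f H _
    refine a1.trans ?_
    rw [sum_add_distrib, sum_const, card_range, nsmul_eq_mul, ← mul_sum]
    have a2 : ∑ i ∈ range N, ∑ h ∈ Icc 1 H, ∑ d ∈ Icc 1 H,
        id1 (f (x + (i : ℕ) + ((h : ℕ) : ℤ)) = f (x + (i : ℕ) + ((h : ℕ) : ℤ) + ((d : ℕ) : ℤ))) ≤ μ * (N * H * H) := by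
      rw [sum_comm]
      have a3 : ∀ h ∈ Icc 1 H, ∑ i ∈ range N, ∑ d ∈ Icc 1 H,
          id1 (f (x + (i : ℕ) + ((h : ℕ) : ℤ)) = f (x + (i : ℕ) + ((h : ℕ) : ℤ) + ((d : ℕ) : ℤ))) ≤ μ * (N * H) := by
        intro h _
        have a4 := h1 (x + (h : ℕ))
        refine le_trans (le_of_eq ?_) a4
        apply sum_congr rfl
        intro i _
        apply sum_congr rfl
        intro d _
        have e : x + ((i : ℕ) : ℤ) + ((h : ℕ) : ℤ) = x + ((h : ℕ) : ℤ) + ((i : ℕ) : ℤ) := by ring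
        rw [e]
      refine (sum_le_sum a3).trans (le_of_eq ?_)
      rw [sum_const, Nat.card_Icc, nsmul_eq_mul, Nat.add_sub_cancel]; ring
    linarith
  -- bad windows
  have hbad : (#{n ∈ Ico x (x + N) | ∃ V : Finset ℤ, #V ≤ M ∧
      ε * H < (#{h ∈ Icc 1 H | f (n + ((h : ℕ) : ℤ)) ∈ V} : ℝ)} : ℝ) * ((ε * H) ^ 2) ≤ (M + 1) * ∑ i ∈ range N, P (x + (i : ℕ)) := by
    rw [sum_Ico (a := x) (b := N) P, mul_sum, ← nsmul_eq_mul, ← sum_const, sum_filter]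
    apply sum_le_sum
    intro n _
    split_ifs with h
    · obtain ⟨V, hV1, hV2⟩ := h
      have b1 := few_values f H n V
      have b2 : (ε * H) ^ 2 ≤ (#{h ∈ Icc 1 H | f (n + ((h : ℕ) : ℤ)) ∈ V} : ℝ) ^ 2 :=
        pow_le_pow_left₀ (by positivity) hV2.le 2
      have b3 : (#V : ℝ) ≤ M + 1 := by
        have : (#V : ℝ) ≤ M := by exact_mod_cast hV1
        linarith
      have b4 : (#V : ℝ) * P n ≤ (M + 1) * P n := mul_le_mul_of_nonneg_right b3 (hP0 n)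
      rw [hP] at b4 ⊢
      exact b2.trans (b1.trans b4)
    · exact mul_nonneg (by positivity) (hP0 n)
  have hfin : (M + 1) * ∑ i ∈ range N, P (x + (i : ℕ)) ≤ (ε * N) * (ε * H) ^ 2 := by
    have c1 : ((M : ℝ) + 1) * ∑ i ∈ range N, P (x + (i : ℕ)) ≤ (M + 1) * (N * H + 2 * (μ * (N * H * H))) :=
      mul_le_mul_of_nonneg_left htot (by positivity)
    refine c1.trans ?_
    have c2 : ((M : ℝ) + 1) * (2 * (μ * (N * H * H))) = ε ^ 3 / 2 * (N * H * H) := by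
      rw [hμ]; field_simp; norm_num
    have c3 : ((M : ℝ) + 1) * (N * H) ≤ ε ^ 3 / 2 * (N * H * H) := by
      have : (2 * ((M : ℝ) + 1)) * (N * H) ≤ (H * ε ^ 3) * (N * H) := mul_le_mul_of_nonneg_right h2 (by positivity)
      linarith
    have c4 : (ε * (N : ℝ)) * (ε * H) ^ 2 = ε ^ 3 * (N * H * H) := by ring
    rw [c4, mul_add, c2]
    linarith
  exact le_of_mul_le_mul_right (hbad.trans hfin) (by positivity)

end Pool.Agent.J4H39
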