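import Mathlib
import Pool.Agent.J4H39.Z7
import Pool.Agent.J4H26.KT.W5

set_option autoImplicit false

/-! Before the threshold: the theorem. -/

namespace Pool.Agent.J4H39

open Finset Filter Real
open Pool.Agent.J4H26.KT (IsE Adm fW obT wm Tp)

theorem window_ge {θ τ : ℝ} (hθ1 : θ < 1) (hτ : 0 < τ) {n : ℕ} (hn : kn n * τ < θ) :
    ∀ᶠ N : ℕ in atTop, (2 : ℝ) ^ (kn n * tN τ N) ≤ HN θ N ∧ (2 : ℝ) ^ (kn n * tN τ N) ≤ N := by
  have hkn : 0 < kn n := th0_pos.trans (kn_gt n)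
  have hθ : 0 < θ := (mul_pos hkn hτ).trans hn
  have hLt : Tendsto (fun N : ℕ => logb 2 (N : ℝ)) atTop atTop :=
    (Real.tendsto_logb_atTop (by norm_num)).comp tendsto_natCast_atTop_atTop
  have hgap : 0 < θ - kn n * τ := by linarith
  filter_upwards [hLt.eventually_ge_atTop (1 / (θ - kn n * τ)), hLt.eventually_ge_atTop 0, eventually_ge_atTop 1] with N h1 h2 h3
  have hN0 : (0 : ℝ) < N := by exact_mod_cast h3
  have h2L : (2 : ℝ) ^ (logb 2 (N : ℝ)) = N := Real.rpow_logb (by norm_num) (by norm_num) hN0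
  have ht : (tN τ N : ℝ) ≤ τ * logb 2 (N : ℝ) := Nat.floor_le (mul_nonneg hτ.le h2)
  obtain ⟨L, hL⟩ : ∃ L, L = logb 2 (N : ℝ) := ⟨_, rfl⟩
  rw [← hL] at h1 h2 h2L ht
  have h4 : kn n * (tN τ N : ℝ) ≤ kn n * (τ * L) := mul_le_mul_of_nonneg_left ht hkn.le
  rw [div_le_iff₀ hgap] at h1
  have h5 : kn n * (tN τ N : ℝ) + 1 ≤ θ * L := by
    have e : L * (θ - kn n * τ) = θ * L - kn n * (τ * L) := by ring
    linarith
  have h6 : (2 : ℝ) ^ (kn n * tN τ N) * 2 ≤ (N : ℝ) ^ θ := by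
    have e1 : (2 : ℝ) ^ (kn n * tN τ N) * 2 = 2 ^ (kn n * (tN τ N : ℝ) + 1) := by
      rw [Real.rpow_add (by norm_num), Real.rpow_one]
    have e2 : (N : ℝ) ^ θ = 2 ^ (θ * L) := by
      rw [← h2L, ← Real.rpow_mul (by norm_num), mul_comm]
    rw [e1, e2]
    exact Real.rpow_le_rpow_of_exponent_le (by norm_num) h5
  have h7 : (1 : ℝ) ≤ (2 : ℝ) ^ (kn n * tN τ N) := Real.one_le_rpow (by norm_num) (by positivity)
  have h8 : (N : ℝ) ^ θ < HN θ N + 1 := Nat.lt_floor_add_one _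
  refine ⟨by linarith, ?_⟩
  have h9 : (N : ℝ) ^ θ ≤ (N : ℝ) ^ (1 : ℝ) := Real.rpow_le_rpow_of_exponent_le (by exact_mod_cast h3) hθ1.le
  rw [Real.rpow_one] at h9
  linarith

/-- Before the threshold the orbits of random points of a window are independent random walks. -/
theorem before (K : ℕ) {θ τ : ℝ} (hθ : 0 < θ) (hθ1 : θ < 1) (hτ : 0 < τ) (hτθ : τ * th0 < θ) {ε : ℝ} (hε : 0 < ε) :
    ∀ᶠ N : ℕ in atTop, ∀ x : ℤ, ∀ f : (Fin (K + 1) → ℝ) → (Fin (K + 1) → Fin (K + 1) → Prop) → ℝ, Adm f →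
      |wm K N (HN θ N) x (obT f (tN τ N)) - J4H26.KT.iw (fW f (tN τ N)) (tN τ N) (fun _ => 0)| ≤ ε := by
  have hth0 := th0_pos
  -- the number of stages
  obtain ⟨n, hn⟩ : ∃ n, kn n * τ < θ := by
    have h1 : th0 < θ / τ := by rw [lt_div_iff₀ hτ]; linarith
    obtain ⟨n, hn⟩ := (kn_tendsto.eventually_lt_const h1).exists
    refine ⟨n, ?_⟩
    rwa [lt_div_iff₀ hτ] at hn
  obtain ⟨C, hC⟩ : ∃ C : ℝ, C = ((K : ℝ) + 1) ^ 2 * 2 + (K + 1) := ⟨_, rfl⟩
  have hC0 : 0 < C := by rw [hC]; positivity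
  obtain ⟨ε', hε'⟩ : ∃ ε', ε' = ε / (2 * C) := ⟨_, rfl⟩
  have hε'0 : 0 < ε' := by rw [hε']; positivity
  obtain ⟨t₀, ht₀⟩ := one_law n hε'0
  obtain ⟨t₁, ht₁⟩ := walks_rare (K + 1) hε'0
  filter_upwards [rareK K hθ hθ1 hτ hτθ hε'0, window_ge hθ1 hτ hn, (tN_tendsto hτ).eventually_ge_atTop (max t₀ t₁)] with N h1 h2 h3
  intro x f hf
  obtain ⟨t, ht⟩ : ∃ t, t = tN τ N := ⟨_, rfl⟩
  obtain ⟨H, hH⟩ : ∃ H, H = HN θ N := ⟨_, rfl⟩
  rw [← ht, ← hH] at h2
  rw [← ht] at h3 ⊢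
  rw [← hH]
  have h1' := h1 x
  rw [← ht, ← hH] at h1'
  obtain ⟨hB1, hB2⟩ := h2
  have hB0 : (0 : ℝ) < 2 ^ (kn n * t) := by positivity
  have hN1 : 1 ≤ N := by
    have : (0 : ℝ) < N := lt_of_lt_of_le hB0 hB2
    exact_mod_cast this
  have hH1 : 1 ≤ H := by
    have : (0 : ℝ) < H := lt_of_lt_of_le hB0 hB1
    exact_mod_cast this
  have hE := isE_wE K x hN1 hH1
  have hI := isE_iw (K := K + 1) t (fun _ => 0)
  obtain ⟨Ψ, hΨ⟩ : ∃ Ψ : (Fin (K + 1) → ℕ) → ℝ, Ψ = fun o => f (fun i => (o i : ℝ) / √ (t : ℝ)) (fun i j => i = j) := ⟨_, rfl⟩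
  obtain ⟨Ψ', hΨ'⟩ : ∃ Ψ' : (Fin (K + 1) → ℤ) → ℝ, Ψ' = fun z => f (fun i => (z i : ℝ) / √ (t : ℝ)) (fun i j => i = j) := ⟨_, rfl⟩
  -- the window
  have s1 : |wE K x N H (obT f t) - wE K x N H (fun U => Ψ (fun i => od t (U i)))| ≤ ((K : ℝ) + 1) ^ 2 * 2 * ε' := by
    rw [← hE.sub]
    have a1 : ∀ U : Fin (K + 1) → ℤ, |obT f t U - Ψ (fun i => od t (U i))| ≤
        ∑ i, ∑ j, if i = j then 0 else 2 * id1 (T^[t] (U i) = T^[t] (U j)) := by
      intro U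
      rw [hΨ]
      exact pattern_dif hf _ (Tp t U) (fun i => rfl)
    refine (hE.abs_le a1).trans ?_
    have a2 : wE K x N H (fun U => ∑ i, ∑ j, if i = j then 0 else 2 * id1 (T^[t] (U i) = T^[t] (U j))) =
        ∑ i, ∑ j, wE K x N H (fun U => if i = j then 0 else 2 * id1 (T^[t] (U i) = T^[t] (U j))) := by
      rw [hE.sum]
      apply sum_congr rfl
      intro i _
      rw [hE.sum]
    rw [a2]
    have a3 : ∀ i j : Fin (K + 1), wE K x N H (fun U => if i = j then 0 else 2 * id1 (T^[t] (U i) = T^[t] (U j))) ≤ 2 * ε' := by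
      intro i j
      by_cases hij : i = j
      · simp only [if_pos hij]
        rw [hE.const]; positivity
      · simp only [if_neg hij]
        rw [hE.smul]
        have := h1' i j hij
        linarith
    refine (sum_le_sum fun i _ => sum_le_sum fun j _ => a3 i j).trans (le_of_eq ?_)
    simp only [sum_const, card_univ, Fintype.card_fin, nsmul_eq_mul]
    push_cast; ring
  have s2 : |wE K x N H (fun U => Ψ (fun i => od t (U i))) - exK t (K + 1) (fun y => Ψ (fun i => od t (y i)))| ≤ (K + 1) * ε' :=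
    win_law hε'0.le (ht₀ t ((le_max_left _ _).trans h3)) K x hB2 hB1 Ψ (fun o => by rw [hΨ]; exact hf.1 _ _)
  have s3 : exK t (K + 1) (fun y => Ψ (fun i => od t (y i))) = iw Ψ' t (fun _ => 0) := by
    rw [← exK_iw Ψ' t (fun _ => 0)]
    apply exK_congr'
    intro v
    rw [hΨ, hΨ']
    simp only [zero_add, Int.cast_natCast]
  -- the walks
  have s4 : |iw (fW f t) t (fun _ => 0) - iw Ψ' t (fun _ => 0)| ≤ ((K : ℝ) + 1) ^ 2 * 2 * ε' := by
    rw [← hI.sub]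
    have a1 : ∀ z : Fin (K + 1) → ℤ, |fW f t z - Ψ' z| ≤ ∑ i, ∑ j, if i = j then 0 else 2 * id1 (z i = z j) := by
      intro z
      rw [hΨ']
      exact pattern_dif hf _ (fun i j => z i = z j) (fun i => rfl)
    refine (hI.abs_le a1).trans ?_
    have a2 : iw (fun z : Fin (K + 1) → ℤ => ∑ i, ∑ j, if i = j then 0 else 2 * id1 (z i = z j)) t (fun _ => 0) =
        ∑ i, ∑ j, iw (fun z : Fin (K + 1) → ℤ => if i = j then 0 else 2 * id1 (z i = z j)) t (fun _ => 0) := by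
      rw [hI.sum]
      apply sum_congr rfl
      intro i _
      rw [hI.sum]
    rw [a2]
    have a3 : ∀ i j : Fin (K + 1), iw (fun z : Fin (K + 1) → ℤ => if i = j then 0 else 2 * id1 (z i = z j)) t (fun _ => 0) ≤ 2 * ε' := by
      intro i j
      by_cases hij : i = j
      · simp only [if_pos hij]
        rw [hI.const]; positivity
      · simp only [if_neg hij]
        rw [hI.smul]
        have := ht₁ t ((le_max_right _ _).trans h3) i j hij
        linarith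
    refine (sum_le_sum fun i _ => sum_le_sum fun j _ => a3 i j).trans (le_of_eq ?_)
    simp only [sum_const, card_univ, Fintype.card_fin, nsmul_eq_mul]
    push_cast; ring
  have s5 : wm K N H x (obT f t) = wE K x N H (obT f t) := rfl
  rw [s5, ← iw_eq]
  rw [s3] at s2
  have e1 : ((K : ℝ) + 1) ^ 2 * 2 * ε' + (K + 1) * ε' + ((K : ℝ) + 1) ^ 2 * 2 * ε' ≤ ε := by
    have : ε = 2 * C * ε' := by rw [hε']; field_simp
    rw [this, hC]
    have : 0 ≤ ((K : ℝ) + 1) * ε' := by positivity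
    linarith
  rw [abs_le] at s1 s2 s4 ⊢
  constructor <;> linarith [s1.1, s1.2, s2.1, s2.2, s4.1, s4.2]

end Pool.Agent.J4H39
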