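import Mathlib
import Pool.Agent.J4H39.W10

set_option autoImplicit false

namespace Pool.Agent.J4H39

open Finset Filter Topology
open Pool.Agent.H499R2.CO (q step rho)

/-! Choice of the parameters. -/

/-- `log (4/3)` -/
noncomputable def mu2 : ℝ := Real.log 4 - Real.log 3

theorem mu2_pos : 0 < mu2 := by
  unfold mu2
  have := Real.log_lt_log (by norm_num) (show (3 : ℝ) < 4 by norm_num)
  linarith

theorem mu2_lt : mu2 < 1 := by
  unfold mu2
  have h1 := Real.log_two_lt_d9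
  have h3 : Real.log 4 = 2 * Real.log 2 := by
    rw [show (4 : ℝ) = 2 ^ 2 by norm_num, Real.log_pow]; push_cast; ring
  have h4 : Real.log 2 < Real.log 3 := Real.log_lt_log (by norm_num) (by norm_num)
  linarith

theorem log3_pos : 0 < Real.log 3 := Real.log_pos (by norm_num)

theorem log3_ge : 1 ≤ Real.log 3 := by
  rw [Real.le_log_iff_exp_le (by norm_num)]
  linarith [Real.exp_one_lt_d9]

/-- the constant for the good event -/
noncomputable def e1 (ε : ℝ) : ℝ := ε / 4 * (mu2 / Real.log 3)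

theorem e1_pos {ε : ℝ} (hε : 0 < ε) : 0 < e1 ε := by
  unfold e1
  have := mu2_pos
  have := log3_pos
  positivity

theorem e1_le {ε : ℝ} (hε : 0 < ε) : e1 ε ≤ ε / 4 := by
  unfold e1
  have h1 := mu2_pos
  have h2 := log3_ge
  have h3 := mu2_lt
  have : mu2 / Real.log 3 ≤ 1 := by
    rw [div_le_one (by linarith)]; linarith
  calc ε / 4 * (mu2 / Real.log 3) ≤ ε / 4 * 1 := mul_le_mul_of_nonneg_left this (by linarith)
    _ = ε / 4 := mul_one _

theorem log4_lt : Real.log 4 < 1.4 := by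
  have h1 := Real.log_two_lt_d9
  rw [show (4 : ℝ) = 2 ^ 2 by norm_num, Real.log_pow]
  push_cast
  linarith

theorem log4_pos : 0 < Real.log 4 := Real.log_pos (by norm_num)

theorem pow_le_of_log {a b c d H : ℕ} (hH : 1 ≤ H)
    (h : (a : ℝ) * Real.log 3 + 2 * Real.log H + b * Real.log 4 ≤ (c : ℝ) * Real.log 4 + d * Real.log 3) :
    3 ^ a * H ^ 2 * 4 ^ b ≤ 4 ^ c * 3 ^ d := by
  have hH0 : (0 : ℝ) < H := by exact_mod_cast hH
  have h1 : Real.log ((3 : ℝ) ^ a * (H : ℝ) ^ 2 * 4 ^ b) ≤ Real.log ((4 : ℝ) ^ c * 3 ^ d) := by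
    rw [Real.log_mul (by positivity) (by positivity), Real.log_mul (by positivity) (by positivity),
      Real.log_mul (by positivity) (by positivity), Real.log_pow, Real.log_pow, Real.log_pow, Real.log_pow,
      Real.log_pow]
    push_cast
    exact h
  have h2 := (Real.log_le_log_iff (by positivity) (by positivity)).1 h1
  exact_mod_cast h2

theorem pow_le_of_log2 {a b c d H : ℕ} (hH : 1 ≤ H)
    (h : (a : ℝ) * Real.log 4 + b * Real.log 3 ≤ (c : ℝ) * Real.log 3 + 2 * Real.log H + d * Real.log 4) :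
    4 ^ a * 3 ^ b ≤ 3 ^ c * H ^ 2 * 4 ^ d := by
  have hH0 : (0 : ℝ) < H := by exact_mod_cast hH
  have h1 : Real.log ((4 : ℝ) ^ a * 3 ^ b) ≤ Real.log ((3 : ℝ) ^ c * (H : ℝ) ^ 2 * 4 ^ d) := by
    rw [Real.log_mul (by positivity) (by positivity), Real.log_mul (by positivity) (by positivity),
      Real.log_mul (by positivity) (by positivity), Real.log_pow, Real.log_pow, Real.log_pow, Real.log_pow,
      Real.log_pow]
    push_cast
    exact h
  have h2 := (Real.log_le_log_iff (by positivity) (by positivity)).1 h1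
  exact_mod_cast h2

/-- All the numerical conditions. -/
theorem par_ok {α ε : ℝ} (hε : 0 < ε) (hα : 20 * ε ≤ α) (hα1 : α + 20 * ε ≤ 1) :
    ∃ t0 : ℕ, ∀ t ≥ t0, 100 ≤ ε * t ∧ (kk t : ℝ) ≤ ε / 200 * t ∧ ∀ H : ℕ, 1 ≤ H →
      (α - ε / 4) * mu2 * t ≤ 2 * Real.log H → 2 * Real.log H ≤ (α + ε / 4) * mu2 * t →
      ∃ i0 i1 s : ℕ, Par t H (kk t) (ll t) ⌊e1 ε * t⌋₊ i0 i1 s ∧
        ((i0 : ℝ) * kk t ≤ ε * t + kk t) ∧ ((i1 : ℝ) * kk t ≤ (α - ε) * t) ∧ ((α - ε) * t - kk t ≤ (i1 : ℝ) * kk t) ∧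
        ((s : ℝ) ≤ (α + ε) * t + 1) := by
  have hmu := mu2_pos
  have hmu1 := mu2_lt
  obtain ⟨t1, ht1⟩ := eventually_atTop.1 (kk_div.eventually (gt_mem_nhds (show (0 : ℝ) < ε * mu2 / 200 by positivity)))
  refine ⟨max (max t1 1) ⌈100 / ε⌉₊, fun t ht => ?_⟩
  have ht1' : t1 ≤ t := (le_max_left _ _).trans ((le_max_left _ _).trans ht)
  have ht2 : 1 ≤ t := (le_max_right _ _).trans ((le_max_left _ _).trans ht)
  have ht3 : ⌈100 / ε⌉₊ ≤ t := (le_max_right _ _).trans ht
  have ht0 : (0 : ℝ) < t := by exact_mod_cast ht2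
  have hεt : 100 ≤ ε * t := by
    have : 100 / ε ≤ t := Nat.ceil_le.1 ht3
    rw [div_le_iff₀ hε] at this
    linarith
  have hkt : (kk t : ℝ) ≤ ε * mu2 / 200 * t := by
    have := ht1 t ht1'
    rw [div_lt_iff₀ ht0] at this
    exact this.le
  have hkt2 : (kk t : ℝ) ≤ ε / 200 * t := by
    refine hkt.trans ?_
    apply mul_le_mul_of_nonneg_right _ ht0.le
    have : ε * mu2 ≤ ε := mul_le_of_le_one_right hε.le hmu1.le
    linarith
  refine ⟨hεt, hkt2, fun H hH h1 h2 => ?_⟩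
  have hk1 := kk_pos ht2
  have hk : (1 : ℝ) ≤ kk t := by exact_mod_cast hk1
  have hk0 : (0 : ℝ) < kk t := by linarith
  have hll := ll_le ht2
  have hε1 : ε ≤ 1 / 20 := by linarith
  have hαt : 20 * ε * t ≤ α * t := mul_le_mul_of_nonneg_right hα ht0.le
  have hα1t : (α + 20 * ε) * t ≤ 1 * t := mul_le_mul_of_nonneg_right hα1 ht0.le
  set i0 : ℕ := ⌈ε * t / kk t⌉₊ with hi0
  set i1 : ℕ := ⌊(α - ε) * t / kk t⌋₊ with hi1
  set s : ℕ := ⌈(α + ε) * t⌉₊ with hs
  have hi0a : ε * t ≤ (i0 : ℝ) * kk t := by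
    have := Nat.le_ceil (ε * t / (kk t : ℝ))
    rw [div_le_iff₀ hk0] at this
    exact this
  have hi0b : (i0 : ℝ) * kk t ≤ ε * t + kk t := by
    have := Nat.ceil_lt_add_one (show 0 ≤ ε * t / (kk t : ℝ) by positivity)
    rw [← hi0] at this
    have h3 : (i0 : ℝ) * kk t ≤ (ε * t / kk t + 1) * kk t := mul_le_mul_of_nonneg_right this.le hk0.le
    have h4 : (ε * t / (kk t : ℝ) + 1) * kk t = ε * t + kk t := by field_simp
    linarith
  have hαε : 0 < α - ε := by linarith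
  have hi1a : (i1 : ℝ) * kk t ≤ (α - ε) * t := by
    have := Nat.floor_le (show 0 ≤ (α - ε) * t / (kk t : ℝ) by positivity)
    rw [← hi1, le_div_iff₀ hk0] at this
    exact this
  have hi1b : (α - ε) * t - kk t ≤ (i1 : ℝ) * kk t := by
    have := Nat.lt_floor_add_one ((α - ε) * t / (kk t : ℝ))
    rw [← hi1] at this
    have h3 : (α - ε) * t / (kk t : ℝ) * kk t ≤ ((i1 : ℝ) + 1) * kk t := mul_le_mul_of_nonneg_right this.le hk0.le
    have h4 : (α - ε) * t / (kk t : ℝ) * kk t = (α - ε) * t := by field_simp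
    linarith
  have hsa : (α + ε) * t ≤ s := Nat.le_ceil _
  have hsb : (s : ℝ) ≤ (α + ε) * t + 1 := by
    have := Nat.ceil_lt_add_one (show 0 ≤ (α + ε) * (t : ℝ) from mul_nonneg (by linarith) ht0.le)
    rw [← hs] at this
    exact this.le
  have hδ : (⌊e1 ε * t⌋₊ : ℝ) * Real.log 3 ≤ ε / 4 * mu2 * t := by
    have h3 := Nat.floor_le (show 0 ≤ e1 ε * (t : ℝ) by have := e1_pos hε; positivity)
    have h4 := log3_pos
    calc (⌊e1 ε * t⌋₊ : ℝ) * Real.log 3 ≤ (e1 ε * t) * Real.log 3 := mul_le_mul_of_nonneg_right h3 h4.le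
      _ = ε / 4 * mu2 * t := by unfold e1; field_simp
  have hl4 := log4_lt
  have hl4' := log4_pos
  have hmudef : Real.log 4 = mu2 + Real.log 3 := by unfold mu2; ring
  have hkl : (kk t : ℝ) * Real.log 4 ≤ ε / 2 * mu2 * t := by
    have : (kk t : ℝ) * Real.log 4 ≤ (ε * mu2 / 200 * t) * 1.4 :=
      mul_le_mul hkt hl4.le hl4'.le (by positivity)
    have h5 : 0 < ε * mu2 * t := by positivity
    linarith
  have hll4 : (2 * (ll t : ℝ)) * Real.log 4 ≤ ε / 2 * mu2 * t := by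
    have : (2 * (ll t : ℝ)) * Real.log 4 ≤ (52 * (ε * mu2 / 200 * t)) * 1.4 := by
      apply mul_le_mul _ hl4.le hl4'.le (by positivity)
      linarith
    have h5 : 0 < ε * mu2 * t := by positivity
    linarith
  refine ⟨i0, i1, s, ⟨hk1, hH, ?_, ?_, ?_, ?_, ?_, ?_, ?_⟩, hi0b, hi1a, hi1b, hsb⟩
  · -- i0 ≤ i1
    have h3 : (i0 : ℝ) * kk t ≤ i1 * kk t := by
      refine hi0b.trans (le_trans ?_ hi1b)
      linarith
    have h4 := le_of_mul_le_mul_right h3 hk0
    exact_mod_cast h4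
  · have : (i1 : ℝ) * kk t ≤ s := by
      refine hi1a.trans (le_trans ?_ hsa)
      linarith
    exact_mod_cast this
  · have : (s : ℝ) ≤ t := by
      refine hsb.trans ?_
      linarith
    exact_mod_cast this
  · -- c1
    have h3 := pow_le_of_log (a := s + ⌊e1 ε * t⌋₊) (b := 0) (c := s) (d := 0) hH (by
      push_cast
      have h5 : (α + ε) * t * mu2 ≤ s * mu2 := mul_le_mul_of_nonneg_right hsa hmu.le
      rw [hmudef]
      have h6 : 0 < ε * mu2 * t := by positivity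
      linarith)
    simpa using h3
  · -- c2
    have h3 := pow_le_of_log2 (a := i1 * kk t + kk t) (b := ⌊e1 ε * t⌋₊) (c := i1 * kk t) (d := 0) hH (by
      push_cast
      have h5 : (i1 : ℝ) * kk t * mu2 ≤ (α - ε) * t * mu2 := mul_le_mul_of_nonneg_right hi1a hmu.le
      have h6 : ((i1 : ℝ) * kk t + kk t) * Real.log 4 = i1 * kk t * mu2 + i1 * kk t * Real.log 3 + kk t * Real.log 4 := by
        rw [hmudef]; ring
      rw [h6]
      linarith)
    simpa using h3
  · have h3 := pow_le_of_log2 (a := i1 * kk t + 2 * ll t) (b := ⌊e1 ε * t⌋₊) (c := i1 * kk t) (d := 0) hH (by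
      push_cast
      have h5 : (i1 : ℝ) * kk t * mu2 ≤ (α - ε) * t * mu2 := mul_le_mul_of_nonneg_right hi1a hmu.le
      have h6 : ((i1 : ℝ) * kk t + 2 * ll t) * Real.log 4 = i1 * kk t * mu2 + i1 * kk t * Real.log 3 + 2 * ll t * Real.log 4 := by
        rw [hmudef]; ring
      rw [h6]
      linarith)
    simpa using h3
  · -- c4
    have h3 := pow_le_of_log (a := i0 * kk t + ⌊e1 ε * t⌋₊) (b := 0) (c := i0 * kk t) (d := 0) (H := 1) le_rfl (by
      push_cast
      rw [Real.log_one, hmudef]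
      have h5 : ε * t * mu2 ≤ (i0 : ℝ) * kk t * mu2 := mul_le_mul_of_nonneg_right hi0a hmu.le
      have h6 : 0 < ε * mu2 * t := by positivity
      linarith)
    simpa using h3

/-- Upper bound, asymptotic form. -/
theorem asym_ub {α : ℝ} (hα0 : 0 < α) (hα1 : α < 1) {η : ℝ} (hη : 0 < η) :
    ∃ ι : ℝ, 0 < ι ∧ ∃ t0 : ℕ, ∀ t ≥ t0, ∀ H : ℕ, 1 ≤ H → (α - ι) * mu2 * t ≤ 2 * Real.log H →
      2 * Real.log H ≤ (α + ι) * mu2 * t →
      ∑ h ∈ Icc 1 H, pb t (fun n => ¬ mg h t n) ≤ H * (2 / Real.pi * Real.arcsin √ α + η) := by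
  obtain ⟨C, hC, hrate⟩ := Pool.Agent.H499R2.CO.q_rate
  -- choice of ε
  have hcont : Tendsto (fun ε : ℝ => 2 / Real.pi * Real.arcsin √ ((α + 7 * ε) / (1 - 8 * ε))) (𝓝[>] 0)
      (𝓝 (2 / Real.pi * Real.arcsin √ α)) := by
    have h1 : ContinuousAt (fun ε : ℝ => 2 / Real.pi * Real.arcsin √ ((α + 7 * ε) / (1 - 8 * ε))) 0 := by
      apply ContinuousAt.mul continuousAt_const
      apply Real.continuous_arcsin.continuousAt.comp
      apply Real.continuous_sqrt.continuousAt.comp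
      apply ContinuousAt.div
      · fun_prop
      · fun_prop
      · norm_num
    have h2 := h1.tendsto
    simp only [mul_zero, add_zero, sub_zero, div_one] at h2
    exact h2.mono_left nhdsWithin_le_nhds
  have hev := (hcont.eventually (gt_mem_nhds (show 2 / Real.pi * Real.arcsin √ α < 2 / Real.pi * Real.arcsin √ α + η / 2 by linarith)))
  have hev2 : ∀ᶠ ε : ℝ in 𝓝[>] 0, ε < min (α / 20) ((1 - α) / 20) := by
    apply Filter.Eventually.filter_mono nhdsWithin_le_nhds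
    exact gt_mem_nhds (lt_min (by linarith) (by linarith))
  obtain ⟨ε, ⟨hε1, hε2⟩, hε0⟩ := ((hev.and hev2).and self_mem_nhdsWithin).exists
  have hε0 : 0 < ε := hε0
  have hεa : 20 * ε ≤ α := by have := hε2.le.trans (min_le_left _ _); linarith
  have hεb : α + 20 * ε ≤ 1 := by have := hε2.le.trans (min_le_right _ _); linarith
  obtain ⟨t0, ht0⟩ := par_ok hε0 hεa hεb
  -- the error
  have herr : Tendsto (fun t : ℕ => Qr C ε t + 2 * pb t (fun n => ¬ Gd t (4 ^ ll t : ℕ) (⌊e1 ε * t⌋₊ : ℕ) n) + Er ε t +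
      (1 / √ ((1 / 16 : ℝ) * t) + 4 / (ε * t))) atTop (𝓝 (0 + 2 * 0 + 0 + (0 + 0))) := by
    apply Tendsto.add
    · apply Tendsto.add
      · exact (Qr_tendsto hC hε0).add ((Gd_tendsto (e1_pos hε0)).const_mul 2)
      · exact Er_tendsto hε0
    · apply Tendsto.add
      · apply tendsto_const_nhds.div_atTop
        apply Real.tendsto_sqrt_atTop.comp
        exact tendsto_natCast_atTop_atTop.const_mul_atTop (by norm_num)
      · apply tendsto_const_nhds.div_atTop
        exact tendsto_natCast_atTop_atTop.const_mul_atTop hε0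
  obtain ⟨t2, ht2⟩ := eventually_atTop.1 (herr.eventually (gt_mem_nhds (show (0 + 2 * 0 + 0 + (0 + 0) : ℝ) < η / 2 by linarith)))
  refine ⟨ε / 4, by linarith, max (max t0 t2) 1, fun t ht H hH h1 h2 => ?_⟩
  have ht0' : t0 ≤ t := (le_max_left _ _).trans ((le_max_left _ _).trans ht)
  have ht2' : t2 ≤ t := (le_max_right _ _).trans ((le_max_left _ _).trans ht)
  have ht1 : 1 ≤ t := (le_max_right _ _).trans ht
  have htr : (0 : ℝ) < t := by exact_mod_cast ht1
  obtain ⟨hεt, hkt, hpar⟩ := ht0 t ht0'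
  obtain ⟨i0, i1, s, P, p1, p2, p3, p4⟩ := hpar H hH h1 h2
  have herrt := ht2 t ht2'
  set t' : ℕ := ⌊(1 - ε) * t⌋₊ with ht'
  have hε1' : ε ≤ 1 / 20 := by linarith
  have ht'a : (t' : ℝ) ≤ (1 - ε) * t := Nat.floor_le (mul_nonneg (by linarith) htr.le)
  have ht'b : (1 - ε) * t - 1 ≤ t' := by
    have := Nat.lt_floor_add_one ((1 - ε) * (t : ℝ))
    rw [← ht'] at this
    linarith
  set a : ℕ := ⌊(α + 6 * ε) * t / 4⌋₊ + 1 with ha
  set b : ℕ := ⌊(1 - 7 * ε) * t / 4⌋₊ with hb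
  have ha1 : (α + 6 * ε) * t < 4 * a := by
    have := Nat.lt_floor_add_one ((α + 6 * ε) * t / 4)
    rw [ha]; push_cast; linarith
  have ha2 : (4 * a : ℝ) ≤ (α + 6 * ε) * t + 4 := by
    have := Nat.floor_le (show 0 ≤ (α + 6 * ε) * t / 4 by positivity)
    rw [ha]; push_cast; linarith
  have hb1 : (4 * b : ℝ) ≤ (1 - 7 * ε) * t := by
    have := Nat.floor_le (show 0 ≤ (1 - 7 * ε) * t / 4 from div_nonneg (mul_nonneg (by linarith) htr.le) (by norm_num))
    rw [← hb] at this; linarith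
  have hb2 : (1 - 7 * ε) * t - 4 ≤ 4 * b := by
    have := Nat.lt_floor_add_one ((1 - 7 * ε) * t / 4)
    rw [← hb] at this; linarith
  have hslack : (α + 20 * ε) * t ≤ 1 * t := mul_le_mul_of_nonneg_right hεb htr.le
  have hαt : 0 < α * t := by positivity
  have hab : a + 3 ≤ b := by
    have : (a : ℝ) + 3 ≤ b := by linarith
    exact_mod_cast this
  have hst' : s ≤ t' := by
    have : (s : ℝ) ≤ t' := by linarith
    exact_mod_cast this
  have ht't : t' < t := by
    have : (t' : ℝ) < t := by linarith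
    exact_mod_cast this
  have hα1' : 0 ≤ α := hα0.le
  have hmain := main_ub hC hrate P hε0.le (t' := t') (m := 2 * (b - a)) (mt := 2 * b) hst' ht't (Q := Qr C ε t)
    (by unfold Qr; positivity) (by
      intro k' hk1 hk2
      apply QQ_le_Qr hC hε0 ht1 _ hk2
      have : ((t - t' : ℕ) : ℝ) ≤ k' := by exact_mod_cast hk1
      rw [Nat.cast_sub ht't.le] at this
      linarith) (by omega)
    (by
      push_cast
      rw [Nat.cast_sub (by omega : a ≤ b)]
      have q1 : ε * (i1 * kk t) ≤ ε * t := by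
        apply mul_le_mul_of_nonneg_left _ hε0.le
        refine p2.trans ?_
        linarith
      linarith)
    (by
      push_cast
      linarith)
  refine hmain.trans ?_
  have hHr : (0 : ℝ) ≤ H := by positivity
  apply mul_le_mul_of_nonneg_left _ hHr
  -- arcsine
  have harc := arc_law (a := a) (b := b) (by omega) hab
  rw [abs_le] at harc
  have hb0 : (0 : ℝ) < b := by exact_mod_cast (by omega : 0 < b)
  have hratio : (a : ℝ) / b ≤ (α + 7 * ε) / (1 - 8 * ε) := by
    rw [div_le_div_iff₀ hb0 (by linarith)]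
    have h3 : (4 * a : ℝ) ≤ (α + 7 * ε) * t := by linarith
    have h4 : (1 - 8 * ε) * t ≤ 4 * b := by linarith
    have h5 : (4 * a : ℝ) * ((1 - 8 * ε) * t) ≤ ((α + 7 * ε) * t) * (4 * b) :=
      mul_le_mul h3 h4 (mul_nonneg (by linarith) htr.le) (by positivity)
    have h6 : (a : ℝ) * (1 - 8 * ε) * (4 * t) ≤ (α + 7 * ε) * b * (4 * t) := by linarith
    exact le_of_mul_le_mul_right h6 (by positivity)
  have hpi := Real.pi_pos
  have h7 : 2 / Real.pi * Real.arcsin √ ((a : ℝ) / b) ≤ 2 / Real.pi * Real.arcsin √ ((α + 7 * ε) / (1 - 8 * ε)) := by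
    apply mul_le_mul_of_nonneg_left _ (by positivity)
    apply Real.monotone_arcsin
    exact Real.sqrt_le_sqrt hratio
  have h8 : 1 / √ (b : ℝ) ≤ 1 / √ ((1 / 16 : ℝ) * t) := by
    apply one_div_le_one_div_of_le (Real.sqrt_pos.2 (by positivity))
    apply Real.sqrt_le_sqrt
    linarith
  have h9 : 4 / ((b : ℝ) - a) ≤ 4 / (ε * t) := by
    apply div_le_div_of_nonneg_left (by norm_num) (by positivity)
    linarith
  have h10 : Er ε t = (t + 1) * (56 * (t + 1) ^ 2 * (4 ^ ll t : ℝ) ^ 2 * Real.exp (-((ε * kk t) ^ 2 / (2 * kk t)))) +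
      (t + 1) * (12 * (t + 1) * 4 ^ ll t * Real.exp (-((ε * kk t) ^ 2 / (2 * kk t)))) := rfl
  rw [h10] at herrt
  linarith [harc.2]

end Pool.Agent.J4H39
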