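import Mathlib
import Pool.Agent.J4H39.W11

set_option autoImplicit false

namespace Pool.Agent.J4H39

open Finset Filter Topology
open Pool.Agent.H499R2.CO (q step rho)

/-- Lower bound, asymptotic form. -/
theorem asym_lb {α : ℝ} (hα0 : 0 < α) (hα1 : α < 1) {η : ℝ} (hη : 0 < η) :
    ∃ ι : ℝ, 0 < ι ∧ ∃ κ : ℝ, 0 < κ ∧ κ ≤ 1 / 100 ∧ ∃ t0 : ℕ, ∀ t ≥ t0, ∀ H : ℕ, 1 ≤ H →
      (α - ι) * mu2 * t ≤ 2 * Real.log H → 2 * Real.log H ≤ (α + ι) * mu2 * t →
      H * (2 / Real.pi * Real.arcsin √ α - η) ≤ ∑ h ∈ Icc 1 H, pb t (Su h t (ll t) ⌊κ * t⌋₊) := by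
  -- choice of ε
  have hcont : Tendsto (fun ε : ℝ => 2 / Real.pi * Real.arcsin √ ((α - 5 * ε) / (1 + 9 * ε))) (𝓝[>] 0)
      (𝓝 (2 / Real.pi * Real.arcsin √ α)) := by
    have h1 : ContinuousAt (fun ε : ℝ => 2 / Real.pi * Real.arcsin √ ((α - 5 * ε) / (1 + 9 * ε))) 0 := by
      apply ContinuousAt.mul continuousAt_const
      apply Real.continuous_arcsin.continuousAt.comp
      apply Real.continuous_sqrt.continuousAt.comp
      apply ContinuousAt.div
      · fun_prop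
      · fun_prop
      · norm_num
    have h2 := h1.tendsto
    simp only [mul_zero, add_zero, sub_zero, div_one] at h2
    exact h2.mono_left nhdsWithin_le_nhds
  have hev := (hcont.eventually (lt_mem_nhds (show 2 / Real.pi * Real.arcsin √ α - η / 2 < 2 / Real.pi * Real.arcsin √ α by linarith)))
  have hev2 : ∀ᶠ ε : ℝ in 𝓝[>] 0, ε < min (α / 20) ((1 - α) / 20) := by
    apply Filter.Eventually.filter_mono nhdsWithin_le_nhds
    exact gt_mem_nhds (lt_min (by linarith) (by linarith))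
  obtain ⟨ε, ⟨hε1, hε2⟩, hε0⟩ := ((hev.and hev2).and self_mem_nhdsWithin).exists
  have hε0 : 0 < ε := hε0
  have hεa : 20 * ε ≤ α := by have := hε2.le.trans (min_le_left _ _); linarith
  have hεb : α + 20 * ε ≤ 1 := by have := hε2.le.trans (min_le_right _ _); linarith
  obtain ⟨t0, ht0⟩ := par_ok hε0 hεa hεb
  -- the error
  have herr : Tendsto (fun t : ℕ => 2 * (kk t : ℝ) / √ (⌊ε * t⌋₊ : ℕ) +
      4 * pb t (fun n => ¬ Gd t (4 ^ ll t : ℕ) (⌊e1 ε * t⌋₊ : ℕ) n) + Er ε t +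
      (1 / √ ((1 / 16 : ℝ) * t) + 4 / (ε * t))) atTop (𝓝 (0 + 4 * 0 + 0 + (0 + 0))) := by
    apply Tendsto.add
    · apply Tendsto.add
      · exact (lbe_tendsto hε0).add ((Gd_tendsto (e1_pos hε0)).const_mul 4)
      · exact Er_tendsto hε0
    · apply Tendsto.add
      · apply tendsto_const_nhds.div_atTop
        apply Real.tendsto_sqrt_atTop.comp
        exact tendsto_natCast_atTop_atTop.const_mul_atTop (by norm_num)
      · apply tendsto_const_nhds.div_atTop
        exact tendsto_natCast_atTop_atTop.const_mul_atTop hε0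
  obtain ⟨t2, ht2⟩ := eventually_atTop.1 (herr.eventually (gt_mem_nhds (show (0 + 4 * 0 + 0 + (0 + 0) : ℝ) < η / 2 by linarith)))
  have hε40 : ε ≤ 1 / 40 := by linarith
  refine ⟨ε / 4, by linarith, e1 ε, e1_pos hε0, (e1_le hε0).trans (by linarith), max (max t0 t2) 1, fun t ht H hH h1 h2 => ?_⟩
  have ht0' : t0 ≤ t := (le_max_left _ _).trans ((le_max_left _ _).trans ht)
  have ht2' : t2 ≤ t := (le_max_right _ _).trans ((le_max_left _ _).trans ht)
  have ht1 : 1 ≤ t := (le_max_right _ _).trans ht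
  have htr : (0 : ℝ) < t := by exact_mod_cast ht1
  obtain ⟨hεt, hkt, hpar⟩ := ht0 t ht0'
  obtain ⟨i0, i1, s, P, p1, p2, p3, p4⟩ := hpar H hH h1 h2
  have herrt := ht2 t ht2'
  have hε1' : ε ≤ 1 / 20 := by linarith
  have hslack : (α + 20 * ε) * t ≤ 1 * t := mul_le_mul_of_nonneg_right hεb htr.le
  have hslack2 : 20 * ε * t ≤ α * t := mul_le_mul_of_nonneg_right hεa htr.le
  have hαt : 0 < α * t := by positivity
  set a : ℕ := ⌊(α - 4 * ε) * t / 4⌋₊ with ha
  set b : ℕ := ⌊(1 + 8 * ε) * t / 4⌋₊ + 1 with hb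
  set q0 : ℕ := ⌊ε * t⌋₊ with hq0
  have ha1 : (4 * a : ℝ) ≤ (α - 4 * ε) * t := by
    have := Nat.floor_le (show 0 ≤ (α - 4 * ε) * t / 4 by linarith)
    rw [← ha] at this; linarith
  have ha2 : (α - 4 * ε) * t - 4 ≤ 4 * a := by
    have := Nat.lt_floor_add_one ((α - 4 * ε) * t / 4)
    rw [← ha] at this; linarith
  have hb1 : (1 + 8 * ε) * t ≤ 4 * b := by
    have := Nat.lt_floor_add_one ((1 + 8 * ε) * t / 4)
    rw [hb]; push_cast; linarith
  have hb2 : (4 * b : ℝ) ≤ (1 + 8 * ε) * t + 4 := by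
    have := Nat.floor_le (show 0 ≤ (1 + 8 * ε) * t / 4 by positivity)
    rw [hb]; push_cast; linarith
  have hq0a : (q0 : ℝ) ≤ ε * t := Nat.floor_le (by positivity)
  have hq01 : 1 ≤ q0 := by
    rw [hq0]
    apply Nat.le_floor
    push_cast
    linarith
  have hab : a + 3 ≤ b := by
    have : (a : ℝ) + 3 ≤ b := by linarith
    exact_mod_cast this
  have ha0 : 1 ≤ a := by
    have : (1 : ℝ) ≤ a := by linarith
    exact_mod_cast this
  have hi1t : ε * (i1 * kk t) ≤ ε * t := by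
    apply mul_le_mul_of_nonneg_left _ hε0.le
    refine p2.trans ?_
    linarith
  have hmain := main_lb P hε0.le (m := 2 * (b - a)) (mt := 2 * b) (q0 := q0) (by omega) hq01
    (by
      push_cast
      rw [Nat.cast_sub (by omega : a ≤ b)]
      linarith)
    (by
      push_cast
      linarith)
  have hHr : (0 : ℝ) ≤ H := by positivity
  -- arcsine
  have harc := arc_law (a := a) (b := b) (by omega) hab
  rw [abs_le] at harc
  have hb0 : (0 : ℝ) < b := by exact_mod_cast (by omega : 0 < b)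
  have hratio : (α - 5 * ε) / (1 + 9 * ε) ≤ (a : ℝ) / b := by
    rw [div_le_div_iff₀ (by linarith) hb0]
    have h3 : (α - 5 * ε) * t ≤ (4 * a : ℝ) := by linarith
    have h4 : 4 * b ≤ (1 + 9 * ε) * t := by linarith
    have h5 : ((α - 5 * ε) * t) * (4 * b) ≤ (4 * a : ℝ) * ((1 + 9 * ε) * t) :=
      mul_le_mul h3 h4 (by positivity) (by positivity)
    have h6 : (α - 5 * ε) * b * (4 * t) ≤ (a : ℝ) * (1 + 9 * ε) * (4 * t) := by linarith
    exact le_of_mul_le_mul_right h6 (by positivity)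
  have hpi := Real.pi_pos
  have h7 : 2 / Real.pi * Real.arcsin √ ((α - 5 * ε) / (1 + 9 * ε)) ≤ 2 / Real.pi * Real.arcsin √ ((a : ℝ) / b) := by
    apply mul_le_mul_of_nonneg_left _ (by positivity)
    apply Real.monotone_arcsin
    exact Real.sqrt_le_sqrt hratio
  have h8 : 1 / √ (b : ℝ) ≤ 1 / √ ((1 / 16 : ℝ) * t) := by
    apply one_div_le_one_div_of_le (Real.sqrt_pos.2 (by positivity))
    apply Real.sqrt_le_sqrt
    linarith
  have h9 : 4 / ((b : ℝ) - a) ≤ 4 / (ε * t) := by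
    apply div_le_div_of_nonneg_left (by norm_num) (by positivity)
    linarith
  have h10 : Er ε t = (t + 1) * (56 * (t + 1) ^ 2 * (4 ^ ll t : ℝ) ^ 2 * Real.exp (-((ε * kk t) ^ 2 / (2 * kk t)))) +
      (t + 1) * (12 * (t + 1) * 4 ^ ll t * Real.exp (-((ε * kk t) ^ 2 / (2 * kk t)))) := rfl
  rw [h10] at herrt
  set R : ℝ := 2 * kk t / √ q0 + 4 * pb t (fun n => ¬ Gd t (4 ^ ll t : ℕ) (⌊e1 ε * t⌋₊ : ℕ) n) +
      (t + 1) * (56 * (t + 1) ^ 2 * (4 ^ ll t : ℝ) ^ 2 * Real.exp (-((ε * kk t) ^ 2 / (2 * kk t)))) +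
      (t + 1) * (12 * (t + 1) * 4 ^ ll t * Real.exp (-((ε * kk t) ^ 2 / (2 * kk t)))) with hR
  have h11 : 2 / Real.pi * Real.arcsin √ α - η + R ≤ F (2 * (b - a)) (2 * b) 0 := by
    linarith [harc.1]
  have h12 := mul_le_mul_of_nonneg_left h11 hHr
  have h13 : (H : ℝ) * (2 / Real.pi * Real.arcsin √ α - η + R) =
      H * (2 / Real.pi * Real.arcsin √ α - η) + H * R := by ring
  rw [h13] at h12
  linarith

end Pool.Agent.J4H39
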