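import Mathlib
import Pool.Agent.J4H39.W12

set_option autoImplicit false

namespace Pool.Agent.J4H39

open Finset Filter Topology

/-! From classes to integers. -/

open Classical in
/-- Number of `n ∈ [x, x + ℓ)` with `P n`. -/
noncomputable def cnt (x : ℤ) (ℓ : ℕ) (P : ℤ → Prop) : ℝ := ∑ i ∈ range ℓ, if P (x + (i : ℕ)) then 1 else 0

theorem cnt_nonneg (x : ℤ) (ℓ : ℕ) (P : ℤ → Prop) : 0 ≤ cnt x ℓ P := by
  unfold cnt
  exact sum_nonneg (fun i _ => by split_ifs <;> norm_num)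

theorem cnt_mono {x : ℤ} {ℓ : ℕ} {P Q : ℤ → Prop} (h : ∀ n, P n → Q n) : cnt x ℓ P ≤ cnt x ℓ Q := by
  unfold cnt
  apply sum_le_sum
  intro i _
  have := h (x + (i : ℕ))
  split_ifs with h1 h2 h2
  · exact le_rfl
  · exact absurd (this h1) h2
  · exact zero_le_one
  · exact le_rfl

theorem cnt_or (x : ℤ) (ℓ : ℕ) (P Q : ℤ → Prop) : cnt x ℓ (fun n => P n ∨ Q n) ≤ cnt x ℓ P + cnt x ℓ Q := by
  unfold cnt
  rw [← sum_add_distrib]
  apply sum_le_sum
  intro i _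
  by_cases h1 : P (x + (i : ℕ)) <;> by_cases h2 : Q (x + (i : ℕ)) <;> simp [h1, h2]

theorem cnt_not (x : ℤ) (ℓ : ℕ) (P : ℤ → Prop) : cnt x ℓ (fun n => ¬ P n) = ℓ - cnt x ℓ P := by
  have : cnt x ℓ (fun n => ¬ P n) + cnt x ℓ P = ℓ := by
    unfold cnt
    rw [← sum_add_distrib]
    rw [show (ℓ : ℝ) = ∑ i ∈ range ℓ, (1 : ℝ) by simp]
    apply sum_congr rfl
    intro i _
    by_cases h1 : P (x + (i : ℕ)) <;> simp [h1]
  linarith

theorem cnt_add (x : ℤ) (a b : ℕ) (P : ℤ → Prop) : cnt x (a + b) P = cnt x a P + cnt (x + a) b P := by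
  unfold cnt
  rw [sum_range_add]
  congr 1
  apply sum_congr rfl
  intro i _
  push_cast
  rw [add_assoc]

theorem cnt_le_len {x : ℤ} {a b : ℕ} (h : a ≤ b) (P : ℤ → Prop) : cnt x a P ≤ cnt x b P := by
  obtain ⟨d, rfl⟩ := Nat.exists_eq_add_of_le h
  rw [cnt_add]
  have := cnt_nonneg (x + a) d P
  linarith

theorem cnt_full {j : ℕ} {P : ℤ → Prop} (hP : Per j P) (x : ℤ) (c : ℕ) :
    cnt x (c * 2 ^ j) P = (c * 2 ^ j : ℝ) * pb j P := by
  induction c with
  | zero => simp [cnt]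
  | succ c ih =>
    rw [show (c + 1) * 2 ^ j = c * 2 ^ j + 2 ^ j by ring, cnt_add, ih]
    have h1 := pb_shift j hP (x + (c * 2 ^ j : ℕ))
    have h2 : cnt (x + (c * 2 ^ j : ℕ)) (2 ^ j) P = 2 ^ j * pb j P := by
      rw [← h1]
      unfold cnt pb ex
      rw [mul_div_cancel₀ _ (by positivity)]
      apply sum_congr rfl
      intro i _
      beta_reduce
      rw [add_comm ((i : ℕ) : ℤ) (x + (c * 2 ^ j : ℕ))]
    rw [h2]
    push_cast
    ring

theorem cnt_upper {j : ℕ} {P : ℤ → Prop} (hP : Per j P) (x : ℤ) (ℓ : ℕ) : cnt x ℓ P ≤ (ℓ + 2 ^ j : ℝ) * pb j P := by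
  set c := ℓ / 2 ^ j + 1 with hc
  have h1 : ℓ ≤ c * 2 ^ j := by
    have := Nat.lt_div_mul_add (a := ℓ) (b := 2 ^ j) (by positivity)
    rw [hc, add_mul, one_mul]; exact this.le
  have h2 : c * 2 ^ j ≤ ℓ + 2 ^ j := by
    rw [hc, add_mul, one_mul]
    have := Nat.div_mul_le_self ℓ (2 ^ j)
    omega
  refine (cnt_le_len h1 P).trans ?_
  rw [cnt_full hP]
  apply mul_le_mul_of_nonneg_right _ (pb_nonneg _ _)
  exact_mod_cast h2

/-- The time. -/
noncomputable def tN (τ : ℝ) (N : ℕ) : ℕ := ⌊τ * Real.logb 2 N⌋₊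

/-- The length of the range of the shift. -/
noncomputable def HN (θ : ℝ) (N : ℕ) : ℕ := ⌊(N : ℝ) ^ θ⌋₊

theorem log_tendsto : Tendsto (fun N : ℕ => Real.log (N : ℝ)) atTop atTop :=
  Real.tendsto_log_atTop.comp tendsto_natCast_atTop_atTop

theorem tN_div {τ : ℝ} (hτ : 0 < τ) : Tendsto (fun N : ℕ => (tN τ N : ℝ) / Real.log N) atTop (𝓝 (τ / Real.log 2)) := by
  have hl2 : 0 < Real.log 2 := Real.log_pos (by norm_num)
  have h1 : Tendsto (fun N : ℕ => τ * Real.logb 2 (N : ℝ)) atTop atTop := by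
    have : (fun N : ℕ => τ * Real.logb 2 (N : ℝ)) = fun N : ℕ => (τ / Real.log 2) * Real.log N := by
      ext N; unfold Real.logb; ring
    rw [this]
    exact log_tendsto.const_mul_atTop (by positivity)
  have h2 : Tendsto (fun x : ℝ => ((⌊x⌋₊ : ℕ) : ℝ) / x) atTop (𝓝 1) := tendsto_nat_floor_div_atTop
  have h3 := (h2.comp h1).const_mul (τ / Real.log 2)
  rw [mul_one] at h3
  refine h3.congr' ?_
  filter_upwards [log_tendsto.eventually_gt_atTop 0] with N hN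
  simp only [Function.comp, tN]
  have : Real.logb 2 (N : ℝ) = Real.log N / Real.log 2 := rfl
  rw [this]
  field_simp

theorem tN_tendsto {τ : ℝ} (hτ : 0 < τ) : Tendsto (tN τ) atTop atTop := by
  have hl2 : 0 < Real.log 2 := Real.log_pos (by norm_num)
  have h1 : Tendsto (fun N : ℕ => τ * Real.logb 2 (N : ℝ)) atTop atTop := by
    have : (fun N : ℕ => τ * Real.logb 2 (N : ℝ)) = fun N : ℕ => (τ / Real.log 2) * Real.log N := by
      ext N; unfold Real.logb; ring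
    rw [this]
    exact log_tendsto.const_mul_atTop (by positivity)
  exact tendsto_nat_floor_atTop.comp h1

theorem HN_tendsto {θ : ℝ} (hθ : 0 < θ) : Tendsto (HN θ) atTop atTop := by
  have h1 : Tendsto (fun N : ℕ => (N : ℝ) ^ θ) atTop atTop := (tendsto_rpow_atTop hθ).comp tendsto_natCast_atTop_atTop
  exact tendsto_nat_floor_atTop.comp h1

theorem HN_div {θ : ℝ} (hθ : 0 < θ) : Tendsto (fun N : ℕ => Real.log (HN θ N) / Real.log N) atTop (𝓝 θ) := by
  have h1 : Tendsto (fun N : ℕ => (N : ℝ) ^ θ) atTop atTop := (tendsto_rpow_atTop hθ).comp tendsto_natCast_atTop_atTop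
  have h2 : Tendsto (fun x : ℝ => ((⌊x⌋₊ : ℕ) : ℝ) / x) atTop (𝓝 1) := tendsto_nat_floor_div_atTop
  have h3 := h2.comp h1
  have h4 : Tendsto (fun N : ℕ => Real.log (((HN θ N : ℕ) : ℝ) / (N : ℝ) ^ θ)) atTop (𝓝 0) := by
    have := (Real.continuousAt_log (show (1 : ℝ) ≠ 0 by norm_num)).tendsto.comp h3
    rw [Real.log_one] at this
    exact this
  have h5 : Tendsto (fun N : ℕ => Real.log (((HN θ N : ℕ) : ℝ) / (N : ℝ) ^ θ) / Real.log N + θ) atTop (𝓝 (0 + θ)) :=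
    (h4.div_atTop log_tendsto).add tendsto_const_nhds
  rw [zero_add] at h5
  refine h5.congr' ?_
  filter_upwards [log_tendsto.eventually_gt_atTop 0, (HN_tendsto hθ).eventually_ge_atTop 1,
    eventually_ge_atTop 1] with N hN hH hN1
  have hN0 : (0 : ℝ) < N := by exact_mod_cast hN1
  have hH0 : (0 : ℝ) < HN θ N := by exact_mod_cast hH
  rw [Real.log_div hH0.ne' (Real.rpow_pos_of_pos hN0 θ).ne', Real.log_rpow hN0]
  field_simp
  ring

/-- The critical exponent. -/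
noncomputable def th0 : ℝ := mu2 / (2 * Real.log 2)

theorem th0_pos : 0 < th0 := by
  unfold th0
  have := mu2_pos
  have : 0 < Real.log 2 := Real.log_pos (by norm_num)
  positivity

theorem ratio_tendsto {τ θ : ℝ} (hτ : 0 < τ) (hθ : 0 < θ) :
    Tendsto (fun N : ℕ => 2 * Real.log (HN θ N) / (mu2 * tN τ N)) atTop (𝓝 (θ / (τ * th0))) := by
  have hl2 : 0 < Real.log 2 := Real.log_pos (by norm_num)
  have hmu := mu2_pos
  have h1 := ((HN_div hθ).const_mul 2).div ((tN_div hτ).const_mul mu2) (by positivity)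
  have h2 : 2 * θ / (mu2 * (τ / Real.log 2)) = θ / (τ * th0) := by
    unfold th0; field_simp
  rw [h2] at h1
  refine h1.congr' ?_
  filter_upwards [log_tendsto.eventually_gt_atTop 0, (tN_tendsto hτ).eventually_ge_atTop 1] with N hN ht
  have ht0 : (0 : ℝ) < tN τ N := by exact_mod_cast ht
  simp only [Pi.div_apply]
  field_simp

/-- The two-sided condition used in the asymptotic bounds. -/
theorem ratio_cond {τ θ ι : ℝ} (hτ : 0 < τ) (hθ : 0 < θ) (hι : 0 < ι) : ∀ᶠ N : ℕ in atTop,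
    (θ / (τ * th0) - ι) * mu2 * tN τ N ≤ 2 * Real.log (HN θ N) ∧
    2 * Real.log (HN θ N) ≤ (θ / (τ * th0) + ι) * mu2 * tN τ N := by
  have h := ratio_tendsto hτ hθ
  have hmu := mu2_pos
  filter_upwards [h.eventually (lt_mem_nhds (show θ / (τ * th0) - ι < θ / (τ * th0) by linarith)),
    h.eventually (gt_mem_nhds (show θ / (τ * th0) < θ / (τ * th0) + ι by linarith)),
    (tN_tendsto hτ).eventually_ge_atTop 1] with N h1 h2 ht
  have ht0 : (0 : ℝ) < tN τ N := by exact_mod_cast ht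
  rw [lt_div_iff₀ (by positivity)] at h1
  rw [div_lt_iff₀ (by positivity)] at h2
  constructor <;> linarith

theorem tN_mono {τ τ' : ℝ} (h : τ ≤ τ') {N : ℕ} (hN : 1 ≤ N) : tN τ N ≤ tN τ' N := by
  unfold tN
  apply Nat.floor_le_floor
  apply mul_le_mul_of_nonneg_right h
  apply Real.logb_nonneg (by norm_num)
  exact_mod_cast hN

theorem two_pow_tN {τ : ℝ} (hτ : 0 ≤ τ) {N : ℕ} (hN : 1 ≤ N) : (2 : ℝ) ^ tN τ N ≤ (N : ℝ) ^ τ := by
  have hN0 : (0 : ℝ) < N := by exact_mod_cast hN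
  have hlog : 0 ≤ Real.logb 2 (N : ℝ) := Real.logb_nonneg (by norm_num) (by exact_mod_cast hN)
  have h1 : (tN τ N : ℝ) ≤ τ * Real.logb 2 N := Nat.floor_le (mul_nonneg hτ hlog)
  calc (2 : ℝ) ^ tN τ N = (2 : ℝ) ^ (tN τ N : ℝ) := by rw [Real.rpow_natCast]
    _ ≤ (2 : ℝ) ^ (τ * Real.logb 2 N) := Real.rpow_le_rpow_of_exponent_le (by norm_num) h1
    _ = ((2 : ℝ) ^ (Real.logb 2 N)) ^ τ := by rw [← Real.rpow_mul (by norm_num), mul_comm]
    _ = (N : ℝ) ^ τ := by rw [Real.rpow_logb (by norm_num) (by norm_num) hN0]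

theorem two_pow_small {τ : ℝ} (hτ0 : 0 ≤ τ) (hτ : τ < 1) {η : ℝ} (hη : 0 < η) :
    ∀ᶠ N : ℕ in atTop, (2 : ℝ) ^ tN τ N ≤ η * N := by
  have h1 : Tendsto (fun N : ℕ => (N : ℝ) ^ (-(1 - τ))) atTop (𝓝 0) :=
    (tendsto_rpow_neg_atTop (by linarith)).comp tendsto_natCast_atTop_atTop
  filter_upwards [h1.eventually (gt_mem_nhds hη), eventually_ge_atTop 1] with N h2 hN
  have hN0 : (0 : ℝ) < N := by exact_mod_cast hN
  refine (two_pow_tN hτ0 hN).trans ?_
  have : (N : ℝ) ^ τ = (N : ℝ) ^ (-(1 - τ)) * N := by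
    rw [← Real.rpow_add_one hN0.ne']; congr 1; ring
  rw [this]
  exact mul_le_mul_of_nonneg_right h2.le hN0.le

/-- Upper bound for the number of unmerged pairs, uniformly over the positions of the intervals. -/
theorem int_ub {τ θ : ℝ} (hτ : 0 < τ) (hτ1 : τ ≤ 1) (hθ : 0 < θ) (hθ1 : θ < τ * th0) {η : ℝ} (hη : 0 < η) :
    ∃ τ' : ℝ, 0 < τ' ∧ τ' < τ ∧ ∀ᶠ N : ℕ in atTop, ∀ ℓ : ℕ, ∀ x : ℕ → ℤ,
      ∑ h ∈ Icc 1 (HN θ N), cnt (x h) ℓ (fun n => ¬ mg h (tN τ' N) n) ≤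
        (ℓ + η * N) * (HN θ N * (2 / Real.pi * Real.arcsin √ (θ / (τ * th0)) + η)) := by
  have hth := th0_pos
  set α := θ / (τ * th0) with hα
  have hα0 : 0 < α := by positivity
  have hα1 : α < 1 := by rw [hα, div_lt_one (by positivity)]; exact hθ1
  -- choice of ε
  have hcont : Tendsto (fun ε : ℝ => 2 / Real.pi * Real.arcsin √ (θ / ((τ * (1 - ε)) * th0))) (𝓝[>] 0)
      (𝓝 (2 / Real.pi * Real.arcsin √ α)) := by
    have h1 : ContinuousAt (fun ε : ℝ => 2 / Real.pi * Real.arcsin √ (θ / ((τ * (1 - ε)) * th0))) 0 := by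
      apply ContinuousAt.mul continuousAt_const
      apply Real.continuous_arcsin.continuousAt.comp
      apply Real.continuous_sqrt.continuousAt.comp
      apply ContinuousAt.div
      · fun_prop
      · fun_prop
      · simp; exact ⟨hτ.ne', hth.ne'⟩
    have h2 := h1.tendsto
    simp only [sub_zero, mul_one] at h2
    exact h2.mono_left nhdsWithin_le_nhds
  have hev := (hcont.eventually (gt_mem_nhds (show 2 / Real.pi * Real.arcsin √ α < 2 / Real.pi * Real.arcsin √ α + η / 2 by linarith)))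
  have hev2 : ∀ᶠ ε : ℝ in 𝓝[>] 0, ε < min (1 - α) (1 / 2) := by
    apply Filter.Eventually.filter_mono nhdsWithin_le_nhds
    exact gt_mem_nhds (lt_min (by linarith) (by norm_num))
  obtain ⟨ε, ⟨hε1, hε2⟩, hε0⟩ := ((hev.and hev2).and self_mem_nhdsWithin).exists
  have hε0 : 0 < ε := hε0
  have hεα : ε < 1 - α := hε2.trans_le (min_le_left _ _)
  have hεh : ε < 1 / 2 := hε2.trans_le (min_le_right _ _)
  set τ' := τ * (1 - ε) with hτ'
  have hτ'0 : 0 < τ' := mul_pos hτ (by linarith)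
  have hτ'1 : τ' < τ := by rw [hτ']; nlinarith
  refine ⟨τ', hτ'0, hτ'1, ?_⟩
  set α' := θ / (τ' * th0) with hα'
  have hα'0 : 0 < α' := by positivity
  have hα'1 : α' < 1 := by
    have e : α' = α / (1 - ε) := by
      rw [hα', hα, hτ']
      have : (1 - ε) ≠ 0 := by linarith
      field_simp
    rw [e, div_lt_one (by linarith)]; linarith
  obtain ⟨ι, hι, t0, ht0⟩ := asym_ub hα'0 hα'1 (show 0 < η / 2 by linarith)
  filter_upwards [ratio_cond hτ'0 hθ hι, (tN_tendsto hτ'0).eventually_ge_atTop t0,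
    (HN_tendsto hθ).eventually_ge_atTop 1, two_pow_small hτ'0.le (hτ'1.trans_le hτ1) hη] with N h1 h2 h3 h4
  intro ℓ x
  have hub := ht0 (tN τ' N) h2 (HN θ N) h3 h1.1 h1.2
  have h5 : ∀ h ∈ Icc 1 (HN θ N), cnt (x h) ℓ (fun n => ¬ mg h (tN τ' N) n) ≤
      (ℓ + η * N) * pb (tN τ' N) (fun n => ¬ mg h (tN τ' N) n) := by
    intro h _
    refine (cnt_upper ((per_mg h (tN τ' N)).comp (fun p => ¬ p)) (x h) ℓ).trans ?_
    apply mul_le_mul_of_nonneg_right _ (pb_nonneg _ _)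
    linarith
  refine (sum_le_sum h5).trans ?_
  rw [← mul_sum]
  apply mul_le_mul_of_nonneg_left _ (by positivity)
  refine hub.trans ?_
  apply mul_le_mul_of_nonneg_left _ (by positivity)
  linarith

end Pool.Agent.J4H39
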