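import Mathlib
import Pool.Agent.J4H39.W13

set_option autoImplicit false

namespace Pool.Agent.J4H39

open Finset Filter Topology

theorem small_cnt (x : ℤ) (ℓ : ℕ) {B : ℝ} (hB : 0 ≤ B) : cnt x ℓ (fun n => |(n : ℝ)| ≤ B) ≤ 2 * B + 1 := by
  classical
  have h1 : cnt x ℓ (fun n => |(n : ℝ)| ≤ B) = (#{i ∈ range ℓ | |((x + (i : ℕ) : ℤ) : ℝ)| ≤ B} : ℝ) := by
    unfold cnt
    rw [card_filter]
    push_cast
    rfl
  rw [h1]
  set S := ({i ∈ range ℓ | |((x + (i : ℕ) : ℤ) : ℝ)| ≤ B} : Finset ℕ) with hS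
  have hinj : Set.InjOn (fun i : ℕ => x + (i : ℤ)) (S : Set ℕ) := fun a _ b _ hab => by
    simpa using hab
  rw [← card_image_of_injOn hinj]
  have := card_ap (S := S.image (fun i : ℕ => x + (i : ℤ))) (α := -B) (β := B) (by linarith) (M := 1) one_pos ?_ ?_
  · refine this.trans (le_of_eq ?_)
    push_cast; ring
  · intro y hy
    rw [mem_image] at hy
    obtain ⟨i, hi, rfl⟩ := hy
    rw [hS, mem_filter] at hi
    exact abs_le.1 hi.2
  · intro y _ z _; simp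

theorem Su_mg {h : ℤ} {t l δ : ℕ} {n : ℤ} (hS : Su h t l δ n) : ¬ mg h t n := by
  intro hm
  have h0 := hm 0
  have h1 := hm 1
  rw [mul_zero, add_zero] at h0
  rw [T_add, show n + 2 ^ t * 1 + h = (n + h) + 2 ^ t * 1 by ring, T_add, h0] at h1
  have h2 : (3 : ℤ) ^ od t n = 3 ^ od t (n + h) := by linarith
  have h3 : (3 : ℕ) ^ od t n = 3 ^ od t (n + h) := by exact_mod_cast h2
  have h4 := Nat.pow_right_injective (le_refl 2 |>.trans (by norm_num : 2 ≤ 3)) h3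
  apply hS.2.2
  unfold Dd
  omega

/-- An unmerged pair with equal images is close to the origin. -/
theorem accident {n : ℤ} {h t L : ℕ} {W : ℝ} (h1 : rh t n ≤ L * 2 ^ t) (h2 : rh t (n + h) ≤ L * 2 ^ t)
    (hD : Dd h t n ≠ 0) (he : T^[t] n = T^[t] (n + h)) (hW1 : (2 : ℝ) ^ t ≤ W * 3 ^ od t n)
    (hW2 : (2 : ℝ) ^ t ≤ W * 3 ^ od t (n + h)) : |(n : ℝ)| ≤ 2 * h + 2 * L * W := by
  have e1 := iter_eq t n
  have e2 := iter_eq t (n + h)
  rw [← he, e1] at e2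
  have e3 : (3 : ℝ) ^ od t n * n + rh t n = 3 ^ od t (n + h) * (n + h) + rh t (n + h) := by exact_mod_cast e2
  have h1r : (rh t n : ℝ) ≤ L * 2 ^ t := by exact_mod_cast h1
  have h2r : (rh t (n + h) : ℝ) ≤ L * 2 ^ t := by exact_mod_cast h2
  have r1 : (0 : ℝ) ≤ rh t n := by positivity
  have r2 : (0 : ℝ) ≤ rh t (n + h) := by positivity
  set o := od t n with ho
  set o' := od t (n + h) with ho'
  have hL0 : (0 : ℝ) ≤ L := by positivity
  have hh0 : (0 : ℝ) ≤ h := by positivity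
  have hpos : (0 : ℝ) < 3 ^ o := by positivity
  have hpos' : (0 : ℝ) < 3 ^ o' := by positivity
  have hW0 : 0 ≤ W := by
    by_contra hcon
    push Not at hcon
    have : W * 3 ^ o < 0 := mul_neg_of_neg_of_pos hcon hpos
    have : (0 : ℝ) < 2 ^ t := by positivity
    linarith
  have hL1 : (L : ℝ) * 2 ^ t ≤ L * (W * 3 ^ o) := mul_le_mul_of_nonneg_left hW1 hL0
  have hL2 : (L : ℝ) * 2 ^ t ≤ L * (W * 3 ^ o') := mul_le_mul_of_nonneg_left hW2 hL0
  unfold Dd at hD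
  rcases lt_or_gt_of_ne (show o ≠ o' by intro hh; apply hD; omega) with hlt | hlt
  · have hp : (3 : ℝ) ^ o * 3 ≤ 3 ^ o' := by
      rw [← pow_succ]; exact pow_le_pow_right₀ (by norm_num) hlt
    -- n (3^{o'} - 3^o) = rh - rh' - 3^{o'} h
    have key : (n : ℝ) * (3 ^ o' - 3 ^ o) = rh t n - rh t (n + h) - 3 ^ o' * h := by linarith
    have habs : |(n : ℝ)| * (3 ^ o' - 3 ^ o) ≤ L * (W * 3 ^ o') + 3 ^ o' * h := by
      rw [← abs_of_nonneg (show (0 : ℝ) ≤ 3 ^ o' - 3 ^ o by linarith), ← abs_mul, key, abs_le]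
      have : 0 ≤ (3 : ℝ) ^ o' * h := by positivity
      constructor <;> linarith
    have h3 : |(n : ℝ)| * (2 / 3 * 3 ^ o') ≤ |(n : ℝ)| * (3 ^ o' - 3 ^ o) :=
      mul_le_mul_of_nonneg_left (by linarith) (abs_nonneg _)
    have h4 : |(n : ℝ)| * 3 ^ o' ≤ (3 / 2 * h + 3 / 2 * (L * W)) * 3 ^ o' := by linarith
    have h5 := le_of_mul_le_mul_right h4 hpos'
    have : 0 ≤ (L : ℝ) * W := by positivity
    linarith
  · have hp : (3 : ℝ) ^ o' * 3 ≤ 3 ^ o := by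
      rw [← pow_succ]; exact pow_le_pow_right₀ (by norm_num) hlt
    have key : (n : ℝ) * (3 ^ o - 3 ^ o') = rh t (n + h) - rh t n + 3 ^ o' * h := by linarith
    have hph : (3 : ℝ) ^ o' * h ≤ 3 ^ o * h := by
      apply mul_le_mul_of_nonneg_right _ hh0; linarith
    have habs : |(n : ℝ)| * (3 ^ o - 3 ^ o') ≤ L * (W * 3 ^ o) + 3 ^ o * h := by
      rw [← abs_of_nonneg (show (0 : ℝ) ≤ 3 ^ o - 3 ^ o' by linarith), ← abs_mul, key, abs_le]
      have : 0 ≤ (3 : ℝ) ^ o' * h := by positivity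
      constructor <;> linarith
    have h3 : |(n : ℝ)| * (2 / 3 * 3 ^ o) ≤ |(n : ℝ)| * (3 ^ o - 3 ^ o') :=
      mul_le_mul_of_nonneg_left (by linarith) (abs_nonneg _)
    have h4 : |(n : ℝ)| * 3 ^ o ≤ (3 / 2 * h + 3 / 2 * (L * W)) * 3 ^ o := by linarith
    have h5 := le_of_mul_le_mul_right h4 hpos
    have : 0 ≤ (L : ℝ) * W := by positivity
    linarith

theorem log_ineq : 150 * Real.log 2 ≤ 99 * Real.log 3 := by
  have h : (2 : ℝ) ^ 150 ≤ 3 ^ 99 := by norm_num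
  have := Real.log_le_log (by positivity) h
  rw [Real.log_pow, Real.log_pow] at this
  exact_mod_cast this

/-- Lower bound for the power of three from the good event. -/
theorem Gd_pow {t L δ : ℕ} {n : ℤ} (hG : Gd t L δ n) (hδ : (δ : ℝ) ≤ t / 100) {N : ℕ} (hN : 1 ≤ N)
    (ht : (2 : ℝ) ^ t ≤ N) : (2 : ℝ) ^ t ≤ (N : ℝ) ^ (1 / 4 : ℝ) * 3 ^ od t n := by
  have hN0 : (0 : ℝ) < N := by exact_mod_cast hN
  have h1 := od_lo hG le_rfl
  have h1r : (t : ℝ) ≤ 2 * od t n + δ := by exact_mod_cast h1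
  have h2 : 99 / 100 * (t : ℝ) ≤ 2 * od t n := by linarith
  have hl2 : 0 < Real.log 2 := Real.log_pos (by norm_num)
  have hl3 : 0 < Real.log 3 := Real.log_pos (by norm_num)
  have hli := log_ineq
  have h3 : (t : ℝ) * Real.log 2 ≤ Real.log N := by
    have := Real.log_le_log (by positivity) ht
    rwa [Real.log_pow] at this
  have h4 : 3 / 4 * (t * Real.log 2) ≤ od t n * Real.log 3 := by
    have h5 : 99 / 100 * (t : ℝ) * Real.log 3 ≤ 2 * od t n * Real.log 3 := mul_le_mul_of_nonneg_right h2 hl3.le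
    have h6 : (t : ℝ) * (150 * Real.log 2) ≤ t * (99 * Real.log 3) := mul_le_mul_of_nonneg_left hli (by positivity)
    linarith
  rw [← Real.log_le_log_iff (by positivity) (by positivity),
    Real.log_mul (by positivity) (by positivity), Real.log_pow, Real.log_pow, Real.log_rpow hN0]
  linarith

theorem Bsmall {τ θ : ℝ} (hτ : 0 < τ) (hτ1 : τ ≤ 1) (hθ1 : θ < 1) {η : ℝ} (hη : 0 < η) :
    ∀ᶠ N : ℕ in atTop, 2 * (2 * (HN θ N : ℝ) + 2 * (4 ^ ll (tN τ N)) * (N : ℝ) ^ (1 / 4 : ℝ)) + 1 ≤ η * N := by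
  have h1 : Tendsto (fun N : ℕ => 4 * (N : ℝ) ^ (-(1 - θ)) + 2 ^ 24 * (N : ℝ) ^ (-(1 / 4) : ℝ) + (N : ℝ)⁻¹) atTop
      (𝓝 (4 * 0 + 2 ^ 24 * 0 + 0)) := by
    apply Tendsto.add
    · apply Tendsto.add
      · exact ((tendsto_rpow_neg_atTop (by linarith)).comp tendsto_natCast_atTop_atTop).const_mul _
      · exact ((tendsto_rpow_neg_atTop (by norm_num)).comp tendsto_natCast_atTop_atTop).const_mul _
    · exact tendsto_inv_atTop_zero.comp tendsto_natCast_atTop_atTop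
  filter_upwards [h1.eventually (gt_mem_nhds (show (4 * 0 + 2 ^ 24 * 0 + 0 : ℝ) < η by linarith)),
    eventually_ge_atTop 2, (tN_tendsto hτ).eventually_ge_atTop 1] with N h2 hN ht
  have hN0 : (0 : ℝ) < N := by exact_mod_cast (by omega : 0 < N)
  have hN1 : (1 : ℝ) ≤ N := by exact_mod_cast (by omega : 1 ≤ N)
  have hHN : (HN θ N : ℝ) ≤ (N : ℝ) ^ θ := Nat.floor_le (by positivity)
  have ht2 : (tN τ N : ℝ) ≤ 16 * (N : ℝ) ^ (1 / 8 : ℝ) := by
    have hlog : 0 ≤ Real.logb 2 (N : ℝ) := Real.logb_nonneg (by norm_num) hN1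
    have h3 : (tN τ N : ℝ) ≤ τ * Real.logb 2 N := Nat.floor_le (mul_nonneg hτ.le hlog)
    have h4 : τ * Real.logb 2 N ≤ 1 * Real.logb 2 N := mul_le_mul_of_nonneg_right hτ1 hlog
    have h5 : Real.logb 2 (N : ℝ) = Real.log N / Real.log 2 := rfl
    have h6 := Real.log_le_rpow_div hN0.le (show (0 : ℝ) < 1 / 8 by norm_num)
    have h7 := Real.log_two_gt_d9
    have h8 : Real.log N / Real.log 2 ≤ Real.log N * 2 := by
      rw [div_le_iff₀ (by linarith)]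
      have : 0 ≤ Real.log (N : ℝ) := Real.log_nonneg hN1
      nlinarith
    have h9 : (N : ℝ) ^ (1 / 8 : ℝ) / (1 / 8) = 8 * (N : ℝ) ^ (1 / 8 : ℝ) := by ring
    rw [h9] at h6
    linarith
  have h4 : (4 : ℝ) ^ ll (tN τ N) ≤ 2 ^ 20 * (N : ℝ) ^ (1 / 2 : ℝ) := by
    refine (four_ll ht).2.trans ?_
    calc 16 * (tN τ N : ℝ) ^ 4 ≤ 16 * (16 * (N : ℝ) ^ (1 / 8 : ℝ)) ^ 4 := by gcongr
      _ = 2 ^ 20 * ((N : ℝ) ^ (1 / 8 : ℝ)) ^ 4 := by ring
      _ = 2 ^ 20 * (N : ℝ) ^ (1 / 2 : ℝ) := by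
          rw [← Real.rpow_natCast ((N : ℝ) ^ (1 / 8 : ℝ)) 4, ← Real.rpow_mul hN0.le]; norm_num
  have h5 : (N : ℝ) ^ (1 / 2 : ℝ) * (N : ℝ) ^ (1 / 4 : ℝ) = (N : ℝ) ^ (-(1 / 4) : ℝ) * N := by
    rw [← Real.rpow_add hN0, ← Real.rpow_add_one hN0.ne']; norm_num
  have h6 : (N : ℝ) ^ θ = (N : ℝ) ^ (-(1 - θ)) * N := by
    rw [← Real.rpow_add_one hN0.ne']; congr 1; ring
  have h7 : 2 * (2 * (HN θ N : ℝ) + 2 * (4 ^ ll (tN τ N)) * (N : ℝ) ^ (1 / 4 : ℝ)) + 1 ≤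
      4 * (N : ℝ) ^ θ + 4 * (2 ^ 20 * (N : ℝ) ^ (1 / 2 : ℝ)) * (N : ℝ) ^ (1 / 4 : ℝ) + 1 := by
    have : (4 : ℝ) ^ ll (tN τ N) * (N : ℝ) ^ (1 / 4 : ℝ) ≤ (2 ^ 20 * (N : ℝ) ^ (1 / 2 : ℝ)) * (N : ℝ) ^ (1 / 4 : ℝ) := by
      gcongr
    linarith
  refine h7.trans ?_
  have h8 : 4 * (N : ℝ) ^ θ + 4 * (2 ^ 20 * (N : ℝ) ^ (1 / 2 : ℝ)) * (N : ℝ) ^ (1 / 4 : ℝ) + 1 =
      (4 * (N : ℝ) ^ (-(1 - θ)) + 2 ^ 22 * (N : ℝ) ^ (-(1 / 4) : ℝ) + (N : ℝ)⁻¹) * N := by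
    rw [h6]
    have : 4 * (2 ^ 20 * (N : ℝ) ^ (1 / 2 : ℝ)) * (N : ℝ) ^ (1 / 4 : ℝ) =
      2 ^ 22 * ((N : ℝ) ^ (1 / 2 : ℝ) * (N : ℝ) ^ (1 / 4 : ℝ)) := by ring
    rw [this, h5]
    field_simp
  rw [h8]
  apply mul_le_mul_of_nonneg_right _ hN0.le
  have : (0 : ℝ) ≤ (N : ℝ) ^ (-(1 / 4) : ℝ) := by positivity
  linarith

theorem th0_lt : th0 < 1 / 4 := by
  unfold th0 mu2
  have h1 := log_ineq
  have hl2 : 0 < Real.log 2 := Real.log_pos (by norm_num)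
  rw [div_lt_iff₀ (by positivity), show (4 : ℝ) = 2 ^ 2 by norm_num, Real.log_pow]
  push_cast
  linarith

theorem arc_le_one (x : ℝ) : 2 / Real.pi * Real.arcsin x ≤ 1 := by
  have hpi := Real.pi_pos
  calc 2 / Real.pi * Real.arcsin x ≤ 2 / Real.pi * (Real.pi / 2) :=
        mul_le_mul_of_nonneg_left (Real.arcsin_le_pi_div_two _) (by positivity)
    _ = 1 := by field_simp

theorem arc_nonneg {x : ℝ} (hx : 0 ≤ x) : 0 ≤ 2 / Real.pi * Real.arcsin x := by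
  have hpi := Real.pi_pos
  have := Real.arcsin_nonneg.2 hx
  positivity

/-- Lower bound for the number of pairs with different images, uniformly over the positions of the intervals. -/
theorem int_lb {τ θ : ℝ} (hτ : 0 < τ) (hτ1 : τ ≤ 1) (hθ : 0 < θ) (hθ1 : θ < τ * th0) {η : ℝ} (hη : 0 < η) (hη1 : η ≤ 1) :
    ∀ᶠ N : ℕ in atTop, ∀ x : ℕ → ℤ,
      N * (HN θ N * (2 / Real.pi * Real.arcsin √ (θ / (τ * th0)) - 6 * η)) ≤
      ∑ h ∈ Icc 1 (HN θ N), cnt (x h) N (fun n => T^[tN τ N] n ≠ T^[tN τ N] (n + (h : ℕ))) := by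
  have hth := th0_pos
  have hth4 := th0_lt
  set α := θ / (τ * th0) with hα
  have hα0 : 0 < α := by positivity
  have hα1 : α < 1 := by rw [hα, div_lt_one (by positivity)]; exact hθ1
  have hθ1' : θ < 1 := by nlinarith
  set A := 2 / Real.pi * Real.arcsin √ α with hA
  have hA1 : A ≤ 1 := arc_le_one _
  have hA0 : 0 ≤ A := arc_nonneg (Real.sqrt_nonneg _)
  obtain ⟨τ', hτ'0, hτ'1, hub⟩ := int_ub hτ hτ1 hθ hθ1 hη
  obtain ⟨ι, hι, κ, hκ0, hκ1, t0, ht0⟩ := asym_lb hα0 hα1 hη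
  filter_upwards [hub, ratio_cond hτ hθ hι, (tN_tendsto hτ).eventually_ge_atTop (max t0 1),
    (HN_tendsto hθ).eventually_ge_atTop 1, Bsmall hτ hτ1 hθ1' hη, eventually_ge_atTop 1] with N h1 h2 h3 h4 h5 hN
  intro x
  have hN0 : (0 : ℝ) < N := by exact_mod_cast hN
  have hN1 : (1 : ℝ) ≤ N := by exact_mod_cast hN
  set t := tN τ N with ht
  set H := HN θ N with hH
  have hH0 : (0 : ℝ) ≤ H := by positivity
  have htt : t0 ≤ t := (le_max_left _ _).trans h3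
  have ht1 : 1 ≤ t := (le_max_right _ _).trans h3
  have h2t : (2 : ℝ) ^ t ≤ N := by
    refine (two_pow_tN hτ.le hN).trans ?_
    calc (N : ℝ) ^ τ ≤ (N : ℝ) ^ (1 : ℝ) := Real.rpow_le_rpow_of_exponent_le hN1 hτ1
      _ = N := Real.rpow_one _
  have h2tn : 2 ^ t ≤ N := by exact_mod_cast h2t
  have hlb := ht0 t htt H h4 h2.1 h2.2
  set δ : ℕ := ⌊κ * t⌋₊ with hδ
  have hδ1 : (δ : ℝ) ≤ t / 100 := by
    have : (δ : ℝ) ≤ κ * t := Nat.floor_le (by positivity)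
    have h6 : κ * t ≤ 1 / 100 * t := mul_le_mul_of_nonneg_right hκ1 (by positivity)
    linarith
  -- the full number of periods
  set c := N / 2 ^ t + 1 with hc
  have hc1 : N ≤ c * 2 ^ t := by
    have := Nat.lt_div_mul_add (a := N) (b := 2 ^ t) (by positivity)
    rw [hc, add_mul, one_mul]; exact this.le
  have hc2 : c * 2 ^ t ≤ N + N := by
    rw [hc, add_mul, one_mul]
    have := Nat.div_mul_le_self N (2 ^ t)
    omega
  obtain ⟨d, hd⟩ : ∃ d, c * 2 ^ t = N + d := Nat.exists_eq_add_of_le hc1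
  have hdN : d ≤ N := by omega
  have hdr : (d : ℝ) ≤ N := by exact_mod_cast hdN
  have hper : ∀ h : ℕ, Per t (Su h t (ll t) δ) := by
    intro h n u
    unfold Su
    have e1 := per_Gd t (4 ^ ll t) (δ : ℕ) n u
    have e2 := ((per_Gd t (4 ^ ll t) (δ : ℕ)).shift h) n u
    have e3 := per_Dd h (le_refl t) n u
    simp only at e2
    rw [e1, e2, e3]
  have hS1 : ∑ h ∈ Icc 1 H, cnt (x h) (N + d) (Su h t (ll t) δ) =
      ((N : ℝ) + d) * ∑ h ∈ Icc 1 H, pb t (Su h t (ll t) δ) := by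
    rw [mul_sum]
    apply sum_congr rfl
    intro h _
    rw [← hd, cnt_full (hper h)]
    have : ((c * 2 ^ t : ℕ) : ℝ) = (N : ℝ) + d := by rw [hd]; push_cast; ring
    rw [← this]; push_cast; ring
  have hS2 : ∑ h ∈ Icc 1 H, cnt (x h + N) d (Su h t (ll t) δ) ≤ (d + η * N) * (H * (A + η)) := by
    refine le_trans (sum_le_sum ?_) (h1 d (fun h => x h + N))
    intro h _
    apply cnt_mono
    intro n hn hm
    exact Su_mg hn (mg_succ_le (tN_mono hτ'1.le hN) hm)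
  have hS3 : ∑ h ∈ Icc 1 H, cnt (x h) N (Su h t (ll t) δ) =
      ∑ h ∈ Icc 1 H, cnt (x h) (N + d) (Su h t (ll t) δ) - ∑ h ∈ Icc 1 H, cnt (x h + N) d (Su h t (ll t) δ) := by
    rw [← sum_sub_distrib]
    apply sum_congr rfl
    intro h _
    rw [cnt_add]; ring
  set B : ℝ := 2 * H + 2 * (4 ^ ll t) * (N : ℝ) ^ (1 / 4 : ℝ) with hB
  have hB0 : 0 ≤ B := by positivity
  have hS4 : ∑ h ∈ Icc 1 H, cnt (x h) N (Su h t (ll t) δ) ≤
      ∑ h ∈ Icc 1 H, (cnt (x h) N (fun n => T^[t] n ≠ T^[t] (n + (h : ℕ))) + η * N) := by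
    apply sum_le_sum
    intro h hh
    rw [mem_Icc] at hh
    have hhH : (h : ℝ) ≤ H := by exact_mod_cast hh.2
    have q1 : cnt (x h) N (Su h t (ll t) δ) ≤
        cnt (x h) N (fun n => T^[t] n ≠ T^[t] (n + (h : ℕ)) ∨ |(n : ℝ)| ≤ B) := by
      apply cnt_mono
      intro n hn
      by_cases he : T^[t] n = T^[t] (n + (h : ℕ))
      · right
        obtain ⟨g1, g2, g3⟩ := hn
        have q2 := accident (L := 4 ^ ll t) (W := (N : ℝ) ^ (1 / 4 : ℝ)) (g1 t le_rfl).1 (g2 t le_rfl).1 g3 he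
          (Gd_pow g1 hδ1 hN h2t) (Gd_pow g2 hδ1 hN h2t)
        refine q2.trans ?_
        rw [hB]
        push_cast
        linarith
      · left; exact he
    refine q1.trans ((cnt_or _ _ _ _).trans ?_)
    have q3 := small_cnt (x h) N hB0
    have q4 : 2 * B + 1 ≤ η * N := h5
    linarith
  rw [sum_add_distrib, sum_const, Nat.card_Icc, nsmul_eq_mul, Nat.add_sub_cancel] at hS4
  have q5 : ((N : ℝ) + d) * (H * (A - η)) ≤ ((N : ℝ) + d) * ∑ h ∈ Icc 1 H, pb t (Su h t (ll t) δ) :=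
    mul_le_mul_of_nonneg_left hlb (by positivity)
  have q6 : N * (H * (A - 6 * η)) ≤ ((N : ℝ) + d) * (H * (A - η)) - (d + η * N) * (H * (A + η)) - H * (η * N) := by
    have e : ((N : ℝ) + d) * (H * (A - η)) - (d + η * N) * (H * (A + η)) - H * (η * N) - N * (H * (A - 6 * η)) =
        H * (η * (5 * N - 2 * d - N * A - η * N - N)) := by ring
    have : 0 ≤ H * (η * (5 * N - 2 * d - N * A - η * N - N)) := by
      apply mul_nonneg hH0
      apply mul_nonneg hη.le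
      have a1 : (N : ℝ) * A ≤ N * 1 := mul_le_mul_of_nonneg_left hA1 hN0.le
      have a2 : η * N ≤ 1 * N := mul_le_mul_of_nonneg_right hη1 hN0.le
      linarith
    linarith
  linarith

end Pool.Agent.J4H39
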