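import Mathlib
import Pool.Agent.J4H39.W14

set_option autoImplicit false

namespace Pool.Agent.J4H39

open Finset Filter Topology

/-! At or above the critical exponent hardly any pair is merged. -/

theorem main_lb0 {t H k l δ i0 i1 : ℕ} (hk : 1 ≤ k) (hi : i0 ≤ i1) (hs : i1 * k ≤ t)
    (c2 : 4 ^ (i1 * k + k) * 3 ^ δ ≤ 3 ^ (i1 * k) * H ^ 2)
    (c3 : 4 ^ (i1 * k + 2 * l) * 3 ^ δ ≤ 3 ^ (i1 * k) * H ^ 2)
    (c4 : 3 ^ (i0 * k + δ) ≤ 4 ^ (i0 * k)) {ε : ℝ} (hε : 0 ≤ ε) {m mt q0 : ℕ}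
    (hq0 : 1 ≤ q0)
    (hm1 : 2 * ((mt : ℝ) - m) ≤ (i1 * k : ℝ) - i0 * k - ε * (i1 * k))
    (hm2 : (i1 * k : ℝ) + i0 * k + ε * (i1 * k) + 2 * (t - i1 * k) + 2 * q0 ≤ 2 * (mt : ℝ)) :
    H * F m mt 0 ≤ ∑ h ∈ Icc 1 H, pb t (Su h t l δ) + H * (2 * k / √ q0 +
      4 * pb t (fun n => ¬ Gd t (4 ^ l : ℕ) δ n) +
      (t + 1) * (12 * (t + 1) * 4 ^ l * Real.exp (-((ε * k) ^ 2 / (2 * k))))) := by
  have hkr : (0 : ℝ) ≤ k := by positivity
  have key : ∀ h ∈ Icc 1 H, F m mt 0 ≤ (pb t (Su h t l δ) + (2 * k / √ q0 +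
      4 * pb t (fun n => ¬ Gd t (4 ^ l : ℕ) δ n))) + pb t (EB H k l i0 i1 ε h) := by
    intro h _
    have hF := lb_F (h : ℤ) (i1 * k) t k m mt hq0 hs
    set NH : ℤ → Prop := fun n => ∀ j, i1 * k ≤ j → j ≤ t → (k : ℤ) < |Dd h j n| with hNH
    set Bd : ℤ → Prop := fun n => ¬ (mt - m ≤ Ac h (i1 * k) n ∧
      ∀ j, i1 * k ≤ j → j ≤ t → (∀ i, i1 * k ≤ i → i < j → (k : ℤ) < |Dd h i n|) → Ac h j n + q0 ≤ mt) with hBd
    have c1 : ∀ n, NH n → Su h t l δ n ∨ (¬ Gd t (4 ^ l : ℕ) δ n) ∨ (¬ Gd t (4 ^ l : ℕ) δ (n + h)) := by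
      intro n hn
      by_cases hx : Gd t (4 ^ l : ℕ) δ n
      swap
      · exact Or.inr (Or.inl hx)
      by_cases hy : Gd t (4 ^ l : ℕ) δ (n + h)
      swap
      · exact Or.inr (Or.inr hy)
      left
      refine ⟨hx, hy, ?_⟩
      intro h0
      have := hn t hs le_rfl
      rw [h0] at this
      simp at this
      omega
    have c2 : ∀ n, Bd n → (¬ Gd t (4 ^ l : ℕ) δ n) ∨ (¬ Gd t (4 ^ l : ℕ) δ (n + h)) ∨
        EB H k l i0 i1 ε h n := by
      intro n hn
      by_cases hx : Gd t (4 ^ l : ℕ) δ n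
      swap
      · exact Or.inl hx
      by_cases hy : Gd t (4 ^ l : ℕ) δ (n + h)
      swap
      · exact Or.inr (Or.inl hy)
      by_cases hE : EB H k l i0 i1 ε h n
      · exact Or.inr (Or.inr hE)
      exfalso
      apply hn
      have e1 : |2 * (Ac h (i1 * k) n : ℝ) - (i1 * k : ℝ)| ≤ i0 * k + ε * (i1 * k) := by
        have h1 : |2 * (Ac h (i1 * k) n : ℝ) - (i1 * k : ℝ)| ≤ i0 * k + (i1 - i0) * (ε * k) := by
          apply early_lln (H := H) (l := l) hi
          · intro i hi0 hi1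
            have hik : i * k ≤ i1 * k := Nat.mul_le_mul_right _ (by omega)
            have h0ik : i0 * k ≤ i * k := Nat.mul_le_mul_right _ (by omega)
            refine ⟨(hy (i * k) (by omega)).1, early_low hy hik (by omega) (by assumption), ?_,
              early_up (Nat.one_le_pow _ _ (by norm_num)) hy h0ik (by omega) c4⟩
            have := early_low hy hik (by omega) c3
            have e : (2 : ℕ) ^ (2 * l) = 4 ^ l := by rw [pow_mul]; norm_num
            rw [e] at this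
            exact this
          · intro i hi0 hi1 hW
            exact hE ⟨i, by rw [mem_Ico]; omega, hW⟩
        refine h1.trans ?_
        have : (0 : ℝ) ≤ i0 * (ε * k) := by positivity
        linarith
      rw [abs_le] at e1
      have e4 : (0 : ℝ) ≤ ε * (i1 * k) := by positivity
      have e6 : ((i1 * k : ℕ) : ℝ) ≤ t := by exact_mod_cast hs
      push_cast at e6
      constructor
      · have h1 : (mt : ℝ) ≤ Ac h (i1 * k) n + m := by linarith [e1.1]
        have h2 : mt ≤ Ac h (i1 * k) n + m := by exact_mod_cast h1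
        omega
      · intro j hj1 hj2 hno
        have goal : (Ac h j n : ℝ) + q0 ≤ mt := by
          have h3 := Ac_le_add h n hj1
          have h4 : (Ac h j n : ℝ) ≤ Ac h (i1 * k) n + (t - i1 * k) := by
            have : Ac h j n + i1 * k ≤ Ac h (i1 * k) n + t := by omega
            have : (Ac h j n : ℝ) + i1 * k ≤ Ac h (i1 * k) n + t := by exact_mod_cast this
            linarith
          linarith [e1.2]
        exact_mod_cast goal
    have g2 : pb t (fun n => ¬ Gd t (4 ^ l : ℕ) δ (n + h)) = pb t (fun n => ¬ Gd t (4 ^ l : ℕ) δ n) :=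
      pb_shift t ((per_Gd t (4 ^ l) δ).comp (fun p => ¬ p)) h
    have q1 := (pb_mono (j := t) c1).trans (pb_or _ _ _)
    have q2 := pb_or t (fun n => ¬ Gd t (4 ^ l : ℕ) δ n) (fun n => ¬ Gd t (4 ^ l : ℕ) δ (n + h))
    have q3 := (pb_mono (j := t) c2).trans (pb_or _ _ _)
    have q4 := pb_or t (fun n => ¬ Gd t (4 ^ l : ℕ) δ (n + h)) (fun n => EB H k l i0 i1 ε h n)
    have q5 : pb t (fun n => EB H k l i0 i1 ε h n) = pb t (EB H k l i0 i1 ε h) := rfl
    linarith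
  have h2 := sum_le_sum key
  rw [sum_const, Nat.card_Icc, nsmul_eq_mul, Nat.add_sub_cancel, sum_add_distrib, sum_add_distrib,
    sum_const, Nat.card_Icc, nsmul_eq_mul, Nat.add_sub_cancel] at h2
  have h1 := sum_pb_EB (H := H) (t := t) (l := l) (i0 := i0) hk hε hs
  linarith

/-- Almost no pair is merged when the shift is large. -/
theorem asym_lb1 {η : ℝ} (hη : 0 < η) :
    ∃ ι : ℝ, 0 < ι ∧ ∃ κ : ℝ, 0 < κ ∧ κ ≤ 1 / 100 ∧ ∃ t0 : ℕ, ∀ t ≥ t0, ∀ H : ℕ, 1 ≤ H →
      (1 - ι) * mu2 * t ≤ 2 * Real.log H →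
      H * (1 - η) ≤ ∑ h ∈ Icc 1 H, pb t (Su h t (ll t) ⌊κ * t⌋₊) := by
  have hmu := mu2_pos
  have hmu1 := mu2_lt
  -- choice of ε
  have hcont : Tendsto (fun ε : ℝ => 2 / Real.pi * Real.arcsin √ ((1 - 5 * ε) / (1 + 9 * ε))) (𝓝[>] 0)
      (𝓝 (2 / Real.pi * Real.arcsin √ 1)) := by
    have h1 : ContinuousAt (fun ε : ℝ => 2 / Real.pi * Real.arcsin √ ((1 - 5 * ε) / (1 + 9 * ε))) 0 := by
      apply ContinuousAt.mul continuousAt_const
      apply Real.continuous_arcsin.continuousAt.comp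
      apply Real.continuous_sqrt.continuousAt.comp
      apply ContinuousAt.div
      · fun_prop
      · fun_prop
      · norm_num
    have h2 := h1.tendsto
    simp only [mul_zero, add_zero, sub_zero, div_one] at h2
    exact h2.mono_left nhdsWithin_le_nhds
  have hone : 2 / Real.pi * Real.arcsin √ 1 = 1 := by
    have hpi := Real.pi_pos
    rw [Real.sqrt_one, Real.arcsin_one]; field_simp
  rw [hone] at hcont
  have hev := (hcont.eventually (lt_mem_nhds (show 1 - η / 2 < 1 by linarith)))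
  have hev2 : ∀ᶠ ε : ℝ in 𝓝[>] 0, ε < 1 / 40 := by
    apply Filter.Eventually.filter_mono nhdsWithin_le_nhds
    exact gt_mem_nhds (by norm_num)
  obtain ⟨ε, ⟨hε1, hε2⟩, hε0⟩ := ((hev.and hev2).and self_mem_nhdsWithin).exists
  have hε0 : 0 < ε := hε0
  obtain ⟨t1, ht1⟩ := eventually_atTop.1 (kk_div.eventually (gt_mem_nhds (show (0 : ℝ) < ε * mu2 / 200 by positivity)))
  -- the error
  have herr : Tendsto (fun t : ℕ => 2 * (kk t : ℝ) / √ (⌊ε * t⌋₊ : ℕ) +
      4 * pb t (fun n => ¬ Gd t (4 ^ ll t : ℕ) (⌊e1 ε * t⌋₊ : ℕ) n) + Er ε t +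
      (1 / √ ((1 / 16 : ℝ) * t) + 4 / (ε * t))) atTop (𝓝 (0 + 4 * 0 + 0 + (0 + 0))) := by
    apply Tendsto.add
    · apply Tendsto.add
      · exact (lbe_tendsto hε0).add ((Gd_tendsto (e1_pos hε0)).const_mul 4)
      · exact Er_tendsto hε0
    · apply Tendsto.add
      · apply tendsto_const_nhds.div_atTop
        apply Real.tendsto_sqrt_atTop.comp
        exact tendsto_natCast_atTop_atTop.const_mul_atTop (by norm_num)
      · apply tendsto_const_nhds.div_atTop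
        exact tendsto_natCast_atTop_atTop.const_mul_atTop hε0
  obtain ⟨t2, ht2⟩ := eventually_atTop.1 (herr.eventually (gt_mem_nhds (show (0 + 4 * 0 + 0 + (0 + 0) : ℝ) < η / 2 by linarith)))
  refine ⟨ε / 4, by linarith, e1 ε, e1_pos hε0, (e1_le hε0).trans (by linarith),
    max (max (max t1 t2) 1) ⌈100 / ε⌉₊, fun t ht H hH h1 => ?_⟩
  have ht1' : t1 ≤ t := (le_max_left _ _).trans ((le_max_left _ _).trans ((le_max_left _ _).trans ht))
  have ht2' : t2 ≤ t := (le_max_right _ _).trans ((le_max_left _ _).trans ((le_max_left _ _).trans ht))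
  have htone : 1 ≤ t := (le_max_right _ _).trans ((le_max_left _ _).trans ht)
  have ht3 : ⌈100 / ε⌉₊ ≤ t := (le_max_right _ _).trans ht
  have htr : (0 : ℝ) < t := by exact_mod_cast htone
  have hεt : 100 ≤ ε * t := by
    have : 100 / ε ≤ t := Nat.ceil_le.1 ht3
    rw [div_le_iff₀ hε0] at this
    linarith
  have hkt : (kk t : ℝ) ≤ ε * mu2 / 200 * t := by
    have := ht1 t ht1'
    rw [div_lt_iff₀ htr] at this
    exact this.le
  have hkt2 : (kk t : ℝ) ≤ ε / 200 * t := by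
    refine hkt.trans ?_
    apply mul_le_mul_of_nonneg_right _ htr.le
    have : ε * mu2 ≤ ε := mul_le_of_le_one_right hε0.le hmu1.le
    linarith
  have herrt := ht2 t ht2'
  have hk1 := kk_pos htone
  have hk : (1 : ℝ) ≤ kk t := by exact_mod_cast hk1
  have hk0 : (0 : ℝ) < kk t := by linarith
  have hll := ll_le htone
  have hε40 : ε * t ≤ 1 / 40 * t := mul_le_mul_of_nonneg_right hε2.le htr.le
  set i0 : ℕ := ⌈ε * t / kk t⌉₊ with hi0
  set i1 : ℕ := ⌊(1 - ε) * t / kk t⌋₊ with hi1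
  have hi0a : ε * t ≤ (i0 : ℝ) * kk t := by
    have := Nat.le_ceil (ε * t / (kk t : ℝ))
    rw [div_le_iff₀ hk0] at this
    exact this
  have hi0b : (i0 : ℝ) * kk t ≤ ε * t + kk t := by
    have := Nat.ceil_lt_add_one (show 0 ≤ ε * t / (kk t : ℝ) by positivity)
    rw [← hi0] at this
    have h3 : (i0 : ℝ) * kk t ≤ (ε * t / kk t + 1) * kk t := mul_le_mul_of_nonneg_right this.le hk0.le
    have h4 : (ε * t / (kk t : ℝ) + 1) * kk t = ε * t + kk t := by field_simp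
    linarith
  have hαε : 0 < 1 - ε := by linarith
  have hi1a : (i1 : ℝ) * kk t ≤ (1 - ε) * t := by
    have := Nat.floor_le (show 0 ≤ (1 - ε) * t / (kk t : ℝ) by positivity)
    rw [← hi1, le_div_iff₀ hk0] at this
    exact this
  have hi1b : (1 - ε) * t - kk t ≤ (i1 : ℝ) * kk t := by
    have := Nat.lt_floor_add_one ((1 - ε) * t / (kk t : ℝ))
    rw [← hi1] at this
    have h3 : (1 - ε) * t / (kk t : ℝ) * kk t ≤ ((i1 : ℝ) + 1) * kk t := mul_le_mul_of_nonneg_right this.le hk0.le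
    have h4 : (1 - ε) * t / (kk t : ℝ) * kk t = (1 - ε) * t := by field_simp
    linarith
  have hδ : (⌊e1 ε * t⌋₊ : ℝ) * Real.log 3 ≤ ε / 4 * mu2 * t := by
    have h3 := Nat.floor_le (show 0 ≤ e1 ε * (t : ℝ) by have := e1_pos hε0; positivity)
    have h4 := log3_pos
    calc (⌊e1 ε * t⌋₊ : ℝ) * Real.log 3 ≤ (e1 ε * t) * Real.log 3 := mul_le_mul_of_nonneg_right h3 h4.le
      _ = ε / 4 * mu2 * t := by unfold e1; field_simp
  have hl4 := log4_lt
  have hl4' := log4_pos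
  have hmudef : Real.log 4 = mu2 + Real.log 3 := by unfold mu2; ring
  have hkl : (kk t : ℝ) * Real.log 4 ≤ ε / 2 * mu2 * t := by
    have : (kk t : ℝ) * Real.log 4 ≤ (ε * mu2 / 200 * t) * 1.4 :=
      mul_le_mul hkt hl4.le hl4'.le (by positivity)
    have h5 : 0 < ε * mu2 * t := by positivity
    linarith
  have hll4 : (2 * (ll t : ℝ)) * Real.log 4 ≤ ε / 2 * mu2 * t := by
    have : (2 * (ll t : ℝ)) * Real.log 4 ≤ (52 * (ε * mu2 / 200 * t)) * 1.4 := by
      apply mul_le_mul _ hl4.le hl4'.le (by positivity)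
      linarith
    have h5 : 0 < ε * mu2 * t := by positivity
    linarith
  have hi01 : i0 ≤ i1 := by
    have h3 : (i0 : ℝ) * kk t ≤ i1 * kk t := by
      refine hi0b.trans (le_trans ?_ hi1b)
      linarith
    have h4 := le_of_mul_le_mul_right h3 hk0
    exact_mod_cast h4
  have hst : i1 * kk t ≤ t := by
    have : (i1 : ℝ) * kk t ≤ t := by
      refine hi1a.trans ?_
      linarith
    exact_mod_cast this
  have c2 : 4 ^ (i1 * kk t + kk t) * 3 ^ ⌊e1 ε * t⌋₊ ≤ 3 ^ (i1 * kk t) * H ^ 2 := by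
    have h3 := pow_le_of_log2 (a := i1 * kk t + kk t) (b := ⌊e1 ε * t⌋₊) (c := i1 * kk t) (d := 0) hH (by
      push_cast
      have h5 : (i1 : ℝ) * kk t * mu2 ≤ (1 - ε) * t * mu2 := mul_le_mul_of_nonneg_right hi1a hmu.le
      have h6 : ((i1 : ℝ) * kk t + kk t) * Real.log 4 = i1 * kk t * mu2 + i1 * kk t * Real.log 3 + kk t * Real.log 4 := by
        rw [hmudef]; ring
      rw [h6]
      linarith)
    simpa using h3
  have c3 : 4 ^ (i1 * kk t + 2 * ll t) * 3 ^ ⌊e1 ε * t⌋₊ ≤ 3 ^ (i1 * kk t) * H ^ 2 := by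
    have h3 := pow_le_of_log2 (a := i1 * kk t + 2 * ll t) (b := ⌊e1 ε * t⌋₊) (c := i1 * kk t) (d := 0) hH (by
      push_cast
      have h5 : (i1 : ℝ) * kk t * mu2 ≤ (1 - ε) * t * mu2 := mul_le_mul_of_nonneg_right hi1a hmu.le
      have h6 : ((i1 : ℝ) * kk t + 2 * ll t) * Real.log 4 = i1 * kk t * mu2 + i1 * kk t * Real.log 3 + 2 * ll t * Real.log 4 := by
        rw [hmudef]; ring
      rw [h6]
      linarith)
    simpa using h3
  have c4 : 3 ^ (i0 * kk t + ⌊e1 ε * t⌋₊) ≤ 4 ^ (i0 * kk t) := by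
    have h3 := pow_le_of_log (a := i0 * kk t + ⌊e1 ε * t⌋₊) (b := 0) (c := i0 * kk t) (d := 0) (H := 1) le_rfl (by
      push_cast
      rw [Real.log_one, hmudef]
      have h5 : ε * t * mu2 ≤ (i0 : ℝ) * kk t * mu2 := mul_le_mul_of_nonneg_right hi0a hmu.le
      have h6 : 0 < ε * mu2 * t := by positivity
      linarith)
    simpa using h3
  set a : ℕ := ⌊(1 - 4 * ε) * t / 4⌋₊ with ha
  set b : ℕ := ⌊(1 + 8 * ε) * t / 4⌋₊ + 1 with hb
  set q0 : ℕ := ⌊ε * t⌋₊ with hq0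
  have ha1 : (4 * a : ℝ) ≤ (1 - 4 * ε) * t := by
    have := Nat.floor_le (show 0 ≤ (1 - 4 * ε) * t / 4 by linarith)
    rw [← ha] at this; linarith
  have ha2 : (1 - 4 * ε) * t - 4 ≤ 4 * a := by
    have := Nat.lt_floor_add_one ((1 - 4 * ε) * t / 4)
    rw [← ha] at this; linarith
  have hb1 : (1 + 8 * ε) * t ≤ 4 * b := by
    have := Nat.lt_floor_add_one ((1 + 8 * ε) * t / 4)
    rw [hb]; push_cast; linarith
  have hb2 : (4 * b : ℝ) ≤ (1 + 8 * ε) * t + 4 := by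
    have := Nat.floor_le (show 0 ≤ (1 + 8 * ε) * t / 4 by positivity)
    rw [hb]; push_cast; linarith
  have hq0a : (q0 : ℝ) ≤ ε * t := Nat.floor_le (by positivity)
  have hq01 : 1 ≤ q0 := by
    rw [hq0]
    apply Nat.le_floor
    push_cast
    linarith
  have hab : a + 3 ≤ b := by
    have : (a : ℝ) + 3 ≤ b := by linarith
    exact_mod_cast this
  have ha0 : 1 ≤ a := by
    have : (1 : ℝ) ≤ a := by linarith
    exact_mod_cast this
  have hi1t : ε * (i1 * kk t) ≤ ε * t := by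
    apply mul_le_mul_of_nonneg_left _ hε0.le
    refine hi1a.trans ?_
    linarith
  have hmain := main_lb0 (l := ll t) (δ := ⌊e1 ε * t⌋₊) hk1 hi01 hst c2 c3 c4 hε0.le (m := 2 * (b - a)) (mt := 2 * b)
    (q0 := q0) hq01
    (by
      push_cast
      rw [Nat.cast_sub (by omega : a ≤ b)]
      linarith)
    (by
      push_cast
      linarith)
  have hHr : (0 : ℝ) ≤ H := by positivity
  -- arcsine
  have harc := arc_law (a := a) (b := b) (by omega) hab
  rw [abs_le] at harc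
  have hb0 : (0 : ℝ) < b := by exact_mod_cast (by omega : 0 < b)
  have hratio : (1 - 5 * ε) / (1 + 9 * ε) ≤ (a : ℝ) / b := by
    rw [div_le_div_iff₀ (by linarith) hb0]
    have h3 : (1 - 5 * ε) * t ≤ (4 * a : ℝ) := by linarith
    have h4 : 4 * b ≤ (1 + 9 * ε) * t := by linarith
    have h5 : ((1 - 5 * ε) * t) * (4 * b) ≤ (4 * a : ℝ) * ((1 + 9 * ε) * t) :=
      mul_le_mul h3 h4 (by positivity) (by positivity)
    have h6 : (1 - 5 * ε) * b * (4 * t) ≤ (a : ℝ) * (1 + 9 * ε) * (4 * t) := by linarith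
    exact le_of_mul_le_mul_right h6 (by positivity)
  have hpi := Real.pi_pos
  have h7 : 2 / Real.pi * Real.arcsin √ ((1 - 5 * ε) / (1 + 9 * ε)) ≤ 2 / Real.pi * Real.arcsin √ ((a : ℝ) / b) := by
    apply mul_le_mul_of_nonneg_left _ (by positivity)
    apply Real.monotone_arcsin
    exact Real.sqrt_le_sqrt hratio
  have h8 : 1 / √ (b : ℝ) ≤ 1 / √ ((1 / 16 : ℝ) * t) := by
    apply one_div_le_one_div_of_le (Real.sqrt_pos.2 (by positivity))
    apply Real.sqrt_le_sqrt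
    linarith
  have h9 : 4 / ((b : ℝ) - a) ≤ 4 / (ε * t) := by
    apply div_le_div_of_nonneg_left (by norm_num) (by positivity)
    linarith
  have h10 : Er ε t = (t + 1) * (56 * (t + 1) ^ 2 * (4 ^ ll t : ℝ) ^ 2 * Real.exp (-((ε * kk t) ^ 2 / (2 * kk t)))) +
      (t + 1) * (12 * (t + 1) * 4 ^ ll t * Real.exp (-((ε * kk t) ^ 2 / (2 * kk t)))) := rfl
  have h10' : (0 : ℝ) ≤ (t + 1) * (56 * (t + 1) ^ 2 * (4 ^ ll t : ℝ) ^ 2 * Real.exp (-((ε * kk t) ^ 2 / (2 * kk t)))) := by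
    positivity
  rw [h10] at herrt
  set R : ℝ := 2 * kk t / √ q0 + 4 * pb t (fun n => ¬ Gd t (4 ^ ll t : ℕ) (⌊e1 ε * t⌋₊ : ℕ) n) +
      (t + 1) * (12 * (t + 1) * 4 ^ ll t * Real.exp (-((ε * kk t) ^ 2 / (2 * kk t)))) with hR
  have h11 : 1 - η + R ≤ F (2 * (b - a)) (2 * b) 0 := by
    linarith [harc.1]
  have h12 := mul_le_mul_of_nonneg_left h11 hHr
  have h13 : (H : ℝ) * (1 - η + R) = H * (1 - η) + H * R := by ring
  rw [h13] at h12
  linarith

/-- At or above the critical exponent hardly any pair is merged. -/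
theorem int_sup {τ θ : ℝ} (hτ : 0 < τ) (hτ1 : τ ≤ 1) (hθ : τ * th0 ≤ θ) (hθ1 : θ < 1) {η : ℝ} (hη : 0 < η) :
    ∀ᶠ N : ℕ in atTop, ∀ x : ℕ → ℤ,
      ∑ h ∈ Icc 1 (HN θ N), cnt (x h) N (fun n => T^[tN τ N] n = T^[tN τ N] (n + (h : ℕ))) ≤ η * (N * HN θ N) := by
  have hth := th0_pos
  have hmu := mu2_pos
  have hθ0 : 0 < θ := lt_of_lt_of_le (mul_pos hτ hth) hθ
  obtain ⟨ι, hι, κ, hκ0, hκ1, t0, ht0⟩ := asym_lb1 (show 0 < η / 4 by linarith)
  filter_upwards [ratio_cond hτ hθ0 hι, (tN_tendsto hτ).eventually_ge_atTop (max t0 1),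
    (HN_tendsto hθ0).eventually_ge_atTop 1, Bsmall hτ hτ1 hθ1 (show 0 < η / 2 by linarith),
    eventually_ge_atTop 1] with N h2 h3 h4 h5 hN
  intro x
  have hN0 : (0 : ℝ) < N := by exact_mod_cast hN
  have hN1 : (1 : ℝ) ≤ N := by exact_mod_cast hN
  set t := tN τ N with ht
  set H := HN θ N with hH
  have hH0 : (0 : ℝ) ≤ H := by positivity
  have htt : t0 ≤ t := (le_max_left _ _).trans h3
  have ht1 : 1 ≤ t := (le_max_right _ _).trans h3
  have ht0r : (0 : ℝ) < t := by exact_mod_cast ht1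
  have h2t : (2 : ℝ) ^ t ≤ N := by
    refine (two_pow_tN hτ.le hN).trans ?_
    calc (N : ℝ) ^ τ ≤ (N : ℝ) ^ (1 : ℝ) := Real.rpow_le_rpow_of_exponent_le hN1 hτ1
      _ = N := Real.rpow_one _
  have hge1 : 1 ≤ θ / (τ * th0) := by rw [le_div_iff₀ (mul_pos hτ hth), one_mul]; exact hθ
  have hcond : (1 - ι) * mu2 * t ≤ 2 * Real.log H := by
    refine le_trans ?_ h2.1
    have : 0 < mu2 * t := by positivity
    nlinarith
  have hlb := ht0 t htt H h4 hcond
  set δ : ℕ := ⌊κ * t⌋₊ with hδ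
  have hδ1 : (δ : ℝ) ≤ t / 100 := by
    have : (δ : ℝ) ≤ κ * t := Nat.floor_le (by positivity)
    have h6 : κ * t ≤ 1 / 100 * t := mul_le_mul_of_nonneg_right hκ1 (by positivity)
    linarith
  set B : ℝ := 2 * H + 2 * (4 ^ ll t) * (N : ℝ) ^ (1 / 4 : ℝ) with hB
  have hB0 : 0 ≤ B := by positivity
  have hper : ∀ h : ℕ, Per t (fun n => ¬ Su h t (ll t) δ n) := by
    intro h
    apply Per.comp (f := Su h t (ll t) δ) _ (fun p => ¬ p)
    intro n u
    unfold Su
    have e1 := per_Gd t (4 ^ ll t) (δ : ℕ) n u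
    have e2 := ((per_Gd t (4 ^ ll t) (δ : ℕ)).shift h) n u
    have e3 := per_Dd h (le_refl t) n u
    simp only at e2
    rw [e1, e2, e3]
  have hcov : ∀ h ∈ Icc 1 H, cnt (x h) N (fun n => T^[t] n = T^[t] (n + (h : ℕ))) ≤
      2 * N * (1 - pb t (Su h t (ll t) δ)) + η / 2 * N := by
    intro h hh
    rw [mem_Icc] at hh
    have hhH : (h : ℝ) ≤ H := by exact_mod_cast hh.2
    have q1 : cnt (x h) N (fun n => T^[t] n = T^[t] (n + (h : ℕ))) ≤
        cnt (x h) N (fun n => ¬ Su h t (ll t) δ n ∨ |(n : ℝ)| ≤ B) := by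
      apply cnt_mono
      intro n he
      by_cases hn : Su h t (ll t) δ n
      · right
        obtain ⟨g1, g2, g3⟩ := hn
        have q2 := accident (L := 4 ^ ll t) (W := (N : ℝ) ^ (1 / 4 : ℝ)) (g1 t le_rfl).1 (g2 t le_rfl).1 g3 he
          (Gd_pow g1 hδ1 hN h2t) (Gd_pow g2 hδ1 hN h2t)
        refine q2.trans ?_
        rw [hB]
        push_cast
        linarith
      · left; exact hn
    refine q1.trans ((cnt_or _ _ _ _).trans ?_)
    have q3 := small_cnt (x h) N hB0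
    have q4 : 2 * B + 1 ≤ η / 2 * N := h5
    have q5 := cnt_upper (hper h) (x h) N
    rw [pb_not] at q5
    have q6 : ((N : ℝ) + 2 ^ t) * (1 - pb t (Su h t (ll t) δ)) ≤ 2 * N * (1 - pb t (Su h t (ll t) δ)) := by
      apply mul_le_mul_of_nonneg_right (by linarith)
      have := pb_le_one t (Su h t (ll t) δ)
      linarith
    linarith
  refine (sum_le_sum hcov).trans ?_
  rw [sum_add_distrib, sum_const, Nat.card_Icc, nsmul_eq_mul, Nat.add_sub_cancel, ← mul_sum, sum_sub_distrib,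
    sum_const, Nat.card_Icc, nsmul_eq_mul, Nat.add_sub_cancel, mul_one]
  have q7 : 2 * (N : ℝ) * (H - ∑ h ∈ Icc 1 H, pb t (Su h t (ll t) δ)) ≤ 2 * N * (η / 4 * H) := by
    apply mul_le_mul_of_nonneg_left _ (by positivity)
    linarith
  linarith

/-! Conversion to cardinalities. -/

theorem card_pairs (x : ℤ) (N H : ℕ) (P : ℤ → ℕ → Prop) [∀ n h, Decidable (P n h)] :
    (#{p ∈ Ioc x (x + N) ×ˢ Icc 1 H | P p.1 p.2} : ℝ) = ∑ h ∈ Icc 1 H, cnt (x + 1) N (fun n => P n h) := by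
  classical
  rw [card_filter, sum_product_right]
  push_cast
  apply sum_congr rfl
  intro h _
  unfold cnt
  refine sum_nbij' (fun n => (n - x - 1).toNat) (fun i => x + 1 + (i : ℕ)) ?_ ?_ ?_ ?_ ?_
  · intro n hn
    rw [mem_Ioc] at hn
    rw [mem_range]; omega
  · intro i hi
    rw [mem_range] at hi
    rw [mem_Ioc]; omega
  · intro n hn
    rw [mem_Ioc] at hn
    omega
  · intro i hi
    rw [mem_range] at hi
    omega
  · intro n hn
    rw [mem_Ioc] at hn
    have : x + 1 + ((n - x - 1).toNat : ℤ) = n := by omega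
    rw [this]
    simp only
    congr

end Pool.Agent.J4H39
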